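import Mathlib

/-!
# The rotation number

`q_0 = 1`, `q_{k+1} = q_k ^ 3 * 2 ^ N`; `α = al N = ∑_{k ≥ 1} 1 / q_k`;
`η_k = et N k = q_k α - p_k = ∑_{j > k} q_k / q_j`; `y1 = yy N = 2 ∑_k η_k`.

Proofs (all for `N ≥ 10`).
* `qq N k` is a power of two, divides `qq N (k + 1)`; `qq N (k+1) ≥ 2 ^ N * qq N k ^ 3`, in
  particular `qq N k ≥ 2 ^ (N k)` and the sums converge geometrically.
* `et_eq`: `qq N k * ∑_{j < k} 1 / qq N (j+1) = pp N k` by induction (`pp N (k+1) / qq N (k+1) =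
  pp N k / qq N k + 1 / qq N (k+1)` as `qq N (k+1) = qq N k * (qq N k ^ 2 * 2 ^ N)`), so
  `et N k = qq N k * ∑_{j ≥ k} 1 / qq N (j+1)`.
* `et_lower`, `et_upper`: the first term is `qq N k / qq N (k+1)`, each next one is less than half
  of the previous one.
* `pp_odd`: `qq N k ^ 2 * 2 ^ N` is even.
* `et_succ_le`: `et (k+1) < 2 qq (k+1) / qq (k+2) = 2 / (qq (k+1)^2 2^N)` and
  `et k > qq k / qq (k+1) = 1 / (qq k ^ 2 * 2 ^ N)`.
* `al_pos`, `al_lt`: `al N = et N 0`, `qq N 0 = 1`, `qq N 1 = 2 ^ N`.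
* `yy_pos`, `yy_lt`: `yy = 2 ∑ et ≤ 2 * (2 et 0) < 8 / 2 ^ N`.
* `tail`: from `et_succ_le`, `et (k+1) ≤ ∑_{j > k} et j ≤ 2 et (k + 1)`.
-/

namespace Pool.Agent.H1.Horo

open Set MeasureTheory

def qq (N : ℕ) : ℕ → ℕ
  | 0 => 1
  | k + 1 => qq N k ^ 3 * 2 ^ N

def pp (N : ℕ) : ℕ → ℕ
  | 0 => 0
  | k + 1 => pp N k * (qq N k ^ 2 * 2 ^ N) + 1

noncomputable def al (N : ℕ) : ℝ := ∑' k : ℕ, 1 / (qq N (k + 1) : ℝ)

noncomputable def et (N k : ℕ) : ℝ := qq N k * al N - pp N k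

noncomputable def yy (N : ℕ) : ℝ := 2 * ∑' k : ℕ, et N k

noncomputable def cq (N k : ℕ) : ℝ := 2 * ∑ i ∈ Finset.range k, et N i

theorem qq_pos (N k : ℕ) : 0 < qq N k := by
  induction k with
  | zero => simp [qq]
  | succ k ih => rw [qq]; positivity

theorem qq_pow (N k : ℕ) : ∃ a, qq N k = 2 ^ a := by
  induction k with
  | zero => exact ⟨0, by simp [qq]⟩
  | succ k ih =>
    obtain ⟨a, ha⟩ := ih
    exact ⟨a * 3 + N, by rw [qq, ha, pow_add, pow_mul]⟩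

theorem qq_dvd (N k : ℕ) : qq N k ∣ qq N (k + 1) := by
  rw [qq]
  exact Dvd.dvd.mul_right (dvd_pow_self _ (by norm_num)) _

theorem pp_odd {N : ℕ} (hN : 10 ≤ N) (k : ℕ) : ¬ 2 ∣ pp N (k + 1) := by
  rw [pp]
  have h2 : 2 ∣ pp N k * (qq N k ^ 2 * 2 ^ N) :=
    Dvd.dvd.mul_left (Dvd.dvd.mul_left (dvd_pow_self 2 (by omega)) _) _
  omega

/-- growth: `q_{k+1} ≥ 1024 q_k` -/
theorem qq_growth {N : ℕ} (hN : 10 ≤ N) (k : ℕ) : 1024 * qq N k ≤ qq N (k + 1) := by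
  rw [qq]
  have h1 : 1024 ≤ 2 ^ N := by
    calc 1024 = 2 ^ 10 := by norm_num
      _ ≤ 2 ^ N := Nat.pow_le_pow_right (by norm_num) hN
  have h2 : qq N k ≤ qq N k ^ 3 := Nat.le_self_pow (by norm_num) _
  calc 1024 * qq N k ≤ 2 ^ N * qq N k ^ 3 := Nat.mul_le_mul h1 h2
    _ = _ := Nat.mul_comm _ _

theorem qq_growthR {N : ℕ} (hN : 10 ≤ N) (k : ℕ) : 1024 * (qq N k : ℝ) ≤ qq N (k + 1) := by
  exact_mod_cast qq_growth hN k

theorem qq_posR (N k : ℕ) : (0 : ℝ) < qq N k := by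
  exact_mod_cast qq_pos N k

theorem qq_geom {N : ℕ} (hN : 10 ≤ N) (k j : ℕ) :
    1024 ^ j * (qq N k : ℝ) ≤ qq N (k + j) := by
  induction j with
  | zero => simp
  | succ j ih =>
    have := qq_growthR hN (k + j)
    calc (1024 : ℝ) ^ (j + 1) * qq N k = 1024 * (1024 ^ j * qq N k) := by ring
      _ ≤ 1024 * qq N (k + j) := by linarith
      _ ≤ qq N (k + j + 1) := this

theorem inv_qq_le {N : ℕ} (hN : 10 ≤ N) (k j : ℕ) :
    1 / (qq N (k + j + 1) : ℝ) ≤ (1 / 1024) ^ j * (1 / (qq N (k + 1) : ℝ)) := by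
  have h := qq_geom hN (k + 1) j
  have h1 := qq_posR N (k + 1)
  have e : k + 1 + j = k + j + 1 := by ring
  rw [e] at h
  have h2 : (0 : ℝ) < 1024 ^ j * qq N (k + 1) := by positivity
  calc 1 / (qq N (k + j + 1) : ℝ) ≤ 1 / (1024 ^ j * qq N (k + 1)) :=
        one_div_le_one_div_of_le h2 h
    _ = (1 / 1024) ^ j * (1 / (qq N (k + 1) : ℝ)) := by
        rw [one_div_pow]; field_simp

theorem summable_inv_qq' {N : ℕ} (hN : 10 ≤ N) (k : ℕ) :
    Summable fun j : ℕ => 1 / (qq N (k + j + 1) : ℝ) := by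
  have hs : Summable fun j : ℕ => (1 / 1024 : ℝ) ^ j * (1 / (qq N (k + 1) : ℝ)) :=
    (summable_geometric_of_lt_one (by norm_num) (by norm_num)).mul_right _
  exact Summable.of_nonneg_of_le (fun j => by have := qq_posR N (k + j + 1); positivity)
    (fun j => inv_qq_le hN k j) hs

theorem summable_inv_qq {N : ℕ} (hN : 10 ≤ N) : Summable fun k : ℕ => 1 / (qq N (k + 1) : ℝ) := by
  have := summable_inv_qq' hN 0
  simpa using this

theorem pp_eq (N k : ℕ) :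
    (pp N k : ℝ) = qq N k * ∑ j ∈ Finset.range k, 1 / (qq N (j + 1) : ℝ) := by
  induction k with
  | zero => simp [pp]
  | succ k ih =>
    rw [Finset.sum_range_succ, mul_add, pp]
    have h1 := qq_posR N k
    have h2 := qq_posR N (k + 1)
    have h3 : (qq N (k + 1) : ℝ) = qq N k * (qq N k ^ 2 * 2 ^ N) := by
      rw [qq]; push_cast; ring
    push_cast
    rw [ih]
    have h4 : (qq N (k + 1) : ℝ) * (1 / (qq N (k + 1) : ℝ)) = 1 := by
      field_simp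
    rw [h4, h3]
    ring

theorem et_eq {N : ℕ} (hN : 10 ≤ N) (k : ℕ) :
    et N k = qq N k * ∑' j : ℕ, 1 / (qq N (k + j + 1) : ℝ) := by
  have h := (summable_inv_qq hN).sum_add_tsum_nat_add k
  rw [et, al, ← h, pp_eq, mul_add]
  have e : ∀ j : ℕ, 1 / (qq N (j + k + 1) : ℝ) = 1 / (qq N (k + j + 1) : ℝ) := fun j => by
    rw [add_comm j k]
  simp_rw [e]
  ring

theorem et_lower {N : ℕ} (hN : 10 ≤ N) (k : ℕ) : (qq N k : ℝ) / qq N (k + 1) < et N k := by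
  rw [et_eq hN, (summable_inv_qq' hN k).tsum_eq_zero_add, mul_add]
  have h1 := qq_posR N k
  have h3 : 0 < ∑' j : ℕ, 1 / (qq N (k + (j + 1) + 1) : ℝ) := by
    have hs := (summable_nat_add_iff 1).2 (summable_inv_qq' hN k)
    refine hs.tsum_pos (fun j => ?_) 0 ?_
    · have := qq_posR N (k + (j + 1) + 1); positivity
    · have := qq_posR N (k + (0 + 1) + 1); positivity
  have h4 := mul_pos h1 h3
  have h5 : (qq N k : ℝ) * (1 / (qq N (k + 0 + 1) : ℝ)) = qq N k / qq N (k + 1) := by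
    rw [add_zero]; ring
  rw [h5]
  linarith

theorem et_upper {N : ℕ} (hN : 10 ≤ N) (k : ℕ) : et N k < 2 * ((qq N k : ℝ) / qq N (k + 1)) := by
  rw [et_eq hN]
  have h1 := qq_posR N k
  have h2 := qq_posR N (k + 1)
  have hs : Summable fun j : ℕ => (1 / 1024 : ℝ) ^ j * (1 / (qq N (k + 1) : ℝ)) :=
    (summable_geometric_of_lt_one (by norm_num) (by norm_num)).mul_right _
  have h3 : ∑' j : ℕ, 1 / (qq N (k + j + 1) : ℝ) ≤
      ∑' j : ℕ, (1 / 1024 : ℝ) ^ j * (1 / (qq N (k + 1) : ℝ)) :=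
    (summable_inv_qq' hN k).tsum_le_tsum (fun j => inv_qq_le hN k j) hs
  rw [tsum_mul_right, tsum_geometric_of_lt_one (by norm_num) (by norm_num)] at h3
  have h4 : (0 : ℝ) < 1 / (qq N (k + 1) : ℝ) := by positivity
  have h5 : ∑' j : ℕ, 1 / (qq N (k + j + 1) : ℝ) < 2 * (1 / (qq N (k + 1) : ℝ)) := by
    refine lt_of_le_of_lt h3 ?_
    have : (1 - 1 / 1024 : ℝ)⁻¹ < 2 := by norm_num
    exact mul_lt_mul_of_pos_right this h4
  calc (qq N k : ℝ) * ∑' j : ℕ, 1 / (qq N (k + j + 1) : ℝ)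
      < qq N k * (2 * (1 / (qq N (k + 1) : ℝ))) := mul_lt_mul_of_pos_left h5 h1
    _ = 2 * ((qq N k : ℝ) / qq N (k + 1)) := by ring

theorem et_pos {N : ℕ} (hN : 10 ≤ N) (k : ℕ) : 0 < et N k := by
  have h := et_lower hN k
  have h1 := qq_posR N k
  have h2 := qq_posR N (k + 1)
  have : (0 : ℝ) < (qq N k : ℝ) / qq N (k + 1) := by positivity
  linarith

theorem ratio_eq (N k : ℕ) :
    (qq N k : ℝ) / qq N (k + 1) = 1 / ((qq N k : ℝ) ^ 2 * 2 ^ N) := by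
  have h1 := qq_posR N k
  rw [qq]; push_cast
  field_simp

theorem et_succ_le {N : ℕ} (hN : 10 ≤ N) (k : ℕ) : et N (k + 1) ≤ et N k / 2 := by
  have h1 := et_lower hN k
  have h2 := et_upper hN (k + 1)
  have h3 := qq_growthR hN k
  have p0 := qq_posR N k
  have p1 := qq_posR N (k + 1)
  rw [ratio_eq] at h1 h2
  have h4 : 1 / ((qq N (k + 1) : ℝ) ^ 2 * 2 ^ N) ≤ 1 / (4 * ((qq N k : ℝ) ^ 2 * 2 ^ N)) := by
    apply one_div_le_one_div_of_le (by positivity)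
    have : 4 * (qq N k : ℝ) ^ 2 ≤ (qq N (k + 1) : ℝ) ^ 2 := by nlinarith
    have hp : (0 : ℝ) < 2 ^ N := by positivity
    calc 4 * ((qq N k : ℝ) ^ 2 * 2 ^ N) = (4 * (qq N k : ℝ) ^ 2) * 2 ^ N := by ring
      _ ≤ (qq N (k + 1) : ℝ) ^ 2 * 2 ^ N := mul_le_mul_of_nonneg_right this hp.le
  have h5 : 1 / (4 * ((qq N k : ℝ) ^ 2 * 2 ^ N)) = (1 / 4) * (1 / ((qq N k : ℝ) ^ 2 * 2 ^ N)) := by
    field_simp
  rw [h5] at h4
  linarith

theorem et_geom {N : ℕ} (hN : 10 ≤ N) (k j : ℕ) : et N (k + j) ≤ (1 / 2) ^ j * et N k := by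
  induction j with
  | zero => simp
  | succ j ih =>
    have := et_succ_le hN (k + j)
    calc et N (k + (j + 1)) ≤ et N (k + j) / 2 := this
      _ ≤ ((1 / 2) ^ j * et N k) / 2 := by linarith
      _ = (1 / 2) ^ (j + 1) * et N k := by ring

theorem summable_et' {N : ℕ} (hN : 10 ≤ N) (k : ℕ) : Summable fun j => et N (k + j) := by
  have hs : Summable fun j : ℕ => (1 / 2 : ℝ) ^ j * et N k :=
    (summable_geometric_of_lt_one (by norm_num) (by norm_num)).mul_right _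
  exact Summable.of_nonneg_of_le (fun j => (et_pos hN _).le) (fun j => et_geom hN k j) hs

theorem summable_et {N : ℕ} (hN : 10 ≤ N) : Summable (et N) := by
  simpa using summable_et' hN 0

theorem tsum_et_le {N : ℕ} (hN : 10 ≤ N) (k : ℕ) : ∑' j, et N (k + j) ≤ 2 * et N k := by
  have hs : Summable fun j : ℕ => (1 / 2 : ℝ) ^ j * et N k :=
    (summable_geometric_of_lt_one (by norm_num) (by norm_num)).mul_right _
  have h := (summable_et' hN k).tsum_le_tsum (fun j => et_geom hN k j) hs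
  rw [tsum_mul_right, tsum_geometric_of_lt_one (by norm_num) (by norm_num)] at h
  norm_num at h
  exact h

theorem le_tsum_et {N : ℕ} (hN : 10 ≤ N) (k : ℕ) : et N k ≤ ∑' j, et N (k + j) := by
  have h := (summable_et' hN k).le_tsum 0 (fun j _ => (et_pos hN _).le)
  simpa using h

theorem al_eq (N : ℕ) : al N = et N 0 := by
  simp [et, qq, pp]

theorem al_pos {N : ℕ} (hN : 10 ≤ N) : 0 < al N := by
  rw [al_eq]; exact et_pos hN 0

theorem al_lt {N : ℕ} (hN : 10 ≤ N) : al N < 2 / 2 ^ N := by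
  rw [al_eq]
  have h := et_upper hN 0
  rw [ratio_eq] at h
  simp only [qq, Nat.cast_one, one_pow, one_mul] at h
  calc et N 0 < 2 * (1 / 2 ^ N) := h
    _ = 2 / 2 ^ N := by ring

theorem yy_pos {N : ℕ} (hN : 10 ≤ N) : 0 < yy N := by
  have h := le_tsum_et hN 0
  have h1 := et_pos hN 0
  simp only [zero_add] at h
  rw [yy]; linarith

theorem yy_lt {N : ℕ} (hN : 10 ≤ N) : yy N < 8 / 2 ^ N := by
  have h := tsum_et_le hN 0
  have h1 := al_lt hN
  rw [al_eq] at h1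
  simp only [zero_add] at h
  rw [yy]
  calc 2 * ∑' k, et N k ≤ 2 * (2 * et N 0) := by linarith
    _ < 2 * (2 * (2 / 2 ^ N)) := by linarith
    _ = 8 / 2 ^ N := by ring

theorem tail_eq {N : ℕ} (hN : 10 ≤ N) (k : ℕ) :
    yy N - cq N (k + 1) = 2 * ∑' j, et N (k + 1 + j) := by
  have h := (summable_et hN).sum_add_tsum_nat_add (k + 1)
  rw [yy, cq, ← h]
  have e : ∀ j : ℕ, et N (j + (k + 1)) = et N (k + 1 + j) := fun j => by rw [add_comm]
  simp_rw [e]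
  ring

/-- `y1 - c_{k+1} = 2 ∑_{j > k} η_j` -/
theorem tail_lower {N : ℕ} (hN : 10 ≤ N) (k : ℕ) : 2 * et N (k + 1) ≤ yy N - cq N (k + 1) := by
  rw [tail_eq hN]
  have := le_tsum_et hN (k + 1)
  linarith

theorem tail_upper {N : ℕ} (hN : 10 ≤ N) (k : ℕ) : yy N - cq N (k + 1) ≤ 4 * et N (k + 1) := by
  rw [tail_eq hN]
  have := tsum_et_le hN (k + 1)
  linarith

end Pool.Agent.H1.Horo
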