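import Mathlib

/-!
Arithmetic data of the construction: Veech's skew product over an irrational rotation with a
measurable transfer function, the set `Svec` of (differences of) branch points, the set `Surv` of
times at which the short vector condition holds at all scales.
-/

namespace Pool.Agent.H1.Horo

open Set MeasureTheory

/-- The skewing function: `-1` on `[0, y1)` mod 1, and `1` elsewhere. -/
noncomputable def kap (y1 y : ℝ) : ℝ := if Int.fract y < y1 then -1 else 1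

/-- Diophantine conditions (D1), (D2). -/
structure Dioph (α y1 : ℝ) : Prop where
  d1 : ∃ C > 0, ∀ q p : ℤ, q ≠ 0 → C ≤ |(q : ℝ) * α + p| * |(q : ℝ)| ^ 2
  d2 : ∃ C > 0, ∀ q p : ℤ, C ≤ |y1 + (q : ℝ) * α + p| * (|(q : ℝ)| + 1) ^ 6

/-- The data of Veech's example: rotation number `α`, length `y1` of the slit, transfer function
`φ` with values `1, -1`, exceptional null set `N0`, smallness parameter `δ`. -/
structure Veech (δ : ℝ) where
  α : ℝ
  y1 : ℝ
  φ : ℝ → ℝ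
  N0 : Set ℝ
  α_pos : 0 < α
  α_lt : α < δ
  y1_pos : 0 < y1
  y1_lt : y1 < δ
  meas : Measurable φ
  val : ∀ y, φ y = 1 ∨ φ y = -1
  per : ∀ y, φ (y + 1) = φ y
  null : volume N0 = 0
  N0_one : ∀ y, y + 1 ∈ N0 ↔ y ∈ N0
  N0_α : ∀ y, y + α ∈ N0 ↔ y ∈ N0
  coc : ∀ y, y ∉ N0 → φ (y + α) = kap y1 y * φ y
  small : volume ({y | φ y = -1} ∩ Icc 0 1) ≤ ENNReal.ofReal δ
  dioph : Dioph α y1

namespace Veech
variable {δ : ℝ} (V : Veech δ)

/-- The primitive of the transfer function. -/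
noncomputable def G (y : ℝ) : ℝ := ∫ t in (0 : ℝ)..y, V.φ t
noncomputable def γ : ℝ := V.G 1
noncomputable def γ' : ℝ := V.G V.α

end Veech

/-- The nonzero differences of branch points (up to sign): nonzero vectors of the lattice
generated by `(0,1)`, `(1,α)` and vectors of its translate by `(0,y1)`. -/
def Svec (α y1 : ℝ) : Set (ℝ × ℝ) :=
  {w | ∃ q p : ℤ, (w = ((q : ℝ), (q : ℝ) * α + p) ∧ (q ≠ 0 ∨ p ≠ 0)) ∨
    w = ((q : ℝ), y1 + (q : ℝ) * α + p)}

/-- The times at which, at all scales `K ^ i ≥ p0`, there is a short vector in the sheared and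
renormalised `Svec`. -/
def Surv (α y1 : ℝ) (K : ℕ) (r0 p0 : ℝ) : Set ℝ :=
  {s | ∀ i : ℕ, p0 ≤ (K : ℝ) ^ i → ∃ w ∈ Svec α y1, |w.1 + s * w.2| ≤ r0 * (K : ℝ) ^ i ∧
    |w.2| ≤ r0 / (K : ℝ) ^ i}

/-- open 2-neighbourhood -/
def nbhd (R : Set ℝ) : Set ℝ := {s | ∃ t ∈ R, |s - t| < 2}

/-- `R` is sparse: its 2-neighbourhood meets `[X, 2X]` and `[-2X, -X]` in measure
`O(X ^ (19/20))`. -/
def Sparse (R : Set ℝ) : Prop :=
  ∃ C : ℝ, ∀ X : ℝ, 1 ≤ X →
    volume (nbhd R ∩ {s | X ≤ |s| ∧ |s| ≤ 2 * X}) ≤ ENNReal.ofReal (C * X ^ (19 / 20 : ℝ))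

end Pool.Agent.H1.Horo
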