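import Pool.Agent.H1.Horo.ArBasic
import Pool.Agent.H1.Horo.Basic

/-!
# Diophantine conditions

PROOF of `dioph_d1`, with `C = 2 ^ (-N)`.  For `q ≠ 0` take `k` with `q_k ≤ |q| < q_{k+1}`;
`α = p_k / q_k + η_k / q_k`, `gcd (p_k, q_k) = 1` (`p_k` odd, `q_k` a power of two, `k ≥ 1`), and
`η_k / q_k < 2 / q_{k+1}`.
(A) `q_k ∤ q`, `|q| ≤ q_{k+1} / (4 q_k)`: `|q p_k / q_k + p| ≥ 1 / q_k`, so
    `|q α + p| ≥ 1 / q_k - 2 |q| / q_{k+1} ≥ 1 / (2 q_k) ≥ 1 / (2 |q|)`, times `|q|^2` is `≥ 1/2`.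
(B) `|q| > q_{k+1} / (4 q_k)`: `q_{k+1} ∤ q` as `0 < |q| < q_{k+1}`, so with level `k + 1`:
    `|q α + p| ≥ 1 / q_{k+1} - |q| η_{k+1} / q_{k+1} ≥ 1 / q_{k+1} - η_{k+1} ≥ 1 / (2 q_{k+1})`
    (`η_{k+1} < 2 / (q_{k+1}^2 2^N)`); times `|q|^2 > q_{k+1}^2 / (16 q_k^2)` it is
    `≥ q_{k+1} / (32 q_k ^ 2) = q_k 2^N / 32 ≥ 1`.
(C) `q = m q_k`, `|q| ≤ q_{k+1} / (4 q_k)`: `q α + p = (m p_k + p) + m η_k`,
    `|m η_k| ≤ 2 |q| / q_{k+1} ≤ 1/2`; if the integer `m p_k + p` is not `0` the value is `≥ 1/2`,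
    else it is `|m| η_k ≥ q_k / q_{k+1} = 1 / (q_k^2 2^N) ≥ 1 / (|q|^2 2^N)`.
The auxiliary statement `not_dvd_bound` (used in (A), (B) and below): if `q_k ∤ q` then
`|q p_k / q_k + p| ≥ 1 / q_k`, thus `|q α + p| ≥ 1/q_k - |q| η_k / q_k`.

PROOF of `dioph_d2`.  `Q_k = ∑_{j ≤ k} q_j ≤ 2 q_k`, `c_{k+1} = 2 ∑_{j ≤ k} η_j = 2 Q_k α - 2 ∑_{j ≤ k} p_j`
and `y1 = c_{k+1} + T_k`, `2 η_{k+1} ≤ T_k ≤ 4 η_{k+1}` (`tail_lower`, `tail_upper`).  So
`y1 + q α + p = (q + 2 Q_k) α + p'' + T_k`, `p'' ∈ ℤ`.  Let `k` be minimal with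
`|q| + 2 Q_k < q_{k+1}` (exists as `q_{k+1} ≥ 2^N q_k ^ 3`, `Q_k ≤ 2 q_k`).
(i) `q + 2 Q_k = 0`: the value is `|p'' + T_k|`, at least `1/2` if `p'' ≠ 0`, and
    `T_k ≥ 2 η_{k+1} ≥ 2 / (q_{k+1}^2 2^N) = 2 / (q_k^6 2^(3N))` if `p'' = 0`; here `|q| = 2 Q_k ≥ 2 q_k`.
(ii) `q + 2 Q_k ≠ 0`: `|(q + 2 Q_k) α + p''| ≥ 1 / (2 q_{k+1})` as in (B), and
    `T_k ≤ 4 η_{k+1} ≤ 8 / (q_{k+1}^2 2^N) ≤ 1 / (4 q_{k+1})`, so the value is `≥ 1 / (4 q_{k+1})`.
    If `k = 0` this is `1 / (4 * 2^N)`.  If `k ≥ 1`, by minimality `|q| + 2 Q_{k-1} ≥ q_k`, so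
    `|q| ≥ q_k - 4 q_{k-1} ≥ q_k / 2` and `q_{k+1} = q_k^3 2^N ≤ 8 |q|^3 2^N`.
-/

namespace Pool.Agent.H1.Horo

open Set MeasureTheory

theorem al_eq_div (N k : ℕ) : al N = ((pp N k : ℝ) + et N k) / qq N k := by
  have h := qq_posR N k
  rw [et]
  field_simp
  ring

theorem qq_succR (N k : ℕ) : (qq N (k + 1) : ℝ) = (qq N k : ℝ) ^ 3 * 2 ^ N := by
  rw [qq]; push_cast; ring

theorem one_le_qqR (N k : ℕ) : (1 : ℝ) ≤ qq N k := by
  exact_mod_cast qq_pos N k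

theorem two_powN {N : ℕ} (hN : 10 ≤ N) : (1024 : ℝ) ≤ 2 ^ N := by
  calc (1024 : ℝ) = 2 ^ 10 := by norm_num
    _ ≤ 2 ^ N := pow_le_pow_right₀ (by norm_num) hN

theorem not_dvd_bound {N : ℕ} (hN : 10 ≤ N) (k : ℕ) {q : ℤ} (hq : ¬ (qq N k : ℤ) ∣ q) (p : ℤ) :
    1 / (qq N k : ℝ) - |(q : ℝ)| * et N k / qq N k ≤ |(q : ℝ) * al N + p| := by
  have hQ := qq_posR N k
  have he := et_pos hN k
  have hm : q * (pp N k : ℤ) + p * (qq N k : ℤ) ≠ 0 := by
    intro h0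
    apply hq
    cases k with
    | zero => simp [qq]
    | succ k =>
      have hc : IsCoprime (qq N (k + 1) : ℤ) (pp N (k + 1) : ℤ) := by
        rw [Nat.isCoprime_iff_coprime]
        obtain ⟨a, ha⟩ := qq_pow N (k + 1)
        rw [ha]
        apply Nat.Coprime.pow_left
        exact (Nat.Prime.coprime_iff_not_dvd Nat.prime_two).2 (pp_odd hN k)
      have hd : (qq N (k + 1) : ℤ) ∣ q * (pp N (k + 1) : ℤ) :=
        ⟨-p, by linear_combination h0⟩
      exact hc.dvd_of_dvd_mul_right hd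
  have h1 : (1 : ℝ) ≤ |(q : ℝ) * pp N k + p * qq N k| := by
    have := Int.one_le_abs hm
    have h2 : ((1 : ℤ) : ℝ) ≤ ((|q * (pp N k : ℤ) + p * (qq N k : ℤ)| : ℤ) : ℝ) := by
      exact_mod_cast this
    push_cast at h2
    exact h2
  have h3 : (q : ℝ) * al N + p =
      ((q : ℝ) * pp N k + p * qq N k) / qq N k - (-((q : ℝ) * et N k / qq N k)) := by
    rw [al_eq_div N k]
    field_simp
    ring
  rw [h3]
  refine le_trans ?_ (abs_sub_abs_le_abs_sub _ _)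
  rw [abs_neg, abs_div, abs_div, abs_mul, abs_of_pos hQ, abs_of_pos he]
  have h4 : 1 / (qq N k : ℝ) ≤ |(q : ℝ) * pp N k + p * qq N k| / qq N k :=
    div_le_div_of_nonneg_right h1 hQ.le
  linarith

/-- level bound -/
theorem level_bound {N : ℕ} (hN : 10 ≤ N) (k : ℕ) {q : ℤ} (hq0 : q ≠ 0)
    (hq : |(q : ℝ)| < qq N (k + 1)) (p : ℤ) :
    1 / (2 * (qq N (k + 1) : ℝ)) ≤ |(q : ℝ) * al N + p| := by
  have hQ := qq_posR N (k + 1)
  have hQ1 := one_le_qqR N (k + 1)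
  have he := et_pos hN (k + 1)
  have hnd : ¬ (qq N (k + 1) : ℤ) ∣ q := by
    intro hd
    have h1 := Int.le_of_dvd (abs_pos.2 hq0) ((dvd_abs _ _).2 hd)
    have h2 : (((qq N (k + 1) : ℤ)) : ℝ) ≤ ((|q| : ℤ) : ℝ) := by exact_mod_cast h1
    push_cast at h2
    linarith
  refine le_trans ?_ (not_dvd_bound hN (k + 1) hnd p)
  have h1 : |(q : ℝ)| * et N (k + 1) / qq N (k + 1) ≤ et N (k + 1) := by
    rw [div_le_iff₀ hQ]
    nlinarith
  have h2 : et N (k + 1) ≤ 1 / (2 * (qq N (k + 1) : ℝ)) := by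
    have h3 := et_upper hN (k + 1)
    rw [ratio_eq] at h3
    have h4 : 2 * (1 / ((qq N (k + 1) : ℝ) ^ 2 * 2 ^ N)) ≤ 1 / (2 * (qq N (k + 1) : ℝ)) := by
      rw [mul_one_div, div_le_div_iff₀ (by positivity) (by positivity)]
      have := two_powN hN
      have h5 : (qq N (k + 1) : ℝ) * 4 ≤ (qq N (k + 1) : ℝ) ^ 2 * 2 ^ N := by
        have h6 : (qq N (k + 1) : ℝ) ≤ (qq N (k + 1) : ℝ) ^ 2 := by nlinarith
        exact mul_le_mul h6 (by linarith) (by norm_num) (by positivity)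
      linarith
    linarith
  have h3 : 1 / (2 * (qq N (k + 1) : ℝ)) + 1 / (2 * (qq N (k + 1) : ℝ)) =
      1 / (qq N (k + 1) : ℝ) := by
    field_simp; norm_num
  linarith

theorem qq_lt_of_index {N : ℕ} (hN : 10 ≤ N) (j : ℕ) : (j : ℝ) < qq N j := by
  have h := qq_geom hN 0 j
  have h1 : (qq N 0 : ℝ) = 1 := by simp [qq]
  rw [h1, mul_one, zero_add] at h
  have h2 : (j : ℝ) < 1024 ^ j := by
    have h3 : j < 1024 ^ j := Nat.lt_pow_self (by norm_num)
    exact_mod_cast h3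
  linarith

theorem dioph_d1 {N : ℕ} (hN : 10 ≤ N) :
    ∃ C > 0, ∀ q p : ℤ, q ≠ 0 → C ≤ |(q : ℝ) * al N + p| * |(q : ℝ)| ^ 2 := by
  have h2N := two_powN hN
  refine ⟨1 / 2 ^ N, by positivity, fun q p hq0 => ?_⟩
  have hC : (1 : ℝ) / 2 ^ N ≤ 1 / 1024 := one_div_le_one_div_of_le (by norm_num) h2N
  have hq1 : (1 : ℝ) ≤ |(q : ℝ)| := by
    have := Int.one_le_abs hq0
    exact_mod_cast this
  -- choice of `k`
  have hex : ∃ k, |(q : ℝ)| < qq N (k + 1) := by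
    refine ⟨q.natAbs, ?_⟩
    have h1 := qq_lt_of_index hN (q.natAbs)
    have h2 := qq_growthR hN q.natAbs
    have h3 : ((q.natAbs : ℕ) : ℝ) = |(q : ℝ)| := by
      rw [Nat.cast_natAbs, Int.cast_abs]
    rw [h3] at h1
    have h4 := qq_posR N q.natAbs
    linarith
  classical
  obtain ⟨k, hk, hmin⟩ : ∃ k, |(q : ℝ)| < qq N (k + 1) ∧ (qq N k : ℝ) ≤ |(q : ℝ)| := by
    refine ⟨Nat.find hex, Nat.find_spec hex, ?_⟩
    cases hkk : Nat.find hex with
    | zero => simpa [qq] using hq1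
    | succ m =>
      have := Nat.find_min hex (m := m) (by omega)
      push Not at this
      exact this
  have hQ := qq_posR N k
  have hQ' := qq_posR N (k + 1)
  have hQ1 := one_le_qqR N k
  by_cases hB : |(q : ℝ)| * (4 * qq N k) ≤ qq N (k + 1)
  · by_cases hd : (qq N k : ℤ) ∣ q
    · -- case (C)
      obtain ⟨m, hm⟩ := hd
      have hm0 : m ≠ 0 := by rintro rfl; simp at hm; exact hq0 hm
      have hmR : (q : ℝ) = qq N k * m := by rw [hm]; push_cast; ring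
      have e1 : (q : ℝ) * al N + p = ((m * (pp N k : ℤ) + p : ℤ) : ℝ) + m * et N k := by
        rw [hmR, al_eq_div N k]; push_cast; field_simp; ring
      have he := et_pos hN k
      have heu := et_upper hN k
      have hel := et_lower hN k
      have hm1 : (1 : ℝ) ≤ |(m : ℝ)| := by
        have := Int.one_le_abs hm0
        exact_mod_cast this
      have hqm : |(q : ℝ)| = qq N k * |(m : ℝ)| := by rw [hmR, abs_mul, abs_of_pos hQ]
      have h5 : |(m : ℝ) * et N k| ≤ 1 / 2 := by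
        rw [abs_mul, abs_of_pos he]
        have h6 : |(m : ℝ)| * et N k ≤ |(m : ℝ)| * (2 * ((qq N k : ℝ) / qq N (k + 1))) :=
          mul_le_mul_of_nonneg_left heu.le (abs_nonneg _)
        have h7 : |(m : ℝ)| * (2 * ((qq N k : ℝ) / qq N (k + 1))) =
            2 * |(q : ℝ)| / qq N (k + 1) := by rw [hqm]; ring
        have h8 : 2 * |(q : ℝ)| / qq N (k + 1) ≤ 1 / 2 := by
          rw [div_le_div_iff₀ hQ' (by norm_num)]
          nlinarith
        linarith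
      by_cases hz : m * (pp N k : ℤ) + p = 0
      · rw [e1, hz]
        have h6 : |((0 : ℤ) : ℝ) + (m : ℝ) * et N k| = |(m : ℝ)| * et N k := by
          rw [Int.cast_zero, zero_add, abs_mul, abs_of_pos he]
        rw [h6]
        rw [ratio_eq] at hel
        have h7 : 1 / ((qq N k : ℝ) ^ 2 * 2 ^ N) ≤ |(m : ℝ)| * et N k := by nlinarith
        have h8 : (qq N k : ℝ) ^ 2 ≤ |(q : ℝ)| ^ 2 := by
          apply pow_le_pow_left₀ hQ.le hmin
        calc (1 : ℝ) / 2 ^ N = 1 / ((qq N k : ℝ) ^ 2 * 2 ^ N) * (qq N k : ℝ) ^ 2 := by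
              field_simp
          _ ≤ (|(m : ℝ)| * et N k) * |(q : ℝ)| ^ 2 := by
              apply mul_le_mul h7 h8 (by positivity) (by positivity)
      · have h6 : (1 : ℝ) ≤ |((m * (pp N k : ℤ) + p : ℤ) : ℝ)| := by
          have := Int.one_le_abs hz
          exact_mod_cast this
        have h7 : (1 : ℝ) / 2 ≤ |(q : ℝ) * al N + p| := by
          rw [e1]
          have h8 : ((m * (pp N k : ℤ) + p : ℤ) : ℝ) + m * et N k =
              ((m * (pp N k : ℤ) + p : ℤ) : ℝ) - (-(m * et N k)) := by ring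
          rw [h8]
          refine le_trans ?_ (abs_sub_abs_le_abs_sub _ _)
          rw [abs_neg]
          linarith
        have h9 : (1 : ℝ) ≤ |(q : ℝ)| ^ 2 := one_le_pow₀ hq1
        nlinarith [abs_nonneg ((q : ℝ) * al N + p)]
    · -- case (A)
      have h1 := not_dvd_bound hN k hd p
      have heu := et_upper hN k
      have h2 : |(q : ℝ)| * et N k / qq N k ≤ 1 / (2 * qq N k) := by
        have h3 : |(q : ℝ)| * et N k / qq N k ≤
            |(q : ℝ)| * (2 * ((qq N k : ℝ) / qq N (k + 1))) / qq N k := by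
          apply div_le_div_of_nonneg_right _ hQ.le
          exact mul_le_mul_of_nonneg_left heu.le (abs_nonneg _)
        have h4 : |(q : ℝ)| * (2 * ((qq N k : ℝ) / qq N (k + 1))) / qq N k =
            2 * |(q : ℝ)| / qq N (k + 1) := by field_simp
        have h5 : 2 * |(q : ℝ)| / qq N (k + 1) ≤ 1 / (2 * qq N k) := by
          rw [div_le_div_iff₀ hQ' (by positivity)]
          nlinarith
        linarith
      have h3 : 1 / (2 * (qq N k : ℝ)) + 1 / (2 * (qq N k : ℝ)) = 1 / (qq N k : ℝ) := by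
        field_simp; norm_num
      have h4 : 1 / (2 * (qq N k : ℝ)) ≤ |(q : ℝ) * al N + p| := by linarith
      have h5 : (qq N k : ℝ) ≤ |(q : ℝ)| ^ 2 := by nlinarith
      have h6 : (1 : ℝ) / 2 ≤ |(q : ℝ) * al N + p| * |(q : ℝ)| ^ 2 := by
        calc (1 : ℝ) / 2 = 1 / (2 * (qq N k : ℝ)) * qq N k := by field_simp
          _ ≤ |(q : ℝ) * al N + p| * |(q : ℝ)| ^ 2 :=
            mul_le_mul h4 h5 hQ.le (abs_nonneg _)
      linarith
  · -- case (B)
    push Not at hB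
    have h1 := level_bound hN k hq0 hk p
    have h2 : (qq N (k + 1) : ℝ) ^ 2 ≤ |(q : ℝ)| ^ 2 * (16 * (qq N k : ℝ) ^ 2) := by
      calc (qq N (k + 1) : ℝ) ^ 2 ≤ (|(q : ℝ)| * (4 * qq N k)) ^ 2 :=
            pow_le_pow_left₀ hQ'.le hB.le 2
        _ = _ := by ring
    have h3 : (qq N (k + 1) : ℝ) ^ 2 / (16 * (qq N k : ℝ) ^ 2) ≤ |(q : ℝ)| ^ 2 := by
      rw [div_le_iff₀ (by positivity)]; exact h2
    have h4 : (1 : ℝ) ≤ 1 / (2 * (qq N (k + 1) : ℝ)) *
        ((qq N (k + 1) : ℝ) ^ 2 / (16 * (qq N k : ℝ) ^ 2)) := by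
      have e : 1 / (2 * (qq N (k + 1) : ℝ)) *
        ((qq N (k + 1) : ℝ) ^ 2 / (16 * (qq N k : ℝ) ^ 2)) = qq N k * 2 ^ N / 32 := by
        have := qq_succR N k
        field_simp
        rw [this]
        ring
      rw [e]
      nlinarith
    have h5 : 1 / (2 * (qq N (k + 1) : ℝ)) *
        ((qq N (k + 1) : ℝ) ^ 2 / (16 * (qq N k : ℝ) ^ 2)) ≤
        |(q : ℝ) * al N + p| * |(q : ℝ)| ^ 2 :=
      mul_le_mul h1 h3 (by positivity) (abs_nonneg _)
    linarith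

theorem sum_qq_le {N : ℕ} (hN : 10 ≤ N) (k : ℕ) :
    ∑ i ∈ Finset.range (k + 1), (qq N i : ℝ) ≤ 2 * qq N k := by
  induction k with
  | zero => simp [qq]
  | succ k ih =>
    rw [Finset.sum_range_succ]
    have h := qq_growthR hN k
    have h1 := qq_posR N k
    linarith

theorem le_sum_qq (N k : ℕ) :
    (qq N k : ℝ) ≤ ∑ i ∈ Finset.range (k + 1), (qq N i : ℝ) := by
  rw [Finset.sum_range_succ]
  have : 0 ≤ ∑ i ∈ Finset.range k, (qq N i : ℝ) :=
    Finset.sum_nonneg fun i _ => (qq_posR N i).le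
  linarith

theorem dioph_d2 {N : ℕ} (hN : 10 ≤ N) :
    ∃ C > 0, ∀ q p : ℤ, C ≤ |yy N + (q : ℝ) * al N + p| * (|(q : ℝ)| + 1) ^ 6 := by
  have h2N := two_powN hN
  refine ⟨1 / 2 ^ (3 * N), by positivity, fun q p => ?_⟩
  have h3N : (2 : ℝ) ^ (3 * N) = (2 ^ N) ^ 3 := by rw [mul_comm, pow_mul]
  rw [h3N]
  have h2Npos : (0 : ℝ) < 2 ^ N := by positivity
  have hq1 : (1 : ℝ) ≤ (|(q : ℝ)| + 1) ^ 6 := one_le_pow₀ (by linarith [abs_nonneg (q : ℝ)])
  set S : ℕ → ℝ := fun k => ∑ i ∈ Finset.range (k + 1), (qq N i : ℝ) with hS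
  have hex : ∃ k, |(q : ℝ)| + 2 * S k < qq N (k + 1) := by
    refine ⟨q.natAbs, ?_⟩
    have h1 := qq_lt_of_index hN (q.natAbs)
    have h2 := qq_growthR hN q.natAbs
    have h3 : ((q.natAbs : ℕ) : ℝ) = |(q : ℝ)| := by
      rw [Nat.cast_natAbs, Int.cast_abs]
    rw [h3] at h1
    have h4 := qq_posR N q.natAbs
    have h5 := sum_qq_le hN q.natAbs
    simp only [hS]
    linarith
  classical
  obtain ⟨k, hk, hmin⟩ : ∃ k, |(q : ℝ)| + 2 * S k < qq N (k + 1) ∧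
      ∀ m, k = m + 1 → (qq N (m + 1) : ℝ) ≤ |(q : ℝ)| + 2 * S m := by
    refine ⟨Nat.find hex, Nat.find_spec hex, ?_⟩
    intro m hm
    have := Nat.find_min hex (m := m) (by omega)
    push Not at this
    exact this
  have hQ := qq_posR N k
  have hQ' := qq_posR N (k + 1)
  have hQ1 := one_le_qqR N k
  have hQ1' := one_le_qqR N (k + 1)
  have hSl := le_sum_qq N k
  have hSu := sum_qq_le hN k
  -- decomposition
  set T : ℝ := yy N - cq N (k + 1) with hT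
  set A : ℤ := q + 2 * ∑ i ∈ Finset.range (k + 1), (qq N i : ℤ) with hA
  set B : ℤ := p - 2 * ∑ i ∈ Finset.range (k + 1), (pp N i : ℤ) with hB
  have hAR : (A : ℝ) = q + 2 * S k := by
    rw [hA, hS]; push_cast; ring
  have hdec : yy N + (q : ℝ) * al N + p = ((A : ℝ) * al N + B) + T := by
    have hc : cq N (k + 1) = 2 * (S k) * al N -
        2 * ∑ i ∈ Finset.range (k + 1), (pp N i : ℝ) := by
      rw [cq, hS]
      simp only [et]
      rw [Finset.sum_sub_distrib, ← Finset.sum_mul]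
      ring
    have hBR : (B : ℝ) = p - 2 * ∑ i ∈ Finset.range (k + 1), (pp N i : ℝ) := by
      rw [hB]; push_cast; ring
    rw [hT, hc, hAR, hBR]
    ring
  have hTl : 2 * (1 / ((qq N (k + 1) : ℝ) ^ 2 * 2 ^ N)) ≤ T := by
    have h1 := tail_lower hN k
    have h2 := et_lower hN (k + 1)
    rw [ratio_eq] at h2
    linarith
  have hTu : T ≤ 1 / (4 * (qq N (k + 1) : ℝ)) := by
    have h1 := tail_upper hN k
    have h2 := et_upper hN (k + 1)
    rw [ratio_eq] at h2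
    have h4 : 8 * (1 / ((qq N (k + 1) : ℝ) ^ 2 * 2 ^ N)) ≤ 1 / (4 * (qq N (k + 1) : ℝ)) := by
      rw [mul_one_div, div_le_div_iff₀ (by positivity) (by positivity)]
      have h5 : (qq N (k + 1) : ℝ) * 32 ≤ (qq N (k + 1) : ℝ) ^ 2 * 2 ^ N := by
        have h6 : (qq N (k + 1) : ℝ) ≤ (qq N (k + 1) : ℝ) ^ 2 := by nlinarith
        exact mul_le_mul h6 (by linarith) (by norm_num) (by positivity)
      linarith
    linarith
  have hTpos : 0 < T := lt_of_lt_of_le (by positivity) hTl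
  have hT4 : T ≤ 1 / 4 := by
    have : 1 / (4 * (qq N (k + 1) : ℝ)) ≤ 1 / 4 := by
      apply one_div_le_one_div_of_le (by norm_num); linarith
    linarith
  have hCle : 1 / ((2 : ℝ) ^ N) ^ 3 ≤ 1 / 2 := by
    apply one_div_le_one_div_of_le (by norm_num)
    have : (1 : ℝ) ≤ ((2 : ℝ) ^ N) ^ 2 := one_le_pow₀ (by linarith)
    nlinarith
  by_cases hA0 : A = 0
  · by_cases hB0 : B = 0
    · have hv : yy N + (q : ℝ) * al N + p = T := by rw [hdec, hA0, hB0]; simp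
      rw [hv, abs_of_pos hTpos]
      have hqS : |(q : ℝ)| = 2 * S k := by
        have h1 : (q : ℝ) = -(2 * S k) := by
          rw [hA0] at hAR; push_cast at hAR; linarith
        rw [h1, abs_neg, abs_of_nonneg]
        have : 0 ≤ S k := le_trans hQ.le hSl
        linarith
      have h1 : (qq N k : ℝ) ^ 6 ≤ (|(q : ℝ)| + 1) ^ 6 := by
        apply pow_le_pow_left₀ hQ.le
        rw [hqS]
        have hS0 : (qq N k : ℝ) ≤ S k := hSl
        linarith
      have h2 : 2 * (1 / ((qq N (k + 1) : ℝ) ^ 2 * 2 ^ N)) * (qq N k : ℝ) ^ 6 =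
          2 * (1 / ((2 : ℝ) ^ N) ^ 3) := by
        rw [qq_succR]
        field_simp
      have h3 : 2 * (1 / ((qq N (k + 1) : ℝ) ^ 2 * 2 ^ N)) * (qq N k : ℝ) ^ 6 ≤
          T * (|(q : ℝ)| + 1) ^ 6 :=
        mul_le_mul hTl h1 (by positivity) hTpos.le
      have h4 : 0 < 1 / ((2 : ℝ) ^ N) ^ 3 := by positivity
      linarith
    · have hv : (1 : ℝ) / 2 ≤ |yy N + (q : ℝ) * al N + p| := by
        rw [hdec, hA0]
        have h6 : (1 : ℝ) ≤ |(B : ℝ)| := by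
          have := Int.one_le_abs hB0
          exact_mod_cast this
        have h8 : ((0 : ℤ) : ℝ) * al N + B + T = (B : ℝ) - (-T) := by push_cast; ring
        rw [h8]
        refine le_trans ?_ (abs_sub_abs_le_abs_sub _ _)
        rw [abs_neg, abs_of_pos hTpos]
        linarith
      nlinarith
  · have hAlt : |(A : ℝ)| < qq N (k + 1) := by
      rw [hAR]
      refine lt_of_le_of_lt (abs_add_le _ _) ?_
      have : |2 * S k| = 2 * S k := abs_of_nonneg (by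
        have : 0 ≤ S k := le_trans hQ.le hSl
        linarith)
      rw [this]; exact hk
    have hlev := level_bound hN k hA0 hAlt B
    have hv : 1 / (4 * (qq N (k + 1) : ℝ)) ≤ |yy N + (q : ℝ) * al N + p| := by
      rw [hdec]
      have h8 : (A : ℝ) * al N + B + T = ((A : ℝ) * al N + B) - (-T) := by ring
      rw [h8]
      refine le_trans ?_ (abs_sub_abs_le_abs_sub _ _)
      rw [abs_neg, abs_of_pos hTpos]
      have h3 : 1 / (4 * (qq N (k + 1) : ℝ)) + 1 / (4 * (qq N (k + 1) : ℝ)) =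
          1 / (2 * (qq N (k + 1) : ℝ)) := by
        field_simp; norm_num
      linarith
    cases hkk : k with
    | zero =>
      have h1 : (qq N (k + 1) : ℝ) = 2 ^ N := by rw [hkk, qq_succR]; simp [qq]
      rw [h1] at hv
      have h2 : 1 / ((2 : ℝ) ^ N) ^ 3 ≤ 1 / (4 * 2 ^ N) := by
        apply one_div_le_one_div_of_le (by positivity)
        have : (4 : ℝ) ≤ ((2 : ℝ) ^ N) ^ 2 := by nlinarith
        nlinarith
      have h3 : |yy N + (q : ℝ) * al N + p| ≤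
          |yy N + (q : ℝ) * al N + p| * (|(q : ℝ)| + 1) ^ 6 := by
        nlinarith [abs_nonneg (yy N + (q : ℝ) * al N + p)]
      linarith
    | succ m =>
      have hm := hmin m hkk
      have hSm := sum_qq_le hN m
      have hgm := qq_growthR hN m
      have hpm := qq_posR N m
      have hSm' : S m ≤ 2 * qq N m := hSm
      have h1 : (qq N k : ℝ) ≤ 2 * |(q : ℝ)| := by
        rw [hkk]; linarith
      have h2 : (qq N k : ℝ) ≤ 2 * (|(q : ℝ)| + 1) := by linarith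
      have h3 : (qq N (k + 1) : ℝ) ≤ 8 * (|(q : ℝ)| + 1) ^ 3 * 2 ^ N := by
        rw [qq_succR]
        apply mul_le_mul_of_nonneg_right _ h2Npos.le
        calc (qq N k : ℝ) ^ 3 ≤ (2 * (|(q : ℝ)| + 1)) ^ 3 := pow_le_pow_left₀ hQ.le h2 3
          _ = _ := by ring
      set w : ℝ := |(q : ℝ)| + 1 with hw
      have hw1 : 1 ≤ w := by rw [hw]; linarith [abs_nonneg (q : ℝ)]
      have h4 : 1 / (32 * w ^ 3 * 2 ^ N) ≤ 1 / (4 * (qq N (k + 1) : ℝ)) := by
        apply one_div_le_one_div_of_le (by positivity)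
        linarith
      have h5 : 1 / (32 * w ^ 3 * 2 ^ N) * w ^ 6 ≤ |yy N + (q : ℝ) * al N + p| * w ^ 6 := by
        apply mul_le_mul_of_nonneg_right _ (by positivity)
        linarith
      have h6 : 1 / ((2 : ℝ) ^ N) ^ 3 ≤ 1 / (32 * w ^ 3 * 2 ^ N) * w ^ 6 := by
        have e : 1 / (32 * w ^ 3 * 2 ^ N) * w ^ 6 = w ^ 3 / (32 * 2 ^ N) := by
          field_simp
        rw [e, div_le_div_iff₀ (by positivity) (by positivity)]
        have h7 : (1 : ℝ) ≤ w ^ 3 := one_le_pow₀ hw1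
        have h8 : (32 : ℝ) * 2 ^ N ≤ ((2 : ℝ) ^ N) ^ 3 := by
          have : (32 : ℝ) ≤ ((2 : ℝ) ^ N) ^ 2 := by nlinarith
          nlinarith
        nlinarith
      linarith

theorem dioph {N : ℕ} (hN : 10 ≤ N) : Dioph (al N) (yy N) := ⟨dioph_d1 hN, dioph_d2 hN⟩

end Pool.Agent.H1.Horo
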