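import Pool.Agent.H1.Horo.ArBasic
import Pool.Agent.H1.Horo.Basic

/-!
# The transfer function

`psi k y = -1` if `fract y < η_k`, else `1`;
`theta k y = ∏_{j = 1}^{q_k} psi k (y - c_k - j α)`; `N0 = {y : theta k y = -1 infinitely often}`;
`φ = ∏_k theta k` off `N0` and `φ = 1` on `N0`.

PROOF.
* `psi`, `theta` are 1-periodic, measurable, with values `1, -1`.
* `theta_add`: `theta k (y + α) * theta k y = psi k (y - c_k) * psi k (y - c_k - q_k α)` (shift of the
  product, `psi ^ 2 = 1`) and `q_k α = p_k + η_k`, so the second factor is `psi k (y - c_k - η_k)`.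
  As `2 η_k < 1` and `c_{k+1} = c_k + 2 η_k ≤ y1 < 1` this product is `-1` iff
  `fract (y - c_k) < 2 η_k` iff `c_k ≤ fract y < c_{k+1}`.
* `theta_small`: `{theta k = -1} ∩ [0,1]` is contained in the union over `1 ≤ j ≤ q_k` of
  `{y ∈ [0,1] : fract (y - c_k - j α) < η_k}`, each of measure `η_k`; so its measure is at most
  `q_k η_k < 2 q_k^2 / q_{k+1} = 2 / (q_k 2^N)`; the sum over `k` is at most `4 / 2^N`
  (`q_k ≥ 1024 ^ k`).
* `N0` is null: Borel-Cantelli on each `[m, m+1]` (periodicity).  It is invariant under `+ 1`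
  (periodicity) and under `+ α`: for given `y` there is at most one `k` with
  `theta k (y + α) ≠ theta k y`, the intervals `[c_k, c_{k+1})` being disjoint.
* `φ` is measurable: `N0` is measurable, and off `N0` it is the limit of the finite products
  `∏_{j < k} theta j y` (eventually constant).  For instance define
  `φ y = 1` if `y ∈ N0`, else `(-1) ^ (number of k with theta k y = -1)`.
* `coc`: for `y ∉ N0`, `φ (y + α) φ y = ∏_k theta k (y + α) theta k y`, which is `-1` iff `fract y` is
  in one of the `[c_k, c_{k+1})`, `k ≥ 0`, i.e. (as `c_0 = 0`, `c_k` increases to `y1` and `c_k < y1`)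
  iff `fract y < y1`.
* `small`: `φ y = -1` implies `theta k y = -1` for some `k`.
-/

namespace Pool.Agent.H1.Horo

open Set MeasureTheory Filter

namespace ArPhi

noncomputable def psi (N k : ℕ) (y : ℝ) : ℝ := if Int.fract y < et N k then -1 else 1

noncomputable def theta (N k : ℕ) (y : ℝ) : ℝ :=
  ∏ j ∈ Finset.range (qq N k), psi N k (y - cq N k - ((j + 1 : ℕ) : ℝ) * al N)

lemma psi_val (N k : ℕ) (y : ℝ) : psi N k y = 1 ∨ psi N k y = -1 := by
  unfold psi
  split_ifs
  · exact Or.inr rfl
  · exact Or.inl rfl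

lemma psi_mul_self (N k : ℕ) (y : ℝ) : psi N k y * psi N k y = 1 := by
  rcases psi_val N k y with h | h <;> rw [h] <;> norm_num

lemma psi_sub_int (N k : ℕ) (y : ℝ) (m : ℤ) : psi N k (y - m) = psi N k y := by
  unfold psi
  rw [Int.fract_sub_intCast]

lemma psi_add_one (N k : ℕ) (y : ℝ) : psi N k (y + 1) = psi N k y := by
  unfold psi
  rw [Int.fract_add_one]

lemma measurable_psi (N k : ℕ) : Measurable (psi N k) := by
  unfold psi
  exact Measurable.ite (measurableSet_lt measurable_fract measurable_const) measurable_const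
    measurable_const

lemma theta_val (N k : ℕ) (y : ℝ) : theta N k y = 1 ∨ theta N k y = -1 := by
  unfold theta
  refine Finset.prod_induction _ (fun x : ℝ => x = 1 ∨ x = -1) ?_ (Or.inl rfl) ?_
  · rintro a b (rfl | rfl) (rfl | rfl) <;> norm_num
  · intro j _
    exact psi_val N k _

lemma theta_mul_self (N k : ℕ) (y : ℝ) : theta N k y * theta N k y = 1 := by
  rcases theta_val N k y with h | h <;> rw [h] <;> norm_num

lemma theta_add_one (N k : ℕ) (y : ℝ) : theta N k (y + 1) = theta N k y := by
  unfold theta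
  refine Finset.prod_congr rfl fun j _ => ?_
  rw [← psi_add_one N k (y - cq N k - ((j + 1 : ℕ) : ℝ) * al N)]
  congr 1
  ring

lemma measurable_theta (N k : ℕ) : Measurable (theta N k) := by
  unfold theta
  refine Finset.measurable_fun_prod _ fun j _ => ?_
  exact (measurable_psi N k).comp ((measurable_id.sub_const _).sub_const _)

lemma et_lt_half {N : ℕ} (hN : 10 ≤ N) (k : ℕ) : 2 * et N k < 1 := by
  have h0 : et N 0 = al N := by
    simp [et, qq, pp]
  have hmono : ∀ k, et N k ≤ et N 0 := by
    intro k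
    induction k with
    | zero => exact le_rfl
    | succ k ih =>
      have := et_succ_le hN k
      have := et_pos hN k
      linarith
  have h1 := al_lt hN
  have h2 : (2 : ℝ) / 2 ^ N ≤ 2 / 2 ^ 10 :=
    div_le_div_of_nonneg_left (by norm_num) (by positivity)
      (pow_le_pow_right₀ (by norm_num) hN)
  have := hmono k
  norm_num at h2
  linarith

lemma cq_succ (N k : ℕ) : cq N (k + 1) = cq N k + 2 * et N k := by
  unfold cq
  rw [Finset.sum_range_succ]
  ring

lemma cq_zero (N : ℕ) : cq N 0 = 0 := by simp [cq]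

lemma cq_mono {N : ℕ} (hN : 10 ≤ N) : Monotone (cq N) := by
  refine monotone_nat_of_le_succ fun k => ?_
  rw [cq_succ]
  have := et_pos hN k
  linarith

lemma cq_nonneg {N : ℕ} (hN : 10 ≤ N) (k : ℕ) : 0 ≤ cq N k := by
  rw [← cq_zero N]
  exact cq_mono hN (Nat.zero_le k)

lemma cq_lt_yy {N : ℕ} (hN : 10 ≤ N) (k : ℕ) : cq N k < yy N := by
  have h1 := tail_lower hN k
  have h2 := et_pos hN (k + 1)
  have h3 := cq_mono hN (Nat.le_succ k)
  linarith

lemma yy_lt_one {N : ℕ} (hN : 10 ≤ N) : yy N < 1 := by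
  have h1 := yy_lt hN
  have h2 : (8 : ℝ) / 2 ^ N ≤ 8 / 2 ^ 10 :=
    div_le_div_of_nonneg_left (by norm_num) (by positivity)
      (pow_le_pow_right₀ (by norm_num) hN)
  norm_num at h2
  linarith

lemma tendsto_cq {N : ℕ} (hN : 10 ≤ N) : Tendsto (cq N) atTop (nhds (yy N)) := by
  have h := (summable_et hN).hasSum.tendsto_sum_nat
  exact h.const_mul 2

/-- the step of the telescoping product -/
lemma theta_add {N : ℕ} (hN : 10 ≤ N) (k : ℕ) (y : ℝ) :
    theta N k (y + al N) * theta N k y =
      if cq N k ≤ Int.fract y ∧ Int.fract y < cq N (k + 1) then -1 else 1 := by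
  set f : ℕ → ℝ := fun j => psi N k (y - cq N k - (j : ℝ) * al N) with hf
  have h1 : theta N k (y + al N) = ∏ j ∈ Finset.range (qq N k), f j := by
    unfold theta
    refine Finset.prod_congr rfl fun j _ => ?_
    rw [hf]
    congr 1
    push_cast
    ring
  have h2 : theta N k y = ∏ j ∈ Finset.range (qq N k), f (j + 1) := rfl
  have h3 : (∏ j ∈ Finset.range (qq N k), f (j + 1)) * f 0 =
      (∏ j ∈ Finset.range (qq N k), f j) * f (qq N k) := by
    rw [← Finset.prod_range_succ', ← Finset.prod_range_succ]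
  have hq : f (qq N k) * f (qq N k) = 1 := psi_mul_self _ _ _
  have h4 : theta N k (y + al N) * theta N k y = f 0 * f (qq N k) := by
    have h5 := theta_mul_self N k y
    rw [h2] at h5
    rw [h1, h2]
    calc (∏ j ∈ Finset.range (qq N k), f j) * ∏ j ∈ Finset.range (qq N k), f (j + 1)
        = ((∏ j ∈ Finset.range (qq N k), f j) * f (qq N k)) *
            (∏ j ∈ Finset.range (qq N k), f (j + 1)) * f (qq N k) := by
          linear_combination (-(∏ j ∈ Finset.range (qq N k), f j) *
            ∏ j ∈ Finset.range (qq N k), f (j + 1)) * hq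
      _ = ((∏ j ∈ Finset.range (qq N k), f (j + 1)) * ∏ j ∈ Finset.range (qq N k), f (j + 1)) *
            (f 0 * f (qq N k)) := by rw [← h3]; ring
      _ = f 0 * f (qq N k) := by rw [h5, one_mul]
  rw [h4]
  have hf0 : f 0 = psi N k (y - cq N k) := by
    rw [hf]
    simp
  have hfq : f (qq N k) = psi N k (y - cq N k - et N k) := by
    rw [hf]
    simp only
    rw [← psi_sub_int N k (y - cq N k - et N k) (pp N k)]
    congr 1
    unfold et
    push_cast
    ring
  rw [hf0, hfq]
  have hη := et_pos hN k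
  have hη2 := et_lt_half hN k
  have hc0 := cq_nonneg hN k
  have hc1 := cq_lt_yy hN (k + 1)
  have hy1 := yy_lt_one hN
  have hcs := cq_succ N k
  set t := Int.fract y with ht
  have ht0 : 0 ≤ t := Int.fract_nonneg y
  have ht1 : t < 1 := Int.fract_lt_one y
  -- compute the fractional parts
  have e1 : Int.fract (y - cq N k) = if cq N k ≤ t then t - cq N k else t - cq N k + 1 := by
    split_ifs with h
    · rw [Int.fract_eq_iff]
      refine ⟨by linarith, by linarith, ⌊y⌋, ?_⟩
      have : t = y - ⌊y⌋ := rfl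
      rw [this]
      ring
    · rw [Int.fract_eq_iff]
      push Not at h
      refine ⟨by linarith, by linarith, ⌊y⌋ - 1, ?_⟩
      have : t = y - ⌊y⌋ := rfl
      rw [this]
      push_cast
      ring
  have e2 : Int.fract (y - cq N k - et N k) =
      if cq N k + et N k ≤ t then t - cq N k - et N k else t - cq N k - et N k + 1 := by
    split_ifs with h
    · rw [Int.fract_eq_iff]
      refine ⟨by linarith, by linarith, ⌊y⌋, ?_⟩
      have : t = y - ⌊y⌋ := rfl
      rw [this]
      ring
    · rw [Int.fract_eq_iff]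
      push Not at h
      refine ⟨by linarith, by linarith, ⌊y⌋ - 1, ?_⟩
      have : t = y - ⌊y⌋ := rfl
      rw [this]
      push_cast
      ring
  unfold psi
  rw [e1, e2]
  by_cases ha : cq N k ≤ t
  · rw [if_pos ha]
    by_cases hb : cq N k + et N k ≤ t
    · rw [if_pos hb, if_neg (by linarith)]
      by_cases hc : t < cq N (k + 1)
      · rw [if_pos (by linarith), if_pos ⟨ha, hc⟩]
        norm_num
      · rw [if_neg (by linarith), if_neg (fun h => hc h.2)]
        norm_num
    · push Not at hb
      rw [if_neg (not_le.2 hb), if_pos (by linarith), if_neg (by linarith),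
        if_pos ⟨ha, by linarith⟩]
      norm_num
  · push Not at ha
    rw [if_neg (not_le.2 ha), if_neg (by linarith : ¬ (cq N k + et N k ≤ t)), if_neg (by linarith),
      if_neg (by linarith), if_neg (fun h => not_le.2 ha h.1)]
    norm_num

lemma theta_add_eventually {N : ℕ} (hN : 10 ≤ N) (y : ℝ) :
    ∀ᶠ k in atTop, theta N k (y + al N) = theta N k y := by
  have key : ∀ᶠ k in atTop, ¬ (cq N k ≤ Int.fract y ∧ Int.fract y < cq N (k + 1)) := by
    by_cases h : Int.fract y < yy N
    · have := (tendsto_cq hN).eventually (lt_mem_nhds h)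
      filter_upwards [this] with k hk h'
      exact absurd h'.1 (not_le.2 hk)
    · refine Eventually.of_forall fun k h' => h ?_
      exact h'.2.trans (cq_lt_yy hN _)
  filter_upwards [key] with k hk
  have h1 := theta_add hN k y
  rw [if_neg hk] at h1
  have h2 := theta_mul_self N k y
  have h3 := theta_mul_self N k (y + al N)
  have : theta N k (y + al N) = theta N k (y + al N) * (theta N k y * theta N k y) := by
    rw [h2, mul_one]
  rw [this, ← mul_assoc, h1, one_mul]

/-- the exceptional set -/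
def N0 (N : ℕ) : Set ℝ := {y | ∃ᶠ k in atTop, theta N k y = -1}

lemma notMem_N0 {N : ℕ} {y : ℝ} : y ∉ N0 N ↔ ∀ᶠ k in atTop, theta N k y = 1 := by
  have : y ∉ N0 N ↔ ∀ᶠ k in atTop, ¬ theta N k y = -1 := by
    rw [← not_frequently]
    rfl
  rw [this]
  refine eventually_congr (Eventually.of_forall fun k => ?_)
  constructor
  · intro h
    exact (theta_val N k y).resolve_right h
  · intro h h'
    rw [h] at h'
    norm_num at h'

lemma N0_add_one {N : ℕ} (y : ℝ) : y + 1 ∈ N0 N ↔ y ∈ N0 N := by
  show (∃ᶠ k in atTop, theta N k (y + 1) = -1) ↔ (∃ᶠ k in atTop, theta N k y = -1)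
  simp only [theta_add_one]

lemma N0_add_al {N : ℕ} (hN : 10 ≤ N) (y : ℝ) : y + al N ∈ N0 N ↔ y ∈ N0 N := by
  show (∃ᶠ k in atTop, theta N k (y + al N) = -1) ↔ (∃ᶠ k in atTop, theta N k y = -1)
  refine frequently_congr ?_
  filter_upwards [theta_add_eventually hN y] with k hk
  rw [hk]

noncomputable def phi (N : ℕ) (y : ℝ) : ℝ := ∏ᶠ k, theta N k y

lemma finite_mulSupport {N : ℕ} {y : ℝ} (hy : y ∉ N0 N) :
    (Function.mulSupport fun k => theta N k y).Finite := by
  rw [notMem_N0, eventually_atTop] at hy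
  obtain ⟨K, hK⟩ := hy
  refine (Finset.range K).finite_toSet.subset ?_
  intro k hk
  rw [Function.mem_mulSupport] at hk
  by_contra h
  rw [Finset.mem_coe, Finset.mem_range, not_lt] at h
  exact hk (hK k h)

lemma phi_val (N : ℕ) (y : ℝ) : phi N y = 1 ∨ phi N y = -1 := by
  unfold phi
  refine finprod_induction (fun x : ℝ => x = 1 ∨ x = -1) (Or.inl rfl) ?_ ?_
  · rintro a b (rfl | rfl) (rfl | rfl) <;> norm_num
  · intro k
    exact theta_val N k y

lemma phi_mul_self (N : ℕ) (y : ℝ) : phi N y * phi N y = 1 := by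
  rcases phi_val N y with h | h <;> rw [h] <;> norm_num

lemma phi_add_one (N : ℕ) (y : ℝ) : phi N (y + 1) = phi N y := by
  unfold phi
  simp only [theta_add_one]

lemma phi_coc {N : ℕ} (hN : 10 ≤ N) {y : ℝ} (hy : y ∉ N0 N) :
    phi N (y + al N) = kap (yy N) y * phi N y := by
  have hy' : y + al N ∉ N0 N := fun h => hy ((N0_add_al hN y).1 h)
  have h1 : phi N (y + al N) * phi N y = kap (yy N) y := by
    unfold phi
    rw [← finprod_mul_distrib (finite_mulSupport hy') (finite_mulSupport hy)]
    simp only [theta_add hN]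
    unfold kap
    by_cases h : Int.fract y < yy N
    · rw [if_pos h]
      have hex : ∃ k, Int.fract y < cq N k := by
        have := (tendsto_cq hN).eventually (lt_mem_nhds h)
        exact this.exists
      classical
      obtain ⟨k, hk⟩ : ∃ k, k + 1 = Nat.find hex := by
        refine Nat.exists_eq_succ_of_ne_zero ?_ |>.imp fun k hk => hk.symm
        intro h0
        have := Nat.find_spec hex
        rw [h0, cq_zero] at this
        exact absurd this (not_lt.2 (Int.fract_nonneg y))
      have hk1 : Int.fract y < cq N (k + 1) := by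
        rw [hk]
        exact Nat.find_spec hex
      have hk0 : cq N k ≤ Int.fract y := by
        by_contra hcon
        push Not at hcon
        have := Nat.find_min' hex hcon
        omega
      rw [finprod_eq_single _ k]
      · rw [if_pos ⟨hk0, hk1⟩]
      · intro j hj
        rw [if_neg]
        rintro ⟨ha, hb⟩
        rcases lt_or_gt_of_ne hj with hlt | hgt
        · have := cq_mono hN (Nat.succ_le_of_lt hlt)
          exact absurd (hb.trans_le this) (not_lt.2 hk0)
        · have := cq_mono hN (Nat.succ_le_of_lt hgt)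
          exact absurd (hk1.trans_le this) (not_lt.2 ha)
    · rw [if_neg h]
      have : ∀ k, (if cq N k ≤ Int.fract y ∧ Int.fract y < cq N (k + 1) then (-1 : ℝ) else 1) =
          1 := by
        intro k
        rw [if_neg]
        rintro ⟨_, hb⟩
        exact h (hb.trans (cq_lt_yy hN _))
      simp only [this]
      exact finprod_one
  rw [← h1, mul_assoc, phi_mul_self, mul_one]

lemma measurableSet_N0 (N : ℕ) : MeasurableSet (N0 N) := by
  have : N0 N = limsup (fun k => {y | theta N k y = -1}) atTop := by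
    ext y
    rw [mem_limsup_iff_frequently_mem]
    rfl
  rw [this]
  exact MeasurableSet.measurableSet_limsup fun k =>
    measurable_theta N k (measurableSet_singleton _)

lemma measurable_phi (N : ℕ) : Measurable (phi N) := by
  classical
  refine measurable_of_tendsto_metrizable
    (f := fun n y => if y ∈ N0 N then (1 : ℝ) else ∏ k ∈ Finset.range n, theta N k y) ?_ ?_
  · intro n
    refine Measurable.ite (measurableSet_N0 N) measurable_const ?_
    exact Finset.measurable_fun_prod _ fun k _ => measurable_theta N k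
  · rw [tendsto_pi_nhds]
    intro y
    by_cases hy : y ∈ N0 N
    · have : phi N y = 1 := by
        unfold phi
        apply finprod_of_infinite_mulSupport
        intro hfin
        apply (Nat.frequently_atTop_iff_infinite.1 hy)
        refine hfin.subset ?_
        intro k hk
        rw [Function.mem_mulSupport]
        rw [Set.mem_ofPred_eq] at hk
        rw [hk]
        norm_num
      rw [this]
      simp only [if_pos hy]
      exact tendsto_const_nhds
    · simp only [if_neg hy]
      have hy' := hy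
      rw [notMem_N0, eventually_atTop] at hy'
      obtain ⟨K, hK⟩ := hy'
      refine tendsto_const_nhds.congr' ?_
      filter_upwards [eventually_ge_atTop K] with n hn
      unfold phi
      refine finprod_eq_prod_of_mulSupport_subset _ ?_
      intro k hk
      rw [Function.mem_mulSupport] at hk
      rw [Finset.mem_coe, Finset.mem_range]
      by_contra h
      exact hk (hK k (hn.trans (not_lt.1 h)))

lemma volume_fract_lt (a : ℝ) (η : ℝ) :
    volume ({y | Int.fract (y - a) < η} ∩ Icc 0 1) ≤ ENNReal.ofReal η := by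
  set b := Int.fract a with hb
  have hb0 : 0 ≤ b := Int.fract_nonneg a
  have hb1 : b < 1 := Int.fract_lt_one a
  have hfr : ∀ y, Int.fract (y - a) = Int.fract (y - b) := by
    intro y
    have : y - b = y - a + (⌊a⌋ : ℤ) := by
      rw [hb, Int.fract]
      ring
    rw [this, Int.fract_add_intCast]
  have hsub : {y | Int.fract (y - a) < η} ∩ Icc 0 1 ⊆
      (Icc b (min (b + η) 1) ∪ Icc 0 (b - 1 + η)) ∪ {1} := by
    rintro y ⟨hy, hy0, hy1⟩
    rw [Set.mem_ofPred_eq, hfr] at hy
    rcases eq_or_lt_of_le hy1 with h1 | h1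
    · exact Or.inr h1
    · left
      by_cases hyb : b ≤ y
      · left
        have : Int.fract (y - b) = y - b := by
          rw [Int.fract_eq_self]
          constructor <;> linarith
        rw [this] at hy
        exact ⟨hyb, le_min (by linarith) h1.le⟩
      · right
        push Not at hyb
        have : Int.fract (y - b) = y - b + 1 := by
          rw [Int.fract_eq_iff]
          refine ⟨by linarith, by linarith, -1, ?_⟩
          push_cast
          ring
        rw [this] at hy
        exact ⟨hy0, by linarith⟩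
  refine (measure_mono hsub).trans ((measure_union_le _ _).trans ?_)
  rw [measure_singleton, add_zero]
  refine (measure_union_le _ _).trans ?_
  rw [Real.volume_Icc, Real.volume_Icc]
  by_cases hc : b + η ≤ 1
  · rw [min_eq_left hc, ENNReal.ofReal_of_nonpos (by linarith : b - 1 + η - 0 ≤ 0), add_zero]
    refine ENNReal.ofReal_le_ofReal ?_
    linarith
  · push Not at hc
    rw [min_eq_right hc.le, ← ENNReal.ofReal_add (by linarith) (by linarith)]
    refine ENNReal.ofReal_le_ofReal ?_
    linarith

lemma qq_ge {N : ℕ} (hN : 10 ≤ N) (k : ℕ) : 1024 ^ k ≤ qq N k := by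
  induction k with
  | zero => exact qq_pos N 0
  | succ k ih =>
    have := qq_growth hN k
    calc 1024 ^ (k + 1) = 1024 * 1024 ^ k := by ring
      _ ≤ 1024 * qq N k := Nat.mul_le_mul_left _ ih
      _ ≤ qq N (k + 1) := this

lemma qq_mul_et {N : ℕ} (hN : 10 ≤ N) (k : ℕ) :
    (qq N k : ℝ) * et N k ≤ 2 / 2 ^ N * (1 / 1024) ^ k := by
  have h1 := et_upper hN k
  have hq : (0 : ℝ) < qq N k := by exact_mod_cast qq_pos N k
  have hq1 : ((1024 : ℝ)) ^ k ≤ qq N k := by exact_mod_cast qq_ge hN k
  have hs : (qq N (k + 1) : ℝ) = (qq N k : ℝ) ^ 3 * 2 ^ N := by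
    show ((qq N k ^ 3 * 2 ^ N : ℕ) : ℝ) = _
    push_cast
    ring
  calc (qq N k : ℝ) * et N k ≤ qq N k * (2 * ((qq N k : ℝ) / qq N (k + 1))) :=
        mul_le_mul_of_nonneg_left h1.le hq.le
    _ = 2 / 2 ^ N * (1 / qq N k) := by
        rw [hs]
        field_simp
    _ ≤ 2 / 2 ^ N * (1 / 1024) ^ k := by
        refine mul_le_mul_of_nonneg_left ?_ (by positivity)
        rw [one_div_pow]
        exact one_div_le_one_div_of_le (by positivity) hq1

lemma volume_theta {N : ℕ} (hN : 10 ≤ N) (k : ℕ) :
    volume ({y | theta N k y = -1} ∩ Icc 0 1) ≤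
      ENNReal.ofReal (2 / 2 ^ N * (1 / 1024) ^ k) := by
  have hsub : {y | theta N k y = -1} ∩ Icc 0 1 ⊆ ⋃ j ∈ Finset.range (qq N k),
      {y | Int.fract (y - (cq N k + ((j + 1 : ℕ) : ℝ) * al N)) < et N k} ∩ Icc 0 1 := by
    rintro y ⟨hy, hy01⟩
    rw [Set.mem_ofPred_eq] at hy
    by_contra hcon
    have hall : ∀ j ∈ Finset.range (qq N k),
        psi N k (y - cq N k - ((j + 1 : ℕ) : ℝ) * al N) = 1 := by
      intro j hj
      unfold psi
      rw [if_neg]
      intro hlt
      apply hcon
      rw [Set.mem_iUnion₂]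
      refine ⟨j, hj, ?_, hy01⟩
      rw [Set.mem_ofPred_eq, ← sub_sub]
      exact hlt
    have : theta N k y = 1 := by
      unfold theta
      exact Finset.prod_eq_one hall
    rw [this] at hy
    norm_num at hy
  refine (measure_mono hsub).trans ((measure_biUnion_finset_le _ _).trans ?_)
  calc ∑ j ∈ Finset.range (qq N k),
        volume ({y | Int.fract (y - (cq N k + ((j + 1 : ℕ) : ℝ) * al N)) < et N k} ∩ Icc 0 1)
      ≤ ∑ _j ∈ Finset.range (qq N k), ENNReal.ofReal (et N k) :=
        Finset.sum_le_sum fun j _ => volume_fract_lt _ _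
    _ = ENNReal.ofReal ((qq N k : ℝ) * et N k) := by
        rw [Finset.sum_const, Finset.card_range, nsmul_eq_mul, ENNReal.ofReal_mul (by positivity),
          ENNReal.ofReal_natCast]
    _ ≤ _ := ENNReal.ofReal_le_ofReal (qq_mul_et hN k)

lemma tsum_bound (N : ℕ) :
    ∑' k : ℕ, ENNReal.ofReal (2 / 2 ^ N * (1 / 1024) ^ k) ≤ ENNReal.ofReal (4 / 2 ^ N) := by
  have hs : Summable fun k : ℕ => (2 / 2 ^ N * (1 / 1024) ^ k : ℝ) :=
    (summable_geometric_of_lt_one (by norm_num) (by norm_num)).mul_left _
  rw [← ENNReal.ofReal_tsum_of_nonneg (fun k => by positivity) hs]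
  refine ENNReal.ofReal_le_ofReal ?_
  rw [tsum_mul_left, tsum_geometric_of_lt_one (by norm_num) (by norm_num)]
  have h0 : (0 : ℝ) < 1 / 2 ^ N := by positivity
  have e1 : (2 : ℝ) / 2 ^ N = 2 * (1 / 2 ^ N) := by ring
  have e2 : (4 : ℝ) / 2 ^ N = 4 * (1 / 2 ^ N) := by ring
  rw [e1, e2]
  generalize (1 : ℝ) / 2 ^ N = x at h0
  have e3 : ((1 : ℝ) - 1 / 1024)⁻¹ = 1024 / 1023 := by norm_num
  rw [e3]
  nlinarith

lemma volume_N0 {N : ℕ} (hN : 10 ≤ N) : volume (N0 N) = 0 := by
  have h1 : volume (N0 N ∩ Icc 0 1) = 0 := by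
    have hne : ∑' k : ℕ, volume ({y | theta N k y = -1} ∩ Icc 0 1) ≠ ⊤ := by
      refine ne_top_of_le_ne_top ENNReal.ofReal_ne_top
        ((ENNReal.tsum_le_tsum fun k => volume_theta hN k).trans (tsum_bound N))
    have h2 := measure_limsup_atTop_eq_zero hne
    refine measure_mono_null ?_ h2
    rintro y ⟨hy, hy01⟩
    rw [mem_limsup_iff_frequently_mem]
    exact Frequently.mono hy fun k hk => ⟨hk, hy01⟩
  have hsub : N0 N ⊆ ⋃ m : ℤ, (fun y => y + (m : ℝ)) ⁻¹' (N0 N ∩ Icc 0 1) := by
    intro y hy
    rw [Set.mem_iUnion]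
    refine ⟨-⌊y⌋, ?_, ?_⟩
    · have hper : ∀ (m : ℤ) (y : ℝ), y + m ∈ N0 N ↔ y ∈ N0 N := by
        intro m
        induction m using Int.induction_on with
        | zero => intro y; simp
        | succ n ih =>
          intro y
          have : y + ((n + 1 : ℤ) : ℝ) = (y + (n : ℤ)) + 1 := by push_cast; ring
          rw [this, N0_add_one, ih]
        | pred n ih =>
          intro y
          have : y + ((-n - 1 : ℤ) : ℝ) + 1 = y + ((-n : ℤ) : ℝ) := by push_cast; ring
          rw [← N0_add_one, this, ih]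
      exact (hper _ y).2 hy
    · show y + ((-⌊y⌋ : ℤ) : ℝ) ∈ Icc (0 : ℝ) 1
      have : y + ((-⌊y⌋ : ℤ) : ℝ) = Int.fract y := by
        rw [Int.fract]
        push_cast
        ring
      rw [this]
      exact ⟨Int.fract_nonneg y, (Int.fract_lt_one y).le⟩
  refine measure_mono_null hsub ?_
  rw [measure_iUnion_null_iff]
  intro m
  rw [measure_preimage_add_right]
  exact h1

lemma volume_phi {N : ℕ} (hN : 10 ≤ N) :
    volume ({y | phi N y = -1} ∩ Icc 0 1) ≤ ENNReal.ofReal (4 / 2 ^ N) := by
  have hsub : {y | phi N y = -1} ∩ Icc 0 1 ⊆ ⋃ k, {y | theta N k y = -1} ∩ Icc 0 1 := by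
    rintro y ⟨hy, hy01⟩
    rw [Set.mem_ofPred_eq] at hy
    have hne : phi N y ≠ 1 := by
      rw [hy]
      norm_num
    have hex : ∃ k, theta N k y ≠ 1 := by
      by_contra hcon
      push Not at hcon
      apply hne
      unfold phi
      simp only [hcon]
      exact finprod_one
    obtain ⟨k, hk⟩ := hex
    rw [Set.mem_iUnion]
    exact ⟨k, (theta_val N k y).resolve_left hk, hy01⟩
  refine (measure_mono hsub).trans ((measure_iUnion_le _).trans ?_)
  exact (ENNReal.tsum_le_tsum fun k => volume_theta hN k).trans (tsum_bound N)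

end ArPhi

theorem exists_phi {N : ℕ} (hN : 10 ≤ N) : ∃ (φ : ℝ → ℝ) (N0 : Set ℝ), Measurable φ ∧
    (∀ y, φ y = 1 ∨ φ y = -1) ∧ (∀ y, φ (y + 1) = φ y) ∧ volume N0 = 0 ∧
    (∀ y, y + 1 ∈ N0 ↔ y ∈ N0) ∧ (∀ y, y + al N ∈ N0 ↔ y ∈ N0) ∧
    (∀ y, y ∉ N0 → φ (y + al N) = kap (yy N) y * φ y) ∧
    volume ({y | φ y = -1} ∩ Icc 0 1) ≤ ENNReal.ofReal (4 / 2 ^ N) :=
  ⟨ArPhi.phi N, ArPhi.N0 N, ArPhi.measurable_phi N, ArPhi.phi_val N, ArPhi.phi_add_one N,
    ArPhi.volume_N0 hN, ArPhi.N0_add_one, ArPhi.N0_add_al hN, fun _ hy => ArPhi.phi_coc hN hy,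
    ArPhi.volume_phi hN⟩

end Pool.Agent.H1.Horo
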