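import Pool.Agent.H1.Horo.IsoLoc

/-!
# Area

`trace z K f` is the set of positions in the triangle `f` of the points of `K`; `area z K` is the sum of
the outer measures of the traces.

PROOF of `area_image_le` (the converse inequality is the same statement for `Θ.symm`).
Let `f` be a triangle of `P` and `g` one of `Q`.  Let `U f g` be the set of positions `x` of inner
chart points `p` of `f` such that `Θ (mk p) = mk q` with `q` inner in `g`.  It is open (`iso_local`),
and the `U f g` for all `g` cover the interior of `f` up to a null set (`iso_null`).  Every point of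
`U f g` has a neighbourhood (a ball) on which the map `T : pos p ↦ pos q` is a translation; by
second countability `U f g` is a countable union of such balls, hence the disjoint union of countably
many Borel sets `B_n` with `T x = x + v_n` on `B_n`.  The sets `B_n + v_n`, for all `f` and fixed `g`,
are disjoint Borel subsets of the interior of `g` (as `Θ` is injective and by `mk_inner`).
Then `volume (trace z K f) ≤ ∑_{g, n} volume (trace z K f ∩ B_n)`, and
`trace z K f ∩ B_n + v_n = trace y (Θ '' K) g ∩ (B_n + v_n)`, and for fixed `g` the sum of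
`volume (trace y (Θ '' K) g ∩ (B_n + v_n))` over all `f, n` is at most
`volume (trace y (Θ '' K) g)` (`measure_iUnion` for the restricted measure).
* `trace_nullMeasurable`: `trace z (Θ ⁻¹' K) f ∩ B_n = (trace y K g ∩ (B_n + v_n)) - v_n`.
* `area_shear`: the traces of the sheared surface are the images of the traces under the shear,
  which has determinant one (`P.pos (shear s z) p` is the shear of `P.pos z p`).
-/

namespace Pool.Agent.H1.Horo

open Set MeasureTheory ENNReal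

namespace Pattern

def trace (P : Pattern) (z : P.Tri × Fin 3 → ℂ) (K : Set P.Pt) (f : P.Tri) : Set ℂ :=
  {x | ∃ p : P.Chart, p.1.1 = f ∧ P.pos z p = x ∧ Quot.mk P.Glued p ∈ K}

noncomputable def area (P : Pattern) (z : P.Tri × Fin 3 → ℂ) (K : Set P.Pt) : ℝ≥0∞ :=
  ∑' f, volume (P.trace z K f)

theorem trace_mono {P : Pattern} {z : P.Tri × Fin 3 → ℂ} {K K' : Set P.Pt} (h : K ⊆ K')
    (f : P.Tri) : P.trace z K f ⊆ P.trace z K' f :=
  fun _ ⟨p, h1, h2, h3⟩ => ⟨p, h1, h2, h h3⟩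

theorem area_mono {P : Pattern} {z : P.Tri × Fin 3 → ℂ} {K K' : Set P.Pt} (h : K ⊆ K') :
    P.area z K ≤ P.area z K' :=
  ENNReal.tsum_le_tsum fun f => measure_mono (trace_mono h f)

end Pattern

variable {P Q : Pattern} {z : P.Tri × Fin 3 → ℂ} {y : Q.Tri × Fin 3 → ℂ} {Θ : P.Pt ≃ Q.Pt}

namespace AreaIso

/-- positions in the triangle `j.1` of inner points which are moved by `j.2.2` into the triangle
`j.2.1` -/
def W (z : P.Tri × Fin 3 → ℂ) (y : Q.Tri × Fin 3 → ℂ) (Θ : P.Pt ≃ Q.Pt)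
    (j : P.Tri × Q.Tri × ℂ) : Set ℂ :=
  {x | ∃ p : P.Chart, ∃ q : Q.Chart, p.1.1 = j.1 ∧ P.Inner p ∧ P.pos z p = x ∧ q.1.1 = j.2.1 ∧
    Q.Inner q ∧ Q.pos y q = x + j.2.2 ∧ Θ (Quot.mk P.Glued p) = Quot.mk Q.Glued q}

lemma isOpen_W (hz : P.Valid z) (hy : Q.Valid y) (hΘ : IsIso z y Θ) (j : P.Tri × Q.Tri × ℂ) :
    IsOpen (W z y Θ j) := by
  rw [Metric.isOpen_iff]
  rintro x0 ⟨p0, q0, hf, hp0, hpos, hg, hq0, hpos', h0⟩
  obtain ⟨r, hr, H⟩ := iso_local hz hy hΘ hp0 hq0 h0
  refine ⟨r, hr, ?_⟩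
  intro x hx
  rw [Metric.mem_ball, dist_eq_norm] at hx
  obtain ⟨p, q, h1, h2, h3, h4, h5, h6, h7⟩ := H (x - x0) hx
  refine ⟨p, q, h1.trans hf, h2, ?_, h4.trans hg, h5, ?_, h7⟩
  · rw [h3, hpos]
    ring
  · rw [h6, hpos']
    ring

lemma W_left (hz : P.Valid z) {j j' : P.Tri × Q.Tri × ℂ} {x : ℂ} (hx : x ∈ W z y Θ j)
    (hx' : x ∈ W z y Θ j') (hj : j.1 = j'.1) : j = j' := by
  obtain ⟨p, q, h1, h2, h3, h4, h5, h6, h7⟩ := hx
  obtain ⟨p', q', h1', h2', h3', h4', h5', h6', h7'⟩ := hx'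
  have hp : p = p' := Pattern.pos_inj hz (by rw [h1, h1', hj]) (by rw [h3, h3'])
  subst hp
  have hq : q = q' := Pattern.mk_inner h5 (by rw [← h7, ← h7'])
  subst hq
  refine Prod.ext hj (Prod.ext (by rw [← h4, ← h4']) ?_)
  have : x + j.2.2 = x + j'.2.2 := by rw [← h6, ← h6']
  exact add_left_cancel this

lemma W_right (hy : Q.Valid y) {j j' : P.Tri × Q.Tri × ℂ} {x x' : ℂ}
    (hx : x ∈ W z y Θ j) (hx' : x' ∈ W z y Θ j') (hj : j.2.1 = j'.2.1)
    (hxx : x + j.2.2 = x' + j'.2.2) : j = j' := by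
  obtain ⟨p, q, h1, h2, h3, h4, h5, h6, h7⟩ := hx
  obtain ⟨p', q', h1', h2', h3', h4', h5', h6', h7'⟩ := hx'
  have hq : q = q' := Pattern.pos_inj hy (by rw [h4, h4', hj]) (by rw [h6, h6', hxx])
  subst hq
  have hp : p = p' := Pattern.mk_inner h2 (Θ.injective (by rw [h7, h7']))
  subst hp
  have hx2 : x = x' := by rw [← h3, ← h3']
  subst hx2
  exact Prod.ext (by rw [← h1, ← h1']) (Prod.ext hj (add_left_cancel hxx))

lemma countable_J (hz : P.Valid z) (hy : Q.Valid y) (hΘ : IsIso z y Θ) :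
    {j : P.Tri × Q.Tri × ℂ | (W z y Θ j).Nonempty}.Countable := by
  have := P.finite
  have h1 : ∀ f : P.Tri, {j : P.Tri × Q.Tri × ℂ | j.1 = f ∧ (W z y Θ j).Nonempty}.Countable := by
    intro f
    refine Set.PairwiseDisjoint.countable_of_isOpen (s := W z y Θ) ?_
      (fun j _ => isOpen_W hz hy hΘ j) (fun j hj => hj.2)
    intro j hj j' hj' hne
    rw [Function.onFun, Set.disjoint_left]
    intro x hx hx'
    exact hne (W_left hz hx hx' (hj.1.trans hj'.1.symm))
  refine (Set.countable_iUnion h1).mono ?_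
  intro j hj
  rw [Set.mem_iUnion]
  exact ⟨j.1, rfl, hj⟩

/-- the exceptional positions -/
def Nf (z : P.Tri × Fin 3 → ℂ) (Θ : P.Pt ≃ Q.Pt) (f : P.Tri) : Set ℂ :=
  {x : ℂ | ∃ p : P.Chart, p.1.1 = f ∧ P.pos z p = x ∧
      ¬ ∃ q : Q.Chart, Q.Inner q ∧ Θ (Quot.mk P.Glued p) = Quot.mk Q.Glued q} ∪
    {x : ℂ | ∃ p : P.Chart, p.1.1 = f ∧ P.pos z p = x ∧ ¬ P.Inner p}

lemma volume_Nf (hz : P.Valid z) (hy : Q.Valid y) (hΘ : IsIso z y Θ) (f : P.Tri) :
    volume (Nf z Θ f) = 0 := by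
  unfold Nf
  rw [measure_union_null_iff]
  exact ⟨iso_null hz hy hΘ f, not_inner_null hz f⟩

lemma cover (K : Set P.Pt) (f : P.Tri) :
    P.trace z K f ⊆ Nf z Θ f ∪ ⋃ j : {j : P.Tri × Q.Tri × ℂ | (W z y Θ j).Nonempty},
      {x | j.1.1 = f ∧ x ∈ P.trace z K f ∧ x ∈ W z y Θ j.1} := by
  intro x hx
  have hx' := hx
  obtain ⟨p, hf, hpos, hK⟩ := hx
  by_cases hi : P.Inner p
  · by_cases hq : ∃ q : Q.Chart, Q.Inner q ∧ Θ (Quot.mk P.Glued p) = Quot.mk Q.Glued q
    · right
      obtain ⟨q, hq1, hq2⟩ := hq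
      have hW : x ∈ W z y Θ (f, q.1.1, Q.pos y q - x) := by
        refine ⟨p, q, hf, hi, hpos, rfl, hq1, ?_, hq2⟩
        show Q.pos y q = x + (Q.pos y q - x)
        ring
      rw [Set.mem_iUnion]
      exact ⟨⟨(f, q.1.1, Q.pos y q - x), ⟨x, hW⟩⟩, rfl, hx', hW⟩
    · exact Or.inl (Or.inl ⟨p, hf, hpos, hq⟩)
  · exact Or.inl (Or.inr ⟨p, hf, hpos, hi⟩)

/-- moving a point of the trace -/
lemma move (hz : P.Valid z) {K : Set P.Pt} {j : P.Tri × Q.Tri × ℂ} {x : ℂ}
    (hx : x ∈ P.trace z K j.1) (hxW : x ∈ W z y Θ j) :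
    x + j.2.2 ∈ Q.trace y (Θ '' K) j.2.1 := by
  obtain ⟨p', hf', hpos', hK⟩ := hx
  obtain ⟨p, q, h1, h2, h3, h4, h5, h6, h7⟩ := hxW
  have hp : p = p' := Pattern.pos_inj hz (by rw [h1, hf']) (by rw [h3, hpos'])
  subst hp
  exact ⟨q, h4, h6, ⟨Quot.mk P.Glued p, hK, h7⟩⟩

lemma move_iff (hz : P.Valid z) (hy : Q.Valid y) {K : Set Q.Pt} {j : P.Tri × Q.Tri × ℂ} {x : ℂ}
    (hxW : x ∈ W z y Θ j) :
    x ∈ P.trace z (Θ ⁻¹' K) j.1 ↔ x + j.2.2 ∈ Q.trace y K j.2.1 := by
  constructor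
  · intro hx
    have h := move hz hx hxW
    rwa [Set.image_preimage_eq K Θ.surjective] at h
  · rintro ⟨q', hg', hpos', hK⟩
    obtain ⟨p, q, h1, h2, h3, h4, h5, h6, h7⟩ := hxW
    have hq : q = q' := Pattern.pos_inj hy (by rw [h4, hg']) (by rw [h6, hpos'])
    subst hq
    refine ⟨p, h1, h3, ?_⟩
    show Θ (Quot.mk P.Glued p) ∈ K
    rw [h7]
    exact hK

lemma tsum_inter_le {ι : Type*} [Countable ι] {B : ι → Set ℂ} (hB : ∀ i, MeasurableSet (B i))
    (hd : Pairwise (Function.onFun Disjoint B)) (T : Set ℂ) :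
    ∑' i, volume (B i ∩ T) ≤ volume T := by
  have h1 : ∀ i, volume (B i ∩ T) = (volume.restrict T) (B i) := fun i =>
    (Measure.restrict_apply (hB i)).symm
  simp_rw [h1]
  rw [← measure_iUnion hd hB]
  refine (measure_mono (subset_univ _)).trans ?_
  rw [Measure.restrict_apply_univ]

end AreaIso

open AreaIso

theorem area_le_image (hz : P.Valid z) (hy : Q.Valid y) (hΘ : IsIso z y Θ) (K : Set P.Pt) :
    P.area z K ≤ Q.area y (Θ '' K) := by
  classical
  have : Countable {j : P.Tri × Q.Tri × ℂ | (W z y Θ j).Nonempty} :=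
    (countable_J hz hy hΘ).to_subtype
  set S : P.Tri → {j : P.Tri × Q.Tri × ℂ | (W z y Θ j).Nonempty} → Set ℂ := fun f j =>
    {x | j.1.1 = f ∧ x ∈ P.trace z K f ∧ x ∈ W z y Θ j.1} with hS
  set S' : Q.Tri → {j : P.Tri × Q.Tri × ℂ | (W z y Θ j).Nonempty} → Set ℂ := fun g j =>
    {x | j.1.2.1 = g ∧ x - j.1.2.2 ∈ W z y Θ j.1} with hS'
  have h1 : P.area z K ≤ ∑' f, ∑' j, volume (S f j) := by
    refine ENNReal.tsum_le_tsum fun f => ?_
    refine (measure_mono (cover (y := y) (Θ := Θ) K f)).trans ((measure_union_le _ _).trans ?_)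
    rw [volume_Nf hz hy hΘ f, zero_add]
    exact measure_iUnion_le _
  refine h1.trans ?_
  rw [ENNReal.tsum_comm]
  have h2 : ∀ j, ∑' f, volume (S f j) ≤ ∑' g, volume (S' g j ∩ Q.trace y (Θ '' K) g) := by
    intro j
    rw [tsum_eq_single j.1.1]
    · refine le_trans ?_ (ENNReal.le_tsum j.1.2.1)
      have h3 : S j.1.1 j ⊆ (fun x => x + j.1.2.2) ⁻¹'
          (S' j.1.2.1 j ∩ Q.trace y (Θ '' K) j.1.2.1) := by
        rintro x ⟨_, hx1, hx2⟩
        refine ⟨⟨rfl, ?_⟩, move hz hx1 hx2⟩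
        show x + j.1.2.2 - j.1.2.2 ∈ W z y Θ j.1
        rwa [add_sub_cancel_right]
      refine (measure_mono h3).trans ?_
      rw [measure_preimage_add_right]
    · intro f hf
      have : S f j = ∅ := by
        ext x
        simp only [mem_empty_iff_false, iff_false]
        rintro ⟨h, _⟩
        exact hf h.symm
      rw [this, measure_empty]
  refine (ENNReal.tsum_le_tsum h2).trans ?_
  rw [ENNReal.tsum_comm]
  refine ENNReal.tsum_le_tsum fun g => ?_
  refine tsum_inter_le ?_ ?_ _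
  · intro j
    by_cases hg : j.1.2.1 = g
    · have : S' g j = (fun x => x - j.1.2.2) ⁻¹' W z y Θ j.1 := by
        ext x
        exact ⟨fun h => h.2, fun h => ⟨hg, h⟩⟩
      rw [this]
      exact ((isOpen_W hz hy hΘ j.1).preimage (continuous_id.sub continuous_const)).measurableSet
    · have : S' g j = ∅ := by
        ext x
        simp only [mem_empty_iff_false, iff_false]
        rintro ⟨h, _⟩
        exact hg h
      rw [this]
      exact MeasurableSet.empty
  · intro j j' hne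
    rw [Function.onFun, Set.disjoint_left]
    rintro x ⟨hx1, hx2⟩ ⟨hx1', hx2'⟩
    apply hne
    apply Subtype.ext
    refine W_right hy hx2 hx2' (hx1.trans hx1'.symm) ?_
    ring

theorem area_image (hz : P.Valid z) (hy : Q.Valid y) (hΘ : IsIso z y Θ) (K : Set P.Pt) :
    Q.area y (Θ '' K) = P.area z K := by
  refine le_antisymm ?_ (area_le_image hz hy hΘ K)
  have h := area_le_image hy hz hΘ.symm (Θ '' K)
  have h2 : Θ.symm '' (Θ '' K) = K := by simp
  rwa [h2] at h

theorem trace_nullMeasurable (hz : P.Valid z) (hy : Q.Valid y) (hΘ : IsIso z y Θ) {K : Set Q.Pt}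
    (hK : ∀ g, NullMeasurableSet (Q.trace y K g) volume) (f : P.Tri) :
    NullMeasurableSet (P.trace z (Θ ⁻¹' K) f) volume := by
  classical
  have : Countable {j : P.Tri × Q.Tri × ℂ | (W z y Θ j).Nonempty} :=
    (countable_J hz hy hΘ).to_subtype
  have h1 : P.trace z (Θ ⁻¹' K) f =
      (P.trace z (Θ ⁻¹' K) f ∩ Nf z Θ f) ∪
      ⋃ j : {j : P.Tri × Q.Tri × ℂ | (W z y Θ j).Nonempty},
        {x | j.1.1 = f ∧ x + j.1.2.2 ∈ Q.trace y K j.1.2.1 ∧ x ∈ W z y Θ j.1} := by
    ext x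
    constructor
    · intro hx
      rcases cover (y := y) (Θ := Θ) (Θ ⁻¹' K) f hx with h | h
      · exact Or.inl ⟨hx, h⟩
      · right
        rw [Set.mem_iUnion] at h ⊢
        obtain ⟨j, h2, h3, h4⟩ := h
        refine ⟨j, h2, ?_, h4⟩
        rw [← move_iff hz hy h4, h2]
        exact h3
    · rintro (h | h)
      · exact h.1
      · rw [Set.mem_iUnion] at h
        obtain ⟨j, h2, h3, h4⟩ := h
        rw [← move_iff hz hy h4, h2] at h3
        exact h3
  rw [h1]
  refine NullMeasurableSet.union ?_ (NullMeasurableSet.iUnion fun j => ?_)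
  · exact NullMeasurableSet.of_null (measure_mono_null inter_subset_right (volume_Nf hz hy hΘ f))
  · by_cases hj : j.1.1 = f
    · have : {x | j.1.1 = f ∧ x + j.1.2.2 ∈ Q.trace y K j.1.2.1 ∧ x ∈ W z y Θ j.1} =
          (fun x => x + j.1.2.2) ⁻¹' Q.trace y K j.1.2.1 ∩ W z y Θ j.1 := by
        ext x
        exact ⟨fun h => h.2, fun h => ⟨hj, h⟩⟩
      rw [this]
      refine NullMeasurableSet.inter ?_ (isOpen_W hz hy hΘ j.1).measurableSet.nullMeasurableSet
      exact (hK _).preimage (measurePreserving_add_right volume j.1.2.2).quasiMeasurePreserving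
    · have : {x | j.1.1 = f ∧ x + j.1.2.2 ∈ Q.trace y K j.1.2.1 ∧ x ∈ W z y Θ j.1} = ∅ := by
        ext x
        simp only [mem_empty_iff_false, iff_false]
        rintro ⟨h, _⟩
        exact hj h
      rw [this]
      exact MeasurableSet.empty.nullMeasurableSet

namespace AreaIso

/-- the shear as a linear map -/
noncomputable def shL (s : ℝ) : ℂ →ₗ[ℝ] ℂ :=
  LinearMap.id + (Complex.ofRealCLM.toLinearMap ∘ₗ (s • Complex.imLm))

lemma shL_apply (s : ℝ) (w : ℂ) : shL s w = ⟨w.re + s * w.im, w.im⟩ := by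
  apply Complex.ext <;> simp [shL]

lemma det_shL (s : ℝ) : LinearMap.det (shL s) = 1 := by
  rw [← LinearMap.det_toMatrix Complex.basisOneI, Matrix.det_fin_two]
  simp [LinearMap.toMatrix_apply, shL_apply]

lemma shL_neg (s : ℝ) (w : ℂ) : shL (-s) (shL s w) = w := by
  rw [shL_apply, shL_apply]
  apply Complex.ext <;> simp

lemma shL_neg' (s : ℝ) (w : ℂ) : shL s (shL (-s) w) = w := by
  rw [shL_apply, shL_apply]
  apply Complex.ext <;> simp

lemma pos_shear (s : ℝ) (p : P.Chart) : P.pos (shear s z) p = shL s (P.pos z p) := by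
  rw [shL_apply]
  unfold Pattern.pos shear
  apply Complex.ext <;> simp <;> ring

lemma trace_shear (s : ℝ) (K : Set P.Pt) (f : P.Tri) :
    P.trace (shear s z) K f = shL s '' P.trace z K f := by
  ext x
  constructor
  · rintro ⟨p, h1, h2, h3⟩
    refine ⟨P.pos z p, ⟨p, h1, rfl, h3⟩, ?_⟩
    rw [← pos_shear, h2]
  · rintro ⟨_, ⟨p, h1, rfl, h3⟩, rfl⟩
    exact ⟨p, h1, pos_shear s p, h3⟩

end AreaIso

theorem area_shear (s : ℝ) (K : Set P.Pt) : P.area (shear s z) K = P.area z K := by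
  unfold Pattern.area
  refine tsum_congr fun f => ?_
  rw [trace_shear, Measure.addHaar_image_linearMap, det_shL]
  simp

theorem trace_shear_nullMeasurable (s : ℝ) {K : Set P.Pt} {f : P.Tri}
    (h : NullMeasurableSet (P.trace z K f) volume) :
    NullMeasurableSet (P.trace (shear s z) K f) volume := by
  have h1 : P.trace (shear s z) K f = shL (-s) ⁻¹' P.trace z K f := by
    rw [trace_shear]
    ext x
    constructor
    · rintro ⟨w, hw, rfl⟩
      show shL (-s) (shL s w) ∈ P.trace z K f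
      rw [shL_neg]
      exact hw
    · intro hx
      exact ⟨shL (-s) x, hx, shL_neg' s x⟩
  rw [h1]
  exact h.preimage (Measure.LinearMap.quasiMeasurePreserving _ _ (by rw [det_shL]; norm_num))

end Pool.Agent.H1.Horo
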