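import Pool.Agent.H1.Horo.Lens

/-!
# Area in the structure coordinates

PROOF.  The set is the union over the ten triangles `(j, t)` of the images of `trace S.D.edge K (j, t)`
under the map `T : q ↦ ((Re q' - cc e G (λ Im q') / λ) / λ, λ Im q')`, `q' = q + off (j, t)`.
For every set `E` of complex numbers `volume (T '' E) ≤ volume E`: `T` is the composition of a translation, of
`(x, y) ↦ (x - g y, y)` with `g` continuous (a measure preserving homeomorphism of `ℝ × ℝ`, e.g. by
`MeasurePreserving.skew_product`), of `diag (1/λ, λ)` of determinant one, and of the measure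
preserving identification `ℂ ≃ ℝ × ℝ` (`Complex.volume_preserving_equiv_real_prod`); for a measurable
equivalence preserving the measure, images of arbitrary sets have the same outer measure.
Sum up over the triangles (`measure_iUnion_le`, `ENNReal.tsum_le_tsum`,
the triangles of the piece `j` are part of all the triangles).
-/

namespace Pool.Agent.H1.Horo

open Set MeasureTheory

/-- preimages of arbitrary sets under a measure preserving map -/
theorem preimage_le_of_mp {α β : Type*} [MeasurableSpace α] [MeasurableSpace β] {μ : Measure α}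
    {ν : Measure β} {T : α → β} (h : MeasurePreserving T μ ν) (E : Set β) :
    μ (T ⁻¹' E) ≤ ν E := by
  calc μ (T ⁻¹' E) ≤ μ (T ⁻¹' (toMeasurable ν E)) :=
        measure_mono (preimage_mono (subset_toMeasurable ν E))
    _ = ν (toMeasurable ν E) :=
        h.measure_preimage (measurableSet_toMeasurable ν E).nullMeasurableSet
    _ = ν E := measure_toMeasurable E

theorem mp_shift {h : ℝ → ℝ} (hh : Measurable h) :
    MeasurePreserving (fun p : ℝ × ℝ => (p.1 + h p.2, p.2)) (volume : Measure (ℝ × ℝ))
      (volume : Measure (ℝ × ℝ)) := by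
  have h1 : MeasurePreserving (fun p : ℝ × ℝ => (p.1, p.2 + h p.1))
      ((volume : Measure ℝ).prod (volume : Measure ℝ))
      ((volume : Measure ℝ).prod (volume : Measure ℝ)) := by
    refine MeasurePreserving.skew_product (f := id) (g := fun a c => c + h a)
      (MeasurePreserving.id _) (by
        have h3 : Measurable fun p : ℝ × ℝ => p.2 + h p.1 := by fun_prop
        exact h3) (Filter.Eventually.of_forall fun a => ?_)
    exact map_add_right_eq_self volume (h a)
  have h2 : MeasurePreserving (Prod.swap : ℝ × ℝ → ℝ × ℝ)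
      ((volume : Measure ℝ).prod (volume : Measure ℝ))
      ((volume : Measure ℝ).prod (volume : Measure ℝ)) := Measure.measurePreserving_swap
  exact h2.comp (h1.comp h2)

theorem mp_diag {a : ℝ} (ha : 0 < a) :
    MeasurePreserving (fun p : ℝ × ℝ => (a * p.1, a⁻¹ * p.2)) (volume : Measure (ℝ × ℝ))
      (volume : Measure (ℝ × ℝ)) := by
  refine ⟨by fun_prop, ?_⟩
  have hf : Measurable fun x : ℝ => a * x := by fun_prop
  have hg : Measurable fun x : ℝ => a⁻¹ * x := by fun_prop
  have hp := Measure.map_prod_map (volume : Measure ℝ) (volume : Measure ℝ) hf hg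
  change Measure.map (Prod.map (fun x => a * x) (fun x => a⁻¹ * x))
    ((volume : Measure ℝ).prod (volume : Measure ℝ)) = (volume : Measure ℝ).prod volume
  rw [← hp, Real.map_volume_mul_left ha.ne', Real.map_volume_mul_left (inv_ne_zero ha.ne'),
    Measure.prod_smul_left, Measure.prod_smul_right, smul_smul,
    ← ENNReal.ofReal_mul (abs_nonneg _), ← abs_mul, inv_inv, inv_mul_cancel₀ ha.ne', abs_one,
    ENNReal.ofReal_one, one_smul]

namespace Cfg
variable {n : ℕ} {κ : ℝ} [NeZero n] (S : Cfg n κ)

omit [NeZero n] in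
/-- the map from structure coordinates to the position in the triangle `(j, t)` -/
noncomputable def unst (j : Fin n) (t : TT) (x : ℝ × ℝ) : ℂ :=
  Complex.measurableEquivRealProd.symm (S.lam j * x.1 +
    cc * sg t.lab * S.V.G (S.lam j * ((S.lam j)⁻¹ * x.2)) / S.lam j, (S.lam j)⁻¹ * x.2)
    - S.D.off (j, t)

omit [NeZero n] in
theorem mp_unst (j : Fin n) (t : TT) :
    MeasurePreserving (S.unst j t) (volume : Measure (ℝ × ℝ)) (volume : Measure ℂ) := by
  have h1 := mp_diag (S.lam_pos j)
  have h2 := mp_shift (h := fun b => cc * sg t.lab * S.V.G (S.lam j * b) / S.lam j) (by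
    have := S.V.G_continuous.measurable
    fun_prop)
  have h3 : MeasurePreserving (Complex.measurableEquivRealProd.symm : ℝ × ℝ → ℂ) volume volume :=
    Complex.volume_preserving_equiv_real_prod.symm
  have h4 := measurePreserving_sub_right (volume : Measure ℂ) (S.D.off (j, t))
  exact h4.comp (h3.comp (h2.comp h1))

theorem unst_eq {j : Fin n} (p : (pat n).Chart) (hp : pc p = j) :
    S.unst j (Prod.snd (α := Fin n) (β := TT) p.1.1) (S.xh p, S.yh p) =
      (pat n).pos S.D.edge p := by
  subst hp
  have hl := (S.lam_pos (pc p)).ne'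
  have hpp : S.D.ppos p = S.D.off p.1.1 + (pat n).pos S.D.edge p := rfl
  have hoff : S.D.off (pc p, Prod.snd (α := Fin n) (β := TT) p.1.1) = S.D.off p.1.1 := rfl
  have e1 : S.lam (pc p) * ((S.lam (pc p))⁻¹ * S.yh p) = S.yh p := by
    field_simp
  have e2 : (S.lam (pc p))⁻¹ * S.yh p = (S.D.ppos p).im := by
    unfold yh
    field_simp
  have e3 : S.lam (pc p) * S.xh p + cc * sg (lb p) * S.V.G (S.yh p) / S.lam (pc p) =
      (S.D.ppos p).re := by
    unfold xh
    field_simp
    ring
  unfold unst
  dsimp only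
  rw [hoff, e1]
  have e4 : (Prod.snd (α := Fin n) (β := TT) p.1.1).lab = lb p := rfl
  rw [e4, e3, e2]
  have e5 : (Complex.measurableEquivRealProd.symm ((S.D.ppos p).re, (S.D.ppos p).im) : ℂ) =
      S.D.ppos p := by
    apply Complex.ext <;> simp
  rw [e5, hpp]
  ring

theorem area_M (j : Fin n) (K : Set (pat n).Pt) :
    volume {x : ℝ × ℝ | ∃ p : (pat n).Chart, pc p = j ∧ Quot.mk (pat n).Glued p ∈ K ∧
      S.xh p = x.1 ∧ S.yh p = x.2} ≤ (pat n).area S.D.edge K := by
  have hsub : {x : ℝ × ℝ | ∃ p : (pat n).Chart, pc p = j ∧ Quot.mk (pat n).Glued p ∈ K ∧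
      S.xh p = x.1 ∧ S.yh p = x.2} ⊆
      ⋃ t : TT, (S.unst j t) ⁻¹' ((pat n).trace S.D.edge K ((j, t) : Fin n × TT)) := by
    rintro x ⟨p, hp, hK, hx, hy⟩
    refine mem_iUnion.2 ⟨Prod.snd (α := Fin n) (β := TT) p.1.1, ?_⟩
    refine ⟨p, ?_, ?_, hK⟩
    · subst hp
      rfl
    · rw [← S.unst_eq p hp, hx, hy]
  refine (measure_mono hsub).trans ((measure_iUnion_le _).trans ?_)
  have h1 : ∀ t : TT, volume ((S.unst j t) ⁻¹' ((pat n).trace S.D.edge K ((j, t) : Fin n × TT))) ≤
      volume ((pat n).trace S.D.edge K ((j, t) : Fin n × TT)) := fun t =>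
    preimage_le_of_mp (S.mp_unst j t) _
  refine (ENNReal.tsum_le_tsum h1).trans ?_
  have hinj : Function.Injective fun t : TT => ((j, t) : (pat n).Tri) := by
    intro t t' h
    exact congrArg (Prod.snd (α := Fin n) (β := TT)) h
  exact ENNReal.tsum_comp_le_tsum_of_injective hinj
    fun f => volume ((pat n).trace S.D.edge K f)

end Cfg

end Pool.Agent.H1.Horo
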