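import Pool.Agent.H1.Horo.ArDioph
import Pool.Agent.H1.Horo.ArPhi

namespace Pool.Agent.H1.Horo

open Set MeasureTheory

theorem exists_veech {δ : ℝ} (hδ : 0 < δ) : Nonempty (Veech δ) := by
  obtain ⟨N0, hN0⟩ := pow_unbounded_of_one_lt (8 / δ) (one_lt_two)
  set N := max 10 N0 with hN
  have h10 : 10 ≤ N := le_max_left _ _
  have h2 : 8 / δ < 2 ^ N := lt_of_lt_of_le hN0 (pow_le_pow_right₀ one_le_two (le_max_right _ _))
  have hp : (0 : ℝ) < 2 ^ N := by positivity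
  have h3 : 8 / 2 ^ N < δ := by
    rw [div_lt_iff₀ hδ] at h2
    rw [div_lt_iff₀ hp]
    linarith
  obtain ⟨φ, E, h⟩ := exists_phi h10
  refine ⟨⟨al N, yy N, φ, E, al_pos h10, ?_, yy_pos h10, ?_, h.1, h.2.1, h.2.2.1, h.2.2.2.1,
    h.2.2.2.2.1, h.2.2.2.2.2.1, h.2.2.2.2.2.2.1, ?_, dioph h10⟩⟩
  · refine (al_lt h10).trans_le (le_trans ?_ h3.le)
    gcongr
    norm_num
  · exact (yy_lt h10).trans h3
  · refine h.2.2.2.2.2.2.2.trans (ENNReal.ofReal_le_ofReal (le_trans ?_ h3.le))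
    gcongr
    norm_num

end Pool.Agent.H1.Horo
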