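import Pool.Agent.H1.Horo.Sit

/-!
# The function `f` has mean close to `sg e` along the vertical cylinders

PROOF.  Fix `(i, e)`.  The piece `jj (i, e)`: the piece of a chart point over `Θ (cpath i e v 0)`.
* `piece_apath`: for `u ∈ U i e` all chart points over `Θ (apath i e u t)` are in the piece `jj (i, e)`:
  `cross` gives `t0, r0` with `apath u t0 = cpath v r0`, and `piece_const` applies to both images
  (`image_straight`, `apath_straight`, `cpath_straight`; the imaginary parts of the holonomies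
  `A_im`, `C_im` are positive; `U_reg`, `v_reg`).
* `apath_eq`, `cpath_eq`: `closed_path` for the images of the closed paths (`apath_closed`, `cpath_closed`).
* `mean_bound`: if `u ∈ U i e`, `u' ∈ U i' e'` and `jj (i, e) = jj (i', e')`, `lat_same` gives
  `A_(i,e).im = A_(i',e').im`, hence `i = i'` (`A_im_eq`).  So by `count_pieces`
  `jj (i, true) = jj (i, false)`; then `lat_same` for the two tori of the piece `i` gives
  `cc a (F+ - F-) = A_(i,+).re - A_(i,-).re ≥ 2 cc (1 - 5/2 κ) a` (`A_re_diff`, `a = A.im > 0`), where `F+`, `F-` are the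
  means of `f` along an image of a path of the torus `(i, true)`, `(i, false)`, so `F+ - F- ≥ 2 - 5 κ`, and as
  `F- ≥ -1`, `F+ ≤ 1`: `F+ ≥ 1 - 5 κ`, `F- ≤ -1 + 5 κ`.
-/

namespace Pool.Agent.H1.Horo

open Set MeasureTheory

namespace Cfg
variable {n : ℕ} {κ : ℝ} [NeZero n]

namespace Sit
variable {S : Cfg n κ} (T : S.Sit)

/-- the mean of `f` along an image path -/
noncomputable def F (i : Fin n) (e : Bool) (u : ℝ) : ℝ :=
  ∫ r in (0 : ℝ)..1, S.f (T.Θ (T.D'.apath i e u r))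

/-- the piece containing the image of most of the torus `(i, e)` -/
noncomputable def jj (a : Fin n × Bool) : Fin n :=
  pc (Quot.out (T.Θ (T.D'.cpath a.1 a.2 (T.v a.1 a.2) 0)))

theorem nice' : T.D'.Nice κ := nice T.near T.eps

theorem ahol_ne (i : Fin n) (e : Bool) :
    (⟨(T.D'.A i e).re - T.s * (T.D'.A i e).im, (T.D'.A i e).im⟩ : ℂ).im ≠ 0 := by
  have h := (A_im T.near T.eps i e).1
  change (T.D'.A i e).im ≠ 0
  intro h0
  rw [h0] at h
  norm_num at h

theorem chol_ne (i : Fin n) (e : Bool) :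
    (⟨(T.D'.C i e).re - T.s * (T.D'.C i e).im, (T.D'.C i e).im⟩ : ℂ).im ≠ 0 :=
  (C_im T.near T.eps i e).1.ne'

theorem aimage (i : Fin n) (e : Bool) {u : ℝ} (hu : u ∈ T.U i e) :
    (pat n).IsStraight S.D.edge (fun t => T.Θ (T.D'.apath i e u t))
      ⟨(T.D'.A i e).re - T.s * (T.D'.A i e).im, (T.D'.A i e).im⟩ :=
  T.image_straight (Par.apath_straight T.nice' i e (T.U_sub i e hu))

theorem cimage (i : Fin n) (e : Bool) :
    (pat n).IsStraight S.D.edge (fun t => T.Θ (T.D'.cpath i e (T.v i e) t))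
      ⟨(T.D'.C i e).re - T.s * (T.D'.C i e).im, (T.D'.C i e).im⟩ :=
  T.image_straight (Par.cpath_straight T.nice' i e (T.v_mem i e))

theorem piece_apath (i : Fin n) (e : Bool) {u : ℝ} (hu : u ∈ T.U i e) {t : ℝ}
    (ht : t ∈ Icc (0 : ℝ) 1) {p : (pat n).Chart}
    (hp : Quot.mk (pat n).Glued p = T.Θ (T.D'.apath i e u t)) : pc p = T.jj (i, e) := by
  obtain ⟨t0, ht0, r0, hr0, hcr⟩ := Par.cross T.nice' i e (T.U_sub i e hu) (T.v_mem i e)
  have h1 := S.piece_const (T.aimage i e hu) (T.ahol_ne i e) (fun t ht => T.U_reg i e hu ht)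
    (Quot.out_eq (T.Θ (T.D'.apath i e u 0))) ht hp
  have h2 := S.piece_const (T.aimage i e hu) (T.ahol_ne i e) (fun t ht => T.U_reg i e hu ht)
    (Quot.out_eq (T.Θ (T.D'.apath i e u 0))) ht0 (Quot.out_eq (T.Θ (T.D'.apath i e u t0)))
  have h3 := S.piece_const (T.cimage i e) (T.chol_ne i e) (fun t ht => T.v_reg i e ht)
    (Quot.out_eq (T.Θ (T.D'.cpath i e (T.v i e) 0))) hr0
    (Quot.out_eq (T.Θ (T.D'.cpath i e (T.v i e) r0)))
  rw [hcr] at h2
  exact h1.trans (h2.symm.trans h3)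

theorem apath_eq (i : Fin n) (e : Bool) {u : ℝ} (hu : u ∈ T.U i e) :
    ∃ m k : ℤ, S.lam (T.jj (i, e)) * m =
        (T.D'.A i e).re - T.s * (T.D'.A i e).im - cc * (T.D'.A i e).im * T.F i e u ∧
      m * S.V.α + k = S.lam (T.jj (i, e)) * (T.D'.A i e).im := by
  have hcl : T.Θ (T.D'.apath i e u 0) = T.Θ (T.D'.apath i e u 1) :=
    congrArg T.Θ (Par.apath_closed S.κ_pos T.nice' i e (T.U_sub i e hu))
  obtain ⟨m, k, h1, h2⟩ := S.closed_path (T.aimage i e hu) (T.ahol_ne i e)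
    (fun t ht => T.U_reg i e hu ht) (Quot.out_eq (T.Θ (T.D'.apath i e u 0))) hcl
  have h3 := T.piece_apath i e hu (t := 0) (by simp)
    (Quot.out_eq (T.Θ (T.D'.apath i e u 0)))
  rw [h3] at h1 h2
  exact ⟨m, k, h1, h2⟩

/-- the mean of `f` along a path is at most one in absolute value -/
theorem mean_abs (γ : ℝ → (pat n).Pt) : |∫ r in (0 : ℝ)..1, S.f (γ r)| ≤ 1 := by
  have h := intervalIntegral.norm_integral_le_of_norm_le_const (a := (0 : ℝ)) (b := 1)
    (f := fun r => S.f (γ r)) (C := 1) (fun x _ => by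
      rcases S.f_val (γ x) with h | h <;> rw [h] <;> simp)
  simpa using h

theorem cpath_eq (i : Fin n) (e : Bool) : ∃ (g : ℝ) (m k : ℤ), |g| ≤ 1 ∧
    S.lam (T.jj (i, e)) * m =
        (T.D'.C i e).re - T.s * (T.D'.C i e).im - cc * (T.D'.C i e).im * g ∧
      m * S.V.α + k = S.lam (T.jj (i, e)) * (T.D'.C i e).im := by
  have hcl : T.Θ (T.D'.cpath i e (T.v i e) 0) = T.Θ (T.D'.cpath i e (T.v i e) 1) :=
    congrArg T.Θ (Par.cpath_closed T.nice' i e (T.v_mem i e))
  obtain ⟨m, k, h1, h2⟩ := S.closed_path (T.cimage i e) (T.chol_ne i e)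
    (fun t ht => T.v_reg i e ht) (Quot.out_eq (T.Θ (T.D'.cpath i e (T.v i e) 0))) hcl
  exact ⟨_, m, k, mean_abs _, h1, h2⟩

theorem F_abs (i : Fin n) (e : Bool) (u : ℝ) : |T.F i e u| ≤ 1 := mean_abs _

theorem same_piece (a b : Fin n × Bool) (h : T.jj a = T.jj b) {u u' : ℝ} (hu : u ∈ T.U a.1 a.2)
    (hu' : u' ∈ T.U b.1 b.2) :
    (T.D'.A a.1 a.2).im = (T.D'.A b.1 b.2).im ∧
      (T.D'.A a.1 a.2).re - cc * (T.D'.A a.1 a.2).im * T.F a.1 a.2 u =
        (T.D'.A b.1 b.2).re - cc * (T.D'.A b.1 b.2).im * T.F b.1 b.2 u' := by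
  obtain ⟨m1, k1, h1, h1'⟩ := T.apath_eq a.1 a.2 hu
  obtain ⟨m2, k2, h2, h2'⟩ := T.apath_eq b.1 b.2 hu'
  obtain ⟨g, m3, k3, hg, h3, h3'⟩ := T.cpath_eq a.1 a.2
  have hb : T.jj (b.1, b.2) = T.jj (a.1, a.2) := h.symm
  rw [hb] at h2 h2'
  exact lat_same (S.lam_pos _) h1 h1' h2 h2' h3 h3' (T.F_abs _ _ _) (T.F_abs _ _ _) hg
    (C_re T.near T.eps _ _) (C_im T.near T.eps _ _) (A_im T.near T.eps _ _)
    (A_re T.near T.eps _ _) (A_im T.near T.eps _ _) (A_re T.near T.eps _ _)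
    (A_im_diff T.near T.eps _ _ _ _)

theorem jj_inj (a b : Fin n × Bool) (h : T.jj a = T.jj b) : a.1 = b.1 := by
  obtain ⟨u, hu⟩ := T.U_nonempty a.1 a.2
  obtain ⟨u', hu'⟩ := T.U_nonempty b.1 b.2
  exact A_im_eq T.near T.eps (T.same_piece a b h hu hu').1

theorem mean_diff (i : Fin n) {u u' : ℝ} (hu : u ∈ T.U i true) (hu' : u' ∈ T.U i false) :
    2 - 5 * κ ≤ T.F i true u - T.F i false u' := by
  have hJ := count_pieces T.jj T.jj_inj i
  obtain ⟨h1, h2⟩ := T.same_piece (i, true) (i, false) hJ hu hu'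
  have h3 := A_re_diff T.near T.eps i
  have h4 := (A_im T.near T.eps i true).1
  dsimp only at h1 h2
  rw [← h1] at h2
  have hcc : (0 : ℝ) < cc := by norm_num [cc]
  set a := (T.D'.A i true).im with ha
  have ha0 : 0 < a := by linarith
  have h5 : (T.D'.A i true).re - (T.D'.A i false).re =
      cc * a * (T.F i true u - T.F i false u') := by linarith
  rw [h5] at h3
  have h6 : cc * a * (2 - 5 * κ) ≤ cc * a * (T.F i true u - T.F i false u') := by
    calc cc * a * (2 - 5 * κ) = 2 * cc * (1 - 5 / 2 * κ) * a := by ring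
      _ ≤ _ := h3
  exact le_of_mul_le_mul_left h6 (mul_pos hcc ha0)

theorem mean_bound (i : Fin n) (e : Bool) {u : ℝ} (hu : u ∈ T.U i e) :
    1 - 5 * κ ≤ sg e * T.F i e u := by
  cases e with
  | true =>
    obtain ⟨u', hu'⟩ := T.U_nonempty i false
    have h1 := T.mean_diff i hu hu'
    have h2 := (abs_le.1 (T.F_abs i false u')).1
    rw [sg_true, one_mul]
    linarith
  | false =>
    obtain ⟨u', hu'⟩ := T.U_nonempty i true
    have h1 := T.mean_diff i hu' hu
    have h2 := (abs_le.1 (T.F_abs i true u')).2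
    rw [sg_false]
    linarith

/-- most of the image path is in the set where `f` equals `sg e` -/
theorem time_bound (i : Fin n) (e : Bool) {u : ℝ} (hu : u ∈ T.U i e) :
    volume {t : ℝ | t ∈ Icc (0 : ℝ) 1 ∧ S.f (T.Θ (T.D'.apath i e u t)) ≠ sg e} ≤
      ENNReal.ofReal (5 / 2 * κ) := by
  have hint : IntervalIntegrable (fun r => S.f (T.Θ (T.D'.apath i e u r))) volume 0 1 :=
    (S.lift (T.aimage i e hu) (T.ahol_ne i e) (fun t ht => T.U_reg i e hu ht)
      (Quot.out_eq (T.Θ (T.D'.apath i e u 0))) (S.Lft_self _)).1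
  set h : ℝ → ℝ := fun r => 1 - sg e * S.f (T.Θ (T.D'.apath i e u r)) with hh
  have hint2 : IntervalIntegrable h volume 0 1 :=
    (intervalIntegrable_const (c := (1 : ℝ))).sub (hint.const_mul (sg e))
  have hI : ∫ r in (0 : ℝ)..1, h r = 1 - sg e * T.F i e u := by
    rw [hh, intervalIntegral.integral_sub (intervalIntegrable_const) (hint.const_mul (sg e)),
      intervalIntegral.integral_const_mul]
    simp [F]
  have hle : ∫ r in (0 : ℝ)..1, h r ≤ 5 * κ := by
    rw [hI]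
    have := T.mean_bound i e hu
    linarith
  rw [intervalIntegral.integral_of_le zero_le_one] at hle
  have hint3 : Integrable h (volume.restrict (Ioc (0 : ℝ) 1)) := by
    have := (intervalIntegrable_iff_integrableOn_Ioc_of_le zero_le_one).1 hint2
    exact this
  have hnn : ∀ r, 0 ≤ h r := by
    intro r
    simp only [hh]
    rcases S.f_val (T.Θ (T.D'.apath i e u r)) with h1 | h1 <;> rw [h1] <;>
      cases e <;> norm_num
  have hM := mul_meas_ge_le_integral_of_nonneg (μ := volume.restrict (Ioc (0 : ℝ) 1)) (f := h)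
    (Filter.Eventually.of_forall hnn) hint3 2
  have hM2 : (volume.restrict (Ioc (0 : ℝ) 1)).real {x | 2 ≤ h x} ≤ 5 / 2 * κ := by linarith
  have hM3 : (volume.restrict (Ioc (0 : ℝ) 1)) {x | 2 ≤ h x} ≤ ENNReal.ofReal (5 / 2 * κ) := by
    rw [← ENNReal.ofReal_toReal (measure_ne_top (volume.restrict (Ioc (0 : ℝ) 1)) {x | 2 ≤ h x})]
    exact ENNReal.ofReal_le_ofReal hM2
  rw [Measure.restrict_apply' measurableSet_Ioc] at hM3
  have hsub : {t : ℝ | t ∈ Icc (0 : ℝ) 1 ∧ S.f (T.Θ (T.D'.apath i e u t)) ≠ sg e} ⊆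
      ({x | 2 ≤ h x} ∩ Ioc 0 1) ∪ {0} := by
    rintro t ⟨ht, hft⟩
    by_cases ht0 : t = 0
    · exact Or.inr ht0
    · refine Or.inl ⟨?_, lt_of_le_of_ne ht.1 (Ne.symm ht0), ht.2⟩
      simp only [hh, mem_ofPred_eq]
      rcases S.f_val (T.Θ (T.D'.apath i e u t)) with h1 | h1 <;> rw [h1] at hft ⊢ <;>
        cases e <;> simp at hft ⊢ <;> norm_num
  calc volume {t : ℝ | t ∈ Icc (0 : ℝ) 1 ∧ S.f (T.Θ (T.D'.apath i e u t)) ≠ sg e}
      ≤ volume (({x | 2 ≤ h x} ∩ Ioc 0 1) ∪ {0}) := measure_mono hsub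
    _ ≤ volume ({x | 2 ≤ h x} ∩ Ioc 0 1) + volume {(0 : ℝ)} := measure_union_le _ _
    _ = volume ({x | 2 ≤ h x} ∩ Ioc 0 1) := by rw [Real.volume_singleton, add_zero]
    _ ≤ ENNReal.ofReal (5 / 2 * κ) := hM3

end Sit

end Cfg

end Pool.Agent.H1.Horo
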