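import Pool.Agent.H1.Horo.NoPar

/-!
# If most points are good there is a short vector

PROOF of `short_vector`.  `λ = lam j`, `a = r p`, `b = r / p`.  Suppose that no `w ∈ Svec` satisfies
`|w.1 + s/λ² w.2| ≤ r0 p`, `|w.2| ≤ r0 / p`.  `Box 0 = Box λ s a b 0` has measure
`(a - 2 cc b) b = r² - 2 cc r²/p² ≥ (98/100) r²` (`box_volume`).  By `box_points` (with `box_inj`; the boxes
are open) for `B = Box 0` and `B = Box (a/λ) = Box 0 + (a/λ, 0)`:
`volume (Box 0 \ P) ≤ area {not good} + 8 κ` and, translating,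
`volume {x ∈ Box 0 | x + (a/λ, 0) ∉ P} ≤ area {not good} + 8 κ`, `P = GoodPos j s b`.  The set of
`x` with `x.2 ∈ N0` or `x.2 + λ b ∈ N0` is null (`V.null`, product measure).  So by `harea` there is
`x ∈ Box 0` in none of these three sets; apply `no_parity`.
-/

namespace Pool.Agent.H1.Horo

open Set MeasureTheory

namespace Cfg
variable {n : ℕ} {κ : ℝ} [NeZero n] (S : Cfg n κ)

theorem box_isOpen (lam s a b x0 : ℝ) : IsOpen (Box lam s a b x0) := by
  unfold Box
  refine (isOpen_lt (by fun_prop) (by fun_prop)).and ((isOpen_lt (by fun_prop) (by fun_prop)).and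
    ((isOpen_lt (by fun_prop) (by fun_prop)).and (isOpen_lt (by fun_prop) (by fun_prop))))

theorem strip_null {N : Set ℝ} (hN : volume N = 0) :
    volume {x : ℝ × ℝ | x.2 ∈ N} = 0 := by
  have e : {x : ℝ × ℝ | x.2 ∈ N} = univ ×ˢ N := by
    ext x; simp
  rw [e, Measure.volume_eq_prod, Measure.prod_prod, hN, mul_zero]

theorem short_vector {j : Fin n} {s p r r0 : ℝ} (hr : 0 < r) (hr0 : 11 / 10 * r ≤ r0) (hp : 1 ≤ p)
    (harea : 2 * ((pat n).area S.D.edge {y | ¬ S.GoodPt s (r / p) y} + ENNReal.ofReal (8 * κ)) <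
      ENNReal.ofReal (98 / 100 * r ^ 2)) :
    ∃ w ∈ Svec S.V.α S.V.y1, |w.1 + s / S.lam j ^ 2 * w.2| ≤ r0 * p ∧ |w.2| ≤ r0 / p := by
  by_contra hno
  have hl : 0 < S.lam j := S.lam_pos j
  have hp0 : 0 < p := by linarith
  have hb : 0 < r / p := div_pos hr hp0
  have hab : 2 * cc * (r / p) < r * p := by
    have h1 : r / p ≤ r * p := by
      rw [div_le_iff₀ hp0]
      nlinarith [mul_nonneg hr.le (by nlinarith : (0 : ℝ) ≤ p * p - 1)]
    unfold cc
    have h2 : 0 < r * p := mul_pos hr hp0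
    linarith
  set P := S.GoodPos j s (r / p) with hP
  set A := (pat n).area S.D.edge {y | ¬ S.GoodPt s (r / p) y} + ENNReal.ofReal (8 * κ) with hA
  set B0 := Box (S.lam j) s (r * p) (r / p) 0 with hB0
  set B1 := Box (S.lam j) s (r * p) (r / p) (r * p / S.lam j) with hB1
  have m0 : volume (B0 \ P) ≤ A :=
    S.box_points j s (r / p) (box_isOpen _ _ _ _ _).measurableSet (S.box_inj hr hr0 hp hno)
  have m1 : volume (B1 \ P) ≤ A :=
    S.box_points j s (r / p) (box_isOpen _ _ _ _ _).measurableSet (S.box_inj hr hr0 hp hno)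
  set C : Set (ℝ × ℝ) := (fun x : ℝ × ℝ => x + (r * p / S.lam j, 0)) ⁻¹' (B1 \ P) with hC
  have m2 : volume C ≤ A := by
    rw [hC, measure_preimage_add_right]; exact m1
  set N1 : Set (ℝ × ℝ) := {x | x.2 ∈ S.V.N0} with hN1
  set N2 : Set (ℝ × ℝ) := {x | x.2 ∈ (fun y => y + S.lam j * (r / p)) ⁻¹' S.V.N0} with hN2
  have m3 : volume N1 = 0 := strip_null S.V.null
  have m4 : volume N2 = 0 := strip_null (by rw [measure_preimage_add_right]; exact S.V.null)
  have hsub : B0 ⊆ ((B0 \ P) ∪ C) ∪ (N1 ∪ N2) := by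
    intro x hx
    by_contra hxn
    simp only [mem_union, not_or] at hxn
    obtain ⟨⟨h1, h2⟩, h3, h4⟩ := hxn
    have h5 : x ∈ P := by
      by_contra h; exact h1 ⟨hx, h⟩
    have h6 : (x.1 + r * p / S.lam j, x.2) ∈ P := by
      by_contra h
      apply h2
      change x + (r * p / S.lam j, 0) ∈ B1 \ P
      have e : x + (r * p / S.lam j, 0) = (x.1 + r * p / S.lam j, x.2) := by
        ext <;> simp
      rw [e]
      refine ⟨?_, h⟩
      have hx' := hx
      rw [hB0, Box, mem_setOf_eq] at hx'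
      rw [hB1, Box, mem_setOf_eq]
      simpa using hx'
    exact hno (S.no_parity hr hr0 hp hx h5 h6 h3 h4)
  have hle : volume B0 ≤ A + A := by
    calc volume B0 ≤ volume (((B0 \ P) ∪ C) ∪ (N1 ∪ N2)) := measure_mono hsub
      _ ≤ volume ((B0 \ P) ∪ C) + volume (N1 ∪ N2) := measure_union_le _ _
      _ ≤ (volume (B0 \ P) + volume C) + (volume N1 + volume N2) :=
        add_le_add (measure_union_le _ _) (measure_union_le _ _)
      _ ≤ A + A := by rw [m3, m4, add_zero, add_zero]; exact add_le_add m0 m2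
  rw [hB0, box_volume hl hb hab, ← two_mul] at hle
  have h7 : 98 / 100 * r ^ 2 ≤ (r * p - 2 * cc * (r / p)) * (r / p) := by
    have e : (r * p - 2 * cc * (r / p)) * (r / p) = r ^ 2 - 2 * cc * (r / p) ^ 2 := by
      field_simp
    have h8 : (r / p) ^ 2 ≤ r ^ 2 := by
      have : r / p ≤ r := div_le_self hr.le hp
      exact pow_le_pow_left₀ hb.le this 2
    rw [e]; unfold cc
    linarith
  have h9 := ENNReal.ofReal_le_ofReal h7
  exact absurd (lt_of_le_of_lt (h9.trans hle) harea) (lt_irrefl _)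

end Cfg

end Pool.Agent.H1.Horo
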