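import Mathlib

/-!
# Vertical translation of a convex set

PROOF.  The set is Borel (`K` is compact).  By Fubini (`Complex.volume_preserving_equiv_real_prod`) it suffices
that for every `x` the vertical section has measure at most `b`, and is empty unless `x` is in the
projection of `K`, which is contained in an interval of length `W`.  The section of `K` is a
compact interval `[c, d]` (or empty) by convexity; if `y ∈ [c, d]` and `y + b ∉ [c, d]` then `y ∈ (d - b, d]`.
-/

namespace Pool.Agent.H1.Horo

open Set MeasureTheory

theorem strip {K : Set ℂ} (hK : IsCompact K) (hc : Convex ℝ K) {b W : ℝ} (hb : 0 ≤ b)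
    (hW : ∀ x ∈ K, ∀ y ∈ K, x.re - y.re ≤ W) :
    volume {x : ℂ | x ∈ K ∧ x + b * Complex.I ∉ K} ≤ ENNReal.ofReal (W * b) := by
  rcases K.eq_empty_or_nonempty with rfl | ⟨x0, hx0⟩
  · simp
  have hW0 : 0 ≤ W := by simpa using hW x0 hx0 x0 hx0
  set T : Set (ℝ × ℝ) := {p | (⟨p.1, p.2⟩ : ℂ) ∈ K ∧ (⟨p.1, p.2⟩ : ℂ) + b * Complex.I ∉ K} with hT
  have hcont : Continuous fun p : ℝ × ℝ => (⟨p.1, p.2⟩ : ℂ) :=
    Complex.equivRealProdCLM.symm.continuous
  have hTm : MeasurableSet T := by
    have h1 : MeasurableSet ((fun p : ℝ × ℝ => (⟨p.1, p.2⟩ : ℂ)) ⁻¹' K) :=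
      (hK.isClosed.preimage hcont).measurableSet
    have h2 : MeasurableSet ((fun p : ℝ × ℝ => (⟨p.1, p.2⟩ : ℂ) + b * Complex.I) ⁻¹' K) :=
      (hK.isClosed.preimage (hcont.add continuous_const)).measurableSet
    exact h1.inter h2.compl
  have hpre : {x : ℂ | x ∈ K ∧ x + b * Complex.I ∉ K} = Complex.measurableEquivRealProd ⁻¹' T := by
    ext x
    simp [hT, Complex.measurableEquivRealProd]
  rw [hpre, Complex.volume_preserving_equiv_real_prod.measure_preimage hTm.nullMeasurableSet,
    Measure.volume_eq_prod, Measure.prod_apply hTm]
  set m : ℝ := sInf (Complex.re '' K) with hm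
  have hbdd : BddBelow (Complex.re '' K) := (hK.image Complex.continuous_re).bddBelow
  have hproj : ∀ x ∈ K, x.re ∈ Icc m (m + W) := by
    intro x hx
    refine ⟨csInf_le hbdd ⟨x, hx, rfl⟩, ?_⟩
    have : x.re - W ≤ m := by
      apply le_csInf (Set.Nonempty.image _ ⟨x, hx⟩)
      rintro _ ⟨y, hy, rfl⟩
      linarith [hW x hx y hy]
    linarith
  calc ∫⁻ x, volume (Prod.mk x ⁻¹' T)
      ≤ ∫⁻ x, (Icc m (m + W)).indicator (fun _ => ENNReal.ofReal b) x := by
        apply lintegral_mono
        intro x
        by_cases hx : x ∈ Icc m (m + W)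
        · rw [indicator_of_mem hx]
          set sec : Set ℝ := {y | (⟨x, y⟩ : ℂ) ∈ K} with hsec
          have hsb : BddAbove sec := by
            have := (hK.image Complex.continuous_im).bddAbove
            refine this.mono ?_
            intro y hy
            exact ⟨_, hy, rfl⟩
          have hcl : IsClosed sec :=
            hK.isClosed.preimage (hcont.comp (Continuous.prodMk_right x))
          have hsub : Prod.mk x ⁻¹' T ⊆ Icc (sSup sec - b) (sSup sec) := by
            rintro y ⟨hy1, hy2⟩
            have hy1' : y ∈ sec := hy1
            refine ⟨?_, le_csSup hsb hy1'⟩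
            by_contra hlt
            push Not at hlt
            apply hy2
            have hd : sSup sec ∈ sec := hcl.csSup_mem ⟨y, hy1'⟩ hsb
            have hsc : Convex ℝ sec := by
              intro u hu v hv s t hs ht hst
              have := hc hu hv hs ht hst
              have e : s • (⟨x, u⟩ : ℂ) + t • (⟨x, v⟩ : ℂ) = ⟨x, s • u + t • v⟩ := by
                apply Complex.ext
                · simp only [Complex.add_re, Complex.real_smul, Complex.mul_re, Complex.ofReal_re,
                    Complex.ofReal_im, zero_mul, sub_zero]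
                  rw [← add_mul, hst, one_mul]
                · simp
              rw [e] at this
              exact this
            have hmem : y + b ∈ Icc y (sSup sec) := ⟨by linarith, by linarith⟩
            have hq : y + b ∈ sec := hsc.ordConnected.out hy1' hd hmem
            have e : (⟨x, y⟩ : ℂ) + b * Complex.I = ⟨x, y + b⟩ := by
              apply Complex.ext <;> simp
            show (⟨x, y⟩ : ℂ) + b * Complex.I ∈ K
            rw [e]
            exact hq
          refine (measure_mono hsub).trans ?_
          rw [Real.volume_Icc]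
          simp
        · rw [indicator_of_notMem hx]
          have : Prod.mk x ⁻¹' T = ∅ := by
            rw [eq_empty_iff_forall_notMem]
            rintro y ⟨hy1, -⟩
            exact hx (hproj _ hy1)
          simp only [this, measure_empty, le_refl]
    _ = ENNReal.ofReal (W * b) := by
        rw [lintegral_indicator_const measurableSet_Icc, Real.volume_Icc, add_sub_cancel_left,
          mul_comm, ENNReal.ofReal_mul hW0]

end Pool.Agent.H1.Horo
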