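import Pool.Agent.H1.Horo.Bad1
import Pool.Agent.H1.Horo.Strip
import Pool.Agent.H1.Horo.Ends

/-!
# Most points are good

PROOF of `area_bad`: by `area_shear`, `area_image`, the area of `{y | ¬ GoodPt y}` is the sum over the
triangles `f` of `volume (trace D'.edge {x | ¬ GoodPt (Θ x)} f)`.  Let `f = (i, t)`, `e = t.lab`.  The chart
points `p` of `f` with `¬ GoodPt (Θ (mk p))` are in one of the following sets (`x = pos p`):
(a) `x + off f ∈ bad1 i e`: volume at most `8 κ`;
(b) `x + i b + off f ∈ bad1 i e`: volume at most `8 κ`;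
(c) `x + i b` is not in the triangle `f`: volume at most `3 b ≤ 3 κ` (`strip`, `tri_width`);
(d) the vertical segment from `x` to `x + i b` meets one of the segments `{a k + y : 0 ≤ y ≤ r k}` of
    `nonreg_cover` with `f k = f`: volume at most `∑_{k : f k = f} r k b`.
Otherwise let `p_t` be the chart point of `f` at `x + i t b` (`tri_convex`), `γ t = mk (p_t)`: it is
a straight path of holonomy `i b` (`straight_of_tri`), its image is straight with holonomy
`(- s b, b)` (`image_straight`), regular by (d), and `f (Θ (γ 0)) = sg e = f (Θ (γ 1))` by (a), (b)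
(`p_0 = p` by `pos_inj`).
The sum over the `10 n` triangles is at most `10 n * 19 κ + 4 n l κ ≤ 400 n κ`.
-/

namespace Pool.Agent.H1.Horo

open Set MeasureTheory

theorem b2_shear_valid {P : Pattern} {z : P.Tri × Fin 3 → ℂ} (hz : P.Valid z) (s : ℝ) :
    P.Valid (shear s z) where
  closed f := by
    have h := hz.closed f
    have hr := congrArg Complex.re h
    have hi := congrArg Complex.im h
    simp only [Complex.add_re, Complex.add_im, Complex.zero_re, Complex.zero_im] at hr hi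
    apply Complex.ext
    · simp only [shear, Complex.add_re, Complex.zero_re]
      linear_combination hr + s * hi
    · simp only [shear, Complex.add_im, Complex.zero_im]
      exact hi
  oriented f := by
    have h := hz.oriented f
    simp only [shear]
    nlinarith
  glued h := by
    have h1 := hz.glued h
    apply Complex.ext
    · simp only [shear, h1, Complex.neg_re, Complex.neg_im]
      ring
    · simp only [shear, h1, Complex.neg_im]

theorem b2_rect (a : ℂ) {r b : ℝ} (hr : 0 ≤ r) (hb : 0 ≤ b) :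
    volume {x : ℂ | ∃ y ∈ Icc 0 r, ∃ t ∈ Icc (0 : ℝ) 1, x = a + (y : ℂ) - (t : ℂ) * (b * Complex.I)}
      ≤ ENNReal.ofReal (r * b) := by
  have h1 : {x : ℂ | ∃ y ∈ Icc 0 r, ∃ t ∈ Icc (0 : ℝ) 1,
      x = a + (y : ℂ) - (t : ℂ) * (b * Complex.I)} ⊆
      Complex.measurableEquivRealProd ⁻¹' (Icc a.re (a.re + r) ×ˢ Icc (a.im - b) a.im) := by
    rintro x ⟨y, hy, t, ht, rfl⟩
    have e1 : (Complex.measurableEquivRealProd (a + (y : ℂ) - (t : ℂ) * (b * Complex.I))).1 =
        a.re + y := by simp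
    have e2 : (Complex.measurableEquivRealProd (a + (y : ℂ) - (t : ℂ) * (b * Complex.I))).2 =
        a.im - t * b := by simp
    refine ⟨?_, ?_⟩
    · rw [e1]
      exact ⟨by linarith [hy.1], by linarith [hy.2]⟩
    · rw [e2]
      have h2 : 0 ≤ t * b := mul_nonneg ht.1 hb
      have h3 : t * b ≤ 1 * b := mul_le_mul_of_nonneg_right ht.2 hb
      exact ⟨by linarith, by linarith⟩
  refine (measure_mono h1).trans ?_
  rw [Complex.volume_preserving_equiv_real_prod.measure_preimage
    (measurableSet_Icc.prod measurableSet_Icc).nullMeasurableSet, Measure.volume_eq_prod,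
    Measure.prod_prod, Real.volume_Icc, Real.volume_Icc, ← ENNReal.ofReal_mul (by linarith)]
  apply ENNReal.ofReal_le_ofReal
  apply le_of_eq
  ring

namespace Cfg
variable {n : ℕ} {κ : ℝ} [NeZero n]

namespace Sit
variable {S : Cfg n κ} (T : S.Sit)

/-- the four kinds of bad points of one triangle -/
theorem b2_cases {b : ℝ} {M : ℕ} {f : Fin M → (pat n).Tri} {a : Fin M → ℂ}
    {r : Fin M → ℝ}
    (hc : ∀ p : (pat n).Chart, ¬ Reg (T.Θ (Quot.mk (pat n).Glued p)) →
      ∃ k, p.1.1 = f k ∧ ∃ x ∈ Icc 0 (r k), (pat n).pos T.D'.edge p = a k + x)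
    {p : (pat n).Chart} (hp : ¬ S.GoodPt T.s b (T.Θ (Quot.mk (pat n).Glued p))) :
    (T.D'.off p.1.1 + (pat n).pos T.D'.edge p ∈ T.bad1 (pc p) (lb p)) ∨
    (T.D'.off p.1.1 + ((pat n).pos T.D'.edge p + b * Complex.I) ∈ T.bad1 (pc p) (lb p)) ∨
    ((pat n).pos T.D'.edge p + b * Complex.I ∉ (pat n).tri T.D'.edge p.1.1) ∨
    (∃ k, f k = p.1.1 ∧ ∃ y ∈ Icc 0 (r k), ∃ t ∈ Icc (0 : ℝ) 1,
      (pat n).pos T.D'.edge p = a k + (y : ℂ) - (t : ℂ) * (b * Complex.I)) := by
  by_contra hcon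
  push Not at hcon
  obtain ⟨ha, hb, htri, hseg⟩ := hcon
  apply hp
  have hv : (pat n).Valid T.D'.edge := edge_valid T.D' T.near.pos
  have hx0 : (pat n).pos T.D'.edge p ∈ (pat n).tri T.D'.edge p.1.1 := ⟨p, rfl, rfl⟩
  have hpt : ∀ t : ℝ, t ∈ Icc (0 : ℝ) 1 → ∃ q : (pat n).Chart, q.1.1 = p.1.1 ∧
      (pat n).pos T.D'.edge q = (pat n).pos T.D'.edge p + t * (b * Complex.I) := by
    intro t ht
    have h1 := Pattern.tri_convex (P := pat n) (z := T.D'.edge) p.1.1 hx0 htri
      (sub_nonneg.2 ht.2) ht.1 (by ring)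
    obtain ⟨q, hq1, hq2⟩ := h1
    refine ⟨q, hq1, ?_⟩
    rw [hq2, Complex.real_smul, Complex.real_smul]
    push_cast
    ring
  choose! q hq1 hq2 using hpt
  have m0 : (0 : ℝ) ∈ Icc (0 : ℝ) 1 := ⟨le_rfl, zero_le_one⟩
  have m1 : (1 : ℝ) ∈ Icc (0 : ℝ) 1 := ⟨zero_le_one, le_rfl⟩
  have hstr : (pat n).IsStraight T.D'.edge (fun t => Quot.mk (pat n).Glued (q t))
      (b * Complex.I) :=
    Pattern.straight_of_tri (f := p.1.1) (a := (pat n).pos T.D'.edge p) fun t ht =>
      ⟨q t, hq1 t ht, rfl, hq2 t ht⟩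
  have himg := T.image_straight hstr
  have hq0 : q 0 = p := by
    refine Pattern.pos_inj hv (hq1 0 m0) ?_
    rw [hq2 0 m0]
    simp
  have hval : ∀ t ∈ Icc (0 : ℝ) 1, T.D'.off p.1.1 + (pat n).pos T.D'.edge (q t) ∉
      T.bad1 (pc p) (lb p) → S.f (T.Θ (Quot.mk (pat n).Glued (q t))) = sg (lb p) := by
    intro t ht h1
    by_contra hne
    apply h1
    refine ⟨q t, ?_, ?_, ?_, hne⟩
    · exact congrArg (Prod.fst (α := Fin n) (β := TT)) (hq1 t ht)
    · exact congrArg (fun g : Fin n × TT => g.2.lab) (hq1 t ht)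
    · unfold Par.ppos
      rw [hq1 t ht]
  refine ⟨fun t => T.Θ (Quot.mk (pat n).Glued (q t)), ?_, ?_, ?_, ?_⟩
  · have e : (⟨-(T.s * b), b⟩ : ℂ) = ⟨((b : ℂ) * Complex.I).re - T.s * ((b : ℂ) * Complex.I).im,
        ((b : ℂ) * Complex.I).im⟩ := by
      apply Complex.ext <;> simp
    rw [e]
    exact himg
  · simp only [hq0]
  · intro t ht
    by_contra hreg
    obtain ⟨k, hk, y, hy, hpos⟩ := hc (q t) hreg
    refine hseg k ((hq1 t ht).symm.trans hk).symm y hy t ht ?_
    rw [hq2 t ht] at hpos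
    linear_combination hpos
  · have h0 := hval 0 m0 (by rw [hq0]; exact ha)
    have h1 := hval 1 m1 (by
      rw [hq2 1 m1, Complex.ofReal_one, one_mul]
      exact hb)
    dsimp only
    rw [h0, h1]

open Classical in
theorem b2_trace {b : ℝ} (hb : 0 < b) (hbκ : b ≤ κ) {M : ℕ} {f : Fin M → (pat n).Tri}
    {a : Fin M → ℂ} {r : Fin M → ℝ} (hr0 : ∀ k, 0 ≤ r k)
    (hc : ∀ p : (pat n).Chart, ¬ Reg (T.Θ (Quot.mk (pat n).Glued p)) →
      ∃ k, p.1.1 = f k ∧ ∃ x ∈ Icc 0 (r k), (pat n).pos T.D'.edge p = a k + x)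
    (g : (pat n).Tri) :
    volume ((pat n).trace T.D'.edge {x | ¬ S.GoodPt T.s b (T.Θ x)} g) ≤
      ENNReal.ofReal (19 * κ) + ∑ k, if f k = g then ENNReal.ofReal (r k * b) else 0 := by
  have hκ := S.κ_pos
  set i : Fin n := Prod.fst (α := Fin n) (β := TT) g with hi
  set e : Bool := (Prod.snd (α := Fin n) (β := TT) g).lab with he
  let R : Fin M → Set ℂ := fun k => if f k = g then {x : ℂ | ∃ y ∈ Icc 0 (r k),
    ∃ t ∈ Icc (0 : ℝ) 1, x = a k + (y : ℂ) - (t : ℂ) * (b * Complex.I)} else ∅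
  have hsub : (pat n).trace T.D'.edge {x | ¬ S.GoodPt T.s b (T.Θ x)} g ⊆
      ((fun x => x + T.D'.off g) ⁻¹' (T.bad1 i e) ∪
        (fun x => x + (b * Complex.I + T.D'.off g)) ⁻¹' (T.bad1 i e)) ∪
      ({x : ℂ | x ∈ (pat n).tri T.D'.edge g ∧ x + b * Complex.I ∉ (pat n).tri T.D'.edge g} ∪
        ⋃ k, R k) := by
    rintro x ⟨p, hp1, hp2, hp3⟩
    subst hp2
    rcases T.b2_cases hc hp3 with h | h | h | ⟨k, hk, y, hy, t, ht, h⟩
    · left; left
      change (pat n).pos T.D'.edge p + T.D'.off g ∈ T.bad1 i e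
      rw [← hp1, add_comm]
      have e1 : i = pc p := by rw [hi, ← hp1]; rfl
      have e2 : e = lb p := by rw [he, ← hp1]; rfl
      rw [e1, e2]
      exact h
    · left; right
      change (pat n).pos T.D'.edge p + (b * Complex.I + T.D'.off g) ∈ T.bad1 i e
      rw [← hp1, ← add_assoc, add_comm]
      have e1 : i = pc p := by rw [hi, ← hp1]; rfl
      have e2 : e = lb p := by rw [he, ← hp1]; rfl
      rw [e1, e2]
      exact h
    · right; left
      rw [hp1] at h
      exact ⟨⟨p, hp1, rfl⟩, h⟩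
    · right; right
      refine mem_iUnion.2 ⟨k, ?_⟩
      have hk' : f k = g := hk.trans hp1
      simp only [R, hk', if_true]
      exact ⟨y, hy, t, ht, h⟩
  have v1 : volume ((fun x => x + T.D'.off g) ⁻¹' (T.bad1 i e)) ≤ ENNReal.ofReal (8 * κ) := by
    rw [measure_preimage_add_right]
    exact T.bad1_volume i e
  have v2 : volume ((fun x => x + (b * Complex.I + T.D'.off g)) ⁻¹' (T.bad1 i e)) ≤
      ENNReal.ofReal (8 * κ) := by
    rw [measure_preimage_add_right]
    exact T.bad1_volume i e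
  have v3 : volume {x : ℂ | x ∈ (pat n).tri T.D'.edge g ∧
      x + b * Complex.I ∉ (pat n).tri T.D'.edge g} ≤ ENNReal.ofReal (3 * κ) := by
    refine (strip (Pattern.tri_compact g) (Pattern.tri_convex g) hb.le (W := 3) ?_).trans
      (ENNReal.ofReal_le_ofReal (by linarith))
    rintro x ⟨p, hp1, rfl⟩ y ⟨p', hp1', rfl⟩
    exact tri_width T.near T.eps (hp1.trans hp1'.symm)
  have v4 : volume (⋃ k, R k) ≤ ∑ k, if f k = g then ENNReal.ofReal (r k * b) else 0 := by
    refine (measure_iUnion_fintype_le _ _).trans (Finset.sum_le_sum fun k _ => ?_)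
    by_cases hk : f k = g
    · simp only [R, hk, if_true]
      exact b2_rect (a k) (hr0 k) hb.le
    · simp only [R, hk, if_false, measure_empty, le_refl]
  have e19 : ENNReal.ofReal (19 * κ) = (ENNReal.ofReal (8 * κ) + ENNReal.ofReal (8 * κ)) +
      ENNReal.ofReal (3 * κ) := by
    rw [← ENNReal.ofReal_add (by linarith) (by linarith),
      ← ENNReal.ofReal_add (by linarith) (by linarith)]
    congr 1
    ring
  refine (measure_mono hsub).trans ((measure_union_le _ _).trans ?_)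
  rw [e19, add_assoc (ENNReal.ofReal (8 * κ) + ENNReal.ofReal (8 * κ))]
  exact add_le_add ((measure_union_le _ _).trans (add_le_add v1 v2))
    ((measure_union_le _ _).trans (add_le_add v3 v4))

theorem area_bad {b : ℝ} (hb : 0 < b) (hbκ : b ≤ κ) :
    (pat n).area S.D.edge {y | ¬ S.GoodPt T.s b y} ≤ ENNReal.ofReal (400 * n * κ) := by
  classical
  obtain ⟨M, f, a, r, hr0, hrs, hc⟩ := T.nonreg_cover
  have hκ := S.κ_pos
  have hv : (pat n).Valid T.D'.edge := edge_valid T.D' T.near.pos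
  have hv' : (pat n).Valid (shear T.s S.D.edge) := b2_shear_valid S.valid T.s
  have h1 : (pat n).area S.D.edge {y | ¬ S.GoodPt T.s b y} =
      (pat n).area T.D'.edge {x | ¬ S.GoodPt T.s b (T.Θ x)} := by
    rw [← area_shear T.s, ← area_image hv hv' T.iso]
    congr 1
    ext y
    constructor
    · intro hy
      refine ⟨T.Θ.symm y, ?_, T.Θ.apply_symm_apply y⟩
      change ¬ S.GoodPt T.s b (T.Θ (T.Θ.symm y))
      rw [T.Θ.apply_symm_apply]
      exact hy
    · rintro ⟨x, hx, rfl⟩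
      exact hx
  rw [h1]
  unfold Pattern.area
  rw [tsum_fintype]
  refine (Finset.sum_le_sum fun g _ => T.b2_trace hb hbκ hr0 hc g).trans ?_
  rw [Finset.sum_add_distrib, Finset.sum_comm]
  have h2 : ∀ k, ∑ g : (pat n).Tri, (if f k = g then ENNReal.ofReal (r k * b) else 0) =
      ENNReal.ofReal (r k * b) := by
    intro k
    rw [Finset.sum_ite_eq]
    simp
  rw [Finset.sum_congr rfl fun k _ => h2 k, Finset.sum_const,
    ← ENNReal.ofReal_sum_of_nonneg fun k _ => mul_nonneg (hr0 k) hb.le, ← Finset.sum_mul]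
  have hcard : (Finset.univ : Finset (pat n).Tri).card = n * 10 := by
    change Fintype.card (Fin n × TT) = n * 10
    rw [Fintype.card_prod, Fintype.card_fin]
    rfl
  rw [hcard, nsmul_eq_mul, ← ENNReal.ofReal_natCast, ← ENNReal.ofReal_mul (Nat.cast_nonneg _)]
  have hn : (1 : ℝ) ≤ n := by
    have : 1 ≤ n := Nat.one_le_iff_ne_zero.2 (NeZero.ne n)
    exact_mod_cast this
  have h3 := S.l_lt
  have h4 := S.l_pos
  have h5 : 0 ≤ ∑ k, r k := Finset.sum_nonneg fun k _ => hr0 k
  rw [← ENNReal.ofReal_add (by positivity) (mul_nonneg h5 hb.le)]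
  apply ENNReal.ofReal_le_ofReal
  push_cast
  have h6 : (∑ k, r k) * b ≤ κ * κ := by
    have h7 : ∑ k, r k ≤ κ := by linarith
    exact mul_le_mul h7 hbκ hb.le hκ.le
  have h8 := S.κ_lt
  have h9 : κ * κ ≤ n * κ := mul_le_mul_of_nonneg_right (by linarith) hκ.le
  nlinarith

end Sit

end Cfg

end Pool.Agent.H1.Horo
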