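import Pool.Agent.H1.Horo.BOne

/-!
# The part of a torus where `f` does not equal `sg e` is small

PROOFS.
* `f_meas`: for an inner chart point `p` of the triangle `g`, `mk p` has the only chart point `p`
  (`mk_inner`), so `S.f (mk p) = fv p = sg (lb p) φ (λ Im (off g + pos p))`, a measurable function of
  the position; the non-inner ones are a null set (`not_inner_null`).
* `bad1_meas`: `bad1 i e` is the union over the triangles `(i, t)`, `t.lab = e`, of the translates by
  `off` of `trace D'.edge (Θ ⁻¹' {y | S.f y ≠ sg e}) (i, t)`; use `trace_nullMeasurable` and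
  `trace_shear_nullMeasurable`.
* `bad1_volume`: let `Φ (u, t) = u C + t A`, a linear map `ℝ × ℝ → ℂ` of determinant `cr C A ∈ (98/100, 102/100)`.
  `Φ (U × [0,1]) ⊆ hex` (`apath_mem`), `volume (hex) ≤ cr C A` (`volume_hex`), so
  `volume (hex \ Φ (U × [0,1])) ≤ cr C A (1 - vol U) ≤ (102/100) 3 κ` (`U_vol`).
  For `(u, t) ∈ U × [0,1]`: `Φ (u, t) ∈ bad1` iff `S.f (Θ (apath u t)) ≠ sg e`, by `mk_eq_pt`
  (`apath_slit`).  The set of these `(u, t)` is null measurable, so by Fubini its measure is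
  `∫_U vol {t ∈ [0,1] | f ≠ sg e} du ≤ (5/2) κ` (`time_bound`).
  Total at most `(102/100)(3 + 5/2) κ ≤ 8 κ`.
-/

namespace Pool.Agent.H1.Horo

open Set MeasureTheory

theorem bad1_valid_shear {P : Pattern} {z : P.Tri × Fin 3 → ℂ} (hz : P.Valid z) (s : ℝ) :
    P.Valid (shear s z) where
  closed f := by
    have h := hz.closed f
    have h1 := congrArg Complex.re h
    have h2 := congrArg Complex.im h
    simp only [Complex.add_re, Complex.add_im, Complex.zero_re, Complex.zero_im] at h1 h2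
    apply Complex.ext
    · simp only [shear, Complex.add_re, Complex.zero_re]
      linear_combination h1 + s * h2
    · simp only [shear, Complex.add_im, Complex.zero_im]
      exact h2
  oriented f := by
    have h := hz.oriented f
    simp only [shear]
    nlinarith
  glued h := by
    have h' := hz.glued h
    apply Complex.ext
    · simp only [shear, h', Complex.neg_re, Complex.neg_im]
      ring
    · simp only [shear, h', Complex.neg_im]

/-- the linear map `u + i t ↦ u C + t A` -/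
noncomputable def bad1L (C A : ℂ) : ℂ →ₗ[ℝ] ℂ where
  toFun w := (w.re : ℂ) * C + (w.im : ℂ) * A
  map_add' w w' := by
    simp only [Complex.add_re, Complex.add_im]
    push_cast
    ring
  map_smul' c w := by
    have h1 : (c • w).re = c * w.re := by simp
    have h2 : (c • w).im = c * w.im := by simp
    rw [h1, h2, RingHom.id_apply, Complex.real_smul]
    push_cast
    ring

theorem bad1L_apply (C A w : ℂ) : bad1L C A w = (w.re : ℂ) * C + (w.im : ℂ) * A := rfl

theorem bad1L_det (C A : ℂ) : LinearMap.det (bad1L C A) = cr C A := by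
  rw [← LinearMap.det_toMatrix Complex.basisOneI, Matrix.det_fin_two]
  simp [LinearMap.toMatrix_apply, bad1L_apply, cr]
  ring

theorem bad1_preimage {C A : ℂ} (h : 0 < cr C A) (s : Set ℂ) :
    volume s = ENNReal.ofReal (cr C A) * volume (bad1L C A ⁻¹' s) := by
  rw [Measure.addHaar_preimage_linearMap volume (by rw [bad1L_det]; exact h.ne'), bad1L_det,
    abs_of_pos (inv_pos.2 h), ← mul_assoc, ← ENNReal.ofReal_mul h.le, mul_inv_cancel₀ h.ne',
    ENNReal.ofReal_one, one_mul]

theorem bad1_prod (s : Set ℂ) :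
    volume s = volume {x : ℝ × ℝ | (⟨x.1, x.2⟩ : ℂ) ∈ s} := by
  rw [← Complex.volume_preserving_equiv_real_prod.symm.measure_preimage_equiv s]
  rfl

theorem bad1L_decomp {C A : ℂ} (h : cr C A ≠ 0) (u t : ℝ) :
    cr (bad1L C A ⟨u, t⟩) A / cr C A = u ∧ cr C (bad1L C A ⟨u, t⟩) / cr C A = t := by
  constructor
  · rw [div_eq_iff h]
    simp only [bad1L_apply, cr, Complex.add_re, Complex.add_im, Complex.mul_re, Complex.mul_im,
      Complex.ofReal_re, Complex.ofReal_im]
    ring
  · rw [div_eq_iff h]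
    simp only [bad1L_apply, cr, Complex.add_re, Complex.add_im, Complex.mul_re, Complex.mul_im,
      Complex.ofReal_re, Complex.ofReal_im]
    ring

theorem bad1L_surj {C A : ℂ} (h : cr C A ≠ 0) (q : ℂ) :
    bad1L C A ⟨cr q A / cr C A, cr C q / cr C A⟩ = q := by
  rw [bad1L_apply]
  apply Complex.ext
  · simp only [Complex.add_re, Complex.mul_re, Complex.ofReal_re, Complex.ofReal_im, zero_mul,
      sub_zero]
    rw [div_mul_eq_mul_div, div_mul_eq_mul_div, ← add_div, div_eq_iff h]
    simp only [cr]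
    ring
  · simp only [Complex.add_im, Complex.mul_im, Complex.ofReal_re, Complex.ofReal_im, zero_mul,
      add_zero]
    rw [div_mul_eq_mul_div, div_mul_eq_mul_div, ← add_div, div_eq_iff h]
    simp only [cr]
    ring

namespace Cfg
variable {n : ℕ} {κ : ℝ} [NeZero n]

theorem f_meas (S : Cfg n κ) (c : ℝ) (g : (pat n).Tri) :
    NullMeasurableSet ((pat n).trace S.D.edge {y | S.f y ≠ c} g) volume := by
  have hfv : ∀ p : (pat n).Chart, (pat n).Inner p →
      S.f (Quot.mk (pat n).Glued p) = S.fv p := by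
    intro p hp
    unfold f
    congr 1
    exact (Pattern.mk_inner hp (Quot.out_eq _).symm).symm
  set F : ℂ → ℝ := fun x => sg (Prod.snd (α := Fin n) (β := TT) g).lab *
    S.V.φ (S.lam (Prod.fst (α := Fin n) (β := TT) g) * (S.D.off g + x).im) with hF
  have hFm : Measurable F := by
    apply Measurable.const_mul
    apply S.V.meas.comp
    apply Measurable.const_mul
    exact Complex.measurable_im.comp (measurable_const_add _)
  have hfF : ∀ p : (pat n).Chart, p.1.1 = g → S.fv p = F ((pat n).pos S.D.edge p) := by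
    rintro p rfl
    rfl
  set M : Set ℂ := (pat n).tri S.D.edge g ∩ {x | F x ≠ c} with hM
  have hMm : MeasurableSet M :=
    ((pat n).tri_compact g).isClosed.measurableSet.inter
      (hFm (measurableSet_singleton c).compl)
  refine NullMeasurableSet.congr hMm.nullMeasurableSet ?_
  rw [Filter.eventuallyEq_set, ae_iff]
  refine measure_mono_null ?_ (not_inner_null S.valid g)
  intro x hx
  by_contra hcon
  have hin : ∀ p : (pat n).Chart, p.1.1 = g → (pat n).pos S.D.edge p = x → (pat n).Inner p := by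
    intro p h1 h2
    by_contra h3
    exact hcon ⟨p, h1, h2, h3⟩
  apply hx
  constructor
  · rintro ⟨⟨p, h1, h2⟩, h3⟩
    refine ⟨p, h1, h2, ?_⟩
    show S.f (Quot.mk _ p) ≠ c
    rw [hfv p (hin p h1 h2), hfF p h1, h2]
    exact h3
  · rintro ⟨p, h1, h2, h3⟩
    refine ⟨⟨p, h1, h2⟩, ?_⟩
    have h4 : S.f (Quot.mk _ p) ≠ c := h3
    rw [hfv p (hin p h1 h2), hfF p h1, h2] at h4
    exact h4

namespace Sit
variable {S : Cfg n κ} (T : S.Sit)

def bad1 (i : Fin n) (e : Bool) : Set ℂ :=
  {q | ∃ p : (pat n).Chart, pc p = i ∧ lb p = e ∧ T.D'.ppos p = q ∧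
    S.f (T.Θ (Quot.mk (pat n).Glued p)) ≠ sg e}

theorem bad1_meas (i : Fin n) (e : Bool) : NullMeasurableSet (T.bad1 i e) volume := by
  have hv : (pat n).Valid T.D'.edge := edge_valid T.D' T.near.pos
  have htr : ∀ g : (pat n).Tri, NullMeasurableSet
      ((pat n).trace T.D'.edge (T.Θ ⁻¹' {y | S.f y ≠ sg e}) g) volume :=
    trace_nullMeasurable hv (bad1_valid_shear S.valid T.s) T.iso
      (fun g => trace_shear_nullMeasurable T.s (S.f_meas (sg e) g))
  have heq : T.bad1 i e = ⋃ g : Fin n × TT, (if g.1 = i ∧ g.2.lab = e then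
      (fun x : ℂ => x - T.D'.off g) ⁻¹'
        ((pat n).trace T.D'.edge (T.Θ ⁻¹' {y | S.f y ≠ sg e}) g) else ∅) := by
    ext q
    rw [mem_iUnion]
    constructor
    · rintro ⟨p, h1, h2, h3, h4⟩
      refine ⟨p.1.1, ?_⟩
      rw [if_pos ⟨h1, h2⟩]
      refine ⟨p, rfl, ?_, h4⟩
      show (pat n).pos T.D'.edge p = q - T.D'.off p.1.1
      rw [← h3, Par.ppos, add_sub_cancel_left]
    · rintro ⟨g, hg⟩
      by_cases h : g.1 = i ∧ g.2.lab = e
      · rw [if_pos h] at hg
        obtain ⟨p, h1, h2, h3⟩ := hg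
        refine ⟨p, ?_, ?_, ?_, h3⟩
        · unfold pc
          rw [h1]; exact h.1
        · unfold lb
          rw [h1]; exact h.2
        · rw [Par.ppos, h1, h2, add_sub_cancel]
      · rw [if_neg h] at hg
        exact absurd hg (notMem_empty _)
  rw [heq]
  refine NullMeasurableSet.iUnion fun g => ?_
  split_ifs
  · exact (htr g).preimage (measurePreserving_sub_right volume _).quasiMeasurePreserving
  · exact nullMeasurableSet_empty

theorem bad1_volume (i : Fin n) (e : Bool) :
    volume (T.bad1 i e) ≤ ENNReal.ofReal (8 * κ) := by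
  have hN := nice T.near T.eps
  obtain ⟨hC1, hC2⟩ := cr_CA T.near T.eps i e
  have hκ0 := S.κ_pos
  have hκ1 := S.κ_lt
  set C := T.D'.C i e with hCdef
  set A := T.D'.A i e with hAdef
  have hcr : 0 < cr C A := by linarith
  have hU1 : volume (T.U i e) ≤ 1 := by
    refine (measure_mono (T.U_sub i e)).trans ?_
    rw [Real.volume_Icc]
    refine (ENNReal.ofReal_le_ofReal (q := 1) (by linarith)).trans ?_
    rw [ENNReal.ofReal_one]
  set E1 : Set ℂ := {q | cr q A / cr C A ∈ T.U i e ∧ cr C q / cr C A ∈ Icc (0 : ℝ) 1} with hE1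
  have hm1 : Measurable fun q : ℂ => cr q A / cr C A := by
    unfold cr
    fun_prop
  have hm2 : Measurable fun q : ℂ => cr C q / cr C A := by
    unfold cr
    fun_prop
  have hE1m : MeasurableSet E1 :=
    (hm1 (T.U_meas i e)).inter (hm2 measurableSet_Icc)
  have hLE1 : ∀ u t : ℝ, bad1L C A ⟨u, t⟩ ∈ E1 ↔ u ∈ T.U i e ∧ t ∈ Icc (0 : ℝ) 1 := by
    intro u t
    have h := bad1L_decomp hcr.ne' u t
    show (_ ∧ _) ↔ _
    rw [h.1, h.2]
  have hE1hex : E1 ⊆ T.D'.hex i e := by
    rintro q ⟨h1, h2⟩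
    rw [← bad1L_surj hcr.ne' q, bad1L_apply]
    exact Par.apath_mem hN i e (T.U_sub i e h1) h2
  have hE1v : volume E1 = ENNReal.ofReal (cr C A) * volume (T.U i e) := by
    rw [bad1_preimage hcr, bad1_prod]
    congr 1
    have h : {x : ℝ × ℝ | (⟨x.1, x.2⟩ : ℂ) ∈ bad1L C A ⁻¹' E1} = T.U i e ×ˢ Icc (0 : ℝ) 1 := by
      ext ⟨u, t⟩
      exact hLE1 u t
    rw [h, Measure.volume_eq_prod, Measure.prod_prod, Real.volume_Icc]
    norm_num
  -- outside of `E1`
  have hout : volume (T.D'.hex i e \ E1) ≤ ENNReal.ofReal (3 * κ * cr C A) := by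
    have hfin : volume E1 ≠ ⊤ := by
      rw [hE1v]
      exact ENNReal.mul_ne_top ENNReal.ofReal_ne_top (ne_top_of_le_ne_top ENNReal.one_ne_top hU1)
    rw [measure_sdiff hE1hex hE1m.nullMeasurableSet hfin, hE1v]
    have h1 : ENNReal.ofReal (cr C A) * ENNReal.ofReal (1 - 3 * κ)
        ≤ ENNReal.ofReal (cr C A) * volume (T.U i e) := by
      gcongr
      exact T.U_vol i e
    refine (tsub_le_tsub (Par.volume_hex hN.pos i e) h1).trans ?_
    rw [← ENNReal.ofReal_mul hcr.le, ← hCdef, ← hAdef,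
      ← ENNReal.ofReal_sub _ (mul_nonneg hcr.le (by linarith))]
    apply ENNReal.ofReal_le_ofReal
    linarith
  -- inside of `E1`
  have hin : volume (T.bad1 i e ∩ E1) ≤ ENNReal.ofReal (5 / 2 * κ * cr C A) := by
    obtain ⟨B, hB1, hB2, hB3⟩ :=
      ((T.bad1_meas i e).inter hE1m.nullMeasurableSet).exists_measurable_subset_ae_eq
    rw [← measure_congr hB3, bad1_preimage hcr, bad1_prod]
    have hBm : MeasurableSet {x : ℝ × ℝ | (⟨x.1, x.2⟩ : ℂ) ∈ bad1L C A ⁻¹' B} := by
      have h : Measurable fun x : ℝ × ℝ => bad1L C A (⟨x.1, x.2⟩ : ℂ) := by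
        have : (fun x : ℝ × ℝ => bad1L C A (⟨x.1, x.2⟩ : ℂ))
            = fun x : ℝ × ℝ => (x.1 : ℂ) * C + (x.2 : ℂ) * A := rfl
        rw [this]
        fun_prop
      exact h hB2
    rw [Measure.volume_eq_prod, Measure.prod_apply hBm]
    have h1 : ∀ u : ℝ, volume (Prod.mk u ⁻¹' {x : ℝ × ℝ | (⟨x.1, x.2⟩ : ℂ) ∈ bad1L C A ⁻¹' B})
        ≤ (T.U i e).indicator (fun _ => ENNReal.ofReal (5 / 2 * κ)) u := by
      intro u
      by_cases hu : u ∈ T.U i e
      · rw [indicator_of_mem hu]
        refine (measure_mono ?_).trans (T.time_bound i e hu)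
        intro t ht
        have h2 := hB1 ht
        have ht' : t ∈ Icc (0 : ℝ) 1 := ((hLE1 u t).1 h2.2).2
        refine ⟨ht', ?_⟩
        obtain ⟨p, hp1, hp2, hp3, hp4⟩ := h2.1
        have h3 := Par.apath_slit hN i e (T.U_sub i e hu) ht'
        rw [bad1L_apply] at hp3
        have h4 : Quot.mk (pat n).Glued p = T.D'.apath i e u t := by
          have h5 : T.D'.ppos p ∉ T.D'.slit (pc p) (lb p) := by
            rw [hp3, hp1, hp2]
            exact h3
          rw [Par.mk_eq_pt hN.pos h5, hp1, hp2, hp3]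
          rfl
        rw [← h4]
        exact hp4
      · rw [indicator_of_notMem hu]
        refine (measure_mono_null (t := ∅) ?_ measure_empty).le
        intro t ht
        exact absurd ((hLE1 u t).1 (hB1 ht).2).1 hu
    calc ENNReal.ofReal (cr C A) * ∫⁻ u, volume
          (Prod.mk u ⁻¹' {x : ℝ × ℝ | (⟨x.1, x.2⟩ : ℂ) ∈ bad1L C A ⁻¹' B})
        ≤ ENNReal.ofReal (cr C A) *
          ∫⁻ u, (T.U i e).indicator (fun _ => ENNReal.ofReal (5 / 2 * κ)) u := by
          gcongr with u
          exact h1 u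
      _ = ENNReal.ofReal (cr C A) * (ENNReal.ofReal (5 / 2 * κ) * volume (T.U i e)) := by
          rw [lintegral_indicator (T.U_meas i e), setLIntegral_const]
      _ ≤ ENNReal.ofReal (cr C A) * (ENNReal.ofReal (5 / 2 * κ) * 1) := by
          gcongr
      _ = ENNReal.ofReal (5 / 2 * κ * cr C A) := by
          rw [mul_one, ← ENNReal.ofReal_mul hcr.le, mul_comm (cr C A)]
  have hsub : T.bad1 i e ⊆ (T.bad1 i e ∩ E1) ∪ (T.D'.hex i e \ E1) := by
    intro q hq
    by_cases h : q ∈ E1
    · exact Or.inl ⟨hq, h⟩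
    · obtain ⟨p, hp1, hp2, hp3, _⟩ := hq
      exact Or.inr ⟨⟨p, hp1, hp2, hp3⟩, h⟩
  refine (measure_mono hsub).trans ((measure_union_le _ _).trans ((add_le_add hin hout).trans ?_))
  rw [← ENNReal.ofReal_add (by positivity) (by positivity)]
  apply ENNReal.ofReal_le_ofReal
  nlinarith

end Sit

end Cfg

end Pool.Agent.H1.Horo
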