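import Pool.Agent.H1.Horo.Lens

/-!
# Points with given structure coordinates

PROOF.  `e = +1`, `λ = lam j`, `q = (λ x + cc G(y)/λ, y/λ)`, `x, y ∈ [2κ, 1 - 2κ]`.  One has to find
`u, v ∈ [0,1]` with `q = u C + v z` or `q = z + u C + v ρ` (`mem_hex_lower`, `mem_hex_upper`), then the
chart point `p` of the polygon with position `q` has `pc p = j`, `lb p = true`, `yh p = λ Im q = y` and
`xh p = (Re q - cc G(y)/λ)/λ = x`.
* If `q` is above the line `z + ℝ C` (`cr C (q - z) ≥ 0`): `q - z = u C + v ρ` with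
  `u = cr (q - z) ρ / cr C ρ`, `v = cr C (q - z) / cr C ρ`.  `v ≥ 0` by assumption.
  `v ≤ 1`: `cr C (q - A) ≤ 0`: `cr C (q - A) = C.re (y - 1)/λ - (α/λ)(λ x - cc (γ - G y)/λ) ≤
  - (9/10) (2κ) + α cc < 0`.
  `u ≥ 0`: `cr (q - z) ρ = Re q (1 - y1)/λ - ((y - y1)/λ) cc γ/λ ≥ 0` iff
  `λ x + cc G(y)/λ ≥ cc γ (y - y1) / ((1 - y1) λ)`, and `G y ≥ y - 2κ`, `γ (y - y1)/(1 - y1) ≤ y`, `λ x ≥ 2 κ`.
  `u ≤ 1`: `cr (q - C - z) ρ ≤ 0`: `Re (q - C) = λ (x - 1) + cc (G y - γ')/λ`,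
  `Im (q - C - z) = (y - α - y1)/λ`; this is `Re (q - C) (1 - y1)/λ - (y - α - y1) cc γ/λ² ≤ 0`; if
  `y ≥ α + y1` use `G y - γ' ≤ y + α` and `γ (y - α - y1)/(1 - y1) ≥ (1 - 2κ)(y - 2κ)`; if
  `y < α + y1` then `G y - γ' ≤ 4 κ` and `(y - α - y1) γ/(1 - y1) ≥ - 2 * 2 κ`; `λ (1 - x) ≥ 2 κ` and
  `cc = 1/100` in both cases.
* If `cr C (q - z) ≤ 0`: `q = u C + v z`, `v = cr C q / cr C z ≤ 1`, `v ≥ 0` because
  `cr C q = C.re y/λ - (α/λ) Re q ≥ (9/10) 2 κ - (12/10) κ ≥ 0`; `u = cr q z / cr C z = Re q / C.re`;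
  `Re q ≥ 0`, and `Re q ≤ C.re`: `C.re - Re q = λ (1 - x) + cc (γ' - G y)/λ ≥ 2 κ - cc (κ + y)`, where
  `y ≤ 4 κ` in this case (`cr C (q - z) ≤ 0` means `(y - y1) C.re ≤ α Re q ≤ (12/10) α`).
* `core_measure`: `[0,1)^2 minus [2κ, 1-2κ]^2` has measure at most `8 κ`.
-/

namespace Pool.Agent.H1.Horo

open Set MeasureTheory

/-- coordinates with respect to two independent vectors -/
theorem cr_decomp {C R : ℂ} (h : 0 < cr C R) (w : ℂ) :
    w = ((cr w R / cr C R : ℝ) : ℂ) * C + ((cr C w / cr C R : ℝ) : ℂ) * R := by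
  have h0 : cr C R ≠ 0 := h.ne'
  apply Complex.ext
  · simp only [Complex.add_re, Complex.mul_re, Complex.ofReal_re, Complex.ofReal_im, zero_mul,
      sub_zero]
    rw [div_mul_eq_mul_div, div_mul_eq_mul_div, ← add_div, eq_div_iff h0]
    simp only [cr]
    ring
  · simp only [Complex.add_im, Complex.mul_im, Complex.ofReal_re, Complex.ofReal_im, zero_mul,
      add_zero]
    rw [div_mul_eq_mul_div, div_mul_eq_mul_div, ← add_div, eq_div_iff h0]
    simp only [cr]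
    ring

/-- numerical facts about the data of the example -/
structure CoreD (κ α y1 γ γ' g L c0 x y : ℝ) : Prop where
  κ0 : 0 < κ
  κ1 : κ < 1 / 1000
  α0 : 0 < α
  α1 : α < κ
  y0 : 0 < y1
  y1' : y1 < κ
  γ1 : γ ≤ 1
  γ2 : 1 - 2 * κ ≤ γ
  γ'1 : -α ≤ γ'
  γ'2 : γ' ≤ α
  g1 : y - 2 * κ ≤ g
  g2 : g ≤ y
  L1 : 1 < L
  L2 : L < 11 / 10
  cp : 0 < c0
  c1 : c0 ≤ 1 / 100
  x1 : 2 * κ ≤ x
  x2 : x ≤ 1 - 2 * κ
  Y1 : 2 * κ ≤ y
  Y2 : y ≤ 1 - 2 * κ

namespace CoreD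
variable {κ α y1 γ γ' g L c0 x y : ℝ} (h : CoreD κ α y1 γ γ' g L c0 x y)
include h

theorem P1 : -(κ / 100) ≤ c0 * γ' := by
  have h1 := h.γ'1
  have h2 := h.α1
  have h3 : c0 * (-κ) ≤ c0 * γ' := mul_le_mul_of_nonneg_left (by linarith) h.cp.le
  have h4 : c0 * κ ≤ 1 / 100 * κ := mul_le_mul_of_nonneg_right h.c1 h.κ0.le
  linarith

theorem P2 : c0 * γ' ≤ κ / 100 := by
  have h1 := h.γ'2
  have h2 := h.α1
  have h3 : c0 * γ' ≤ c0 * κ := mul_le_mul_of_nonneg_left (by linarith) h.cp.le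
  have h4 : c0 * κ ≤ 1 / 100 * κ := mul_le_mul_of_nonneg_right h.c1 h.κ0.le
  linarith

theorem Q0 : 0 ≤ c0 * g := mul_nonneg h.cp.le (by linarith [h.g1, h.Y1])

theorem Q1 : c0 * g ≤ y / 100 := by
  have h1 := h.g2
  have h2 := h.Y1
  have h5 := h.κ0
  have h3 : c0 * g ≤ c0 * y := mul_le_mul_of_nonneg_left h1 h.cp.le
  have h4 : c0 * y ≤ 1 / 100 * y := mul_le_mul_of_nonneg_right h.c1 (by linarith)
  linarith

theorem R0 : 0 ≤ c0 * γ := mul_nonneg h.cp.le (by linarith [h.γ2, h.κ1])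

theorem R1 : c0 * γ ≤ c0 := by
  have h3 : c0 * γ ≤ c0 * 1 := mul_le_mul_of_nonneg_left h.γ1 h.cp.le
  linarith

theorem Lx0 : 2 * κ ≤ L * x := by
  have h1 := h.L1
  have h2 := h.x1
  have h3 := h.κ0
  nlinarith

theorem Lx1 : 2 * κ ≤ L * (1 - x) := by
  have h1 := h.L1
  have h2 := h.x2
  have h3 := h.κ0
  nlinarith

theorem Lx2 : L * x ≤ 11 / 10 := by
  have h1 := h.L2
  have h2 := h.x2
  have h3 := h.κ0
  have h4 := h.x1
  nlinarith

theorem C1 : 99 / 100 ≤ L + c0 * γ' := by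
  have h1 := h.L1
  have h2 := h.P1
  have h3 := h.κ1
  linarith

theorem u_nonneg : (y - y1) * (c0 * γ) ≤ (L * x + c0 * g) * (1 - y1) := by
  have h0 := h.y0
  have h0' := h.y1'
  have hκ := h.κ1
  have h1 : c0 * (y - 2 * κ) ≤ c0 * g := mul_le_mul_of_nonneg_left h.g1 h.cp.le
  have h2 : (y - y1) * (c0 * γ) ≤ (y - y1) * c0 :=
    mul_le_mul_of_nonneg_left h.R1 (by linarith [h.Y1, h.κ0])
  have h3 : c0 * (y - 2 * κ) * (1 - y1) ≤ c0 * g * (1 - y1) :=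
    mul_le_mul_of_nonneg_right h1 (by linarith)
  have h4 : 2 * κ * (1 - y1) ≤ L * x * (1 - y1) :=
    mul_le_mul_of_nonneg_right h.Lx0 (by linarith)
  have h6 : c0 * (-(2 * κ)) ≤ c0 * (y1 * (1 - y) - 2 * κ * (1 - y1)) := by
    refine mul_le_mul_of_nonneg_left ?_ h.cp.le
    have h7 : 0 ≤ y1 * (1 - y) := mul_nonneg h0.le (by linarith [h.Y2, h.κ0])
    have h8 : 0 ≤ κ * y1 := mul_nonneg h.κ0.le h0.le
    linarith
  have h9 : c0 * (2 * κ) ≤ 1 / 100 * (2 * κ) :=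
    mul_le_mul_of_nonneg_right h.c1 (by linarith [h.κ0])
  have h10 : κ * y1 ≤ κ * (1 / 1000) := mul_le_mul_of_nonneg_left (by linarith) h.κ0.le
  have h11 := h.κ0
  linarith

theorem u_le : (L * x + c0 * g) * (1 - y1) - (y - y1) * (c0 * γ)
    ≤ (L + c0 * γ') * (1 - y1) - α * (c0 * γ) := by
  have h0 := h.y0
  have h0' := h.y1'
  have hκ := h.κ1
  have hα := h.α0
  have hα' := h.α1
  have hc := h.cp
  have h1 : 2 * κ * (1 - y1) ≤ L * (1 - x) * (1 - y1) :=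
    mul_le_mul_of_nonneg_right h.Lx1 (by linarith)
  have h2 : c0 * g * (1 - y1) ≤ c0 * y * (1 - y1) :=
    mul_le_mul_of_nonneg_right (mul_le_mul_of_nonneg_left h.g2 hc.le) (by linarith)
  have h3 : -(c0 * γ') * (1 - y1) ≤ κ / 100 * (1 - y1) :=
    mul_le_mul_of_nonneg_right (by linarith [h.P1]) (by linarith)
  have h5 : (y - α - y1) * (1 - γ) ≤ 2 * κ := by
    have h51 : (y - α - y1) * (1 - γ) ≤ 1 * (1 - γ) :=
      mul_le_mul_of_nonneg_right (by linarith [h.Y2, h.κ0]) (by linarith [h.γ1])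
    linarith [h.γ2]
  have h6 := mul_le_mul_of_nonneg_left h5 hc.le
  have h8 : y * (1 - y1) + (-(y - α - y1) + 2 * κ) ≤ 5 * κ := by
    have h81 : 0 ≤ y * y1 := mul_nonneg (by linarith [h.Y1, h.κ0]) h0.le
    linarith
  have h9 := mul_le_mul_of_nonneg_left h8 hc.le
  have h10 : c0 * (5 * κ) ≤ 1 / 100 * (5 * κ) :=
    mul_le_mul_of_nonneg_right h.c1 (by linarith [h.κ0])
  have h11 : κ * y1 ≤ κ * (1 / 1000) := mul_le_mul_of_nonneg_left (by linarith) h.κ0.le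
  have h12 : 0 ≤ κ * y1 := mul_nonneg h.κ0.le h0.le
  have h13 := h.κ0
  linarith

theorem v_le : (L + c0 * γ') * (y - y1) - α * (L * x + c0 * g)
    ≤ (L + c0 * γ') * (1 - y1) - α * (c0 * γ) := by
  have h0 := h.κ0
  have h1 : 99 / 100 * (2 * κ) ≤ (L + c0 * γ') * (1 - y) :=
    mul_le_mul h.C1 (by linarith [h.Y2]) (by linarith) (by linarith [h.C1])
  have h2 : α * (c0 * γ) ≤ κ * (1 / 100) :=
    mul_le_mul h.α1.le (by linarith [h.R1, h.c1]) h.R0 h0.le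
  have h3 : 0 ≤ α * (L * x + c0 * g) :=
    mul_nonneg h.α0.le (by linarith [h.Lx0, h.Q0])
  linarith

theorem re0 : 0 ≤ L * x + c0 * g := by linarith [h.Lx0, h.Q0, h.κ0]

theorem re1 : L * x + c0 * g ≤ 12 / 10 := by linarith [h.Lx2, h.Q1, h.κ0, h.Y2]

theorem αre : α * (L * x + c0 * g) ≤ κ * (12 / 10) :=
  mul_le_mul h.α1.le h.re1 h.re0 h.κ0.le

theorem low_u (hc : (L + c0 * γ') * (y - y1) < α * (L * x + c0 * g)) :
    L * x + c0 * g ≤ L + c0 * γ' := by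
  have h0 := h.κ0
  have h1 := h.αre
  have h2 : 99 / 100 * (y - y1) ≤ (L + c0 * γ') * (y - y1) :=
    mul_le_mul_of_nonneg_right h.C1 (by linarith [h.Y1, h.y1'])
  have h3 : y ≤ 4 * κ := by linarith [h.y1']
  have h4 := h.Q1
  have h5 := h.Lx1
  have h6 := h.P1
  linarith

theorem low_v : α * (L * x + c0 * g) ≤ (L + c0 * γ') * y := by
  have h0 := h.κ0
  have h1 := h.αre
  have h2 : 99 / 100 * (2 * κ) ≤ (L + c0 * γ') * y :=
    mul_le_mul h.C1 h.Y1 (by linarith) (by linarith [h.C1])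
  linarith

end CoreD

namespace Cfg
variable {n : ℕ} {κ : ℝ} [NeZero n] (S : Cfg n κ)

/-- the point with given structure coordinates is in the polygon -/
theorem core_hex (j : Fin n) {x y : ℝ} (hx : x ∈ Icc (2 * κ) (1 - 2 * κ))
    (hy : y ∈ Icc (2 * κ) (1 - 2 * κ)) :
    (⟨S.lam j * x + cc * S.V.G y / S.lam j, y / S.lam j⟩ : ℂ) ∈ S.D.hex j true := by
  have hL1 := S.one_lt j
  have hκ0 := S.κ_pos
  have hγ' := abs_le.1 S.V.abs_gam'
  set L := S.lam j with hL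
  set c0 : ℝ := 1 / 100 / L with hc0
  have hL0 : 0 < L := by linarith
  have H : CoreD κ S.V.α S.V.y1 S.V.γ S.V.γ' (S.V.G y) L c0 x y :=
    ⟨hκ0, S.κ_lt, S.V.α_pos, S.V.α_lt, S.V.y1_pos, S.V.y1_lt, S.V.gam_le, S.V.le_gam, hγ'.1,
      hγ'.2, S.V.le_G (y := y) (by linarith [hy.1]) (by linarith [hy.2]),
      S.V.G_le (y := y) (by linarith [hy.1]), hL1, S.lam_lt j, by positivity,
      by rw [hc0, div_le_iff₀ hL0]; linarith, hx.1, hx.2, hy.1, hy.2⟩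
  set q : ℂ := ⟨L * x + cc * S.V.G y / L, y / L⟩ with hq
  have hqre : q.re = L * x + c0 * S.V.G y := by rw [hq, hc0, cc]; ring
  have hqim : q.im = y / L := rfl
  have hCre : (S.D.C j true).re = L + c0 * S.V.γ' := by
    simp only [D, sg_true]; rw [hc0, cc]; ring
  have hCim : (S.D.C j true).im = S.V.α / L := rfl
  have hzre : (S.D.zz j).re = 0 := rfl
  have hzim : (S.D.zz j).im = S.V.y1 / L := rfl
  have hRre : (S.D.rho j true).re = c0 * S.V.γ := by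
    simp only [D, sg_true]; rw [hc0, cc]; ring
  have hRim : (S.D.rho j true).im = (1 - S.V.y1) / L := rfl
  have hD := S.D_pos
  have k1 : cr (q - S.D.zz j) (S.D.rho j true)
      = ((L * x + c0 * S.V.G y) * (1 - S.V.y1) - (y - S.V.y1) * (c0 * S.V.γ)) / L := by
    simp only [cr, Complex.sub_re, Complex.sub_im, hqre, hqim, hzre, hzim, hRre, hRim]
    ring
  have k2 : cr (S.D.C j true) (S.D.rho j true)
      = ((L + c0 * S.V.γ') * (1 - S.V.y1) - S.V.α * (c0 * S.V.γ)) / L := by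
    simp only [cr, hRre, hRim, hCre, hCim]
    ring
  have k3 : cr (S.D.C j true) (q - S.D.zz j)
      = ((L + c0 * S.V.γ') * (y - S.V.y1) - S.V.α * (L * x + c0 * S.V.G y)) / L := by
    simp only [cr, Complex.sub_re, Complex.sub_im, hqim, hqre, hzre, hzim, hCre, hCim]
    ring
  have k4 : cr (S.D.C j true) q
      = ((L + c0 * S.V.γ') * y - S.V.α * (L * x + c0 * S.V.G y)) / L := by
    simp only [cr, hqim, hqre, hCre, hCim]
    ring
  have k5 : cr (S.D.C j true) (S.D.zz j) = (L + c0 * S.V.γ') * (S.V.y1 / L) := by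
    simp only [cr, hzre, hzim, hCre, hCim]
    ring
  have k6 : cr q (S.D.zz j) = (L * x + c0 * S.V.G y) * (S.V.y1 / L) := by
    simp only [cr, hzre, hzim, hqre, hqim]
    ring
  by_cases hcase : 0 ≤ cr (S.D.C j true) (q - S.D.zz j)
  · have hpos := hD.cρ j true
    have hdec := cr_decomp hpos (q - S.D.zz j)
    have hmem := Par.mem_hex_upper hD j true
      (u := cr (q - S.D.zz j) (S.D.rho j true) / cr (S.D.C j true) (S.D.rho j true))
      (v := cr (S.D.C j true) (q - S.D.zz j) / cr (S.D.C j true) (S.D.rho j true)) ?_ ?_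
    · rw [add_assoc, ← hdec, add_sub_cancel] at hmem
      exact hmem
    · refine ⟨div_nonneg ?_ hpos.le, ?_⟩
      · rw [k1]
        exact div_nonneg (sub_nonneg.2 H.u_nonneg) hL0.le
      · rw [div_le_one hpos, k1, k2]
        exact div_le_div_of_nonneg_right H.u_le hL0.le
    · refine ⟨div_nonneg hcase hpos.le, ?_⟩
      rw [div_le_one hpos, k2, k3]
      exact div_le_div_of_nonneg_right H.v_le hL0.le
  · push Not at hcase
    have hpos := hD.cz j true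
    have hdec := cr_decomp hpos q
    have hy1L : 0 ≤ S.V.y1 / L := div_nonneg H.y0.le hL0.le
    have hcase' : (L + c0 * S.V.γ') * (y - S.V.y1) < S.V.α * (L * x + c0 * S.V.G y) := by
      rw [k3, div_neg_iff] at hcase
      rcases hcase with h | h
      · exact absurd h.2 (not_lt.2 hL0.le)
      · exact sub_neg.1 h.1
    have hmem := Par.mem_hex_lower hD j true
      (u := cr q (S.D.zz j) / cr (S.D.C j true) (S.D.zz j))
      (v := cr (S.D.C j true) q / cr (S.D.C j true) (S.D.zz j)) ?_ ?_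
    · rw [← hdec] at hmem
      exact hmem
    · refine ⟨div_nonneg ?_ hpos.le, ?_⟩
      · rw [k6]
        exact mul_nonneg H.re0 hy1L
      · rw [div_le_one hpos, k5, k6]
        exact mul_le_mul_of_nonneg_right (H.low_u hcase') hy1L
    · refine ⟨div_nonneg ?_ hpos.le, ?_⟩
      · rw [k4]
        exact div_nonneg (sub_nonneg.2 H.low_v) hL0.le
      · rw [div_le_one hpos]
        have h1 : cr (S.D.C j true) (q - S.D.zz j)
            = cr (S.D.C j true) q - cr (S.D.C j true) (S.D.zz j) := by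
          simp only [cr, Complex.sub_re, Complex.sub_im]; ring
        linarith

theorem core (j : Fin n) {x y : ℝ} (hx : x ∈ Icc (2 * κ) (1 - 2 * κ))
    (hy : y ∈ Icc (2 * κ) (1 - 2 * κ)) :
    ∃ p : (pat n).Chart, pc p = j ∧ lb p = true ∧ S.xh p = x ∧ S.yh p = y := by
  obtain ⟨p, h1, h2, h3⟩ := S.core_hex j hx hy
  have hL0 : S.lam j ≠ 0 := (S.lam_pos j).ne'
  have hyh : S.yh p = y := by
    unfold yh
    rw [h3, h1]
    show S.lam j * (y / S.lam j) = y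
    field_simp
  refine ⟨p, h1, h2, ?_, hyh⟩
  unfold xh
  rw [hyh, h3, h1, h2, sg_true]
  show (S.lam j * x + cc * S.V.G y / S.lam j - cc * 1 * S.V.G y / S.lam j) / S.lam j = x
  field_simp
  ring

end Cfg

theorem core_measure {κ : ℝ} (h0 : 0 < κ) :
    volume {x : ℝ × ℝ | x.1 ∈ Ico (0 : ℝ) 1 ∧ x.2 ∈ Ico (0 : ℝ) 1 ∧
      ¬ (x.1 ∈ Icc (2 * κ) (1 - 2 * κ) ∧ x.2 ∈ Icc (2 * κ) (1 - 2 * κ))} ≤
      ENNReal.ofReal (8 * κ) := by
  set A : Set ℝ := Ico 0 (2 * κ) ∪ Ioo (1 - 2 * κ) 1 with hA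
  have hAv : volume A ≤ ENNReal.ofReal (4 * κ) := by
    refine (measure_union_le _ _).trans ?_
    rw [Real.volume_Ico, Real.volume_Ioo, ← ENNReal.ofReal_add (by linarith) (by linarith)]
    apply ENNReal.ofReal_le_ofReal
    linarith
  have hsub : {x : ℝ × ℝ | x.1 ∈ Ico (0 : ℝ) 1 ∧ x.2 ∈ Ico (0 : ℝ) 1 ∧
      ¬ (x.1 ∈ Icc (2 * κ) (1 - 2 * κ) ∧ x.2 ∈ Icc (2 * κ) (1 - 2 * κ))} ⊆
      A ×ˢ Ico (0 : ℝ) 1 ∪ Ico (0 : ℝ) 1 ×ˢ A := by
    rintro ⟨x, y⟩ ⟨hx, hy, hn⟩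
    have key : ∀ z : ℝ, z ∈ Ico (0 : ℝ) 1 → z ∉ Icc (2 * κ) (1 - 2 * κ) → z ∈ A := by
      intro z hz hz'
      by_cases h : z < 2 * κ
      · exact Or.inl ⟨hz.1, h⟩
      · right
        refine ⟨?_, hz.2⟩
        by_contra h'
        push Not at h h'
        exact hz' ⟨h, h'⟩
    by_cases h1 : x ∈ Icc (2 * κ) (1 - 2 * κ)
    · right
      exact ⟨hx, key y hy fun h2 => hn ⟨h1, h2⟩⟩
    · left
      exact ⟨key x hx h1, hy⟩
  refine (measure_mono hsub).trans ((measure_union_le _ _).trans ?_)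
  rw [Measure.volume_eq_prod, Measure.prod_prod, Measure.prod_prod, Real.volume_Ico]
  have h1 : ENNReal.ofReal (1 - 0) = 1 := by norm_num
  rw [h1, mul_one, one_mul]
  refine (add_le_add hAv hAv).trans ?_
  rw [← ENNReal.ofReal_add (by linarith) (by linarith)]
  apply ENNReal.ofReal_le_ofReal
  linarith

end Pool.Agent.H1.Horo
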