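import Mathlib

/-!
# Sets embedded in a torus

`B` is a measurable set of representatives-free points modulo the lattice generated by `(1, α)` and
`(0, 1)`: no two distinct points of `B` differ by a lattice vector.  Then the points of `B` which
are congruent to a point of `E` have (outer) measure at most that of `E`.

PROOF.  `B ∩ ⋃_ω (E + ω) ⊆ ⋃_ω (B ∩ (E + ω))`, the measure of `B ∩ (E + ω)` is that of
`(B - ω) ∩ E`, and the measurable sets `B - ω` are pairwise disjoint, so
`∑_ω volume ((B - ω) ∩ E) = volume ((⋃_ω (B - ω)) ∩ E) ≤ volume E` (countable additivity of the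
outer measure `F ↦ volume (F ∩ E)` on measurable sets: `measure_iUnion` for
`volume.restrict E` and `Measure.restrict_apply`, which holds for a measurable first set and
arbitrary `E`).
-/

namespace Pool.Agent.H1.Horo

open Set MeasureTheory

theorem fund (α : ℝ) {B : Set (ℝ × ℝ)} (hB : MeasurableSet B)
    (hinj : ∀ x ∈ B, ∀ m k : ℤ, (x.1 + m, x.2 + m * α + k) ∈ B → m = 0 ∧ k = 0)
    (E : Set (ℝ × ℝ)) :
    volume (B ∩ {x | ∃ m k : ℤ, (x.1 - m, x.2 - m * α - k) ∈ E}) ≤ volume E := by
  set v : ℤ × ℤ → ℝ × ℝ := fun p => ((p.1 : ℝ), (p.1 : ℝ) * α + p.2) with hv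
  -- `B - v p`
  set C : ℤ × ℤ → Set (ℝ × ℝ) := fun p => (fun x => x + v p) ⁻¹' B with hC
  have hCm : ∀ p, MeasurableSet (C p) := fun p => hB.preimage (measurable_add_const (v p))
  have hdisj : Pairwise (Function.onFun Disjoint C) := by
    intro p q hpq
    rw [Function.onFun, Set.disjoint_left]
    intro x hxp hxq
    simp only [hC, mem_preimage] at hxp hxq
    apply hpq
    have := hinj _ hxp (q.1 - p.1) (q.2 - p.2) (by
      have e : ((x + v p).1 + ((q.1 - p.1 : ℤ) : ℝ),
          (x + v p).2 + ((q.1 - p.1 : ℤ) : ℝ) * α + ((q.2 - p.2 : ℤ) : ℝ)) = x + v q := by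
        ext <;> simp [hv] <;> ring
      rw [e]; exact hxq)
    ext <;> omega
  have h1 : B ∩ {x | ∃ m k : ℤ, (x.1 - m, x.2 - m * α - k) ∈ E} ⊆
      ⋃ p : ℤ × ℤ, (fun x => x + -v p) ⁻¹' (C p ∩ E) := by
    rintro x ⟨hxB, m, k, hx⟩
    refine mem_iUnion.2 ⟨(m, k), ?_, ?_⟩
    · simpa [hC] using hxB
    · have : x + -v (m, k) = (x.1 - m, x.2 - m * α - k) := by
        ext <;> simp [hv] <;> ring
      simpa [this] using hx
  calc volume (B ∩ {x | ∃ m k : ℤ, (x.1 - m, x.2 - m * α - k) ∈ E})
      ≤ volume (⋃ p : ℤ × ℤ, (fun x => x + -v p) ⁻¹' (C p ∩ E)) := measure_mono h1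
    _ ≤ ∑' p : ℤ × ℤ, volume ((fun x => x + -v p) ⁻¹' (C p ∩ E)) := measure_iUnion_le _
    _ = ∑' p : ℤ × ℤ, volume (C p ∩ E) := by
        refine tsum_congr fun p => ?_
        exact measure_preimage_add_right volume _ _
    _ = ∑' p : ℤ × ℤ, (volume.restrict E) (C p) := by
        refine tsum_congr fun p => ?_
        rw [Measure.restrict_apply (hCm p)]
    _ = (volume.restrict E) (⋃ p, C p) := (measure_iUnion hdisj hCm).symm
    _ ≤ (volume.restrict E) univ := measure_mono (subset_univ _)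
    _ = volume E := by simp

end Pool.Agent.H1.Horo
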