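import Pool.Agent.H1.Horo.Junc

/-!
# Lifting straight paths

Let `γ` be a straight path of the surface of the example with holonomy `w`, `w.im ≠ 0`, through
regular points only, and `(X0, Y0, σ0)` a lift of its initial point in the piece `j`, `λ = lam j`.
Then with `Y t = Y0 + t λ w.im` and `X t = X0 + (t w.re - cc w.im ∫_0^t f(γ)) / λ`, every chart point over
`γ t` has the lift `(X t, Y t, σ t)`, and `(Y, X, σ)` is a track.

PROOF.  Let `τ` be the subdivision of `γ`, `f_k = (i_k, t_k)`, `a_k` the triangle and the start of the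
visit `k`.  In the visit the chart point `p t` has polygon position `off + a_k + t w`, so
`yh (p t) = yh (p (τ k)) + (t - τ k) λ_k w.im` and
`λ_k (xh (p t) - xh (p (τ k))) = (t - τ k) w.re - cc e (G (yh (p t)) - G (yh (p (τ k))))/λ_k`.
By induction on `k`: at `t = τ k` every chart point over `γ (τ k)` has the lift
`(X (τ k), Y (τ k), σ)` for one `σ` (for `k = 0` by assumption and `lft_mk`; `γ 0 = mk p0`).  In particular
the first chart point of the visit `k`, so `i_k = j`, with integers `(m, k')`; define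
`σ t = sg (lb) * kk m (Y t)` in this visit.  With the same integers `(m, k')`,
`yh (p t) = Y t - m α - k'`.  For the horizontal position one needs
`∫_{τ k}^t f (γ r) dr = e (G (yh (p t)) - G (yh (p (τ k)))) / (λ w.im)`:
by substitution (`intervalIntegral` of `φ` composed with an affine map of slope `λ w.im ≠ 0`) the right side is
`∫_{τ k}^t e φ (yh (p r)) dr = ∫ fv (p r) dr`, and `f (γ r) = fv (p r)` for almost every `r`, namely if
`Y r ∉ N0` (`f_eq`, `fv_eq`; here one uses the lift at time `r` with its true horizontal position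
`xh (p r) + m` instead of `X r`, which has the same `Y r` and `σ r`), the set
`{r : Y r ∈ N0}` being null (preimage of a null set under an affine map of nonzero slope).
Hence `xh (p t) = X t - m`.  By `lft_mk` all chart points over `γ t` have the lift `(X t, Y t, σ t)`; at
`t = τ (k+1)` this starts the next step.  (The value `σ (τ (k+1))` computed from the visit `k` and from the
visit `k + 1` agree because `Lft` determines `σ` given `p`, `X`, `Y`: the integer `m = X - xh p` is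
determined.)  So define `σ t` by choice: the unique value with `Lft j (Quot.out (γ t)) (X t) (Y t) (σ t)`.
The track property on the visit `k`: `σ t = sg (lb) * kk m (Y t)` and `lens_lift`.
`f ∘ γ` is interval integrable: on each visit it is almost everywhere equal to `e φ (affine function)`,
which is measurable and bounded.
-/

namespace Pool.Agent.H1.Horo

open Set MeasureTheory

namespace Cfg
variable {n : ℕ} {κ : ℝ} [NeZero n] (S : Cfg n κ)

theorem lft_unique {j : Fin n} {p : (pat n).Chart} {X Y σ σ' : ℝ} (h : S.Lft j p X Y σ)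
    (h' : S.Lft j p X Y σ') : σ = σ' := by
  obtain ⟨-, m, k, h1, -, h3⟩ := h
  obtain ⟨-, m', k', h1', -, h3'⟩ := h'
  have : m = m' := by
    have h4 : X - m = X - m' := h1.symm.trans h1'
    have h5 : (m : ℝ) = m' := by linarith
    exact_mod_cast h5
  rw [h3, h3', this]

/-- height along a straight path -/
def Yt (j : Fin n) (Y0 : ℝ) (w : ℂ) (t : ℝ) : ℝ := Y0 + t * (S.lam j * w.im)

/-- horizontal position along a straight path -/
noncomputable def Xt (j : Fin n) (X0 : ℝ) (w : ℂ) (γ : ℝ → (pat n).Pt) (t : ℝ) : ℝ :=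
  X0 + (t * w.re - cc * w.im * ∫ r in (0 : ℝ)..t, S.f (γ r)) / S.lam j

/-- affine preimage of a null set -/
theorem affine_null {N0 : Set ℝ} (h : volume N0 = 0) {c d : ℝ} (hc : c ≠ 0) :
    volume {r : ℝ | d + r * c ∈ N0} = 0 := by
  have h1 : {r : ℝ | d + r * c ∈ N0} = (fun r => c * r) ⁻¹' ((fun x => d + x) ⁻¹' N0) := by
    ext r; simp [mul_comm]
  rw [h1, Real.volume_preimage_mul_left hc, measure_preimage_add, h, mul_zero]

theorem visit {γ : ℝ → (pat n).Pt} {w : ℂ} (hw : w.im ≠ 0) {s t' : ℝ} (hst : s ≤ t')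
    (hreg : ∀ t ∈ Icc s t', Reg (γ t)) {f0 : (pat n).Tri} {a : ℂ}
    (hv : ∀ t ∈ Icc s t', ∃ p : (pat n).Chart, p.1.1 = f0 ∧ Quot.mk (pat n).Glued p = γ t ∧
      (pat n).pos S.D.edge p = a + t * w) {j : Fin n} {Xs Ys : ℝ}
    (hs : ∀ p : (pat n).Chart, Quot.mk (pat n).Glued p = γ s → ∃ σ, S.Lft j p Xs Ys σ) :
    IntervalIntegrable (fun r => S.f (γ r)) volume s t' ∧
    ∃ (e : ℝ) (m : ℤ), (e = 1 ∨ e = -1) ∧ ∀ t ∈ Icc s t', ∀ p : (pat n).Chart,
      Quot.mk (pat n).Glued p = γ t →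
      S.Lft j p (Xs + ((t - s) * w.re - cc * w.im * ∫ r in s..t, S.f (γ r)) / S.lam j)
        (Ys + (t - s) * (S.lam j * w.im))
        (e * kk S.V.α S.V.y1 m (Ys + (t - s) * (S.lam j * w.im))) ∧
      Ln S.V.α S.V.y1
        (Xs + ((t - s) * w.re - cc * w.im * ∫ r in s..t, S.f (γ r)) / S.lam j - m)
        (Ys + (t - s) * (S.lam j * w.im) - m * S.V.α) := by
  classical
  have hlam := S.lam_pos j
  choose! P hP1 hP2 hP3 using hv
  have hsmem : s ∈ Icc s t' := ⟨le_rfl, hst⟩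
  obtain ⟨σ0, hpc, m, k, hx, hy, hσ⟩ := hs (P s) (hP2 s hsmem)
  -- all charts of the visit are in the same triangle
  have hpcP : ∀ t ∈ Icc s t', pc (P t) = j := fun t ht => by
    rw [← hpc]; unfold pc; rw [hP1 t ht, hP1 s hsmem]
  have hlbP : ∀ t ∈ Icc s t', lb (P t) = lb (P s) := fun t ht => by
    unfold lb; rw [hP1 t ht, hP1 s hsmem]
  have hppos : ∀ t ∈ Icc s t', S.D.ppos (P t) = S.D.ppos (P s) + ((t - s : ℝ) : ℂ) * w := by
    intro t ht
    unfold Par.ppos
    rw [hP1 t ht, hP1 s hsmem, hP3 t ht, hP3 s hsmem]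
    push_cast
    ring
  set c := S.lam j * w.im with hc
  have hc0 : c ≠ 0 := mul_ne_zero hlam.ne' hw
  have hyh : ∀ t ∈ Icc s t', S.yh (P t) = S.yh (P s) + (t - s) * c := by
    intro t ht
    unfold yh
    rw [hpcP t ht, hpc, hppos t ht]
    simp only [Complex.add_im, Complex.im_ofReal_mul, hc]
    ring
  have hxh : ∀ t ∈ Icc s t', S.lam j * S.xh (P t) = S.lam j * S.xh (P s) + (t - s) * w.re -
      cc * sg (lb (P s)) * (S.V.G (S.yh (P t)) - S.V.G (S.yh (P s))) / S.lam j := by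
    intro t ht
    unfold xh
    rw [hpcP t ht, hpc, hlbP t ht, hppos t ht]
    simp only [Complex.add_re, Complex.re_ofReal_mul]
    field_simp
    ring
  have hyY : ∀ t ∈ Icc s t', S.yh (P t) = (Ys + (t - s) * c) - m * S.V.α - k := by
    intro t ht
    rw [hyh t ht, hy]; ring
  -- the lift with the true horizontal position
  have hL : ∀ t ∈ Icc s t', S.Lft j (P t) (S.xh (P t) + m) (Ys + (t - s) * c)
      (sg (lb (P s)) * kk S.V.α S.V.y1 m (Ys + (t - s) * c)) := by
    intro t ht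
    exact ⟨hpcP t ht, m, k, by ring, hyY t ht, by rw [hlbP t ht]⟩
  -- values of f
  have hf : ∀ t ∈ Icc s t', Ys + (t - s) * c ∉ S.V.N0 →
      S.f (γ t) = sg (lb (P s)) * S.V.φ (S.yh (P s) + (t - s) * c) := by
    intro t ht hN
    have h1 := S.f_eq (hL t ht) (by rw [hP2 t ht]; exact hreg t ht) hN
    have h2 := S.fv_eq (hL t ht) hN
    rw [hP2 t ht] at h1
    rw [h1, ← h2]
    unfold fv
    rw [hlbP t ht, hyh t ht]
  have hnull : volume {r : ℝ | Ys + (r - s) * c ∈ S.V.N0} = 0 := by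
    have h1 := affine_null S.V.null (c := c) (d := Ys - s * c) hc0
    convert h1 using 3
    ext r
    ring_nf
  have hae : ∀ᵐ r ∂volume, r ∈ Icc s t' →
      S.f (γ r) = sg (lb (P s)) * S.V.φ (S.yh (P s) + (r - s) * c) := by
    have h1 : ∀ᵐ r ∂volume, r ∉ {r : ℝ | Ys + (r - s) * c ∈ S.V.N0} :=
      measure_eq_zero_iff_ae_notMem.1 hnull
    filter_upwards [h1] with r hr hr2
    exact hf r hr2 hr
  have hmeas : Measurable fun r : ℝ => sg (lb (P s)) * S.V.φ (S.yh (P s) + (r - s) * c) := by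
    have := S.V.meas
    fun_prop
  have hint0 : ∀ a b : ℝ, IntervalIntegrable
      (fun r : ℝ => sg (lb (P s)) * S.V.φ (S.yh (P s) + (r - s) * c)) volume a b := by
    intro a b
    refine (intervalIntegrable_const (c := (1 : ℝ))).mono_fun' hmeas.aestronglyMeasurable ?_
    refine Filter.Eventually.of_forall fun r => ?_
    beta_reduce
    rcases S.V.val (S.yh (P s) + (r - s) * c) with h | h <;> rw [h] <;>
      cases lb (P s) <;> simp
  have hint : ∀ t ∈ Icc s t', ∫ r in s..t, S.f (γ r) =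
      sg (lb (P s)) * (S.V.G (S.yh (P t)) - S.V.G (S.yh (P s))) / c := by
    intro t ht
    have h1 : ∫ r in s..t, S.f (γ r) =
        ∫ r in s..t, sg (lb (P s)) * S.V.φ (S.yh (P s) + (r - s) * c) := by
      refine intervalIntegral.integral_congr_ae ?_
      filter_upwards [hae] with r hr hr2
      rw [uIoc_of_le ht.1] at hr2
      exact hr ⟨hr2.1.le, hr2.2.trans ht.2⟩
    rw [h1, intervalIntegral.integral_const_mul]
    have h2 : ∫ r in s..t, S.V.φ (S.yh (P s) + (r - s) * c) =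
        c⁻¹ * ∫ r in (c * s + (S.yh (P s) - s * c))..(c * t + (S.yh (P s) - s * c)), S.V.φ r := by
      rw [← smul_eq_mul, ← intervalIntegral.integral_comp_mul_add (fun x => S.V.φ x) hc0]
      congr 1
      ext r
      congr 1
      ring
    rw [h2, S.V.G_sub]
    have h3 : c * s + (S.yh (P s) - s * c) = S.yh (P s) := by ring
    have h4 : c * t + (S.yh (P s) - s * c) = S.yh (P t) := by rw [hyh t ht]; ring
    rw [h3, h4]
    field_simp
  refine ⟨?_, sg (lb (P s)), m, ?_, ?_⟩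
  · refine (hint0 s t').congr_ae ?_
    rw [Filter.EventuallyEq, ae_restrict_iff' measurableSet_uIoc]
    filter_upwards [hae] with r hr hr2
    rw [uIoc_of_le hst] at hr2
    exact (hr ⟨hr2.1.le, hr2.2⟩).symm
  · cases lb (P s) <;> simp
  · intro t ht p hp
    have hX : Xs + ((t - s) * w.re - cc * w.im * ∫ r in s..t, S.f (γ r)) / S.lam j =
        S.xh (P t) + m := by
      rw [hint t ht]
      have h1 := hxh t ht
      have h2 : S.xh (P s) = Xs - m := hx
      have h3 : cc * w.im * (sg (lb (P s)) * (S.V.G (S.yh (P t)) - S.V.G (S.yh (P s))) / c) =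
          cc * sg (lb (P s)) * (S.V.G (S.yh (P t)) - S.V.G (S.yh (P s))) / S.lam j := by
        rw [hc]; field_simp
      rw [h3]
      field_simp
      rw [h2] at h1
      field_simp at h1
      linarith
    rw [hX]
    have hLt := hL t ht
    refine ⟨S.lft_mk ((hP2 t ht).trans hp.symm) (by rw [hP2 t ht]; exact hreg t ht) hLt, ?_⟩
    have := S.lens_lift (j := j) (p := P t) (X := S.xh (P t) + m) (Y := Ys + (t - s) * c)
      (m := m) (k := k) (by ring) (hyY t ht)
    exact this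

theorem lift {γ : ℝ → (pat n).Pt} {w : ℂ} (hγ : (pat n).IsStraight S.D.edge γ w) (hw : w.im ≠ 0)
    (hreg : ∀ t ∈ Icc (0 : ℝ) 1, Reg (γ t)) {j : Fin n} {X0 Y0 σ0 : ℝ} {p0 : (pat n).Chart}
    (hp0 : Quot.mk (pat n).Glued p0 = γ 0) (h0 : S.Lft j p0 X0 Y0 σ0) :
    IntervalIntegrable (fun r => S.f (γ r)) volume 0 1 ∧
    ∃ σ : ℝ → ℝ, σ 0 = σ0 ∧
      IsTrack S.V.α S.V.y1 (S.Yt j Y0 w) (S.Xt j X0 w γ) σ ∧
      ∀ t ∈ Icc (0 : ℝ) 1, ∀ p, Quot.mk (pat n).Glued p = γ t →
        S.Lft j p (S.Xt j X0 w γ t) (S.Yt j Y0 w t) (σ t) := by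
  classical
  obtain ⟨N, τ, hmono, hτ0, hτN, hvis⟩ := hγ
  have hτ01 : ∀ k ≤ N, τ k ∈ Icc (0 : ℝ) 1 := fun k hk =>
    ⟨hτ0 ▸ hmono (Nat.zero_le k), hτN ▸ hmono hk⟩
  -- step for one visit
  have hstep : ∀ k < N, IntervalIntegrable (fun r => S.f (γ r)) volume 0 (τ k) →
      (∀ p : (pat n).Chart, Quot.mk (pat n).Glued p = γ (τ k) →
        ∃ σ, S.Lft j p (S.Xt j X0 w γ (τ k)) (S.Yt j Y0 w (τ k)) σ) →
      IntervalIntegrable (fun r => S.f (γ r)) volume 0 (τ (k + 1)) ∧
      ∃ (e : ℝ) (m : ℤ), (e = 1 ∨ e = -1) ∧ ∀ t ∈ Icc (τ k) (τ (k + 1)), ∀ p : (pat n).Chart,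
        Quot.mk (pat n).Glued p = γ t →
        S.Lft j p (S.Xt j X0 w γ t) (S.Yt j Y0 w t) (e * kk S.V.α S.V.y1 m (S.Yt j Y0 w t)) ∧
        Ln S.V.α S.V.y1 (S.Xt j X0 w γ t - m) (S.Yt j Y0 w t - m * S.V.α) := by
    intro k hk hint hL
    have hle : τ k ≤ τ (k + 1) := hmono (Nat.le_succ k)
    obtain ⟨f0, a, hv⟩ := hvis k hk
    have hsub : Icc (τ k) (τ (k + 1)) ⊆ Icc (0 : ℝ) 1 :=
      Icc_subset_Icc (hτ01 k hk.le).1 (hτ01 (k + 1) hk).2
    obtain ⟨hint2, e, m, he, hall⟩ := S.visit hw hle (fun t ht => hreg t (hsub ht)) hv hL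
    refine ⟨hint.trans hint2, e, m, he, fun t ht p hp => ?_⟩
    have h1 := hall t ht p hp
    have hint3 : IntervalIntegrable (fun r => S.f (γ r)) volume (τ k) t :=
      hint2.mono_set (by
        rw [uIcc_of_le ht.1, uIcc_of_le hle]; exact Icc_subset_Icc le_rfl ht.2)
    have hX : S.Xt j X0 w γ (τ k) +
        ((t - τ k) * w.re - cc * w.im * ∫ r in (τ k)..t, S.f (γ r)) / S.lam j =
        S.Xt j X0 w γ t := by
      unfold Xt
      rw [← intervalIntegral.integral_add_adjacent_intervals hint hint3]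
      ring
    have hY : S.Yt j Y0 w (τ k) + (t - τ k) * (S.lam j * w.im) = S.Yt j Y0 w t := by
      unfold Yt; ring
    rw [hX, hY] at h1
    exact h1
  have hmain : ∀ k ≤ N, IntervalIntegrable (fun r => S.f (γ r)) volume 0 (τ k) ∧
      (∀ p : (pat n).Chart, Quot.mk (pat n).Glued p = γ (τ k) →
        ∃ σ, S.Lft j p (S.Xt j X0 w γ (τ k)) (S.Yt j Y0 w (τ k)) σ) := by
    intro k
    induction k with
    | zero =>
      intro _
      rw [hτ0]
      refine ⟨IntervalIntegrable.refl, fun p hp => ⟨σ0, ?_⟩⟩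
      have hX : S.Xt j X0 w γ 0 = X0 := by simp [Xt]
      have hY : S.Yt j Y0 w 0 = Y0 := by simp [Yt]
      rw [hX, hY]
      exact S.lft_mk (hp0.trans hp.symm) (by rw [hp0]; exact hreg 0 (by simp)) h0
    | succ k ih =>
      intro hk
      obtain ⟨h1, h2⟩ := ih (Nat.le_of_succ_le hk)
      obtain ⟨h3, e, m, -, h4⟩ := hstep k hk h1 h2
      refine ⟨h3, fun p hp => ⟨_, (h4 (τ (k + 1)) ⟨hmono (Nat.le_succ k), le_rfl⟩ p hp).1⟩⟩
  have hvisit : ∀ k < N, ∃ (e : ℝ) (m : ℤ), (e = 1 ∨ e = -1) ∧ ∀ t ∈ Icc (τ k) (τ (k + 1)),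
      ∀ p : (pat n).Chart, Quot.mk (pat n).Glued p = γ t →
        S.Lft j p (S.Xt j X0 w γ t) (S.Yt j Y0 w t) (e * kk S.V.α S.V.y1 m (S.Yt j Y0 w t)) ∧
        Ln S.V.α S.V.y1 (S.Xt j X0 w γ t - m) (S.Yt j Y0 w t - m * S.V.α) := by
    intro k hk
    obtain ⟨h1, h2⟩ := hmain k hk.le
    exact (hstep k hk h1 h2).2
  -- every time belongs to a visit
  have hcov : ∀ t ∈ Icc (0 : ℝ) 1, ∃ k < N, t ∈ Icc (τ k) (τ (k + 1)) := by
    intro t ht
    by_contra hcon
    push Not at hcon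
    have hNpos : 0 < N := by
      rcases Nat.eq_zero_or_pos N with h | h
      · rw [h, hτ0] at hτN; norm_num at hτN
      · exact h
    have : ∀ k ≤ N, τ k ≤ t := by
      intro k
      induction k with
      | zero => intro _; rw [hτ0]; exact ht.1
      | succ k ih =>
        intro hk
        have h1 := ih (Nat.le_of_succ_le hk)
        by_contra h2
        exact hcon k hk ⟨h1, (not_le.1 h2).le⟩
    have h1 : t = 1 := le_antisymm ht.2 (hτN ▸ this N le_rfl)
    have h2 := hcon (N - 1) (by omega)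
    apply h2
    have h3 : N - 1 + 1 = N := by omega
    refine ⟨this (N - 1) (by omega), ?_⟩
    rw [h3, hτN, h1]
  have hex : ∀ t ∈ Icc (0 : ℝ) 1, ∃ σ, ∀ p : (pat n).Chart, Quot.mk (pat n).Glued p = γ t →
      S.Lft j p (S.Xt j X0 w γ t) (S.Yt j Y0 w t) σ := by
    intro t ht
    obtain ⟨k, hk, hkt⟩ := hcov t ht
    obtain ⟨e, m, -, h⟩ := hvisit k hk
    exact ⟨_, fun p hp => (h t hkt p hp).1⟩
  choose! σ hσ using hex
  refine ⟨?_, σ, ?_, ?_, hσ⟩
  · have := (hmain N le_rfl).1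
    rwa [hτN] at this
  · have h1 := hσ 0 (by simp) p0 hp0
    have hX : S.Xt j X0 w γ 0 = X0 := by simp [Xt]
    have hY : S.Yt j Y0 w 0 = Y0 := by simp [Yt]
    rw [hX, hY] at h1
    exact S.lft_unique h1 h0
  · refine ⟨N, τ, hmono, hτ0, hτN, fun k hk => ?_⟩
    obtain ⟨e, m, he, h⟩ := hvisit k hk
    refine ⟨e, m, he, fun t ht => ?_⟩
    have ht01 : t ∈ Icc (0 : ℝ) 1 :=
      Icc_subset_Icc (hτ01 k hk.le).1 (hτ01 (k + 1) hk).2 ht
    have hq : Quot.mk (pat n).Glued (Quot.out (γ t)) = γ t := Quot.out_eq _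
    have h1 := h t ht _ hq
    exact ⟨S.lft_unique (hσ t ht01 _ hq) h1.1, h1.2⟩

/-- the holonomy of a closed straight path -/
theorem closed_path {γ : ℝ → (pat n).Pt} {w : ℂ} (hγ : (pat n).IsStraight S.D.edge γ w)
    (hw : w.im ≠ 0) (hreg : ∀ t ∈ Icc (0 : ℝ) 1, Reg (γ t)) {p0 : (pat n).Chart}
    (hp0 : Quot.mk (pat n).Glued p0 = γ 0) (hcl : γ 0 = γ 1) :
    ∃ m k : ℤ, S.lam (pc p0) * m = w.re - cc * w.im * ∫ r in (0 : ℝ)..1, S.f (γ r) ∧
      m * S.V.α + k = S.lam (pc p0) * w.im := by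
  obtain ⟨-, σ, -, -, h⟩ := S.lift hγ hw hreg hp0 (S.Lft_self p0)
  obtain ⟨-, m, k, h1, h2, -⟩ := h 1 (by simp) p0 (hp0.trans hcl)
  refine ⟨m, k, ?_, ?_⟩
  · unfold Xt at h1
    have hl := S.lam_pos (pc p0)
    field_simp at h1
    linarith
  · unfold Yt at h2
    linarith

/-- the piece is constant along a straight path -/
theorem piece_const {γ : ℝ → (pat n).Pt} {w : ℂ} (hγ : (pat n).IsStraight S.D.edge γ w)
    (hw : w.im ≠ 0) (hreg : ∀ t ∈ Icc (0 : ℝ) 1, Reg (γ t)) {p0 : (pat n).Chart}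
    (hp0 : Quot.mk (pat n).Glued p0 = γ 0) {t : ℝ} (ht : t ∈ Icc (0 : ℝ) 1) {p : (pat n).Chart}
    (hp : Quot.mk (pat n).Glued p = γ t) : pc p = pc p0 := by
  obtain ⟨-, σ, -, -, h⟩ := S.lift hγ hw hreg hp0 (S.Lft_self p0)
  exact (h t ht p hp).1

end Cfg

end Pool.Agent.H1.Horo
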