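import Pool.Agent.H1.Horo.AreaM
import Pool.Agent.H1.Horo.Lift
import Pool.Agent.H1.Horo.Core
import Pool.Agent.H1.Horo.Fund

/-!
# Good points and the box

`GoodPt s b y`: the straight path of holonomy `(-s b, b)` from `y` is regular and `f` has the same
value at its two ends.

PROOFS.  `λ = lam j`, `a = r p`, `b = r / p`.
`Box lam s a b x0 = {(X, Y) : -λ b < Y < 0, -a + cc b < λ (X - x0) + s Y/λ < - cc b}`.
(0) `box_volume`: image of a rectangle under a linear map of determinant one up to the factors `λ`, `1/λ`.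
(1) `box_inj`: if two points of `Box` differ by `w = (m, m α + k) ≠ 0` then `w ∈ Svec`,
`|w.2| < λ b ≤ (11/10) r / p ≤ r0 / p` and `|λ w.1 + s w.2/λ| < a`, so
`|w.1 + s w.2/λ²| < a/λ ≤ r0 p`, contradicting `hno`.
(2) `box_points`: for `(X, Y) ∈ B` let `m = ⌊X⌋`, `k = ⌊Y - m α⌋`,
`(x, y) = (X - m, Y - m α - k) ∈ [0,1)²`.  If `(x, y)` is in `[2κ, 1-2κ]²`, `core` gives `p`
with `pc p = j`, `xh p = x`, `yh p = y`, and if `(X, Y) ∉ GoodPos` then `mk p` is not good; so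
`(X, Y)` is congruent to a point of
`E = {x | ∃ p, pc p = j ∧ mk p ∈ {not good} ∧ xh p = x.1 ∧ yh p = x.2}`, of measure
`≤ area {not good}` (`area_M`); otherwise it is congruent to a point of the set of `core_measure`.
Apply `fund` to the union of these two sets.
-/

namespace Pool.Agent.H1.Horo

open Set MeasureTheory

namespace Cfg
variable {n : ℕ} {κ : ℝ} [NeZero n] (S : Cfg n κ)

def GoodPt (s b : ℝ) (y : (pat n).Pt) : Prop :=
  ∃ γ : ℝ → (pat n).Pt, (pat n).IsStraight S.D.edge γ ⟨-(s * b), b⟩ ∧ γ 0 = y ∧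
    (∀ t ∈ Icc (0 : ℝ) 1, Reg (γ t)) ∧ S.f (γ 1) = S.f (γ 0)

/-- the box -/
def Box (lam s a b x0 : ℝ) : Set (ℝ × ℝ) :=
  {x | -(lam * b) < x.2 ∧ x.2 < 0 ∧ -a + cc * b < lam * (x.1 - x0) + s * x.2 / lam ∧
    lam * (x.1 - x0) + s * x.2 / lam < -(cc * b)}

theorem box_volume {lam s a b x0 : ℝ} (hl : 0 < lam) (hb : 0 < b) (hab : 2 * cc * b < a) :
    volume (Box lam s a b x0) = ENNReal.ofReal ((a - 2 * cc * b) * b) := by
  have hmeas : MeasurableSet (Box lam s a b x0) := by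
    apply IsOpen.measurableSet
    unfold Box
    refine IsOpen.and ?_ (IsOpen.and ?_ (IsOpen.and ?_ ?_))
    · exact isOpen_lt (by fun_prop) (by fun_prop)
    · exact isOpen_lt (by fun_prop) (by fun_prop)
    · exact isOpen_lt (by fun_prop) (by fun_prop)
    · exact isOpen_lt (by fun_prop) (by fun_prop)
  have hsec : ∀ y : ℝ, volume ((fun x : ℝ => (x, y)) ⁻¹' Box lam s a b x0) =
      (Ioo (-(lam * b)) 0).indicator (fun _ => ENNReal.ofReal ((a - 2 * cc * b) / lam)) y := by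
    intro y
    by_cases hy : y ∈ Ioo (-(lam * b)) 0
    · rw [indicator_of_mem hy]
      have : (fun x : ℝ => (x, y)) ⁻¹' Box lam s a b x0 =
          Ioo ((-a + cc * b - s * y / lam) / lam + x0) ((-(cc * b) - s * y / lam) / lam + x0) := by
        ext x
        simp only [Box, mem_preimage, mem_ofPred_eq, mem_Ioo]
        constructor
        · rintro ⟨-, -, h1, h2⟩
          constructor
          · rw [← lt_sub_iff_add_lt, div_lt_iff₀ hl]; linarith
          · rw [← sub_lt_iff_lt_add, lt_div_iff₀ hl]; linarith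
        · rintro ⟨h1, h2⟩
          rw [← lt_sub_iff_add_lt, div_lt_iff₀ hl] at h1
          rw [← sub_lt_iff_lt_add, lt_div_iff₀ hl] at h2
          exact ⟨hy.1, hy.2, by linarith, by linarith⟩
      rw [this, Real.volume_Ioo]
      congr 1
      field_simp
      ring
    · rw [indicator_of_notMem hy]
      have : (fun x : ℝ => (x, y)) ⁻¹' Box lam s a b x0 = ∅ := by
        ext x
        simp only [Box, mem_preimage, mem_ofPred_eq, mem_empty_iff_false, iff_false]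
        rintro ⟨h1, h2, -, -⟩
        exact hy ⟨h1, h2⟩
      rw [this, measure_empty]
  rw [Measure.volume_eq_prod, Measure.prod_apply_symm hmeas]
  rw [lintegral_congr hsec, lintegral_indicator measurableSet_Ioo, setLIntegral_const,
    Real.volume_Ioo, ← ENNReal.ofReal_mul (div_nonneg (by linarith) hl.le)]
  congr 1
  field_simp
  ring

theorem box_inj {j : Fin n} {s p r r0 x0 : ℝ} (hr : 0 < r) (hr0 : 11 / 10 * r ≤ r0) (hp : 1 ≤ p)
    (hno : ¬ ∃ w ∈ Svec S.V.α S.V.y1, |w.1 + s / S.lam j ^ 2 * w.2| ≤ r0 * p ∧ |w.2| ≤ r0 / p) :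
    ∀ x ∈ Box (S.lam j) s (r * p) (r / p) x0, ∀ m k : ℤ,
      (x.1 + m, x.2 + m * S.V.α + k) ∈ Box (S.lam j) s (r * p) (r / p) x0 → m = 0 ∧ k = 0 := by
  rintro x ⟨h1, h2, h3, h4⟩ m k ⟨h1', h2', h3', h4'⟩
  by_contra hmk
  simp only at h1' h2' h3' h4'
  have hl := S.lam_pos j
  have hl1 := S.one_lt j
  have hl2 := S.lam_lt j
  have hp0 : 0 < p := by linarith
  have hcc : 0 < cc := by unfold cc; norm_num
  have hb : 0 < cc * (r / p) := by positivity
  apply hno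
  refine ⟨((m : ℝ), (m : ℝ) * S.V.α + k), ⟨m, k, Or.inl ⟨rfl, ?_⟩⟩, ?_, ?_⟩
  · by_contra hcon
    push Not at hcon
    exact hmk ⟨hcon.1, hcon.2⟩
  · simp only
    have h5 : |S.lam j * m + s * (m * S.V.α + k) / S.lam j| ≤ r * p := by
      have e : S.lam j * (x.1 + m - x0) + s * (x.2 + m * S.V.α + k) / S.lam j =
          (S.lam j * (x.1 - x0) + s * x.2 / S.lam j) +
          (S.lam j * m + s * (m * S.V.α + k) / S.lam j) := by
        field_simp; ring
      rw [e] at h3' h4'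
      rw [abs_le]
      constructor <;> linarith
    have e2 : (m : ℝ) + s / S.lam j ^ 2 * (m * S.V.α + k) =
        (S.lam j * m + s * (m * S.V.α + k) / S.lam j) / S.lam j := by
      field_simp
    rw [e2, abs_div, abs_of_pos hl, div_le_iff₀ hl]
    refine h5.trans ?_
    have h6 : 0 < r * p := by positivity
    have h7 : r ≤ r0 := by linarith
    have h8 : r * p ≤ r0 * p := mul_le_mul_of_nonneg_right h7 hp0.le
    nlinarith
  · simp only
    have h5 : |(m : ℝ) * S.V.α + k| ≤ S.lam j * (r / p) := by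
      rw [abs_le]
      constructor <;> linarith
    refine h5.trans ?_
    rw [mul_div_assoc', div_le_div_iff_of_pos_right hp0]
    nlinarith

/-- the lifts of the good chart points of the piece `j` -/
def GoodPos (j : Fin n) (s b : ℝ) : Set (ℝ × ℝ) :=
  {x | ∃ p : (pat n).Chart, pc p = j ∧ S.GoodPt s b (Quot.mk (pat n).Glued p) ∧
    ∃ m k : ℤ, S.xh p = x.1 - m ∧ S.yh p = x.2 - m * S.V.α - k}

theorem box_points (j : Fin n) (s b : ℝ) {B : Set (ℝ × ℝ)} (hB : MeasurableSet B)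
    (hinj : ∀ x ∈ B, ∀ m k : ℤ, (x.1 + m, x.2 + m * S.V.α + k) ∈ B → m = 0 ∧ k = 0) :
    volume (B \ S.GoodPos j s b) ≤
      (pat n).area S.D.edge {y | ¬ S.GoodPt s b y} + ENNReal.ofReal (8 * κ) := by
  have h1 := fund S.V.α hB hinj
    ({x : ℝ × ℝ | ∃ p : (pat n).Chart, pc p = j ∧
      Quot.mk (pat n).Glued p ∈ {y | ¬ S.GoodPt s b y} ∧ S.xh p = x.1 ∧ S.yh p = x.2} ∪
      {x : ℝ × ℝ | x.1 ∈ Ico (0 : ℝ) 1 ∧ x.2 ∈ Ico (0 : ℝ) 1 ∧
      ¬ (x.1 ∈ Icc (2 * κ) (1 - 2 * κ) ∧ x.2 ∈ Icc (2 * κ) (1 - 2 * κ))})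
  refine le_trans (measure_mono ?_) (h1.trans ((measure_union_le _ _).trans
    (add_le_add (S.area_M j _) (core_measure S.κ_pos))))
  rintro x ⟨hxB, hxG⟩
  refine ⟨hxB, ⌊x.1⌋, ⌊x.2 - ⌊x.1⌋ * S.V.α⌋, ?_⟩
  by_cases hc : (x.1 - ⌊x.1⌋) ∈ Icc (2 * κ) (1 - 2 * κ) ∧
      (x.2 - ⌊x.1⌋ * S.V.α - ⌊x.2 - ⌊x.1⌋ * S.V.α⌋) ∈ Icc (2 * κ) (1 - 2 * κ)
  · left
    obtain ⟨p, hp1, -, hp3, hp4⟩ := S.core j hc.1 hc.2
    refine ⟨p, hp1, ?_, hp3, hp4⟩
    intro hg
    exact hxG ⟨p, hp1, hg, _, _, hp3, hp4⟩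
  · right
    refine ⟨⟨?_, ?_⟩, ⟨?_, ?_⟩, hc⟩
    · have := Int.floor_le x.1; simp only; linarith
    · have := Int.lt_floor_add_one x.1; simp only; linarith
    · have := Int.floor_le (x.2 - ⌊x.1⌋ * S.V.α); simp only; linarith
    · have := Int.lt_floor_add_one (x.2 - ⌊x.1⌋ * S.V.α); simp only; linarith

end Cfg

end Pool.Agent.H1.Horo
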