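import Pool.Agent.H1.Horo.Basic

/-!
# The primitive `G` of the transfer function `φ`

Proofs.  `φ` is measurable with values `1, -1`, hence interval integrable; `G_sub` is additivity of
the integral, `abs_G_sub_le` is `|φ| ≤ 1`.  `G_add_one`: periodicity,
`∫_0^{y+1} = ∫_0^1 + ∫_1^{y+1} φ = γ + ∫_0^y φ`.
`G_y1`: `∫_0^1 φ (y + α) dy = ∫_α^{1+α} φ = γ` by periodicity, and, `N0` being null,
`∫_0^1 φ (y + α) dy = ∫_0^1 kap y1 y * φ y dy = γ - 2 ∫_0^{y1} φ = γ - 2 G y1` (for `y ∈ [0,1)`,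
`Int.fract y = y`, so `kap y1 y = -1` exactly for `y < y1`).
`G_add_alpha`, `G_add_alpha'`: `G (y + α) - γ' = ∫_0^y φ (t + α) dt = ∫_0^y kap y1 t * φ t dt`, which
for `0 ≤ y ≤ y1` is `- G y` and for `y1 ≤ y ≤ 1` is `- G y1 + (G y - G y1) = G y`.
`gam_le`: `φ ≤ 1`; `le_gam`, `le_G`: `∫_0^y φ = y - 2 vol({φ = -1} ∩ [0,y]) ≥ y - 2 δ`.
-/

namespace Pool.Agent.H1.Horo

open Set MeasureTheory

namespace Veech
variable {δ : ℝ} (V : Veech δ)

theorem phi_norm (t : ℝ) : ‖V.φ t‖ = 1 := by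
  rcases V.val t with h | h <;> rw [h] <;> norm_num

theorem phi_intervalIntegrable (a b : ℝ) : IntervalIntegrable V.φ volume a b := by
  apply (intervalIntegrable_const (c := (1 : ℝ))).mono_fun V.meas.aestronglyMeasurable
  exact Filter.Eventually.of_forall fun t => by
    change ‖V.φ t‖ ≤ ‖(1 : ℝ)‖
    rw [V.phi_norm]; norm_num

theorem G_sub (a b : ℝ) : V.G b - V.G a = ∫ t in a..b, V.φ t :=
  intervalIntegral.integral_interval_sub_left (V.phi_intervalIntegrable _ _)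
    (V.phi_intervalIntegrable _ _)

theorem abs_G_sub_le (a b : ℝ) : |V.G b - V.G a| ≤ |b - a| := by
  rw [G_sub, ← Real.norm_eq_abs]
  have h := intervalIntegral.norm_integral_le_of_norm_le_const (a := a) (b := b) (f := V.φ)
    (C := 1) (fun x _ => (V.phi_norm x).le)
  linarith

theorem G_zero : V.G 0 = 0 := by
  simp [G]

theorem G_continuous : Continuous V.G := by
  have h : LipschitzWith 1 V.G := by
    apply LipschitzWith.of_dist_le_mul
    intro x y
    rw [Real.dist_eq, Real.dist_eq, NNReal.coe_one, one_mul]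
    exact V.abs_G_sub_le y x
  exact h.continuous

theorem G_add_one (y : ℝ) : V.G (y + 1) = V.G y + V.γ := by
  have h1 : V.G (y + 1) - V.G 1 = ∫ t in (1 : ℝ)..(y + 1), V.φ t := V.G_sub _ _
  have h2 : ∫ t in (0 : ℝ)..y, V.φ (t + 1) = ∫ t in (0 + 1 : ℝ)..(y + 1), V.φ t :=
    intervalIntegral.integral_comp_add_right (fun t => V.φ t) 1
  have h3 : ∫ t in (0 : ℝ)..y, V.φ (t + 1) = V.G y := by
    unfold G
    exact intervalIntegral.integral_congr fun t _ => V.per t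
  rw [zero_add] at h2
  unfold γ
  linarith

/-- shift by `α` -/
theorem G_shift (a b : ℝ) : V.G (b + V.α) - V.G (a + V.α) = ∫ t in a..b, V.φ (t + V.α) := by
  rw [G_sub, intervalIntegral.integral_comp_add_right (fun t => V.φ t) V.α]

theorem ae_ok : ∀ᵐ t : ℝ, t ∉ V.N0 ∧ t ≠ 1 ∧ t ≠ V.y1 := by
  have h1 : ∀ᵐ t : ℝ, t ∉ V.N0 := measure_eq_zero_iff_ae_notMem.1 V.null
  have h2 : ∀ᵐ t : ℝ, t ∉ ({1} : Set ℝ) := (countable_singleton (1 : ℝ)).ae_notMem volume
  have h3 : ∀ᵐ t : ℝ, t ∉ ({V.y1} : Set ℝ) := (countable_singleton V.y1).ae_notMem volume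
  filter_upwards [h1, h2, h3] with t ht1 ht2 ht3
  exact ⟨ht1, by simpa using ht2, by simpa using ht3⟩

theorem G_shift1 (hδ : δ ≤ 1 / 2) {a b : ℝ} (h0 : 0 ≤ a) (hab : a ≤ b) (hb : b ≤ V.y1) :
    V.G (b + V.α) - V.G (a + V.α) = - (V.G b - V.G a) := by
  rw [G_shift, G_sub, ← intervalIntegral.integral_neg]
  apply intervalIntegral.integral_congr_ae
  filter_upwards [V.ae_ok] with t ht hmem
  rw [uIoc_of_le hab] at hmem
  have h1 : t < V.y1 := lt_of_le_of_ne (hmem.2.trans hb) ht.2.2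
  have h2 : V.y1 < δ := V.y1_lt
  have h3 : Int.fract t = t := Int.fract_eq_self.2 ⟨by linarith [hmem.1], by linarith⟩
  rw [V.coc t ht.1, kap, h3, if_pos h1]
  ring

theorem G_shift2 {a b : ℝ} (h0 : V.y1 ≤ a) (hab : a ≤ b) (hb : b ≤ 1) :
    V.G (b + V.α) - V.G (a + V.α) = V.G b - V.G a := by
  rw [G_shift, G_sub]
  apply intervalIntegral.integral_congr_ae
  filter_upwards [V.ae_ok] with t ht hmem
  rw [uIoc_of_le hab] at hmem
  have h1 : t < 1 := lt_of_le_of_ne (hmem.2.trans hb) ht.2.1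
  have h2 : 0 < V.y1 := V.y1_pos
  have h3 : Int.fract t = t := Int.fract_eq_self.2 ⟨by linarith [hmem.1], h1⟩
  rw [V.coc t ht.1, kap, h3, if_neg (by linarith [hmem.1])]
  ring

theorem G_y1 (hδ : δ ≤ 1 / 2) : V.G V.y1 = 0 := by
  have h1 := V.G_shift1 hδ le_rfl V.y1_pos.le le_rfl
  have h2 := V.G_shift2 le_rfl (by linarith [V.y1_lt]) (le_refl (1 : ℝ))
  have h3 := V.G_add_one V.α
  rw [add_comm V.α 1] at h3
  rw [zero_add, G_zero] at h1
  unfold γ at h3
  linarith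

theorem G_add_alpha (hδ : δ ≤ 1 / 2) {y : ℝ} (h1 : V.y1 ≤ y) (h2 : y ≤ 1) :
    V.G (y + V.α) = V.G y + V.γ' := by
  have h3 := V.G_shift1 hδ le_rfl V.y1_pos.le le_rfl
  have h4 := V.G_shift2 le_rfl h1 h2
  rw [zero_add, G_zero] at h3
  have h5 := V.G_y1 hδ
  unfold γ'
  linarith

theorem G_add_alpha' (hδ : δ ≤ 1 / 2) {y : ℝ} (h1 : 0 ≤ y) (h2 : y ≤ V.y1) :
    V.G (y + V.α) = V.γ' - V.G y := by
  have h3 := V.G_shift1 hδ le_rfl h1 h2
  rw [zero_add, G_zero] at h3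
  unfold γ'
  linarith

theorem gam_le : V.γ ≤ 1 := by
  have h := V.abs_G_sub_le 0 1
  rw [G_zero, sub_zero, sub_zero, abs_one] at h
  exact (abs_le.1 h).2

theorem le_G {y : ℝ} (h0 : 0 ≤ y) (h1 : y ≤ 1) : y - 2 * δ ≤ V.G y := by
  set S : Set ℝ := {t | V.φ t = -1} with hS
  have hSm : MeasurableSet S := V.meas (measurableSet_singleton (-1))
  have hδ0 : 0 ≤ δ := by linarith [V.α_pos, V.α_lt]
  have e : ∀ t, V.φ t = 1 - 2 * S.indicator (fun _ => (1 : ℝ)) t := by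
    intro t
    by_cases ht : t ∈ S
    · rw [indicator_of_mem ht]
      have : V.φ t = -1 := ht
      rw [this]; norm_num
    · rw [indicator_of_notMem ht]
      rcases V.val t with h | h
      · rw [h]; norm_num
      · exact absurd h ht
  have hint : IntegrableOn (S.indicator (fun _ => (1 : ℝ))) (Ioc 0 y) volume :=
    (integrable_const (1 : ℝ)).indicator hSm
  have h2 : V.G y = y - 2 * volume.real (S ∩ Ioc 0 y) := by
    unfold G
    rw [intervalIntegral.integral_of_le h0]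
    simp_rw [e]
    rw [integral_sub (integrable_const _) (hint.const_mul 2), integral_const_mul,
      integral_indicator hSm, Measure.restrict_restrict hSm]
    simp [h0]
  have h3 : volume.real (S ∩ Ioc 0 y) ≤ δ := by
    rw [Measure.real]
    apply ENNReal.toReal_le_of_le_ofReal hδ0
    refine le_trans (measure_mono ?_) V.small
    rintro t ⟨ht, ht2⟩
    exact ⟨ht, ht2.1.le, ht2.2.trans h1⟩
  linarith

theorem le_gam : 1 - 2 * δ ≤ V.γ :=
  V.le_G zero_le_one le_rfl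

theorem abs_gam' : |V.γ'| ≤ V.α := by
  have h := V.abs_G_sub_le 0 V.α
  rw [G_zero, sub_zero, sub_zero, abs_of_pos V.α_pos] at h
  exact h

theorem G_le {y : ℝ} (h0 : 0 ≤ y) : V.G y ≤ y := by
  have h := V.abs_G_sub_le 0 y
  rw [G_zero, sub_zero, sub_zero, abs_of_nonneg h0] at h
  exact (abs_le.1 h).2

end Veech

end Pool.Agent.H1.Horo
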