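import Pool.Agent.H1.Horo.Basic

/-!
# Sheets

`kk α y1 m y` is the cocycle with `kk 0 = 1` and `kk (m + 1) y = kk m y * kap (y - (m + 1) α)`; by
the cocycle equation of `φ` one has `φ (y - m α) = kk m y * φ y` off the null set `N0`.

Proofs.
* `kap_sq`, `kk_sq`, `kk_zero`: by definition (values `1, -1`).
* `kk_succ`: for `m ≥ 0` the interval `Ioc 0 (m + 1)` is `Ioc 0 m` and `m + 1`; for `m ≤ -1` the
  interval `Ioc m 0` is `Ioc (m + 1) 0` and `m + 1`, and `kap ^ 2 = 1`.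
* `kap_add_int`: `Int.fract` is 1-periodic.
* `kk_add_int`: 1-periodicity in `y`.
* `phi_sub`: induction on `m` in both directions with
  `φ (y - m α) = φ (y - (m+1) α + α) = kap (y - (m+1) α) φ (y - (m+1) α)`, where
  `y - (m+1) α ∉ N0` by `N0_α`.
* `phi_add_int`: periodicity of `φ`.
-/

namespace Pool.Agent.H1.Horo

open Set MeasureTheory

/-- the sheet cocycle -/
noncomputable def kk (α y1 : ℝ) (m : ℤ) (y : ℝ) : ℝ :=
  ∏ j ∈ Finset.Ioc (min 0 m) (max 0 m), kap y1 (y - j * α)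

theorem kap_val (y1 y : ℝ) : kap y1 y = 1 ∨ kap y1 y = -1 := by
  unfold kap; split <;> simp

theorem kap_sq (y1 y : ℝ) : kap y1 y * kap y1 y = 1 := by
  rcases kap_val y1 y with h | h <;> rw [h] <;> norm_num

theorem kap_add_int (y1 y : ℝ) (k : ℤ) : kap y1 (y + k) = kap y1 y := by
  unfold kap; rw [Int.fract_add_intCast]

/-- the product over the interval between `n` and `m` -/
private noncomputable def pp (α y1 : ℝ) (n m : ℤ) (y : ℝ) : ℝ :=
  ∏ j ∈ Finset.Ioc (min n m) (max n m), kap y1 (y - j * α)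

private theorem pp_self (α y1 : ℝ) (n : ℤ) (y : ℝ) : pp α y1 n n y = 1 := by
  simp [pp]

private theorem pp_succ (α y1 : ℝ) (n m : ℤ) (y : ℝ) :
    pp α y1 n (m + 1) y = pp α y1 n m y * kap y1 (y - (m + 1) * α) := by
  unfold pp
  rcases le_or_gt n m with h | h
  · have e1 : Finset.Ioc (min n (m + 1)) (max n (m + 1)) =
        insert (m + 1) (Finset.Ioc (min n m) (max n m)) := by
      rw [min_eq_left h, max_eq_right h, min_eq_left (by omega), max_eq_right (by omega)]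
      ext x; simp only [Finset.mem_Ioc, Finset.mem_insert]; omega
    rw [e1, Finset.prod_insert, mul_comm]
    · push_cast; rfl
    · rw [max_eq_right h]; simp
  · have e1 : Finset.Ioc (min n m) (max n m) =
        insert (m + 1) (Finset.Ioc (min n (m + 1)) (max n (m + 1))) := by
      rw [min_eq_right (by omega : m + 1 ≤ n), max_eq_left (by omega : m + 1 ≤ n),
        min_eq_right h.le, max_eq_left h.le]
      ext x; simp only [Finset.mem_Ioc, Finset.mem_insert]; omega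
    rw [e1, Finset.prod_insert]
    · have := kap_sq y1 (y - (m + 1) * α)
      push_cast
      linear_combination (-∏ j ∈ Finset.Ioc (min n (m + 1)) (max n (m + 1)),
        kap y1 (y - j * α)) * this
    · rw [min_eq_right (by omega : m + 1 ≤ n)]; simp

private theorem pp_pred (α y1 : ℝ) (n m : ℤ) (y : ℝ) :
    pp α y1 n (m - 1) y = pp α y1 n m y * kap y1 (y - m * α) := by
  have h := pp_succ α y1 n (m - 1) y
  rw [sub_add_cancel] at h
  push_cast at h
  rw [sub_add_cancel] at h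
  rw [h, mul_assoc, kap_sq, mul_one]

theorem kk_zero (α y1 y : ℝ) : kk α y1 0 y = 1 := by
  simp [kk]

theorem kk_succ (α y1 : ℝ) (m : ℤ) (y : ℝ) :
    kk α y1 (m + 1) y = kk α y1 m y * kap y1 (y - (m + 1) * α) :=
  pp_succ α y1 0 m y

theorem kk_pred (α y1 : ℝ) (m : ℤ) (y : ℝ) :
    kk α y1 (m - 1) y = kk α y1 m y * kap y1 (y - m * α) :=
  pp_pred α y1 0 m y

theorem kk_val (α y1 : ℝ) (m : ℤ) (y : ℝ) : kk α y1 m y = 1 ∨ kk α y1 m y = -1 := by
  unfold kk
  apply Finset.prod_induction _ (fun x => x = 1 ∨ x = -1)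
  · rintro a b (rfl | rfl) (rfl | rfl) <;> norm_num
  · left; rfl
  · intro x _; exact kap_val _ _

theorem kk_add_int (α y1 : ℝ) (m : ℤ) (y : ℝ) (k : ℤ) : kk α y1 m (y + k) = kk α y1 m y := by
  unfold kk
  apply Finset.prod_congr rfl
  intro j _
  rw [← kap_add_int y1 (y - j * α) k]
  congr 1; ring

/-- product of two cocycles -/
theorem kk_mul_kk (α y1 : ℝ) (m m' : ℤ) (y : ℝ) :
    kk α y1 m y * kk α y1 m' y = ∏ j ∈ Finset.Ioc (min m m') (max m m'), kap y1 (y - j * α) := by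
  change _ = pp α y1 m m' y
  induction m' using Int.inductionOn' (b := m) with
  | zero =>
    rw [pp_self]
    rcases kk_val α y1 m y with h | h <;> rw [h] <;> norm_num
  | succ k _ ih => rw [kk_succ, pp_succ, ← ih, mul_assoc]
  | pred k _ ih => rw [kk_pred, pp_pred, ← ih, mul_assoc]

theorem Veech.phi_add_int {δ : ℝ} (V : Veech δ) (y : ℝ) (k : ℤ) : V.φ (y + k) = V.φ y := by
  induction k using Int.induction_on with
  | zero => simp
  | succ n ih =>
    rw [← ih]
    push_cast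
    rw [← add_assoc, V.per]
  | pred n ih =>
    rw [← ih, ← V.per (y + ((-(n : ℤ) - 1 : ℤ) : ℝ))]
    push_cast
    congr 1; ring

theorem Veech.N0_sub {δ : ℝ} (V : Veech δ) (y : ℝ) (m : ℤ) :
    y - m * V.α ∈ V.N0 ↔ y ∈ V.N0 := by
  induction m using Int.induction_on with
  | zero => simp
  | succ n ih =>
    rw [← ih, ← V.N0_α (y - (((n : ℤ) + 1 : ℤ) : ℝ) * V.α)]
    have e : y - (((n : ℤ) + 1 : ℤ) : ℝ) * V.α + V.α = y - ((n : ℤ) : ℝ) * V.α := by
      push_cast; ring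
    rw [e]
  | pred n ih =>
    rw [← ih, ← V.N0_α (y - ((-(n : ℤ) : ℤ) : ℝ) * V.α)]
    have e : y - ((-(n : ℤ) : ℤ) : ℝ) * V.α + V.α = y - ((-(n : ℤ) - 1 : ℤ) : ℝ) * V.α := by
      push_cast; ring
    rw [e]

theorem Veech.phi_sub {δ : ℝ} (V : Veech δ) {y : ℝ} (hy : y ∉ V.N0) (m : ℤ) :
    V.φ (y - m * V.α) = kk V.α V.y1 m y * V.φ y := by
  have hN : ∀ m : ℤ, y - m * V.α ∉ V.N0 := fun m h => hy ((V.N0_sub y m).1 h)
  have hk : ∀ m : ℤ, V.φ (y - m * V.α + V.α) = kap V.y1 (y - m * V.α) * V.φ (y - m * V.α) :=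
    fun m => V.coc _ (hN m)
  induction m using Int.induction_on with
  | zero => simp [kk_zero]
  | succ n ih =>
    have h := hk ((n : ℤ) + 1)
    have e : y - (((n : ℤ) + 1 : ℤ) : ℝ) * V.α + V.α = y - ((n : ℤ) : ℝ) * V.α := by
      push_cast; ring
    rw [e, ih] at h
    rw [kk_succ]
    have h2 := kap_sq V.y1 (y - (((n : ℤ) + 1 : ℤ) : ℝ) * V.α)
    push_cast at h h2 ⊢
    linear_combination (-V.φ (y - ((n : ℝ) + 1) * V.α)) * h2
      - kap V.y1 (y - ((n : ℝ) + 1) * V.α) * h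
  | pred n ih =>
    have h := hk (-(n : ℤ))
    have e : y - ((-(n : ℤ) : ℤ) : ℝ) * V.α + V.α = y - ((-(n : ℤ) - 1 : ℤ) : ℝ) * V.α := by
      push_cast; ring
    rw [e, ih] at h
    rw [kk_pred, h]
    ring

end Pool.Agent.H1.Horo
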