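import Pool.Agent.H1.Horo.Pts
import Pool.Agent.H1.Horo.Sheet
import Pool.Agent.H1.Horo.Gfun

/-!
# The configuration: the parameters of the example, its polygons, and the structure functions

`cc = 1/100`.  The piece `j` is the tremor (size `cc`) of the double cover of the torus
`ℝ² / (ℤ (1, α) + ℤ (0, 1))` branched over `(0,0)` and `(0, y1)`, rescaled by `diag (λ, 1/λ)`, `λ = lam j`,
and slit along a horizontal segment of length `l`.
In polygon coordinates `q` of the torus `(j, e)` (sign `sg e`): `yh = λ Im q`,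
`xh = (Re q - cc * sg e * G (yh) / λ) / λ`, and `fv = sg e * φ (yh)`.
-/

namespace Pool.Agent.H1.Horo

open Set MeasureTheory

def sg (e : Bool) : ℝ := if e then 1 else -1

@[simp] theorem sg_true : sg true = 1 := rfl
@[simp] theorem sg_false : sg false = -1 := rfl

noncomputable def cc : ℝ := 1 / 100

/-- The parameters of the example. -/
structure Cfg (n : ℕ) (κ : ℝ) where
  V : Veech κ
  lam : Fin n → ℝ
  l : ℝ
  κ_lt : κ < 1 / 1000
  one_lt : ∀ j, 1 < lam j
  sq_lt : ∀ j, lam j ^ 2 < 6 / 5
  inj : Function.Injective lam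
  l_pos : 0 < l
  l_lt : 100 * n * l < κ

namespace Cfg
variable {n : ℕ} {κ : ℝ} (S : Cfg n κ)

/-- the side vectors of the example -/
noncomputable def D : Par n where
  ell := S.l
  zz i := ⟨0, S.V.y1 / S.lam i⟩
  rho i e := ⟨cc * sg e * S.V.γ / S.lam i, (1 - S.V.y1) / S.lam i⟩
  C i e := ⟨S.lam i + cc * sg e * S.V.γ' / S.lam i, S.V.α / S.lam i⟩

theorem A_eq (i : Fin n) (e : Bool) :
    S.D.A i e = ⟨cc * sg e * S.V.γ / S.lam i, 1 / S.lam i⟩ := by
  apply Complex.ext
  · simp [Par.A, D]
  · simp [Par.A, D]; ring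

include S in
theorem κ_pos : 0 < κ := S.V.α_pos.trans S.V.α_lt

theorem lam_pos (j : Fin n) : 0 < S.lam j := zero_lt_one.trans (S.one_lt j)

theorem lam_lt (j : Fin n) : S.lam j < 11 / 10 := by
  have h := S.sq_lt j
  have h2 := S.lam_pos j
  nlinarith

variable [NeZero n]

/-- height of a chart point -/
noncomputable def yh (p : (pat n).Chart) : ℝ := S.lam (pc p) * (S.D.ppos p).im

/-- horizontal position of a chart point -/
noncomputable def xh (p : (pat n).Chart) : ℝ :=
  ((S.D.ppos p).re - cc * sg (lb p) * S.V.G (S.yh p) / S.lam (pc p)) / S.lam (pc p)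

/-- value of the tremor foliation density at a chart point -/
noncomputable def fv (p : (pat n).Chart) : ℝ := sg (lb p) * S.V.φ (S.yh p)

/-- the same for points of the glued surface -/
noncomputable def f (x : (pat n).Pt) : ℝ := S.fv (Quot.out x)

/-- `(X, Y)` is a lift of the position of the chart point `p` of the piece `j` to the plane, and `σ` is
its sheet. -/
def Lft (j : Fin n) (p : (pat n).Chart) (X Y σ : ℝ) : Prop :=
  pc p = j ∧ ∃ m k : ℤ, S.xh p = X - m ∧ S.yh p = Y - m * S.V.α - k ∧
    σ = sg (lb p) * kk S.V.α S.V.y1 m Y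

theorem Lft_self (p : (pat n).Chart) : S.Lft (pc p) p (S.xh p) (S.yh p) (sg (lb p)) := by
  refine ⟨rfl, 0, 0, by simp, by simp, by simp [kk_zero]⟩

end Cfg

end Pool.Agent.H1.Horo
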