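import Pool.Agent.H1.Horo.Defs

/-!
# Points of the glued surface

General facts for a gluing pattern `P` with valid side vectors `z`.

PROOFS.
* `pos_inj`: barycentric coordinates sum up to one and `z (f,0)`, `z (f,0) + z (f,1)` are
  linearly independent over `ℝ` (`oriented`).
* `glued_symm`: `P.glue (P.glue h) = h` and `1 - (1 - t) = t`.
* `mk_cases`: let `p` be a point which is not a vertex (i.e. not `sidePt h 0` for any side `h`; note
  `sidePt h 1 = sidePt (h.1, h.2+1) 0`).  The set `{p} ∪ {q | Glued p q}` is closed under `Glued`: if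
  `Glued p q`, `p = sidePt h t`, `q = sidePt (glue h) (1 - t)` with `0 < t < 1`, the side of `q` and
  the parameter are determined by `q` (exactly one barycentric coordinate is zero), so
  `Glued q r` implies `r = p`.  Use `Quot.eqvGen_exact` and induction on `Relation.EqvGen`.
* `pos_sidePt`: `pos (sidePt h t) = base h + t * z h`, where `base (f,0) = 0`, `base (f,1) = z (f,0)`,
  `base (f,2) = z (f,0) + z (f,1)`; for side 2 use `closed`.
* `pos_glued`: if `p = sidePt h t`, `q = sidePt (glue h) (1-t)` then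
  `pos q - pos p = base (glue h) + z (glue h) - base h` since `z (glue h) = - z h`.
* `exists_chart`: a point of the closed triangle has barycentric coordinates.
-/

namespace Pool.Agent.H1.Horo

open Set

namespace Pattern
variable {P : Pattern} {z : P.Tri × Fin 3 → ℂ}

/-- a chart point which is a vertex of its triangle -/
def VertexC (P : Pattern) (p : P.Chart) : Prop := ∃ h, p.1 = P.sidePt h 0

/-- a chart point in the interior of its triangle -/
def Inner (P : Pattern) (p : P.Chart) : Prop := ∀ k, 0 < p.1.2 k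

/-- position of the first point of a side -/
noncomputable def base (P : Pattern) (z : P.Tri × Fin 3 → ℂ) (h : P.Tri × Fin 3) : ℂ :=
  if h.2 = 0 then 0 else if h.2 = 1 then z (h.1, 0) else z (h.1, 0) + z (h.1, 1)

theorem sidePt_mem (P : Pattern) (h : P.Tri × Fin 3) {t : ℝ} (ht : t ∈ Icc (0 : ℝ) 1) :
    (P.sidePt h t).2 ∈ stdSimplex ℝ (Fin 3) := by
  obtain ⟨h1, h2⟩ := ht
  obtain ⟨f, k⟩ := h
  refine ⟨fun i => ?_, ?_⟩
  · simp only [sidePt]
    split_ifs <;> linarith
  · simp only [sidePt, Fin.sum_univ_three]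
    fin_cases k <;> simp

/-- the chart point of the side `h` at the fraction `t` -/
def sideC (P : Pattern) (h : P.Tri × Fin 3) (t : ℝ) (ht : t ∈ Icc (0 : ℝ) 1) : P.Chart :=
  ⟨P.sidePt h t, P.sidePt_mem h ht⟩

theorem pos_inj (hz : P.Valid z) {p q : P.Chart} (h : p.1.1 = q.1.1)
    (hp : P.pos z p = P.pos z q) : p = q := by
  obtain ⟨⟨f, a⟩, ha⟩ := p
  obtain ⟨⟨g, b⟩, hb⟩ := q
  simp only at h
  subst h
  have hor := hz.oriented f
  simp only [pos] at hp
  have hre := congrArg Complex.re hp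
  have him := congrArg Complex.im hp
  simp at hre him
  set X := z (f, 0)
  set Y := z (f, 1)
  have e1 : ((a 1 - b 1) + (a 2 - b 2)) * X.re + (a 2 - b 2) * Y.re = 0 := by linarith
  have e2 : ((a 1 - b 1) + (a 2 - b 2)) * X.im + (a 2 - b 2) * Y.im = 0 := by linarith
  have e3 : (a 2 - b 2) * (X.re * Y.im - X.im * Y.re) = 0 := by linear_combination X.re * e2 - X.im * e1
  have e4 : ((a 1 - b 1) + (a 2 - b 2)) * (X.re * Y.im - X.im * Y.re) = 0 := by
    linear_combination Y.im * e1 - Y.re * e2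
  have h2 : a 2 = b 2 := by
    rcases mul_eq_zero.1 e3 with h | h
    · linarith
    · exact absurd h hor.ne'
  have h1 : a 1 = b 1 := by
    rcases mul_eq_zero.1 e4 with h | h
    · linarith
    · exact absurd h hor.ne'
  have h0 : a 0 = b 0 := by
    have sa := ha.2
    have sb := hb.2
    simp only [Fin.sum_univ_three] at sa sb
    linarith
  have : a = b := by
    funext i
    fin_cases i
    · exact h0
    · exact h1
    · exact h2
  subst this
  rfl

theorem glued_symm {p q : P.Chart} (h : P.Glued p q) : P.Glued q p := by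
  obtain ⟨h, t, ht, hp, hq⟩ := h
  refine ⟨P.glue h, 1 - t, ⟨by linarith [ht.2], by linarith [ht.1]⟩, hq, ?_⟩
  rw [P.glue_glue, hp]
  congr 1
  ring

theorem glued_side (h : P.Tri × Fin 3) {t : ℝ} (ht : t ∈ Icc (0 : ℝ) 1)
    (ht' : 1 - t ∈ Icc (0 : ℝ) 1) : P.Glued (P.sideC h t ht) (P.sideC (P.glue h) (1 - t) ht') :=
  ⟨h, t, ht, rfl, rfl⟩

theorem sidePt_one (h : P.Tri × Fin 3) : P.sidePt h 1 = P.sidePt (h.1, h.2 + 1) 0 := by
  obtain ⟨f, k⟩ := h
  simp only [sidePt, Prod.mk.injEq, true_and]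
  funext i
  fin_cases k <;> fin_cases i <;> simp

/-- a chart point which is neither inner nor a vertex is in the interior of a side -/
theorem cases_chart (p : P.Chart) : P.Inner p ∨ P.VertexC p ∨
    ∃ (h : P.Tri × Fin 3) (t : ℝ) (ht : t ∈ Icc (0 : ℝ) 1), 0 < t ∧ t < 1 ∧ p = P.sideC h t ht := by
  obtain ⟨⟨f, a⟩, ha⟩ := p
  by_cases hin : ∀ k, 0 < a k
  · left; exact hin
  right
  push Not at hin
  obtain ⟨k, hk⟩ := hin
  have ha1 := ha.1
  have ha2 := ha.2
  simp only [Fin.sum_univ_three] at ha1 ha2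
  have hk0 : a k = 0 := le_antisymm hk (ha1 k)
  -- the side is `k + 1`, the parameter is `a (k + 2)`
  have hsum : a (k + 1) + a (k + 2) = 1 := by
    fin_cases k <;> simp at hk0 ⊢ <;> linarith
  have key : ((f, a) : P.Tri × (Fin 3 → ℝ)) = P.sidePt (f, k + 1) (a (k + 2)) := by
    simp only [sidePt, Prod.mk.injEq, true_and]
    funext i
    have e1 : a (k + 1) = 1 - a (k + 2) := by linarith
    fin_cases k <;> fin_cases i <;> simp at hk0 e1 ⊢ <;> assumption
  have h0 : 0 ≤ a (k + 2) := ha1 _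
  have h1 : a (k + 2) ≤ 1 := by linarith [ha1 (k + 1)]
  rcases eq_or_lt_of_le h0 with h00 | h00
  · left
    refine ⟨(f, k + 1), ?_⟩
    simp only
    rw [key, ← h00]
  rcases eq_or_lt_of_le h1 with h11 | h11
  · left
    refine ⟨(f, k + 1 + 1), ?_⟩
    simp only
    rw [key, h11, sidePt_one]
  right
  exact ⟨(f, k + 1), a (k + 2), ⟨h0, h1⟩, h00, h11, Subtype.ext key⟩

/-- the side and the parameter are determined by an interior point of a side -/
theorem sidePt_inj {h h' : P.Tri × Fin 3} {t t' : ℝ} (h0 : 0 < t) (h1 : t < 1)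
    (ht' : t' ∈ Icc (0 : ℝ) 1) (e : P.sidePt h t = P.sidePt h' t') : h = h' ∧ t = t' := by
  obtain ⟨f, k⟩ := h
  obtain ⟨g, l⟩ := h'
  simp only [sidePt, Prod.mk.injEq] at e
  obtain ⟨rfl, e⟩ := e
  have c0 := congrFun e 0
  have c1 := congrFun e 1
  have c2 := congrFun e 2
  obtain ⟨ha, hb⟩ := ht'
  fin_cases k <;> fin_cases l <;> simp at c0 c1 c2 ⊢ <;> linarith

theorem sidePt_vertex {h h' : P.Tri × Fin 3} {t : ℝ} (ht : t ∈ Icc (0 : ℝ) 1)
    (e : P.sidePt h t = P.sidePt h' 0) : t = 0 ∨ t = 1 := by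
  rcases eq_or_lt_of_le ht.1 with h0 | h0
  · left; exact h0.symm
  rcases eq_or_lt_of_le ht.2 with h1 | h1
  · right; exact h1
  have := sidePt_inj h0 h1 ⟨le_rfl, zero_le_one⟩ e
  linarith [this.2]

theorem glued_vertex {p q : P.Chart} (h : P.Glued p q) (hp : P.VertexC p) : P.VertexC q := by
  obtain ⟨h, t, ht, hp', hq'⟩ := h
  obtain ⟨h', hp⟩ := hp
  rw [hp'] at hp
  rcases sidePt_vertex ht hp with rfl | rfl
  · refine ⟨((P.glue h).1, (P.glue h).2 + 1), ?_⟩
    rw [hq', ← sidePt_one]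
    congr 1
    ring
  · refine ⟨P.glue h, ?_⟩
    rw [hq']
    congr 1
    ring

theorem glued_unique {p q r : P.Chart} (h : P.Glued p q) (h' : P.Glued p r)
    (hp : ¬ P.VertexC p) : q = r := by
  obtain ⟨h, t, ht, hp1, hq1⟩ := h
  obtain ⟨h', t', ht', hp2, hr2⟩ := h'
  have h0 : 0 < t := by
    rcases eq_or_lt_of_le ht.1 with h0 | h0
    · exact absurd ⟨h, by rw [hp1, ← h0]⟩ hp
    · exact h0
  have h1 : t < 1 := by
    rcases eq_or_lt_of_le ht.2 with h0 | h0
    · exact absurd ⟨(h.1, h.2 + 1), by rw [hp1, h0, sidePt_one]⟩ hp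
    · exact h0
  obtain ⟨rfl, rfl⟩ := sidePt_inj h0 h1 ht' (hp1.symm.trans hp2)
  exact Subtype.ext (hq1.trans hr2.symm)

theorem eqvGen_cases {p q : P.Chart} (h : Relation.EqvGen P.Glued p q) :
    p = q ∨ P.Glued p q ∨ (P.VertexC p ∧ P.VertexC q) := by
  induction h with
  | rel x y h => exact Or.inr (Or.inl h)
  | refl x => exact Or.inl rfl
  | symm x y _ ih =>
    rcases ih with rfl | h | ⟨h1, h2⟩
    · exact Or.inl rfl
    · exact Or.inr (Or.inl (glued_symm h))
    · exact Or.inr (Or.inr ⟨h2, h1⟩)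
  | trans x y w _ _ ih1 ih2 =>
    rcases ih1 with rfl | h1 | ⟨h1, h1'⟩
    · exact ih2
    · rcases ih2 with rfl | h2 | ⟨h2, h2'⟩
      · exact Or.inr (Or.inl h1)
      · by_cases hv : P.VertexC y
        · exact Or.inr (Or.inr ⟨glued_vertex (glued_symm h1) hv, glued_vertex h2 hv⟩)
        · exact Or.inl (glued_unique (glued_symm h1) h2 hv)
      · exact Or.inr (Or.inr ⟨glued_vertex (glued_symm h1) h2, h2'⟩)
    · rcases ih2 with rfl | h2 | ⟨h2, h2'⟩
      · exact Or.inr (Or.inr ⟨h1, h1'⟩)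
      · exact Or.inr (Or.inr ⟨h1, glued_vertex h2 h1'⟩)
      · exact Or.inr (Or.inr ⟨h1, h2'⟩)

theorem mk_cases {p q : P.Chart} (h : Quot.mk P.Glued p = Quot.mk P.Glued q) :
    p = q ∨ P.Glued p q ∨ (P.VertexC p ∧ P.VertexC q) :=
  eqvGen_cases (Quot.eqvGen_exact h)

theorem inner_not_side {p : P.Chart} (hp : P.Inner p) {h : P.Tri × Fin 3} {t : ℝ} :
    p.1 ≠ P.sidePt h t := by
  intro e
  have := hp (h.2 + 2)
  rw [e] at this
  obtain ⟨f, k⟩ := h
  simp only [sidePt] at this
  fin_cases k <;> simp at this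

theorem mk_inner {p q : P.Chart} (hp : P.Inner p)
    (h : Quot.mk P.Glued p = Quot.mk P.Glued q) : p = q := by
  rcases mk_cases h with h | h | ⟨h, _⟩
  · exact h
  · obtain ⟨h, t, ht, hp', hq'⟩ := h
    exact absurd hp' (inner_not_side hp)
  · obtain ⟨h, hp'⟩ := h
    exact absurd hp' (inner_not_side hp)

theorem pos_of_sidePt (hz : P.Valid z) {p : P.Chart} (h : P.Tri × Fin 3) {t : ℝ}
    (hp : p.1 = P.sidePt h t) : P.pos z p = P.base z h + t * z h := by
  obtain ⟨f, k⟩ := h
  have hc := hz.closed f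
  simp only [pos, hp, sidePt, base]
  fin_cases k
  · simp
  · simp; ring
  · simp
    linear_combination (- (t : ℂ)) * hc

theorem pos_sidePt (hz : P.Valid z) (h : P.Tri × Fin 3) {t : ℝ} (ht : t ∈ Icc (0 : ℝ) 1) :
    P.pos z (P.sideC h t ht) = P.base z h + t * z h :=
  pos_of_sidePt hz h rfl

theorem pos_glued (hz : P.Valid z) {p q : P.Chart} (h : P.Tri × Fin 3) {t : ℝ}
    (hp : p.1 = P.sidePt h t) (hq : q.1 = P.sidePt (P.glue h) (1 - t)) :
    P.pos z q = P.pos z p + (P.base z (P.glue h) - z h - P.base z h) := by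
  rw [pos_of_sidePt hz h hp, pos_of_sidePt hz (P.glue h) hq, hz.glued h]
  push_cast
  ring

/-- description of the closed triangles in the plane -/
theorem exists_chart (f : P.Tri) {x : ℂ} {b c : ℝ} (hb : 0 ≤ b) (hc : 0 ≤ c) (hbc : b + c ≤ 1)
    (hx : x = b * z (f, 0) + c * (z (f, 0) + z (f, 1))) :
    ∃ p : P.Chart, p.1.1 = f ∧ P.pos z p = x ∧ p.1.2 0 = 1 - b - c ∧ p.1.2 1 = b ∧
      p.1.2 2 = c := by
  refine ⟨⟨(f, ![1 - b - c, b, c]), ?_⟩, rfl, ?_, rfl, rfl, rfl⟩
  · refine ⟨fun i => ?_, ?_⟩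
    · fin_cases i
      · simp; linarith
      · simpa using hb
      · simpa using hc
    · simp only [Fin.sum_univ_three]
      simp
      ring
  · rw [hx]; rfl

/-- the closed triangle `f` in the plane -/
def tri (P : Pattern) (z : P.Tri × Fin 3 → ℂ) (f : P.Tri) : Set ℂ :=
  {x | ∃ p : P.Chart, p.1.1 = f ∧ P.pos z p = x}

theorem tri_eq (f : P.Tri) : P.tri z f = convexHull ℝ {0, z (f, 0), z (f, 0) + z (f, 1)} := by
  apply Subset.antisymm
  · rintro x ⟨p, rfl, rfl⟩
    have h1 := p.2.1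
    have h2 := p.2.2
    simp only [Fin.sum_univ_three] at h2
    have hcv := convex_convexHull ℝ ({0, z (p.1.1, 0), z (p.1.1, 0) + z (p.1.1, 1)} : Set ℂ)
    have hsub := subset_convexHull ℝ ({0, z (p.1.1, 0), z (p.1.1, 0) + z (p.1.1, 1)} : Set ℂ)
    have := hcv.sum_mem (t := Finset.univ) (w := p.1.2)
      (z := ![0, z (p.1.1, 0), z (p.1.1, 0) + z (p.1.1, 1)]) (fun i _ => h1 i)
      (by simpa only [Fin.sum_univ_three] using h2) (by
        intro i _
        fin_cases i
        · exact hsub (by simp)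
        · exact hsub (by simp)
        · exact hsub (by simp))
    simp only [Fin.sum_univ_three] at this
    simpa [pos, mul_add] using this
  · apply convexHull_min
    · intro x hx
      simp only [mem_insert_iff, mem_singleton_iff] at hx
      rcases hx with rfl | rfl | rfl
      · obtain ⟨p, h1, h2, _⟩ := exists_chart (z := z) f (b := 0) (c := 0) (x := 0) le_rfl le_rfl
          (by norm_num) (by simp)
        exact ⟨p, h1, h2⟩
      · obtain ⟨p, h1, h2, _⟩ := exists_chart (z := z) f (b := 1) (c := 0) (x := z (f, 0))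
          zero_le_one le_rfl (by norm_num) (by simp)
        exact ⟨p, h1, h2⟩
      · obtain ⟨p, h1, h2, _⟩ := exists_chart (z := z) f (b := 0) (c := 1)
          (x := z (f, 0) + z (f, 1)) le_rfl zero_le_one (by norm_num) (by simp)
        exact ⟨p, h1, h2⟩
    · rintro x ⟨p, hp, rfl⟩ y ⟨q, hq, rfl⟩ a b ha hb hab
      have p1 := p.2.1
      have p2 := p.2.2
      have q1 := q.2.1
      have q2 := q.2.2
      simp only [Fin.sum_univ_three] at p2 q2
      have k0 := mul_nonneg ha (p1 0)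
      have k1 := mul_nonneg ha (p1 1)
      have k2 := mul_nonneg ha (p1 2)
      have l0 := mul_nonneg hb (q1 0)
      have l1 := mul_nonneg hb (q1 1)
      have l2 := mul_nonneg hb (q1 2)
      obtain ⟨r, h1, h2, _⟩ := exists_chart (z := z) f (b := a * p.1.2 1 + b * q.1.2 1)
        (c := a * p.1.2 2 + b * q.1.2 2) (x := a • P.pos z p + b • P.pos z q)
        (by linarith) (by linarith) (by nlinarith) (by
          simp only [pos, hp, hq, Complex.real_smul]
          push_cast
          ring)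
      exact ⟨r, h1, h2⟩

theorem tri_compact (f : P.Tri) : IsCompact (P.tri z f) := by
  rw [tri_eq]
  exact (Set.toFinite _).isCompact_convexHull ℝ

theorem tri_convex (f : P.Tri) : Convex ℝ (P.tri z f) := by
  rw [tri_eq]
  exact convex_convexHull ℝ _

/-- a path inside one triangle is straight -/
theorem straight_of_tri {f : P.Tri} {γ : ℝ → P.Pt} {a w : ℂ}
    (h : ∀ t ∈ Icc (0 : ℝ) 1, ∃ p : P.Chart, p.1.1 = f ∧ Quot.mk P.Glued p = γ t ∧
      P.pos z p = a + t * w) : P.IsStraight z γ w := by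
  refine ⟨1, fun k => (k : ℝ), Nat.mono_cast, by simp, by simp, ?_⟩
  intro k hk
  obtain rfl : k = 0 := by omega
  refine ⟨f, a, fun t ht => h t ?_⟩
  simpa using ht

/-- the sides are straight paths -/
theorem straight_side (hz : P.Valid z) (h : P.Tri × Fin 3) {γ : ℝ → P.Pt}
    (hγ : ∀ (t : ℝ) (ht : t ∈ Icc (0 : ℝ) 1), γ t = Quot.mk P.Glued (P.sideC h t ht)) :
    P.IsStraight z γ (z h) :=
  straight_of_tri (f := h.1) (a := P.base z h) fun t ht =>
    ⟨P.sideC h t ht, rfl, (hγ t ht).symm, pos_sidePt hz h ht⟩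

/-- the shear changes the holonomies linearly -/
theorem straight_shear {s : ℝ} {γ : ℝ → P.Pt} {w : ℂ} :
    P.IsStraight (shear s z) γ w ↔ P.IsStraight z γ ⟨w.re - s * w.im, w.im⟩ := by
  have key : ∀ p : P.Chart, P.pos (shear s z) p
      = ⟨(P.pos z p).re + s * (P.pos z p).im, (P.pos z p).im⟩ := by
    intro p
    apply Complex.ext
    · simp [pos, shear]
      ring
    · simp [pos, shear]
  constructor
  · rintro ⟨m, τ, h1, h2, h3, h⟩
    refine ⟨m, τ, h1, h2, h3, fun k hk => ?_⟩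
    obtain ⟨f, a, hf⟩ := h k hk
    refine ⟨f, ⟨a.re - s * a.im, a.im⟩, fun t ht => ?_⟩
    obtain ⟨p, hp1, hp2, hp3⟩ := hf t ht
    refine ⟨p, hp1, hp2, ?_⟩
    rw [key] at hp3
    have hre := congrArg Complex.re hp3
    have him := congrArg Complex.im hp3
    simp at hre him
    apply Complex.ext
    · simp
      linear_combination hre - s * him
    · simp
      exact him
  · rintro ⟨m, τ, h1, h2, h3, h⟩
    refine ⟨m, τ, h1, h2, h3, fun k hk => ?_⟩
    obtain ⟨f, a, hf⟩ := h k hk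
    refine ⟨f, ⟨a.re + s * a.im, a.im⟩, fun t ht => ?_⟩
    obtain ⟨p, hp1, hp2, hp3⟩ := hf t ht
    refine ⟨p, hp1, hp2, ?_⟩
    rw [key, hp3]
    apply Complex.ext
    · simp
      ring
    · simp

end Pattern

end Pool.Agent.H1.Horo
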