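import Pool.Agent.H1.Horo.Pts

/-!
# The glued surface is connected and its vertices are zeros

PROOFS.
* `connected`: inside one piece: `a1 - a2 - a3 - n1 - n2`, `n1 - n3`, `a1 - b2`, `b1 - b2 - b3 - b4`; from
  the piece `i` to the piece `i + 1` through `(n2, 1)`; `Fin n` is generated by `+ 1`.  The relation is symmetric
  (`glue_glue`).
* `zeros`: `turn (f, k) = glue (f, k - 1)`.  Table: for every corner `(i, t, k)`, the numbers of turns to
  reach two corners containing the direction of the positive real axis, e.g. the first line says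
  `turn^[5] ((i,a1),0) = ((i,b4),2)` and `turn^[13] ((i,a1),0) = ((i-1,n2),1)`.
  a1,0: 5 (i,b4,2), 13 (i-1,n2,1);  a1,1: 5 (i-1,n2,1), 11 (i-1,b4,2);  a1,2: 1 (i,b2,2), 7 (i,a2,2)
  a2,0: 4 (i,b4,2), 12 (i-1,n2,1);  a2,1: 2 (i,b2,2), 8 (i,a2,2);       a2,2: 0 (i,a2,2), 7 (i,b2,2)
  a3,0: 6 (i,b2,2), 12 (i,a2,2);    a3,1: 3 (i,b2,2), 9 (i,a2,2);       a3,2: 2 (i-1,n2,1), 8 (i-1,b4,2)
  n1,0: 5 (i,b2,2), 11 (i,a2,2);    n1,1: 3 (i-1,n2,1), 9 (i-1,b4,2);   n1,2: 0 (i,n1,2), 3 (i+1,n1,2)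
  n2,0: 4 (i-1,n2,1), 10 (i-1,b4,2); n2,1: 0 (i,n2,1), 6 (i,b4,2);      n2,2: 2 (i+1,n1,2), 5 (i+2,n1,2)
  n3,0: 1 (i-1,n2,1), 7 (i-1,b4,2); n3,1: 4 (i,b2,2), 10 (i,a2,2);      n3,2: 1 (i,n1,2), 4 (i+1,n1,2)
  b1,0: 7 (i-1,n2,1), 13 (i-1,b4,2); b1,1: 3 (i,b4,2), 11 (i-1,n2,1);   b1,2: 1 (i,a2,2), 8 (i,b2,2)
  b2,0: 6 (i-1,n2,1), 12 (i-1,b4,2); b2,1: 2 (i,a2,2), 9 (i,b2,2);      b2,2: 0 (i,b2,2), 6 (i,a2,2)
  b3,0: 5 (i,a2,2), 12 (i,b2,2);    b3,1: 3 (i,a2,2), 10 (i,b2,2);      b3,2: 1 (i,b4,2), 9 (i-1,n2,1)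
  b4,0: 4 (i,a2,2), 11 (i,b2,2);    b4,1: 2 (i,b4,2), 10 (i-1,n2,1);    b4,2: 0 (i,b4,2), 8 (i-1,n2,1)
  (for `n1,2`, `n2,2`, `n3,2` the two corners differ because `i + 1 ≠ i`, as `n ≥ 2`).
  `PointsRight` of `(a2,2), (b2,2), (n1,2), (b4,2)` by the second alternative, of `(n2,1)` by the first one.
-/

namespace Pool.Agent.H1.Horo

open Set MeasureTheory

/-- the sign conditions used to find the corners containing the direction of the positive real axis -/
structure RightSigns {n : ℕ} (D : Par n) : Prop where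
  ell_re : 0 < D.ell.re
  ell_im : D.ell.im = 0
  z_im : ∀ i, 0 < (D.zz i).im
  ρ_im : ∀ i e, 0 < (D.rho i e).im
  C_im : ∀ i e, 0 < (D.C i e).im

/-- adjacency of triangles -/
def Adj (n : ℕ) [NeZero n] (f g : (pat n).Tri) : Prop := ∃ k l, (pat n).glue (f, k) = (g, l)

theorem Adj.symm {n : ℕ} [NeZero n] {f g : (pat n).Tri} (h : Adj n f g) : Adj n g f := by
  obtain ⟨k, l, h⟩ := h
  exact ⟨l, k, by rw [← h, (pat n).glue_glue]⟩

theorem adj_reach_symm {n : ℕ} [NeZero n] {f g : (pat n).Tri}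
    (h : Relation.ReflTransGen (Adj n) f g) : Relation.ReflTransGen (Adj n) g f := by
  induction h with
  | refl => exact Relation.ReflTransGen.refl
  | tail _ h2 ih => exact Relation.ReflTransGen.head h2.symm ih

/-- everything in the piece `i` is reached from `(i, a1)` -/
theorem reach_piece (n : ℕ) [NeZero n] (i : Fin n) (t : TT) :
    Relation.ReflTransGen (Adj n) (i, TT.a1) (i, t) := by
  have e1 : Adj n (i, TT.a1) (i, TT.a2) := ⟨2, 0, rfl⟩
  have e2 : Adj n (i, TT.a2) (i, TT.a3) := ⟨1, 0, rfl⟩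
  have e3 : Adj n (i, TT.a3) (i, TT.n1) := ⟨2, 0, rfl⟩
  have e4 : Adj n (i, TT.a1) (i, TT.n2) := ⟨0, 0, rfl⟩
  have e5 : Adj n (i, TT.n1) (i, TT.n3) := ⟨2, 1, rfl⟩
  have e6 : Adj n (i, TT.a1) (i, TT.b2) := ⟨1, 2, rfl⟩
  have e7 : Adj n (i, TT.b2) (i, TT.b1) := ⟨0, 2, rfl⟩
  have e8 : Adj n (i, TT.b2) (i, TT.b3) := ⟨1, 0, rfl⟩
  have e9 : Adj n (i, TT.b3) (i, TT.b4) := ⟨2, 0, rfl⟩
  have r0 : Relation.ReflTransGen (Adj n) (i, TT.a1) (i, TT.a1) := Relation.ReflTransGen.refl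
  have r1 := r0.tail e1
  have r2 := r1.tail e2
  have r3 := r2.tail e3
  have r4 := r0.tail e4
  have r5 := r3.tail e5
  have r6 := r0.tail e6
  have r7 := r6.tail e7
  have r8 := r6.tail e8
  have r9 := r8.tail e9
  cases t
  · exact r0
  · exact r1
  · exact r2
  · exact r3
  · exact r4
  · exact r5
  · exact r7
  · exact r6
  · exact r8
  · exact r9

theorem reach_next (n : ℕ) [NeZero n] (i : Fin n) :
    Relation.ReflTransGen (Adj n) (i, TT.a1) (i + 1, TT.a1) := by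
  have e : Adj n (i, TT.n2) (i + 1, TT.n3) := ⟨1, 2, rfl⟩
  exact ((reach_piece n i TT.n2).tail e).trans (adj_reach_symm (reach_piece n (i + 1) TT.n3))

theorem reach_nat (n : ℕ) [NeZero n] (m : ℕ) :
    Relation.ReflTransGen (Adj n) ((0 : Fin n), TT.a1) (Fin.ofNat n m, TT.a1) := by
  induction m with
  | zero => exact Relation.ReflTransGen.refl
  | succ m ih =>
    have h : Fin.ofNat n (m + 1) = Fin.ofNat n m + 1 := by
      apply Fin.ext
      simp [Fin.val_add, Fin.ofNat]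
    rw [h]
    exact ih.trans (reach_next n _)

theorem connected (n : ℕ) [NeZero n] : (pat n).Connected := by
  have h0 : ∀ f : (pat n).Tri, Relation.ReflTransGen (Adj n) ((0 : Fin n), TT.a1) f := by
    rintro ⟨i, t⟩
    have h1 := reach_nat n i.val
    have h2 : Fin.ofNat n i.val = i := by
      apply Fin.ext
      simp [Fin.ofNat, Nat.mod_eq_of_lt i.isLt]
    rw [h2] at h1
    exact h1.trans (reach_piece n i t)
  intro f g
  exact (adj_reach_symm (h0 f)).trans (h0 g)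

theorem good_of_turn {n : ℕ} [NeZero n] {z : (pat n).Tri × Fin 3 → ℂ}
    {c c' : (pat n).Tri × Fin 3} (h : (pat n).turn c = c')
    (h' : 2 ≤ ((pat n).rightCorners z c').encard) : 2 ≤ ((pat n).rightCorners z c).encard := by
  refine h'.trans (Set.encard_le_encard ?_)
  rintro c'' ⟨⟨m, hm⟩, hr⟩
  exact ⟨⟨m + 1, by rw [Function.iterate_succ_apply, h, hm]⟩, hr⟩

theorem good_of_two {n : ℕ} [NeZero n] {z : (pat n).Tri × Fin 3 → ℂ}
    {c c' : (pat n).Tri × Fin 3} {m : ℕ} (h : (pat n).turn^[m] c = c') (hne : c ≠ c')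
    (h1 : (pat n).PointsRight z c) (h2 : (pat n).PointsRight z c') :
    2 ≤ ((pat n).rightCorners z c).encard := by
  rw [← Set.encard_pair hne]
  refine Set.encard_le_encard ?_
  intro d hd
  rcases hd with rfl | hd
  · exact ⟨⟨0, rfl⟩, h1⟩
  · rw [Set.mem_singleton_iff] at hd
    subst hd
    exact ⟨⟨m, h⟩, h2⟩

theorem turn3 {n : ℕ} [NeZero n] (i : Fin n) :
    (pat n).turn^[3] ((i, TT.n1), 2) = ((i + 1, TT.n1), 2) := by
  have h1 : (pat n).turn ((i, TT.n1), 2) = ((i, TT.n2), 2) := rfl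
  have h2 : (pat n).turn ((i, TT.n2), 2) = ((i + 1, TT.n3), 2) := rfl
  have h3 : (pat n).turn ((i + 1, TT.n3), 2) = ((i + 1, TT.n1), 2) := rfl
  exact (congrArg (fun c => (pat n).turn ((pat n).turn c)) h1).trans
    ((congrArg (pat n).turn h2).trans h3)

theorem fin_succ_ne {n : ℕ} [NeZero n] (hn : 2 ≤ n) (i : Fin n) : i ≠ i + 1 := by
  intro h
  have h1 : (1 : Fin n) = 0 := by
    have h2 : i + 1 = i + 0 := by rw [add_zero]; exact h.symm
    exact add_left_cancel h2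
  have h3 := congrArg Fin.val h1
  rw [Fin.val_one', Fin.val_zero, Nat.mod_eq_of_lt (by omega)] at h3
  exact one_ne_zero h3

theorem zeros {n : ℕ} [NeZero n] (hn : 2 ≤ n) {D : Par n} (hD : RightSigns D) :
    ∀ c, 2 ≤ ((pat n).rightCorners D.edge c).encard := by
  have p1 : ∀ i : Fin n, (pat n).PointsRight D.edge ((i, TT.a2), 2) := fun i =>
    Or.inr ⟨by
      change (- D.zz i).im < 0
      rw [Complex.neg_im]
      linarith [hD.z_im i], by
      change (- D.C i true).im < 0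
      rw [Complex.neg_im]
      linarith [hD.C_im i true]⟩
  have p2 : ∀ i : Fin n, (pat n).PointsRight D.edge ((i, TT.b2), 2) := fun i =>
    Or.inr ⟨by
      change (- D.zz i).im < 0
      rw [Complex.neg_im]
      linarith [hD.z_im i], by
      change (- D.C i false).im < 0
      rw [Complex.neg_im]
      linarith [hD.C_im i false]⟩
  have p3 : ∀ i : Fin n, (pat n).PointsRight D.edge ((i, TT.n1), 2) := fun i =>
    Or.inr ⟨by
      change (-(D.rho i true + D.ell)).im < 0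
      rw [Complex.neg_im, Complex.add_im]
      linarith [hD.ρ_im i true, hD.ell_im], by
      change (D.ell - D.C i true).im < 0
      rw [Complex.sub_im]
      linarith [hD.C_im i true, hD.ell_im]⟩
  have p4 : ∀ i : Fin n, (pat n).PointsRight D.edge ((i, TT.b4), 2) := fun i =>
    Or.inr ⟨by
      change (- D.rho i false).im < 0
      rw [Complex.neg_im]
      linarith [hD.ρ_im i false], by
      change (- D.C i false).im < 0
      rw [Complex.neg_im]
      linarith [hD.C_im i false]⟩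
  have p5 : ∀ i : Fin n, (pat n).PointsRight D.edge ((i, TT.n2), 1) := fun i =>
    Or.inl ⟨hD.ell_re, hD.ell_im⟩
  have g_a2_2 : ∀ i : Fin n, 2 ≤ ((pat n).rightCorners D.edge ((i, TT.a2), 2)).encard := fun i =>
    good_of_two (m := 7) (c' := ((i, TT.b2), 2)) rfl
      (fun h => TT.noConfusion (congrArg (fun c : (Fin n × TT) × Fin 3 => c.1.2) h)) (p1 i) (p2 i)
  have g_b4_2 : ∀ i : Fin n, 2 ≤ ((pat n).rightCorners D.edge ((i, TT.b4), 2)).encard := fun i =>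
    good_of_two (m := 8) (c' := ((i - 1, TT.n2), 1)) rfl
      (fun h => TT.noConfusion (congrArg (fun c : (Fin n × TT) × Fin 3 => c.1.2) h)) (p4 i)
      (p5 (i - 1))
  have g_n1_2 : ∀ i : Fin n, 2 ≤ ((pat n).rightCorners D.edge ((i, TT.n1), 2)).encard := fun i =>
    good_of_two (m := 3) (c' := ((i + 1, TT.n1), 2)) (turn3 i)
      (fun h => fin_succ_ne hn i (congrArg (fun c : (Fin n × TT) × Fin 3 => c.1.1) h)) (p3 i)
      (p3 (i + 1))
  have g_b1_2 : ∀ i : Fin n, 2 ≤ ((pat n).rightCorners D.edge ((i, TT.b1), 2)).encard := fun i =>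
    good_of_turn rfl (g_a2_2 _)
  have g_b2_1 : ∀ i : Fin n, 2 ≤ ((pat n).rightCorners D.edge ((i, TT.b2), 1)).encard := fun i =>
    good_of_turn rfl (g_b1_2 _)
  have g_b3_1 : ∀ i : Fin n, 2 ≤ ((pat n).rightCorners D.edge ((i, TT.b3), 1)).encard := fun i =>
    good_of_turn rfl (g_b2_1 _)
  have g_b4_0 : ∀ i : Fin n, 2 ≤ ((pat n).rightCorners D.edge ((i, TT.b4), 0)).encard := fun i =>
    good_of_turn rfl (g_b3_1 _)
  have g_b3_0 : ∀ i : Fin n, 2 ≤ ((pat n).rightCorners D.edge ((i, TT.b3), 0)).encard := fun i =>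
    good_of_turn rfl (g_b4_0 _)
  have g_b2_2 : ∀ i : Fin n, 2 ≤ ((pat n).rightCorners D.edge ((i, TT.b2), 2)).encard := fun i =>
    good_of_turn rfl (g_b3_0 _)
  have g_a1_2 : ∀ i : Fin n, 2 ≤ ((pat n).rightCorners D.edge ((i, TT.a1), 2)).encard := fun i =>
    good_of_turn rfl (g_b2_2 _)
  have g_a2_1 : ∀ i : Fin n, 2 ≤ ((pat n).rightCorners D.edge ((i, TT.a2), 1)).encard := fun i =>
    good_of_turn rfl (g_a1_2 _)
  have g_a3_1 : ∀ i : Fin n, 2 ≤ ((pat n).rightCorners D.edge ((i, TT.a3), 1)).encard := fun i =>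
    good_of_turn rfl (g_a2_1 _)
  have g_n3_1 : ∀ i : Fin n, 2 ≤ ((pat n).rightCorners D.edge ((i, TT.n3), 1)).encard := fun i =>
    good_of_turn rfl (g_a3_1 _)
  have g_n1_0 : ∀ i : Fin n, 2 ≤ ((pat n).rightCorners D.edge ((i, TT.n1), 0)).encard := fun i =>
    good_of_turn rfl (g_n3_1 _)
  have g_a3_0 : ∀ i : Fin n, 2 ≤ ((pat n).rightCorners D.edge ((i, TT.a3), 0)).encard := fun i =>
    good_of_turn rfl (g_n1_0 _)
  have g_b3_2 : ∀ i : Fin n, 2 ≤ ((pat n).rightCorners D.edge ((i, TT.b3), 2)).encard := fun i =>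
    good_of_turn rfl (g_b4_2 _)
  have g_b4_1 : ∀ i : Fin n, 2 ≤ ((pat n).rightCorners D.edge ((i, TT.b4), 1)).encard := fun i =>
    good_of_turn rfl (g_b3_2 _)
  have g_b1_1 : ∀ i : Fin n, 2 ≤ ((pat n).rightCorners D.edge ((i, TT.b1), 1)).encard := fun i =>
    good_of_turn rfl (g_b4_1 _)
  have g_a2_0 : ∀ i : Fin n, 2 ≤ ((pat n).rightCorners D.edge ((i, TT.a2), 0)).encard := fun i =>
    good_of_turn rfl (g_b1_1 _)
  have g_a1_0 : ∀ i : Fin n, 2 ≤ ((pat n).rightCorners D.edge ((i, TT.a1), 0)).encard := fun i =>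
    good_of_turn rfl (g_a2_0 _)
  have g_n2_1 : ∀ i : Fin n, 2 ≤ ((pat n).rightCorners D.edge ((i, TT.n2), 1)).encard := fun i =>
    good_of_turn rfl (g_a1_0 _)
  have g_n3_0 : ∀ i : Fin n, 2 ≤ ((pat n).rightCorners D.edge ((i, TT.n3), 0)).encard := fun i =>
    good_of_turn rfl (g_n2_1 _)
  have g_a3_2 : ∀ i : Fin n, 2 ≤ ((pat n).rightCorners D.edge ((i, TT.a3), 2)).encard := fun i =>
    good_of_turn rfl (g_n3_0 _)
  have g_n1_1 : ∀ i : Fin n, 2 ≤ ((pat n).rightCorners D.edge ((i, TT.n1), 1)).encard := fun i =>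
    good_of_turn rfl (g_a3_2 _)
  have g_n2_0 : ∀ i : Fin n, 2 ≤ ((pat n).rightCorners D.edge ((i, TT.n2), 0)).encard := fun i =>
    good_of_turn rfl (g_n1_1 _)
  have g_a1_1 : ∀ i : Fin n, 2 ≤ ((pat n).rightCorners D.edge ((i, TT.a1), 1)).encard := fun i =>
    good_of_turn rfl (g_n2_0 _)
  have g_b2_0 : ∀ i : Fin n, 2 ≤ ((pat n).rightCorners D.edge ((i, TT.b2), 0)).encard := fun i =>
    good_of_turn rfl (g_a1_1 _)
  have g_b1_0 : ∀ i : Fin n, 2 ≤ ((pat n).rightCorners D.edge ((i, TT.b1), 0)).encard := fun i =>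
    good_of_turn rfl (g_b2_0 _)
  have g_n3_2 : ∀ i : Fin n, 2 ≤ ((pat n).rightCorners D.edge ((i, TT.n3), 2)).encard := fun i =>
    good_of_turn rfl (g_n1_2 _)
  have g_n2_2 : ∀ i : Fin n, 2 ≤ ((pat n).rightCorners D.edge ((i, TT.n2), 2)).encard := fun i =>
    good_of_turn rfl (g_n3_2 _)
  rintro ⟨⟨i, t⟩, k⟩
  cases t <;> fin_cases k
  · exact g_a1_0 i
  · exact g_a1_1 i
  · exact g_a1_2 i
  · exact g_a2_0 i
  · exact g_a2_1 i
  · exact g_a2_2 i
  · exact g_a3_0 i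
  · exact g_a3_1 i
  · exact g_a3_2 i
  · exact g_n1_0 i
  · exact g_n1_1 i
  · exact g_n1_2 i
  · exact g_n2_0 i
  · exact g_n2_1 i
  · exact g_n2_2 i
  · exact g_n3_0 i
  · exact g_n3_1 i
  · exact g_n3_2 i
  · exact g_b1_0 i
  · exact g_b1_1 i
  · exact g_b1_2 i
  · exact g_b2_0 i
  · exact g_b2_1 i
  · exact g_b2_2 i
  · exact g_b3_0 i
  · exact g_b3_1 i
  · exact g_b3_2 i
  · exact g_b4_0 i
  · exact g_b4_1 i
  · exact g_b4_2 i

end Pool.Agent.H1.Horo
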