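import Pool.Agent.H1.Horo.CtRec

/-!
# The weight at the root

Let `M = K^n`, `|l| ≤ 5 K^2`, `t = ‖Fv n l w‖`.  Then `|w.2| ≤ t / M` and
`|w.1| = |M X - l M Y| ≤ (1 + 5 K^2) M t`, where `(X, Y) = Fv n l w`.

PROOF.
* Affine vectors (`affine_root`): `|w.1|` is an integer.  If `w.1 = 0`, D2 gives `C2 ≤ |w.2| ≤ t / M`.
  Otherwise `(|w.1| + 1)^6 ≤ 64 |w.1|^6`, so `C2 ≤ (t / M) 64 (1 + 5 K^2)^6 M^6 t^6`, so
  `t ≥ c M^(-5/7)`.  In both cases (`t ≤ 1`, `M ≥ 1`) `t ≥ c M^(-5/7)`.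
* Lattice vectors (`lattice_root`): if `w.1 = 0` then `1 ≤ |w.2| ≤ t / M`; otherwise D1 gives
  `C1 ≤ |w.2| |w.1|^2 ≤ (1 + 5 K^2)^2 M t^3`, so `t ≥ c M^(-1/3)`.
* `root_W`: lattice: at most two primitive vectors of norm `≤ rh` (`prim_unique`), each with weight
  `≤ (c M^(-1/3))^(-5/4) = c' M^(5/12)`.
  Affine, by `affine_line` with `R = rh`: at most one with weight `≤ (c M^(-5/7))^(-3/4) = c' M^(15/28)`;
  or they are `m0 + j n`, `|j| ≤ 2 rh / s`, `s = ‖Fv n‖ ≤ 2 rh`, where `m0` has the minimal norm, so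
  for `j ≠ 0` the norm is at least `|j| s - ‖m0‖` and at least `‖m0‖`, hence at least `|j| s / 2`:
  the sum of the weights is at most `c' M^(15/28) + 2 ∑_{1 ≤ j ≤ 2 rh / s} (j s / 2)^(-3/4) ≤
  c' M^(15/28) + 2 (s/2)^(-3/4) 4 (2 rh / s)^(1/4) ≤ c' M^(15/28) + 16 / s`, and `s ≥ c M^(-1/3)`.
-/

namespace Pool.Agent.H1.Horo

open Set MeasureTheory ENNReal

variable {α y1 : ℝ}

theorem one_le_KK : (1 : ℝ) ≤ KK := by
  unfold KK
  exact_mod_cast Nat.one_le_two_pow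

/-- bounds for a vector in terms of its sheared and renormalised image -/
theorem Fv_bounds (n : ℕ) {l : ℤ} (hl : |l| ≤ 5 * (KK : ℤ) ^ 2) (w : ℝ × ℝ) :
    |w.2| ≤ ‖Fv n l w‖ / (KK : ℝ) ^ n ∧
      |w.1| ≤ (1 + 5 * (KK : ℝ) ^ 2) * ((KK : ℝ) ^ n * ‖Fv n l w‖) := by
  have hM : (0 : ℝ) < (KK : ℝ) ^ n := pow_pos KK_pos n
  have h1 : |(Fv n l w).1| ≤ ‖Fv n l w‖ := norm_fst_le (Fv n l w)
  have h2 : |(Fv n l w).2| ≤ ‖Fv n l w‖ := norm_snd_le (Fv n l w)
  have h2' : |w.2| * (KK : ℝ) ^ n ≤ ‖Fv n l w‖ := by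
    have : (Fv n l w).2 = (KK : ℝ) ^ n * w.2 := rfl
    rw [this, abs_mul, abs_of_pos hM, mul_comm] at h2
    exact h2
  refine ⟨by rw [le_div_iff₀ hM]; exact h2', ?_⟩
  have hp2 : (KK : ℝ) ^ (2 * n) = (KK : ℝ) ^ n * (KK : ℝ) ^ n := by rw [two_mul, pow_add]
  have h3 : w.1 = (KK : ℝ) ^ n * (Fv n l w).1 - (l : ℝ) * (KK : ℝ) ^ n * ((KK : ℝ) ^ n * w.2) := by
    simp only [Fv]
    rw [hp2]
    field_simp
    ring
  have hl' : |(l : ℝ)| ≤ 5 * (KK : ℝ) ^ 2 := by exact_mod_cast hl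
  rw [h3]
  refine (abs_sub _ _).trans ?_
  rw [abs_mul, abs_mul, abs_mul, abs_mul, abs_of_pos hM]
  have h4 : (KK : ℝ) ^ n * |(Fv n l w).1| ≤ (KK : ℝ) ^ n * ‖Fv n l w‖ :=
    mul_le_mul_of_nonneg_left h1 hM.le
  have h5 : |(l : ℝ)| * (KK : ℝ) ^ n * ((KK : ℝ) ^ n * |w.2|) ≤
      5 * (KK : ℝ) ^ 2 * ((KK : ℝ) ^ n * ‖Fv n l w‖) := by
    rw [mul_assoc]
    refine mul_le_mul hl' ?_ (by positivity) (by positivity)
    refine mul_le_mul_of_nonneg_left ?_ hM.le
    rw [mul_comm]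
    exact h2'
  have h6 : (1 + 5 * (KK : ℝ) ^ 2) * ((KK : ℝ) ^ n * ‖Fv n l w‖) =
      (KK : ℝ) ^ n * ‖Fv n l w‖ + 5 * (KK : ℝ) ^ 2 * ((KK : ℝ) ^ n * ‖Fv n l w‖) := by ring
  rw [h6]
  exact add_le_add h4 h5

theorem affine_root (hd : Dioph α y1) : ∃ c > 0, ∀ (n : ℕ) (l : ℤ), |l| ≤ 5 * (KK : ℤ) ^ 2 →
    ∀ m : ℤ × ℤ, c * ((KK : ℝ) ^ n) ^ (-(5 / 7) : ℝ) ≤ ‖Fv n l (aff α y1 m)‖ := by
  obtain ⟨C, hC, hD⟩ := hd.d2
  set A : ℝ := 1 + 5 * (KK : ℝ) ^ 2 with hA
  have hA1 : 1 ≤ A := by rw [hA]; have : (0 : ℝ) ≤ 5 * (KK : ℝ) ^ 2 := by positivity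
                         linarith
  have hA0 : 0 < A := by linarith
  have hB1 : 1 ≤ 64 * A ^ 6 := by nlinarith [one_le_pow₀ hA1 (n := 6)]
  have hB0 : 0 < 64 * A ^ 6 := by linarith
  refine ⟨min 1 (C / (64 * A ^ 6)), lt_min one_pos (div_pos hC hB0), ?_⟩
  intro n l hl m
  set c := min 1 (C / (64 * A ^ 6)) with hc
  have hc0 : 0 < c := lt_min one_pos (div_pos hC hB0)
  have hc1 : c ≤ 1 := min_le_left _ _
  have hc2 : c ≤ C / (64 * A ^ 6) := min_le_right _ _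
  have hc3 : c ≤ C := hc2.trans (div_le_self hC.le hB1)
  obtain ⟨h1, h2⟩ := Fv_bounds n hl (aff α y1 m)
  set M := (KK : ℝ) ^ n with hM
  have hM1 : 1 ≤ M := one_le_pow₀ one_le_KK
  have hM0 : 0 < M := by linarith
  set t := ‖Fv n l (aff α y1 m)‖ with ht
  have ht0 : 0 < t := aff_ne hd m n l
  have hMp : M ^ (-(5 / 7) : ℝ) ≤ 1 := Real.rpow_le_one_of_one_le_of_nonpos hM1 (by norm_num)
  have hMp0 : 0 < M ^ (-(5 / 7) : ℝ) := Real.rpow_pos_of_pos hM0 _
  have hD' := hD m.1 m.2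
  have h1' : |y1 + (m.1 : ℝ) * α + m.2| ≤ t / M := h1
  have h2' : |(m.1 : ℝ)| ≤ A * (M * t) := h2
  by_cases hm : m.1 = 0
  · have h3 : C ≤ t := by
      rw [hm] at hD' h1'
      have h4 : C ≤ |y1 + ((0 : ℤ) : ℝ) * α + m.2| := by
        refine hD'.trans (le_of_eq ?_)
        simp
      exact h4.trans (h1'.trans (div_le_self ht0.le hM1))
    calc c * M ^ (-(5 / 7) : ℝ) ≤ c * 1 := mul_le_mul_of_nonneg_left hMp hc0.le
      _ = c := mul_one c
      _ ≤ C := hc3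
      _ ≤ t := h3
  · have h3 : (1 : ℝ) ≤ |(m.1 : ℝ)| := by
      have : 1 ≤ |m.1| := Int.one_le_abs hm
      exact_mod_cast this
    have h4 : C ≤ 64 * A ^ 6 * (M ^ 5 * t ^ 7) := by
      have h5 : |(m.1 : ℝ)| + 1 ≤ 2 * (A * (M * t)) := by linarith
      have h6 : (|(m.1 : ℝ)| + 1) ^ 6 ≤ (2 * (A * (M * t))) ^ 6 :=
        pow_le_pow_left₀ (by positivity) h5 6
      have h7 : C ≤ t / M * (2 * (A * (M * t))) ^ 6 :=
        hD'.trans (mul_le_mul h1' h6 (by positivity) (by positivity))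
      refine h7.trans (le_of_eq ?_)
      field_simp
      ring
    have h8 : (c * M ^ (-(5 / 7) : ℝ)) ^ 7 ≤ t ^ 7 := by
      have e1 : (M ^ (-(5 / 7) : ℝ)) ^ 7 = (M ^ 5)⁻¹ := by
        rw [← Real.rpow_natCast, ← Real.rpow_mul hM0.le, ← Real.rpow_natCast, ← Real.rpow_neg hM0.le]
        congr 1
        norm_num
      rw [mul_pow, e1]
      have e2 : c ^ 7 ≤ c := by
        have := pow_le_pow_of_le_one hc0.le hc1 (show 1 ≤ 7 by norm_num)
        simpa using this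
      have e3 : c * (M ^ 5)⁻¹ ≤ t ^ 7 := by
        rw [← div_eq_mul_inv, div_le_iff₀ (by positivity)]
        refine hc2.trans ?_
        rw [div_le_iff₀ hB0]
        refine h4.trans (le_of_eq ?_)
        ring
      refine le_trans ?_ e3
      exact mul_le_mul_of_nonneg_right e2 (by positivity)
    exact le_of_pow_le_pow_left₀ (by norm_num) ht0.le h8

theorem lattice_root (hd : Dioph α y1) : ∃ c > 0, ∀ (n : ℕ) (l : ℤ), |l| ≤ 5 * (KK : ℤ) ^ 2 →
    ∀ m : ℤ × ℤ, m ≠ 0 → c * ((KK : ℝ) ^ n) ^ (-(1 / 3) : ℝ) ≤ ‖Fv n l (lat α m)‖ := by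
  obtain ⟨C, hC, hD⟩ := hd.d1
  set A : ℝ := 1 + 5 * (KK : ℝ) ^ 2 with hA
  have hA1 : 1 ≤ A := by rw [hA]; have : (0 : ℝ) ≤ 5 * (KK : ℝ) ^ 2 := by positivity
                         linarith
  have hA0 : 0 < A := by linarith
  have hB0 : 0 < A ^ 2 := by positivity
  refine ⟨min 1 (C / A ^ 2), lt_min one_pos (div_pos hC hB0), ?_⟩
  intro n l hl m hm0
  set c := min 1 (C / A ^ 2) with hc
  have hc0 : 0 < c := lt_min one_pos (div_pos hC hB0)
  have hc1 : c ≤ 1 := min_le_left _ _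
  have hc2 : c ≤ C / A ^ 2 := min_le_right _ _
  obtain ⟨h1, h2⟩ := Fv_bounds n hl (lat α m)
  set M := (KK : ℝ) ^ n with hM
  have hM1 : 1 ≤ M := one_le_pow₀ one_le_KK
  have hM0 : 0 < M := by linarith
  set t := ‖Fv n l (lat α m)‖ with ht
  have ht0 : 0 < t := lat_ne hd hm0 n l
  have hMp : M ^ (-(1 / 3) : ℝ) ≤ 1 := Real.rpow_le_one_of_one_le_of_nonpos hM1 (by norm_num)
  have hMp0 : 0 < M ^ (-(1 / 3) : ℝ) := Real.rpow_pos_of_pos hM0 _
  have h1' : |(m.1 : ℝ) * α + m.2| ≤ t / M := h1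
  have h2' : |(m.1 : ℝ)| ≤ A * (M * t) := h2
  by_cases hm : m.1 = 0
  · have hm2 : m.2 ≠ 0 := fun h => hm0 (Prod.ext hm h)
    have h3 : (1 : ℝ) ≤ |(m.2 : ℝ)| := by
      have : 1 ≤ |m.2| := Int.one_le_abs hm2
      exact_mod_cast this
    rw [hm] at h1'
    simp only [Int.cast_zero, zero_mul, zero_add] at h1'
    have h4 : 1 ≤ t := by
      have := h3.trans h1'
      rw [le_div_iff₀ hM0] at this
      linarith
    calc c * M ^ (-(1 / 3) : ℝ) ≤ 1 * 1 := mul_le_mul hc1 hMp hMp0.le (by norm_num)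
      _ = 1 := one_mul 1
      _ ≤ t := h4
  · have hD' := hD m.1 m.2 hm
    have h4 : C ≤ A ^ 2 * (M * t ^ 3) := by
      have h6 : |(m.1 : ℝ)| ^ 2 ≤ (A * (M * t)) ^ 2 := pow_le_pow_left₀ (by positivity) h2' 2
      have h7 : C ≤ t / M * (A * (M * t)) ^ 2 :=
        hD'.trans (mul_le_mul h1' h6 (by positivity) (by positivity))
      refine h7.trans (le_of_eq ?_)
      field_simp
    have h8 : (c * M ^ (-(1 / 3) : ℝ)) ^ 3 ≤ t ^ 3 := by
      have e1 : (M ^ (-(1 / 3) : ℝ)) ^ 3 = M⁻¹ := by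
        rw [← Real.rpow_natCast, ← Real.rpow_mul hM0.le, ← Real.rpow_neg_one]
        congr 1
        norm_num
      rw [mul_pow, e1]
      have e2 : c ^ 3 ≤ c := by
        have := pow_le_pow_of_le_one hc0.le hc1 (show 1 ≤ 3 by norm_num)
        simpa using this
      have e3 : c * M⁻¹ ≤ t ^ 3 := by
        rw [← div_eq_mul_inv, div_le_iff₀ hM0]
        refine hc2.trans ?_
        rw [div_le_iff₀ hB0]
        refine h4.trans (le_of_eq ?_)
        ring
      refine le_trans ?_ e3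
      exact mul_le_mul_of_nonneg_right e2 (by positivity)
    exact le_of_pow_le_pow_left₀ (by norm_num) ht0.le h8

theorem sum_inv_sqrt (N : ℕ) : ∑ k ∈ Finset.Icc 1 N, (√(k : ℝ))⁻¹ ≤ 2 * √(N : ℝ) := by
  induction N with
  | zero => simp
  | succ N ih =>
    rw [Finset.sum_Icc_succ_top (by omega)]
    have ha : 0 ≤ √(N : ℝ) := Real.sqrt_nonneg _
    have hb : 0 < √((N + 1 : ℕ) : ℝ) := Real.sqrt_pos.2 (by positivity)
    have ha2 : √(N : ℝ) ^ 2 = N := Real.sq_sqrt (by positivity)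
    have hb2 : √((N + 1 : ℕ) : ℝ) ^ 2 = N + 1 := by
      rw [Real.sq_sqrt (by positivity)]
      push_cast
      ring
    set a := √(N : ℝ)
    set b := √((N + 1 : ℕ) : ℝ)
    have h1 : b⁻¹ ≤ 2 * b - 2 * a := by
      rw [inv_le_iff_one_le_mul₀ hb]
      nlinarith [sq_nonneg (a - b)]
    linarith

/-- the sum over a progression -/
theorem tsum_progression {f : ℤ × ℤ → ℝ≥0∞} {m0 n : ℤ × ℤ} (N : ℕ) (hn : n ≠ 0)
    (hs : ∀ m, f m ≠ 0 → ∃ j : ℤ, m = m0 + j • n ∧ j.natAbs ≤ N) {b0 : ℝ≥0∞} {b : ℕ → ℝ≥0∞}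
    (h0 : f m0 ≤ b0) (hb : ∀ (j : ℤ), j ≠ 0 → f (m0 + j • n) ≤ b j.natAbs) :
    ∑' m, f m ≤ b0 + 2 * ∑ k ∈ Finset.Icc 1 N, b k := by
  classical
  set S1 := (Finset.Icc 1 N).image (fun k : ℕ => m0 + (k : ℤ) • n) with hS1
  set S2 := (Finset.Icc 1 N).image (fun k : ℕ => m0 + (-(k : ℤ)) • n) with hS2
  have hsum : ∑' m, f m = ∑ m ∈ ({m0} ∪ (S1 ∪ S2) : Finset (ℤ × ℤ)), f m := by
    refine tsum_eq_sum fun m hm => ?_
    by_contra hne
    obtain ⟨j, hj, hjN⟩ := hs m hne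
    apply hm
    rcases lt_trichotomy j 0 with h | h | h
    · refine Finset.mem_union_right _ (Finset.mem_union_right _ ?_)
      rw [hS2, Finset.mem_image]
      refine ⟨j.natAbs, ?_, ?_⟩
      · rw [Finset.mem_Icc]
        omega
      · rw [hj]
        congr 2
        omega
    · refine Finset.mem_union_left _ ?_
      rw [Finset.mem_singleton, hj, h]
      simp
    · refine Finset.mem_union_right _ (Finset.mem_union_left _ ?_)
      rw [hS1, Finset.mem_image]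
      refine ⟨j.natAbs, ?_, ?_⟩
      · rw [Finset.mem_Icc]
        omega
      · rw [hj]
        congr 2
        omega
  have hun : ∀ s t : Finset (ℤ × ℤ), ∑ m ∈ s ∪ t, f m ≤ ∑ m ∈ s, f m + ∑ m ∈ t, f m := by
    intro s t
    rw [← Finset.sum_union_inter]
    exact le_self_add
  have hinj1 : Function.Injective (fun k : ℕ => m0 + (k : ℤ) • n) := by
    intro a b hab
    have h1 : ((a : ℤ) - b) • n = 0 := by
      rw [sub_smul]
      exact sub_eq_zero.2 (add_left_cancel hab)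
    rcases smul_eq_zero.1 h1 with h | h
    · omega
    · exact absurd h hn
  have hinj2 : Function.Injective (fun k : ℕ => m0 + (-(k : ℤ)) • n) := by
    intro a b hab
    have h1 : (-(a : ℤ) - (-b)) • n = 0 := by
      rw [sub_smul]
      exact sub_eq_zero.2 (add_left_cancel hab)
    rcases smul_eq_zero.1 h1 with h | h
    · omega
    · exact absurd h hn
  have h1 : ∑ m ∈ S1, f m ≤ ∑ k ∈ Finset.Icc 1 N, b k := by
    rw [hS1, Finset.sum_image (fun a _ b _ h => hinj1 h)]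
    refine Finset.sum_le_sum fun k hk => ?_
    rw [Finset.mem_Icc] at hk
    have := hb (k : ℤ) (by omega)
    simpa using this
  have h2 : ∑ m ∈ S2, f m ≤ ∑ k ∈ Finset.Icc 1 N, b k := by
    rw [hS2, Finset.sum_image (fun a _ b _ h => hinj2 h)]
    refine Finset.sum_le_sum fun k hk => ?_
    rw [Finset.mem_Icc] at hk
    have := hb (-(k : ℤ)) (by omega)
    simpa using this
  rw [hsum]
  refine (hun _ _).trans ?_
  rw [Finset.sum_singleton, two_mul]
  exact add_le_add h0 ((hun _ _).trans (add_le_add h1 h2))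

theorem root_W (hd : Dioph α y1) : ∃ C : ℝ, 0 < C ∧ ∀ (n : ℕ) (l : ℤ), |l| ≤ 5 * (KK : ℤ) ^ 2 →
    WA α y1 rh n l + WL α rh n l ≤ ENNReal.ofReal (C * ((KK : ℝ) ^ n) ^ (15 / 28 : ℝ)) := by
  classical
  obtain ⟨ca, hca, hA⟩ := affine_root hd
  obtain ⟨cl, hcl, hL⟩ := lattice_root hd
  refine ⟨(ca ^ (-(3 / 4) : ℝ) + 8 * cl ^ (-(5 / 4) : ℝ)) + 2 * cl ^ (-(5 / 4) : ℝ),
    by positivity, ?_⟩
  intro n l hl
  have hA' := hA n l hl
  have hL' := hL n l hl
  set M := (KK : ℝ) ^ n with hM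
  have hM1 : 1 ≤ M := one_le_pow₀ one_le_KK
  have hM0 : 0 < M := by linarith
  have hMP : 0 < M ^ (15 / 28 : ℝ) := Real.rpow_pos_of_pos hM0 _
  -- the two basic bounds
  have hwa : ∀ m, ‖Fv n l (aff α y1 m)‖ ^ (-(3 / 4) : ℝ) ≤
      ca ^ (-(3 / 4) : ℝ) * M ^ (15 / 28 : ℝ) := by
    intro m
    have h1 : ‖Fv n l (aff α y1 m)‖ ^ (-(3 / 4) : ℝ) ≤
        (ca * M ^ (-(5 / 7) : ℝ)) ^ (-(3 / 4) : ℝ) :=
      Real.rpow_le_rpow_of_nonpos (by positivity) (hA' m) (by norm_num)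
    refine h1.trans (le_of_eq ?_)
    rw [Real.mul_rpow hca.le (by positivity), ← Real.rpow_mul hM0.le]
    norm_num
  have hwl : ∀ m : ℤ × ℤ, m ≠ 0 → ‖Fv n l (lat α m)‖ ^ (-(5 / 4) : ℝ) ≤
      cl ^ (-(5 / 4) : ℝ) * M ^ (15 / 28 : ℝ) := by
    intro m hm
    have h1 : ‖Fv n l (lat α m)‖ ^ (-(5 / 4) : ℝ) ≤
        (cl * M ^ (-(1 / 3) : ℝ)) ^ (-(5 / 4) : ℝ) :=
      Real.rpow_le_rpow_of_nonpos (by positivity) (hL' m hm) (by norm_num)
    refine h1.trans ?_
    rw [Real.mul_rpow hcl.le (by positivity), ← Real.rpow_mul hM0.le]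
    refine mul_le_mul_of_nonneg_left ?_ (by positivity)
    exact Real.rpow_le_rpow_of_exponent_le hM1 (by norm_num)
  have hprim : ∀ m : ℤ × ℤ, IsCoprime m.1 m.2 → m ≠ 0 := by
    intro m hm h
    rw [h] at hm
    exact not_isUnit_zero (isCoprime_zero_left.1 hm)
  have hrh1 : rh ≤ 1 / 10 := by
    rw [rh]
    norm_num
  have hWL : WL α rh n l ≤ ENNReal.ofReal (2 * cl ^ (-(5 / 4) : ℝ) * M ^ (15 / 28 : ℝ)) := by
    by_cases hex : ∃ n' : ℤ × ℤ, IsCoprime n'.1 n'.2 ∧ ‖Fv n l (lat α n')‖ ≤ rh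
    · obtain ⟨n', hn, hn2⟩ := hex
      unfold WL
      refine (tsum_le_card_mul _ {n', -n'}
        (ENNReal.ofReal (cl ^ (-(5 / 4) : ℝ) * M ^ (15 / 28 : ℝ))) ?_ ?_).trans ?_
      · intro m hm
        rw [if_neg]
        rintro ⟨h0, h2⟩
        apply hm
        have hlt : 2 * ‖Fv n l (lat α n')‖ * ‖Fv n l (lat α m)‖ < 1 := by
          have h3 : ‖Fv n l (lat α n')‖ * ‖Fv n l (lat α m)‖ ≤ (1 / 10) * (1 / 10) :=
            mul_le_mul (hn2.trans hrh1) (h2.trans hrh1) (norm_nonneg _) (by positivity)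
          linarith
        rcases prim_unique hn h0 hlt with e | e
        · simp [e]
        · simp [e]
      · intro m
        split_ifs with h
        · exact ENNReal.ofReal_le_ofReal (hwl m (hprim m h.1))
        · exact zero_le
      · have h1 : ((({n', -n'} : Finset (ℤ × ℤ)).card : ℕ) : ℝ≥0∞) ≤ 2 := by
          exact_mod_cast Finset.card_le_two
        refine (mul_le_mul_left h1 _).trans (le_of_eq ?_)
        rw [← ENNReal.ofReal_ofNat 2, ← ENNReal.ofReal_mul (by norm_num), mul_assoc]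
    · unfold WL
      have : ∀ m : ℤ × ℤ, (if IsCoprime m.1 m.2 ∧ ‖Fv n l (lat α m)‖ ≤ rh then
          ENNReal.ofReal (‖Fv n l (lat α m)‖ ^ (-(5 / 4) : ℝ)) else 0) = 0 := by
        intro m
        rw [if_neg]
        intro h
        exact hex ⟨m, h⟩
      simp [this]
  have hWA : WA α y1 rh n l ≤
      ENNReal.ofReal ((ca ^ (-(3 / 4) : ℝ) + 8 * cl ^ (-(5 / 4) : ℝ)) * M ^ (15 / 28 : ℝ)) := by
    rcases affine_line (α := α) (y1 := y1) (i := n) (l := l) hrh1 with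
      hs | ⟨m0, n', hn, hn2, hm0, hmin, hline⟩
    · refine le_trans ?_ (ENNReal.ofReal_le_ofReal
        (show ca ^ (-(3 / 4) : ℝ) * M ^ (15 / 28 : ℝ) ≤ _ from
          mul_le_mul_of_nonneg_right (le_add_of_nonneg_right (by positivity)) hMP.le))
      by_cases hex : ∃ m : ℤ × ℤ, ‖Fv n l (aff α y1 m)‖ ≤ rh
      · obtain ⟨m, hm⟩ := hex
        unfold WA
        refine (tsum_le_card_mul _ {m}
          (ENNReal.ofReal (ca ^ (-(3 / 4) : ℝ) * M ^ (15 / 28 : ℝ))) ?_ ?_).trans (by simp)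
        · intro m' hm'
          rw [if_neg]
          intro h2
          apply hm'
          rw [Finset.mem_singleton]
          exact hs h2 hm
        · intro m'
          split_ifs with h
          · exact ENNReal.ofReal_le_ofReal (hwa m')
          · exact zero_le
      · unfold WA
        have : ∀ m : ℤ × ℤ, (if ‖Fv n l (aff α y1 m)‖ ≤ rh then
              ENNReal.ofReal (‖Fv n l (aff α y1 m)‖ ^ (-(3 / 4) : ℝ)) else 0) = 0 := by
          intro m
          rw [if_neg]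
          intro h
          exact hex ⟨m, h⟩
        simp [this]
    · have hpos := prim_pos (α := α) (i := n) (l := l) hn
      have hwl' := hwl n' (hprim n' hn)
      set s := ‖Fv n l (lat α n')‖ with hs
      set N := ⌊s⁻¹⌋₊ with hN
      have hNle : (N : ℝ) ≤ s⁻¹ := Nat.floor_le (by positivity)
      set b : ℕ → ℝ≥0∞ := fun k => ENNReal.ofReal (2 * s ^ (-(3 / 4) : ℝ) * (√(k : ℝ))⁻¹) with hb
      have hprog := tsum_progression (f := fun m : ℤ × ℤ => if ‖Fv n l (aff α y1 m)‖ ≤ rh then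
          ENNReal.ofReal (‖Fv n l (aff α y1 m)‖ ^ (-(3 / 4) : ℝ)) else 0) (m0 := m0) (n := n') N
          (hprim n' hn) (b0 := ENNReal.ofReal (ca ^ (-(3 / 4) : ℝ) * M ^ (15 / 28 : ℝ))) (b := b)
          ?_ ?_ ?_
      · refine hprog.trans ?_
        have h1 : 2 * ∑ k ∈ Finset.Icc 1 N, b k ≤
            ENNReal.ofReal (8 * cl ^ (-(5 / 4) : ℝ) * M ^ (15 / 28 : ℝ)) := by
          rw [hb, ← ENNReal.ofReal_sum_of_nonneg (fun k _ => by positivity),
            ← ENNReal.ofReal_ofNat 2, ← ENNReal.ofReal_mul (by norm_num)]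
          refine ENNReal.ofReal_le_ofReal ?_
          rw [← Finset.mul_sum]
          have h2 := sum_inv_sqrt N
          have h3 : √(N : ℝ) ≤ s ^ (-(1 / 2) : ℝ) := by
            rw [Real.sqrt_eq_rpow, Real.rpow_neg hpos.le, ← Real.inv_rpow hpos.le]
            exact Real.rpow_le_rpow (by positivity) hNle (by norm_num)
          have h4 : s ^ (-(3 / 4) : ℝ) * s ^ (-(1 / 2) : ℝ) = s ^ (-(5 / 4) : ℝ) := by
            rw [← Real.rpow_add hpos]
            norm_num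
          have h5 : 0 < s ^ (-(3 / 4) : ℝ) := Real.rpow_pos_of_pos hpos _
          have h6 : s ^ (-(3 / 4) : ℝ) * ∑ k ∈ Finset.Icc 1 N, (√(k : ℝ))⁻¹ ≤
              2 * s ^ (-(5 / 4) : ℝ) := by
            rw [← h4]
            calc s ^ (-(3 / 4) : ℝ) * ∑ k ∈ Finset.Icc 1 N, (√(k : ℝ))⁻¹
                ≤ s ^ (-(3 / 4) : ℝ) * (2 * s ^ (-(1 / 2) : ℝ)) :=
                  mul_le_mul_of_nonneg_left (by linarith) h5.le
              _ = _ := by ring
          have h7 : (OfNat.ofNat 2 : ℝ) * (2 * s ^ (-(3 / 4) : ℝ) *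
              ∑ k ∈ Finset.Icc 1 N, (√(k : ℝ))⁻¹) =
              4 * (s ^ (-(3 / 4) : ℝ) * ∑ k ∈ Finset.Icc 1 N, (√(k : ℝ))⁻¹) := by
            have : (OfNat.ofNat 2 : ℝ) = 2 := rfl
            rw [this]
            ring
          rw [h7, mul_assoc]
          nlinarith
        refine (add_le_add_right h1 _).trans (le_of_eq ?_)
        rw [← ENNReal.ofReal_add (by positivity) (by positivity)]
        congr 1
        ring
      · -- the support
        intro m hm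
        have hm' : ‖Fv n l (aff α y1 m)‖ ≤ rh := by
          by_contra hcon
          apply hm
          simp only [hcon, if_false]
        obtain ⟨j, hj, hj2⟩ := hline m hm'
        refine ⟨j, hj, ?_⟩
        have h3 : ((j.natAbs : ℕ) : ℝ) ≤ s⁻¹ := by
          rw [Nat.cast_natAbs, Int.cast_abs, ← one_div, le_div_iff₀ hpos]
          refine hj2.trans ?_
          linarith
        exact Nat.le_floor h3
      · -- the term at m0
        simp only [hm0, if_true]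
        exact ENNReal.ofReal_le_ofReal (hwa m0)
      · -- the other terms
        intro j hj
        split_ifs with h
        · refine ENNReal.ofReal_le_ofReal ?_
          have hj1 : (0 : ℝ) < |(j : ℝ)| := abs_pos.2 (by exact_mod_cast hj)
          have h1 : |(j : ℝ)| * s ≤ ‖Fv n l (aff α y1 (m0 + j • n'))‖ + ‖Fv n l (aff α y1 m0)‖ := by
            rw [hs, ← norm_lat_zsmul]
            have : Fv n l (lat α (j • n')) =
                Fv n l (aff α y1 (m0 + j • n')) - Fv n l (aff α y1 m0) := by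
              rw [aff_sub α y1 (m0 + j • n') m0, Fv_add]
              simp
            rw [this]
            exact norm_sub_le _ _
          have h2 := hmin _ h
          have h3 : |(j : ℝ)| * s / 2 ≤ ‖Fv n l (aff α y1 (m0 + j • n'))‖ := by linarith
          have h4 : ‖Fv n l (aff α y1 (m0 + j • n'))‖ ^ (-(3 / 4) : ℝ) ≤
              (|(j : ℝ)| * s / 2) ^ (-(3 / 4) : ℝ) :=
            Real.rpow_le_rpow_of_nonpos (by positivity) h3 (by norm_num)
          refine h4.trans ?_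
          have h5 : (|(j : ℝ)| * s / 2) ^ (-(3 / 4) : ℝ) =
              (2 : ℝ) ^ (3 / 4 : ℝ) * s ^ (-(3 / 4) : ℝ) * |(j : ℝ)| ^ (-(3 / 4) : ℝ) := by
            rw [Real.div_rpow (by positivity) (by norm_num), Real.mul_rpow hj1.le hpos.le,
              Real.rpow_neg (by norm_num : (0 : ℝ) ≤ 2), div_inv_eq_mul]
            ring
          rw [h5, Nat.cast_natAbs, Int.cast_abs]
          have h6 : (2 : ℝ) ^ (3 / 4 : ℝ) ≤ 2 := by
            have := Real.rpow_le_rpow_of_exponent_le (show (1 : ℝ) ≤ 2 by norm_num)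
              (show (3 / 4 : ℝ) ≤ 1 by norm_num)
            simpa using this
          have h7 : |(j : ℝ)| ^ (-(3 / 4) : ℝ) ≤ (√|(j : ℝ)|)⁻¹ := by
            have hj2 : (1 : ℝ) ≤ |(j : ℝ)| := by
              have : 1 ≤ |j| := Int.one_le_abs hj
              exact_mod_cast this
            rw [Real.sqrt_eq_rpow, ← Real.rpow_neg hj1.le]
            exact Real.rpow_le_rpow_of_exponent_le hj2 (by norm_num)
          refine mul_le_mul (mul_le_mul_of_nonneg_right h6 (by positivity)) h7 (by positivity)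
            (by positivity)
        · exact zero_le
  refine (add_le_add hWA hWL).trans (le_of_eq ?_)
  rw [← ENNReal.ofReal_add (by positivity) (by positivity)]
  congr 1
  ring

end Pool.Agent.H1.Horo
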