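import Pool.Agent.H1.Horo.CtDesc
import Pool.Agent.H1.Horo.CtRoot

/-!
# The set `Surv` is sparse

PROOF.  Let `i0` be such that `K^i0 ≥ p0`.  For `X < K^(2 i0)` the measure is at most `2 X`.
For `X ≥ K^(2 i0)` take `n = i0 + d` with `K^(2n) ≤ X < K^(2n+2)`.  If `s` is in the 2-neighbourhood
of `Surv` with `|s| ≤ 2 X`, take `t ∈ Surv` with `|s - t| < 2`; `l' = ⌊t / K^(2 i0)⌋` satisfies
`AliveAll i0 d l'` and its ancestor `l = ⌊t / K^(2n)⌋` of level `n` has `|l| ≤ 5 K^2` (as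
`|t| ≤ 2 X + 2 ≤ 4 K^(2n+2)`).  `s` is in the 2-neighbourhood of `[l' K^(2 i0), (l'+1) K^(2 i0)]`,
of measure `K^(2 i0) + 4`.  The number of such `l'` is at most the sum over the
`10 K^2 + 1` values of `l` of `(128 K^(5/4))^d C (K^n)^(15/28)` (`count_desc`, `root_W`), and
`128 K^(5/4) = K^(1.32)`, so it is at most `C' (K^n)^(1.32 + 15/28) ≤ C' (K^n)^(1.9) ≤ C' X^(19/20)`.
-/

namespace Pool.Agent.H1.Horo

open Set MeasureTheory ENNReal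

theorem ct_K1 : (1 : ℝ) < KK := by unfold KK; norm_num

theorem ct_exp {d n : ℕ} (h : d ≤ n) :
    (128 * (KK : ℝ) ^ (5 / 4 : ℝ)) ^ d * ((KK : ℝ) ^ n) ^ (15 / 28 : ℝ) ≤
      ((KK : ℝ) ^ n) ^ (19 / 10 : ℝ) := by
  have hK1 := ct_K1
  have hK0 := KK_pos
  have h128 : (128 : ℝ) = (KK : ℝ) ^ (7 / 100 : ℝ) := by
    unfold KK
    rw [Nat.cast_pow, ← Real.rpow_natCast, ← Real.rpow_mul (by norm_num)]
    norm_num
  have h1 : (128 : ℝ) * (KK : ℝ) ^ (5 / 4 : ℝ) = (KK : ℝ) ^ (33 / 25 : ℝ) := by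
    rw [h128, ← Real.rpow_add hK0]
    norm_num
  have hn1 : (1 : ℝ) ≤ (KK : ℝ) ^ n := one_le_pow₀ hK1.le
  have h2 : (1 : ℝ) ≤ (KK : ℝ) ^ (33 / 25 : ℝ) := Real.one_le_rpow hK1.le (by norm_num)
  have h3 : ((KK : ℝ) ^ (33 / 25 : ℝ)) ^ n = ((KK : ℝ) ^ n) ^ (33 / 25 : ℝ) := by
    rw [← Real.rpow_natCast, ← Real.rpow_mul hK0.le, ← Real.rpow_natCast, ← Real.rpow_mul hK0.le,
      mul_comm]
  rw [h1]
  calc ((KK : ℝ) ^ (33 / 25 : ℝ)) ^ d * ((KK : ℝ) ^ n) ^ (15 / 28 : ℝ)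
      ≤ ((KK : ℝ) ^ (33 / 25 : ℝ)) ^ n * ((KK : ℝ) ^ n) ^ (15 / 28 : ℝ) := by
        apply mul_le_mul_of_nonneg_right (pow_le_pow_right₀ h2 h) (by positivity)
    _ = ((KK : ℝ) ^ n) ^ (33 / 25 + 15 / 28 : ℝ) := by
        rw [h3, ← Real.rpow_add (by positivity)]
    _ ≤ ((KK : ℝ) ^ n) ^ (19 / 10 : ℝ) := by
        apply Real.rpow_le_rpow_of_exponent_le hn1
        norm_num

/-- the ancestor of a point of modulus at most `4 K^(2n+2)` -/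
theorem ct_anc {t : ℝ} {i0 d : ℕ} (ht : |t| ≤ 4 * (KK : ℝ) ^ (2 * (i0 + d) + 2)) :
    |⌊t / (KK : ℝ) ^ (2 * i0)⌋ / (KK : ℤ) ^ (2 * d)| ≤ 5 * (KK : ℤ) ^ 2 := by
  have hK0 := KK_pos
  have hK1 := ct_K1
  have hq : (0 : ℤ) < (KK : ℤ) ^ (2 * d) := by
    have : (0 : ℤ) < (KK : ℤ) := by exact_mod_cast hK0
    positivity
  have hq1 : (1 : ℤ) ≤ (KK : ℤ) ^ (2 * d) := hq
  have hKK : (1 : ℤ) ≤ (KK : ℤ) ^ 2 := by
    have : (0 : ℤ) < (KK : ℤ) := by exact_mod_cast hK0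
    have : (0 : ℤ) < (KK : ℤ) ^ 2 := by positivity
    exact this
  have hT : |t / (KK : ℝ) ^ (2 * i0)| ≤ 4 * ((KK : ℝ) ^ 2 * (KK : ℝ) ^ (2 * d)) := by
    rw [abs_div, abs_of_pos (by positivity : (0 : ℝ) < (KK : ℝ) ^ (2 * i0)),
      div_le_iff₀ (by positivity)]
    refine ht.trans (le_of_eq ?_)
    rw [mul_assoc, ← pow_add, ← pow_add]
    congr 2
    ring
  rw [abs_le] at hT
  set l' := ⌊t / (KK : ℝ) ^ (2 * i0)⌋ with hl'
  have h1 : l' ≤ 4 * ((KK : ℤ) ^ 2 * (KK : ℤ) ^ (2 * d)) := by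
    have h2 : (l' : ℝ) ≤ 4 * ((KK : ℝ) ^ 2 * (KK : ℝ) ^ (2 * d)) := (Int.floor_le _).trans hT.2
    exact_mod_cast h2
  have h2 : -(4 * ((KK : ℤ) ^ 2 * (KK : ℤ) ^ (2 * d))) - 1 ≤ l' := by
    have h3 : -(4 * ((KK : ℝ) ^ 2 * (KK : ℝ) ^ (2 * d))) - 1 ≤ l' := by
      have := (Int.lt_floor_add_one (t / (KK : ℝ) ^ (2 * i0))).le
      linarith [hT.1]
    exact_mod_cast h3
  have h3 := Int.ediv_mul_le l' hq.ne'
  have h4 := Int.lt_ediv_add_one_mul_self l' hq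
  generalize (KK : ℤ) ^ (2 * d) = q at *
  generalize (KK : ℤ) ^ 2 = k at *
  generalize l' / q = l at *
  rw [abs_le]
  constructor
  · by_contra hcon
    push Not at hcon
    have h5 : l + 1 ≤ -(4 * k) - 1 := by omega
    have h6 : (l + 1) * q ≤ (-(4 * k) - 1) * q := mul_le_mul_of_nonneg_right h5 hq.le
    nlinarith
  · by_contra hcon
    push Not at hcon
    have h5 : 4 * k + 1 ≤ l := by omega
    have h6 : (4 * k + 1) * q ≤ l * q := mul_le_mul_of_nonneg_right h5 hq.le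
    nlinarith

theorem sparse_surv {α y1 : ℝ} (hd : Dioph α y1) (p0 : ℝ) :
    Sparse (Surv α y1 KK ((1 / 2) ^ 487) p0) := by
  classical
  obtain ⟨Cr, hCr, hroot⟩ := root_W hd
  have hK1 := ct_K1
  have hK0 := KK_pos
  obtain ⟨i0, hi0⟩ : ∃ i0 : ℕ, p0 ≤ (KK : ℝ) ^ i0 :=
    (pow_unbounded_of_one_lt p0 hK1).imp fun _ h => h.le
  obtain ⟨Lc, hLc⟩ : ∃ Lc : Finset ℤ, Lc = Finset.Icc (-(5 * (KK : ℤ) ^ 2)) (5 * (KK : ℤ) ^ 2) :=
    ⟨_, rfl⟩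
  refine ⟨4 * (KK : ℝ) ^ (2 * i0) + (Lc.card : ℝ) * Cr * ((KK : ℝ) ^ (2 * i0) + 4), ?_⟩
  intro X hX
  have hX0 : 0 < X := by linarith
  have hXp : 0 < X ^ (19 / 20 : ℝ) := Real.rpow_pos_of_pos hX0 _
  rcases lt_or_ge X ((KK : ℝ) ^ (2 * i0)) with hc | hc
  · have h1 : nbhd (Surv α y1 KK ((1 / 2) ^ 487) p0) ∩ {s | X ≤ |s| ∧ |s| ≤ 2 * X} ⊆
        Set.Icc (-(2 * X)) (2 * X) := by
      rintro s ⟨_, hs⟩
      exact abs_le.1 hs.2
    refine (measure_mono h1).trans ?_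
    rw [Real.volume_Icc]
    apply ENNReal.ofReal_le_ofReal
    have h2 : X = X ^ (1 / 20 : ℝ) * X ^ (19 / 20 : ℝ) := by
      rw [← Real.rpow_add hX0]; norm_num
    have h3 : X ^ (1 / 20 : ℝ) ≤ (KK : ℝ) ^ (2 * i0) := by
      calc X ^ (1 / 20 : ℝ) ≤ X ^ (1 : ℝ) :=
            Real.rpow_le_rpow_of_exponent_le hX (by norm_num)
        _ = X := Real.rpow_one X
        _ ≤ _ := hc.le
    have h4 : X ≤ (KK : ℝ) ^ (2 * i0) * X ^ (19 / 20 : ℝ) := by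
      calc X = X ^ (1 / 20 : ℝ) * X ^ (19 / 20 : ℝ) := h2
        _ ≤ _ := mul_le_mul_of_nonneg_right h3 hXp.le
    have h5 : 0 ≤ (Lc.card : ℝ) * Cr * ((KK : ℝ) ^ (2 * i0) + 4) * X ^ (19 / 20 : ℝ) := by
      have h51 : (0 : ℝ) ≤ (Lc.card : ℝ) := Nat.cast_nonneg _
      generalize (Lc.card : ℝ) = c at h51 ⊢
      positivity
    have h6 : 2 * X - -(2 * X) = 4 * X := by ring
    rw [h6, add_mul]
    have h7 : 4 * X ≤ 4 * (KK : ℝ) ^ (2 * i0) * X ^ (19 / 20 : ℝ) := by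
      rw [mul_assoc]
      exact mul_le_mul_of_nonneg_left h4 (by norm_num)
    exact h7.trans (le_add_of_nonneg_right h5)
  · obtain ⟨n, hn1, hn2⟩ := exists_nat_pow_near hX (one_lt_pow₀ hK1 (two_ne_zero))
    rw [← pow_mul] at hn1 hn2
    have hin : i0 ≤ n := by
      have h1 : (KK : ℝ) ^ (2 * i0) < (KK : ℝ) ^ (2 * (n + 1)) := lt_of_le_of_lt hc hn2
      have h2 := (pow_lt_pow_iff_right₀ hK1).1 h1
      omega
    obtain ⟨d, rfl⟩ := Nat.exists_eq_add_of_le hin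
    obtain ⟨Fs, hFs⟩ : ∃ Fs : Finset ℤ, Fs = Lc.biUnion (fun l =>
      (Finset.Ico (l * (KK : ℤ) ^ (2 * d)) ((l + 1) * (KK : ℤ) ^ (2 * d))).filter
        (fun l' => AliveAll α y1 i0 d l')) := ⟨_, rfl⟩
    have hcover : nbhd (Surv α y1 KK ((1 / 2) ^ 487) p0) ∩ {s | X ≤ |s| ∧ |s| ≤ 2 * X} ⊆
        ⋃ l' ∈ Fs, Set.Icc ((l' : ℝ) * (KK : ℝ) ^ (2 * i0) - 2)
          (((l' : ℝ) + 1) * (KK : ℝ) ^ (2 * i0) + 2) := by
      rintro s ⟨⟨t, ht, hst⟩, _, hs⟩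
      have htX : |t| ≤ 4 * (KK : ℝ) ^ (2 * (i0 + d) + 2) := by
        have h1 : |t| ≤ |s| + |s - t| := by
          have : t = s - (s - t) := by ring
          calc |t| = |s - (s - t)| := by rw [← this]
            _ ≤ _ := abs_sub _ _
        have h2 : X ≤ (KK : ℝ) ^ (2 * (i0 + d) + 2) := by
          have e : 2 * (i0 + d) + 2 = 2 * (i0 + d + 1) := by ring
          rw [e]; exact hn2.le
        linarith
      have hq : (0 : ℤ) < (KK : ℤ) ^ (2 * d) := by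
        have : (0 : ℤ) < (KK : ℤ) := by exact_mod_cast hK0
        positivity
      rw [Set.mem_iUnion₂]
      refine ⟨⌊t / (KK : ℝ) ^ (2 * i0)⌋, ?_, ?_⟩
      · rw [hFs, Finset.mem_biUnion]
        refine ⟨⌊t / (KK : ℝ) ^ (2 * i0)⌋ / (KK : ℤ) ^ (2 * d), ?_, ?_⟩
        · rw [hLc, Finset.mem_Icc, ← abs_le]
          exact ct_anc htX
        · rw [Finset.mem_filter, Finset.mem_Ico]
          exact ⟨⟨Int.ediv_mul_le _ hq.ne', Int.lt_ediv_add_one_mul_self _ hq⟩,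
            surv_aliveAll ht hi0 d⟩
      · have hp : (0 : ℝ) < (KK : ℝ) ^ (2 * i0) := by positivity
        have h1 := Int.floor_le (t / (KK : ℝ) ^ (2 * i0))
        have h2 := (Int.lt_floor_add_one (t / (KK : ℝ) ^ (2 * i0))).le
        rw [le_div_iff₀ hp] at h1
        rw [div_le_iff₀ hp] at h2
        rw [abs_lt] at hst
        exact ⟨by linarith, by linarith⟩
    have hvol : volume (nbhd (Surv α y1 KK ((1 / 2) ^ 487) p0) ∩ {s | X ≤ |s| ∧ |s| ≤ 2 * X}) ≤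
        (Fs.card : ℝ≥0∞) * ENNReal.ofReal ((KK : ℝ) ^ (2 * i0) + 4) := by
      refine (measure_mono hcover).trans ((measure_biUnion_finset_le _ _).trans ?_)
      rw [← nsmul_eq_mul]
      apply Finset.sum_le_card_nsmul
      intro l' _
      rw [Real.volume_Icc]
      apply ENNReal.ofReal_le_ofReal
      linarith
    have hcard : (Fs.card : ℝ≥0∞) ≤ (Lc.card : ℝ≥0∞) *
        ENNReal.ofReal ((128 * (KK : ℝ) ^ (5 / 4 : ℝ)) ^ d *
          (Cr * ((KK : ℝ) ^ (i0 + d)) ^ (15 / 28 : ℝ))) := by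
      have h1 : (Fs.card : ℝ≥0∞) ≤ ∑ l ∈ Lc,
          (((Finset.Ico (l * (KK : ℤ) ^ (2 * d)) ((l + 1) * (KK : ℤ) ^ (2 * d))).filter
            (fun l' => AliveAll α y1 i0 d l')).card : ℝ≥0∞) := by
        rw [hFs]
        exact_mod_cast Finset.card_biUnion_le
      refine h1.trans ?_
      rw [← nsmul_eq_mul]
      apply Finset.sum_le_card_nsmul
      intro l hl
      rw [hLc, Finset.mem_Icc, ← abs_le] at hl
      refine (count_desc hd i0 d l).trans ?_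
      have e : ENNReal.ofReal ((128 * (KK : ℝ) ^ (5 / 4 : ℝ)) ^ d *
          (Cr * ((KK : ℝ) ^ (i0 + d)) ^ (15 / 28 : ℝ))) =
          ENNReal.ofReal (128 * (KK : ℝ) ^ (5 / 4 : ℝ)) ^ d *
            ENNReal.ofReal (Cr * ((KK : ℝ) ^ (i0 + d)) ^ (15 / 28 : ℝ)) := by
        rw [ENNReal.ofReal_mul (by positivity), ENNReal.ofReal_pow (by positivity)]
      rw [e]
      exact mul_le_mul_right (hroot (i0 + d) l hl) _
    refine hvol.trans ((mul_le_mul_left hcard _).trans ?_)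
    rw [← ENNReal.ofReal_natCast, ← ENNReal.ofReal_mul (by positivity),
      ← ENNReal.ofReal_mul (by positivity)]
    apply ENNReal.ofReal_le_ofReal
    have h1 := ct_exp (Nat.le_add_left d i0)
    have h2 : ((KK : ℝ) ^ (i0 + d)) ^ (19 / 10 : ℝ) ≤ X ^ (19 / 20 : ℝ) := by
      have e : ((KK : ℝ) ^ (i0 + d)) ^ (19 / 10 : ℝ) = ((KK : ℝ) ^ (2 * (i0 + d))) ^ (19 / 20 : ℝ) := by
        rw [mul_comm 2, pow_mul, ← Real.rpow_natCast ((KK : ℝ) ^ (i0 + d)) 2,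
          ← Real.rpow_mul (by positivity)]
        norm_num
      rw [e]
      exact Real.rpow_le_rpow (by positivity) hn1 (by norm_num)
    have h3 : (128 * (KK : ℝ) ^ (5 / 4 : ℝ)) ^ d * (Cr * ((KK : ℝ) ^ (i0 + d)) ^ (15 / 28 : ℝ)) ≤
        Cr * X ^ (19 / 20 : ℝ) := by
      calc (128 * (KK : ℝ) ^ (5 / 4 : ℝ)) ^ d * (Cr * ((KK : ℝ) ^ (i0 + d)) ^ (15 / 28 : ℝ))
          = Cr * ((128 * (KK : ℝ) ^ (5 / 4 : ℝ)) ^ d * ((KK : ℝ) ^ (i0 + d)) ^ (15 / 28 : ℝ)) := by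
            ring
        _ ≤ Cr * X ^ (19 / 20 : ℝ) := mul_le_mul_of_nonneg_left (h1.trans h2) hCr.le
    have h4 : 0 ≤ (KK : ℝ) ^ (2 * i0) + 4 := by positivity
    calc (Lc.card : ℝ) * ((128 * (KK : ℝ) ^ (5 / 4 : ℝ)) ^ d *
          (Cr * ((KK : ℝ) ^ (i0 + d)) ^ (15 / 28 : ℝ))) * ((KK : ℝ) ^ (2 * i0) + 4)
        ≤ (Lc.card : ℝ) * (Cr * X ^ (19 / 20 : ℝ)) * ((KK : ℝ) ^ (2 * i0) + 4) := by
          apply mul_le_mul_of_nonneg_right _ h4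
          exact mul_le_mul_of_nonneg_left h3 (by positivity)
      _ ≤ (4 * (KK : ℝ) ^ (2 * i0) + (Lc.card : ℝ) * Cr * ((KK : ℝ) ^ (2 * i0) + 4)) *
          X ^ (19 / 20 : ℝ) := by
          have : 0 ≤ 4 * (KK : ℝ) ^ (2 * i0) * X ^ (19 / 20 : ℝ) := by positivity
          linarith

end Pool.Agent.H1.Horo
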