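import Pool.Agent.H1.Horo.Basic

/-!
# The counting argument: definitions

At the level `i` the real line is divided into the intervals `[l K^(2i), (l+1) K^(2i))`, `l ∈ ℤ`,
`K = KK = 2^100`.  `Fv i l w` is the vector `w` sheared by the time `l K^(2i)` and renormalised at the
scale `K^i`.  `WA`, `WL` are the sums of the Margulis weights over the short affine vectors (those of
`v + Λ`) and the short primitive vectors of the lattice `Λ`.  The norm of `ℝ × ℝ` is the sup norm.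
-/

namespace Pool.Agent.H1.Horo

open Set MeasureTheory ENNReal

def KK : ℕ := 2 ^ 100

/-- `ρ = (16 K)^(-2)` -/
noncomputable def rh : ℝ := (1 / 2) ^ 208

/-- `ρ0`, the threshold of aliveness -/
noncomputable def rh0 : ℝ := (1 / 2) ^ 486

noncomputable def Fv (i : ℕ) (l : ℤ) (w : ℝ × ℝ) : ℝ × ℝ :=
  ((w.1 + l * (KK : ℝ) ^ (2 * i) * w.2) / (KK : ℝ) ^ i, (KK : ℝ) ^ i * w.2)

noncomputable def aff (α y1 : ℝ) (m : ℤ × ℤ) : ℝ × ℝ := ((m.1 : ℝ), y1 + (m.1 : ℝ) * α + m.2)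

noncomputable def lat (α : ℝ) (m : ℤ × ℤ) : ℝ × ℝ := ((m.1 : ℝ), (m.1 : ℝ) * α + m.2)

open Classical in
/-- weight of the affine vectors of norm at most `R` -/
noncomputable def WA (α y1 R : ℝ) (i : ℕ) (l : ℤ) : ℝ≥0∞ :=
  ∑' m : ℤ × ℤ, if ‖Fv i l (aff α y1 m)‖ ≤ R then
    ENNReal.ofReal (‖Fv i l (aff α y1 m)‖ ^ (-(3 / 4) : ℝ)) else 0

open Classical in
/-- weight of the primitive lattice vectors of norm at most `R` -/
noncomputable def WL (α R : ℝ) (i : ℕ) (l : ℤ) : ℝ≥0∞ :=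
  ∑' m : ℤ × ℤ, if IsCoprime m.1 m.2 ∧ ‖Fv i l (lat α m)‖ ≤ R then
    ENNReal.ofReal (‖Fv i l (lat α m)‖ ^ (-(5 / 4) : ℝ)) else 0

def Alive (α y1 : ℝ) (i : ℕ) (l : ℤ) : Prop := ∃ w ∈ Svec α y1, ‖Fv i l w‖ ≤ rh0

/-- all ancestors of the interval of index `l` of level `i0`, up to level `i0 + d`, are alive -/
def AliveAll (α y1 : ℝ) (i0 d : ℕ) (l : ℤ) : Prop :=
  ∀ e ≤ d, Alive α y1 (i0 + e) (l / (KK : ℤ) ^ (2 * e))

theorem rh_pos : 0 < rh := by unfold rh; positivity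
theorem rh0_pos : 0 < rh0 := by unfold rh0; positivity
theorem KK_pos : 0 < (KK : ℝ) := by unfold KK; norm_num

/-- the affine vectors are not zero -/
theorem aff_ne {α y1 : ℝ} (hd : Dioph α y1) (m : ℤ × ℤ) (i : ℕ) (l : ℤ) :
    0 < ‖Fv i l (aff α y1 m)‖ := by
  obtain ⟨C, hC, h⟩ := hd.d2
  have h1 := h m.1 m.2
  by_contra hcon
  have h0 : Fv i l (aff α y1 m) = 0 := by
    rw [← norm_eq_zero]; exact le_antisymm (not_lt.1 hcon) (norm_nonneg _)
  have h2 : y1 + (m.1 : ℝ) * α + m.2 = 0 := by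
    have := congrArg Prod.snd h0
    simp only [Fv, aff, Prod.snd_zero] at this
    exact (mul_eq_zero.1 this).resolve_left (pow_ne_zero _ KK_pos.ne')
  rw [h2] at h1
  simp at h1
  linarith

/-- the lattice vectors are not zero -/
theorem lat_ne {α y1 : ℝ} (hd : Dioph α y1) {m : ℤ × ℤ} (hm : m ≠ 0) (i : ℕ) (l : ℤ) :
    0 < ‖Fv i l (lat α m)‖ := by
  obtain ⟨C, hC, h⟩ := hd.d1
  by_contra hcon
  have h0 : Fv i l (lat α m) = 0 := by
    rw [← norm_eq_zero]; exact le_antisymm (not_lt.1 hcon) (norm_nonneg _)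
  have h2 : (m.1 : ℝ) * α + m.2 = 0 := by
    have := congrArg Prod.snd h0
    simp only [Fv, lat, Prod.snd_zero] at this
    exact (mul_eq_zero.1 this).resolve_left (pow_ne_zero _ KK_pos.ne')
  by_cases h3 : m.1 = 0
  · rw [h3] at h2
    have : m.2 = 0 := by simpa using h2
    exact hm (Prod.ext h3 this)
  · have h1 := h m.1 m.2 h3
    rw [h2] at h1
    simp at h1
    linarith

end Pool.Agent.H1.Horo
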