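import Pool.Agent.H1.Horo.CtRec

/-!
# Counting the surviving descendants

PROOF of `count_desc` by induction on `d`.  `d = 0`: the interval `Ico l (l+1)` contains only `l`,
and it is counted only if it is alive, in which case `1 ≤ WA + WL` (`one_le_W`).
`d + 1`: `Ico (l K^(2(d+1))) ((l+1) K^(2(d+1)))` is the union over `k < K^2` of the intervals
`Ico ((l K^2 + k) K^(2d)) ((l K^2 + k + 1) K^(2d))`.  If some `l'` is counted then the ancestor
`l' / K^(2(d+1)) = l` of level `i0 + d + 1` is alive.  `AliveAll (d+1)` implies `AliveAll d`.  Apply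
the induction hypothesis to the children `(i0 + d, l K^2 + k)` and sum up with `rec_W`.

`surv_alive`: if `s ∈ Surv` with `s ∈ [l K^(2i), (l+1) K^(2i))`, `K^i ≥ p0`, then `(i, l)` is alive:
the vector `w ∈ Svec` with `|w.1 + s w.2| ≤ r0 K^i`, `|w.2| ≤ r0 / K^i` has
`|w.1 + l K^(2i) w.2| ≤ r0 K^i + K^(2i) r0 / K^i = 2 r0 K^i`, and `2 r0 = rh0`.
Hence `surv_aliveAll` with `l = ⌊s / K^(2 i0)⌋`: its ancestor of level `i0 + e` is
`⌊s / K^(2 (i0+e))⌋` (`Int.floor_div_natCast`-type lemma).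
-/

namespace Pool.Agent.H1.Horo

open Set MeasureTheory ENNReal

variable {α y1 : ℝ}

theorem anc_div (d : ℕ) (l l' : ℤ) (h : l * (KK : ℤ) ^ (2 * d) ≤ l')
    (h' : l' < (l + 1) * (KK : ℤ) ^ (2 * d)) : l' / (KK : ℤ) ^ (2 * d) = l := by
  have hK : (0 : ℤ) < (KK : ℤ) ^ (2 * d) := by
    have : (0 : ℤ) < (KK : ℤ) := by unfold KK; norm_num
    positivity
  exact Int.ediv_eq_iff_of_pos hK |>.2 ⟨by linarith [mul_comm l ((KK : ℤ) ^ (2 * d))], by nlinarith⟩

open Classical in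
theorem count_desc (hd : Dioph α y1) (i0 d : ℕ) (l : ℤ) :
    (((Finset.Ico (l * (KK : ℤ) ^ (2 * d)) ((l + 1) * (KK : ℤ) ^ (2 * d))).filter
      (fun l' => AliveAll α y1 i0 d l')).card : ℝ≥0∞) ≤
      ENNReal.ofReal (128 * (KK : ℝ) ^ (5 / 4 : ℝ)) ^ d *
        (WA α y1 rh (i0 + d) l + WL α rh (i0 + d) l) := by
  induction d generalizing l with
  | zero =>
    by_cases hal : AliveAll α y1 i0 0 l
    · have h1 : Alive α y1 i0 l := by
        have := hal 0 le_rfl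
        simpa using this
      have h2 := one_le_W hd h1
      simp only [Nat.mul_zero, pow_zero, mul_one, add_zero, one_mul]
      refine le_trans ?_ h2
      have h3 : ((Finset.Ico l (l + 1)).filter (fun l' => AliveAll α y1 i0 0 l')).card ≤ 1 := by
        refine (Finset.card_filter_le _ _).trans ?_
        rw [Int.card_Ico]
        simp
      exact_mod_cast h3
    · have h3 : (Finset.Ico (l * (KK : ℤ) ^ (2 * 0)) ((l + 1) * (KK : ℤ) ^ (2 * 0))).filter
          (fun l' => AliveAll α y1 i0 0 l') = ∅ := by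
        rw [Finset.filter_eq_empty_iff]
        intro l' hl' h
        simp only [Nat.mul_zero, pow_zero, mul_one, Finset.mem_Ico] at hl'
        have : l' = l := by omega
        rw [this] at h
        exact hal h
      rw [h3]
      simp
  | succ d ih =>
    by_cases hex : ∃ l' ∈ Finset.Ico (l * (KK : ℤ) ^ (2 * (d + 1)))
        ((l + 1) * (KK : ℤ) ^ (2 * (d + 1))), AliveAll α y1 i0 (d + 1) l'
    · obtain ⟨l', hl', hal⟩ := hex
      rw [Finset.mem_Ico] at hl'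
      have h1 : Alive α y1 (i0 + d + 1) l := by
        have := hal (d + 1) le_rfl
        rw [anc_div (d + 1) l l' hl'.1 hl'.2] at this
        exact this
      have h2 := rec_W hd h1
      have hKpos : (0 : ℤ) < (KK : ℤ) := by unfold KK; norm_num
      have hKd : (0 : ℤ) < (KK : ℤ) ^ (2 * d) := pow_pos hKpos _
      have hpow : (KK : ℤ) ^ (2 * (d + 1)) = (KK : ℤ) ^ 2 * (KK : ℤ) ^ (2 * d) := by
        rw [← pow_add]
        congr 1
        ring
      have hsub : (Finset.Ico (l * (KK : ℤ) ^ (2 * (d + 1)))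
          ((l + 1) * (KK : ℤ) ^ (2 * (d + 1)))).filter (fun l' => AliveAll α y1 i0 (d + 1) l') ⊆
          (Finset.range (KK ^ 2)).biUnion (fun k =>
            (Finset.Ico ((l * (KK : ℤ) ^ 2 + k) * (KK : ℤ) ^ (2 * d))
              (((l * (KK : ℤ) ^ 2 + k) + 1) * (KK : ℤ) ^ (2 * d))).filter
              (fun l' => AliveAll α y1 i0 d l')) := by
        intro x hx
        rw [Finset.mem_filter, Finset.mem_Ico] at hx
        have hx1 := hx.1.1
        have hx2 := hx.1.2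
        have hx3 := hx.2
        rw [hpow] at hx1 hx2
        rw [Finset.mem_biUnion]
        set q := x / (KK : ℤ) ^ (2 * d) with hq
        have hq1 : l * (KK : ℤ) ^ 2 ≤ q := by
          rw [hq, Int.le_ediv_iff_mul_le hKd, mul_assoc]
          exact hx1
        have hq2 : q < (l + 1) * (KK : ℤ) ^ 2 := by
          rw [hq, Int.ediv_lt_iff_lt_mul hKd, mul_assoc]
          exact hx2
        have hq3 : ((q - l * (KK : ℤ) ^ 2).toNat : ℤ) = q - l * (KK : ℤ) ^ 2 :=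
          Int.toNat_of_nonneg (by linarith)
        refine ⟨(q - l * (KK : ℤ) ^ 2).toNat, ?_, ?_⟩
        · rw [Finset.mem_range]
          have : ((q - l * (KK : ℤ) ^ 2).toNat : ℤ) < ((KK ^ 2 : ℕ) : ℤ) := by
            rw [hq3]
            push_cast
            linarith
          exact_mod_cast this
        · rw [Finset.mem_filter, Finset.mem_Ico, hq3]
          have e1 : l * (KK : ℤ) ^ 2 + (q - l * (KK : ℤ) ^ 2) = q := by ring
          rw [e1]
          refine ⟨⟨?_, ?_⟩, fun e he => hx3 e (Nat.le_succ_of_le he)⟩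
          · exact Int.ediv_mul_le x hKd.ne'
          · exact Int.lt_ediv_add_one_mul_self x hKd
      calc (((Finset.Ico (l * (KK : ℤ) ^ (2 * (d + 1)))
          ((l + 1) * (KK : ℤ) ^ (2 * (d + 1)))).filter
            (fun l' => AliveAll α y1 i0 (d + 1) l')).card : ℝ≥0∞)
          ≤ ((∑ k ∈ Finset.range (KK ^ 2),
            ((Finset.Ico ((l * (KK : ℤ) ^ 2 + k) * (KK : ℤ) ^ (2 * d))
              (((l * (KK : ℤ) ^ 2 + k) + 1) * (KK : ℤ) ^ (2 * d))).filter
              (fun l' => AliveAll α y1 i0 d l')).card : ℕ) : ℝ≥0∞) := by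
            exact_mod_cast (Finset.card_le_card hsub).trans Finset.card_biUnion_le
        _ = ∑ k ∈ Finset.range (KK ^ 2),
            (((Finset.Ico ((l * (KK : ℤ) ^ 2 + k) * (KK : ℤ) ^ (2 * d))
              (((l * (KK : ℤ) ^ 2 + k) + 1) * (KK : ℤ) ^ (2 * d))).filter
              (fun l' => AliveAll α y1 i0 d l')).card : ℝ≥0∞) := by
            rw [Nat.cast_sum]
        _ ≤ ∑ k ∈ Finset.range (KK ^ 2), ENNReal.ofReal (128 * (KK : ℝ) ^ (5 / 4 : ℝ)) ^ d *
              (WA α y1 rh (i0 + d) (l * (KK : ℤ) ^ 2 + k) +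
                WL α rh (i0 + d) (l * (KK : ℤ) ^ 2 + k)) :=
            Finset.sum_le_sum fun k _ => ih (l * (KK : ℤ) ^ 2 + k)
        _ = ENNReal.ofReal (128 * (KK : ℝ) ^ (5 / 4 : ℝ)) ^ d * ∑ k ∈ Finset.range (KK ^ 2),
              (WA α y1 rh (i0 + d) (l * (KK : ℤ) ^ 2 + k) +
                WL α rh (i0 + d) (l * (KK : ℤ) ^ 2 + k)) := by rw [Finset.mul_sum]
        _ ≤ ENNReal.ofReal (128 * (KK : ℝ) ^ (5 / 4 : ℝ)) ^ d *
              (ENNReal.ofReal (128 * (KK : ℝ) ^ (5 / 4 : ℝ)) *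
                (WA α y1 rh (i0 + d + 1) l + WL α rh (i0 + d + 1) l)) := mul_le_mul_right h2 _
        _ = _ := by
            rw [← mul_assoc, ← pow_succ]
            rfl
    · have h3 : (Finset.Ico (l * (KK : ℤ) ^ (2 * (d + 1)))
          ((l + 1) * (KK : ℤ) ^ (2 * (d + 1)))).filter
          (fun l' => AliveAll α y1 i0 (d + 1) l') = ∅ := by
        rw [Finset.filter_eq_empty_iff]
        intro l' hl' h
        exact hex ⟨l', hl', h⟩
      rw [h3]
      simp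

theorem surv_alive {p0 s : ℝ} (hs : s ∈ Surv α y1 KK ((1 / 2) ^ 487) p0) {i : ℕ}
    (hi : p0 ≤ (KK : ℝ) ^ i) : Alive α y1 i ⌊s / (KK : ℝ) ^ (2 * i)⌋ := by
  have hK := KK_pos
  have hKi : (0 : ℝ) < (KK : ℝ) ^ i := pow_pos hK i
  have hK2i : (0 : ℝ) < (KK : ℝ) ^ (2 * i) := pow_pos hK _
  obtain ⟨w, hw, h1, h2⟩ := hs i hi
  refine ⟨w, hw, ?_⟩
  set l := ⌊s / (KK : ℝ) ^ (2 * i)⌋ with hl
  have e1 : (l : ℝ) * (KK : ℝ) ^ (2 * i) ≤ s := by
    have := Int.floor_le (s / (KK : ℝ) ^ (2 * i))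
    rwa [le_div_iff₀ hK2i] at this
  have e2 : s < ((l : ℝ) + 1) * (KK : ℝ) ^ (2 * i) := by
    have := Int.lt_floor_add_one (s / (KK : ℝ) ^ (2 * i))
    rwa [div_lt_iff₀ hK2i] at this
  have e3 : |s - (l : ℝ) * (KK : ℝ) ^ (2 * i)| ≤ (KK : ℝ) ^ (2 * i) := by
    rw [abs_of_nonneg (by linarith)]
    linarith
  have hr : rh0 = 2 * (1 / 2) ^ 487 := by
    rw [rh0, show (487 : ℕ) = 1 + 486 from rfl, pow_add, pow_one, ← mul_assoc]
    norm_num
  have hp2 : (KK : ℝ) ^ (2 * i) = (KK : ℝ) ^ i * (KK : ℝ) ^ i := by rw [two_mul, pow_add]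
  have h2' : |w.2| * (KK : ℝ) ^ i ≤ (1 / 2) ^ 487 := by
    rwa [le_div_iff₀ hKi] at h2
  have e4 : |w.1 + (l : ℝ) * (KK : ℝ) ^ (2 * i) * w.2| ≤ 2 * (1 / 2) ^ 487 * (KK : ℝ) ^ i := by
    have e5 : w.1 + (l : ℝ) * (KK : ℝ) ^ (2 * i) * w.2 =
        (w.1 + s * w.2) - (s - (l : ℝ) * (KK : ℝ) ^ (2 * i)) * w.2 := by ring
    rw [e5]
    refine (abs_sub _ _).trans ?_
    rw [abs_mul]
    have e6 : |s - (l : ℝ) * (KK : ℝ) ^ (2 * i)| * |w.2| ≤ (KK : ℝ) ^ (2 * i) * |w.2| :=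
      mul_le_mul_of_nonneg_right e3 (abs_nonneg _)
    have e7 : (KK : ℝ) ^ (2 * i) * |w.2| ≤ (KK : ℝ) ^ i * (1 / 2) ^ 487 := by
      rw [hp2, mul_assoc]
      refine mul_le_mul_of_nonneg_left ?_ hKi.le
      rw [mul_comm]
      exact h2'
    have e8 : (KK : ℝ) ^ i * (1 / 2) ^ 487 = (1 / 2) ^ 487 * (KK : ℝ) ^ i := mul_comm _ _
    have e9 : 2 * (1 / 2) ^ 487 * (KK : ℝ) ^ i =
        (1 / 2) ^ 487 * (KK : ℝ) ^ i + (1 / 2) ^ 487 * (KK : ℝ) ^ i := by ring
    rw [e9]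
    refine add_le_add h1 ?_
    rw [← e8]
    exact e6.trans e7
  rw [hr, Prod.norm_def]
  refine max_le ?_ ?_
  · simp only [Fv, Real.norm_eq_abs]
    rw [abs_div, abs_of_pos hKi, div_le_iff₀ hKi]
    exact e4
  · simp only [Fv, Real.norm_eq_abs]
    rw [abs_mul, abs_of_pos hKi, mul_comm]
    have : (0 : ℝ) ≤ (1 / 2) ^ 487 := by positivity
    refine h2'.trans ?_
    rw [two_mul]
    exact le_add_of_nonneg_left this

theorem surv_aliveAll {p0 s : ℝ} (hs : s ∈ Surv α y1 KK ((1 / 2) ^ 487) p0) {i0 : ℕ}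
    (hi : p0 ≤ (KK : ℝ) ^ i0) (d : ℕ) : AliveAll α y1 i0 d ⌊s / (KK : ℝ) ^ (2 * i0)⌋ := by
  intro e _
  have h1 : (1 : ℝ) ≤ KK := by
    unfold KK
    exact_mod_cast Nat.one_le_two_pow
  have h2 : p0 ≤ (KK : ℝ) ^ (i0 + e) := hi.trans (pow_le_pow_right₀ h1 (Nat.le_add_right _ _))
  have h3 := surv_alive hs h2
  have h4 : ⌊s / (KK : ℝ) ^ (2 * (i0 + e))⌋ = ⌊s / (KK : ℝ) ^ (2 * i0)⌋ / (KK : ℤ) ^ (2 * e) := by
    have h5 := Int.floor_div_natCast (s / (KK : ℝ) ^ (2 * i0)) (KK ^ (2 * e))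
    push_cast at h5
    rw [← h5]
    congr 1
    rw [div_div, ← pow_add]
    congr 2
    ring
  rw [← h4]
  exact h3

end Pool.Agent.H1.Horo
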