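import Pool.Agent.H1.Horo.CtDefs

/-!
# Short vectors of a unimodular lattice and of its translate

The maps `Fv i l` are linear of determinant one, and `Λ = {lat α m}` has covolume one.

PROOFS.
* `det_lat`: `det (Fv v, Fv v') = det (v, v')`, and `det (lat m, lat m') = m.1 * m'.2 - m'.1 * m.2`.
* `prim_unique`: if `m, m'` are primitive with norms `a, a'` with `2 a a' < 1` the determinant is an
  integer of absolute value `< 1`, so it is zero and `m' = m` or `m' = - m`.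
* `affine_line`: take an affine vector `w0 = aff m0` of norm at most `R` (if there is none then the
  set is empty).  If there is another one, their difference is a nonzero lattice vector of norm
  `≤ 2 R`; write it as a multiple of a primitive `n`; `‖Fv n‖ ≤ 2 R`.  Every affine
  vector of norm at most `R` differs from `w0` by a lattice vector of norm at most `2 R`, parallel to
  `n` as `2 (2R)(2R) < 1`, so it is `aff (m0 + j n)`, `j ∈ ℤ`.
-/

namespace Pool.Agent.H1.Horo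

open Set MeasureTheory ENNReal

theorem Fv_add (i : ℕ) (l : ℤ) (v w : ℝ × ℝ) : Fv i l (v + w) = Fv i l v + Fv i l w := by
  ext
  · simp only [Fv, Prod.fst_add, Prod.snd_add]
    ring
  · simp only [Fv, Prod.snd_add]
    ring

theorem Fv_smul (i : ℕ) (l : ℤ) (c : ℝ) (v : ℝ × ℝ) : Fv i l (c • v) = c • Fv i l v := by
  ext
  · simp only [Fv, Prod.smul_fst, Prod.smul_snd, smul_eq_mul]
    ring
  · simp only [Fv, Prod.smul_snd, smul_eq_mul]
    ring

theorem det_lat (α : ℝ) (i : ℕ) (l : ℤ) (m m' : ℤ × ℤ) :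
    (Fv i l (lat α m)).1 * (Fv i l (lat α m')).2 - (Fv i l (lat α m')).1 * (Fv i l (lat α m)).2 =
      ((m.1 * m'.2 - m'.1 * m.2 : ℤ) : ℝ) := by
  have hK : (KK : ℝ) ^ i ≠ 0 := pow_ne_zero _ KK_pos.ne'
  simp only [Fv, lat]
  push_cast
  field_simp
  ring

theorem aff_sub (α y1 : ℝ) (m m' : ℤ × ℤ) : aff α y1 m = aff α y1 m' + lat α (m - m') := by
  ext
  · simp only [aff, lat, Prod.fst_add, Prod.fst_sub]
    push_cast
    ring
  · simp only [aff, lat, Prod.snd_add, Prod.fst_sub, Prod.snd_sub]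
    push_cast
    ring

theorem lat_zsmul (α : ℝ) (j : ℤ) (n : ℤ × ℤ) : lat α (j • n) = (j : ℝ) • lat α n := by
  ext
  · simp only [lat, Prod.smul_fst, smul_eq_mul]
    push_cast
    ring
  · simp only [lat, Prod.smul_fst, Prod.smul_snd, smul_eq_mul]
    push_cast
    ring

theorem norm_lat_zsmul (α : ℝ) (i : ℕ) (l : ℤ) (j : ℤ) (n : ℤ × ℤ) :
    ‖Fv i l (lat α (j • n))‖ = |(j : ℝ)| * ‖Fv i l (lat α n)‖ := by
  rw [lat_zsmul, Fv_smul, norm_smul, Real.norm_eq_abs]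

theorem prim_decomp {m : ℤ × ℤ} (hm : m ≠ 0) :
    ∃ (g : ℤ) (n : ℤ × ℤ), 1 ≤ g ∧ IsCoprime n.1 n.2 ∧ m = g • n := by
  have hg : 0 < Int.gcd m.1 m.2 := by
    rw [Nat.pos_iff_ne_zero]
    intro h
    rw [Int.gcd_eq_zero_iff] at h
    exact hm (Prod.ext h.1 h.2)
  obtain ⟨a, b, hab, ha, hb⟩ := Int.exists_gcd_one hg
  refine ⟨(Int.gcd m.1 m.2 : ℤ), (a, b), by exact_mod_cast hg, ?_, ?_⟩
  · rw [Int.isCoprime_iff_gcd_eq_one]
    exact hab
  · ext
    · simp only [Prod.smul_fst, smul_eq_mul]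
      rw [mul_comm]
      exact ha
    · simp only [Prod.smul_snd, smul_eq_mul]
      rw [mul_comm]
      exact hb

theorem norm_prim_le {α : ℝ} {i : ℕ} {l : ℤ} {g : ℤ} (hg : 1 ≤ g) (n : ℤ × ℤ) :
    ‖Fv i l (lat α n)‖ ≤ ‖Fv i l (lat α (g • n))‖ := by
  rw [norm_lat_zsmul]
  have h1 : (1 : ℝ) ≤ |(g : ℝ)| := by
    rw [abs_of_nonneg (by exact_mod_cast (by omega : (0 : ℤ) ≤ g))]
    exact_mod_cast hg
  nlinarith [norm_nonneg (Fv i l (lat α n))]

/-- primitive vectors are not zero -/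
theorem prim_pos {α : ℝ} {i : ℕ} {l : ℤ} {n : ℤ × ℤ} (hn : IsCoprime n.1 n.2) :
    0 < ‖Fv i l (lat α n)‖ := by
  have hK : (KK : ℝ) ^ i ≠ 0 := pow_ne_zero _ KK_pos.ne'
  by_contra hcon
  have h0 : Fv i l (lat α n) = 0 := by
    rw [← norm_eq_zero]; exact le_antisymm (not_lt.1 hcon) (norm_nonneg _)
  have h2 : (lat α n).2 = 0 := by
    have := congrArg Prod.snd h0
    simp only [Fv, Prod.snd_zero] at this
    exact (mul_eq_zero.1 this).resolve_left hK
  have h1 : (lat α n).1 = 0 := by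
    have := congrArg Prod.fst h0
    simp only [Fv, Prod.fst_zero, h2, mul_zero, add_zero] at this
    exact (div_eq_zero_iff.1 this).resolve_right hK
  have h3 : n.1 = 0 := by
    simp only [lat] at h1
    exact_mod_cast h1
  have h4 : n.2 = 0 := by
    simp only [lat, h3] at h2
    simpa using h2
  rw [h3, h4] at hn
  exact not_isUnit_zero (isCoprime_zero_left.1 hn)

theorem prim_unique {α : ℝ} {i : ℕ} {l : ℤ} {m m' : ℤ × ℤ} (hm : IsCoprime m.1 m.2)
    (hm' : IsCoprime m'.1 m'.2)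
    (h : 2 * ‖Fv i l (lat α m)‖ * ‖Fv i l (lat α m')‖ < 1) : m' = m ∨ m' = -m := by
  have hd := det_lat α i l m m'
  set v := Fv i l (lat α m)
  set v' := Fv i l (lat α m')
  have a1 : |v.1| ≤ ‖v‖ := norm_fst_le v
  have a2 : |v.2| ≤ ‖v‖ := norm_snd_le v
  have b1 : |v'.1| ≤ ‖v'‖ := norm_fst_le v'
  have b2 : |v'.2| ≤ ‖v'‖ := norm_snd_le v'
  have h1 : |v.1 * v'.2 - v'.1 * v.2| < 1 := by
    calc |v.1 * v'.2 - v'.1 * v.2| ≤ |v.1 * v'.2| + |v'.1 * v.2| := abs_sub _ _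
      _ = |v.1| * |v'.2| + |v'.1| * |v.2| := by rw [abs_mul, abs_mul]
      _ ≤ ‖v‖ * ‖v'‖ + ‖v'‖ * ‖v‖ :=
          add_le_add (mul_le_mul a1 b2 (abs_nonneg _) (norm_nonneg _))
            (mul_le_mul b1 a2 (abs_nonneg _) (norm_nonneg _))
      _ = 2 * ‖v‖ * ‖v'‖ := by ring
      _ < 1 := h
  rw [hd] at h1
  have h2 : m.1 * m'.2 - m'.1 * m.2 = 0 := by
    have h3 : |m.1 * m'.2 - m'.1 * m.2| < 1 := by exact_mod_cast h1
    exact Int.abs_lt_one_iff.1 h3
  have h2' : m.1 * m'.2 = m'.1 * m.2 := by linarith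
  have d1 : m.1 ∣ m'.1 := by
    have : m.1 ∣ m'.1 * m.2 := ⟨m'.2, h2'.symm⟩
    exact hm.dvd_of_dvd_mul_right this
  have d2 : m'.1 ∣ m.1 := by
    have : m'.1 ∣ m.1 * m'.2 := ⟨m.2, h2'⟩
    exact hm'.dvd_of_dvd_mul_right this
  rcases eq_or_ne m.1 0 with h0 | h0
  · have h0' : m'.1 = 0 := by
      rw [h0] at d1
      exact zero_dvd_iff.1 d1
    have u1 : IsUnit m.2 := by
      rw [h0] at hm
      exact isCoprime_zero_left.1 hm
    have u2 : IsUnit m'.2 := by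
      rw [h0'] at hm'
      exact isCoprime_zero_left.1 hm'
    rcases Int.isUnit_iff.1 u1 with e1 | e1 <;> rcases Int.isUnit_iff.1 u2 with e2 | e2
    · left; exact Prod.ext (by rw [h0, h0']) (by rw [e1, e2])
    · right; exact Prod.ext (by simp [h0, h0']) (by simp [e1, e2])
    · right; exact Prod.ext (by simp [h0, h0']) (by simp [e1, e2])
    · left; exact Prod.ext (by rw [h0, h0']) (by rw [e1, e2])
  · have h3 : m'.1 = m.1 ∨ m'.1 = -m.1 := by
      have := Int.natAbs_eq_natAbs_iff.1 (Nat.dvd_antisymm (Int.natAbs_dvd_natAbs.2 d2)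
        (Int.natAbs_dvd_natAbs.2 d1))
      exact this
    rcases h3 with h3 | h3
    · left
      refine Prod.ext h3 ?_
      rw [h3] at h2'
      exact mul_left_cancel₀ h0 h2'
    · right
      refine Prod.ext (by simpa using h3) ?_
      rw [h3] at h2'
      have : m.1 * m'.2 = m.1 * (-m.2) := by linarith
      simpa using mul_left_cancel₀ h0 this

/-- either at most one affine vector is short or the short ones are on a line -/
theorem affine_line {α y1 : ℝ} {i : ℕ} {l : ℤ} {R : ℝ} (hR : R ≤ 1 / 10) :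
    {m : ℤ × ℤ | ‖Fv i l (aff α y1 m)‖ ≤ R}.Subsingleton ∨
    ∃ (m0 n : ℤ × ℤ), IsCoprime n.1 n.2 ∧ ‖Fv i l (lat α n)‖ ≤ 2 * R ∧
      ‖Fv i l (aff α y1 m0)‖ ≤ R ∧
      (∀ m, ‖Fv i l (aff α y1 m)‖ ≤ R → ‖Fv i l (aff α y1 m0)‖ ≤ ‖Fv i l (aff α y1 m)‖) ∧
      ∀ m, ‖Fv i l (aff α y1 m)‖ ≤ R → ∃ j : ℤ, m = m0 + j • n ∧
        |(j : ℝ)| * ‖Fv i l (lat α n)‖ ≤ 2 * R := by
  by_cases hsub : {m : ℤ × ℤ | ‖Fv i l (aff α y1 m)‖ ≤ R}.Subsingleton
  · exact Or.inl hsub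
  right
  rw [Set.not_subsingleton_iff] at hsub
  obtain ⟨p, hp, q, hq, hpq⟩ := hsub
  have hR0 : 0 ≤ R := (norm_nonneg _).trans hp
  have hdiff : ∀ m m', ‖Fv i l (aff α y1 m)‖ ≤ R → ‖Fv i l (aff α y1 m')‖ ≤ R →
      ‖Fv i l (lat α (m - m'))‖ ≤ 2 * R := by
    intro m m' h1 h2
    have h3 : Fv i l (lat α (m - m')) = Fv i l (aff α y1 m) - Fv i l (aff α y1 m') := by
      rw [aff_sub α y1 m m', Fv_add]
      abel
    rw [h3]
    refine (norm_sub_le _ _).trans ?_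
    linarith
  obtain ⟨g, n, hg, hn, hgn⟩ := prim_decomp (sub_ne_zero.2 hpq)
  have hn2 : ‖Fv i l (lat α n)‖ ≤ 2 * R := by
    refine (norm_prim_le hg n).trans ?_
    rw [← hgn]
    exact hdiff p q hp hq
  have hnpos := prim_pos (α := α) (i := i) (l := l) hn
  have hline : ∀ m m', ‖Fv i l (aff α y1 m)‖ ≤ R → ‖Fv i l (aff α y1 m')‖ ≤ R →
      ∃ j : ℤ, m = m' + j • n ∧ |(j : ℝ)| * ‖Fv i l (lat α n)‖ ≤ 2 * R := by
    intro m m' h1 h2
    rcases eq_or_ne m m' with h | h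
    · refine ⟨0, by simp [h], by simpa using hR0⟩
    · obtain ⟨g', n', hg', hn', hgn'⟩ := prim_decomp (sub_ne_zero.2 h)
      have hn2' : ‖Fv i l (lat α n')‖ ≤ 2 * R := by
        refine (norm_prim_le hg' n').trans ?_
        rw [← hgn']
        exact hdiff m m' h1 h2
      have hlt : 2 * ‖Fv i l (lat α n)‖ * ‖Fv i l (lat α n')‖ < 1 := by
        have : ‖Fv i l (lat α n)‖ * ‖Fv i l (lat α n')‖ ≤ (2 * R) * (2 * R) :=
          mul_le_mul hn2 hn2' (norm_nonneg _) (by linarith)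
        nlinarith
      rcases prim_unique hn hn' hlt with e | e
      · refine ⟨g', ?_, ?_⟩
        · rw [← e, ← hgn']; abel
        · rw [← norm_lat_zsmul, ← e, ← hgn']
          exact hdiff m m' h1 h2
      · have e2 : m - m' = (-g') • n := by
          rw [hgn', e]; simp
        refine ⟨-g', ?_, ?_⟩
        · rw [← e2]; abel
        · rw [← norm_lat_zsmul, ← e2]
          exact hdiff m m' h1 h2
  -- the set is finite
  have hfin : {m : ℤ × ℤ | ‖Fv i l (aff α y1 m)‖ ≤ R}.Finite := by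
    have hsub2 : {m : ℤ × ℤ | ‖Fv i l (aff α y1 m)‖ ≤ R} ⊆
        (fun j : ℤ => q + j • n) '' (Set.Icc (-⌈2 * R / ‖Fv i l (lat α n)‖⌉)
          ⌈2 * R / ‖Fv i l (lat α n)‖⌉) := by
      intro m hm
      obtain ⟨j, hj, hj2⟩ := hline m q hm hq
      refine ⟨j, ?_, hj.symm⟩
      have h3 : |(j : ℝ)| ≤ 2 * R / ‖Fv i l (lat α n)‖ := by
        rw [le_div_iff₀ hnpos]; exact hj2
      have h4 : |(j : ℝ)| ≤ (⌈2 * R / ‖Fv i l (lat α n)‖⌉ : ℝ) := h3.trans (Int.le_ceil _)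
      have h5 : |j| ≤ ⌈2 * R / ‖Fv i l (lat α n)‖⌉ := by exact_mod_cast h4
      exact ⟨(abs_le.1 h5).1, (abs_le.1 h5).2⟩
    exact ((Set.finite_Icc _ _).image _).subset hsub2
  obtain ⟨m0, hm0, hmin⟩ := Set.exists_min_image _ (fun m => ‖Fv i l (aff α y1 m)‖) hfin ⟨q, hq⟩
  exact ⟨m0, n, hn, hn2, hm0, fun m hm => hmin m hm, fun m hm => hline m m0 hm hm0⟩

/-- a short vector of `Svec` gives a short affine vector or a short primitive lattice vector -/
theorem svec_cases {α y1 : ℝ} {i : ℕ} {l : ℤ} {w : ℝ × ℝ} (hw : w ∈ Svec α y1) :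
    (∃ m, w = aff α y1 m) ∨
      ∃ m : ℤ × ℤ, IsCoprime m.1 m.2 ∧ ‖Fv i l (lat α m)‖ ≤ ‖Fv i l w‖ := by
  obtain ⟨q, p, h | h⟩ := hw
  · right
    obtain ⟨h1, h2⟩ := h
    have h3 : ((q, p) : ℤ × ℤ) ≠ 0 := by
      intro h
      have e1 : q = 0 := congrArg Prod.fst h
      have e2 : p = 0 := congrArg Prod.snd h
      rcases h2 with h2 | h2
      · exact h2 e1
      · exact h2 e2
    obtain ⟨g, n, hg, hn, hgn⟩ := prim_decomp h3
    refine ⟨n, hn, ?_⟩
    have h4 : w = lat α (g • n) := by rw [← hgn, h1]; rfl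
    rw [h4]
    exact norm_prim_le hg n
  · left
    exact ⟨(q, p), h⟩

end Pool.Agent.H1.Horo
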