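import Pool.Agent.H1.Horo.CtSum
import Pool.Agent.H1.Horo.CtGeo

/-!
# The recursive inequality

`K = KK = 2^100`, `rh = (16 K)^(-2) = 2^(-208)`, `rh0 = 2^(-486)`.

PROOFS.
* `sum_WA`, `sum_WL`: exchange the two sums (`ENNReal.tsum_comm`, finite sum of tsums); for a
  fixed `m` only the `m` with `‖Fv (i+1) l (aff m)‖ ≤ 2 K rh` contribute (`child_small`), and for
  those the sum over `k` is at most `64 K^(5/4) ‖Fv (i+1) l (aff m)‖^(-b)` by `sum_children` and
  `child_formula` (the vector is not zero by `aff_ne`, `lat_ne`).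
* `one_le_W`: an alive interval has an affine vector of norm `t ≤ rh0`, then `WA ≥ t^(-3/4) ≥
  rh0^(-3/4)`, or a primitive lattice vector of norm `t ≤ rh0` (`svec_cases`), then
  `WL ≥ t^(-5/4) ≥ rh0^(-5/4) ≥ rh0^(-3/4)`.  Statement `W_big`.
* `extra_le`: let `W = WA rh + WL rh`.  The vectors of norm in `(rh, 2 K rh]`: there are at most two
  primitive ones in the lattice (`prim_unique`, `2 (2 K rh)^2 < 1`), contributing at most
  `2 rh^(-5/4) ≤ W / 4` (`8 rh^(-5/4) ≤ rh0^(-3/4)`: `2^3 2^260 ≤ 2^364.5`).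
  Affine ones: by `affine_line` with `R = 2 K rh` there is at most one, or they are
  `m0 + j n` with `|j| ‖Fv n‖ ≤ 4 K rh`.  Their number is at most `1 + 8 K rh / ‖Fv n‖`, so they
  contribute at most `rh^(-3/4) + 8 K rh^(1/4) / ‖Fv n‖`.
  The first term is at most `W / 4` (`4 * 2^156 ≤ 2^364.5`).  If `t = ‖Fv n‖ ≤ rh` the second term
  is `8 K rh^(1/4) t^(1/4) t^(-5/4) ≤ 8 K rh^(1/2) t^(-5/4) = t^(-5/4) / 2`, and `WL rh ≥ 2 t^(-5/4)`
  (both `n` and `- n` are counted), so it is at most `W / 4`.  If `t > rh` it is at most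
  `8 K rh^(-3/4) ≤ 2^103 2^156 ≤ 2^364.5 / 4 ≤ W / 4`.
  Altogether the extra terms are at most `3 W / 4 ≤ W`.
* `rec_W`: combine.
-/

namespace Pool.Agent.H1.Horo

open Set MeasureTheory ENNReal

variable {α y1 : ℝ}

open Classical in
theorem sum_child_le {b : ℝ} (hb : b = 3 / 4 ∨ b = 5 / 4) (i : ℕ) (l : ℤ) {w : ℝ × ℝ}
    (hw : 0 < ‖Fv (i + 1) l w‖) :
    ∑ k ∈ Finset.range (KK ^ 2), (if ‖Fv i (l * (KK : ℤ) ^ 2 + k) w‖ ≤ rh then
        ENNReal.ofReal (‖Fv i (l * (KK : ℤ) ^ 2 + k) w‖ ^ (-b)) else 0) ≤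
      ENNReal.ofReal (64 * (KK : ℝ) ^ (5 / 4 : ℝ)) * (if ‖Fv (i + 1) l w‖ ≤ 2 * KK * rh then
        ENNReal.ofReal (‖Fv (i + 1) l w‖ ^ (-b)) else 0) := by
  by_cases hp : ‖Fv (i + 1) l w‖ ≤ 2 * KK * rh
  · rw [if_pos hp]
    have h1 : ∑ k ∈ Finset.range (KK ^ 2), (if ‖Fv i (l * (KK : ℤ) ^ 2 + k) w‖ ≤ rh then
        ENNReal.ofReal (‖Fv i (l * (KK : ℤ) ^ 2 + k) w‖ ^ (-b)) else 0) ≤
        ∑ k ∈ Finset.range (KK ^ 2),
          ENNReal.ofReal (‖Fv i (l * (KK : ℤ) ^ 2 + k) w‖ ^ (-b)) := by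
      refine Finset.sum_le_sum fun k _ => ?_
      split_ifs
      · exact le_refl _
      · exact zero_le
    refine h1.trans ?_
    rw [← ENNReal.ofReal_sum_of_nonneg (fun k _ => Real.rpow_nonneg (norm_nonneg _) _),
      ← ENNReal.ofReal_mul (by positivity)]
    refine ENNReal.ofReal_le_ofReal ?_
    have hne : ((Fv (i + 1) l w).1, (Fv (i + 1) l w).2) ≠ (0 : ℝ × ℝ) := by
      intro h
      have : Fv (i + 1) l w = 0 := h
      rw [this, norm_zero] at hw
      exact lt_irrefl _ hw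
    have hK1 : 1 ≤ KK := Nat.one_le_two_pow
    have h2 := sum_children hK1 hb hne
    have h3 : ∀ k ∈ Finset.range (KK ^ 2), ‖Fv i (l * (KK : ℤ) ^ 2 + k) w‖ ^ (-b) =
        ‖(((KK : ℝ) * (Fv (i + 1) l w).1 + k * (Fv (i + 1) l w).2 / KK,
          (Fv (i + 1) l w).2 / KK) : ℝ × ℝ)‖ ^ (-b) := by
      intro k _
      rw [child_formula]
    rw [Finset.sum_congr rfl h3]
    exact h2
  · rw [if_neg hp, mul_zero]
    refine le_of_eq (Finset.sum_eq_zero fun k hk => ?_)
    rw [if_neg]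
    intro h
    exact hp (child_small (Finset.mem_range.1 hk) h)

theorem sum_WA (hd : Dioph α y1) (i : ℕ) (l : ℤ) :
    ∑ k ∈ Finset.range (KK ^ 2), WA α y1 rh i (l * (KK : ℤ) ^ 2 + k) ≤
      ENNReal.ofReal (64 * (KK : ℝ) ^ (5 / 4 : ℝ)) * WA α y1 (2 * KK * rh) (i + 1) l := by
  classical
  unfold WA
  rw [← Summable.tsum_finsetSum (fun _ _ => ENNReal.summable), ← ENNReal.tsum_mul_left]
  refine ENNReal.tsum_le_tsum fun m => ?_
  exact sum_child_le (Or.inl rfl) i l (aff_ne hd m (i + 1) l)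

theorem sum_WL (hd : Dioph α y1) (i : ℕ) (l : ℤ) :
    ∑ k ∈ Finset.range (KK ^ 2), WL α rh i (l * (KK : ℤ) ^ 2 + k) ≤
      ENNReal.ofReal (64 * (KK : ℝ) ^ (5 / 4 : ℝ)) * WL α (2 * KK * rh) (i + 1) l := by
  classical
  unfold WL
  rw [← Summable.tsum_finsetSum (fun _ _ => ENNReal.summable), ← ENNReal.tsum_mul_left]
  refine ENNReal.tsum_le_tsum fun m => ?_
  by_cases hm : IsCoprime m.1 m.2
  · simp only [hm, true_and]
    exact sum_child_le (Or.inr rfl) i l (prim_pos hm)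
  · simp [hm]

theorem half_rpow (n : ℕ) (x : ℝ) : ((1 / 2 : ℝ) ^ n) ^ x = (2 : ℝ) ^ (-(n * x)) := by
  rw [one_div, inv_pow, ← Real.rpow_natCast, ← Real.rpow_neg (by norm_num),
    ← Real.rpow_mul (by norm_num)]
  congr 1
  ring

theorem rh_rpow_34 : rh ^ (-(3 / 4) : ℝ) = 2 ^ 156 := by
  rw [rh, half_rpow, ← Real.rpow_natCast]
  congr 1
  norm_num

theorem rh_rpow_54 : rh ^ (-(5 / 4) : ℝ) = 2 ^ 260 := by
  rw [rh, half_rpow, ← Real.rpow_natCast]
  congr 1
  norm_num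

theorem rh_rpow_14 : rh ^ (-(1 / 4) : ℝ) = 2 ^ 52 := by
  rw [rh, half_rpow, ← Real.rpow_natCast]
  congr 1
  norm_num

theorem rh0_rpow_34 : (2 : ℝ) ^ 364 ≤ rh0 ^ (-(3 / 4) : ℝ) := by
  rw [rh0, half_rpow, ← Real.rpow_natCast]
  refine Real.rpow_le_rpow_of_exponent_le (by norm_num) ?_
  norm_num

theorem rh0_le_rh : rh0 ≤ rh := by
  rw [rh0, rh]
  exact pow_le_pow_of_le_one (by norm_num) (by norm_num) (by norm_num)

theorem rh0_le_one : rh0 ≤ 1 := by
  rw [rh0]
  exact pow_le_one₀ (by norm_num) (by norm_num)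

theorem W_big (hd : Dioph α y1) {i : ℕ} {l : ℤ} (ha : Alive α y1 i l) :
    ENNReal.ofReal (rh0 ^ (-(3 / 4) : ℝ)) ≤ WA α y1 rh i l + WL α rh i l := by
  classical
  obtain ⟨w, hw, hw2⟩ := ha
  rcases svec_cases (i := i) (l := l) hw with ⟨m, hm⟩ | ⟨m, hm, hm2⟩
  · rw [hm] at hw2
    have h1 : ENNReal.ofReal (‖Fv i l (aff α y1 m)‖ ^ (-(3 / 4) : ℝ)) ≤ WA α y1 rh i l := by
      have := ENNReal.le_tsum (f := fun m : ℤ × ℤ => if ‖Fv i l (aff α y1 m)‖ ≤ rh then
        ENNReal.ofReal (‖Fv i l (aff α y1 m)‖ ^ (-(3 / 4) : ℝ)) else 0) m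
      simp only [hw2.trans rh0_le_rh, if_true] at this
      exact this
    refine le_add_right (le_trans ?_ h1)
    refine ENNReal.ofReal_le_ofReal ?_
    exact Real.rpow_le_rpow_of_nonpos (aff_ne hd m i l) hw2 (by norm_num)
  · have hw3 := hm2.trans hw2
    have h1 : ENNReal.ofReal (‖Fv i l (lat α m)‖ ^ (-(5 / 4) : ℝ)) ≤ WL α rh i l := by
      have := ENNReal.le_tsum (f := fun m : ℤ × ℤ =>
        if IsCoprime m.1 m.2 ∧ ‖Fv i l (lat α m)‖ ≤ rh then
        ENNReal.ofReal (‖Fv i l (lat α m)‖ ^ (-(5 / 4) : ℝ)) else 0) m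
      simp only [hw3.trans rh0_le_rh, hm, and_self, if_true] at this
      exact this
    refine le_add_left (le_trans ?_ h1)
    refine ENNReal.ofReal_le_ofReal ?_
    refine (Real.rpow_le_rpow_of_exponent_ge rh0_pos rh0_le_one
      (by norm_num : (-(5 / 4) : ℝ) ≤ -(3 / 4))).trans ?_
    exact Real.rpow_le_rpow_of_nonpos (prim_pos hm) hw3 (by norm_num)

theorem p259 : (2 : ℝ) ^ 259 = 2 * 2 ^ 258 := by
  rw [show (259 : ℕ) = 1 + 258 from rfl, pow_add, pow_one]

theorem p260 : (2 : ℝ) ^ 260 = 4 * 2 ^ 258 := by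
  rw [show (260 : ℕ) = 2 + 258 from rfl, pow_add]
  congr 1
  norm_num

theorem p262 : (2 : ℝ) ^ 262 = 16 * 2 ^ 258 := by
  rw [show (262 : ℕ) = 4 + 258 from rfl, pow_add]
  congr 1
  norm_num

theorem p156 : (2 : ℝ) ^ 156 ≤ 2 ^ 258 := pow_le_pow_right₀ (by norm_num) (by norm_num)

theorem p258 : (0 : ℝ) < 2 ^ 258 := by positivity

theorem num1 : (2 : ℝ) ^ 156 + 2 * 2 ^ 260 ≤ 2 ^ 262 := by
  rw [p260, p262]
  have h1 := p156
  have h2 := p258
  generalize (2 : ℝ) ^ 258 = P at *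
  generalize (2 : ℝ) ^ 156 = Q at *
  linarith

theorem num2 : (2 : ℝ) ^ 156 + 2 ^ 259 + 2 * 2 ^ 260 ≤ 2 ^ 262 := by
  rw [p260, p262, p259]
  have h1 := p156
  have h2 := p258
  generalize (2 : ℝ) ^ 258 = P at *
  generalize (2 : ℝ) ^ 156 = Q at *
  linarith

theorem one_le_W (hd : Dioph α y1) {i : ℕ} {l : ℤ} (ha : Alive α y1 i l) :
    1 ≤ WA α y1 rh i l + WL α rh i l := by
  refine le_trans ?_ (W_big hd ha)
  rw [← ENNReal.ofReal_one]
  refine ENNReal.ofReal_le_ofReal ?_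
  exact le_trans (one_le_pow₀ (by norm_num)) rh0_rpow_34

theorem tsum_le_card_mul {ι : Type*} (f : ι → ℝ≥0∞) (S : Finset ι) (c : ℝ≥0∞)
    (h0 : ∀ m ∉ S, f m = 0) (hc : ∀ m, f m ≤ c) : ∑' m, f m ≤ S.card * c := by
  rw [tsum_eq_sum (s := S) (fun m hm => h0 m hm)]
  refine (Finset.sum_le_card_nsmul _ _ _ (fun m _ => hc m)).trans ?_
  rw [nsmul_eq_mul]

open Classical in
/-- the part of the weight between `rh` and `2 K rh` -/
noncomputable def EA (α y1 : ℝ) (i : ℕ) (l : ℤ) : ℝ≥0∞ :=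
  ∑' m : ℤ × ℤ, if rh < ‖Fv i l (aff α y1 m)‖ ∧ ‖Fv i l (aff α y1 m)‖ ≤ 2 * KK * rh then
    ENNReal.ofReal (‖Fv i l (aff α y1 m)‖ ^ (-(3 / 4) : ℝ)) else 0

open Classical in
/-- the part of the weight between `rh` and `2 K rh` -/
noncomputable def EL (α : ℝ) (i : ℕ) (l : ℤ) : ℝ≥0∞ :=
  ∑' m : ℤ × ℤ, if IsCoprime m.1 m.2 ∧ rh < ‖Fv i l (lat α m)‖ ∧
      ‖Fv i l (lat α m)‖ ≤ 2 * KK * rh then
    ENNReal.ofReal (‖Fv i l (lat α m)‖ ^ (-(5 / 4) : ℝ)) else 0

theorem WA_le (i : ℕ) (l : ℤ) : WA α y1 (2 * KK * rh) i l ≤ WA α y1 rh i l + EA α y1 i l := by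
  classical
  unfold WA EA
  rw [← ENNReal.tsum_add]
  refine ENNReal.tsum_le_tsum fun m => ?_
  by_cases h1 : ‖Fv i l (aff α y1 m)‖ ≤ 2 * KK * rh
  · by_cases h2 : ‖Fv i l (aff α y1 m)‖ ≤ rh
    · rw [if_pos h1, if_pos h2]
      exact le_self_add
    · rw [if_pos h1, if_neg h2, if_pos ⟨not_le.1 h2, h1⟩, zero_add]
  · rw [if_neg h1]
    exact zero_le

theorem WL_le (i : ℕ) (l : ℤ) : WL α (2 * KK * rh) i l ≤ WL α rh i l + EL α i l := by
  classical
  unfold WL EL
  rw [← ENNReal.tsum_add]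
  refine ENNReal.tsum_le_tsum fun m => ?_
  by_cases h0 : IsCoprime m.1 m.2
  · by_cases h1 : ‖Fv i l (lat α m)‖ ≤ 2 * KK * rh
    · by_cases h2 : ‖Fv i l (lat α m)‖ ≤ rh
      · rw [if_pos ⟨h0, h1⟩, if_pos ⟨h0, h2⟩]
        exact le_self_add
      · rw [if_pos ⟨h0, h1⟩, if_neg (fun h => h2 h.2), if_pos ⟨h0, not_le.1 h2, h1⟩, zero_add]
    · rw [if_neg (fun h => h1 h.2)]
      exact zero_le
  · rw [if_neg (fun h => h0 h.1)]
    exact zero_le

theorem KK_rh : (2 : ℝ) * KK * rh = (1 / 2) ^ 107 := by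
  rw [rh, KK]
  push_cast
  norm_num

theorem EL_le (i : ℕ) (l : ℤ) : EL α i l ≤ 2 * ENNReal.ofReal (2 ^ 260) := by
  classical
  by_cases hex : ∃ n : ℤ × ℤ, IsCoprime n.1 n.2 ∧ rh < ‖Fv i l (lat α n)‖ ∧
      ‖Fv i l (lat α n)‖ ≤ 2 * KK * rh
  · obtain ⟨n, hn, hn1, hn2⟩ := hex
    unfold EL
    refine (tsum_le_card_mul _ {n, -n} (ENNReal.ofReal (2 ^ 260)) ?_ ?_).trans ?_
    · intro m hm
      rw [if_neg]
      rintro ⟨h0, h1, h2⟩
      apply hm
      have hlt : 2 * ‖Fv i l (lat α n)‖ * ‖Fv i l (lat α m)‖ < 1 := by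
        rw [KK_rh] at hn2 h2
        have h3 : ‖Fv i l (lat α n)‖ * ‖Fv i l (lat α m)‖ ≤ (1 / 2) ^ 107 * (1 / 2) ^ 107 :=
          mul_le_mul hn2 h2 (norm_nonneg _) (by positivity)
        have h4 : ((1 / 2 : ℝ)) ^ 107 * (1 / 2) ^ 107 < 1 / 2 := by norm_num
        linarith
      rcases prim_unique hn h0 hlt with e | e
      · simp [e]
      · simp [e]
    · intro m
      split_ifs with h
      · refine ENNReal.ofReal_le_ofReal ?_
        rw [← rh_rpow_54]
        exact Real.rpow_le_rpow_of_nonpos rh_pos h.2.1.le (by norm_num)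
      · exact zero_le
    · refine mul_le_mul_left ?_ _
      exact_mod_cast Finset.card_le_two
  · unfold EL
    have : ∀ m : ℤ × ℤ, (if IsCoprime m.1 m.2 ∧ rh < ‖Fv i l (lat α m)‖ ∧
      ‖Fv i l (lat α m)‖ ≤ 2 * KK * rh then
        ENNReal.ofReal (‖Fv i l (lat α m)‖ ^ (-(5 / 4) : ℝ)) else 0) = 0 := by
      intro m
      rw [if_neg]
      intro h
      exact hex ⟨m, h⟩
    simp [this]

/-- the affine extra terms -/
theorem EA_le (i : ℕ) (l : ℤ) : EA α y1 i l ≤ ENNReal.ofReal (2 ^ 156) ∨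
    ∃ n : ℤ × ℤ, IsCoprime n.1 n.2 ∧
      EA α y1 i l ≤ ENNReal.ofReal (2 ^ 156 + 2 ^ 51 / ‖Fv i l (lat α n)‖) := by
  classical
  have hterm : ∀ m : ℤ × ℤ, (if rh < ‖Fv i l (aff α y1 m)‖ ∧
      ‖Fv i l (aff α y1 m)‖ ≤ 2 * KK * rh then
        ENNReal.ofReal (‖Fv i l (aff α y1 m)‖ ^ (-(3 / 4) : ℝ)) else 0) ≤
        ENNReal.ofReal (2 ^ 156) := by
    intro m
    split_ifs with h
    · refine ENNReal.ofReal_le_ofReal ?_
      rw [← rh_rpow_34]
      exact Real.rpow_le_rpow_of_nonpos rh_pos h.1.le (by norm_num)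
    · exact zero_le
  have hR : (2 : ℝ) * KK * rh ≤ 1 / 10 := by
    rw [KK_rh]
    norm_num
  rcases affine_line (α := α) (y1 := y1) (i := i) (l := l) hR with hs | ⟨m0, n, hn, hn2, hm0, -, hl⟩
  · left
    by_cases hex : ∃ m : ℤ × ℤ, ‖Fv i l (aff α y1 m)‖ ≤ 2 * KK * rh
    · obtain ⟨m, hm⟩ := hex
      unfold EA
      refine (tsum_le_card_mul _ {m} (ENNReal.ofReal (2 ^ 156)) ?_ hterm).trans (by simp)
      intro m' hm'
      rw [if_neg]
      rintro ⟨h1, h2⟩
      apply hm'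
      rw [Finset.mem_singleton]
      exact hs h2 hm
    · unfold EA
      have : ∀ m : ℤ × ℤ, (if rh < ‖Fv i l (aff α y1 m)‖ ∧
          ‖Fv i l (aff α y1 m)‖ ≤ 2 * KK * rh then
            ENNReal.ofReal (‖Fv i l (aff α y1 m)‖ ^ (-(3 / 4) : ℝ)) else 0) = 0 := by
        intro m
        rw [if_neg]
        intro h
        exact hex ⟨m, h.2⟩
      simp [this]
  · right
    refine ⟨n, hn, ?_⟩
    have hpos := prim_pos (α := α) (i := i) (l := l) hn
    set s := ‖Fv i l (lat α n)‖ with hs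
    set N := ⌊2 * (2 * KK * rh) / s⌋ with hN
    have hN0 : 0 ≤ N := Int.floor_nonneg.2 (div_nonneg (by
      have := rh_pos; have := KK_pos; positivity) hpos.le)
    unfold EA
    refine (tsum_le_card_mul _ ((Finset.Icc (-N) N).image (fun j : ℤ => m0 + j • n))
      (ENNReal.ofReal (2 ^ 156)) ?_ hterm).trans ?_
    · intro m hm
      rw [if_neg]
      rintro ⟨h1, h2⟩
      apply hm
      obtain ⟨j, hj, hj2⟩ := hl m h2
      rw [Finset.mem_image]
      refine ⟨j, ?_, hj.symm⟩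
      have h3 : |(j : ℝ)| ≤ 2 * (2 * KK * rh) / s := by
        rw [le_div_iff₀ hpos]; exact hj2
      have h4 : |j| ≤ N := by
        rw [hN, Int.le_floor]
        push_cast
        exact h3
      rw [Finset.mem_Icc]
      exact ⟨(abs_le.1 h4).1, (abs_le.1 h4).2⟩
    · have hc : (((Finset.Icc (-N) N).image (fun j : ℤ => m0 + j • n)).card : ℝ≥0∞) ≤
          ENNReal.ofReal (1 + 2 * (2 * (2 * KK * rh) / s)) := by
        have h5 : ((Finset.Icc (-N) N).image (fun j : ℤ => m0 + j • n)).card ≤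
            (2 * N + 1).toNat := by
          refine Finset.card_image_le.trans ?_
          rw [Int.card_Icc]
          apply le_of_eq
          congr 1
          ring
        have h6 : (((2 * N + 1).toNat : ℕ) : ℝ) ≤ 1 + 2 * (2 * (2 * KK * rh) / s) := by
          have h7 : (((2 * N + 1).toNat : ℕ) : ℝ) = 2 * (N : ℝ) + 1 := by
            have h8 : (((2 * N + 1).toNat : ℕ) : ℤ) = 2 * N + 1 :=
              Int.toNat_of_nonneg (by omega)
            have h9 : ((((2 * N + 1).toNat : ℕ) : ℤ) : ℝ) = ((2 * N + 1 : ℤ) : ℝ) := by rw [h8]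
            push_cast at h9
            exact h9
          rw [h7]
          have := Int.floor_le (2 * (2 * KK * rh) / s)
          linarith
        have h7 : ((((Finset.Icc (-N) N).image (fun j : ℤ => m0 + j • n)).card : ℕ) : ℝ) ≤
            1 + 2 * (2 * (2 * KK * rh) / s) := le_trans (by exact_mod_cast h5) h6
        rw [← ENNReal.ofReal_natCast]
        exact ENNReal.ofReal_le_ofReal h7
      refine (mul_le_mul_left hc _).trans ?_
      rw [← ENNReal.ofReal_mul (by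
        have := rh_pos; have := KK_pos; positivity)]
      refine ENNReal.ofReal_le_ofReal ?_
      rw [KK_rh]
      apply le_of_eq
      rw [add_mul, one_mul]
      congr 1
      field_simp

theorem extra_le (hd : Dioph α y1) {i : ℕ} {l : ℤ} (ha : Alive α y1 i l) :
    WA α y1 (2 * KK * rh) i l + WL α (2 * KK * rh) i l ≤
      2 * (WA α y1 rh i l + WL α rh i l) := by
  classical
  have hW := W_big hd ha
  have hW2 : ENNReal.ofReal (2 ^ 364) ≤ WA α y1 rh i l + WL α rh i l :=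
    le_trans (ENNReal.ofReal_le_ofReal rh0_rpow_34) hW
  set W := WA α y1 rh i l + WL α rh i l with hWdef
  have hkey : EA α y1 i l + EL α i l ≤ W := by
    have hL := EL_le (α := α) i l
    have hhalf : W = 2⁻¹ * W + 2⁻¹ * W := by
      rw [← two_mul, ← mul_assoc, ENNReal.mul_inv_cancel (by norm_num) (by norm_num), one_mul]
    have h262 : ENNReal.ofReal (2 ^ 262) ≤ 2⁻¹ * W := by
      calc ENNReal.ofReal (2 ^ 262) = 2⁻¹ * (2 * ENNReal.ofReal (2 ^ 262)) := by
            rw [← mul_assoc, ENNReal.inv_mul_cancel (by norm_num) (by norm_num), one_mul]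
        _ ≤ 2⁻¹ * W := by
            refine mul_le_mul_right ?_ _
            refine le_trans ?_ hW2
            rw [← ENNReal.ofReal_ofNat 2, ← ENNReal.ofReal_mul (by norm_num)]
            refine ENNReal.ofReal_le_ofReal ?_
            have h1 : (2 : ℝ) * 2 ^ 262 = 2 ^ 263 := by
              rw [show (263 : ℕ) = 1 + 262 from rfl, pow_add, pow_one]
            rw [h1]
            exact pow_le_pow_right₀ (by norm_num) (by norm_num)
    rcases EA_le (α := α) (y1 := y1) i l with hA | ⟨n, hn, hA⟩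
    · calc EA α y1 i l + EL α i l
          ≤ ENNReal.ofReal (2 ^ 156) + 2 * ENNReal.ofReal (2 ^ 260) := add_le_add hA hL
        _ = ENNReal.ofReal (2 ^ 156 + 2 * 2 ^ 260) := by
            rw [← ENNReal.ofReal_ofNat 2, ← ENNReal.ofReal_mul (by norm_num),
              ← ENNReal.ofReal_add (by positivity) (by positivity)]
        _ ≤ ENNReal.ofReal (2 ^ 262) := ENNReal.ofReal_le_ofReal num1
        _ ≤ 2⁻¹ * W := h262
        _ ≤ W := by
            conv_rhs => rw [hhalf]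
            exact le_self_add
    · have hpos := prim_pos (α := α) (i := i) (l := l) hn
      set s := ‖Fv i l (lat α n)‖ with hs
      have hB : ENNReal.ofReal (2 ^ 51 / s) ≤ ENNReal.ofReal (2 ^ 259) ∨
          ENNReal.ofReal (2 ^ 51 / s) ≤ 2⁻¹ * W := by
        rcases le_or_gt s rh with hsr | hsr
        · right
          have h1 : ENNReal.ofReal (s ^ (-(5 / 4) : ℝ)) ≤ WL α rh i l := by
            have := ENNReal.le_tsum (f := fun m : ℤ × ℤ =>
              if IsCoprime m.1 m.2 ∧ ‖Fv i l (lat α m)‖ ≤ rh then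
              ENNReal.ofReal (‖Fv i l (lat α m)‖ ^ (-(5 / 4) : ℝ)) else 0) n
            simp only [← hs, hsr, hn, and_self, if_true] at this
            exact this
          have h2 : 2 ^ 51 / s ≤ 2⁻¹ * s ^ (-(5 / 4) : ℝ) := by
            have h3 : s ^ (-(5 / 4) : ℝ) = s ^ (-1 : ℝ) * s ^ (-(1 / 4) : ℝ) := by
              rw [← Real.rpow_add hpos]
              norm_num
            have h4 : (2 : ℝ) ^ 52 ≤ s ^ (-(1 / 4) : ℝ) := by
              rw [← rh_rpow_14]
              exact Real.rpow_le_rpow_of_nonpos hpos hsr (by norm_num)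
            rw [h3, Real.rpow_neg_one]
            have h5 : 0 < s⁻¹ := inv_pos.2 hpos
            rw [div_eq_mul_inv]
            nlinarith
          calc ENNReal.ofReal (2 ^ 51 / s) ≤ ENNReal.ofReal (2⁻¹ * s ^ (-(5 / 4) : ℝ)) :=
                ENNReal.ofReal_le_ofReal h2
            _ = 2⁻¹ * ENNReal.ofReal (s ^ (-(5 / 4) : ℝ)) := by
                rw [ENNReal.ofReal_mul (by norm_num), ENNReal.ofReal_inv_of_pos (by norm_num),
                  ENNReal.ofReal_ofNat]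
            _ ≤ 2⁻¹ * W := mul_le_mul_right (h1.trans (by rw [hWdef]; exact le_add_self)) _
        · left
          refine ENNReal.ofReal_le_ofReal ?_
          rw [div_le_iff₀ hpos]
          have : (2 : ℝ) ^ 259 * rh ≤ 2 ^ 259 * s :=
            mul_le_mul_of_nonneg_left hsr.le (by positivity)
          refine le_trans ?_ this
          rw [rh, show (259 : ℕ) = 51 + 208 from rfl, pow_add, mul_assoc, ← mul_pow]
          norm_num
      have hA' : EA α y1 i l ≤ ENNReal.ofReal (2 ^ 156) + ENNReal.ofReal (2 ^ 51 / s) := by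
        rw [← ENNReal.ofReal_add (by positivity) (by positivity)]
        exact hA
      rcases hB with hB | hB
      · calc EA α y1 i l + EL α i l
            ≤ (ENNReal.ofReal (2 ^ 156) + ENNReal.ofReal (2 ^ 259)) +
                2 * ENNReal.ofReal (2 ^ 260) :=
              add_le_add (hA'.trans (add_le_add_right hB _)) hL
          _ = ENNReal.ofReal (2 ^ 156 + 2 ^ 259 + 2 * 2 ^ 260) := by
              rw [← ENNReal.ofReal_ofNat 2, ← ENNReal.ofReal_mul (by norm_num),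
                ← ENNReal.ofReal_add (by positivity) (by positivity),
                ← ENNReal.ofReal_add (by positivity) (by positivity)]
          _ ≤ ENNReal.ofReal (2 ^ 262) := ENNReal.ofReal_le_ofReal num2
          _ ≤ 2⁻¹ * W := h262
          _ ≤ W := by
              conv_rhs => rw [hhalf]
              exact le_self_add
      · calc EA α y1 i l + EL α i l
            ≤ (ENNReal.ofReal (2 ^ 156) + 2⁻¹ * W) + 2 * ENNReal.ofReal (2 ^ 260) :=
              add_le_add (hA'.trans (add_le_add_right hB _)) hL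
          _ = (ENNReal.ofReal (2 ^ 156) + 2 * ENNReal.ofReal (2 ^ 260)) + 2⁻¹ * W := by ring
          _ ≤ ENNReal.ofReal (2 ^ 262) + 2⁻¹ * W := by
              refine add_le_add_left ?_ _
              rw [← ENNReal.ofReal_ofNat 2, ← ENNReal.ofReal_mul (by norm_num),
                ← ENNReal.ofReal_add (by positivity) (by positivity)]
              exact ENNReal.ofReal_le_ofReal num1
          _ ≤ 2⁻¹ * W + 2⁻¹ * W := add_le_add_left h262 _
          _ = W := hhalf.symm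
  calc WA α y1 (2 * KK * rh) i l + WL α (2 * KK * rh) i l
      ≤ (WA α y1 rh i l + EA α y1 i l) + (WL α rh i l + EL α i l) :=
        add_le_add (WA_le i l) (WL_le i l)
    _ = W + (EA α y1 i l + EL α i l) := by rw [hWdef]; ring
    _ ≤ W + W := add_le_add_right hkey _
    _ = 2 * W := by ring

theorem rec_W (hd : Dioph α y1) {i : ℕ} {l : ℤ} (ha : Alive α y1 (i + 1) l) :
    ∑ k ∈ Finset.range (KK ^ 2), (WA α y1 rh i (l * (KK : ℤ) ^ 2 + k) +
        WL α rh i (l * (KK : ℤ) ^ 2 + k)) ≤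
      ENNReal.ofReal (128 * (KK : ℝ) ^ (5 / 4 : ℝ)) *
        (WA α y1 rh (i + 1) l + WL α rh (i + 1) l) := by
  rw [Finset.sum_add_distrib]
  refine (add_le_add (sum_WA hd i l) (sum_WL hd i l)).trans ?_
  rw [← mul_add]
  refine (mul_le_mul_right (extra_le hd ha) _).trans ?_
  rw [← mul_assoc]
  refine mul_le_mul_left (le_of_eq ?_) _
  rw [← ENNReal.ofReal_ofNat 2, ← ENNReal.ofReal_mul (by positivity)]
  congr 1
  ring

end Pool.Agent.H1.Horo
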