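import Pool.Agent.H1.Horo.CtDefs

/-!
# The sum over the children

If `Fv (i+1) l w = (X, Y)` then `Fv i (l K^2 + k) w = (K X + k Y / K, Y / K)`, `0 ≤ k < K^2`.

PROOF of `sum_children` (`K ≥ 1`, `M = max |X| |Y|`, `b = 3/4` or `5/4`).
* If `2 |Y| ≤ |X|`: `|K X + k Y / K| ≥ K |X| - K |Y| ≥ K |X| / 2`, so the sum is at most
  `K^2 (K |X| / 2)^(-b) = 2^b K^(2-b) M^(-b) ≤ 3 K^(5/4) M^(-b)`.
* If `|X| < 2 |Y|` (so `Y ≠ 0`): with `u = K^2 X / Y` the norm is `(|Y| / K) max |u + k| 1`.  At most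
  two `k` have `⌊|u + k|⌋ = j`, for each `j`.  So
  `∑_k (max |u+k| 1)^(-b) ≤ 2 (1 + ∑_{1 ≤ j < K^2} j^(-b)) + K^2 (K^2)^(-b)`.
  `b = 3/4`: `∑_{1 ≤ j < J} j^(-3/4) ≤ 4 J^(1/4)`, so this is at most `2 + 8 K^(1/2) + K^(1/2) ≤ 11 K^(1/2)`.
  `b = 5/4`: `∑ j^(-5/4) ≤ 5`, so this is at most `13`.
  Times `(|Y|/K)^(-b) ≤ 2^b K^b M^(-b)`: at most `32 K^(5/4) M^(-b)`.
(One may use a different counting, e.g. compare with integrals; the constant 64 leaves room.)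
-/

namespace Pool.Agent.H1.Horo

open Set MeasureTheory ENNReal

theorem cs_anti (g : ℕ → ℝ) (hg : Antitone g) (h0 : ∀ n, 0 ≤ g n) (T : Finset ℕ) (n : ℕ)
    (hT : T.card ≤ n) : ∑ j ∈ T, g j ≤ ∑ j ∈ Finset.range n, g j := by
  classical
  have e1 : ∑ j ∈ T, g j = ∑ j ∈ T ∩ Finset.range n, g j + ∑ j ∈ T \ Finset.range n, g j :=
    (Finset.sum_inter_add_sum_sdiff T (Finset.range n) g).symm
  have e2 : ∑ j ∈ Finset.range n, g j =
      ∑ j ∈ Finset.range n ∩ T, g j + ∑ j ∈ Finset.range n \ T, g j :=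
    (Finset.sum_inter_add_sum_sdiff (Finset.range n) T g).symm
  rw [e1, e2, Finset.inter_comm]
  have h1 : ∑ j ∈ T \ Finset.range n, g j ≤ (T \ Finset.range n).card * g n := by
    rw [← nsmul_eq_mul]
    apply Finset.sum_le_card_nsmul
    intro j hj
    rw [Finset.mem_sdiff, Finset.mem_range, not_lt] at hj
    exact hg hj.2
  have h2 : (Finset.range n \ T).card * g n ≤ ∑ j ∈ Finset.range n \ T, g j := by
    rw [← nsmul_eq_mul]
    apply Finset.card_nsmul_le_sum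
    intro j hj
    rw [Finset.mem_sdiff, Finset.mem_range] at hj
    exact hg hj.1.le
  have h3 : (T \ Finset.range n).card ≤ (Finset.range n \ T).card := by
    have a1 := Finset.card_sdiff_add_card_inter T (Finset.range n)
    have a2 := Finset.card_sdiff_add_card_inter (Finset.range n) T
    rw [Finset.inter_comm, Finset.card_range] at a2
    omega
  have h4 : ((T \ Finset.range n).card : ℝ) * g n ≤ (Finset.range n \ T).card * g n :=
    mul_le_mul_of_nonneg_right (by exact_mod_cast h3) (h0 n)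
  linarith

theorem cs_double (g : ℕ → ℝ) (hg : Antitone g) (h0 : ∀ n, 0 ≤ g n) (u : ℝ) (n : ℕ) :
    ∑ k ∈ Finset.range n, g ⌊|u + k|⌋₊ ≤ 2 * ∑ j ∈ Finset.range n, g j := by
  classical
  rw [← Finset.sum_filter_add_sum_filter_not (Finset.range n) (fun k : ℕ => 0 ≤ u + k)]
  have hpos : ∑ k ∈ (Finset.range n).filter (fun k : ℕ => 0 ≤ u + k), g ⌊|u + k|⌋₊ ≤
      ∑ j ∈ Finset.range n, g j := by
    have key : ∀ a b : ℕ, 0 ≤ u + a → a < b → ⌊|u + a|⌋₊ < ⌊|u + b|⌋₊ := by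
      intro a b ha hab
      have hab' : (a : ℝ) + 1 ≤ b := by exact_mod_cast hab
      rw [abs_of_nonneg ha, abs_of_nonneg (by linarith)]
      have h1 : ⌊u + a⌋₊ + 1 = ⌊u + a + 1⌋₊ := (Nat.floor_add_one ha).symm
      have h2 : ⌊u + a + 1⌋₊ ≤ ⌊u + b⌋₊ := Nat.floor_mono (by linarith)
      omega
    have hinj : Set.InjOn (fun k : ℕ => ⌊|u + k|⌋₊)
        ((Finset.range n).filter (fun k : ℕ => 0 ≤ u + k) : Finset ℕ) := by
      intro a ha b hb hab
      simp only [Finset.coe_filter, Set.mem_ofPred_eq] at ha hb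
      simp only at hab
      rcases lt_trichotomy a b with h | h | h
      · have := key a b ha.2 h; omega
      · exact h
      · have := key b a hb.2 h; omega
    rw [← Finset.sum_image (f := g) hinj]
    apply cs_anti g hg h0
    refine Finset.card_image_le.trans ((Finset.card_filter_le _ _).trans ?_)
    rw [Finset.card_range]
  have hneg : ∑ k ∈ (Finset.range n).filter (fun k : ℕ => ¬ 0 ≤ u + k), g ⌊|u + k|⌋₊ ≤
      ∑ j ∈ Finset.range n, g j := by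
    have key : ∀ a b : ℕ, ¬ 0 ≤ u + b → a < b → ⌊|u + b|⌋₊ < ⌊|u + a|⌋₊ := by
      intro a b ha hab
      rw [not_le] at ha
      have hab' : (a : ℝ) + 1 ≤ b := by exact_mod_cast hab
      rw [abs_of_neg ha, abs_of_neg (by linarith)]
      have h1 : ⌊-(u + b)⌋₊ + 1 = ⌊-(u + b) + 1⌋₊ := (Nat.floor_add_one (by linarith)).symm
      have h2 : ⌊-(u + b) + 1⌋₊ ≤ ⌊-(u + a)⌋₊ := Nat.floor_mono (by linarith)
      omega
    have hinj : Set.InjOn (fun k : ℕ => ⌊|u + k|⌋₊)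
        ((Finset.range n).filter (fun k : ℕ => ¬ 0 ≤ u + k) : Finset ℕ) := by
      intro a ha b hb hab
      simp only [Finset.coe_filter, Set.mem_ofPred_eq] at ha hb
      simp only at hab
      rcases lt_trichotomy a b with h | h | h
      · have := key a b hb.2 h; omega
      · exact h
      · have := key b a ha.2 h; omega
    rw [← Finset.sum_image (f := g) hinj]
    apply cs_anti g hg h0
    refine Finset.card_image_le.trans ((Finset.card_filter_le _ _).trans ?_)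
    rw [Finset.card_range]
  linarith

/-- fourth roots -/
theorem cs_root (n : ℕ) (hn : 1 ≤ n) : ∃ a c : ℝ, 0 < c ∧ c < a ∧ a ≤ 1.2 * c ∧ a ^ 4 = (n : ℝ) + 1 ∧
    c ^ 4 = n ∧ a = ((n + 1 : ℕ) : ℝ) ^ (1 / 4 : ℝ) ∧ c = (n : ℝ) ^ (1 / 4 : ℝ) := by
  have hn' : (1 : ℝ) ≤ n := by exact_mod_cast hn
  refine ⟨((n + 1 : ℕ) : ℝ) ^ (1 / 4 : ℝ), (n : ℝ) ^ (1 / 4 : ℝ), by positivity, ?_, ?_, ?_, ?_, rfl, rfl⟩
  · apply Real.rpow_lt_rpow (by positivity) _ (by norm_num)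
    push_cast; linarith
  · have h1 : (((n + 1 : ℕ) : ℝ) ^ (1 / 4 : ℝ)) ^ 4 ≤ (1.2 * (n : ℝ) ^ (1 / 4 : ℝ)) ^ 4 := by
      have q1 : (((n + 1 : ℕ) : ℝ) ^ (1 / 4 : ℝ)) ^ 4 = n + 1 := by
        rw [← Real.rpow_natCast, ← Real.rpow_mul (by positivity)]
        norm_num
      have q2 : ((n : ℝ) ^ (1 / 4 : ℝ)) ^ 4 = n := by
        rw [← Real.rpow_natCast, ← Real.rpow_mul (by positivity)]
        norm_num
      rw [mul_pow, q1, q2]
      norm_num
      linarith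
    exact le_of_pow_le_pow_left₀ (by norm_num) (by positivity) h1
  · rw [← Real.rpow_natCast, ← Real.rpow_mul (by positivity)]
    norm_num
  · rw [← Real.rpow_natCast, ← Real.rpow_mul (by positivity)]
    norm_num

theorem cs_34 (n : ℕ) (hn : 1 ≤ n) :
    ∑ j ∈ Finset.range n, ((max j 1 : ℕ) : ℝ) ^ (-(3 / 4 : ℝ)) ≤ 8 * (n : ℝ) ^ (1 / 4 : ℝ) := by
  induction n, hn using Nat.le_induction with
  | base => norm_num
  | succ n hn ih =>
    rw [Finset.sum_range_succ]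
    obtain ⟨a, c, hc, hca, ha, ha4, hc4, ea, ec⟩ := cs_root n hn
    have h1 : ((max n 1 : ℕ) : ℝ) ^ (-(3 / 4 : ℝ)) = (c ^ 3)⁻¹ := by
      rw [max_eq_left hn, Real.rpow_neg (by positivity), ec, ← Real.rpow_natCast,
        ← Real.rpow_mul (by positivity)]
      norm_num
    rw [h1, ← ea]
    rw [← ec] at ih
    have h2 : (c ^ 3)⁻¹ ≤ 8 * (a - c) := by
      rw [inv_le_iff_one_le_mul₀ (by positivity)]
      have e : (1 : ℝ) = (a - c) * (a ^ 3 + a ^ 2 * c + a * c ^ 2 + c ^ 3) := by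
        have : (a - c) * (a ^ 3 + a ^ 2 * c + a * c ^ 2 + c ^ 3) = a ^ 4 - c ^ 4 := by ring
        rw [this, ha4, hc4]; ring
      have h3 : a ^ 3 + a ^ 2 * c + a * c ^ 2 + c ^ 3 ≤ 8 * c ^ 3 := by
        have a1 : a ^ 3 ≤ (1.2 * c) ^ 3 := pow_le_pow_left₀ (by linarith) ha 3
        have a2 : a ^ 2 ≤ (1.2 * c) ^ 2 := pow_le_pow_left₀ (by linarith) ha 2
        have a3 : a ^ 2 * c ≤ (1.2 * c) ^ 2 * c := mul_le_mul_of_nonneg_right a2 hc.le
        have a4 : a * c ^ 2 ≤ (1.2 * c) * c ^ 2 := mul_le_mul_of_nonneg_right ha (by positivity)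
        have a5 : 0 < c ^ 3 := by positivity
        nlinarith
      calc (1 : ℝ) = (a - c) * (a ^ 3 + a ^ 2 * c + a * c ^ 2 + c ^ 3) := e
        _ ≤ (a - c) * (8 * c ^ 3) := mul_le_mul_of_nonneg_left h3 (by linarith)
        _ = 8 * (a - c) * c ^ 3 := by ring
    linarith

theorem cs_54 (n : ℕ) (hn : 1 ≤ n) :
    ∑ j ∈ Finset.range n, ((max j 1 : ℕ) : ℝ) ^ (-(5 / 4 : ℝ)) ≤
      8 - 7 * ((n : ℝ) ^ (1 / 4 : ℝ))⁻¹ := by
  induction n, hn using Nat.le_induction with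
  | base => norm_num
  | succ n hn ih =>
    rw [Finset.sum_range_succ]
    obtain ⟨a, c, hc, hca, ha, ha4, hc4, ea, ec⟩ := cs_root n hn
    have ha0 : 0 < a := by linarith
    have h1 : ((max n 1 : ℕ) : ℝ) ^ (-(5 / 4 : ℝ)) = (c ^ 5)⁻¹ := by
      rw [max_eq_left hn, Real.rpow_neg (by positivity), ec, ← Real.rpow_natCast,
        ← Real.rpow_mul (by positivity)]
      norm_num
    rw [h1, ← ea]
    rw [← ec] at ih
    have h2 : (c ^ 5)⁻¹ ≤ 7 * (c⁻¹ - a⁻¹) := by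
      have e0 : c⁻¹ - a⁻¹ = (a - c) / (a * c) := by
        field_simp
      rw [e0, inv_le_iff_one_le_mul₀ (by positivity)]
      have e : (1 : ℝ) = (a - c) * (a ^ 3 + a ^ 2 * c + a * c ^ 2 + c ^ 3) := by
        have : (a - c) * (a ^ 3 + a ^ 2 * c + a * c ^ 2 + c ^ 3) = a ^ 4 - c ^ 4 := by ring
        rw [this, ha4, hc4]; ring
      have h3 : a * (a ^ 3 + a ^ 2 * c + a * c ^ 2 + c ^ 3) ≤ 7 * c ^ 4 := by
        have a0 : a ^ 4 ≤ (1.2 * c) ^ 4 := pow_le_pow_left₀ (by linarith) ha 4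
        have a1 : a ^ 3 ≤ (1.2 * c) ^ 3 := pow_le_pow_left₀ (by linarith) ha 3
        have a2 : a ^ 2 ≤ (1.2 * c) ^ 2 := pow_le_pow_left₀ (by linarith) ha 2
        have a3 : a ^ 3 * c ≤ (1.2 * c) ^ 3 * c := mul_le_mul_of_nonneg_right a1 hc.le
        have a4 : a ^ 2 * c ^ 2 ≤ (1.2 * c) ^ 2 * c ^ 2 :=
          mul_le_mul_of_nonneg_right a2 (by positivity)
        have a6 : a * c ^ 3 ≤ (1.2 * c) * c ^ 3 := mul_le_mul_of_nonneg_right ha (by positivity)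
        have a5 : 0 < c ^ 4 := by positivity
        nlinarith
      have h4 : (7 : ℝ) * ((a - c) / (a * c)) * c ^ 5 = (a - c) * (7 * c ^ 4) / a := by
        field_simp
      rw [h4, le_div_iff₀ ha0]
      calc 1 * a = (a - c) * (a * (a ^ 3 + a ^ 2 * c + a * c ^ 2 + c ^ 3)) := by
            rw [e]; ring
        _ ≤ (a - c) * (7 * c ^ 4) := mul_le_mul_of_nonneg_left h3 (by linarith)
    linarith

theorem child_formula (i : ℕ) (l : ℤ) (k : ℕ) (w : ℝ × ℝ) :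
    Fv i (l * (KK : ℤ) ^ 2 + k) w =
      ((KK : ℝ) * (Fv (i + 1) l w).1 + k * (Fv (i + 1) l w).2 / KK, (Fv (i + 1) l w).2 / KK) := by
  have hK := KK_pos
  unfold Fv
  push_cast
  generalize (KK : ℝ) = K at hK ⊢
  refine Prod.ext ?_ ?_
  · change (w.1 + (l * K ^ 2 + k) * K ^ (2 * i) * w.2) / K ^ i =
      K * ((w.1 + l * K ^ (2 * (i + 1)) * w.2) / K ^ (i + 1)) + k * (K ^ (i + 1) * w.2) / K
    field_simp
    ring
  · change K ^ i * w.2 = K ^ (i + 1) * w.2 / K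
    field_simp
    try ring

theorem child_small {i : ℕ} {l : ℤ} {k : ℕ} (hk : k < KK ^ 2) {w : ℝ × ℝ}
    (h : ‖Fv i (l * (KK : ℤ) ^ 2 + k) w‖ ≤ rh) : ‖Fv (i + 1) l w‖ ≤ 2 * KK * rh := by
  rw [child_formula] at h
  have hK := KK_pos
  have hr := rh_pos
  have hk' : (k : ℝ) + 1 ≤ (KK : ℝ) ^ 2 := by exact_mod_cast hk
  generalize Fv (i + 1) l w = z at h ⊢
  generalize (KK : ℝ) = K at hK h hk' ⊢
  obtain ⟨X, Y⟩ := z
  rw [Prod.norm_def, max_le_iff] at h ⊢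
  simp only [Real.norm_eq_abs] at h ⊢
  obtain ⟨h1, h2⟩ := h
  rw [abs_div, abs_of_pos hK, div_le_iff₀ hK] at h2
  have hk0 : (0 : ℝ) ≤ k := Nat.cast_nonneg k
  have h3 : |k * Y / K| ≤ k * rh := by
    rw [abs_div, abs_of_pos hK, abs_mul, abs_of_nonneg hk0, div_le_iff₀ hK]
    have : (k : ℝ) * |Y| ≤ k * (rh * K) := mul_le_mul_of_nonneg_left h2 hk0
    linarith
  have h4 : |K * X| ≤ rh + k * rh := by
    have e : K * X = (K * X + k * Y / K) - k * Y / K := by ring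
    rw [e]
    refine (abs_sub _ _).trans ?_
    linarith
  rw [abs_mul, abs_of_pos hK] at h4
  have h5 : K * |X| ≤ K * (K * rh) := by
    have : (k + 1) * rh ≤ K ^ 2 * rh := mul_le_mul_of_nonneg_right hk' hr.le
    nlinarith
  have h6 : |X| ≤ K * rh := le_of_mul_le_mul_left h5 hK
  have h7 : 0 ≤ K * rh := by positivity
  constructor
  · linarith
  · linarith

theorem cs_main {K : ℕ} (hK : 1 ≤ K) {b : ℝ} (hb : b = 3 / 4 ∨ b = 5 / 4) (u : ℝ) :
    ∑ k ∈ Finset.range (K ^ 2), (max |u + k| 1) ^ (-b) ≤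
      16 * (K : ℝ) ^ (5 / 4 - b : ℝ) := by
  have hK' : (1 : ℝ) ≤ K := by exact_mod_cast hK
  have hb0 : 0 < b := by rcases hb with h | h <;> rw [h] <;> norm_num
  set g : ℕ → ℝ := fun j => ((max j 1 : ℕ) : ℝ) ^ (-b) with hg
  have hanti : Antitone g := by
    intro i j hij
    apply Real.rpow_le_rpow_of_nonpos
    · have : (1 : ℝ) ≤ ((max i 1 : ℕ) : ℝ) := by exact_mod_cast le_max_right i 1
      linarith
    · exact_mod_cast max_le_max_right 1 hij
    · linarith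
  have h0 : ∀ j, 0 ≤ g j := fun j => by positivity
  have h1 : ∑ k ∈ Finset.range (K ^ 2), (max |u + k| 1) ^ (-b) ≤
      ∑ k ∈ Finset.range (K ^ 2), g ⌊|u + k|⌋₊ := by
    apply Finset.sum_le_sum
    intro k _
    apply Real.rpow_le_rpow_of_nonpos
    · have : (1 : ℝ) ≤ ((max ⌊|u + k|⌋₊ 1 : ℕ) : ℝ) := by exact_mod_cast le_max_right _ 1
      linarith
    · rw [Nat.cast_max, Nat.cast_one]
      exact max_le_max_right 1 (Nat.floor_le (abs_nonneg _))
    · linarith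
  have h2 := cs_double g hanti h0 u (K ^ 2)
  have hK2 : 1 ≤ K ^ 2 := Nat.one_le_pow _ _ hK
  rcases hb with hb | hb
  · have h3 : ∑ j ∈ Finset.range (K ^ 2), g j ≤ 8 * ((K ^ 2 : ℕ) : ℝ) ^ (1 / 4 : ℝ) := by
      simp only [hg, hb]
      exact cs_34 (K ^ 2) hK2
    have h4 : ((K ^ 2 : ℕ) : ℝ) ^ (1 / 4 : ℝ) = (K : ℝ) ^ (5 / 4 - b : ℝ) := by
      rw [Nat.cast_pow, ← Real.rpow_natCast, ← Real.rpow_mul (by positivity), hb]
      norm_num
    rw [h4] at h3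
    linarith
  · have h3 : ∑ j ∈ Finset.range (K ^ 2), g j ≤
        8 - 7 * (((K ^ 2 : ℕ) : ℝ) ^ (1 / 4 : ℝ))⁻¹ := by
      simp only [hg, hb]
      exact cs_54 (K ^ 2) hK2
    have h4 : (0 : ℝ) ≤ (((K ^ 2 : ℕ) : ℝ) ^ (1 / 4 : ℝ))⁻¹ := by positivity
    have h5 : (K : ℝ) ^ (5 / 4 - b : ℝ) = 1 := by
      rw [hb, sub_self, Real.rpow_zero]
    rw [h5]
    linarith

theorem sum_children {K : ℕ} (hK : 1 ≤ K) {b : ℝ} (hb : b = 3 / 4 ∨ b = 5 / 4) {X Y : ℝ}
    (h : (X, Y) ≠ (0 : ℝ × ℝ)) :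
    ∑ k ∈ Finset.range (K ^ 2), ‖((K * X + k * Y / K, Y / K) : ℝ × ℝ)‖ ^ (-b) ≤
      64 * (K : ℝ) ^ (5 / 4 : ℝ) * ‖((X, Y) : ℝ × ℝ)‖ ^ (-b) := by
  have hK' : (1 : ℝ) ≤ K := by exact_mod_cast hK
  have hK0 : (0 : ℝ) < K := by linarith
  have hb0 : 0 < b := by rcases hb with h | h <;> rw [h] <;> norm_num
  have hb54 : b ≤ 5 / 4 := by rcases hb with h | h <;> rw [h] <;> norm_num
  have hb34 : 3 / 4 ≤ b := by rcases hb with h | h <;> rw [h] <;> norm_num
  have hN : 0 < ‖((X, Y) : ℝ × ℝ)‖ := norm_pos_iff.2 h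
  set N := ‖((X, Y) : ℝ × ℝ)‖ with hNd
  have hNe : N = max |X| |Y| := by rw [hNd, Prod.norm_def]; rfl
  have h2b : (2 : ℝ) ^ b ≤ 4 := by
    calc (2 : ℝ) ^ b ≤ (2 : ℝ) ^ (2 : ℝ) :=
          Real.rpow_le_rpow_of_exponent_le (by norm_num) (by linarith)
      _ = 4 := by norm_num
  have hNb : 0 < N ^ (-b) := Real.rpow_pos_of_pos hN _
  rcases le_or_gt (2 * |Y|) |X| with hc | hc
  · have hNX : N = |X| := by rw [hNe]; exact max_eq_left (by have := abs_nonneg Y; linarith)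
    have hterm : ∀ k ∈ Finset.range (K ^ 2),
        ‖((K * X + k * Y / K, Y / K) : ℝ × ℝ)‖ ^ (-b) ≤ 4 * (K : ℝ) ^ (-b) * N ^ (-b) := by
      intro k hk
      rw [Finset.mem_range] at hk
      have hk' : (k : ℝ) ≤ (K : ℝ) ^ 2 := by exact_mod_cast hk.le
      have hk0 : (0 : ℝ) ≤ k := Nat.cast_nonneg k
      have h3 : K * N / 2 ≤ ‖((K * X + k * Y / K, Y / K) : ℝ × ℝ)‖ := by
        rw [Prod.norm_def]
        refine le_trans ?_ (le_max_left _ _)
        change _ ≤ |K * X + k * Y / K|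
        have h4 : |k * Y / K| ≤ K * |Y| := by
          rw [abs_div, abs_of_pos hK0, abs_mul, abs_of_nonneg hk0, div_le_iff₀ hK0]
          have : (k : ℝ) * |Y| ≤ (K : ℝ) ^ 2 * |Y| := mul_le_mul_of_nonneg_right hk' (abs_nonneg _)
          linarith
        have h5 : |(K : ℝ) * X| ≤ |K * X + k * Y / K| + |k * Y / K| := by
          have e : (K : ℝ) * X = (K * X + k * Y / K) - k * Y / K := by ring
          calc |(K : ℝ) * X| = |(K * X + k * Y / K) - k * Y / K| := by rw [← e]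
            _ ≤ _ := abs_sub _ _
        rw [abs_mul, abs_of_pos hK0] at h5
        rw [hNX]
        have h6 : (K : ℝ) * (2 * |Y|) ≤ K * |X| := mul_le_mul_of_nonneg_left hc hK0.le
        linarith
      calc ‖((K * X + k * Y / K, Y / K) : ℝ × ℝ)‖ ^ (-b) ≤ (K * N / 2) ^ (-b) :=
            Real.rpow_le_rpow_of_nonpos (by positivity) h3 (by linarith)
        _ = (2 : ℝ) ^ b * ((K : ℝ) ^ (-b) * N ^ (-b)) := by
            rw [Real.div_rpow (by positivity) (by norm_num), Real.mul_rpow hK0.le hN.le,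
              Real.rpow_neg (by norm_num : (0 : ℝ) ≤ 2), div_inv_eq_mul, mul_comm]
        _ ≤ 4 * ((K : ℝ) ^ (-b) * N ^ (-b)) := by
            apply mul_le_mul_of_nonneg_right h2b (by positivity)
        _ = _ := by ring
    refine (Finset.sum_le_sum hterm).trans ?_
    rw [Finset.sum_const, Finset.card_range, nsmul_eq_mul]
    have h7 : ((K ^ 2 : ℕ) : ℝ) * (K : ℝ) ^ (-b) ≤ (K : ℝ) ^ (5 / 4 : ℝ) := by
      rw [Nat.cast_pow, ← Real.rpow_natCast, ← Real.rpow_add hK0]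
      apply Real.rpow_le_rpow_of_exponent_le hK'
      push_cast
      linarith
    calc ((K ^ 2 : ℕ) : ℝ) * (4 * (K : ℝ) ^ (-b) * N ^ (-b)) =
          4 * (((K ^ 2 : ℕ) : ℝ) * (K : ℝ) ^ (-b)) * N ^ (-b) := by ring
      _ ≤ 64 * (K : ℝ) ^ (5 / 4 : ℝ) * N ^ (-b) := by
          apply mul_le_mul_of_nonneg_right _ hNb.le
          have : 0 < (K : ℝ) ^ (5 / 4 : ℝ) := by positivity
          linarith
  · have hY : 0 < |Y| := by
      have := abs_nonneg X; linarith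
    have hY0 : Y ≠ 0 := abs_pos.1 hY
    have hNY : N ≤ 2 * |Y| := by
      rw [hNe]; exact max_le hc.le (by linarith)
    set u : ℝ := (K : ℝ) ^ 2 * X / Y with hu
    have hterm : ∀ k ∈ Finset.range (K ^ 2),
        ‖((K * X + k * Y / K, Y / K) : ℝ × ℝ)‖ ^ (-b) =
          (|Y| / K) ^ (-b) * (max |u + k| 1) ^ (-b) := by
      intro k _
      rw [← Real.mul_rpow (by positivity) (by positivity)]
      congr 1
      rw [Prod.norm_def, mul_max_of_nonneg _ _ (by positivity : (0 : ℝ) ≤ |Y| / K), mul_one]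
      change max |K * X + k * Y / K| |Y / K| = _
      rw [abs_div Y, abs_of_pos hK0]
      congr 1
      have e : (K : ℝ) * X + k * Y / K = (Y / K) * (u + k) := by
        rw [hu]; field_simp
      rw [e, abs_mul, abs_div, abs_of_pos hK0]
    rw [Finset.sum_congr rfl hterm, ← Finset.mul_sum]
    have h3 := cs_main hK hb u
    have h4 : (|Y| / K) ^ (-b) ≤ 4 * (K : ℝ) ^ b * N ^ (-b) := by
      have h5 : N / (2 * K) ≤ |Y| / K := by
        rw [div_le_div_iff₀ (by positivity) hK0]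
        nlinarith
      calc (|Y| / K) ^ (-b) ≤ (N / (2 * K)) ^ (-b) :=
            Real.rpow_le_rpow_of_nonpos (by positivity) h5 (by linarith)
        _ = (2 : ℝ) ^ b * ((K : ℝ) ^ b * N ^ (-b)) := by
            rw [Real.div_rpow hN.le (by positivity), Real.mul_rpow (by norm_num) hK0.le,
              Real.rpow_neg (by norm_num : (0 : ℝ) ≤ 2), Real.rpow_neg hK0.le]
            field_simp
        _ ≤ 4 * ((K : ℝ) ^ b * N ^ (-b)) := by
            apply mul_le_mul_of_nonneg_right h2b (by positivity)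
        _ = _ := by ring
    have h6 : (K : ℝ) ^ b * (K : ℝ) ^ (5 / 4 - b : ℝ) = (K : ℝ) ^ (5 / 4 : ℝ) := by
      rw [← Real.rpow_add hK0]
      congr 1
      ring
    calc (|Y| / K) ^ (-b) * ∑ k ∈ Finset.range (K ^ 2), (max |u + k| 1) ^ (-b)
        ≤ (4 * (K : ℝ) ^ b * N ^ (-b)) * (16 * (K : ℝ) ^ (5 / 4 - b : ℝ)) := by
          apply mul_le_mul h4 h3 (Finset.sum_nonneg fun _ _ => by positivity) (by positivity)
      _ = 64 * ((K : ℝ) ^ b * (K : ℝ) ^ (5 / 4 - b : ℝ)) * N ^ (-b) := by ring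
      _ = 64 * (K : ℝ) ^ (5 / 4 : ℝ) * N ^ (-b) := by rw [h6]

end Pool.Agent.H1.Horo
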