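import Pool.Agent.H1.Horo.HexPath

/-!
# The cylinders of a torus

`Nice κ`: the parameters are such that the `A`-paths `t ↦ u C + t A`, `u ∈ [κ, 1 - κ]`, and the
`C`-paths `t ↦ z + v ρ + t C`, `v ∈ [1/4, 3/4]`, stay in the polygon, off the slit.

PROOFS (`a = cr C A > 0`, `z = x C + y A`, `x = cr z A / a`, `y = cr C z / a ∈ (0,1)`, `|x| < κ` as
`cr z A = cr z ρ`; `ρ = - x C + (1 - y) A`).
* `apath_mem`: if `t ≤ y`, `u C + t A = (u - (t/y) x) C + (t/y) z`, use `mem_hex_lower`; if `t ≥ y`, with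
  `v = (t - y)/(1 - y)`: `u C + t A = z + (u - (1-v) x) C + v ρ`, use `mem_hex_upper`.
* `apath_slit`: `ell = x' C + y' A` with `|x'| < κ`; `u C + t A = A + r ell` gives `u = r x' < κ`.
* `cpath_slit`: apply `cr C` to `A + r ell = z + v ρ + t C`: `(1 - v) cr C ρ = r cr ell C < cr C ρ / 4`.
* `cross`: `u C + t A = z + v ρ + r C` with `t = y + v (1 - y)`, `r = u - (1 - v) x`.
-/

namespace Pool.Agent.H1.Horo

open Set MeasureTheory

structure Par.Nice {n : ℕ} (D : Par n) (κ : ℝ) : Prop where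
  pos : D.Pos
  zρ : ∀ i e, |cr (D.zz i) (D.rho i e)| < κ * cr (D.C i e) (D.A i e)
  eA : ∀ i, |cr D.ell (D.A i true)| < κ * cr (D.C i true) (D.A i true)
  eC : ∀ i, 4 * cr D.ell (D.C i true) < cr (D.C i true) (D.rho i true)

namespace Par
variable {n : ℕ} [NeZero n] {D : Par n} {κ : ℝ}

noncomputable def apath (D : Par n) (i : Fin n) (e : Bool) (u t : ℝ) : (pat n).Pt :=
  D.pt i e (u * D.C i e + t * D.A i e)

noncomputable def cpath (D : Par n) (i : Fin n) (e : Bool) (v t : ℝ) : (pat n).Pt :=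
  D.pt i e (D.zz i + v * D.rho i e + t * D.C i e)

theorem cyl_coords (hD : D.Nice κ) (i : Fin n) (e : Bool) : ∃ x y : ℝ, |x| < κ ∧ 0 < y ∧ y < 1 ∧
    D.zz i = (x : ℂ) * D.C i e + (y : ℂ) * D.A i e := by
  have h1 := hD.pos.cz i e
  have h2 := hD.pos.cρ i e
  have h3 : cr (D.C i e) (D.A i e) = cr (D.C i e) (D.zz i) + cr (D.C i e) (D.rho i e) := by
    simp only [cr, A, Complex.add_re, Complex.add_im]; ring
  have h4 : 0 < cr (D.C i e) (D.A i e) := by rw [h3]; linarith
  have h5 := hD.zρ i e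
  refine ⟨cr (D.zz i) (D.rho i e) / cr (D.C i e) (D.A i e),
    cr (D.C i e) (D.zz i) / cr (D.C i e) (D.A i e), ?_, div_pos h1 h4, ?_, ?_⟩
  · rw [abs_div, abs_of_pos h4, div_lt_iff₀ h4]; exact h5
  · rw [div_lt_one h4]; linarith
  · have h6 : ((cr (D.C i e) (D.A i e) : ℝ) : ℂ) ≠ 0 := by
      rw [Ne, Complex.ofReal_eq_zero]; exact h4.ne'
    have h7 : ((cr (D.C i e) (D.A i e) : ℝ) : ℂ) * D.zz i
        = ((cr (D.zz i) (D.rho i e) : ℝ) : ℂ) * D.C i e
          + ((cr (D.C i e) (D.zz i) : ℝ) : ℂ) * D.A i e := by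
      apply Complex.ext
      · simp only [cr, A, Complex.add_re, Complex.add_im, Complex.mul_re, Complex.ofReal_re,
          Complex.ofReal_im]
        ring
      · simp only [cr, A, Complex.add_re, Complex.add_im, Complex.mul_im, Complex.ofReal_re,
          Complex.ofReal_im]
        ring
    rw [Complex.ofReal_div, Complex.ofReal_div]
    field_simp
    rw [mul_comm (D.zz i)]
    exact h7

theorem cyl_rho_eq (i : Fin n) (e : Bool) : D.rho i e = D.A i e - D.zz i := by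
  simp [A]

theorem apath_mem (hD : D.Nice κ) (i : Fin n) (e : Bool) {u t : ℝ} (hu : u ∈ Icc κ (1 - κ))
    (ht : t ∈ Icc (0 : ℝ) 1) : (u : ℂ) * D.C i e + t * D.A i e ∈ D.hex i e := by
  obtain ⟨x, y, hx, hy0, hy1, hz⟩ := cyl_coords hD i e
  have hx' := abs_lt.1 hx
  rcases le_total t y with h | h
  · have h1 : t / y ∈ Icc (0 : ℝ) 1 := ⟨div_nonneg ht.1 hy0.le, (div_le_one hy0).2 h⟩
    have h2 : |t / y * x| ≤ |x| := by
      rw [abs_mul, abs_of_nonneg h1.1]
      exact mul_le_of_le_one_left (abs_nonneg x) h1.2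
    have h3 := abs_le.1 (h2.trans hx.le)
    have h4 := mem_hex_lower hD.pos i e (u := u - t / y * x) (v := t / y)
      ⟨by linarith [hu.1], by linarith [hu.2]⟩ h1
    convert h4 using 1
    have hyC : (y : ℂ) ≠ 0 := by exact_mod_cast hy0.ne'
    push_cast
    rw [hz]
    field_simp
    ring
  · have h1y : 0 < 1 - y := by linarith
    have h1 : (t - y) / (1 - y) ∈ Icc (0 : ℝ) 1 :=
      ⟨div_nonneg (by linarith) h1y.le, (div_le_one h1y).2 (by linarith [ht.2])⟩
    set v := (t - y) / (1 - y) with hv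
    have hvt : v * (1 - y) + y = t := by
      rw [hv]; field_simp; ring
    have h2 : |(1 - v) * x| ≤ |x| := by
      rw [abs_mul, abs_of_nonneg (by linarith [h1.2] : (0 : ℝ) ≤ 1 - v)]
      exact mul_le_of_le_one_left (abs_nonneg x) (by linarith [h1.1])
    have h3 := abs_le.1 (h2.trans hx.le)
    have h4 := mem_hex_upper hD.pos i e (u := u - (1 - v) * x) (v := v)
      ⟨by linarith [hu.1], by linarith [hu.2]⟩ h1
    convert h4 using 1
    rw [cyl_rho_eq, ← hvt, hz]
    push_cast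
    ring

theorem apath_slit (hD : D.Nice κ) (i : Fin n) (e : Bool) {u t : ℝ} (hu : u ∈ Icc κ (1 - κ))
    (ht : t ∈ Icc (0 : ℝ) 1) : (u : ℂ) * D.C i e + t * D.A i e ∉ D.slit i e := by
  rintro ⟨he, r, hr, h⟩
  subst he
  have h1 := hD.pos.cz i true
  have h2 := hD.pos.cρ i true
  have h3 : cr (D.C i true) (D.A i true)
      = cr (D.C i true) (D.zz i) + cr (D.C i true) (D.rho i true) := by
    simp only [cr, A, Complex.add_re, Complex.add_im]; ring
  have h4 : 0 < cr (D.C i true) (D.A i true) := by rw [h3]; linarith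
  have h5 := hD.eA i
  have h6 : u * cr (D.C i true) (D.A i true) = r * cr D.ell (D.A i true) := by
    have h2 := congrArg (fun w => cr w (D.A i true)) h
    simp only [cr, Complex.add_re, Complex.add_im, Complex.mul_re, Complex.mul_im,
      Complex.ofReal_re, Complex.ofReal_im] at h2 ⊢
    linear_combination h2
  have h7 : r * cr D.ell (D.A i true) ≤ |cr D.ell (D.A i true)| := by
    calc r * cr D.ell (D.A i true) ≤ |r * cr D.ell (D.A i true)| := le_abs_self _
      _ = r * |cr D.ell (D.A i true)| := by rw [abs_mul, abs_of_nonneg hr.1]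
      _ ≤ |cr D.ell (D.A i true)| := mul_le_of_le_one_left (abs_nonneg _) hr.2
  have h8 := mul_le_mul_of_nonneg_right hu.1 h4.le
  linarith

theorem apath_straight (hD : D.Nice κ) (i : Fin n) (e : Bool) {u : ℝ} (hu : u ∈ Icc κ (1 - κ)) :
    (pat n).IsStraight D.edge (D.apath i e u) (D.A i e) :=
  straight_pt hD.pos i e (fun _ ht => apath_mem hD i e hu ht) (fun _ ht => apath_slit hD i e hu ht)

theorem apath_closed (hκ : 0 < κ) (hD : D.Nice κ) (i : Fin n) (e : Bool) {u : ℝ}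
    (hu : u ∈ Icc κ (1 - κ)) : D.apath i e u 0 = D.apath i e u 1 := by
  have h := pt_bottom hD.pos i e (hκ.trans_le hu.1) (hu.2.trans (by linarith))
  simp only [apath, Complex.ofReal_zero, zero_mul, add_zero, Complex.ofReal_one, one_mul]
  exact h

theorem cpath_mem (hD : D.Nice κ) (i : Fin n) (e : Bool) {v t : ℝ} (hv : v ∈ Icc (1 / 4 : ℝ) (3 / 4))
    (ht : t ∈ Icc (0 : ℝ) 1) : D.zz i + v * D.rho i e + t * D.C i e ∈ D.hex i e := by
  have h := mem_hex_upper hD.pos i e ht ⟨by linarith [hv.1], by linarith [hv.2]⟩ (v := v)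
  have h2 : D.zz i + v * D.rho i e + t * D.C i e = D.zz i + t * D.C i e + v * D.rho i e := by ring
  rw [h2]; exact h

theorem cpath_slit (hD : D.Nice κ) (i : Fin n) (e : Bool) {v t : ℝ}
    (hv : v ∈ Icc (1 / 4 : ℝ) (3 / 4)) (ht : t ∈ Icc (0 : ℝ) 1) :
    D.zz i + v * D.rho i e + t * D.C i e ∉ D.slit i e := by
  rintro ⟨he, r, hr, h⟩
  subst he
  have h1 := hD.pos.ec i
  have h2 := hD.pos.cρ i true
  have h3 := hD.eC i
  have h6 : (1 - v) * cr (D.C i true) (D.rho i true) = r * cr D.ell (D.C i true) := by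
    have h2 := congrArg (fun w => cr (D.C i true) w) h
    simp only [cr, A, Complex.add_re, Complex.add_im, Complex.mul_re, Complex.mul_im,
      Complex.ofReal_re, Complex.ofReal_im] at h2 ⊢
    linear_combination -h2
  have h7 : r * cr D.ell (D.C i true) ≤ cr D.ell (D.C i true) :=
    mul_le_of_le_one_left h1.le hr.2
  have h8 : (1 / 4) * cr (D.C i true) (D.rho i true)
      ≤ (1 - v) * cr (D.C i true) (D.rho i true) :=
    mul_le_mul_of_nonneg_right (by linarith [hv.2]) h2.le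
  linarith

theorem cpath_straight (hD : D.Nice κ) (i : Fin n) (e : Bool) {v : ℝ}
    (hv : v ∈ Icc (1 / 4 : ℝ) (3 / 4)) :
    (pat n).IsStraight D.edge (D.cpath i e v) (D.C i e) :=
  straight_pt hD.pos i e (fun _ ht => cpath_mem hD i e hv ht) (fun _ ht => cpath_slit hD i e hv ht)

theorem cpath_closed (hD : D.Nice κ) (i : Fin n) (e : Bool) {v : ℝ}
    (hv : v ∈ Icc (1 / 4 : ℝ) (3 / 4)) : D.cpath i e v 0 = D.cpath i e v 1 := by
  have h := pt_side hD.pos i e (v := v) (by linarith [hv.1]) (by linarith [hv.2])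
  simp only [cpath, Complex.ofReal_zero, zero_mul, add_zero, Complex.ofReal_one, one_mul]
  exact h

theorem cross (hD : D.Nice κ) (i : Fin n) (e : Bool) {u v : ℝ} (hu : u ∈ Icc κ (1 - κ))
    (hv : v ∈ Icc (1 / 4 : ℝ) (3 / 4)) :
    ∃ t ∈ Icc (0 : ℝ) 1, ∃ r ∈ Icc (0 : ℝ) 1, D.apath i e u t = D.cpath i e v r := by
  obtain ⟨x, y, hx, hy0, hy1, hz⟩ := cyl_coords hD i e
  have h1v : 0 ≤ 1 - v := by linarith [hv.2]
  have h2 : |(1 - v) * x| ≤ |x| := by
    rw [abs_mul, abs_of_nonneg h1v]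
    exact mul_le_of_le_one_left (abs_nonneg x) (by linarith [hv.1])
  have h3 := abs_le.1 (h2.trans hx.le)
  refine ⟨y + v * (1 - y), ⟨?_, ?_⟩, u - (1 - v) * x, ⟨by linarith [hu.1], by linarith [hu.2]⟩, ?_⟩
  · have := mul_nonneg (by linarith [hv.1] : (0 : ℝ) ≤ v) (by linarith : (0 : ℝ) ≤ 1 - y)
    linarith
  · have := mul_nonneg h1v (by linarith : (0 : ℝ) ≤ 1 - y)
    linarith
  · unfold apath cpath
    congr 1
    rw [cyl_rho_eq, hz]
    push_cast
    ring

end Par

end Pool.Agent.H1.Horo
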