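import Mathlib

/-!
# Translation surfaces, the topology of their strata, and the horocycle flow

A translation surface (a compact connected Riemann surface of genus at least two with a nonzero
holomorphic 1-form) is obtained from finitely many positively oriented Euclidean triangles by gluing
their sides in pairs by translations, in such a way that the vertices of the triangles are exactly
the zeros of the form.  Every translation surface of genus at least two arises in this way (take a
geodesic triangulation whose vertices are the zeros), and the side vectors of the triangles are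
relative periods which span all relative periods: moving the side vectors, with the gluing pattern
fixed, gives the period coordinates of the stratum around the surface.
-/

namespace Pool.Agent.H1.Horo

open Set

/-- A gluing pattern: finitely many triangles, each with sides `0, 1, 2` in cyclic order (side `k`
goes from vertex `k` to vertex `k + 1`), the sides being matched in pairs. -/
structure Pattern where
  /-- the triangles -/
  Tri : Type
  finite : Finite Tri
  /-- the side matched with a given side -/
  glue : Tri × Fin 3 → Tri × Fin 3
  glue_glue : ∀ h, glue (glue h) = h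
  glue_ne : ∀ h, glue h ≠ h

namespace Pattern

/-- `z h` is the vector of the side `h`.  The three sides of a triangle sum up to zero, each
triangle is positively oriented and matched sides differ by a translation (they are traversed
in opposite directions). -/
structure Valid (P : Pattern) (z : P.Tri × Fin 3 → ℂ) : Prop where
  closed : ∀ f, z (f, 0) + z (f, 1) + z (f, 2) = 0
  oriented : ∀ f, 0 < (z (f, 0)).re * (z (f, 1)).im - (z (f, 0)).im * (z (f, 1)).re
  glued : ∀ h, z (P.glue h) = - z h

/-- The glued surface is connected. -/
def Connected (P : Pattern) : Prop :=
  ∀ f g : P.Tri, Relation.ReflTransGen (fun f g => ∃ k l, P.glue (f, k) = (g, l)) f g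

/-- Turning counterclockwise around vertex `k` of the triangle `f`, from the corner `(f, k)` to the
next corner at the same vertex of the glued surface: one crosses side `k - 1` of `f`. -/
def turn (P : Pattern) (c : P.Tri × Fin 3) : P.Tri × Fin 3 := P.glue (c.1, c.2 - 1)

/-- The corner `(f, k)` contains the direction of the positive real axis.  The corner is the
sector from the direction `z (f, k)` (included) counterclockwise to the direction
`- z (f, k - 1)` (excluded); its angle is less than `π`. -/
def PointsRight (P : Pattern) (z : P.Tri × Fin 3 → ℂ) (c : P.Tri × Fin 3) : Prop :=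
  (0 < (z c).re ∧ (z c).im = 0) ∨ ((z c).im < 0 ∧ (z (c.1, c.2 - 1)).im < 0)

/-- The corners at the same vertex of the glued surface as `c` and containing the direction
of the positive real axis.  The cone angle of the surface at that vertex is `2 π` times the number
of these corners: the form has a zero of order `n` at the vertex if their number is `n + 1`. -/
def rightCorners (P : Pattern) (z : P.Tri × Fin 3 → ℂ) (c : P.Tri × Fin 3) :
    Set (P.Tri × Fin 3) :=
  {c' | (∃ n : ℕ, P.turn^[n] c = c') ∧ P.PointsRight z c'}

/-- Points of the closed triangles, in barycentric coordinates. -/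
def Chart (P : Pattern) : Type := {p : P.Tri × (Fin 3 → ℝ) // p.2 ∈ stdSimplex ℝ (Fin 3)}

/-- The point of the side `h` at the fraction `t` of the way. -/
def sidePt (P : Pattern) (h : P.Tri × Fin 3) (t : ℝ) : P.Tri × (Fin 3 → ℝ) :=
  (h.1, fun i => if i = h.2 then 1 - t else if i = h.2 + 1 then t else 0)

/-- Matched sides are glued, with reversed orientation. -/
def Glued (P : Pattern) (p q : P.Chart) : Prop :=
  ∃ h, ∃ t ∈ Icc (0 : ℝ) 1, p.1 = P.sidePt h t ∧ q.1 = P.sidePt (P.glue h) (1 - t)

/-- The points of the glued surface. -/
def Pt (P : Pattern) : Type := Quot P.Glued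

/-- The position in the plane of a point of a triangle, vertex `0` being put at the origin. -/
noncomputable def pos (P : Pattern) (z : P.Tri × Fin 3 → ℂ) (p : P.Chart) : ℂ :=
  (p.1.2 1 : ℂ) * z (p.1.1, 0) + (p.1.2 2 : ℂ) * (z (p.1.1, 0) + z (p.1.1, 1))

/-- The path `γ` (on the time interval `[0, 1]`) is a straight path with holonomy `w`: it runs
through finitely many triangles, in each of them with constant velocity `w`. -/
def IsStraight (P : Pattern) (z : P.Tri × Fin 3 → ℂ) (γ : ℝ → P.Pt) (w : ℂ) : Prop :=
  ∃ (m : ℕ) (τ : ℕ → ℝ), Monotone τ ∧ τ 0 = 0 ∧ τ m = 1 ∧
    ∀ k < m, ∃ (f : P.Tri) (a : ℂ), ∀ t ∈ Icc (τ k) (τ (k + 1)),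
      ∃ p : P.Chart, p.1.1 = f ∧ Quot.mk P.Glued p = γ t ∧ P.pos z p = a + t * w

end Pattern

/-- Two glued surfaces are isomorphic as translation surfaces: there is a bijection between their
points under which the straight paths of holonomy `w` correspond to the straight paths of
holonomy `w`, for every `w`. -/
def Isomorphic (P : Pattern) (z : P.Tri × Fin 3 → ℂ) (Q : Pattern) (y : Q.Tri × Fin 3 → ℂ) :
    Prop :=
  ∃ Θ : P.Pt ≃ Q.Pt, ∀ (γ : ℝ → P.Pt) (w : ℂ), P.IsStraight z γ w ↔ Q.IsStraight y (Θ ∘ γ) w

/-- The action of the horocycle flow `u(s) = (1 s; 0 1)` on side vectors. -/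
def shear {A : Type*} (s : ℝ) (z : A → ℂ) : A → ℂ := fun h => ⟨(z h).re + s * (z h).im, (z h).im⟩

/-- A closed connected translation surface of genus at least two, triangulated with vertices
at the zeros of the form. -/
structure TranslationSurface where
  P : Pattern
  /-- the side vectors -/
  z : P.Tri × Fin 3 → ℂ
  nonempty : Nonempty P.Tri
  valid : P.Valid z
  connected : P.Connected
  /-- every vertex is a zero of the form: its cone angle is at least `4 π` -/
  zeros : ∀ c, 2 ≤ (P.rightCorners z c).encard

namespace TranslationSurface

/-- The surface `X.P, y` lies in the neighbourhood of radius `ε` of `X`: it is isomorphic to a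
surface with the same gluing pattern as `X` whose side vectors differ by less than `ε` from those
of `X`.  These neighbourhoods form a basis of neighbourhoods of `X` for the topology of the stratum
given by period coordinates. -/
def Close (X : TranslationSurface) (ε : ℝ) (Q : Pattern) (y : Q.Tri × Fin 3 → ℂ) : Prop :=
  ∃ z' : X.P.Tri × Fin 3 → ℂ, X.P.Valid z' ∧ (∀ h, ‖z' h - X.z h‖ < ε) ∧
    Isomorphic X.P z' Q y

/-- Topological recurrence of the orbit of `X` under the horocycle flow: for every neighbourhood
the set of times `s` with `u(s) X` in this neighbourhood is unbounded. -/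
def Recurrent (X : TranslationSurface) : Prop :=
  ∀ ε > 0, ∀ S : ℝ, ∃ s : ℝ, S < |s| ∧ X.Close ε X.P (shear s X.z)

end TranslationSurface

end Pool.Agent.H1.Horo
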