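import Pool.Agent.H1.Horo.Basic

/-!
# The scales: Borel-Cantelli

PROOF.  Let `R' = nbhd R` (open), `m` a nonzero integer, `E_m = {μ ∈ (1, 6/5)^21 : ∀ j, m / μ j ∈ R'}`
(measurable).  The measure of `{μ ∈ (1, 6/5) : m / μ ∈ R'}` is, by the change of variables
`t = m / μ`, at most `(36/25) / |m|` times the measure of `R'` in `[5|m|/6, |m|]` (or its opposite), so
at most `C |m|^(-1/20)` (apply `Sparse` with `X = 5 |m| / 6`, `|m| ≥ 2`; a change of variables may be
avoided: `μ ↦ m / μ` is bi-Lipschitz on `(1, 6/5)`, the inverse having Lipschitz constant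
`(36/25) / |m|`, use the Hausdorff measure estimate or `volume_image_le` for Lipschitz maps).  The
product measure of `E_m` is at most `C^21 |m|^(-21/20)`, summable.  By
Borel-Cantelli almost every `μ` is in finitely many `E_m` only (positive and negative `m`), and almost
every `μ` is injective (the diagonals are null sets).  Take such a `μ` and `m0` with `μ ∉ E_m` for
`|m| ≥ m0`; for `|s| > m0 + 1`, `m = ⌊s⌋`, `|s / μ j - m / μ j| < 1`, so if `s / μ j ∈ R` for all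
`j` then `m / μ j ∈ R'` for all `j`, a contradiction.
-/

namespace Pool.Agent.H1.Horo

open Set MeasureTheory Filter

namespace Scales

/-- the bad parameters for one coordinate -/
def A (R : Set ℝ) (m : ℝ) : Set ℝ := {u | 1 < u ∧ u < 6 / 5 ∧ m / u ∈ nbhd R}

lemma volume_A {R : Set ℝ} {C : ℝ} (hC0 : 0 ≤ C) (hC : ∀ X : ℝ, 1 ≤ X →
    volume (nbhd R ∩ {s | X ≤ |s| ∧ |s| ≤ 2 * X}) ≤ ENNReal.ofReal (C * X ^ (19 / 20 : ℝ)))
    {m : ℝ} (hm : 2 ≤ |m|) :
    volume (A R m) ≤ ENNReal.ofReal (2 * C * |m| ^ (-(1 / 20) : ℝ)) := by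
  set X : ℝ := 5 * |m| / 6 with hX
  have hX1 : 1 ≤ X := by
    rw [hX]
    linarith
  have hm0 : 0 < |m| := by linarith
  set B : Set ℝ := nbhd R ∩ {s | X ≤ |s| ∧ |s| ≤ 2 * X} with hB
  set K : NNReal := ⟨2 / |m|, by positivity⟩ with hK
  have hsub : A R m ⊆ (fun t => m / t) '' B := by
    rintro u ⟨hu1, hu2, hu⟩
    have hu0 : 0 < u := by linarith
    have hmne : m ≠ 0 := abs_pos.1 hm0
    refine ⟨m / u, ⟨hu, ?_, ?_⟩, ?_⟩
    · rw [abs_div, abs_of_pos hu0, le_div_iff₀ hu0, hX]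
      nlinarith
    · rw [abs_div, abs_of_pos hu0, div_le_iff₀ hu0, hX]
      nlinarith
    · show m / (m / u) = u
      field_simp
  have hlip : LipschitzOnWith K (fun t => m / t) B := by
    refine LipschitzOnWith.of_dist_le_mul ?_
    rintro t ⟨_, ht, _⟩ t' ⟨_, ht', _⟩
    have ht0 : 0 < |t| := by linarith
    have ht0' : 0 < |t'| := by linarith
    have h1 : t ≠ 0 := abs_pos.1 ht0
    have h2 : t' ≠ 0 := abs_pos.1 ht0'
    rw [Real.dist_eq, Real.dist_eq]
    have e1 : m / t - m / t' = m * (t' - t) / (t * t') := by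
      field_simp
    rw [e1, abs_div, abs_mul, abs_mul, abs_sub_comm t' t]
    show |m| * |t - t'| / (|t| * |t'|) ≤ 2 / |m| * |t - t'|
    rw [div_le_iff₀ (by positivity)]
    have h3 : |m| ≤ 2 / |m| * (|t| * |t'|) := by
      rw [div_mul_eq_mul_div, le_div_iff₀ hm0]
      have h4 : X * X ≤ |t| * |t'| := mul_le_mul ht ht' (by linarith) ht0.le
      have h5 : X * X = 25 / 36 * (|m| * |m|) := by
        rw [hX]
        ring
      nlinarith
    calc |m| * |t - t'| ≤ 2 / |m| * (|t| * |t'|) * |t - t'| :=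
          mul_le_mul_of_nonneg_right h3 (abs_nonneg _)
      _ = 2 / |m| * |t - t'| * (|t| * |t'|) := by ring
  have h1 := hlip.hausdorffMeasure_image_le (d := 1) zero_le_one
  rw [hausdorffMeasure_real, ENNReal.rpow_one] at h1
  refine (measure_mono hsub).trans (h1.trans ?_)
  have hKe : (K : ENNReal) = ENNReal.ofReal (2 / |m|) :=
    (ENNReal.ofReal_eq_coe_nnreal (by positivity)).symm
  rw [hKe]
  calc ENNReal.ofReal (2 / |m|) * volume B
      ≤ ENNReal.ofReal (2 / |m|) * ENNReal.ofReal (C * X ^ (19 / 20 : ℝ)) :=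
        mul_le_mul_right (hC X hX1) _
    _ = ENNReal.ofReal (2 / |m| * (C * X ^ (19 / 20 : ℝ))) := by
        rw [ENNReal.ofReal_mul (p := 2 / |m|) (by positivity)]
    _ ≤ ENNReal.ofReal (2 * C * |m| ^ (-(1 / 20) : ℝ)) := by
        refine ENNReal.ofReal_le_ofReal ?_
        have h2 : X ^ (19 / 20 : ℝ) ≤ |m| ^ (19 / 20 : ℝ) := by
          refine Real.rpow_le_rpow (by linarith) ?_ (by norm_num)
          rw [hX]
          linarith
        have h3 : |m| ^ (-(1 / 20) : ℝ) = |m| ^ (19 / 20 : ℝ) / |m| := by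
          rw [show (-(1 / 20) : ℝ) = 19 / 20 - 1 by norm_num, Real.rpow_sub hm0, Real.rpow_one]
        rw [h3]
        calc 2 / |m| * (C * X ^ (19 / 20 : ℝ)) ≤ 2 / |m| * (C * |m| ^ (19 / 20 : ℝ)) := by
              gcongr
          _ = 2 * C * (|m| ^ (19 / 20 : ℝ) / |m|) := by ring

/-- the bad parameters -/
def E (R : Set ℝ) (m : ℝ) : Set (Fin 21 → ℝ) := Set.pi univ fun _ => A R m

lemma volume_E {R : Set ℝ} {C : ℝ} (hC0 : 0 ≤ C) (hC : ∀ X : ℝ, 1 ≤ X →
    volume (nbhd R ∩ {s | X ≤ |s| ∧ |s| ≤ 2 * X}) ≤ ENNReal.ofReal (C * X ^ (19 / 20 : ℝ)))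
    {m : ℝ} (hm : 2 ≤ |m|) :
    volume (E R m) ≤ ENNReal.ofReal ((2 * C) ^ 21 * |m| ^ (-(21 / 20) : ℝ)) := by
  unfold E
  rw [volume_pi_pi, Finset.prod_const, Finset.card_univ, Fintype.card_fin]
  have h1 := volume_A hC0 hC hm
  calc volume (A R m) ^ 21 ≤ ENNReal.ofReal (2 * C * |m| ^ (-(1 / 20) : ℝ)) ^ 21 :=
        pow_le_pow_left' h1 21
    _ = ENNReal.ofReal ((2 * C * |m| ^ (-(1 / 20) : ℝ)) ^ 21) := by
        rw [ENNReal.ofReal_pow (by positivity)]
    _ = ENNReal.ofReal ((2 * C) ^ 21 * |m| ^ (-(21 / 20) : ℝ)) := by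
        congr 1
        rw [mul_pow, ← Real.rpow_natCast (|m| ^ (-(1 / 20) : ℝ)), ← Real.rpow_mul (abs_nonneg m)]
        norm_num

lemma volume_diag {i j : Fin 21} (hij : i ≠ j) : volume {u : Fin 21 → ℝ | u i = u j} = 0 := by
  have h := Measure.addHaar_submodule (volume : Measure (Fin 21 → ℝ))
    (LinearMap.ker ((LinearMap.proj i : (Fin 21 → ℝ) →ₗ[ℝ] ℝ) - LinearMap.proj j)) ?_
  · refine measure_mono_null ?_ h
    intro u hu
    rw [Set.mem_ofPred_eq] at hu
    rw [SetLike.mem_coe, LinearMap.mem_ker]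
    simp [hu]
  · intro htop
    have : (Pi.single i 1 : Fin 21 → ℝ) ∈
        LinearMap.ker ((LinearMap.proj i : (Fin 21 → ℝ) →ₗ[ℝ] ℝ) - LinearMap.proj j) := by
      rw [htop]
      trivial
    rw [LinearMap.mem_ker] at this
    simp [hij.symm] at this

end Scales

open Scales

theorem exists_scales {R : Set ℝ} (hR : Sparse R) :
    ∃ μ : Fin 21 → ℝ, Function.Injective μ ∧ (∀ j, 1 < μ j ∧ μ j < 6 / 5) ∧
      ∃ S0 : ℝ, ∀ s : ℝ, S0 < |s| → ∃ j, s / μ j ∉ R := by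
  obtain ⟨C', hC'⟩ := hR
  set C : ℝ := |C'| with hCdef
  have hC0 : 0 ≤ C := abs_nonneg _
  have hC : ∀ X : ℝ, 1 ≤ X →
      volume (nbhd R ∩ {s | X ≤ |s| ∧ |s| ≤ 2 * X}) ≤ ENNReal.ofReal (C * X ^ (19 / 20 : ℝ)) := by
    intro X hX
    refine (hC' X hX).trans (ENNReal.ofReal_le_ofReal ?_)
    refine mul_le_mul_of_nonneg_right (le_abs_self _) (Real.rpow_nonneg (by linarith) _)
  -- the bad sets
  set F : ℕ → Set (Fin 21 → ℝ) := fun n => E R ((n + 2 : ℕ) : ℝ) ∪ E R (-((n + 2 : ℕ) : ℝ)) with hF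
  have hFvol : ∀ n, volume (F n) ≤
      ENNReal.ofReal (2 * ((2 * C) ^ 21 * (((n + 2 : ℕ) : ℝ) ^ (-(21 / 20) : ℝ)))) := by
    intro n
    have hpos : (0 : ℝ) ≤ ((n + 2 : ℕ) : ℝ) := Nat.cast_nonneg _
    have habs1 : |((n + 2 : ℕ) : ℝ)| = ((n + 2 : ℕ) : ℝ) := abs_of_nonneg hpos
    have habs2 : |-((n + 2 : ℕ) : ℝ)| = ((n + 2 : ℕ) : ℝ) := by rw [abs_neg, habs1]
    have hge : (2 : ℝ) ≤ ((n + 2 : ℕ) : ℝ) := by
      push_cast
      have : (0 : ℝ) ≤ n := Nat.cast_nonneg _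
      linarith
    have h1 := volume_E hC0 hC (m := ((n + 2 : ℕ) : ℝ)) (by rw [habs1]; exact hge)
    have h2 := volume_E hC0 hC (m := -((n + 2 : ℕ) : ℝ)) (by rw [habs2]; exact hge)
    rw [habs1] at h1
    rw [habs2] at h2
    have hnn : 0 ≤ (2 * C) ^ 21 * ((n + 2 : ℕ) : ℝ) ^ (-(21 / 20) : ℝ) :=
      mul_nonneg (by positivity) (Real.rpow_nonneg hpos _)
    rw [two_mul, ENNReal.ofReal_add hnn hnn]
    exact (measure_union_le _ _).trans (add_le_add h1 h2)
  have hsum : ∑' n, volume (F n) ≠ ⊤ := by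
    refine ne_top_of_le_ne_top ?_ (ENNReal.tsum_le_tsum hFvol)
    refine Summable.tsum_ofReal_ne_top ?_
    refine Summable.mul_left _ (Summable.mul_left _ ?_)
    have h1 : Summable fun n : ℕ => (n : ℝ) ^ (-(21 / 20) : ℝ) := by
      rw [Real.summable_nat_rpow]
      norm_num
    exact (summable_nat_add_iff 2).2 h1
  have hBC := measure_limsup_atTop_eq_zero hsum
  -- the null set
  set Z : Set (Fin 21 → ℝ) := limsup F atTop ∪ ⋃ i : Fin 21, ⋃ j : Fin 21, ⋃ _ : i ≠ j,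
    {u : Fin 21 → ℝ | u i = u j} with hZ
  have hZ0 : volume Z = 0 := by
    rw [hZ, measure_union_null_iff]
    refine ⟨hBC, ?_⟩
    rw [measure_iUnion_null_iff]
    intro i
    rw [measure_iUnion_null_iff]
    intro j
    rw [measure_iUnion_null_iff]
    intro hij
    exact volume_diag hij
  set Q : Set (Fin 21 → ℝ) := Set.pi univ fun _ => Ioo 1 (6 / 5) with hQ
  have hQpos : volume Q ≠ 0 := by
    rw [hQ, volume_pi_pi, Finset.prod_const]
    refine pow_ne_zero _ ?_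
    rw [Real.volume_Ioo]
    simp only [ne_eq, ENNReal.ofReal_eq_zero, not_le]
    norm_num
  obtain ⟨u, huQ, huZ⟩ : ∃ u, u ∈ Q ∧ u ∉ Z := by
    by_contra hcon
    push Not at hcon
    exact hQpos (measure_mono_null hcon hZ0)
  have huQ' : ∀ j, 1 < u j ∧ u j < 6 / 5 := fun j => huQ j (mem_univ j)
  rw [hZ, mem_union, not_or] at huZ
  obtain ⟨huF, huD⟩ := huZ
  refine ⟨u, ?_, huQ', ?_⟩
  · intro i j hij
    by_contra hne
    apply huD
    simp only [mem_iUnion]
    exact ⟨i, j, hne, hij⟩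
  · rw [mem_limsup_iff_frequently_mem, not_frequently, eventually_atTop] at huF
    obtain ⟨n0, hn0⟩ := huF
    refine ⟨n0 + 10, ?_⟩
    intro s hs
    by_contra hcon
    push Not at hcon
    -- the integer part
    have hmem : u ∈ E R (⌊s⌋ : ℝ) := by
      intro j _
      obtain ⟨hj1, hj2⟩ := huQ' j
      have huj : 0 < u j := by linarith
      refine ⟨hj1, hj2, s / u j, hcon j, ?_⟩
      have h1 : (⌊s⌋ : ℝ) / u j - s / u j = -(Int.fract s) / u j := by
        rw [Int.fract]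
        ring
      rw [h1, abs_div, abs_neg, abs_of_nonneg (Int.fract_nonneg s), abs_of_pos huj,
        div_lt_iff₀ huj]
      have := Int.fract_lt_one s
      nlinarith
    have hfl1 : (⌊s⌋ : ℝ) ≤ s := Int.floor_le s
    have hfl2 : s < ⌊s⌋ + 1 := Int.lt_floor_add_one s
    rcases le_or_gt 0 s with hs0 | hs0
    · rw [abs_of_nonneg hs0] at hs
      have h1 : ((n0 : ℤ) + 2) ≤ ⌊s⌋ := by
        rw [Int.le_floor]
        push_cast
        linarith
      obtain ⟨n, hn⟩ : ∃ n : ℕ, ⌊s⌋ = ((n + 2 : ℕ) : ℤ) := by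
        refine ⟨(⌊s⌋ - 2).toNat, ?_⟩
        omega
      have h2 : n0 ≤ n := by omega
      apply hn0 n h2
      left
      rw [hn] at hmem
      exact_mod_cast hmem
    · rw [abs_of_neg hs0] at hs
      have h1 : ⌊s⌋ ≤ -((n0 : ℤ) + 2) := by
        have : (⌊s⌋ : ℝ) ≤ ((-((n0 : ℤ) + 2) : ℤ) : ℝ) := by
          push_cast
          linarith
        exact_mod_cast this
      obtain ⟨n, hn⟩ : ∃ n : ℕ, ⌊s⌋ = -((n + 2 : ℕ) : ℤ) := by
        refine ⟨(-⌊s⌋ - 2).toNat, ?_⟩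
        omega
      have h2 : n0 ≤ n := by omega
      apply hn0 n h2
      right
      rw [hn] at hmem
      rw [Int.cast_neg, Int.cast_natCast] at hmem
      exact hmem

end Pool.Agent.H1.Horo
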