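import Pool.Agent.H1.Horo.BTwo
import Pool.Agent.H1.Horo.Conn
import Pool.Agent.H1.Horo.Arith
import Pool.Agent.H1.Horo.Count
import Pool.Agent.H1.Horo.Scales

/-!
# The horocycle flow is not topologically recurrent
-/

namespace Pool.Agent.H1.Horo

open Set MeasureTheory

theorem rightSigns {n : ℕ} {κ : ℝ} (S : Cfg n κ) : RightSigns S.D where
  ell_re := by simpa [Cfg.D] using S.l_pos
  ell_im := by simp [Cfg.D]
  z_im i := div_pos S.V.y1_pos (S.lam_pos i)
  ρ_im i e := div_pos (by have := S.V.y1_lt; have := S.κ_lt; linarith) (S.lam_pos i)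
  C_im i e := div_pos S.V.α_pos (S.lam_pos i)

/-- the example -/
noncomputable def Cfg.surf {n : ℕ} {κ : ℝ} [NeZero n] (S : Cfg n κ) (hn : 2 ≤ n) :
    TranslationSurface where
  P := pat n
  z := S.D.edge
  nonempty := ⟨((0 : Fin n), TT.a1)⟩
  valid := S.valid
  connected := connected n
  zeros := zeros hn (rightSigns S)

/-- a time of return is in `Surv` up to the rescaling, for every piece -/
theorem return_surv {κ : ℝ} (S : Cfg 21 κ) {ε : ℝ} (hε : S.Eps ε) {r r0 p0 : ℝ} (hr : 0 < r)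
    (hr0 : 11 / 10 * r ≤ r0) (hκ : 20000 * κ ≤ r ^ 2) (hp0 : 1 ≤ p0) (hp0' : r / κ ≤ p0) {K : ℕ}
    {s : ℝ} (h : (S.surf (by norm_num)).Close ε (pat 21) (shear s S.D.edge)) (j : Fin 21) :
    s / S.lam j ^ 2 ∈ Surv S.V.α S.V.y1 K r0 p0 := by
  obtain ⟨z', hz', hclose, Θ, hΘ⟩ := h
  obtain ⟨D', hD', rfl⟩ := exists_par (n := 21) hz'
  have hN : S.Near D' ε := Cfg.near_of_close hD' hclose
  let T : S.Sit := ⟨D', ε, s, Θ, hN, hε, hΘ⟩
  intro i hi
  have hκ0 := S.κ_pos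
  have hp : (1 : ℝ) ≤ (K : ℝ) ^ i := hp0.trans hi
  have hp' : (0 : ℝ) < (K : ℝ) ^ i := zero_lt_one.trans_le hp
  have hb : 0 < r / (K : ℝ) ^ i := div_pos hr hp'
  have hbκ : r / (K : ℝ) ^ i ≤ κ := by
    rw [div_le_iff₀ hp']
    have h1 : r / κ ≤ (K : ℝ) ^ i := hp0'.trans hi
    rwa [div_le_iff₀ hκ0, mul_comm] at h1
  refine S.short_vector (j := j) hr hr0 hp ?_
  refine lt_of_le_of_lt (mul_le_mul_right (add_le_add (T.area_bad hb hbκ) le_rfl) _) ?_
  rw [← ENNReal.ofReal_add (by positivity) (by positivity), ← ENNReal.ofReal_ofNat 2,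
    ← ENNReal.ofReal_mul (by norm_num)]
  refine (ENNReal.ofReal_lt_ofReal_iff (by positivity)).2 ?_
  push_cast
  nlinarith [sq_nonneg r, mul_pos hr hr]

theorem exists_not_recurrent : ∃ X : TranslationSurface, ¬ X.Recurrent := by
  set r0 : ℝ := (1 / 2) ^ 487 with hr0
  set r : ℝ := 10 / 11 * r0 with hr
  have hr0p : 0 < r0 := by rw [hr0]; positivity
  have hr0l : r0 ≤ 1 / 4 := by
    rw [hr0]
    have : ((1 : ℝ) / 2) ^ 487 ≤ (1 / 2) ^ 2 :=
      pow_le_pow_of_le_one (by norm_num) (by norm_num) (by norm_num)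
    norm_num at this ⊢
    linarith
  have hrp : 0 < r := by rw [hr]; positivity
  have hrl : r ≤ 1 / 4 := by rw [hr]; linarith
  set κ : ℝ := r ^ 2 / 20000 with hκ
  have hκp : 0 < κ := by rw [hκ]; positivity
  have hκl : κ < 1 / 1000 := by rw [hκ]; nlinarith
  obtain ⟨V⟩ := exists_veech hκp
  set p0 : ℝ := max 1 (r / κ) with hp0
  obtain ⟨μ, hμ, hμ1, S0, hS0⟩ := exists_scales (sparse_surv V.dioph p0)
  have hμp : ∀ j, 0 ≤ μ j := fun j => zero_le_one.trans (hμ1 j).1.le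
  let S : Cfg 21 κ :=
    { V := V
      lam := fun j => Real.sqrt (μ j)
      l := κ / 5000
      κ_lt := hκl
      one_lt := fun j => by
        rw [Real.lt_sqrt (by norm_num)]; simpa using (hμ1 j).1
      sq_lt := fun j => by
        rw [Real.sq_sqrt (hμp j)]; exact (hμ1 j).2
      inj := fun i j hij => hμ ((Real.sqrt_inj (hμp i) (hμp j)).1 hij)
      l_pos := by positivity
      l_lt := by push_cast; linarith }
  obtain ⟨ε, hε⟩ := S.exists_eps
  refine ⟨S.surf (by norm_num), fun hrec => ?_⟩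
  obtain ⟨s, hs, hclose⟩ := hrec ε hε.pos S0
  obtain ⟨j, hj⟩ := hS0 s hs
  apply hj
  have h := return_surv S hε hrp (r0 := r0) (by rw [hr]; linarith) (by rw [hκ]; linarith)
    (le_max_left _ _) (le_max_right _ _) (K := KK) hclose j
  have h2 : S.lam j ^ 2 = μ j := Real.sq_sqrt (hμp j)
  rw [h2] at h
  exact h

end Pool.Agent.H1.Horo
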