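import Pool.Agent.H1.Horo.Pts

/-!
# The polygon as a union of two parallelograms; its area

PROOFS (`C, z, ρ, A = z + ρ`).
* `mem_hex_lower`: `u C + v z` is in the first triangle `a1 / b1 = (0, C, C+z)` if `u ≥ v` (barycentric
  coordinates `1 - u, u - v, v`) and in `a2 / b2 = (0, C+z, z)` if `u ≤ v` (`1 - v, u, v - u`).
* `mem_hex_upper`: `z + u C + v ρ`: the same with `a3 / b3 = (z, C+z, C+A)` and the triangle
  `(z, C+A, A)`, which is `b4`, and for the label `true` the union of `n1, n2, n3`: a point of the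
  triangle `(z, C+A, A)` with interior point `Q = A + ell` is in one of the three triangles; which one
  is decided by the signs of `cr (Q - z) (q - z)`, `cr (Q - C - A) (q - C - A)`, `cr (Q - A) (q - A)`.
* `hex_cases`: the converse.
* `volume_hex`: the polygon is contained in the union of the two parallelograms, of areas `cr C z`
  and `cr C ρ` (image of the unit square under a linear map: `Measure.addHaar_image_linearMap`), and
  `cr C z + cr C ρ = cr C A`.
* `hex_closed`: finite union of compact triangles.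
-/

namespace Pool.Agent.H1.Horo

open Set MeasureTheory

namespace Par
variable {n : ℕ} [NeZero n] {D : Par n}

/-- membership in the polygon through a triangle `(i, t)` -/
theorem hex_of_tri (i : Fin n) (t : TT) {q : ℂ} {b c : ℝ} (hb : 0 ≤ b) (hc : 0 ≤ c)
    (hbc : b + c ≤ 1)
    (hq : q = D.off (i, t) + (b * D.edge ((i, t), 0) +
      c * (D.edge ((i, t), 0) + D.edge ((i, t), 1)))) : q ∈ D.hex i t.lab := by
  obtain ⟨p, h1, h2, _⟩ := Pattern.exists_chart (P := pat n) (z := D.edge) (i, t) hb hc hbc rfl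
  refine ⟨p, ?_, ?_, ?_⟩
  · show Prod.fst (α := Fin n) (β := TT) p.1.1 = i
    rw [h1]
  · show (Prod.snd (α := Fin n) (β := TT) p.1.1).lab = t.lab
    rw [h1]
  · rw [ppos, h1, h2, hq]
    rfl

/-- a point of the polygon in terms of the barycentric coordinates -/
theorem tri_of_hex {i : Fin n} {e : Bool} {q : ℂ} (hq : q ∈ D.hex i e) :
    ∃ (t : TT) (b c : ℝ), t.lab = e ∧ 0 ≤ b ∧ 0 ≤ c ∧ b + c ≤ 1 ∧
      q = D.off (i, t) + (b * D.edge ((i, t), 0) +
        c * (D.edge ((i, t), 0) + D.edge ((i, t), 1))) := by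
  obtain ⟨⟨⟨⟨i', t⟩, a⟩, ha⟩, h1, h2, h3⟩ := hq
  obtain rfl : i' = i := h1
  have ha1 := ha.1
  have ha2 := ha.2
  simp only [Fin.sum_univ_three] at ha1 ha2
  refine ⟨t, a 1, a 2, h2, ha1 1, ha1 2, by linarith [ha1 0], ?_⟩
  rw [← h3]
  rfl

theorem ell_eq (hD : D.Pos) (i : Fin n) : ∃ β0 β1 : ℝ, 0 < β0 ∧ 0 < β1 ∧ β0 + β1 < 1 ∧
    D.ell = β1 * D.C i true - β0 * D.rho i true := by
  have h1 := hD.cρ i true
  have h2 := hD.ec i
  have h3 := hD.eρ i
  have h4 := hD.n1 i
  refine ⟨cr D.ell (D.C i true) / cr (D.C i true) (D.rho i true),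
    cr D.ell (D.rho i true) / cr (D.C i true) (D.rho i true), div_pos h2 h1, div_pos h3 h1, ?_, ?_⟩
  · rw [← add_div, div_lt_one h1]
    linarith
  · have h5 : (cr (D.C i true) (D.rho i true) : ℂ) ≠ 0 := by exact_mod_cast h1.ne'
    have h6 : (cr (D.C i true) (D.rho i true) : ℂ) * D.ell =
        (cr D.ell (D.rho i true) : ℂ) * D.C i true - (cr D.ell (D.C i true) : ℂ) * D.rho i true := by
      apply Complex.ext <;> simp [cr] <;> ring
    push_cast
    field_simp
    linear_combination h6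

theorem mem_hex_lower (hD : D.Pos) (i : Fin n) (e : Bool) {u v : ℝ} (hu : u ∈ Icc (0 : ℝ) 1)
    (hv : v ∈ Icc (0 : ℝ) 1) : (u : ℂ) * D.C i e + v * D.zz i ∈ D.hex i e := by
  obtain ⟨hu0, hu1⟩ := hu
  obtain ⟨hv0, hv1⟩ := hv
  rcases le_total v u with h | h
  · cases e
    · apply hex_of_tri i TT.b1 (b := u - v) (c := v) (by linarith) hv0 (by linarith)
      simp only [off, edge]; push_cast; ring
    · apply hex_of_tri i TT.a1 (b := u - v) (c := v) (by linarith) hv0 (by linarith)
      simp only [off, edge]; push_cast; ring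
  · cases e
    · apply hex_of_tri i TT.b2 (b := u) (c := v - u) hu0 (by linarith) (by linarith)
      simp only [off, edge]; push_cast; ring
    · apply hex_of_tri i TT.a2 (b := u) (c := v - u) hu0 (by linarith) (by linarith)
      simp only [off, edge]; push_cast; ring

theorem mem_hex_upper (hD : D.Pos) (i : Fin n) (e : Bool) {u v : ℝ} (hu : u ∈ Icc (0 : ℝ) 1)
    (hv : v ∈ Icc (0 : ℝ) 1) : D.zz i + u * D.C i e + v * D.rho i e ∈ D.hex i e := by
  obtain ⟨hu0, hu1⟩ := hu
  obtain ⟨hv0, hv1⟩ := hv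
  rcases le_total v u with h | h
  · cases e
    · apply hex_of_tri i TT.b3 (b := u - v) (c := v) (by linarith) hv0 (by linarith)
      simp only [off, edge]; push_cast; ring
    · apply hex_of_tri i TT.a3 (b := u - v) (c := v) (by linarith) hv0 (by linarith)
      simp only [off, edge]; push_cast; ring
  · cases e
    · apply hex_of_tri i TT.b4 (b := u) (c := v - u) hu0 (by linarith) (by linarith)
      simp only [off, edge]; push_cast; ring
    · obtain ⟨β0, β1, h0, h1, h01, hell⟩ := ell_eq hD i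
      -- barycentric coordinates `1 - v, u, v - u` with respect to `z, C + A, A`
      have h2 : 0 < 1 - β0 - β1 := by linarith
      have key : ((1 - v) / β0 ≤ u / β1 ∧ (1 - v) / β0 ≤ (v - u) / (1 - β0 - β1)) ∨
          (u / β1 ≤ (1 - v) / β0 ∧ u / β1 ≤ (v - u) / (1 - β0 - β1)) ∨
          ((v - u) / (1 - β0 - β1) ≤ (1 - v) / β0 ∧ (v - u) / (1 - β0 - β1) ≤ u / β1) := by
        rcases le_total ((1 - v) / β0) (u / β1) with k1 | k1 <;>
        rcases le_total ((1 - v) / β0) ((v - u) / (1 - β0 - β1)) with k2 | k2 <;>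
        rcases le_total (u / β1) ((v - u) / (1 - β0 - β1)) with k3 | k3 <;>
        first
        | exact Or.inl ⟨by linarith, by linarith⟩
        | exact Or.inr (Or.inl ⟨by linarith, by linarith⟩)
        | exact Or.inr (Or.inr ⟨by linarith, by linarith⟩)
      have m0 : 0 ≤ (1 - v) / β0 := div_nonneg (by linarith) h0.le
      have m1 : 0 ≤ u / β1 := div_nonneg (by linarith) h1.le
      have m2 : 0 ≤ (v - u) / (1 - β0 - β1) := div_nonneg (by linarith) h2.le
      have d0 : (1 - v) / β0 * β0 = 1 - v := div_mul_cancel₀ _ h0.ne'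
      have d1 : u / β1 * β1 = u := div_mul_cancel₀ _ h1.ne'
      have d2 : (v - u) / (1 - β0 - β1) * (1 - β0 - β1) = v - u := div_mul_cancel₀ _ h2.ne'
      rcases key with ⟨k1, k2⟩ | ⟨k1, k2⟩ | ⟨k1, k2⟩
      · generalize (1 - v) / β0 = m at *
        have e1 := mul_le_mul_of_nonneg_right k1 h1.le
        have e2 := mul_le_mul_of_nonneg_right k2 h2.le
        rw [d1] at e1
        rw [d2] at e2
        apply hex_of_tri i TT.n2 (b := (v - u) - m * (1 - β0 - β1)) (c := m) (by linarith) m0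
          (by linarith)
        simp only [off, edge, A, hell]
        have d0' : (m : ℂ) * β0 = 1 - v := by exact_mod_cast d0
        push_cast
        linear_combination (D.rho i true + D.C i true) * d0'
      · generalize u / β1 = m at *
        have e1 := mul_le_mul_of_nonneg_right k1 h0.le
        have e2 := mul_le_mul_of_nonneg_right k2 h2.le
        rw [d0] at e1
        rw [d2] at e2
        apply hex_of_tri i TT.n3 (b := (1 - v) - m * β0) (c := m) (by linarith) m1
          (by linarith)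
        simp only [off, edge, A, hell]
        have d1' : (m : ℂ) * β1 = u := by exact_mod_cast d1
        push_cast
        linear_combination (- D.C i true) * d1'
      · generalize (v - u) / (1 - β0 - β1) = m at *
        have e1 := mul_le_mul_of_nonneg_right k1 h0.le
        have e2 := mul_le_mul_of_nonneg_right k2 h1.le
        rw [d0] at e1
        rw [d1] at e2
        apply hex_of_tri i TT.n1 (b := u - m * β1) (c := m) (by linarith) m2
          (by linarith)
        simp only [off, edge, A, hell]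
        have d2' : (m : ℂ) * (1 - β0 - β1) = v - u := by exact_mod_cast d2
        push_cast
        linear_combination (- D.rho i true) * d2'

theorem hex_cases (hD : D.Pos) {i : Fin n} {e : Bool} {q : ℂ} (hq : q ∈ D.hex i e) :
    (∃ u ∈ Icc (0 : ℝ) 1, ∃ v ∈ Icc (0 : ℝ) 1, q = (u : ℂ) * D.C i e + v * D.zz i) ∨
    (∃ u ∈ Icc (0 : ℝ) 1, ∃ v ∈ Icc (0 : ℝ) 1, q = D.zz i + u * D.C i e + v * D.rho i e) := by
  obtain ⟨t, b, c, rfl, hb, hc, hbc, hq⟩ := tri_of_hex hq
  obtain ⟨β0, β1, h0, h1, h01, hell⟩ := ell_eq hD i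
  have hcβ0 := mul_nonneg hc h0.le
  have hcβ1 := mul_nonneg hc h1.le
  have hc0 : c * β0 ≤ c := by nlinarith
  have hc1 : c * β1 ≤ c := by nlinarith
  have hc01 : c * β0 + c * β1 ≤ c := by nlinarith
  cases t
  · left
    refine ⟨b + c, ⟨by linarith, hbc⟩, c, ⟨hc, by linarith⟩, ?_⟩
    rw [hq]; simp only [off, edge, TT.lab]; push_cast; ring
  · left
    refine ⟨b, ⟨hb, by linarith⟩, b + c, ⟨by linarith, hbc⟩, ?_⟩
    rw [hq]; simp only [off, edge, TT.lab]; push_cast; ring
  · right
    refine ⟨b + c, ⟨by linarith, hbc⟩, c, ⟨hc, by linarith⟩, ?_⟩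
    rw [hq]; simp only [off, edge, TT.lab]; push_cast; ring
  · right
    refine ⟨b + c * β1, ⟨by linarith, by linarith⟩, b + c * (1 - β0), ⟨by linarith, by linarith⟩, ?_⟩
    rw [hq]; simp only [off, edge, TT.lab, hell]; push_cast; ring
  · right
    refine ⟨1 - b - c + c * β1, ⟨by linarith, by linarith⟩, 1 - c * β0,
      ⟨by linarith, by linarith⟩, ?_⟩
    rw [hq]; simp only [off, edge, TT.lab, hell, A]; push_cast; ring
  · right
    refine ⟨c * β1, ⟨by linarith, by linarith⟩, 1 - b - c * β0,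
      ⟨by linarith, by linarith⟩, ?_⟩
    rw [hq]; simp only [off, edge, TT.lab, hell, A]; push_cast; ring
  · left
    refine ⟨b + c, ⟨by linarith, hbc⟩, c, ⟨hc, by linarith⟩, ?_⟩
    rw [hq]; simp only [off, edge, TT.lab]; push_cast; ring
  · left
    refine ⟨b, ⟨hb, by linarith⟩, b + c, ⟨by linarith, hbc⟩, ?_⟩
    rw [hq]; simp only [off, edge, TT.lab]; push_cast; ring
  · right
    refine ⟨b + c, ⟨by linarith, hbc⟩, c, ⟨hc, by linarith⟩, ?_⟩
    rw [hq]; simp only [off, edge, TT.lab]; push_cast; ring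
  · right
    refine ⟨b, ⟨hb, by linarith⟩, b + c, ⟨by linarith, hbc⟩, ?_⟩
    rw [hq]; simp only [off, edge, TT.lab]; push_cast; ring

theorem hex_compact (i : Fin n) (e : Bool) : IsCompact (D.hex i e) := by
  have h : D.hex i e = ⋃ f ∈ {f : (pat n).Tri | Prod.fst (α := Fin n) (β := TT) f = i ∧
      (Prod.snd (α := Fin n) (β := TT) f).lab = e},
      (fun x => D.off f + x) '' (pat n).tri D.edge f := by
    ext q
    simp only [mem_iUnion, mem_image, mem_ofPred_eq, exists_prop]
    constructor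
    · rintro ⟨p, h1, h2, h3⟩
      exact ⟨p.1.1, ⟨h1, h2⟩, (pat n).pos D.edge p, ⟨p, rfl, rfl⟩, h3⟩
    · rintro ⟨f, ⟨h1, h2⟩, x, ⟨p, rfl, rfl⟩, h3⟩
      exact ⟨p, h1, h2, h3⟩
  rw [h]
  apply Set.Finite.isCompact_biUnion (Set.toFinite _)
  intro f _
  exact (Pattern.tri_compact f).image (by fun_prop)

/-- the area of a parallelogram -/
theorem volume_para (w a b : ℂ) (hab : 0 ≤ cr a b) :
    volume {q : ℂ | ∃ u ∈ Icc (0 : ℝ) 1, ∃ v ∈ Icc (0 : ℝ) 1, q = w + u * a + v * b} ≤
      ENNReal.ofReal (cr a b) := by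
  let L : ℂ →ₗ[ℝ] ℂ := Matrix.toLin Complex.basisOneI Complex.basisOneI !![a.re, b.re; a.im, b.im]
  have hL : ∀ x : ℂ, L x = x.re * a + x.im * b := by
    intro x
    apply Complex.ext <;>
    simp [L, Matrix.toLin_apply, Fin.sum_univ_two, Matrix.mulVec, Matrix.vecHead, Matrix.vecTail] <;> ring
  have hdet : LinearMap.det L = cr a b := by
    simp only [L, LinearMap.det_toLin, Matrix.det_fin_two_of, cr]
    ring
  have hsub : {q : ℂ | ∃ u ∈ Icc (0 : ℝ) 1, ∃ v ∈ Icc (0 : ℝ) 1, q = w + u * a + v * b} =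
      (fun x => w + x) '' (L '' (Complex.measurableEquivRealProd ⁻¹' (Icc 0 1 ×ˢ Icc 0 1))) := by
    ext q
    constructor
    · rintro ⟨u, hu, v, hv, rfl⟩
      refine ⟨_, ⟨⟨u, v⟩, ?_, rfl⟩, ?_⟩
      · simp only [mem_preimage, Complex.measurableEquivRealProd_apply, mem_prod]
        exact ⟨hu, hv⟩
      · simp only [hL]; ring
    · rintro ⟨_, ⟨x, hx, rfl⟩, rfl⟩
      simp only [mem_preimage, Complex.measurableEquivRealProd_apply, mem_prod] at hx
      refine ⟨x.re, hx.1, x.im, hx.2, ?_⟩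
      simp only [hL]; ring
  rw [hsub, image_add_left, measure_preimage_add, Measure.addHaar_image_linearMap, hdet,
    abs_of_nonneg hab, Complex.volume_preserving_equiv_real_prod.measure_preimage_equiv,
    Measure.volume_eq_prod, Measure.prod_prod]
  simp

theorem volume_hex (hD : D.Pos) (i : Fin n) (e : Bool) :
    volume (D.hex i e) ≤ ENNReal.ofReal (cr (D.C i e) (D.A i e)) := by
  have h1 := hD.cz i e
  have h2 := hD.cρ i e
  have h3 : cr (D.C i e) (D.A i e) = cr (D.C i e) (D.zz i) + cr (D.C i e) (D.rho i e) := by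
    simp only [cr, A, Complex.add_re, Complex.add_im]; ring
  rw [h3, ENNReal.ofReal_add h1.le h2.le]
  refine (measure_mono (t := {q : ℂ | ∃ u ∈ Icc (0 : ℝ) 1, ∃ v ∈ Icc (0 : ℝ) 1,
      q = 0 + u * D.C i e + v * D.zz i} ∪ {q : ℂ | ∃ u ∈ Icc (0 : ℝ) 1, ∃ v ∈ Icc (0 : ℝ) 1,
      q = D.zz i + u * D.C i e + v * D.rho i e}) ?_).trans ((measure_union_le _ _).trans
      (add_le_add (volume_para _ _ _ h1.le) (volume_para _ _ _ h2.le)))
  intro q hq
  rcases hex_cases hD hq with ⟨u, hu, v, hv, h⟩ | h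
  · left
    exact ⟨u, hu, v, hv, by rw [h]; ring⟩
  · right; exact h

end Par

end Pool.Agent.H1.Horo
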