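import Mathlib

/-!
# Partition lemma

If `[0, 1]` is covered by finitely many closed order-connected sets then it has a finite
subdivision each interval of which is contained in one of these sets.

PROOF (greedy): for `x < 1` some `I i` contains `x` and a point of `(x, 1]` (else, the `I i` being
closed and finite in number, points just right of `x` are in no `I i`).  With
`y = sup (I i ∩ [0,1])` we have `[x, y] ⊆ I i`, and the number of `j` such that `I j` meets
`(y, 1]` is smaller than for `x`.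
-/

namespace Pool.Agent.H1.Horo

open Set Filter Topology

theorem exists_partition {ι : Type*} [Finite ι] (I : ι → Set ℝ) (hc : ∀ i, IsClosed (I i))
    (hconv : ∀ i, (I i).OrdConnected) (hcov : Icc (0 : ℝ) 1 ⊆ ⋃ i, I i) :
    ∃ (N : ℕ) (τ : ℕ → ℝ), Monotone τ ∧ τ 0 = 0 ∧ τ N = 1 ∧
      ∀ k < N, ∃ i, Icc (τ k) (τ (k + 1)) ⊆ I i := by
  have step : ∀ x : ℝ, 0 ≤ x → x < 1 → ∃ i, x ∈ I i ∧ (I i ∩ Ioc x 1).Nonempty := by
    intro x hx0 hx1
    by_contra hcon
    push Not at hcon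
    have h1 : ∀ i, ∀ᶠ y in 𝓝[>] x, y ∉ I i := by
      intro i
      by_cases hxi : x ∈ I i
      · have h2 := hcon i hxi
        filter_upwards [Ioo_mem_nhdsGT hx1] with y hy hyi
        exact (h2 ▸ (⟨hyi, hy.1, hy.2.le⟩ : y ∈ I i ∩ Ioc x 1) : y ∈ (∅ : Set ℝ))
      · exact mem_nhdsWithin_of_mem_nhds ((hc i).isOpen_compl.mem_nhds hxi)
    have h2 : ∀ᶠ y in 𝓝[>] x, ∀ i, y ∉ I i := eventually_all.2 h1
    obtain ⟨y, hy, hy'⟩ := (h2.and (Ioo_mem_nhdsGT hx1)).exists
    obtain ⟨i, hi⟩ := mem_iUnion.1 (hcov ⟨hx0.trans hy'.1.le, hy'.2.le⟩)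
    exact hy i hi
  have main : ∀ (n : ℕ) (x : ℝ), 0 ≤ x → x ≤ 1 →
      {i | (I i ∩ Ioc x 1).Nonempty}.ncard ≤ n →
      ∃ (N : ℕ) (τ : ℕ → ℝ), Monotone τ ∧ τ 0 = x ∧ τ N = 1 ∧
        ∀ k < N, ∃ i, Icc (τ k) (τ (k + 1)) ⊆ I i := by
    intro n
    induction n with
    | zero =>
      intro x hx0 hx1 hn
      rcases hx1.eq_or_lt with rfl | hx1
      · exact ⟨0, fun _ => 1, monotone_const, rfl, rfl, fun k hk => absurd hk (Nat.not_lt_zero k)⟩
      · obtain ⟨i, -, hi⟩ := step x hx0 hx1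
        have h0 : {i | (I i ∩ Ioc x 1).Nonempty} = ∅ :=
          (ncard_eq_zero (toFinite _)).1 (Nat.le_zero.1 hn)
        exact absurd (show i ∈ {i | (I i ∩ Ioc x 1).Nonempty} from hi) (by rw [h0]; simp)
    | succ n ih =>
      intro x hx0 hx1 hn
      rcases hx1.eq_or_lt with rfl | hx1
      · exact ⟨0, fun _ => 1, monotone_const, rfl, rfl, fun k hk => absurd hk (Nat.not_lt_zero k)⟩
      · obtain ⟨i, hxi, z, hzi, hz⟩ := step x hx0 hx1
        have hK : IsCompact (I i ∩ Icc 0 1) := isCompact_Icc.inter_left (hc i)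
        have hne : (I i ∩ Icc 0 1).Nonempty := ⟨x, hxi, hx0, hx1.le⟩
        obtain ⟨y, hy, hmax⟩ := hK.exists_isGreatest hne
        have hzy : z ≤ y := hmax ⟨hzi, hx0.trans hz.1.le, hz.2⟩
        have hxy : x < y := hz.1.trans_le hzy
        have hlt : {j | (I j ∩ Ioc y 1).Nonempty}.ncard
            < {j | (I j ∩ Ioc x 1).Nonempty}.ncard := by
          apply ncard_lt_ncard _ (toFinite _)
          refine ⟨?_, fun h => ?_⟩
          · rintro j ⟨w, hw, hw'⟩
            exact ⟨w, hw, hxy.trans hw'.1, hw'.2⟩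
          · obtain ⟨w, hw, hw'⟩ := h (show i ∈ {j | (I j ∩ Ioc x 1).Nonempty} from
              ⟨z, hzi, hz⟩)
            exact absurd (hmax ⟨hw, (hx0.trans hxy.le).trans hw'.1.le, hw'.2⟩)
              (not_le.2 hw'.1)
        obtain ⟨N, τ, hτ, h0, h1, h2⟩ := ih y (hx0.trans hxy.le) hy.2.2 (by omega)
        refine ⟨N + 1, fun k => Nat.casesOn k x τ, monotone_nat_of_le_succ ?_, rfl, h1, ?_⟩
        · rintro (_ | k)
          · change x ≤ τ 0
            rw [h0]; exact hxy.le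
          · exact hτ (Nat.le_succ k)
        · rintro (_ | k) hk
          · refine ⟨i, ?_⟩
            change Icc x (τ 0) ⊆ I i
            rw [h0]
            exact (hconv i).out hxi hy.1
          · exact h2 k (by omega)
  exact main _ 0 le_rfl zero_le_one le_rfl

end Pool.Agent.H1.Horo
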