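import Pool.Agent.H1.Horo.HexWD
import Pool.Agent.H1.Horo.HexMem
import Pool.Agent.H1.Horo.Part

/-!
# Straight paths in the polygon

PROOFS.
* `straight_pt`: for every triangle `g` of the torus `(i, e)` let `I g` be the set of `t ∈ [0,1]` such that
  `q + t w` is the polygon position of a point of `g`, a closed interval (`tri_convex`,
  `tri_compact`; the polygon position is `D.off g + pos`).  They cover `[0, 1]`; take the subdivision
  of `exists_partition`; on each of its intervals the path is in one triangle, at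
  `pos = (q - off g) + t w`, and it is `D.pt i e (q + t w)` by `mk_eq_pt`.
* `pt_bottom`: `u C` is on the side `(a1,0)` resp. `(b1,0)` at the fraction `u`; it is glued to the side
  `(n2,0)` (from `C + A` to `A`) resp. `(b4,1)` (from `C + A` to `A`) at the fraction `1 - u`, i.e. to the
  point `A + u C`.  Both points are off the slit if `0 < u` (`cr C ell < 0` shows that `A + r ell`,
  `r > 0`, is not on the line `A + ℝ C`, and `0 + u C = A + r ell` is impossible by applying `cr C`:
  `cr C A > 0`, `cr C A - r cr ell C ≥ cr C A - cr ell C > 0` by `n1` and `cz`).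
* `pt_side`: `z + v ρ` is on the side `(n3,0)` (from `A` to `z`) resp. `(b4,2)` (from `A` to `z`); it is glued to
  the side `(a3,1)` resp. `(b3,1)` (from `C + z` to `C + A`), at the point `C + z + v ρ`.  Off the slit:
  `A + r ell = z + v ρ` gives `(1 - v) ρ = - r ell`, so `cr ell ρ (1 - v) = 0`, `v = 1`;
  `A + r ell = C + z + v ρ` gives `(1 - v) ρ + r ell = C`, and applying `cr C`:
  `(1 - v) cr C ρ = r cr ell C`; applying `cr ell`: `(1 - v) cr ell ρ = cr ell C`; so
  `r cr ell ρ = cr C ρ` (if `v ≠ 1`) while `cr C ρ > cr ell ρ` by `n1`; if `v = 1` then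
  `r ell = C` contradicts `ec`.
-/

namespace Pool.Agent.H1.Horo

open Set MeasureTheory

namespace Par
variable {n : ℕ} [NeZero n] {D : Par n}

theorem straight_pt (hD : D.Pos) (i : Fin n) (e : Bool) {q w : ℂ}
    (h1 : ∀ t ∈ Icc (0 : ℝ) 1, q + t * w ∈ D.hex i e)
    (h2 : ∀ t ∈ Icc (0 : ℝ) 1, q + t * w ∉ D.slit i e) :
    (pat n).IsStraight D.edge (fun t => D.pt i e (q + t * w)) w := by
  let I : TT → Set ℝ := fun tt =>
    {t : ℝ | tt.lab = e ∧ q + t * w - D.off (i, tt) ∈ (pat n).tri D.edge (i, tt)}
  have hpre : ∀ tt, {t : ℝ | q + t * w - D.off (i, tt) ∈ (pat n).tri D.edge (i, tt)} =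
      (AffineMap.lineMap (k := ℝ) (q - D.off (i, tt)) (q - D.off (i, tt) + w)) ⁻¹'
        (pat n).tri D.edge (i, tt) := by
    intro tt
    ext t
    simp only [mem_ofPred_eq, mem_preimage, AffineMap.lineMap_apply]
    have : q + t * w - D.off (i, tt) =
        t • (q - D.off (i, tt) + w -ᵥ (q - D.off (i, tt))) +ᵥ (q - D.off (i, tt)) := by
      simp only [vsub_eq_sub, vadd_eq_add, Complex.real_smul]
      ring
    rw [this]
  have hcl : ∀ tt, IsClosed (I tt) := by
    intro tt
    by_cases he : tt.lab = e
    · have : I tt = {t : ℝ | q + t * w - D.off (i, tt) ∈ (pat n).tri D.edge (i, tt)} := by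
        ext t; simp [I, he]
      rw [this, hpre]
      refine IsClosed.preimage ?_ (Pattern.tri_compact _).isClosed
      exact AffineMap.lineMap_continuous
    · have : I tt = ∅ := by
        ext t; simp [I, he]
      rw [this]; exact isClosed_empty
  have hco : ∀ tt, (I tt).OrdConnected := by
    intro tt
    by_cases he : tt.lab = e
    · have : I tt = {t : ℝ | q + t * w - D.off (i, tt) ∈ (pat n).tri D.edge (i, tt)} := by
        ext t; simp [I, he]
      rw [this, hpre]
      exact ((Pattern.tri_convex _).affine_preimage _).ordConnected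
    · have : I tt = ∅ := by
        ext t; simp [I, he]
      rw [this]; exact ordConnected_empty
  have hcov : Icc (0 : ℝ) 1 ⊆ ⋃ tt, I tt := by
    intro t ht
    obtain ⟨p, hp1, hp2, hp3⟩ := h1 t ht
    obtain ⟨⟨⟨j, tt⟩, b⟩, hb⟩ := p
    have hj : j = i := hp1
    subst hj
    refine mem_iUnion.mpr ⟨tt, hp2, ⟨⟨⟨j, tt⟩, b⟩, hb⟩, rfl, ?_⟩
    have : D.off (j, tt) + (pat n).pos D.edge ⟨((j, tt), b), hb⟩ = q + t * w := hp3
    rw [← this]
    ring
  obtain ⟨N, τ, hmono, hτ0, hτN, hk⟩ := exists_partition I hcl hco hcov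
  refine ⟨N, τ, hmono, hτ0, hτN, fun k hkN => ?_⟩
  obtain ⟨tt, htt⟩ := hk k hkN
  refine ⟨(i, tt), q - D.off (i, tt), fun t ht => ?_⟩
  obtain ⟨he, p, hp1, hp2⟩ := htt ht
  have ht01 : t ∈ Icc (0 : ℝ) 1 := by
    constructor
    · exact (hτ0 ▸ hmono (Nat.zero_le k) : (0 : ℝ) ≤ τ k).trans ht.1
    · exact ht.2.trans (hτN ▸ hmono hkN : τ (k + 1) ≤ 1)
  have hpc : pc p = i := by
    unfold pc; rw [hp1]
  have hlb : lb p = e := by
    unfold lb; rw [hp1]; exact he
  have hpp : D.ppos p = q + t * w := by
    unfold Par.ppos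
    rw [hp2, hp1]
    ring
  refine ⟨p, hp1, ?_, by rw [hp2]; ring⟩
  have := mk_eq_pt hD (p := p) (by rw [hpc, hlb, hpp]; exact h2 t ht01)
  rw [this, hpc, hlb, hpp]

theorem ppos_sideC (hD : D.Pos) (h : (Fin n × TT) × Fin 3) {t : ℝ} (ht : t ∈ Icc (0 : ℝ) 1) :
    D.ppos ((pat n).sideC h t ht) = D.off h.1 + ((pat n).base D.edge h + t * D.edge h) := by
  unfold Par.ppos
  rw [Pattern.pos_sidePt (edge_valid D hD)]
  rfl

omit [NeZero n] in
theorem slit_false (i : Fin n) (q : ℂ) : q ∉ D.slit i false := by
  rintro ⟨h, _⟩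
  exact Bool.false_ne_true h

theorem mk_side_pt (hD : D.Pos) (i : Fin n) (tt : TT) (k : Fin 3) {t : ℝ}
    (ht : t ∈ Icc (0 : ℝ) 1) {q : ℂ}
    (hq : D.off (i, tt) + ((pat n).base D.edge ((i, tt), k) + t * D.edge ((i, tt), k)) = q)
    (hs : q ∉ D.slit i tt.lab) :
    Quot.mk (pat n).Glued ((pat n).sideC ((i, tt), k) t ht) = D.pt i tt.lab q := by
  have hpp : D.ppos ((pat n).sideC ((i, tt), k) t ht) = q := (ppos_sideC hD _ ht).trans hq
  subst hpp
  exact mk_eq_pt hD hs

/-- two points of the polygon which are glued along a side -/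
theorem pt_glued (hD : D.Pos) (i : Fin n) (e : Bool) (tt : TT) (k : Fin 3) {t : ℝ}
    (ht : t ∈ Icc (0 : ℝ) 1) (ht' : 1 - t ∈ Icc (0 : ℝ) 1) {q q' : ℂ}
    (he : tt.lab = e) (he' : (TT.gl tt k).1.lab = e) (hsh : TT.sh n tt k i = i)
    (hq : D.off (i, tt) + ((pat n).base D.edge ((i, tt), k) + t * D.edge ((i, tt), k)) = q)
    (hq' : D.off (i, (TT.gl tt k).1) + ((pat n).base D.edge ((i, (TT.gl tt k).1), (TT.gl tt k).2)
      + ((1 - t : ℝ) : ℂ) * D.edge ((i, (TT.gl tt k).1), (TT.gl tt k).2)) = q')
    (hs : q ∉ D.slit i e) (hs' : q' ∉ D.slit i e) : D.pt i e q = D.pt i e q' := by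
  have hglue : (pat n).glue ((i, tt), k) = ((i, (TT.gl tt k).1), (TT.gl tt k).2) := by
    show glueN n ((i, tt), k) = _
    unfold glueN
    rw [hsh]
  have h1 := mk_side_pt hD i tt k ht hq (by rw [he]; exact hs)
  have h2 := mk_side_pt hD i (TT.gl tt k).1 (TT.gl tt k).2 ht' hq' (by rw [he']; exact hs')
  rw [he] at h1
  rw [he'] at h2
  rw [← h1, ← h2]
  exact Quot.sound ⟨((i, tt), k), t, ht, rfl,
    (congrArg (fun h => (pat n).sidePt h (1 - t)) hglue).symm⟩

theorem pt_bottom (hD : D.Pos) (i : Fin n) (e : Bool) {u : ℝ} (h0 : 0 < u) (h1 : u ≤ 1) :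
    D.pt i e (u * D.C i e) = D.pt i e (u * D.C i e + D.A i e) := by
  have hu : u ∈ Icc (0 : ℝ) 1 := ⟨h0.le, h1⟩
  have hu' : 1 - u ∈ Icc (0 : ℝ) 1 := ⟨by linarith, by linarith⟩
  cases e
  · refine pt_glued hD i false .b1 0 hu hu' rfl rfl rfl ?_ ?_ (slit_false _ _) (slit_false _ _)
    · simp [Pattern.base, off, edge]
    · simp only [TT.gl, Pattern.base, off, edge, A]
      simp
      ring
  · have c1 := hD.cz i true
    have c2 := hD.n1 i
    have c3 := hD.ec i
    have c4 := hD.eρ i
    refine pt_glued hD i true .a1 0 hu hu' rfl rfl rfl ?_ ?_ ?_ ?_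
    · simp [Pattern.base, off, edge]
    · simp only [TT.gl, Pattern.base, off, edge, A]
      simp
      ring
    · rintro ⟨_, r, hr, hq⟩
      have hre := congrArg Complex.re hq
      have him := congrArg Complex.im hq
      simp only [A, Complex.add_re, Complex.add_im, Complex.mul_re, Complex.mul_im,
        Complex.ofReal_re, Complex.ofReal_im, zero_mul, sub_zero, add_zero] at hre him
      simp only [cr] at c1 c2 c3 c4
      have key : (D.C i true).re * (D.zz i).im - (D.C i true).im * (D.zz i).re
          + ((D.C i true).re * (D.rho i true).im - (D.C i true).im * (D.rho i true).re)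
          - r * (D.ell.re * (D.C i true).im - D.ell.im * (D.C i true).re) = 0 := by
        linear_combination (D.C i true).im * hre - (D.C i true).re * him
      have h5 : r * (D.ell.re * (D.C i true).im - D.ell.im * (D.C i true).re) ≤
          D.ell.re * (D.C i true).im - D.ell.im * (D.C i true).re :=
        mul_le_of_le_one_left c3.le hr.2
      linarith
    · rintro ⟨_, r, hr, hq⟩
      have hre := congrArg Complex.re hq
      have him := congrArg Complex.im hq
      simp only [A, Complex.add_re, Complex.add_im, Complex.mul_re, Complex.mul_im,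
        Complex.ofReal_re, Complex.ofReal_im, zero_mul, sub_zero, add_zero] at hre him
      simp only [cr] at c1 c2 c3 c4
      have key : u * (D.ell.re * (D.C i true).im - D.ell.im * (D.C i true).re) = 0 := by
        linear_combination D.ell.re * him - D.ell.im * hre
      have := mul_pos h0 c3
      linarith

theorem pt_side (hD : D.Pos) (i : Fin n) (e : Bool) {v : ℝ} (h0 : 0 < v) (h1 : v < 1) :
    D.pt i e (D.zz i + v * D.rho i e) = D.pt i e (D.zz i + v * D.rho i e + D.C i e) := by
  have hv : 1 - v ∈ Icc (0 : ℝ) 1 := ⟨by linarith, by linarith⟩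
  have hv' : 1 - (1 - v) ∈ Icc (0 : ℝ) 1 := ⟨by linarith, by linarith⟩
  cases e
  · refine pt_glued hD i false .b4 2 hv hv' rfl rfl rfl ?_ ?_ (slit_false _ _) (slit_false _ _)
    · simp only [Pattern.base, off, edge, A]
      simp
      ring
    · simp only [TT.gl, Pattern.base, off, edge, A]
      simp
      ring
  · have c1 := hD.cz i true
    have c2 := hD.n1 i
    have c3 := hD.ec i
    have c4 := hD.eρ i
    refine pt_glued hD i true .n3 0 hv hv' rfl rfl rfl ?_ ?_ ?_ ?_
    · simp only [Pattern.base, off, edge, A]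
      simp
      ring
    · simp only [TT.gl, Pattern.base, off, edge, A]
      simp
      ring
    · rintro ⟨_, r, hr, hq⟩
      have hre := congrArg Complex.re hq
      have him := congrArg Complex.im hq
      simp only [A, Complex.add_re, Complex.add_im, Complex.mul_re, Complex.mul_im,
        Complex.ofReal_re, Complex.ofReal_im, zero_mul, sub_zero, add_zero] at hre him
      simp only [cr] at c1 c2 c3 c4
      have key : (1 - v) * (D.ell.re * (D.rho i true).im - D.ell.im * (D.rho i true).re) = 0 := by
        linear_combination D.ell.im * hre - D.ell.re * him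
      have := mul_pos (sub_pos.mpr h1) c4
      linarith
    · rintro ⟨_, r, hr, hq⟩
      have hre := congrArg Complex.re hq
      have him := congrArg Complex.im hq
      simp only [A, Complex.add_re, Complex.add_im, Complex.mul_re, Complex.mul_im,
        Complex.ofReal_re, Complex.ofReal_im, zero_mul, sub_zero, add_zero] at hre him
      simp only [cr] at c1 c2 c3 c4
      have key1 : (1 - v) * ((D.C i true).re * (D.rho i true).im
          - (D.C i true).im * (D.rho i true).re) =
          r * (D.ell.re * (D.C i true).im - D.ell.im * (D.C i true).re) := by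
        linear_combination (D.C i true).im * hre - (D.C i true).re * him
      have key2 : D.ell.re * (D.C i true).im - D.ell.im * (D.C i true).re =
          (1 - v) * (D.ell.re * (D.rho i true).im - D.ell.im * (D.rho i true).re) := by
        linear_combination D.ell.re * him - D.ell.im * hre
      rw [key2] at key1
      have hv1 : 0 < 1 - v := sub_pos.mpr h1
      have key3 : ((D.C i true).re * (D.rho i true).im
          - (D.C i true).im * (D.rho i true).re) =
          r * (D.ell.re * (D.rho i true).im - D.ell.im * (D.rho i true).re) := by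
        apply mul_left_cancel₀ hv1.ne'
        linear_combination key1
      have h5 : r * (D.ell.re * (D.rho i true).im - D.ell.im * (D.rho i true).re) ≤
          D.ell.re * (D.rho i true).im - D.ell.im * (D.rho i true).re :=
        mul_le_of_le_one_left c4.le hr.2
      linarith

end Par

end Pool.Agent.H1.Horo
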