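import Pool.Agent.H1.Horo.Pts

/-!
# The point of given polygon position is well defined off the slit

PROOF of `mk_eq_of_ppos`.  Let `p, p'` be chart points of the torus `(i, e)` with the same polygon
position `q`.  Write `C, z, ρ, A = z + ρ` for the parameters, `cr` for the cross product.
If both are in the same triangle then `p = p'` by `pos_inj` (`edge_valid`).
Otherwise show that `p, p'` are the two chart points of the common side of two adjacent triangles
(then they are `Glued`), or the same vertex of the polygon, in which case they are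
connected by a chain of such gluings around this vertex inside the polygon (the vertex is then
`0, C, C+z, C+A, A` or `z`; `A` and, for the label `true`, `Q = A + ell` are on the slit and excluded).
Triangles for the label `false`: `b1=(0,C,C+z) b2=(0,C+z,z) b3=(z,C+z,C+A) b4=(z,C+A,A)`.
`b1, b2` are the points `u C + v z` with `u ≥ v`, `u ≤ v` (`u, v ∈ [0,1]`); `b3, b4` the points
`z + u C + v ρ` with `u ≥ v`, `u ≤ v`.  Pairs:
* `b1, b2`: linear independence of `C, z` gives `u = v`, the common side `(b1,2) = (b2,0)`.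
* `b3, b4`: the same with `C, ρ`, common side `(b3,2) = (b4,0)`.
* one of `b1, b2` and one of `b3, b4`: `cr C q ≤ cr C z` for the first ones and `≥` for the last ones,
  so equality, so `q = z + u C` with `u ∈ [0,1]`; in `b1` only if `u = 1`; in `b4` only if `u = 0`.
  `b2, b3`: common side `(b2,1) = (b3,0)`.  `b1, b3`: the vertex `C+z`, chain `b1 b2 b3`.
  `b2, b4`: the vertex `z`, chain `b2 b3 b4`.  `b1, b4`: impossible.
For the label `true` the same with `a1, a2, a3` and the triangle `(z,C+A,A)` cut at its interior point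
`Q = A + ell` into `n1=(z,C+A,Q) n2=(C+A,A,Q) n3=(A,z,Q)`: two of them have in common a segment from
`Q` to a vertex: `(n1,1) = (n2,2)`, `(n1,2) = (n3,1)`, and for `n2, n3` the slit `[A,Q]`, excluded.
`n2` and `a3` have only `C+A` in common (chain through `n1`), `n3` and `a3` only `z`, `n1` and `a3` the
side `(a3,2) = (n1,0)`; `n1, n3` and `a2` only `z`; `n2` and `a1, a2`: nothing, `n1, n3` and `a1`: nothing.
(Suggestion: express everything with barycentric coordinates `p.1.2 0, p.1.2 1, p.1.2 2 ≥ 0`, apply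
`cr C`, `cr z`, `cr ρ`, `cr ell` to the equation of positions, and use `nlinarith`/`linarith` with
the positivity conditions `D.Pos`.)
-/

namespace Pool.Agent.H1.Horo

open Set MeasureTheory

namespace Par
variable {n : ℕ} [NeZero n] {D : Par n}


/-- The chart point with given barycentric coordinates. -/
def hwC (i : Fin n) (t : TT) (x : Fin 3 → ℝ) (hx : x ∈ stdSimplex ℝ (Fin 3)) : (pat n).Chart :=
  ⟨(((i, t) : Fin n × TT), x), hx⟩

/-- Crossing the side `k` of the triangle `t`. -/
theorem hw_step (i : Fin n) (t : TT) (k : Fin 3) (x x' : Fin 3 → ℝ)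
    (hx : x ∈ stdSimplex ℝ (Fin 3)) (hx' : x' ∈ stdSimplex ℝ (Fin 3))
    (e0 : x (k + 2) = 0) (e1 : x' (TT.gl t k).2 = x (k + 1)) (e0' : x' ((TT.gl t k).2 + 2) = 0) :
    Quot.mk (pat n).Glued (hwC i t x hx) =
      Quot.mk (pat n).Glued (hwC (TT.sh n t k i) (TT.gl t k).1 x' hx') := by
  obtain ⟨hx0, hx1⟩ := hx
  obtain ⟨hx0', hx1'⟩ := hx'
  rw [Fin.sum_univ_three] at hx1 hx1'
  have key : ∀ (l : Fin 3) (y : Fin 3 → ℝ), y 0 + y 1 + y 2 = 1 → y (l + 2) = 0 →
      y = fun j => if j = l then 1 - y (l + 1) else if j = l + 1 then y (l + 1) else 0 := by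
    intro l y hy hy0
    have hl : l = 0 ∨ l = 1 ∨ l = 2 := by fin_cases l <;> simp
    funext j
    have hj : j = 0 ∨ j = 1 ∨ j = 2 := by fin_cases j <;> simp
    rcases hl with rfl | rfl | rfl <;> rcases hj with rfl | rfl | rfl <;> simp at hy0 ⊢ <;>
      linarith
  have hsum : ∀ (l : Fin 3) (y : Fin 3 → ℝ), y 0 + y 1 + y 2 = 1 → y (l + 2) = 0 →
      y l + y (l + 1) = 1 := by
    intro l y hy hy0
    have hl : l = 0 ∨ l = 1 ∨ l = 2 := by fin_cases l <;> simp
    rcases hl with rfl | rfl | rfl <;> simp at hy0 ⊢ <;> linarith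
  apply Quot.sound
  refine ⟨(((i, t) : Fin n × TT), k), x (k + 1), ⟨hx0 _, ?_⟩, ?_, ?_⟩
  · have := hsum k x hx1 e0
    have := hx0 k
    linarith
  · have := key k x hx1 e0
    exact Prod.ext rfl this
  · have h1 := key _ x' hx1' e0'
    have h2 := hsum _ x' hx1' e0'
    have h3 : x' ((TT.gl t k).2 + 1) = 1 - x (k + 1) := by linarith
    rw [h3] at h1
    exact Prod.ext rfl h1

/-- vertex `k` of the triangle `t` -/
def hwV (i : Fin n) (t : TT) (k : Fin 3) : (pat n).Pt :=
  Quot.mk _ (hwC i t (Pi.single k 1) (single_mem_stdSimplex ℝ k))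

theorem hw_eq_V (i : Fin n) (t : TT) (k : Fin 3) (x : Fin 3 → ℝ)
    (hx : x ∈ stdSimplex ℝ (Fin 3)) (h : x k = 1) :
    Quot.mk (pat n).Glued (hwC i t x hx) = hwV i t k := by
  have h1 : x = Pi.single k 1 := by
    obtain ⟨hx0, hx1⟩ := hx
    rw [Fin.sum_univ_three] at hx1
    have a0 := hx0 0
    have a1 := hx0 1
    have a2 := hx0 2
    have hk : k = 0 ∨ k = 1 ∨ k = 2 := by fin_cases k <;> simp
    funext j
    have hj : j = 0 ∨ j = 1 ∨ j = 2 := by fin_cases j <;> simp
    rcases hk with rfl | rfl | rfl <;> rcases hj with rfl | rfl | rfl <;>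
      simp [Pi.single_apply] at h ⊢ <;> linarith
  subst h1
  rfl

/-- the vertex `k`, as first point of the side `k` -/
theorem hwV_step (i : Fin n) (t : TT) (k : Fin 3) :
    hwV i t k = hwV (TT.sh n t k i) (TT.gl t k).1 ((TT.gl t k).2 + 1) := by
  apply hw_step
  · have : k + 2 ≠ k := by fin_cases k <;> decide
    simp [Pi.single_apply, this]
  · have h1 : k + 1 ≠ k := by fin_cases k <;> decide
    generalize (TT.gl t k).2 = l
    have h2 : l ≠ l + 1 := by fin_cases l <;> decide
    simp [Pi.single_apply, h1, h2]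
  · generalize (TT.gl t k).2 = l
    have h2 : l + 2 ≠ l + 1 := by fin_cases l <;> decide
    simp [Pi.single_apply, h2]

/-- the vertex `k + 1`, as last point of the side `k` -/
theorem hwV_step' (i : Fin n) (t : TT) (k : Fin 3) :
    hwV i t (k + 1) = hwV (TT.sh n t k i) (TT.gl t k).1 (TT.gl t k).2 := by
  apply hw_step
  · have : k + 2 ≠ k + 1 := by fin_cases k <;> decide
    simp [Pi.single_apply, this]
  · simp
  · generalize (TT.gl t k).2 = l
    have h2 : l + 2 ≠ l := by fin_cases l <;> decide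
    simp [Pi.single_apply, h2]

theorem cr_add (w a b : ℂ) : cr w (a + b) = cr w a + cr w b := by
  simp only [cr, Complex.add_re, Complex.add_im]; ring
theorem cr_sub (w a b : ℂ) : cr w (a - b) = cr w a - cr w b := by
  simp only [cr, Complex.sub_re, Complex.sub_im]; ring
theorem cr_neg (w a : ℂ) : cr w (-a) = - cr w a := by
  simp only [cr, Complex.neg_re, Complex.neg_im]; ring
theorem cr_rmul (w a : ℂ) (r : ℝ) : cr w (r * a) = r * cr w a := by
  simp only [cr, Complex.mul_re, Complex.mul_im, Complex.ofReal_re, Complex.ofReal_im]; ring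
theorem cr_zero (w : ℂ) : cr w 0 = 0 := by simp [cr]
theorem cr_self (w : ℂ) : cr w w = 0 := by simp only [cr]; ring
theorem cr_swap (a b : ℂ) : cr a b = - cr b a := by simp only [cr]; ring

/-- positions -/
theorem ppos_hw (i : Fin n) (t : TT) (x : Fin 3 → ℝ) (hx : x ∈ stdSimplex ℝ (Fin 3)) :
    D.ppos (hwC i t x hx) = D.off (i, t) + ((x 1 : ℂ) * D.edge ((i, t), 0) +
      (x 2 : ℂ) * (D.edge ((i, t), 0) + D.edge ((i, t), 1))) := rfl

theorem ss3 {x : Fin 3 → ℝ} (hx : x ∈ stdSimplex ℝ (Fin 3)) :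
    0 ≤ x 0 ∧ 0 ≤ x 1 ∧ 0 ≤ x 2 ∧ x 0 + x 1 + x 2 = 1 := by
  obtain ⟨h0, h1⟩ := hx
  rw [Fin.sum_univ_three] at h1
  exact ⟨h0 0, h0 1, h0 2, h1⟩

/-! Pure algebra -/

theorem two_zero {x y X Y : ℝ} (hX : 0 < X) (hY : 0 < Y) (hx : 0 ≤ x) (hy : 0 ≤ y)
    (h : x * X + y * Y = 0) : x = 0 ∧ y = 0 := by
  have e2 : 0 ≤ x * X := mul_nonneg hx hX.le
  have e3 : 0 ≤ y * Y := mul_nonneg hy hY.le
  have e4 : x * X = 0 := by linarith
  have e5 : y * Y = 0 := by linarith
  constructor
  · rcases mul_eq_zero.1 e4 with h | h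
    · exact h
    · exact absurd h hX.ne'
  · rcases mul_eq_zero.1 e5 with h | h
    · exact h
    · exact absurd h hY.ne'

theorem three_zero {x y z X Y Z : ℝ} (hX : 0 < X) (hY : 0 < Y) (hZ : 0 < Z) (hx : 0 ≤ x)
    (hy : 0 ≤ y) (hz : 0 ≤ z) (h : x * X + y * Y + z * Z = 0) : x = 0 ∧ y = 0 ∧ z = 0 := by
  have e2 : 0 ≤ x * X := mul_nonneg hx hX.le
  have e3 : 0 ≤ y * Y := mul_nonneg hy hY.le
  have e4 : 0 ≤ z * Z := mul_nonneg hz hZ.le
  have h1 := two_zero hX hY hx hy (by linarith)
  have h2 := two_zero hX hZ hx hz (by linarith)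
  exact ⟨h1.1, h1.2, h2.2⟩

theorem alg_zero {K x : ℝ} (hK : 0 < K) (h : x * K = 0) : x = 0 := by
  rcases mul_eq_zero.1 h with h | h
  · exact h
  · exact absurd h hK.ne'


theorem pair_a1_a2 (hD : D.Pos) (i : Fin n) (x x' : Fin 3 → ℝ) (hx : x ∈ stdSimplex ℝ (Fin 3))
    (hx' : x' ∈ stdSimplex ℝ (Fin 3))
    (h : D.ppos (hwC i .a1 x hx) = D.ppos (hwC i .a2 x' hx')) :
    Quot.mk (pat n).Glued (hwC i .a1 x hx) = Quot.mk (pat n).Glued (hwC i .a2 x' hx') := by
  have E := fun w => congrArg (cr w) h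
  simp only [ppos_hw, Par.off, Par.edge, Par.A, cr_add, cr_neg, cr_sub, cr_rmul, cr_zero] at E
  have EC := E (D.C i true)
  have EZ := E (D.zz i)
  have ER := E (D.rho i true)
  have EL := E D.ell
  clear E
  have s1 := cr_swap (D.zz i) (D.C i true)
  have s2 := cr_swap (D.rho i true) (D.C i true)
  have s3 := cr_swap (D.C i true) D.ell
  have s4 := cr_swap (D.rho i true) D.ell
  have K0 := hD.cz i true
  have L0 := hD.cρ i true
  have M0 := hD.ec i
  have N0 := hD.eρ i
  have Q0 := hD.n1 i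
  rw [s1] at EZ
  rw [s2] at ER
  rw [cr_self] at EC EZ
  try rw [cr_self] at ER
  try rw [s3] at EC
  try rw [s4] at ER
  try rw [cr_self] at EL
  generalize cr (D.C i true) (D.zz i) = K at *
  generalize cr (D.C i true) (D.rho i true) = L at *
  generalize cr D.ell (D.C i true) = M at *
  generalize cr D.ell (D.rho i true) = N at *
  obtain ⟨a0, b0, c0, ss⟩ := ss3 hx
  obtain ⟨a0', b0', c0', ss'⟩ := ss3 hx'
  have e1 : x 2 = x' 1 + x' 2 := by
    have : (x 2 - (x' 1 + x' 2)) * K = 0 := by linarith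
    linarith [alg_zero K0 this]
  have e2 : x 1 + x 2 = x' 1 := by
    have : (x 1 + x 2 - x' 1) * K = 0 := by linarith
    linarith [alg_zero K0 this]
  refine hw_step i .a1 2 x x' hx hx' ?_ ?_ ?_
  · change x 1 = 0; linarith
  · change x' 0 = x 0; linarith
  · change x' 2 = 0; linarith

theorem pair_a1_a3 (hD : D.Pos) (i : Fin n) (x x' : Fin 3 → ℝ) (hx : x ∈ stdSimplex ℝ (Fin 3))
    (hx' : x' ∈ stdSimplex ℝ (Fin 3))
    (h : D.ppos (hwC i .a1 x hx) = D.ppos (hwC i .a3 x' hx')) :
    Quot.mk (pat n).Glued (hwC i .a1 x hx) = Quot.mk (pat n).Glued (hwC i .a3 x' hx') := by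
  have E := fun w => congrArg (cr w) h
  simp only [ppos_hw, Par.off, Par.edge, Par.A, cr_add, cr_neg, cr_sub, cr_rmul, cr_zero] at E
  have EC := E (D.C i true)
  have EZ := E (D.zz i)
  have ER := E (D.rho i true)
  have EL := E D.ell
  clear E
  have s1 := cr_swap (D.zz i) (D.C i true)
  have s2 := cr_swap (D.rho i true) (D.C i true)
  have s3 := cr_swap (D.C i true) D.ell
  have s4 := cr_swap (D.rho i true) D.ell
  have K0 := hD.cz i true
  have L0 := hD.cρ i true
  have M0 := hD.ec i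
  have N0 := hD.eρ i
  have Q0 := hD.n1 i
  rw [s1] at EZ
  rw [s2] at ER
  rw [cr_self] at EC EZ
  try rw [cr_self] at ER
  try rw [s3] at EC
  try rw [s4] at ER
  try rw [cr_self] at EL
  generalize cr (D.C i true) (D.zz i) = K at *
  generalize cr (D.C i true) (D.rho i true) = L at *
  generalize cr D.ell (D.C i true) = M at *
  generalize cr D.ell (D.rho i true) = N at *
  obtain ⟨a0, b0, c0, ss⟩ := ss3 hx
  obtain ⟨a0', b0', c0', ss'⟩ := ss3 hx'
  have e1 := two_zero K0 L0 (x := 1 - x 2) (y := x' 2) (by linarith) c0' (by linarith)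
  obtain ⟨e1, e2⟩ := e1
  rw [e2] at EZ
  have e3 : x 1 + x 2 = x' 1 := by
    have : (x 1 + x 2 - x' 1) * K = 0 := by linarith
    linarith [alg_zero K0 this]
  have h1 := hw_eq_V i .a1 2 x hx (by linarith)
  have h2 := hw_eq_V i .a3 1 x' hx' (by linarith)
  have h3 : hwV i .a1 2 = hwV i .a2 1 := hwV_step i .a1 2
  have h4 : hwV i .a2 1 = hwV i .a3 1 := hwV_step i .a2 1
  rw [h1, h2, h3, h4]

theorem pair_a2_a3 (hD : D.Pos) (i : Fin n) (x x' : Fin 3 → ℝ) (hx : x ∈ stdSimplex ℝ (Fin 3))
    (hx' : x' ∈ stdSimplex ℝ (Fin 3))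
    (h : D.ppos (hwC i .a2 x hx) = D.ppos (hwC i .a3 x' hx')) :
    Quot.mk (pat n).Glued (hwC i .a2 x hx) = Quot.mk (pat n).Glued (hwC i .a3 x' hx') := by
  have E := fun w => congrArg (cr w) h
  simp only [ppos_hw, Par.off, Par.edge, Par.A, cr_add, cr_neg, cr_sub, cr_rmul, cr_zero] at E
  have EC := E (D.C i true)
  have EZ := E (D.zz i)
  have ER := E (D.rho i true)
  have EL := E D.ell
  clear E
  have s1 := cr_swap (D.zz i) (D.C i true)
  have s2 := cr_swap (D.rho i true) (D.C i true)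
  have s3 := cr_swap (D.C i true) D.ell
  have s4 := cr_swap (D.rho i true) D.ell
  have K0 := hD.cz i true
  have L0 := hD.cρ i true
  have M0 := hD.ec i
  have N0 := hD.eρ i
  have Q0 := hD.n1 i
  rw [s1] at EZ
  rw [s2] at ER
  rw [cr_self] at EC EZ
  try rw [cr_self] at ER
  try rw [s3] at EC
  try rw [s4] at ER
  try rw [cr_self] at EL
  generalize cr (D.C i true) (D.zz i) = K at *
  generalize cr (D.C i true) (D.rho i true) = L at *
  generalize cr D.ell (D.C i true) = M at *
  generalize cr D.ell (D.rho i true) = N at *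
  obtain ⟨a0, b0, c0, ss⟩ := ss3 hx
  obtain ⟨a0', b0', c0', ss'⟩ := ss3 hx'
  have e1 := two_zero K0 L0 (x := x 0) (y := x' 2) a0 c0'
    (by linear_combination K * ss - EC)
  obtain ⟨e1, e2⟩ := e1
  rw [e2] at EZ
  have e3 : x 1 = x' 1 := by
    have : (x 1 - x' 1) * K = 0 := by linarith
    linarith [alg_zero K0 this]
  refine hw_step i .a2 1 x x' hx hx' ?_ ?_ ?_
  · change x 0 = 0; linarith
  · change x' 0 = x 2; linarith
  · change x' 2 = 0; linarith

theorem pair_b1_b2 (hD : D.Pos) (i : Fin n) (x x' : Fin 3 → ℝ) (hx : x ∈ stdSimplex ℝ (Fin 3))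
    (hx' : x' ∈ stdSimplex ℝ (Fin 3))
    (h : D.ppos (hwC i .b1 x hx) = D.ppos (hwC i .b2 x' hx')) :
    Quot.mk (pat n).Glued (hwC i .b1 x hx) = Quot.mk (pat n).Glued (hwC i .b2 x' hx') := by
  have E := fun w => congrArg (cr w) h
  simp only [ppos_hw, Par.off, Par.edge, Par.A, cr_add, cr_neg, cr_sub, cr_rmul, cr_zero] at E
  have EC := E (D.C i false)
  have EZ := E (D.zz i)
  have ER := E (D.rho i false)
  have EL := E D.ell
  clear E
  have s1 := cr_swap (D.zz i) (D.C i false)
  have s2 := cr_swap (D.rho i false) (D.C i false)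
  have s3 := cr_swap (D.C i false) D.ell
  have s4 := cr_swap (D.rho i false) D.ell
  have K0 := hD.cz i false
  have L0 := hD.cρ i false
  have M0 := hD.ec i
  have N0 := hD.eρ i
  have Q0 := hD.n1 i
  rw [s1] at EZ
  rw [s2] at ER
  rw [cr_self] at EC EZ
  try rw [cr_self] at ER
  try rw [s3] at EC
  try rw [s4] at ER
  try rw [cr_self] at EL
  generalize cr (D.C i false) (D.zz i) = K at *
  generalize cr (D.C i false) (D.rho i false) = L at *
  generalize cr D.ell (D.C i true) = M at *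
  generalize cr D.ell (D.rho i true) = N at *
  obtain ⟨a0, b0, c0, ss⟩ := ss3 hx
  obtain ⟨a0', b0', c0', ss'⟩ := ss3 hx'
  have e1 : x 2 = x' 1 + x' 2 := by
    have : (x 2 - (x' 1 + x' 2)) * K = 0 := by linarith
    linarith [alg_zero K0 this]
  have e2 : x 1 + x 2 = x' 1 := by
    have : (x 1 + x 2 - x' 1) * K = 0 := by linarith
    linarith [alg_zero K0 this]
  refine hw_step i .b1 2 x x' hx hx' ?_ ?_ ?_
  · change x 1 = 0; linarith
  · change x' 0 = x 0; linarith
  · change x' 2 = 0; linarith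

theorem pair_b1_b3 (hD : D.Pos) (i : Fin n) (x x' : Fin 3 → ℝ) (hx : x ∈ stdSimplex ℝ (Fin 3))
    (hx' : x' ∈ stdSimplex ℝ (Fin 3))
    (h : D.ppos (hwC i .b1 x hx) = D.ppos (hwC i .b3 x' hx')) :
    Quot.mk (pat n).Glued (hwC i .b1 x hx) = Quot.mk (pat n).Glued (hwC i .b3 x' hx') := by
  have E := fun w => congrArg (cr w) h
  simp only [ppos_hw, Par.off, Par.edge, Par.A, cr_add, cr_neg, cr_sub, cr_rmul, cr_zero] at E
  have EC := E (D.C i false)
  have EZ := E (D.zz i)
  have ER := E (D.rho i false)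
  have EL := E D.ell
  clear E
  have s1 := cr_swap (D.zz i) (D.C i false)
  have s2 := cr_swap (D.rho i false) (D.C i false)
  have s3 := cr_swap (D.C i false) D.ell
  have s4 := cr_swap (D.rho i false) D.ell
  have K0 := hD.cz i false
  have L0 := hD.cρ i false
  have M0 := hD.ec i
  have N0 := hD.eρ i
  have Q0 := hD.n1 i
  rw [s1] at EZ
  rw [s2] at ER
  rw [cr_self] at EC EZ
  try rw [cr_self] at ER
  try rw [s3] at EC
  try rw [s4] at ER
  try rw [cr_self] at EL
  generalize cr (D.C i false) (D.zz i) = K at *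
  generalize cr (D.C i false) (D.rho i false) = L at *
  generalize cr D.ell (D.C i true) = M at *
  generalize cr D.ell (D.rho i true) = N at *
  obtain ⟨a0, b0, c0, ss⟩ := ss3 hx
  obtain ⟨a0', b0', c0', ss'⟩ := ss3 hx'
  have e1 := two_zero K0 L0 (x := 1 - x 2) (y := x' 2) (by linarith) c0' (by linarith)
  obtain ⟨e1, e2⟩ := e1
  rw [e2] at EZ
  have e3 : x 1 + x 2 = x' 1 := by
    have : (x 1 + x 2 - x' 1) * K = 0 := by linarith
    linarith [alg_zero K0 this]
  have h1 := hw_eq_V i .b1 2 x hx (by linarith)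
  have h2 := hw_eq_V i .b3 1 x' hx' (by linarith)
  have h3 : hwV i .b1 2 = hwV i .b2 1 := hwV_step i .b1 2
  have h4 : hwV i .b2 1 = hwV i .b3 1 := hwV_step i .b2 1
  rw [h1, h2, h3, h4]

theorem pair_b2_b3 (hD : D.Pos) (i : Fin n) (x x' : Fin 3 → ℝ) (hx : x ∈ stdSimplex ℝ (Fin 3))
    (hx' : x' ∈ stdSimplex ℝ (Fin 3))
    (h : D.ppos (hwC i .b2 x hx) = D.ppos (hwC i .b3 x' hx')) :
    Quot.mk (pat n).Glued (hwC i .b2 x hx) = Quot.mk (pat n).Glued (hwC i .b3 x' hx') := by
  have E := fun w => congrArg (cr w) h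
  simp only [ppos_hw, Par.off, Par.edge, Par.A, cr_add, cr_neg, cr_sub, cr_rmul, cr_zero] at E
  have EC := E (D.C i false)
  have EZ := E (D.zz i)
  have ER := E (D.rho i false)
  have EL := E D.ell
  clear E
  have s1 := cr_swap (D.zz i) (D.C i false)
  have s2 := cr_swap (D.rho i false) (D.C i false)
  have s3 := cr_swap (D.C i false) D.ell
  have s4 := cr_swap (D.rho i false) D.ell
  have K0 := hD.cz i false
  have L0 := hD.cρ i false
  have M0 := hD.ec i
  have N0 := hD.eρ i
  have Q0 := hD.n1 i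
  rw [s1] at EZ
  rw [s2] at ER
  rw [cr_self] at EC EZ
  try rw [cr_self] at ER
  try rw [s3] at EC
  try rw [s4] at ER
  try rw [cr_self] at EL
  generalize cr (D.C i false) (D.zz i) = K at *
  generalize cr (D.C i false) (D.rho i false) = L at *
  generalize cr D.ell (D.C i true) = M at *
  generalize cr D.ell (D.rho i true) = N at *
  obtain ⟨a0, b0, c0, ss⟩ := ss3 hx
  obtain ⟨a0', b0', c0', ss'⟩ := ss3 hx'
  have e1 := two_zero K0 L0 (x := x 0) (y := x' 2) a0 c0'
    (by linear_combination K * ss - EC)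
  obtain ⟨e1, e2⟩ := e1
  rw [e2] at EZ
  have e3 : x 1 = x' 1 := by
    have : (x 1 - x' 1) * K = 0 := by linarith
    linarith [alg_zero K0 this]
  refine hw_step i .b2 1 x x' hx hx' ?_ ?_ ?_
  · change x 0 = 0; linarith
  · change x' 0 = x 2; linarith
  · change x' 2 = 0; linarith

theorem pair_b1_b4 (hD : D.Pos) (i : Fin n) (x x' : Fin 3 → ℝ) (hx : x ∈ stdSimplex ℝ (Fin 3))
    (hx' : x' ∈ stdSimplex ℝ (Fin 3))
    (h : D.ppos (hwC i .b1 x hx) = D.ppos (hwC i .b4 x' hx')) :
    Quot.mk (pat n).Glued (hwC i .b1 x hx) = Quot.mk (pat n).Glued (hwC i .b4 x' hx') := by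
  have E := fun w => congrArg (cr w) h
  simp only [ppos_hw, Par.off, Par.edge, Par.A, cr_add, cr_neg, cr_sub, cr_rmul, cr_zero] at E
  have EC := E (D.C i false)
  have EZ := E (D.zz i)
  have ER := E (D.rho i false)
  have EL := E D.ell
  clear E
  have s1 := cr_swap (D.zz i) (D.C i false)
  have s2 := cr_swap (D.rho i false) (D.C i false)
  have s3 := cr_swap (D.C i false) D.ell
  have s4 := cr_swap (D.rho i false) D.ell
  have K0 := hD.cz i false
  have L0 := hD.cρ i false
  have M0 := hD.ec i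
  have N0 := hD.eρ i
  have Q0 := hD.n1 i
  rw [s1] at EZ
  rw [s2] at ER
  rw [cr_self] at EC EZ
  try rw [cr_self] at ER
  try rw [s3] at EC
  try rw [s4] at ER
  try rw [cr_self] at EL
  generalize cr (D.C i false) (D.zz i) = K at *
  generalize cr (D.C i false) (D.rho i false) = L at *
  generalize cr D.ell (D.C i true) = M at *
  generalize cr D.ell (D.rho i true) = N at *
  obtain ⟨a0, b0, c0, ss⟩ := ss3 hx
  obtain ⟨a0', b0', c0', ss'⟩ := ss3 hx'
  have e1 := two_zero K0 L0 (x := 1 - x 2) (y := x' 1 + x' 2) (by linarith) (by linarith)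
    (by linear_combination -EC)
  obtain ⟨e1, e2⟩ := e1
  exfalso
  have e3 : x' 1 = 0 := by linarith
  have e4 : x' 2 = 0 := by linarith
  rw [e3, e4] at EZ
  have : (x 1 + x 2) * K = 0 := by linarith
  linarith [alg_zero K0 this]

theorem pair_b2_b4 (hD : D.Pos) (i : Fin n) (x x' : Fin 3 → ℝ) (hx : x ∈ stdSimplex ℝ (Fin 3))
    (hx' : x' ∈ stdSimplex ℝ (Fin 3))
    (h : D.ppos (hwC i .b2 x hx) = D.ppos (hwC i .b4 x' hx')) :
    Quot.mk (pat n).Glued (hwC i .b2 x hx) = Quot.mk (pat n).Glued (hwC i .b4 x' hx') := by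
  have E := fun w => congrArg (cr w) h
  simp only [ppos_hw, Par.off, Par.edge, Par.A, cr_add, cr_neg, cr_sub, cr_rmul, cr_zero] at E
  have EC := E (D.C i false)
  have EZ := E (D.zz i)
  have ER := E (D.rho i false)
  have EL := E D.ell
  clear E
  have s1 := cr_swap (D.zz i) (D.C i false)
  have s2 := cr_swap (D.rho i false) (D.C i false)
  have s3 := cr_swap (D.C i false) D.ell
  have s4 := cr_swap (D.rho i false) D.ell
  have K0 := hD.cz i false
  have L0 := hD.cρ i false
  have M0 := hD.ec i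
  have N0 := hD.eρ i
  have Q0 := hD.n1 i
  rw [s1] at EZ
  rw [s2] at ER
  rw [cr_self] at EC EZ
  try rw [cr_self] at ER
  try rw [s3] at EC
  try rw [s4] at ER
  try rw [cr_self] at EL
  generalize cr (D.C i false) (D.zz i) = K at *
  generalize cr (D.C i false) (D.rho i false) = L at *
  generalize cr D.ell (D.C i true) = M at *
  generalize cr D.ell (D.rho i true) = N at *
  obtain ⟨a0, b0, c0, ss⟩ := ss3 hx
  obtain ⟨a0', b0', c0', ss'⟩ := ss3 hx'
  have e1 := two_zero K0 L0 (x := x 0) (y := x' 1 + x' 2) a0 (by linarith)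
    (by linear_combination K * ss - EC)
  obtain ⟨e1, e2⟩ := e1
  have e3 : x' 1 = 0 := by linarith
  have e4 : x' 2 = 0 := by linarith
  rw [e3, e4] at EZ
  have e5 : x 1 = 0 := by
    have : (x 1) * K = 0 := by linarith
    linarith [alg_zero K0 this]
  have h1 := hw_eq_V i .b2 2 x hx (by linarith)
  have h2 := hw_eq_V i .b4 0 x' hx' (by linarith)
  have h3 : hwV i .b2 2 = hwV i .b3 0 := hwV_step' i .b2 1
  have h4 : hwV i .b3 0 = hwV i .b4 0 := hwV_step' i .b3 2
  rw [h1, h2, h3, h4]

theorem pair_b3_b4 (hD : D.Pos) (i : Fin n) (x x' : Fin 3 → ℝ) (hx : x ∈ stdSimplex ℝ (Fin 3))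
    (hx' : x' ∈ stdSimplex ℝ (Fin 3))
    (h : D.ppos (hwC i .b3 x hx) = D.ppos (hwC i .b4 x' hx')) :
    Quot.mk (pat n).Glued (hwC i .b3 x hx) = Quot.mk (pat n).Glued (hwC i .b4 x' hx') := by
  have E := fun w => congrArg (cr w) h
  simp only [ppos_hw, Par.off, Par.edge, Par.A, cr_add, cr_neg, cr_sub, cr_rmul, cr_zero] at E
  have EC := E (D.C i false)
  have EZ := E (D.zz i)
  have ER := E (D.rho i false)
  have EL := E D.ell
  clear E
  have s1 := cr_swap (D.zz i) (D.C i false)
  have s2 := cr_swap (D.rho i false) (D.C i false)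
  have s3 := cr_swap (D.C i false) D.ell
  have s4 := cr_swap (D.rho i false) D.ell
  have K0 := hD.cz i false
  have L0 := hD.cρ i false
  have M0 := hD.ec i
  have N0 := hD.eρ i
  have Q0 := hD.n1 i
  rw [s1] at EZ
  rw [s2] at ER
  rw [cr_self] at EC EZ
  try rw [cr_self] at ER
  try rw [s3] at EC
  try rw [s4] at ER
  try rw [cr_self] at EL
  generalize cr (D.C i false) (D.zz i) = K at *
  generalize cr (D.C i false) (D.rho i false) = L at *
  generalize cr D.ell (D.C i true) = M at *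
  generalize cr D.ell (D.rho i true) = N at *
  obtain ⟨a0, b0, c0, ss⟩ := ss3 hx
  obtain ⟨a0', b0', c0', ss'⟩ := ss3 hx'
  have e1 : x 2 = x' 1 + x' 2 := by
    have : (x 2 - (x' 1 + x' 2)) * L = 0 := by linarith
    linarith [alg_zero L0 this]
  have e2 : x 1 + x 2 = x' 1 := by
    have : (x 1 + x 2 - x' 1) * L = 0 := by linarith
    linarith [alg_zero L0 this]
  refine hw_step i .b3 2 x x' hx hx' ?_ ?_ ?_
  · change x 1 = 0; linarith
  · change x' 0 = x 0; linarith
  · change x' 2 = 0; linarith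

theorem pair_a1_n1 (hD : D.Pos) (i : Fin n) (x x' : Fin 3 → ℝ) (hx : x ∈ stdSimplex ℝ (Fin 3))
    (hx' : x' ∈ stdSimplex ℝ (Fin 3))
    (h : D.ppos (hwC i .a1 x hx) = D.ppos (hwC i .n1 x' hx')) :
    Quot.mk (pat n).Glued (hwC i .a1 x hx) = Quot.mk (pat n).Glued (hwC i .n1 x' hx') := by
  have E := fun w => congrArg (cr w) h
  simp only [ppos_hw, Par.off, Par.edge, Par.A, cr_add, cr_neg, cr_sub, cr_rmul, cr_zero] at E
  have EC := E (D.C i true)
  have EZ := E (D.zz i)
  have ER := E (D.rho i true)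
  have EL := E D.ell
  clear E
  have s1 := cr_swap (D.zz i) (D.C i true)
  have s2 := cr_swap (D.rho i true) (D.C i true)
  have s3 := cr_swap (D.C i true) D.ell
  have s4 := cr_swap (D.rho i true) D.ell
  have K0 := hD.cz i true
  have L0 := hD.cρ i true
  have M0 := hD.ec i
  have N0 := hD.eρ i
  have Q0 := hD.n1 i
  rw [s1] at EZ
  rw [s2] at ER
  rw [cr_self] at EC EZ
  try rw [cr_self] at ER
  try rw [s3] at EC
  try rw [s4] at ER
  try rw [cr_self] at EL
  generalize cr (D.C i true) (D.zz i) = K at *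
  generalize cr (D.C i true) (D.rho i true) = L at *
  generalize cr D.ell (D.C i true) = M at *
  generalize cr D.ell (D.rho i true) = N at *
  obtain ⟨a0, b0, c0, ss⟩ := ss3 hx
  obtain ⟨a0', b0', c0', ss'⟩ := ss3 hx'
  have e1 := three_zero K0 L0 (Z := L - M) (by linarith) (x := 1 - x 2) (y := x' 1) (z := x' 2)
    (by linarith) b0' c0' (by linear_combination -EC)
  obtain ⟨e1, e2, e3⟩ := e1
  exfalso
  rw [e2, e3] at EZ
  have : (x 1 + x 2) * K = 0 := by linarith
  linarith [alg_zero K0 this]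

theorem pair_a1_n2 (hD : D.Pos) (i : Fin n) (x x' : Fin 3 → ℝ) (hx : x ∈ stdSimplex ℝ (Fin 3))
    (hx' : x' ∈ stdSimplex ℝ (Fin 3))
    (h : D.ppos (hwC i .a1 x hx) = D.ppos (hwC i .n2 x' hx')) :
    Quot.mk (pat n).Glued (hwC i .a1 x hx) = Quot.mk (pat n).Glued (hwC i .n2 x' hx') := by
  have E := fun w => congrArg (cr w) h
  simp only [ppos_hw, Par.off, Par.edge, Par.A, cr_add, cr_neg, cr_sub, cr_rmul, cr_zero] at E
  have EC := E (D.C i true)
  have EZ := E (D.zz i)
  have ER := E (D.rho i true)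
  have EL := E D.ell
  clear E
  have s1 := cr_swap (D.zz i) (D.C i true)
  have s2 := cr_swap (D.rho i true) (D.C i true)
  have s3 := cr_swap (D.C i true) D.ell
  have s4 := cr_swap (D.rho i true) D.ell
  have K0 := hD.cz i true
  have L0 := hD.cρ i true
  have M0 := hD.ec i
  have N0 := hD.eρ i
  have Q0 := hD.n1 i
  rw [s1] at EZ
  rw [s2] at ER
  rw [cr_self] at EC EZ
  try rw [cr_self] at ER
  try rw [s3] at EC
  try rw [s4] at ER
  try rw [cr_self] at EL
  generalize cr (D.C i true) (D.zz i) = K at *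
  generalize cr (D.C i true) (D.rho i true) = L at *
  generalize cr D.ell (D.C i true) = M at *
  generalize cr D.ell (D.rho i true) = N at *
  obtain ⟨a0, b0, c0, ss⟩ := ss3 hx
  obtain ⟨a0', b0', c0', ss'⟩ := ss3 hx'
  have e1 := three_zero K0 L0 (Z := L - M) (by linarith) (x := 1 - x 2) (y := 1 - x' 2) (z := x' 2)
    (by linarith) (by linarith) c0' (by linear_combination -EC)
  obtain ⟨e1, e2, e3⟩ := e1
  exfalso
  linarith

theorem pair_a1_n3 (hD : D.Pos) (i : Fin n) (x x' : Fin 3 → ℝ) (hx : x ∈ stdSimplex ℝ (Fin 3))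
    (hx' : x' ∈ stdSimplex ℝ (Fin 3))
    (h : D.ppos (hwC i .a1 x hx) = D.ppos (hwC i .n3 x' hx')) :
    Quot.mk (pat n).Glued (hwC i .a1 x hx) = Quot.mk (pat n).Glued (hwC i .n3 x' hx') := by
  have E := fun w => congrArg (cr w) h
  simp only [ppos_hw, Par.off, Par.edge, Par.A, cr_add, cr_neg, cr_sub, cr_rmul, cr_zero] at E
  have EC := E (D.C i true)
  have EZ := E (D.zz i)
  have ER := E (D.rho i true)
  have EL := E D.ell
  clear E
  have s1 := cr_swap (D.zz i) (D.C i true)
  have s2 := cr_swap (D.rho i true) (D.C i true)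
  have s3 := cr_swap (D.C i true) D.ell
  have s4 := cr_swap (D.rho i true) D.ell
  have K0 := hD.cz i true
  have L0 := hD.cρ i true
  have M0 := hD.ec i
  have N0 := hD.eρ i
  have Q0 := hD.n1 i
  rw [s1] at EZ
  rw [s2] at ER
  rw [cr_self] at EC EZ
  try rw [cr_self] at ER
  try rw [s3] at EC
  try rw [s4] at ER
  try rw [cr_self] at EL
  generalize cr (D.C i true) (D.zz i) = K at *
  generalize cr (D.C i true) (D.rho i true) = L at *
  generalize cr D.ell (D.C i true) = M at *
  generalize cr D.ell (D.rho i true) = N at *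
  obtain ⟨a0, b0, c0, ss⟩ := ss3 hx
  obtain ⟨a0', b0', c0', ss'⟩ := ss3 hx'
  have e1 := three_zero K0 L0 (Z := L - M) (by linarith) (x := 1 - x 2) (y := x' 0) (z := x' 2)
    (by linarith) a0' c0' (by linear_combination -EC + L * ss')
  obtain ⟨e1, e2, e3⟩ := e1
  exfalso
  have e4 : x' 1 = 1 := by linarith
  rw [e4, e3] at EZ
  have : (x 1 + x 2) * K = 0 := by linarith
  linarith [alg_zero K0 this]

theorem pair_a2_n1 (hD : D.Pos) (i : Fin n) (x x' : Fin 3 → ℝ) (hx : x ∈ stdSimplex ℝ (Fin 3))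
    (hx' : x' ∈ stdSimplex ℝ (Fin 3))
    (h : D.ppos (hwC i .a2 x hx) = D.ppos (hwC i .n1 x' hx')) :
    Quot.mk (pat n).Glued (hwC i .a2 x hx) = Quot.mk (pat n).Glued (hwC i .n1 x' hx') := by
  have E := fun w => congrArg (cr w) h
  simp only [ppos_hw, Par.off, Par.edge, Par.A, cr_add, cr_neg, cr_sub, cr_rmul, cr_zero] at E
  have EC := E (D.C i true)
  have EZ := E (D.zz i)
  have ER := E (D.rho i true)
  have EL := E D.ell
  clear E
  have s1 := cr_swap (D.zz i) (D.C i true)
  have s2 := cr_swap (D.rho i true) (D.C i true)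
  have s3 := cr_swap (D.C i true) D.ell
  have s4 := cr_swap (D.rho i true) D.ell
  have K0 := hD.cz i true
  have L0 := hD.cρ i true
  have M0 := hD.ec i
  have N0 := hD.eρ i
  have Q0 := hD.n1 i
  rw [s1] at EZ
  rw [s2] at ER
  rw [cr_self] at EC EZ
  try rw [cr_self] at ER
  try rw [s3] at EC
  try rw [s4] at ER
  try rw [cr_self] at EL
  generalize cr (D.C i true) (D.zz i) = K at *
  generalize cr (D.C i true) (D.rho i true) = L at *
  generalize cr D.ell (D.C i true) = M at *
  generalize cr D.ell (D.rho i true) = N at *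
  obtain ⟨a0, b0, c0, ss⟩ := ss3 hx
  obtain ⟨a0', b0', c0', ss'⟩ := ss3 hx'
  have e1 := three_zero K0 L0 (Z := L - M) (by linarith) (x := x 0) (y := x' 1) (z := x' 2)
    a0 b0' c0' (by linear_combination -EC + K * ss)
  obtain ⟨e1, e2, e3⟩ := e1
  rw [e2, e3] at EZ
  have e5 : x 1 = 0 := by
    have : (x 1) * K = 0 := by linarith
    linarith [alg_zero K0 this]
  have h1 := hw_eq_V i .a2 2 x hx (by linarith)
  have h2 := hw_eq_V i .n1 0 x' hx' (by linarith)
  have h3 : hwV i .a2 2 = hwV i .a3 0 := hwV_step' i .a2 1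
  have h4 : hwV i .a3 0 = hwV i .n1 0 := hwV_step' i .a3 2
  rw [h1, h2, h3, h4]

theorem pair_a2_n2 (hD : D.Pos) (i : Fin n) (x x' : Fin 3 → ℝ) (hx : x ∈ stdSimplex ℝ (Fin 3))
    (hx' : x' ∈ stdSimplex ℝ (Fin 3))
    (h : D.ppos (hwC i .a2 x hx) = D.ppos (hwC i .n2 x' hx')) :
    Quot.mk (pat n).Glued (hwC i .a2 x hx) = Quot.mk (pat n).Glued (hwC i .n2 x' hx') := by
  have E := fun w => congrArg (cr w) h
  simp only [ppos_hw, Par.off, Par.edge, Par.A, cr_add, cr_neg, cr_sub, cr_rmul, cr_zero] at E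
  have EC := E (D.C i true)
  have EZ := E (D.zz i)
  have ER := E (D.rho i true)
  have EL := E D.ell
  clear E
  have s1 := cr_swap (D.zz i) (D.C i true)
  have s2 := cr_swap (D.rho i true) (D.C i true)
  have s3 := cr_swap (D.C i true) D.ell
  have s4 := cr_swap (D.rho i true) D.ell
  have K0 := hD.cz i true
  have L0 := hD.cρ i true
  have M0 := hD.ec i
  have N0 := hD.eρ i
  have Q0 := hD.n1 i
  rw [s1] at EZ
  rw [s2] at ER
  rw [cr_self] at EC EZ
  try rw [cr_self] at ER
  try rw [s3] at EC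
  try rw [s4] at ER
  try rw [cr_self] at EL
  generalize cr (D.C i true) (D.zz i) = K at *
  generalize cr (D.C i true) (D.rho i true) = L at *
  generalize cr D.ell (D.C i true) = M at *
  generalize cr D.ell (D.rho i true) = N at *
  obtain ⟨a0, b0, c0, ss⟩ := ss3 hx
  obtain ⟨a0', b0', c0', ss'⟩ := ss3 hx'
  have e1 := three_zero K0 L0 (Z := L - M) (by linarith) (x := x 0) (y := 1 - x' 2) (z := x' 2)
    a0 (by linarith) c0' (by linear_combination -EC + K * ss)
  obtain ⟨e1, e2, e3⟩ := e1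
  exfalso
  linarith

theorem pair_a2_n3 (hD : D.Pos) (i : Fin n) (x x' : Fin 3 → ℝ) (hx : x ∈ stdSimplex ℝ (Fin 3))
    (hx' : x' ∈ stdSimplex ℝ (Fin 3))
    (h : D.ppos (hwC i .a2 x hx) = D.ppos (hwC i .n3 x' hx')) :
    Quot.mk (pat n).Glued (hwC i .a2 x hx) = Quot.mk (pat n).Glued (hwC i .n3 x' hx') := by
  have E := fun w => congrArg (cr w) h
  simp only [ppos_hw, Par.off, Par.edge, Par.A, cr_add, cr_neg, cr_sub, cr_rmul, cr_zero] at E
  have EC := E (D.C i true)
  have EZ := E (D.zz i)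
  have ER := E (D.rho i true)
  have EL := E D.ell
  clear E
  have s1 := cr_swap (D.zz i) (D.C i true)
  have s2 := cr_swap (D.rho i true) (D.C i true)
  have s3 := cr_swap (D.C i true) D.ell
  have s4 := cr_swap (D.rho i true) D.ell
  have K0 := hD.cz i true
  have L0 := hD.cρ i true
  have M0 := hD.ec i
  have N0 := hD.eρ i
  have Q0 := hD.n1 i
  rw [s1] at EZ
  rw [s2] at ER
  rw [cr_self] at EC EZ
  try rw [cr_self] at ER
  try rw [s3] at EC
  try rw [s4] at ER
  try rw [cr_self] at EL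
  generalize cr (D.C i true) (D.zz i) = K at *
  generalize cr (D.C i true) (D.rho i true) = L at *
  generalize cr D.ell (D.C i true) = M at *
  generalize cr D.ell (D.rho i true) = N at *
  obtain ⟨a0, b0, c0, ss⟩ := ss3 hx
  obtain ⟨a0', b0', c0', ss'⟩ := ss3 hx'
  have e1 := three_zero K0 L0 (Z := L - M) (by linarith) (x := x 0) (y := x' 0) (z := x' 2)
    a0 a0' c0' (by linear_combination -EC + K * ss + L * ss')
  obtain ⟨e1, e2, e3⟩ := e1
  have e4 : x' 1 = 1 := by linarith
  rw [e4, e3] at EZ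
  have e5 : x 1 = 0 := by
    have : (x 1) * K = 0 := by linarith
    linarith [alg_zero K0 this]
  have h1 := hw_eq_V i .a2 2 x hx (by linarith)
  have h2 := hw_eq_V i .n3 1 x' hx' (by linarith)
  have h3 : hwV i .a2 2 = hwV i .a3 0 := hwV_step' i .a2 1
  have h4 : hwV i .a3 0 = hwV i .n1 0 := hwV_step' i .a3 2
  have h5 : hwV i .n1 0 = hwV i .n3 1 := hwV_step' i .n1 2
  rw [h1, h2, h3, h4, h5]

theorem pair_a3_n1 (hD : D.Pos) (i : Fin n) (x x' : Fin 3 → ℝ) (hx : x ∈ stdSimplex ℝ (Fin 3))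
    (hx' : x' ∈ stdSimplex ℝ (Fin 3))
    (h : D.ppos (hwC i .a3 x hx) = D.ppos (hwC i .n1 x' hx')) :
    Quot.mk (pat n).Glued (hwC i .a3 x hx) = Quot.mk (pat n).Glued (hwC i .n1 x' hx') := by
  have E := fun w => congrArg (cr w) h
  simp only [ppos_hw, Par.off, Par.edge, Par.A, cr_add, cr_neg, cr_sub, cr_rmul, cr_zero] at E
  have EC := E (D.C i true)
  have EZ := E (D.zz i)
  have ER := E (D.rho i true)
  have EL := E D.ell
  clear E
  have s1 := cr_swap (D.zz i) (D.C i true)
  have s2 := cr_swap (D.rho i true) (D.C i true)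
  have s3 := cr_swap (D.C i true) D.ell
  have s4 := cr_swap (D.rho i true) D.ell
  have K0 := hD.cz i true
  have L0 := hD.cρ i true
  have M0 := hD.ec i
  have N0 := hD.eρ i
  have Q0 := hD.n1 i
  rw [s1] at EZ
  rw [s2] at ER
  rw [cr_self] at EC EZ
  try rw [cr_self] at ER
  try rw [s3] at EC
  try rw [s4] at ER
  try rw [cr_self] at EL
  generalize cr (D.C i true) (D.zz i) = K at *
  generalize cr (D.C i true) (D.rho i true) = L at *
  generalize cr D.ell (D.C i true) = M at *
  generalize cr D.ell (D.rho i true) = N at *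
  obtain ⟨a0, b0, c0, ss⟩ := ss3 hx
  obtain ⟨a0', b0', c0', ss'⟩ := ss3 hx'
  have e1 := two_zero L0 (Y := L - M - N) (by linarith) (x := x 1) (y := x' 2)
    b0 c0' (by linear_combination -ER - EC)
  obtain ⟨e1, e2⟩ := e1
  rw [e2] at EC
  have e5 : x 2 = x' 1 := by
    have : (x 2 - x' 1) * L = 0 := by linarith
    linarith [alg_zero L0 this]
  refine hw_step i .a3 2 x x' hx hx' ?_ ?_ ?_
  · change x 1 = 0; linarith
  · change x' 0 = x 0; linarith
  · change x' 2 = 0; linarith

theorem pair_a3_n2 (hD : D.Pos) (i : Fin n) (x x' : Fin 3 → ℝ) (hx : x ∈ stdSimplex ℝ (Fin 3))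
    (hx' : x' ∈ stdSimplex ℝ (Fin 3))
    (h : D.ppos (hwC i .a3 x hx) = D.ppos (hwC i .n2 x' hx')) :
    Quot.mk (pat n).Glued (hwC i .a3 x hx) = Quot.mk (pat n).Glued (hwC i .n2 x' hx') := by
  have E := fun w => congrArg (cr w) h
  simp only [ppos_hw, Par.off, Par.edge, Par.A, cr_add, cr_neg, cr_sub, cr_rmul, cr_zero] at E
  have EC := E (D.C i true)
  have EZ := E (D.zz i)
  have ER := E (D.rho i true)
  have EL := E D.ell
  clear E
  have s1 := cr_swap (D.zz i) (D.C i true)
  have s2 := cr_swap (D.rho i true) (D.C i true)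
  have s3 := cr_swap (D.C i true) D.ell
  have s4 := cr_swap (D.rho i true) D.ell
  have K0 := hD.cz i true
  have L0 := hD.cρ i true
  have M0 := hD.ec i
  have N0 := hD.eρ i
  have Q0 := hD.n1 i
  rw [s1] at EZ
  rw [s2] at ER
  rw [cr_self] at EC EZ
  try rw [cr_self] at ER
  try rw [s3] at EC
  try rw [s4] at ER
  try rw [cr_self] at EL
  generalize cr (D.C i true) (D.zz i) = K at *
  generalize cr (D.C i true) (D.rho i true) = L at *
  generalize cr D.ell (D.C i true) = M at *
  generalize cr D.ell (D.rho i true) = N at *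
  obtain ⟨a0, b0, c0, ss⟩ := ss3 hx
  obtain ⟨a0', b0', c0', ss'⟩ := ss3 hx'
  have e1 := three_zero L0 L0 (Z := L - M - N) (by linarith) (x := x 1) (y := x' 1) (z := x' 2)
    b0 b0' c0' (by linear_combination -ER - EC)
  obtain ⟨e1, e2, e3⟩ := e1
  rw [e3] at EC
  have e5 : x 2 = 1 := by
    have : (x 2 - 1) * L = 0 := by linarith
    linarith [alg_zero L0 this]
  have h1 := hw_eq_V i .a3 2 x hx (by linarith)
  have h2 := hw_eq_V i .n2 0 x' hx' (by linarith)
  have h3 : hwV i .a3 2 = hwV i .n1 1 := hwV_step i .a3 2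
  have h4 : hwV i .n1 1 = hwV i .n2 0 := hwV_step i .n1 1
  rw [h1, h2, h3, h4]

theorem pair_a3_n3 (hD : D.Pos) (i : Fin n) (x x' : Fin 3 → ℝ) (hx : x ∈ stdSimplex ℝ (Fin 3))
    (hx' : x' ∈ stdSimplex ℝ (Fin 3))
    (h : D.ppos (hwC i .a3 x hx) = D.ppos (hwC i .n3 x' hx')) :
    Quot.mk (pat n).Glued (hwC i .a3 x hx) = Quot.mk (pat n).Glued (hwC i .n3 x' hx') := by
  have E := fun w => congrArg (cr w) h
  simp only [ppos_hw, Par.off, Par.edge, Par.A, cr_add, cr_neg, cr_sub, cr_rmul, cr_zero] at E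
  have EC := E (D.C i true)
  have EZ := E (D.zz i)
  have ER := E (D.rho i true)
  have EL := E D.ell
  clear E
  have s1 := cr_swap (D.zz i) (D.C i true)
  have s2 := cr_swap (D.rho i true) (D.C i true)
  have s3 := cr_swap (D.C i true) D.ell
  have s4 := cr_swap (D.rho i true) D.ell
  have K0 := hD.cz i true
  have L0 := hD.cρ i true
  have M0 := hD.ec i
  have N0 := hD.eρ i
  have Q0 := hD.n1 i
  rw [s1] at EZ
  rw [s2] at ER
  rw [cr_self] at EC EZ
  try rw [cr_self] at ER
  try rw [s3] at EC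
  try rw [s4] at ER
  try rw [cr_self] at EL
  generalize cr (D.C i true) (D.zz i) = K at *
  generalize cr (D.C i true) (D.rho i true) = L at *
  generalize cr D.ell (D.C i true) = M at *
  generalize cr D.ell (D.rho i true) = N at *
  obtain ⟨a0, b0, c0, ss⟩ := ss3 hx
  obtain ⟨a0', b0', c0', ss'⟩ := ss3 hx'
  have e1 := three_zero L0 L0 (Z := L - M - N) (by linarith) (x := x 1) (y := x' 0) (z := x' 2)
    b0 a0' c0' (by linear_combination -ER - EC + L * ss')
  obtain ⟨e1, e2, e3⟩ := e1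
  rw [e3] at ER
  have e5 : x 1 + x 2 = 0 := by
    have : (x 1 + x 2) * L = 0 := by linarith
    linarith [alg_zero L0 this]
  have h1 := hw_eq_V i .a3 0 x hx (by linarith)
  have h2 := hw_eq_V i .n3 1 x' hx' (by linarith)
  have h4 : hwV i .a3 0 = hwV i .n1 0 := hwV_step' i .a3 2
  have h5 : hwV i .n1 0 = hwV i .n3 1 := hwV_step' i .n1 2
  rw [h1, h2, h4, h5]

theorem pair_n1_n2 (hD : D.Pos) (i : Fin n) (x x' : Fin 3 → ℝ) (hx : x ∈ stdSimplex ℝ (Fin 3))
    (hx' : x' ∈ stdSimplex ℝ (Fin 3))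
    (h : D.ppos (hwC i .n1 x hx) = D.ppos (hwC i .n2 x' hx')) :
    Quot.mk (pat n).Glued (hwC i .n1 x hx) = Quot.mk (pat n).Glued (hwC i .n2 x' hx') := by
  have E := fun w => congrArg (cr w) h
  simp only [ppos_hw, Par.off, Par.edge, Par.A, cr_add, cr_neg, cr_sub, cr_rmul, cr_zero] at E
  have EC := E (D.C i true)
  have EZ := E (D.zz i)
  have ER := E (D.rho i true)
  have EL := E D.ell
  clear E
  have s1 := cr_swap (D.zz i) (D.C i true)
  have s2 := cr_swap (D.rho i true) (D.C i true)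
  have s3 := cr_swap (D.C i true) D.ell
  have s4 := cr_swap (D.rho i true) D.ell
  have K0 := hD.cz i true
  have L0 := hD.cρ i true
  have M0 := hD.ec i
  have N0 := hD.eρ i
  have Q0 := hD.n1 i
  rw [s1] at EZ
  rw [s2] at ER
  rw [cr_self] at EC EZ
  try rw [cr_self] at ER
  try rw [s3] at EC
  try rw [s4] at ER
  try rw [cr_self] at EL
  generalize cr (D.C i true) (D.zz i) = K at *
  generalize cr (D.C i true) (D.rho i true) = L at *
  generalize cr D.ell (D.C i true) = M at *
  generalize cr D.ell (D.rho i true) = N at *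
  obtain ⟨a0, b0, c0, ss⟩ := ss3 hx
  obtain ⟨a0', b0', c0', ss'⟩ := ss3 hx'
  have d1 : x 0 * L = (x' 2 - x 2) * M := by linear_combination L * ss - EC
  have d2 : x' 1 * L = -(x' 2 - x 2) * (L - M - N) := by
    linear_combination -ER + d1 - L * ss
  have e1 := two_zero (X := L * (L - M - N)) (Y := L * M) (mul_pos L0 (by linarith))
    (mul_pos L0 M0) (x := x 0) (y := x' 1)
    a0 b0' (by linear_combination (L - M - N) * d1 + M * d2)
  obtain ⟨e1, e2⟩ := e1
  have e5 : x' 2 - x 2 = 0 := by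
    have : (x' 2 - x 2) * M = 0 := by rw [← d1, e1]; ring
    linarith [alg_zero M0 this]
  refine hw_step i .n1 1 x x' hx hx' ?_ ?_ ?_
  · change x 0 = 0; linarith
  · change x' 2 = x 2; linarith
  · change x' 1 = 0; linarith

theorem pair_n1_n3 (hD : D.Pos) (i : Fin n) (x x' : Fin 3 → ℝ) (hx : x ∈ stdSimplex ℝ (Fin 3))
    (hx' : x' ∈ stdSimplex ℝ (Fin 3))
    (h : D.ppos (hwC i .n1 x hx) = D.ppos (hwC i .n3 x' hx')) :
    Quot.mk (pat n).Glued (hwC i .n1 x hx) = Quot.mk (pat n).Glued (hwC i .n3 x' hx') := by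
  have E := fun w => congrArg (cr w) h
  simp only [ppos_hw, Par.off, Par.edge, Par.A, cr_add, cr_neg, cr_sub, cr_rmul, cr_zero] at E
  have EC := E (D.C i true)
  have EZ := E (D.zz i)
  have ER := E (D.rho i true)
  have EL := E D.ell
  clear E
  have s1 := cr_swap (D.zz i) (D.C i true)
  have s2 := cr_swap (D.rho i true) (D.C i true)
  have s3 := cr_swap (D.C i true) D.ell
  have s4 := cr_swap (D.rho i true) D.ell
  have K0 := hD.cz i true
  have L0 := hD.cρ i true
  have M0 := hD.ec i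
  have N0 := hD.eρ i
  have Q0 := hD.n1 i
  rw [s1] at EZ
  rw [s2] at ER
  rw [cr_self] at EC EZ
  try rw [cr_self] at ER
  try rw [s3] at EC
  try rw [s4] at ER
  try rw [cr_self] at EL
  generalize cr (D.C i true) (D.zz i) = K at *
  generalize cr (D.C i true) (D.rho i true) = L at *
  generalize cr D.ell (D.C i true) = M at *
  generalize cr D.ell (D.rho i true) = N at *
  obtain ⟨a0, b0, c0, ss⟩ := ss3 hx
  obtain ⟨a0', b0', c0', ss'⟩ := ss3 hx'
  have d1 : x 1 * L = (x' 2 - x 2) * N := by linear_combination -ER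
  have d2 : x' 0 * L = -(x' 2 - x 2) * (L - M - N) := by
    linear_combination L * ss' - EC + d1
  have e1 := two_zero (X := L * (L - M - N)) (Y := L * N) (mul_pos L0 (by linarith))
    (mul_pos L0 N0) (x := x 1) (y := x' 0)
    b0 a0' (by linear_combination (L - M - N) * d1 + N * d2)
  obtain ⟨e1, e2⟩ := e1
  have e5 : x' 2 - x 2 = 0 := by
    have : (x' 2 - x 2) * N = 0 := by rw [← d1, e1]; ring
    linarith [alg_zero N0 this]
  refine hw_step i .n1 2 x x' hx hx' ?_ ?_ ?_
  · change x 1 = 0; linarith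
  · change x' 1 = x 0; linarith
  · change x' 0 = 0; linarith

theorem pair_n2_n3 (hD : D.Pos) (i : Fin n) (x x' : Fin 3 → ℝ) (hx : x ∈ stdSimplex ℝ (Fin 3))
    (hx' : x' ∈ stdSimplex ℝ (Fin 3))
    (h : D.ppos (hwC i .n2 x hx) = D.ppos (hwC i .n3 x' hx')) (hs : D.ppos (hwC i .n2 x hx) ∉ D.slit i true) :
    Quot.mk (pat n).Glued (hwC i .n2 x hx) = Quot.mk (pat n).Glued (hwC i .n3 x' hx') := by
  have E := fun w => congrArg (cr w) h
  simp only [ppos_hw, Par.off, Par.edge, Par.A, cr_add, cr_neg, cr_sub, cr_rmul, cr_zero] at E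
  have EC := E (D.C i true)
  have EZ := E (D.zz i)
  have ER := E (D.rho i true)
  have EL := E D.ell
  clear E
  have s1 := cr_swap (D.zz i) (D.C i true)
  have s2 := cr_swap (D.rho i true) (D.C i true)
  have s3 := cr_swap (D.C i true) D.ell
  have s4 := cr_swap (D.rho i true) D.ell
  have K0 := hD.cz i true
  have L0 := hD.cρ i true
  have M0 := hD.ec i
  have N0 := hD.eρ i
  have Q0 := hD.n1 i
  rw [s1] at EZ
  rw [s2] at ER
  rw [cr_self] at EC EZ
  try rw [cr_self] at ER
  try rw [s3] at EC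
  try rw [s4] at ER
  try rw [cr_self] at EL
  generalize cr (D.C i true) (D.zz i) = K at *
  generalize cr (D.C i true) (D.rho i true) = L at *
  generalize cr D.ell (D.C i true) = M at *
  generalize cr D.ell (D.rho i true) = N at *
  obtain ⟨a0, b0, c0, ss⟩ := ss3 hx
  obtain ⟨a0', b0', c0', ss'⟩ := ss3 hx'
  exfalso
  have d1 : x' 1 * L = (x 2 - x' 2) * M := by linear_combination EC
  have d2 : x 0 * L = -(x 2 - x' 2) * N := by linear_combination -ER + L * ss
  have e1 := two_zero (X := L * N) (Y := L * M) (mul_pos L0 N0)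
    (mul_pos L0 M0) (x := x' 1) (y := x 0)
    b0' a0 (by linear_combination N * d1 + M * d2)
  obtain ⟨e1, e2⟩ := e1
  apply hs
  refine ⟨rfl, x 2, ⟨c0, by linarith⟩, ?_⟩
  rw [ppos_hw]
  have e3 : x 1 = 1 - x 2 := by linarith
  rw [e3]
  simp only [Par.off, Par.edge]
  push_cast
  ring

theorem mk_eq_of_ppos (hD : D.Pos) {p p' : (pat n).Chart} (h1 : pc p = pc p') (h2 : lb p = lb p')
    (h3 : D.ppos p = D.ppos p') (h4 : D.ppos p ∉ D.slit (pc p) (lb p)) :
    Quot.mk (pat n).Glued p = Quot.mk (pat n).Glued p' := by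
  by_cases h0 : p.1.1 = p'.1.1
  · have hp : (pat n).pos D.edge p = (pat n).pos D.edge p' := by
      have := h3
      unfold ppos at this
      rw [h0] at this
      exact add_left_cancel this
    rw [Pattern.pos_inj (edge_valid D hD) h0 hp]
  obtain ⟨⟨⟨i, t⟩, x⟩, hx⟩ := p
  obtain ⟨⟨⟨i', t'⟩, x'⟩, hx'⟩ := p'
  have h1' : i = i' := h1
  subst h1'
  have h2' : t.lab = t'.lab := h2
  have h0' : t ≠ t' := by
    intro h; subst h; exact h0 rfl
  clear h0 h1 h2
  have h4' : D.ppos (hwC i t' x' hx') ∉ D.slit i t'.lab := by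
    have h4'' : D.ppos (hwC i t x hx) ∉ D.slit i t.lab := h4
    have h3' : D.ppos (hwC i t x hx) = D.ppos (hwC i t' x' hx') := h3
    rw [← h3', ← h2']
    exact h4''
  cases t
  case a1 =>
    cases t'
    case a1 => exact absurd rfl h0'
    case a2 => exact pair_a1_a2 hD i x x' hx hx' h3
    case a3 => exact pair_a1_a3 hD i x x' hx hx' h3
    case n1 => exact pair_a1_n1 hD i x x' hx hx' h3
    case n2 => exact pair_a1_n2 hD i x x' hx hx' h3
    case n3 => exact pair_a1_n3 hD i x x' hx hx' h3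
    case b1 => exact absurd h2' (by decide)
    case b2 => exact absurd h2' (by decide)
    case b3 => exact absurd h2' (by decide)
    case b4 => exact absurd h2' (by decide)
  case a2 =>
    cases t'
    case a1 => exact (pair_a1_a2 hD i x' x hx' hx h3.symm).symm
    case a2 => exact absurd rfl h0'
    case a3 => exact pair_a2_a3 hD i x x' hx hx' h3
    case n1 => exact pair_a2_n1 hD i x x' hx hx' h3
    case n2 => exact pair_a2_n2 hD i x x' hx hx' h3
    case n3 => exact pair_a2_n3 hD i x x' hx hx' h3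
    case b1 => exact absurd h2' (by decide)
    case b2 => exact absurd h2' (by decide)
    case b3 => exact absurd h2' (by decide)
    case b4 => exact absurd h2' (by decide)
  case a3 =>
    cases t'
    case a1 => exact (pair_a1_a3 hD i x' x hx' hx h3.symm).symm
    case a2 => exact (pair_a2_a3 hD i x' x hx' hx h3.symm).symm
    case a3 => exact absurd rfl h0'
    case n1 => exact pair_a3_n1 hD i x x' hx hx' h3
    case n2 => exact pair_a3_n2 hD i x x' hx hx' h3
    case n3 => exact pair_a3_n3 hD i x x' hx hx' h3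
    case b1 => exact absurd h2' (by decide)
    case b2 => exact absurd h2' (by decide)
    case b3 => exact absurd h2' (by decide)
    case b4 => exact absurd h2' (by decide)
  case n1 =>
    cases t'
    case a1 => exact (pair_a1_n1 hD i x' x hx' hx h3.symm).symm
    case a2 => exact (pair_a2_n1 hD i x' x hx' hx h3.symm).symm
    case a3 => exact (pair_a3_n1 hD i x' x hx' hx h3.symm).symm
    case n1 => exact absurd rfl h0'
    case n2 => exact pair_n1_n2 hD i x x' hx hx' h3
    case n3 => exact pair_n1_n3 hD i x x' hx hx' h3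
    case b1 => exact absurd h2' (by decide)
    case b2 => exact absurd h2' (by decide)
    case b3 => exact absurd h2' (by decide)
    case b4 => exact absurd h2' (by decide)
  case n2 =>
    cases t'
    case a1 => exact (pair_a1_n2 hD i x' x hx' hx h3.symm).symm
    case a2 => exact (pair_a2_n2 hD i x' x hx' hx h3.symm).symm
    case a3 => exact (pair_a3_n2 hD i x' x hx' hx h3.symm).symm
    case n1 => exact (pair_n1_n2 hD i x' x hx' hx h3.symm).symm
    case n2 => exact absurd rfl h0'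
    case n3 => exact pair_n2_n3 hD i x x' hx hx' h3 h4
    case b1 => exact absurd h2' (by decide)
    case b2 => exact absurd h2' (by decide)
    case b3 => exact absurd h2' (by decide)
    case b4 => exact absurd h2' (by decide)
  case n3 =>
    cases t'
    case a1 => exact (pair_a1_n3 hD i x' x hx' hx h3.symm).symm
    case a2 => exact (pair_a2_n3 hD i x' x hx' hx h3.symm).symm
    case a3 => exact (pair_a3_n3 hD i x' x hx' hx h3.symm).symm
    case n1 => exact (pair_n1_n3 hD i x' x hx' hx h3.symm).symm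
    case n2 => exact (pair_n2_n3 hD i x' x hx' hx h3.symm h4').symm
    case n3 => exact absurd rfl h0'
    case b1 => exact absurd h2' (by decide)
    case b2 => exact absurd h2' (by decide)
    case b3 => exact absurd h2' (by decide)
    case b4 => exact absurd h2' (by decide)
  case b1 =>
    cases t'
    case a1 => exact absurd h2' (by decide)
    case a2 => exact absurd h2' (by decide)
    case a3 => exact absurd h2' (by decide)
    case n1 => exact absurd h2' (by decide)
    case n2 => exact absurd h2' (by decide)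
    case n3 => exact absurd h2' (by decide)
    case b1 => exact absurd rfl h0'
    case b2 => exact pair_b1_b2 hD i x x' hx hx' h3
    case b3 => exact pair_b1_b3 hD i x x' hx hx' h3
    case b4 => exact pair_b1_b4 hD i x x' hx hx' h3
  case b2 =>
    cases t'
    case a1 => exact absurd h2' (by decide)
    case a2 => exact absurd h2' (by decide)
    case a3 => exact absurd h2' (by decide)
    case n1 => exact absurd h2' (by decide)
    case n2 => exact absurd h2' (by decide)
    case n3 => exact absurd h2' (by decide)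
    case b1 => exact (pair_b1_b2 hD i x' x hx' hx h3.symm).symm
    case b2 => exact absurd rfl h0'
    case b3 => exact pair_b2_b3 hD i x x' hx hx' h3
    case b4 => exact pair_b2_b4 hD i x x' hx hx' h3
  case b3 =>
    cases t'
    case a1 => exact absurd h2' (by decide)
    case a2 => exact absurd h2' (by decide)
    case a3 => exact absurd h2' (by decide)
    case n1 => exact absurd h2' (by decide)
    case n2 => exact absurd h2' (by decide)
    case n3 => exact absurd h2' (by decide)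
    case b1 => exact (pair_b1_b3 hD i x' x hx' hx h3.symm).symm
    case b2 => exact (pair_b2_b3 hD i x' x hx' hx h3.symm).symm
    case b3 => exact absurd rfl h0'
    case b4 => exact pair_b3_b4 hD i x x' hx hx' h3
  case b4 =>
    cases t'
    case a1 => exact absurd h2' (by decide)
    case a2 => exact absurd h2' (by decide)
    case a3 => exact absurd h2' (by decide)
    case n1 => exact absurd h2' (by decide)
    case n2 => exact absurd h2' (by decide)
    case n3 => exact absurd h2' (by decide)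
    case b1 => exact (pair_b1_b4 hD i x' x hx' hx h3.symm).symm
    case b2 => exact (pair_b2_b4 hD i x' x hx' hx h3.symm).symm
    case b3 => exact (pair_b3_b4 hD i x' x hx' hx h3.symm).symm
    case b4 => exact absurd rfl h0'

theorem mk_eq_pt (hD : D.Pos) {p : (pat n).Chart} (h : D.ppos p ∉ D.slit (pc p) (lb p)) :
    Quot.mk (pat n).Glued p = D.pt (pc p) (lb p) (D.ppos p) := by
  have hmem : D.ppos p ∈ D.hex (pc p) (lb p) := ⟨p, rfl, rfl, rfl⟩
  unfold pt
  rw [dif_pos hmem]
  obtain ⟨h1, h2, h3⟩ := hmem.choose_spec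
  exact mk_eq_of_ppos hD h1.symm h2.symm h3.symm h

end Par

end Pool.Agent.H1.Horo
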