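import Pool.Agent.H1.Horo.Chart

/-!
# The trace of a straight path in the triangles

PROOF.  Let `τ` be the subdivision of the straight path, `f_k`, `a_k` the triangle and the
starting position of the `k`-th visit.  Take a chart point `p` and `t ∈ [τ k, τ (k+1)]` with
`mk p = γ t`; let `p'` be the chart point of the visit, in `f_k`, at `a_k + t w`.  By `mk_cases`:
* `p = p'`: the position of `p` is in the segment `{a_k + t w : t ∈ [τ k, τ (k+1)]}`.
* `Glued p' p`: `p'` is on a side `h` of `f_k` (3 possibilities), and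
  `pos p = pos p' + const h` (`pos_glued`), so it is in a translate of this segment, of the same
  length `(τ (k+1) - τ k) |w|`.
* both are vertices: the vertices of all triangles are finitely many positions (segments with `r = 0`).
So one takes, for every `k`, four segments with `r = τ (k+1) - τ k`, and for every side a degenerate
segment; the sum of the `r` is `4 * (τ m - τ 0) = 4`.
-/

namespace Pool.Agent.H1.Horo

open Set

namespace Pattern
variable {P : Pattern} {z : P.Tri × Fin 3 → ℂ}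

/-- in a subdivision of `[0,1]` every time is in one of the intervals -/
theorem exists_visit {m : ℕ} {τ : ℕ → ℝ} (h0 : τ 0 = 0) (hm : τ m = 1) {t : ℝ}
    (ht : t ∈ Icc (0 : ℝ) 1) : ∃ k < m, t ∈ Icc (τ k) (τ (k + 1)) := by
  classical
  have hex : ∃ n, t ≤ τ n := ⟨m, hm ▸ ht.2⟩
  rcases Nat.eq_zero_or_pos (Nat.find hex) with hn | hn
  · have ht0 : t ≤ 0 := by
      have := Nat.find_spec hex
      rwa [hn, h0] at this
    have ht' : t = 0 := le_antisymm ht0 ht.1
    have hm0 : m ≠ 0 := by
      rintro rfl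
      rw [h0] at hm
      exact zero_ne_one hm
    have hτ1 : ∃ k < m, τ k ≤ 0 ∧ 0 ≤ τ (k + 1) := by
      by_contra hcon
      push Not at hcon
      have hall : ∀ k ≤ m, τ k ≤ 0 := by
        intro k
        induction k with
        | zero => intro _; exact h0.le
        | succ k ih =>
          intro hk
          exact (hcon k (by omega) (ih (by omega))).le
      have := hall m le_rfl
      rw [hm] at this
      linarith
    obtain ⟨k, hk, h1, h2⟩ := hτ1
    exact ⟨k, hk, by rw [ht']; exact ⟨h1, h2⟩⟩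
  · obtain ⟨k, hk⟩ : ∃ k, Nat.find hex = k + 1 := ⟨Nat.find hex - 1, by omega⟩
    have h1 : t ≤ τ (k + 1) := hk ▸ Nat.find_spec hex
    have h2 : ¬ t ≤ τ k := Nat.find_min hex (by omega)
    have h3 : Nat.find hex ≤ m := Nat.find_min' hex (hm ▸ ht.2)
    exact ⟨k, by omega, (not_le.mp h2).le, h1⟩

theorem straight_trace (hz : P.Valid z) {γ : ℝ → P.Pt} {w : ℂ} (hγ : P.IsStraight z γ w) :
    ∃ (M : ℕ) (f : Fin M → P.Tri) (a : Fin M → ℂ) (r : Fin M → ℝ), (∀ k, 0 ≤ r k) ∧
      ∑ k, r k ≤ 4 ∧ ∀ (p : P.Chart) (t : ℝ), t ∈ Icc (0 : ℝ) 1 → Quot.mk P.Glued p = γ t →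
        ∃ k, p.1.1 = f k ∧ ∃ x ∈ Icc 0 (r k), P.pos z p = a k + x * w := by
  classical
  obtain ⟨m, τ, hmono, hτ0, hτm, hvis⟩ := hγ
  have := P.finite
  have := Fintype.ofFinite P.Tri
  choose ff aa hfa using fun k : Fin m => hvis k k.2
  -- the index type
  let ι := (Fin m × Option (Fin 3)) ⊕ (P.Tri × Fin 3)
  let f : ι → P.Tri := fun i => match i with
    | Sum.inl (k, none) => ff k
    | Sum.inl (k, some j) => (P.glue (ff k, j)).1
    | Sum.inr h => h.1
  let a : ι → ℂ := fun i => match i with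
    | Sum.inl (k, none) => aa k + τ k * w
    | Sum.inl (k, some j) => aa k + τ k * w +
        (P.base z (P.glue (ff k, j)) - z (ff k, j) - P.base z (ff k, j))
    | Sum.inr h => P.base z h
  let r : ι → ℝ := fun i => match i with
    | Sum.inl (k, _) => τ (k + 1) - τ k
    | Sum.inr _ => 0
  let e := Fintype.equivFin ι
  refine ⟨Fintype.card ι, f ∘ e.symm, a ∘ e.symm, r ∘ e.symm, ?_, ?_, ?_⟩
  · intro k
    have : ∀ i : ι, 0 ≤ r i := by
      rintro (⟨k, o⟩ | h)
      · exact sub_nonneg.mpr (hmono (Nat.le_succ _))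
      · exact le_rfl
    exact this _
  · have h1 : ∑ k, (r ∘ e.symm) k = ∑ i, r i := Equiv.sum_comp e.symm r
    rw [h1, Fintype.sum_sum_type, Fintype.sum_prod_type]
    have h2 : ∀ k : Fin m, ∑ o : Option (Fin 3), r (Sum.inl (k, o)) = 4 * (τ (k + 1) - τ k) := by
      intro k
      simp [r]
      try ring
    have h3 : ∑ h : P.Tri × Fin 3, r (Sum.inr h) = 0 := by simp [r]
    rw [h3, add_zero, Finset.sum_congr rfl fun k _ => h2 k, ← Finset.mul_sum]
    have h4 : ∑ k : Fin m, (τ ((k : ℕ) + 1) - τ (k : ℕ)) = τ m - τ 0 := by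
      rw [Fin.sum_univ_eq_sum_range (fun k => τ (k + 1) - τ k) m, Finset.sum_range_sub]
    rw [h4, hτm, hτ0]
    norm_num
  · intro p t ht hp
    have key : ∃ i : ι, p.1.1 = f i ∧ ∃ x ∈ Icc 0 (r i), P.pos z p = a i + x * w := by
      obtain ⟨k, hk, htk⟩ := exists_visit hτ0 hτm ht
      obtain ⟨p', hp'1, hp'2, hp'3⟩ := hfa ⟨k, hk⟩ t htk
      have hmk : Quot.mk P.Glued p' = Quot.mk P.Glued p := hp'2.trans hp.symm
      have hx : t - τ k ∈ Icc (0 : ℝ) (τ (k + 1) - τ k) :=
        ⟨sub_nonneg.mpr htk.1, sub_le_sub_right htk.2 _⟩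
      rcases mk_cases hmk with h | h | h
      · refine ⟨Sum.inl (⟨k, hk⟩, none), ?_, t - τ k, hx, ?_⟩
        · rw [← h, hp'1]
        · rw [← h, hp'3]
          simp only [a]
          push_cast
          ring
      · obtain ⟨⟨g, j⟩, s, hs, hs1, hs2⟩ := h
        have hg : g = ff ⟨k, hk⟩ := by
          rw [← hp'1, hs1]
          rfl
        subst hg
        refine ⟨Sum.inl (⟨k, hk⟩, some j), ?_, t - τ k, hx, ?_⟩
        · rw [hs2]
          rfl
        · rw [pos_glued hz _ hs1 hs2, hp'3]
          simp only [a]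
          push_cast
          ring
      · obtain ⟨_, h, hh⟩ := h
        refine ⟨Sum.inr h, ?_, 0, ⟨le_rfl, le_rfl⟩, ?_⟩
        · rw [hh]
          rfl
        · have hpe : p = P.sideC h 0 ⟨le_rfl, zero_le_one⟩ := Subtype.ext hh
          rw [hpe, pos_sidePt hz]
          simp [a]
    obtain ⟨i, h1, x, hx, h2⟩ := key
    exact ⟨e i, by simpa using h1, x, by simpa using hx, by simpa using h2⟩

end Pattern

end Pool.Agent.H1.Horo
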