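import Pool.Agent.H1.Horo.Hs

/-!
# Isomorphisms are local translations

PROOFS.
* `straight_unique`: let `γ` be a straight path of `(Q, y)` with holonomy `w` such that `γ 0 = mk q0` with
  `q0` inner in the triangle `g`, and suppose that the segment `pos q0 + [0,1] w` is in the interior
  of the triangle `g` (all its points are positions of inner chart points).  Then
  `γ t = mk q` with `q` in `g`, `pos q = pos q0 + t w`, for all `t ∈ [0,1]`.  [Let `T` be the
  set of `t ∈ [0,1]` such that this holds on `[0, t]`.  By induction on the visits `k`: at `τ k` the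
  chart point of the visit `k` represents the inner point `q`, so by `mk_inner` it is `q`, the
  visit `k` is in the triangle `g` and `a_k + τ_k w = pos q0 + τ_k w`; so `a_k = pos q0`, and in the whole
  visit the chart point is in `g` at `pos q0 + t w`.]
* `iso_local`: let `p0` be inner in `f` and `Θ (mk p0) = mk q0`, `q0` inner in `g`.  Take `r > 0` such that
  the ball of radius `r` around `pos p0` is in the interior of the triangle `f` and the ball of radius
  `r` around `pos q0` in that of `g`.  For `p` in `f` with `|pos p - pos p0| < r` the segment from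
  `p0` to `p` is a straight path (`straight_of_tri`) with holonomy `w = pos p - pos p0`, so its image
  is straight, starts at `mk q0`; `straight_unique` gives `Θ (mk p) = mk q`,
  `pos q = pos q0 + w`.
* `iso_null`: the set of positions `x` of chart points `p` of `f` such that `Θ (mk p)` is not the class of
  an inner chart point is Lebesgue null: `Θ (mk p)` is on one of the finitely many sides of `Q` (every
  non-inner point is on a side), a side is a straight path (`straight_side`), so its preimage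
  under `Θ` is a straight path of `(P, z)` (apply the hypothesis to `γ = Θ.symm ∘ side`), whose trace in
  `f` is contained in finitely many segments (`straight_trace`).
-/

namespace Pool.Agent.H1.Horo

open Set MeasureTheory

/-- the condition on the bijection in the definition of isomorphic surfaces -/
def IsIso {P Q : Pattern} (z : P.Tri × Fin 3 → ℂ) (y : Q.Tri × Fin 3 → ℂ) (Θ : P.Pt ≃ Q.Pt) :
    Prop :=
  ∀ (γ : ℝ → P.Pt) (w : ℂ), P.IsStraight z γ w ↔ Q.IsStraight y (Θ ∘ γ) w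

theorem IsIso.symm {P Q : Pattern} {z : P.Tri × Fin 3 → ℂ} {y : Q.Tri × Fin 3 → ℂ}
    {Θ : P.Pt ≃ Q.Pt} (h : IsIso z y Θ) : IsIso y z Θ.symm := by
  intro γ w
  have := h (Θ.symm ∘ γ) w
  rw [this]
  have h2 : (Θ ∘ (Θ.symm ∘ γ)) = γ := by
    funext t; simp
  rw [h2]

variable {P Q : Pattern} {z : P.Tri × Fin 3 → ℂ} {y : Q.Tri × Fin 3 → ℂ} {Θ : P.Pt ≃ Q.Pt}

theorem straight_unique (hy : Q.Valid y) {γ : ℝ → Q.Pt} {w : ℂ} (hγ : Q.IsStraight y γ w)
    {q0 : Q.Chart} (h0 : Quot.mk Q.Glued q0 = γ 0)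
    (hin : ∀ t ∈ Icc (0 : ℝ) 1, ∃ q : Q.Chart, q.1.1 = q0.1.1 ∧ Q.Inner q ∧
      Q.pos y q = Q.pos y q0 + t * w) :
    ∀ t ∈ Icc (0 : ℝ) 1, ∃ q : Q.Chart, q.1.1 = q0.1.1 ∧ Q.pos y q = Q.pos y q0 + t * w ∧
      Quot.mk Q.Glued q = γ t := by
  obtain ⟨m, τ, hmono, hτ0, hτm, hvis⟩ := hγ
  have key : ∀ k ≤ m, ∀ t ∈ Icc (0 : ℝ) (τ k), ∃ q : Q.Chart, q.1.1 = q0.1.1 ∧
      Q.pos y q = Q.pos y q0 + t * w ∧ Quot.mk Q.Glued q = γ t := by
    intro k
    induction k with
    | zero =>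
      intro _ t ht
      rw [hτ0] at ht
      have ht0 : t = 0 := le_antisymm ht.2 ht.1
      subst ht0
      exact ⟨q0, rfl, by simp, h0⟩
    | succ k ih =>
      intro hk t ht
      have hk' : k < m := by omega
      have hτk0 : 0 ≤ τ k := hτ0 ▸ hmono (Nat.zero_le k)
      have hτk1 : τ k ≤ 1 := hτm ▸ hmono hk'.le
      rcases le_total t (τ k) with htk | htk
      · exact ih hk'.le t ⟨ht.1, htk⟩
      · obtain ⟨f, a, hfa⟩ := hvis k hk'
        obtain ⟨q, hq1, hq2, hq3⟩ := ih hk'.le (τ k) ⟨hτk0, le_refl _⟩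
        obtain ⟨p, hp1, hp2, hp3⟩ := hfa (τ k) ⟨le_refl _, hmono (Nat.le_succ k)⟩
        obtain ⟨q', hq'1, hq'2, hq'3⟩ := hin (τ k) ⟨hτk0, hτk1⟩
        have hqq' : q' = q := Pattern.pos_inj hy (hq'1.trans hq1.symm) (hq'3.trans hq2.symm)
        have hqi : Q.Inner q := hqq' ▸ hq'2
        have hqp : q = p := Pattern.mk_inner hqi (hq3.trans hp2.symm)
        have hf : f = q0.1.1 := by rw [← hp1, ← hqp, hq1]
        have ha : a = Q.pos y q0 := by
          have := hq2
          rw [hqp, hp3] at this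
          exact add_right_cancel this
        obtain ⟨p', hp'1, hp'2, hp'3⟩ := hfa t ⟨htk, ht.2⟩
        exact ⟨p', hp'1.trans hf, by rw [hp'3, ha], hp'2⟩
  intro t ht
  exact key m le_rfl t (by rwa [hτm])

/-- a ball around the position of an inner point consists of positions of inner points -/
theorem inner_ball (hz : P.Valid z) {p0 : P.Chart} (hp0 : P.Inner p0) :
    ∃ r > 0, ∀ x : ℂ, ‖x‖ < r → ∃ p : P.Chart, p.1.1 = p0.1.1 ∧ P.Inner p ∧
      P.pos z p = P.pos z p0 + x := by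
  have hD := hz.oriented p0.1.1
  set u : ℂ := z (p0.1.1, 0) with hu
  set v : ℂ := z (p0.1.1, 1) with hv
  set D : ℝ := u.re * v.im - u.im * v.re with hDdef
  let c : ℂ → ℝ := fun x => (u.re * x.im - u.im * x.re) / D
  let e : ℂ → ℝ := fun x => (x.re * v.im - x.im * v.re) / D
  have hcc : Continuous c := by
    refine Continuous.div_const ?_ _
    exact (continuous_const.mul Complex.continuous_im).sub
      (continuous_const.mul Complex.continuous_re)
  have hce : Continuous e := by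
    refine Continuous.div_const ?_ _
    exact (Complex.continuous_re.mul continuous_const).sub
      (Complex.continuous_im.mul continuous_const)
  have hrep : ∀ x : ℂ, x = ((e x - c x : ℝ) : ℂ) * u + ((c x : ℝ) : ℂ) * (u + v) := by
    intro x
    have hD' : D ≠ 0 := hD.ne'
    apply Complex.ext
    · simp only [Complex.add_re, Complex.mul_re, Complex.ofReal_re, Complex.ofReal_im, zero_mul,
        sub_zero, c, e]
      field_simp
      rw [hDdef]
      ring
    · simp only [Complex.add_im, Complex.mul_im, Complex.ofReal_re, Complex.ofReal_im, zero_mul,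
        add_zero, c, e]
      field_simp
      rw [hDdef]
      ring
  have h1 : ∀ᶠ x in nhds (0 : ℂ), -(p0.1.2 1) < e x - c x := by
    have hcont : Continuous fun x => e x - c x := hce.sub hcc
    have : -(p0.1.2 1) < (fun x => e x - c x) 0 := by
      simp only [c, e]
      simpa using hp0 1
    exact hcont.continuousAt.eventually (lt_mem_nhds this)
  have h2 : ∀ᶠ x in nhds (0 : ℂ), -(p0.1.2 2) < c x := by
    have : -(p0.1.2 2) < c 0 := by
      simp only [c]
      simpa using hp0 2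
    exact hcc.continuousAt.eventually (lt_mem_nhds this)
  have h3 : ∀ᶠ x in nhds (0 : ℂ), e x < p0.1.2 0 := by
    have : e 0 < p0.1.2 0 := by
      simp only [e]
      simpa using hp0 0
    exact hce.continuousAt.eventually (gt_mem_nhds this)
  obtain ⟨r, hr, hball⟩ := Metric.eventually_nhds_iff.mp ((h1.and h2).and h3)
  refine ⟨r, hr, fun x hx => ?_⟩
  obtain ⟨⟨hx1, hx2⟩, hx3⟩ := hball (by simpa using hx : dist x 0 < r)
  have hsum : p0.1.2 0 + p0.1.2 1 + p0.1.2 2 = 1 := by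
    have := p0.2.2
    rwa [Fin.sum_univ_three] at this
  obtain ⟨p, hp1, hp2, hp3, hp4, hp5⟩ := Pattern.exists_chart (P := P) (z := z) p0.1.1
    (x := P.pos z p0 + x)
    (b := p0.1.2 1 + (e x - c x)) (c := p0.1.2 2 + c x) (by linarith) (by linarith)
    (by linarith) (by
      have := hrep x
      conv_lhs => rw [this]
      simp only [Pattern.pos]
      push_cast
      ring)
  refine ⟨p, hp1, ?_, hp2⟩
  intro k
  fin_cases k
  · show 0 < p.1.2 0
    rw [hp3]; linarith
  · show 0 < p.1.2 1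
    rw [hp4]; linarith
  · show 0 < p.1.2 2
    rw [hp5]; linarith

theorem iso_local (hz : P.Valid z) (hy : Q.Valid y) (hΘ : IsIso z y Θ) {p0 : P.Chart}
    (hp0 : P.Inner p0) {q0 : Q.Chart} (hq0 : Q.Inner q0)
    (h0 : Θ (Quot.mk P.Glued p0) = Quot.mk Q.Glued q0) :
    ∃ r > 0, ∀ x : ℂ, ‖x‖ < r → ∃ p : P.Chart, ∃ q : Q.Chart, p.1.1 = p0.1.1 ∧ P.Inner p ∧
      P.pos z p = P.pos z p0 + x ∧ q.1.1 = q0.1.1 ∧ Q.Inner q ∧ Q.pos y q = Q.pos y q0 + x ∧
      Θ (Quot.mk P.Glued p) = Quot.mk Q.Glued q := by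
  obtain ⟨r1, hr1, hb1⟩ := inner_ball hz hp0
  obtain ⟨r2, hr2, hb2⟩ := inner_ball hy hq0
  have : Nonempty P.Chart := ⟨p0⟩
  choose! c hc using hb1
  refine ⟨min r1 r2, lt_min hr1 hr2, fun x hx => ?_⟩
  have hx1 : ‖x‖ < r1 := lt_of_lt_of_le hx (min_le_left _ _)
  have hx2 : ‖x‖ < r2 := lt_of_lt_of_le hx (min_le_right _ _)
  have hnorm : ∀ t ∈ Icc (0 : ℝ) 1, ‖((t : ℝ) : ℂ) * x‖ ≤ ‖x‖ := by
    intro t ht
    rw [norm_mul, Complex.norm_real, Real.norm_eq_abs, abs_of_nonneg ht.1]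
    exact mul_le_of_le_one_left (norm_nonneg _) ht.2
  have hst : P.IsStraight z (fun t => Quot.mk P.Glued (c ((t : ℂ) * x))) x := by
    refine Pattern.straight_of_tri (f := p0.1.1) (a := P.pos z p0) fun t ht => ?_
    obtain ⟨g1, _, g3⟩ := hc ((t : ℂ) * x) (lt_of_le_of_lt (hnorm t ht) hx1)
    exact ⟨_, g1, rfl, g3⟩
  have hst' := (hΘ _ _).mp hst
  have hc0 : c 0 = p0 := by
    obtain ⟨g1, _, g3⟩ := hc 0 (by simpa using hr1)
    exact Pattern.pos_inj hz g1 (by simpa using g3)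
  obtain ⟨q, hq1, hq2, hq3⟩ := straight_unique hy hst' (q0 := q0) (by simp [hc0, h0])
    (fun t ht => hb2 ((t : ℂ) * x) (lt_of_le_of_lt (hnorm t ht) hx2)) 1 ⟨zero_le_one, le_rfl⟩
  obtain ⟨q', hq'1, hq'2, hq'3⟩ := hb2 x hx2
  have hqq' : q' = q := Pattern.pos_inj hy (hq'1.trans hq1.symm) (by
    rw [hq'3, hq2]; simp)
  obtain ⟨g1, g2, g3⟩ := hc x hx1
  refine ⟨c x, q, g1, g2, g3, hq1, hqq' ▸ hq'2, by rw [hq2]; simp, ?_⟩
  rw [hq3]
  simp

/-- a line in the plane is a null set -/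
theorem line_null (a w : ℂ) : volume {x : ℂ | ∃ t : ℝ, x = a + t * w} = 0 := by
  have hne : (AffineSubspace.mk' a (Submodule.span ℝ {w}) : AffineSubspace ℝ ℂ) ≠ ⊤ := by
    intro h
    have h1 : (AffineSubspace.mk' a (Submodule.span ℝ {w}) : AffineSubspace ℝ ℂ).direction
        = (⊤ : AffineSubspace ℝ ℂ).direction := by rw [h]
    rw [AffineSubspace.direction_mk', AffineSubspace.direction_top] at h1
    have h2 : Module.finrank ℝ (Submodule.span ℝ {w} : Submodule ℝ ℂ) ≤ 1 :=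
      (finrank_span_le_card ({w} : Set ℂ)).trans (by simp)
    rw [h1, finrank_top, Complex.finrank_real_complex] at h2
    omega
  have h := Measure.addHaar_affineSubspace (volume : Measure ℂ) _ hne
  refine measure_mono_null ?_ h
  rintro x ⟨t, rfl⟩
  rw [SetLike.mem_coe, AffineSubspace.mem_mk']
  refine Submodule.mem_span_singleton.mpr ⟨t, ?_⟩
  simp

theorem iso_null (hz : P.Valid z) (hy : Q.Valid y) (hΘ : IsIso z y Θ) (f : P.Tri) :
    volume {x : ℂ | ∃ p : P.Chart, p.1.1 = f ∧ P.pos z p = x ∧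
      ¬ ∃ q : Q.Chart, Q.Inner q ∧ Θ (Quot.mk P.Glued p) = Quot.mk Q.Glued q} = 0 := by
  classical
  have := Q.finite
  let δ : Q.Tri × Fin 3 → ℝ → Q.Pt := fun h t =>
    if ht : t ∈ Icc (0 : ℝ) 1 then Quot.mk Q.Glued (Q.sideC h t ht)
    else Quot.mk Q.Glued (Q.sideC h 0 ⟨le_rfl, zero_le_one⟩)
  have hδ : ∀ (h : Q.Tri × Fin 3) (t : ℝ) (ht : t ∈ Icc (0 : ℝ) 1),
      δ h t = Quot.mk Q.Glued (Q.sideC h t ht) := fun h t ht => by simp only [δ, dif_pos ht]
  have hst : ∀ h, P.IsStraight z (Θ.symm ∘ δ h) (y h) := fun h =>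
    (hΘ.symm _ _).mp (Pattern.straight_side hy h (hδ h))
  choose M ff a r hr hsum htr using fun h => Pattern.straight_trace hz (hst h)
  have hsub : {x : ℂ | ∃ p : P.Chart, p.1.1 = f ∧ P.pos z p = x ∧
      ¬ ∃ q : Q.Chart, Q.Inner q ∧ Θ (Quot.mk P.Glued p) = Quot.mk Q.Glued q} ⊆
      ⋃ (h : Q.Tri × Fin 3), ⋃ (k : Fin (M h)), {x : ℂ | ∃ t : ℝ, x = a h k + t * y h} := by
    rintro x ⟨p, _, hpx, hno⟩
    obtain ⟨q, hq⟩ := Quot.exists_rep (Θ (Quot.mk P.Glued p))
    have hqs : ∃ (h : Q.Tri × Fin 3) (t : ℝ) (ht : t ∈ Icc (0 : ℝ) 1), q = Q.sideC h t ht := by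
      rcases Pattern.cases_chart q with h1 | h1 | h1
      · exact absurd ⟨q, h1, hq.symm⟩ hno
      · obtain ⟨h, hh⟩ := h1
        exact ⟨h, 0, ⟨le_rfl, zero_le_one⟩, Subtype.ext hh⟩
      · obtain ⟨h, t, ht, _, _, hh⟩ := h1
        exact ⟨h, t, ht, hh⟩
    obtain ⟨h, t, ht, hqh⟩ := hqs
    have hγ : Quot.mk P.Glued p = (Θ.symm ∘ δ h) t := by
      rw [Function.comp_apply, hδ h t ht, ← hqh, hq, Equiv.symm_apply_apply]
    obtain ⟨k, _, s, _, hs⟩ := htr h p t ht hγ
    refine mem_iUnion.mpr ⟨h, mem_iUnion.mpr ⟨k, s, ?_⟩⟩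
    rw [← hpx, hs]
  refine measure_mono_null hsub ?_
  refine measure_iUnion_null fun h => measure_iUnion_null fun k => line_null _ _

/-- the boundary of a triangle is a null set -/
theorem not_inner_null (hz : P.Valid z) (f : P.Tri) :
    volume {x : ℂ | ∃ p : P.Chart, p.1.1 = f ∧ P.pos z p = x ∧ ¬ P.Inner p} = 0 := by
  have hsub : {x : ℂ | ∃ p : P.Chart, p.1.1 = f ∧ P.pos z p = x ∧ ¬ P.Inner p} ⊆
      {x : ℂ | ∃ t : ℝ, x = (z (f, 0) + z (f, 1)) + t * (- z (f, 1))} ∪
      ({x : ℂ | ∃ t : ℝ, x = 0 + t * (z (f, 0) + z (f, 1))} ∪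
      {x : ℂ | ∃ t : ℝ, x = 0 + t * z (f, 0)}) := by
    rintro x ⟨p, hpf, hpx, hni⟩
    have hsum : p.1.2 0 + p.1.2 1 + p.1.2 2 = 1 := by
      have := p.2.2
      rwa [Fin.sum_univ_three] at this
    have hnn := p.2.1
    simp only [Pattern.Inner, not_forall, not_lt] at hni
    obtain ⟨k, hk⟩ := hni
    have hk0 : p.1.2 k = 0 := le_antisymm hk (hnn k)
    have hx : x = (p.1.2 1 : ℂ) * z (f, 0) + (p.1.2 2 : ℂ) * (z (f, 0) + z (f, 1)) := by
      rw [← hpx, Pattern.pos, hpf]
    fin_cases k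
    · left
      have h0 : p.1.2 0 = 0 := hk0
      refine ⟨p.1.2 1, ?_⟩
      have h2 : p.1.2 2 = 1 - p.1.2 1 := by linarith
      rw [hx, h2]
      push_cast
      ring
    · right; left
      have h1 : p.1.2 1 = 0 := hk0
      refine ⟨p.1.2 2, ?_⟩
      rw [hx, h1]
      push_cast
      ring
    · right; right
      have h2 : p.1.2 2 = 0 := hk0
      refine ⟨p.1.2 1, ?_⟩
      rw [hx, h2]
      push_cast
      ring
  refine measure_mono_null hsub ?_
  exact measure_union_null (line_null _ _) (measure_union_null (line_null _ _) (line_null _ _))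

end Pool.Agent.H1.Horo
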