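import Pool.Agent.H1.Horo.Lens

/-!
# The junction lemma: the structure coordinates are compatible with the gluings

PROOF of `lft_glued`.  `Glued p p'`: `p = sidePt h t`, `p' = sidePt (glue h) (1 - t)`, `t ∈ [0,1]`.  As the
class is not a vertex, `0 < t < 1`; as it is not on a slit, `h` is not `((i, n2), 1)` nor
`((i, n3), 2)`.  Let `λ = lam j`, `e = sg (lb p)`, `(m, k)` the integers of the lift of `p`.
* Internal sides `(a1,2) (a2,0)`, `(a2,1) (a3,0)`, `(a3,2) (n1,0)`, `(n1,1) (n2,2)`, `(n1,2) (n3,1)`,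
  `(b1,2) (b2,0)`, `(b2,1) (b3,0)`, `(b3,2) (b4,0)`: same piece and label, `ppos p = ppos p'`, nothing changes.
* Bottom and top, `(a1,0) (n2,0)` and `(b1,0) (b4,1)`: same label; the bottom point is `q = t C`, the top
  point is `q + A`; `yh' = yh + 1`, and by `G_add_one` `xh' = xh` (`Re A = cc e γ/λ`).  So `k' = k - 1`, `m' = m`.
* Sides `ρ`: `(a3,1) (n3,0)`, `(b3,1) (b4,2)`: same label; the left point `q = z + v ρ` and the right point
  `q + C`.  For the left point `yh = y1 + v (1 - y1) ∈ (y1, 1)`.  `yh' = yh + α` and by `G_add_alpha`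
  `G (yh + α) = G yh + γ'`, so `xh' = xh + 1`.  If `p` is the left point and `p'` the right one, `m' = m - 1`
  and `k' = k`: `σ' = e kk (m - 1) Y = e kk m Y * kap (Y - m α)` (`kk_pred`), and `Y - m α = yh + k`,
  `kap (yh) = 1` as `y1 ≤ yh < 1`.
* Sides `z`: right side of `T_(j,+)` with the left side of `T_(j,-)`: `(a1,1) (b2,2)`; left side of `T_(j,+)`
  with the right side of `T_(j,-)`: `(a2,2) (b1,1)`.  The left point is `q = v z` in the torus of label `e`,
  `yh = v y1 ∈ (0, y1)`; the right point is `q' = q + C_(-e)` in the torus of label `-e`.  `yh' = yh + α`,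
  `Re q' = Re q + λ - cc e γ'/λ` and by `G_add_alpha'` `G (yh + α) = γ' - G yh`, so
  `λ xh' = Re q' + cc e G (yh + α)/λ = Re q + λ - cc e G (yh)/λ = λ xh + λ`: `xh' = xh + 1`.  For the sheet:
  `σ' = - e kk (m - 1) Y = - e kk m Y * kap (Y - m α)`, `kap (yh) = -1` as `0 < yh < y1`.
The converse directions (from the right point to the left point) follow from the same computation
(`kap ^ 2 = 1`), or by proving for the unordered pair that the two lifts are equivalent.
* `lft_mk`: by `mk_cases` (a non-vertex).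
* `f_eq`: `S.f (mk p) = S.fv (Quot.out (mk p))`, `Quot.out (mk p)` is a chart point of the same class,
  so it has a lift with the same `(X, Y, σ)`; `fv p = sg (lb p) φ (yh p) = sg (lb p) φ (Y - m α)
  = sg (lb p) kk m Y φ (Y) = σ φ (Y)` by `phi_add_int`, `phi_sub`.
-/

namespace Pool.Agent.H1.Horo

open Set MeasureTheory

namespace Cfg
variable {n : ℕ} {κ : ℝ} [NeZero n] (S : Cfg n κ)

theorem sidePt_one (P : Pattern) (h : P.Tri × Fin 3) :
    P.sidePt h 1 = P.sidePt (h.1, h.2 + 1) 0 := by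
  obtain ⟨f, k⟩ := h
  unfold Pattern.sidePt
  ext1
  · rfl
  · funext i
    fin_cases k <;> fin_cases i <;> simp

theorem ppos_side {p : (pat n).Chart} {h : (pat n).Tri × Fin 3} {t : ℝ} (ht : t ∈ Icc (0 : ℝ) 1)
    (hp : p.1 = (pat n).sidePt h t) :
    S.D.ppos p = S.D.off h.1 + ((pat n).base S.D.edge h + t * S.D.edge h) := by
  have h1 : p = (pat n).sideC h t ht := Subtype.ext hp
  rw [h1, Par.ppos, Pattern.pos_sidePt S.valid h ht]
  rfl

theorem lft_iff0 {j : Fin n} {p p' : (pat n).Chart} (h1 : pc p = pc p') (h2 : lb p = lb p')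
    {k0 : ℤ} (h3 : S.xh p' = S.xh p) (h4 : S.yh p' = S.yh p + k0) {X Y σ : ℝ} :
    S.Lft j p X Y σ ↔ S.Lft j p' X Y σ := by
  constructor
  · rintro ⟨h, m, k, hx, hy, hσ⟩
    exact ⟨h1 ▸ h, m, k - k0, h3.trans hx, by rw [h4, hy]; push_cast; ring, by rw [← h2]; exact hσ⟩
  · rintro ⟨h, m, k, hx, hy, hσ⟩
    refine ⟨h1.trans h, m, k + k0, h3.symm.trans hx, ?_, by rw [h2]; exact hσ⟩
    have : S.yh p = S.yh p' - k0 := by rw [h4]; ring
    rw [this, hy]; push_cast; ring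

theorem lft_iff1 {j : Fin n} {p p' : (pat n).Chart} (h1 : pc p = pc p')
    (h2 : sg (lb p') = sg (lb p) * kap S.V.y1 (S.yh p))
    (h3 : S.xh p' = S.xh p + 1) (h4 : S.yh p' = S.yh p + S.V.α) {X Y σ : ℝ} :
    S.Lft j p X Y σ ↔ S.Lft j p' X Y σ := by
  constructor
  · rintro ⟨h, m, k, hx, hy, hσ⟩
    refine ⟨h1 ▸ h, m - 1, k, by rw [h3, hx]; push_cast; ring, by rw [h4, hy]; push_cast; ring, ?_⟩
    have h5 : Y - m * S.V.α = S.yh p + k := by rw [hy]; ring
    rw [kk_pred, h2, hσ, h5, kap_add_int]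
    have := kap_sq S.V.y1 (S.yh p)
    linear_combination (-(sg (lb p) * kk S.V.α S.V.y1 m Y)) * this
  · rintro ⟨h, m, k, hx, hy, hσ⟩
    refine ⟨h1.trans h, m + 1, k, ?_, ?_, ?_⟩
    · push_cast; linarith
    · push_cast; linarith
    · have h5 : Y - ((m : ℝ) + 1) * S.V.α = S.yh p + k := by linarith
      rw [kk_succ, hσ, h5, kap_add_int, h2]
      ring

theorem xy_same {p p' : (pat n).Chart} (h1 : pc p = pc p') (h2 : lb p = lb p')
    (h : S.D.ppos p' = S.D.ppos p) : S.xh p' = S.xh p ∧ S.yh p' = S.yh p + ((0 : ℤ) : ℝ) := by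
  constructor
  · unfold xh yh
    rw [h1, h2, h]
  · unfold yh
    rw [h1, h]; simp

theorem xy_up {p p' : (pat n).Chart} (h1 : pc p = pc p') (h2 : lb p = lb p')
    (h : S.D.ppos p' = S.D.ppos p + S.D.A (pc p) (lb p)) :
    S.xh p' = S.xh p ∧ S.yh p' = S.yh p + ((1 : ℤ) : ℝ) := by
  have hl := S.lam_pos (pc p)
  have h4 : S.yh p' = S.yh p + 1 := by
    unfold yh
    rw [← h1, h, S.A_eq]
    simp only [Complex.add_im]
    field_simp
  refine ⟨?_, by rw [h4]; simp⟩
  unfold xh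
  rw [h4, ← h1, ← h2, h, S.A_eq, S.V.G_add_one]
  simp only [Complex.add_re]
  field_simp
  ring

theorem kap_neg {y1 y : ℝ} (h0 : 0 ≤ y) (h1 : y < 1) (h : y < y1) : kap y1 y = -1 := by
  unfold kap
  rw [Int.fract_eq_self.2 ⟨h0, h1⟩, if_pos h]

theorem kap_pos {y1 y : ℝ} (h0 : 0 ≤ y) (h1 : y < 1) (h : y1 ≤ y) : kap y1 y = 1 := by
  unfold kap
  rw [Int.fract_eq_self.2 ⟨h0, h1⟩, if_neg (not_lt.2 h)]

omit [NeZero n] in
theorem C_eq (i : Fin n) (e : Bool) :
    S.D.C i e = ⟨S.lam i + cc * sg e * S.V.γ' / S.lam i, S.V.α / S.lam i⟩ := rfl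

theorem xy_rho {p p' : (pat n).Chart} (h1 : pc p = pc p') (h2 : lb p = lb p')
    (h : S.D.ppos p' = S.D.ppos p + S.D.C (pc p) (lb p)) (hy : S.V.y1 ≤ S.yh p)
    (hy' : S.yh p < 1) :
    sg (lb p') = sg (lb p) * kap S.V.y1 (S.yh p) ∧ S.xh p' = S.xh p + 1 ∧
      S.yh p' = S.yh p + S.V.α := by
  have hl := S.lam_pos (pc p)
  have hκ := S.κ_lt
  have h4 : S.yh p' = S.yh p + S.V.α := by
    unfold yh
    rw [← h1, h, C_eq]
    simp only [Complex.add_im]
    field_simp
  refine ⟨?_, ?_, h4⟩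
  · rw [kap_pos (S.V.y1_pos.le.trans hy) hy' hy, h2, mul_one]
  · unfold xh
    rw [h4, ← h1, ← h2, h, S.V.G_add_alpha (by linarith) hy hy'.le, C_eq]
    simp only [Complex.add_re]
    field_simp
    ring

theorem xy_z {p p' : (pat n).Chart} (h1 : pc p = pc p') (h2 : lb p' = !(lb p))
    (h : S.D.ppos p' = S.D.ppos p + S.D.C (pc p) (lb p')) (hy : 0 ≤ S.yh p)
    (hy' : S.yh p < S.V.y1) :
    sg (lb p') = sg (lb p) * kap S.V.y1 (S.yh p) ∧ S.xh p' = S.xh p + 1 ∧
      S.yh p' = S.yh p + S.V.α := by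
  have hl := S.lam_pos (pc p)
  have hκ := S.κ_lt
  have hy1 := S.V.y1_lt
  have hsg : sg (lb p') = - sg (lb p) := by rw [h2]; cases lb p <;> simp
  have h4 : S.yh p' = S.yh p + S.V.α := by
    unfold yh
    rw [← h1, h, C_eq]
    simp only [Complex.add_im]
    field_simp
  refine ⟨?_, ?_, h4⟩
  · rw [kap_neg hy (by linarith) hy', hsg]; ring
  · unfold xh
    rw [h4, ← h1, h, S.V.G_add_alpha' (by linarith) hy hy'.le, C_eq]
    simp only [Complex.add_re, hsg]
    field_simp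
    ring

/-- the statement for one kind of side -/
def JQ (tt : TT) (k : Fin 3) : Prop := ∀ (i : Fin n) (t : ℝ), 0 < t → t < 1 →
  ∀ p p' : (pat n).Chart, p.1 = (pat n).sidePt ((i, tt), k) t →
    p'.1 = (pat n).sidePt ((pat n).glue ((i, tt), k)) (1 - t) →
    ∀ (j : Fin n) (X Y σ : ℝ), S.Lft j p X Y σ ↔ S.Lft j p' X Y σ

theorem JQ_symm {tt : TT} {k : Fin 3} (h : S.JQ tt k) (hs : ∀ i, TT.sh n tt k i = i) :
    S.JQ (TT.gl tt k).1 (TT.gl tt k).2 := by
  intro i t h0 h1 p p' hp hp' j X Y σ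
  have hg : (pat n).glue ((i, tt), k) = ((i, (TT.gl tt k).1), (TT.gl tt k).2) := by
    show glueN n ((i, tt), k) = _
    simp only [glueN, hs]
  have hg' : (pat n).glue ((i, (TT.gl tt k).1), (TT.gl tt k).2) = ((i, tt), k) :=
    (congrArg (pat n).glue hg).symm.trans ((pat n).glue_glue ((i, tt), k))
  have hA : p'.1 = (pat n).sidePt ((i, tt), k) (1 - t) :=
    hp'.trans (congrArg (fun h => (pat n).sidePt h (1 - t)) hg')
  have hB : p.1 = (pat n).sidePt ((pat n).glue ((i, tt), k)) (1 - (1 - t)) := by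
    have h3 : 1 - (1 - t) = t := by ring
    rw [h3]
    exact hp.trans (congrArg (fun h => (pat n).sidePt h t) hg.symm)
  exact (h i (1 - t) (by linarith) (by linarith) p' p hA hB j X Y σ).symm

theorem JQ_same {tt : TT} {k : Fin 3} (hs : ∀ i, TT.sh n tt k i = i)
    (hl : (TT.gl tt k).1.lab = tt.lab)
    (hpos : ∀ (i : Fin n) (t : ℝ), S.D.off (i, (TT.gl tt k).1) +
      ((pat n).base S.D.edge ((i, (TT.gl tt k).1), (TT.gl tt k).2) +
        ((1 - t : ℝ) : ℂ) * S.D.edge ((i, (TT.gl tt k).1), (TT.gl tt k).2)) =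
      S.D.off (i, tt) + ((pat n).base S.D.edge ((i, tt), k) + t * S.D.edge ((i, tt), k))) :
    S.JQ tt k := by
  intro i t h0 h1 p p' hp hp' j X Y σ
  have hg : (pat n).glue ((i, tt), k) = ((i, (TT.gl tt k).1), (TT.gl tt k).2) := by
    show glueN n ((i, tt), k) = _
    simp only [glueN, hs]
  have hA : p'.1 = (pat n).sidePt ((i, (TT.gl tt k).1), (TT.gl tt k).2) (1 - t) :=
    hp'.trans (congrArg (fun h => (pat n).sidePt h (1 - t)) hg)
  have hq := S.ppos_side ⟨h0.le, h1.le⟩ hp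
  have hq' := S.ppos_side (t := 1 - t) ⟨by linarith, by linarith⟩ hA
  have e1 : pc p = i := by unfold pc; rw [hp]; rfl
  have e1' : pc p' = i := by unfold pc; rw [hA]; rfl
  have e2 : lb p = tt.lab := by unfold lb; rw [hp]; rfl
  have e2' : lb p' = (TT.gl tt k).1.lab := by unfold lb; rw [hA]; rfl
  have hpp : S.D.ppos p' = S.D.ppos p := by
    rw [hq, hq']
    exact hpos i t
  have hlb : lb p = lb p' := by rw [e2, e2', hl]
  obtain ⟨a, b⟩ := S.xy_same (e1.trans e1'.symm) hlb hpp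
  exact S.lft_iff0 (e1.trans e1'.symm) hlb a b

theorem JQ_up {tt : TT} {k : Fin 3} (hs : ∀ i, TT.sh n tt k i = i)
    (hl : (TT.gl tt k).1.lab = tt.lab)
    (hpos : ∀ (i : Fin n) (t : ℝ), S.D.off (i, (TT.gl tt k).1) +
      ((pat n).base S.D.edge ((i, (TT.gl tt k).1), (TT.gl tt k).2) +
        ((1 - t : ℝ) : ℂ) * S.D.edge ((i, (TT.gl tt k).1), (TT.gl tt k).2)) =
      S.D.off (i, tt) + ((pat n).base S.D.edge ((i, tt), k) + t * S.D.edge ((i, tt), k)) +
        S.D.A i tt.lab) :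
    S.JQ tt k := by
  intro i t h0 h1 p p' hp hp' j X Y σ
  have hg : (pat n).glue ((i, tt), k) = ((i, (TT.gl tt k).1), (TT.gl tt k).2) := by
    show glueN n ((i, tt), k) = _
    simp only [glueN, hs]
  have hA : p'.1 = (pat n).sidePt ((i, (TT.gl tt k).1), (TT.gl tt k).2) (1 - t) :=
    hp'.trans (congrArg (fun h => (pat n).sidePt h (1 - t)) hg)
  have hq := S.ppos_side ⟨h0.le, h1.le⟩ hp
  have hq' := S.ppos_side (t := 1 - t) ⟨by linarith, by linarith⟩ hA
  have e1 : pc p = i := by unfold pc; rw [hp]; rfl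
  have e1' : pc p' = i := by unfold pc; rw [hA]; rfl
  have e2 : lb p = tt.lab := by unfold lb; rw [hp]; rfl
  have e2' : lb p' = (TT.gl tt k).1.lab := by unfold lb; rw [hA]; rfl
  have hpp : S.D.ppos p' = S.D.ppos p + S.D.A (pc p) (lb p) := by
    rw [hq, hq', e1, e2]
    exact hpos i t
  have hlb : lb p = lb p' := by rw [e2, e2', hl]
  obtain ⟨a, b⟩ := S.xy_up (e1.trans e1'.symm) hlb hpp
  exact S.lft_iff0 (e1.trans e1'.symm) hlb a b

/-- left side to right side -/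
theorem JQ_right {tt : TT} {k : Fin 3} (hs : ∀ i, TT.sh n tt k i = i)
    (hpos : ∀ (i : Fin n) (t : ℝ), S.D.off (i, (TT.gl tt k).1) +
      ((pat n).base S.D.edge ((i, (TT.gl tt k).1), (TT.gl tt k).2) +
        ((1 - t : ℝ) : ℂ) * S.D.edge ((i, (TT.gl tt k).1), (TT.gl tt k).2)) =
      S.D.off (i, tt) + ((pat n).base S.D.edge ((i, tt), k) + t * S.D.edge ((i, tt), k)) +
        S.D.C i (TT.gl tt k).1.lab)
    (hy : ∀ (i : Fin n) (t : ℝ), 0 < t → t < 1 →
      ((TT.gl tt k).1.lab = tt.lab ∧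
        S.V.y1 ≤ S.lam i * (S.D.off (i, tt) + ((pat n).base S.D.edge ((i, tt), k) +
          t * S.D.edge ((i, tt), k))).im ∧
        S.lam i * (S.D.off (i, tt) + ((pat n).base S.D.edge ((i, tt), k) +
          t * S.D.edge ((i, tt), k))).im < 1) ∨
      ((TT.gl tt k).1.lab = !tt.lab ∧
        0 ≤ S.lam i * (S.D.off (i, tt) + ((pat n).base S.D.edge ((i, tt), k) +
          t * S.D.edge ((i, tt), k))).im ∧
        S.lam i * (S.D.off (i, tt) + ((pat n).base S.D.edge ((i, tt), k) +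
          t * S.D.edge ((i, tt), k))).im < S.V.y1)) :
    S.JQ tt k := by
  intro i t h0 h1 p p' hp hp' j X Y σ
  have hg : (pat n).glue ((i, tt), k) = ((i, (TT.gl tt k).1), (TT.gl tt k).2) := by
    show glueN n ((i, tt), k) = _
    simp only [glueN, hs]
  have hA : p'.1 = (pat n).sidePt ((i, (TT.gl tt k).1), (TT.gl tt k).2) (1 - t) :=
    hp'.trans (congrArg (fun h => (pat n).sidePt h (1 - t)) hg)
  have hq := S.ppos_side ⟨h0.le, h1.le⟩ hp
  have hq' := S.ppos_side (t := 1 - t) ⟨by linarith, by linarith⟩ hA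
  have e1 : pc p = i := by unfold pc; rw [hp]; rfl
  have e1' : pc p' = i := by unfold pc; rw [hA]; rfl
  have e2 : lb p = tt.lab := by unfold lb; rw [hp]; rfl
  have e2' : lb p' = (TT.gl tt k).1.lab := by unfold lb; rw [hA]; rfl
  have hpp : S.D.ppos p' = S.D.ppos p + S.D.C (pc p) (lb p') := by
    rw [hq, hq', e1, e2']
    exact hpos i t
  have hyh : S.yh p = S.lam i * (S.D.off (i, tt) + ((pat n).base S.D.edge ((i, tt), k) +
      t * S.D.edge ((i, tt), k))).im := by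
    unfold yh; rw [hq, e1]; rfl
  have hpc : pc p = pc p' := e1.trans e1'.symm
  rcases hy i t h0 h1 with ⟨ha, hb, hc⟩ | ⟨ha, hb, hc⟩
  · have hlb : lb p = lb p' := by rw [e2, e2', ha]
    obtain ⟨u, v, w⟩ := S.xy_rho hpc hlb (by rw [hlb]; exact hpp) (by rw [hyh]; exact hb)
      (by rw [hyh]; exact hc)
    exact S.lft_iff1 hpc u v w
  · have hlb : lb p' = !(lb p) := by rw [e2, e2', ha]
    obtain ⟨u, v, w⟩ := S.xy_z hpc hlb hpp (by rw [hyh]; exact hb) (by rw [hyh]; exact hc)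
    exact S.lft_iff1 hpc u v w

theorem JQ_all (tt : TT) (k : Fin 3) (h : ¬ (tt = .n2 ∧ k = 1)) (h' : ¬ (tt = .n3 ∧ k = 2)) :
    S.JQ tt k := by
  have hκ := S.κ_lt
  have hy1 := S.V.y1_lt
  have hy0 := S.V.y1_pos
  have q1 : S.JQ .a1 0 := S.JQ_up (fun _ => rfl) rfl fun i t => by
    simp [TT.gl, TT.lab, Par.off, Pattern.base, Par.edge]; ring
  have q2 : S.JQ .a1 2 := S.JQ_same (fun _ => rfl) rfl fun i t => by
    simp [TT.gl, Par.off, Pattern.base, Par.edge]; ring
  have q3 : S.JQ .a2 1 := S.JQ_same (fun _ => rfl) rfl fun i t => by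
    simp [TT.gl, Par.off, Pattern.base, Par.edge]; ring
  have q4 : S.JQ .a3 2 := S.JQ_same (fun _ => rfl) rfl fun i t => by
    simp [TT.gl, Par.off, Pattern.base, Par.edge]; ring
  have q5 : S.JQ .n1 1 := S.JQ_same (fun _ => rfl) rfl fun i t => by
    simp [TT.gl, Par.off, Pattern.base, Par.edge, Par.A]; ring
  have q6 : S.JQ .n1 2 := S.JQ_same (fun _ => rfl) rfl fun i t => by
    simp [TT.gl, Par.off, Pattern.base, Par.edge, Par.A]; ring
  have q7 : S.JQ .b1 0 := S.JQ_up (fun _ => rfl) rfl fun i t => by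
    simp [TT.gl, TT.lab, Par.off, Pattern.base, Par.edge, Par.A]; ring
  have q8 : S.JQ .b1 2 := S.JQ_same (fun _ => rfl) rfl fun i t => by
    simp [TT.gl, Par.off, Pattern.base, Par.edge]; ring
  have q9 : S.JQ .b2 1 := S.JQ_same (fun _ => rfl) rfl fun i t => by
    simp [TT.gl, Par.off, Pattern.base, Par.edge]; ring
  have q10 : S.JQ .b3 2 := S.JQ_same (fun _ => rfl) rfl fun i t => by
    simp [TT.gl, Par.off, Pattern.base, Par.edge]; ring
  -- right z of T_+ with left z of T_-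
  have q11 : S.JQ .b2 2 := by
    refine S.JQ_right (fun _ => rfl) (fun i t => ?_) (fun i t h0 h1 => Or.inr ?_)
    · simp [TT.gl, TT.lab, Par.off, Pattern.base, Par.edge]; ring
    · have hl := S.lam_pos i
      have e : S.lam i * (S.D.off (i, .b2) + ((pat n).base S.D.edge ((i, .b2), 2) +
          t * S.D.edge ((i, .b2), 2))).im = (1 - t) * S.V.y1 := by
        simp [Par.off, Pattern.base, Par.edge, Cfg.D]
        field_simp
        ring
      rw [e]
      refine ⟨rfl, by nlinarith, by nlinarith⟩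
  have q12 : S.JQ .a2 2 := by
    refine S.JQ_right (fun _ => rfl) (fun i t => ?_) (fun i t h0 h1 => Or.inr ?_)
    · simp [TT.gl, TT.lab, Par.off, Pattern.base, Par.edge]; ring
    · have hl := S.lam_pos i
      have e : S.lam i * (S.D.off (i, .a2) + ((pat n).base S.D.edge ((i, .a2), 2) +
          t * S.D.edge ((i, .a2), 2))).im = (1 - t) * S.V.y1 := by
        simp [Par.off, Pattern.base, Par.edge, Cfg.D]
        field_simp
        ring
      rw [e]
      refine ⟨rfl, by nlinarith, by nlinarith⟩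
  have q13 : S.JQ .n3 0 := by
    refine S.JQ_right (fun _ => rfl) (fun i t => ?_) (fun i t h0 h1 => Or.inl ?_)
    · simp [TT.gl, TT.lab, Par.off, Pattern.base, Par.edge, Par.A]; ring
    · have hl := S.lam_pos i
      have e : S.lam i * (S.D.off (i, .n3) + ((pat n).base S.D.edge ((i, .n3), 0) +
          t * S.D.edge ((i, .n3), 0))).im = 1 - t * (1 - S.V.y1) := by
        simp [Par.off, Pattern.base, Par.edge, Cfg.D, Par.A]
        field_simp
        ring
      rw [e]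
      refine ⟨rfl, by nlinarith, by nlinarith⟩
  have q14 : S.JQ .b4 2 := by
    refine S.JQ_right (fun _ => rfl) (fun i t => ?_) (fun i t h0 h1 => Or.inl ?_)
    · simp [TT.gl, TT.lab, Par.off, Pattern.base, Par.edge, Par.A]; ring
    · have hl := S.lam_pos i
      have e : S.lam i * (S.D.off (i, .b4) + ((pat n).base S.D.edge ((i, .b4), 2) +
          t * S.D.edge ((i, .b4), 2))).im = 1 - t * (1 - S.V.y1) := by
        simp [Par.off, Pattern.base, Par.edge, Cfg.D, Par.A]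
        field_simp
        ring
      rw [e]
      refine ⟨rfl, by nlinarith, by nlinarith⟩
  have hk : k = 0 ∨ k = 1 ∨ k = 2 := by fin_cases k <;> simp
  cases tt <;> rcases hk with rfl | rfl | rfl
  · exact q1
  · exact S.JQ_symm q11 (fun _ => rfl)
  · exact q2
  · exact S.JQ_symm q2 (fun _ => rfl)
  · exact q3
  · exact q12
  · exact S.JQ_symm q3 (fun _ => rfl)
  · exact S.JQ_symm q13 (fun _ => rfl)
  · exact q4
  · exact S.JQ_symm q4 (fun _ => rfl)
  · exact q5
  · exact q6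
  · exact S.JQ_symm q1 (fun _ => rfl)
  · exact absurd ⟨rfl, rfl⟩ h
  · exact S.JQ_symm q5 (fun _ => rfl)
  · exact q13
  · exact S.JQ_symm q6 (fun _ => rfl)
  · exact absurd ⟨rfl, rfl⟩ h'
  · exact q7
  · exact S.JQ_symm q12 (fun _ => rfl)
  · exact q8
  · exact S.JQ_symm q8 (fun _ => rfl)
  · exact q9
  · exact q11
  · exact S.JQ_symm q9 (fun _ => rfl)
  · exact S.JQ_symm q14 (fun _ => rfl)
  · exact q10
  · exact S.JQ_symm q10 (fun _ => rfl)
  · exact S.JQ_symm q7 (fun _ => rfl)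
  · exact q14

theorem lft_glued {j : Fin n} {p p' : (pat n).Chart} (hg : (pat n).Glued p p')
    (hr : Reg (Quot.mk (pat n).Glued p)) {X Y σ : ℝ} (h : S.Lft j p X Y σ) :
    S.Lft j p' X Y σ := by
  obtain ⟨⟨⟨i, tt⟩, k⟩, t, ht, hp, hp'⟩ := id hg
  have ht0 : 0 < t := by
    rcases ht.1.lt_or_eq with h0 | h0
    · exact h0
    · exact absurd ⟨p, ⟨((i, tt), k), by rw [hp, ← h0]⟩, rfl⟩ hr.2
  have ht1 : t < 1 := by
    rcases ht.2.lt_or_eq with h0 | h0
    · exact h0
    · refine absurd ⟨p, ⟨((i, tt), k + 1), ?_⟩, rfl⟩ hr.2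
      rw [hp, h0]
      exact sidePt_one (pat n) ((i, tt), k)
  have hn2 : ¬ (tt = .n2 ∧ k = 1) := by
    rintro ⟨rfl, rfl⟩
    refine hr.1 ⟨i, t, ht, ?_⟩
    congr 1
    exact Subtype.ext hp.symm
  have hn3 : ¬ (tt = .n3 ∧ k = 2) := by
    rintro ⟨rfl, rfl⟩
    refine hr.1 ⟨i - 1, 1 - t, ⟨by linarith, by linarith⟩, ?_⟩
    refine (Quot.sound ?_).symm
    have h2 := hg
    have h3 : p' = (pat n).sideC ((i - 1, TT.n2), 1) (1 - t) ⟨by linarith, by linarith⟩ :=
      Subtype.ext hp'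
    rw [← h3]
    exact hg
  exact (S.JQ_all tt k hn2 hn3 i t ht0 ht1 p p' hp hp' j X Y σ).1 h

theorem lft_mk {j : Fin n} {p p' : (pat n).Chart}
    (hg : Quot.mk (pat n).Glued p = Quot.mk (pat n).Glued p')
    (hr : Reg (Quot.mk (pat n).Glued p)) {X Y σ : ℝ} (h : S.Lft j p X Y σ) :
    S.Lft j p' X Y σ := by
  rcases (pat n).mk_cases hg with h1 | h1 | h1
  · rw [← h1]; exact h
  · exact S.lft_glued h1 hr h
  · exact absurd ⟨p, h1.1, rfl⟩ hr.2

theorem fv_eq {j : Fin n} {p : (pat n).Chart} {X Y σ : ℝ} (h : S.Lft j p X Y σ)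
    (hY : Y ∉ S.V.N0) : S.fv p = σ * S.V.φ Y := by
  obtain ⟨-, m, k, -, h2, h3⟩ := h
  unfold fv
  rw [h2, h3]
  have h4 : Y - m * S.V.α - k = (Y - m * S.V.α) + ((-k : ℤ) : ℝ) := by push_cast; ring
  rw [h4, S.V.phi_add_int, S.V.phi_sub hY]
  ring

theorem f_eq {j : Fin n} {p : (pat n).Chart} {X Y σ : ℝ} (h : S.Lft j p X Y σ)
    (hr : Reg (Quot.mk (pat n).Glued p)) (hY : Y ∉ S.V.N0) :
    S.f (Quot.mk (pat n).Glued p) = σ * S.V.φ Y := by
  have h1 : Quot.mk (pat n).Glued p =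
      Quot.mk (pat n).Glued (Quot.out (Quot.mk (pat n).Glued p)) := (Quot.out_eq _).symm
  exact S.fv_eq (S.lft_mk h1 hr h) hY

theorem f_val (x : (pat n).Pt) : S.f x = 1 ∨ S.f x = -1 := by
  unfold f fv
  rcases S.V.val (S.yh (Quot.out x)) with h | h <;> rw [h] <;>
    cases lb (Quot.out x) <;> simp

end Cfg

end Pool.Agent.H1.Horo
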