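import Pool.Agent.H1.Horo.Cfg

/-!
# Two tori in the same piece

PROOF of `lat_same`.  Put `α1 = (A1.re - cc A1.im f1, A1.im)`, `α2` similarly,
`β = (C.re - cc C.im g, C.im)`.  The hypotheses say `α1 = (λ m1 + s A1.im, A1.im)`, `A1.im = (m1 α + k1)/λ` etc.
So `cr β α1 = λ (m3 A1.im - m1 C.im) = m3 k1 - m1 k3` is an integer, and by the bounds it is in
`(3/4, 5/4)`, so it is `1`.  With `dm = m1 - m2`, `dk = k1 - k2`, `d = α1 - α2 = (λ dm + s d.im, (dm α + dk)/λ)`:
`|d.im| ≤ 1/10`, `|d.re| ≤ 7/100`; the integers `cr β d = m3 dk - dm k3` and `cr d α1 = dm k1 - m1 dk`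
have absolute value less than one, so they vanish; then `dm = dm (m3 k1 - m1 k3) = 0` and
`dk = dk (m3 k1 - m1 k3) = 0`, so `d = 0`.
`count_pieces`: the fibres of `J` have at most two elements (they are contained in `{(i, true), (i, false)}`), there
are `n` of them and `2 n` elements, so every fibre has exactly two elements.
-/

namespace Pool.Agent.H1.Horo

open Set MeasureTheory

theorem lat_same {lam s α : ℝ} {A1 A2 C : ℂ} {f1 f2 g : ℝ} {m1 k1 m2 k2 m3 k3 : ℤ} (hl : 0 < lam)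
    (h1 : lam * m1 = A1.re - s * A1.im - cc * A1.im * f1) (h1' : m1 * α + k1 = lam * A1.im)
    (h2 : lam * m2 = A2.re - s * A2.im - cc * A2.im * f2) (h2' : m2 * α + k2 = lam * A2.im)
    (h3 : lam * m3 = C.re - s * C.im - cc * C.im * g) (h3' : m3 * α + k3 = lam * C.im)
    (hf1 : |f1| ≤ 1) (hf2 : |f2| ≤ 1) (hg : |g| ≤ 1)
    (hC : 9 / 10 < C.re ∧ C.re < 12 / 10) (hC' : 0 < C.im ∧ C.im < 1 / 100)
    (hA1 : 9 / 10 < A1.im ∧ A1.im < 101 / 100) (hA1' : |A1.re| < 2 / 100)
    (hA2 : 9 / 10 < A2.im ∧ A2.im < 101 / 100) (hA2' : |A2.re| < 2 / 100)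
    (hd : |A1.im - A2.im| ≤ 1 / 10) :
    A1.im = A2.im ∧ A1.re - cc * A1.im * f1 = A2.re - cc * A2.im * f2 := by
  have hcc : cc = 1 / 100 := rfl
  obtain ⟨hC1, hC2⟩ := hC
  obtain ⟨hC1', hC2'⟩ := hC'
  obtain ⟨ha1, ha2⟩ := hA1
  obtain ⟨hb1, hb2⟩ := hA2
  have bd : ∀ {y f : ℝ}, 0 < y → |f| ≤ 1 → |cc * y * f| ≤ y / 100 := by
    intro y f hy hf
    rw [abs_mul, hcc, abs_of_pos (by positivity : (0 : ℝ) < 1 / 100 * y)]
    nlinarith
  set y1 := A1.im with hy1
  set y2 := A2.im with hy2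
  set by' := C.im with hby
  obtain ⟨x1, hx1⟩ : ∃ x1, x1 = A1.re - cc * y1 * f1 := ⟨_, rfl⟩
  obtain ⟨x2, hx2⟩ : ∃ x2, x2 = A2.re - cc * y2 * f2 := ⟨_, rfl⟩
  obtain ⟨bx, hbx⟩ : ∃ bx, bx = C.re - cc * by' * g := ⟨_, rfl⟩
  rw [← hx1, ← hx2]
  have e1 : lam * m1 = x1 - s * y1 := by rw [h1, hx1]; ring
  have e2 : lam * m2 = x2 - s * y2 := by rw [h2, hx2]; ring
  have e3 : lam * m3 = bx - s * by' := by rw [h3, hbx]; ring
  have X1 : |x1| ≤ 31 / 1000 := by
    have h := bd (by linarith : 0 < y1) hf1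
    rw [abs_le] at h ⊢
    rw [abs_lt] at hA1'
    constructor <;> linarith
  have X2 : |x2| ≤ 31 / 1000 := by
    have h := bd (by linarith : 0 < y2) hf2
    rw [abs_le] at h ⊢
    rw [abs_lt] at hA2'
    constructor <;> linarith
  have BX : 89 / 100 < bx ∧ bx < 121 / 100 := by
    have h := bd (by linarith : 0 < by') hg
    rw [abs_le] at h
    constructor <;> linarith
  obtain ⟨BX1, BX2⟩ := BX
  have hd' := abs_le.1 hd
  have X1' := abs_le.1 X1
  have X2' := abs_le.1 X2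
  have pb : ∀ {a b A B : ℝ}, |a| ≤ A → |b| ≤ B → -(A * B) ≤ a * b ∧ a * b ≤ A * B := by
    intro a b A B ha hb
    rw [← abs_le, abs_mul]
    exact mul_le_mul ha hb (abs_nonneg _) ((abs_nonneg _).trans ha)
  have aby : |by'| ≤ 1 / 100 := abs_le.2 ⟨by linarith, by linarith⟩
  have abx : |bx| ≤ 121 / 100 := abs_le.2 ⟨by linarith, by linarith⟩
  have ay1 : |y1| ≤ 101 / 100 := abs_le.2 ⟨by linarith, by linarith⟩
  have adx : |x1 - x2| ≤ 62 / 1000 := abs_le.2 ⟨by linarith, by linarith⟩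
  have p1 := pb aby X1
  have p2 := pb abx hd
  have p3 := pb aby adx
  have p4 := pb adx ay1
  have p5 := pb hd X1
  have q1 : 89 / 100 * (9 / 10) < bx * y1 := mul_lt_mul'' BX1 ha1 (by norm_num) (by norm_num)
  have q2 : bx * y1 ≤ 121 / 100 * (101 / 100) := (pb abx ay1).2
  -- the integer `cr β α1`
  have i1 : bx * y1 - by' * x1 = ((m3 * k1 - m1 * k3 : ℤ) : ℝ) := by
    have hx : x1 = lam * m1 + s * y1 := by linarith
    have hb : bx = lam * m3 + s * by' := by linarith
    push_cast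
    calc bx * y1 - by' * x1 = m3 * (lam * y1) - m1 * (lam * by') := by rw [hx, hb]; ring
      _ = m3 * k1 - m1 * k3 := by rw [← h1', ← h3']; ring
  have j1 : m3 * k1 - m1 * k3 = 1 := by
    have l1 : (0 : ℝ) < ((m3 * k1 - m1 * k3 : ℤ) : ℝ) := by
      rw [← i1]; linarith [p1.1, p1.2]
    have l2 : ((m3 * k1 - m1 * k3 : ℤ) : ℝ) < 2 := by
      rw [← i1]; linarith [p1.1, p1.2]
    have l1' : 0 < m3 * k1 - m1 * k3 := by exact_mod_cast l1
    have l2' : m3 * k1 - m1 * k3 < 2 := by exact_mod_cast l2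
    omega
  have i2 : bx * (y1 - y2) - by' * (x1 - x2) =
      ((m3 * (k1 - k2) - (m1 - m2) * k3 : ℤ) : ℝ) := by
    have hx : x1 - x2 = lam * (m1 - m2) + s * (y1 - y2) := by linarith
    have hb : bx = lam * m3 + s * by' := by linarith
    push_cast
    calc bx * (y1 - y2) - by' * (x1 - x2)
        = m3 * (lam * y1 - lam * y2) - (m1 - m2) * (lam * by') := by rw [hx, hb]; ring
      _ = m3 * (k1 - k2) - (m1 - m2) * k3 := by rw [← h1', ← h2', ← h3']; ring
  have j2 : m3 * (k1 - k2) - (m1 - m2) * k3 = 0 := by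
    have l1 : (-1 : ℝ) < ((m3 * (k1 - k2) - (m1 - m2) * k3 : ℤ) : ℝ) := by
      rw [← i2]; linarith [p2.1, p2.2, p3.1, p3.2]
    have l2 : ((m3 * (k1 - k2) - (m1 - m2) * k3 : ℤ) : ℝ) < 1 := by
      rw [← i2]; linarith [p2.1, p2.2, p3.1, p3.2]
    have l1' : -1 < m3 * (k1 - k2) - (m1 - m2) * k3 := by exact_mod_cast l1
    have l2' : m3 * (k1 - k2) - (m1 - m2) * k3 < 1 := by exact_mod_cast l2
    omega
  have i3 : (x1 - x2) * y1 - (y1 - y2) * x1 =
      (((m1 - m2) * k1 - m1 * (k1 - k2) : ℤ) : ℝ) := by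
    have hx : x1 - x2 = lam * (m1 - m2) + s * (y1 - y2) := by linarith
    have hx1' : x1 = lam * m1 + s * y1 := by linarith
    push_cast
    calc (x1 - x2) * y1 - (y1 - y2) * x1
        = (m1 - m2) * (lam * y1) - m1 * (lam * y1 - lam * y2) := by rw [hx, hx1']; ring
      _ = (m1 - m2) * k1 - m1 * (k1 - k2) := by rw [← h1', ← h2']; ring
  have j3 : (m1 - m2) * k1 - m1 * (k1 - k2) = 0 := by
    have l1 : (-1 : ℝ) < (((m1 - m2) * k1 - m1 * (k1 - k2) : ℤ) : ℝ) := by
      rw [← i3]; linarith [p4.1, p4.2, p5.1, p5.2]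
    have l2 : (((m1 - m2) * k1 - m1 * (k1 - k2) : ℤ) : ℝ) < 1 := by
      rw [← i3]; linarith [p4.1, p4.2, p5.1, p5.2]
    have l1' : -1 < (m1 - m2) * k1 - m1 * (k1 - k2) := by exact_mod_cast l1
    have l2' : (m1 - m2) * k1 - m1 * (k1 - k2) < 1 := by exact_mod_cast l2
    omega
  have dm : m1 - m2 = 0 := by
    have : (m1 - m2) * (m3 * k1 - m1 * k3) = 0 := by
      linear_combination m3 * j3 + m1 * j2
    rwa [j1, mul_one] at this
  have dk : k1 - k2 = 0 := by
    have : (k1 - k2) * (m3 * k1 - m1 * k3) = 0 := by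
      linear_combination k1 * j2 + k3 * j3
    rwa [j1, mul_one] at this
  have dm' : (m1 : ℝ) = m2 := by exact_mod_cast (by omega : m1 = m2)
  have dk' : (k1 : ℝ) = k2 := by exact_mod_cast (by omega : k1 = k2)
  have hy : y1 = y2 := by
    have : lam * y1 = lam * y2 := by rw [← h1', ← h2', dm', dk']
    exact mul_left_cancel₀ hl.ne' this
  refine ⟨hy, ?_⟩
  have : x1 - s * y1 = x2 - s * y2 := by rw [← e1, ← e2, dm']
  rw [hy] at this
  linarith

theorem count_pieces {n : ℕ} (J : Fin n × Bool → Fin n) (h : ∀ a b, J a = J b → a.1 = b.1)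
    (i : Fin n) : J (i, true) = J (i, false) := by
  classical
  by_contra hne
  have hle : ∀ j, (Finset.univ.filter fun a => J a = j).card ≤ 2 := by
    intro j
    have : (Finset.univ.filter fun a => J a = j).card ≤ (Finset.univ : Finset Bool).card := by
      apply Finset.card_le_card_of_injOn (fun a => a.2) (fun _ _ => Finset.mem_coe.2 (Finset.mem_univ _))
      intro a ha b hb hab
      rw [Finset.mem_coe, Finset.mem_filter] at ha hb
      exact Prod.ext (h a b (ha.2.trans hb.2.symm)) hab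
    simpa using this
  have hlt : (Finset.univ.filter fun a => J a = J (i, true)).card < 2 := by
    have : (Finset.univ.filter fun a => J a = J (i, true)) ⊆ {(i, true)} := by
      intro a ha
      rw [Finset.mem_filter] at ha
      have h1 := h a (i, true) ha.2
      obtain ⟨a1, a2⟩ := a
      simp only at h1
      subst h1
      cases a2
      · exact absurd ha.2.symm hne
      · simp
    have := Finset.card_le_card this
    simp only [Finset.card_singleton] at this
    omega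
  have hsum : (Finset.univ : Finset (Fin n × Bool)).card =
      ∑ j : Fin n, (Finset.univ.filter fun a => J a = j).card :=
    Finset.card_eq_sum_card_fiberwise (fun _ _ => Finset.mem_coe.2 (Finset.mem_univ _))
  have hl := Finset.sum_lt_sum (s := (Finset.univ : Finset (Fin n)))
    (f := fun j => (Finset.univ.filter fun a => J a = j).card) (g := fun _ => 2)
    (fun j _ => hle j) ⟨_, Finset.mem_univ _, hlt⟩
  rw [← hsum] at hl
  simp at hl

end Pool.Agent.H1.Horo
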