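import Pool.Agent.H1.Horo.Sheet

/-!
# The planar parity lemma

`Y t = Y0 + t η` is the height of two points moving simultaneously, `X1 t < X2 t` their horizontal
positions in the plane with branch points `(m, m α + k)` and `(m, m α + k + y1)` (`m, k ∈ ℤ`),
`σ1, σ2` their sheets.  On each of finitely many closed time intervals the sheet is given by
`σ t = e * kk m (Y t)` with a constant sign `e` and a constant column number `m`, and the
position satisfies the lens conditions `Ln` relative to this column.  The origin is the only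
branch point passed by the horizontal segment `[X1 t, X2 t] × {Y t}`.  Then `σ1 * σ2` has opposite
values at `t = 0` and `t = 1`.

PROOF.
(0) Flips of `kap`: if `y < y'` and `kap y ≠ kap y'` then some `y'' ∈ (y, y']` has
`Int.fract y'' = 0` or `Int.fract y'' = y1`.
[`kap = -1` iff `fract < y1`.  If `fract y' < y1 ≤ fract y` then `⌊y'⌋ > ⌊y⌋`, take `y'' = ⌊y'⌋`.  If
`fract y < y1 ≤ fract y'` take `y'' = ⌊y⌋ + y1`.]
(1) Let `t < t'` be in one closed interval where both tracks have constant data `(e1, m1)`,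
`(e2, m2)`.  Then `σ1 t σ2 t σ1 t' σ2 t' = ∏_{m ∈ Ioc (min m1 m2) (max m1 m2)} kap (Y t - m α) *
kap (Y t' - m α)` (`kk_mul_kk`).
(2) If the factor of `m` is `-1` there is a flip at a time `t'' ∈ (t, t']`:
`fract (Y t'' - m α) ∈ {0, y1}`.  By `Ln` of both tracks at `t''`:
if `m1 < m ≤ m2`: `X1 t'' ≤ m` (for `m = m1 + 1` by the last clause of `Ln`, for `m ≥ m1 + 2` as
`X1 - m1 < 2`) and `m ≤ X2 t''` (for `m = m2` by the third clause, for `m ≤ m2 - 1` as
`X2 - m2 > -1`).  So `m = 0` and `Y t'' = 0` by `hno`.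
If `m2 < m ≤ m1` the same clauses give `X2 t'' ≤ m ≤ X1 t''`, contradicting `hlt`.
(3) So only the column `m = 0` can flip, and only if `t < t0 ≤ t'` where `t0 = - Y0 / η` is the
time with `Y t0 = 0`.
(4) If `t < t0 ≤ t'`: at `t0` one gets `m1 ≤ -1` (if `m1 ≥ 1` then `X1 t0 > m1 - 1 ≥ 0`; if `m1 = 0`
then `fract (Y t0 - 0) = 0` so `X1 t0 ≥ 0`) and `m2 ≥ 0` (if `m2 ≤ -2` then `X2 t0 < m2 + 2 ≤ 0`; if
`m2 = -1` then `fract (Y t0 + α - α) = 0` so `X2 t0 + 1 ≤ 1`).  So `0 ∈ Ioc m1 m2`, and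
`kap (Y t) = 1`, `kap (Y t') = -1`: `kap 0 = -1`; a flip in `(0, Y t']` or an earlier flip
`⌊Y t⌋ + y1 ∈ (Y t, 0)` (which exists if `kap (Y t) = -1`, as then `fract (Y t) < y1`, and
`⌊Y t⌋ ≤ -1`) would be a second branch point in column `0`, contradicting `hno` by (2).
(5) So `h t = σ1 t * σ2 t * (if Y t < 0 then -1 else 1)` takes the same value at both ends of each
common interval of constancy; the intersections of the intervals of the two tracks are finitely
many closed intervals covering `[0, 1]` (one may use `Part.lean`, or induct on the two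
subdivisions), so `h 0 = h 1`.
-/

namespace Pool.Agent.H1.Horo

open Set MeasureTheory

/-- the lens conditions: `(x, y)` is the position relative to the branch point `(m, m α)` of the
column `m` -/
def Ln (α y1 x y : ℝ) : Prop :=
  -1 < x ∧ x < 2 ∧ (Int.fract y = 0 ∨ Int.fract y = y1 → 0 ≤ x) ∧
  (Int.fract (y - α) = 0 ∨ Int.fract (y - α) = y1 → x ≤ 1)

/-- a track: `Y t`, `X t` are the height and the horizontal position at time `t ∈ [0, 1]`, `σ t` is
the sheet. -/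
def IsTrack (α y1 : ℝ) (Y X σ : ℝ → ℝ) : Prop :=
  ∃ (N : ℕ) (τ : ℕ → ℝ), Monotone τ ∧ τ 0 = 0 ∧ τ N = 1 ∧ ∀ k < N, ∃ (e : ℝ) (m : ℤ),
    (e = 1 ∨ e = -1) ∧ ∀ t ∈ Icc (τ k) (τ (k + 1)),
      σ t = e * kk α y1 m (Y t) ∧ Ln α y1 (X t - m) (Y t - m * α)

theorem planar_fract {y1 : ℝ} (hy : 0 < y1) (hy' : y1 < 1) (n : ℤ) :
    Int.fract ((n : ℝ) + y1) = y1 := by
  rw [Int.fract_intCast_add, Int.fract_eq_self.2 ⟨hy.le, hy'⟩]

/-- flips of `kap` -/
theorem planar_flip {y1 y y' : ℝ} (hy : 0 < y1) (hy' : y1 < 1) (h : y < y')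
    (hk : kap y1 y ≠ kap y1 y') :
    ∃ z, y < z ∧ z ≤ y' ∧ (Int.fract z = 0 ∨ Int.fract z = y1) := by
  have e := Int.floor_add_fract y
  have e' := Int.floor_add_fract y'
  have hf : ⌊y⌋ ≤ ⌊y'⌋ := Int.floor_le_floor h.le
  by_cases h1 : Int.fract y < y1
  · by_cases h2 : Int.fract y' < y1
    · exact absurd (by rw [kap, kap, if_pos h1, if_pos h2]) hk
    · refine ⟨(⌊y'⌋ : ℝ) + y1, ?_, ?_, Or.inr (planar_fract hy hy' _)⟩
      · have : (⌊y⌋ : ℝ) ≤ ⌊y'⌋ := by exact_mod_cast hf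
        linarith
      · linarith
  · by_cases h2 : Int.fract y' < y1
    · have hne : ⌊y⌋ ≠ ⌊y'⌋ := by
        intro heq
        rw [heq] at e
        linarith
      have h3 : ⌊y⌋ + 1 ≤ ⌊y'⌋ := lt_of_le_of_ne hf hne
      have h4 : (⌊y⌋ : ℝ) + 1 ≤ ⌊y'⌋ := by exact_mod_cast h3
      refine ⟨(⌊y'⌋ : ℝ), ?_, Int.floor_le _, Or.inl (Int.fract_intCast _)⟩
      have := Int.lt_floor_add_one y
      linarith
    · exact absurd (by rw [kap, kap, if_neg h1, if_neg h2]) hk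

theorem planar_left {α y1 x Y : ℝ} {m j : ℤ} (h : Ln α y1 (x - m) (Y - m * α)) (hj : m < j)
    (hf : Int.fract (Y - j * α) = 0 ∨ Int.fract (Y - j * α) = y1) : x ≤ j := by
  obtain ⟨_, h2, _, h4⟩ := h
  by_cases hj1 : j = m + 1
  · subst hj1
    have e : Y - m * α - α = Y - ((m + 1 : ℤ) : ℝ) * α := by push_cast; ring
    rw [e] at h4
    have := h4 hf
    push_cast
    linarith
  · have h5 : m + 2 ≤ j := by omega
    have h6 : (m : ℝ) + 2 ≤ j := by exact_mod_cast h5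
    linarith

theorem planar_right {α y1 x Y : ℝ} {m j : ℤ} (h : Ln α y1 (x - m) (Y - m * α)) (hj : j ≤ m)
    (hf : Int.fract (Y - j * α) = 0 ∨ Int.fract (Y - j * α) = y1) : (j : ℝ) ≤ x := by
  obtain ⟨h1, _, h3, _⟩ := h
  by_cases hj1 : j = m
  · subst hj1
    have := h3 hf
    linarith
  · have h5 : j + 1 ≤ m := by omega
    have h6 : (j : ℝ) + 1 ≤ m := by exact_mod_cast h5
    linarith

/-- only the column `0` can flip -/
theorem planar_col {α y1 Y x1 x2 : ℝ} {m1 m2 j : ℤ} (h1 : Ln α y1 (x1 - m1) (Y - m1 * α))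
    (h2 : Ln α y1 (x2 - m2) (Y - m2 * α)) (hlt : x1 < x2)
    (hno : ∀ m : ℤ, (Int.fract (Y - m * α) = 0 ∨ Int.fract (Y - m * α) = y1) →
      x1 ≤ m → m ≤ x2 → m = 0 ∧ Y = 0)
    (hj : j ∈ Finset.Ioc (min m1 m2) (max m1 m2))
    (hf : Int.fract (Y - j * α) = 0 ∨ Int.fract (Y - j * α) = y1) : j = 0 ∧ Y = 0 := by
  rw [Finset.mem_Ioc] at hj
  rcases le_total m1 m2 with h | h
  · rw [min_eq_left h, max_eq_right h] at hj
    exact hno j hf (planar_left h1 hj.1 hf) (planar_right h2 hj.2 hf)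
  · rw [min_eq_right h, max_eq_left h] at hj
    have h3 := planar_left h2 hj.1 hf
    have h4 := planar_right h1 hj.2 hf
    linarith

/-- on a common interval of constancy -/
theorem planar_local {α y1 Y0 η : ℝ} (hy : 0 < y1) (hy' : y1 < 1) (hη : 0 < η) {X1 X2 : ℝ → ℝ}
    {t t' : ℝ} (htt : t < t') {m1 m2 : ℤ}
    (hL1 : ∀ s ∈ Icc t t', Ln α y1 (X1 s - m1) (Y0 + s * η - m1 * α))
    (hL2 : ∀ s ∈ Icc t t', Ln α y1 (X2 s - m2) (Y0 + s * η - m2 * α))
    (hlt : ∀ s ∈ Icc t t', X1 s < X2 s)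
    (hX1 : X1 (-Y0 / η) < 0) (hX2 : 0 < X2 (-Y0 / η))
    (hno : ∀ s ∈ Icc t t', ∀ m : ℤ,
      (Int.fract (Y0 + s * η - m * α) = 0 ∨ Int.fract (Y0 + s * η - m * α) = y1) →
      X1 s ≤ m → m ≤ X2 s → m = 0 ∧ Y0 + s * η = 0) :
    (∏ j ∈ Finset.Ioc (min m1 m2) (max m1 m2), kap y1 (Y0 + t * η - j * α)) *
        (if Y0 + t * η < 0 then -1 else 1) =
      (∏ j ∈ Finset.Ioc (min m1 m2) (max m1 m2), kap y1 (Y0 + t' * η - j * α)) *
        (if Y0 + t' * η < 0 then -1 else 1) := by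
  have hYlt : Y0 + t * η < Y0 + t' * η := by
    have := mul_lt_mul_of_pos_right htt hη
    linarith
  -- a flip in a column gives a time
  have hz : ∀ (j : ℤ), j ∈ Finset.Ioc (min m1 m2) (max m1 m2) → ∀ z : ℝ,
      Y0 + t * η - j * α ≤ z → z ≤ Y0 + t' * η - j * α →
      (Int.fract z = 0 ∨ Int.fract z = y1) → j = 0 ∧ z = 0 := by
    intro j hj z hz1 hz2 hf
    have hs : (z + j * α - Y0) / η ∈ Icc t t' := by
      constructor
      · rw [le_div_iff₀ hη]
        linarith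
      · rw [div_le_iff₀ hη]
        linarith
    have hYs : Y0 + (z + j * α - Y0) / η * η = z + j * α := by
      rw [div_mul_cancel₀ _ hη.ne']
      ring
    have hf' : Int.fract (Y0 + (z + j * α - Y0) / η * η - j * α) = 0 ∨
        Int.fract (Y0 + (z + j * α - Y0) / η * η - j * α) = y1 := by
      rw [hYs, add_sub_cancel_right]
      exact hf
    have h := planar_col (hL1 _ hs) (hL2 _ hs) (hlt _ hs) (hno _ hs) hj hf'
    rw [hYs] at h
    refine ⟨h.1, ?_⟩
    have h2 := h.2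
    rw [h.1] at h2
    simpa using h2
  have hcol : ∀ j ∈ Finset.Ioc (min m1 m2) (max m1 m2),
      kap y1 (Y0 + t * η - j * α) ≠ kap y1 (Y0 + t' * η - j * α) →
      j = 0 ∧ Y0 + t * η < 0 ∧ 0 ≤ Y0 + t' * η := by
    intro j hj hk
    obtain ⟨z, hz1, hz2, hz3⟩ := planar_flip hy hy' (by linarith) hk
    obtain ⟨h1, h2⟩ := hz j hj z hz1.le hz2 hz3
    subst h1
    subst h2
    simp only [Int.cast_zero, zero_mul, sub_zero] at hz1 hz2
    exact ⟨rfl, hz1, hz2⟩
  by_cases hc : Y0 + t * η < 0 ∧ 0 ≤ Y0 + t' * η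
  · obtain ⟨hc1, hc2⟩ := hc
    have ht0 : -Y0 / η ∈ Icc t t' := by
      constructor
      · rw [le_div_iff₀ hη]
        linarith
      · rw [div_le_iff₀ hη]
        linarith
    have hY0 : Y0 + -Y0 / η * η = 0 := by
      rw [div_mul_cancel₀ _ hη.ne']
      ring
    have hA := hL1 _ ht0
    have hB := hL2 _ ht0
    rw [hY0] at hA hB
    have hm1 : m1 ≤ -1 := by
      by_contra hcon
      have h0 : 0 ≤ m1 := by omega
      rcases h0.eq_or_lt with h0 | h0
      · subst h0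
        have := hA.2.2.1 (Or.inl (by simp))
        push_cast at this
        linarith
      · have h3 : (1 : ℝ) ≤ m1 := by exact_mod_cast h0
        have := hA.1
        linarith
    have hm2 : 0 ≤ m2 := by
      by_contra hcon
      have h0 : m2 ≤ -1 := by omega
      rcases h0.eq_or_lt with h0 | h0
      · subst h0
        have := hB.2.2.2 (Or.inl (by simp))
        push_cast at this
        linarith
      · have h3 : m2 ≤ -2 := by omega
        have h3 : (m2 : ℝ) ≤ -2 := by exact_mod_cast h3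
        have := hB.2.1
        linarith
    have hmem : (0 : ℤ) ∈ Finset.Ioc (min m1 m2) (max m1 m2) := by
      rw [Finset.mem_Ioc]
      constructor
      · exact min_lt_of_left_lt (by omega)
      · exact le_max_of_le_right hm2
    have hz0 : ∀ z : ℝ, Y0 + t * η ≤ z → z ≤ Y0 + t' * η →
        (Int.fract z = 0 ∨ Int.fract z = y1) → z = 0 := by
      intro z hz1 hz2 hz3
      exact (hz 0 hmem z (by simpa using hz1) (by simpa using hz2) hz3).2
    have hk1 : kap y1 (Y0 + t * η) = 1 := by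
      unfold kap
      rw [if_neg]
      intro hf
      have h1 : ⌊Y0 + t * η⌋ < 0 := Int.floor_lt.2 (by simpa using hc1)
      have h2 : (⌊Y0 + t * η⌋ : ℝ) ≤ -1 := by
        have : ⌊Y0 + t * η⌋ ≤ -1 := by omega
        exact_mod_cast this
      have e := Int.floor_add_fract (Y0 + t * η)
      have h3 := hz0 ((⌊Y0 + t * η⌋ : ℝ) + y1) (by linarith) (by linarith)
        (Or.inr (planar_fract hy hy' _))
      linarith
    have hk2 : kap y1 (Y0 + t' * η) = -1 := by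
      have hk0 : kap y1 0 = -1 := by
        unfold kap
        rw [if_pos]
        simpa using hy
      rcases hc2.eq_or_lt with h | h
      · rw [← h, hk0]
      · by_contra hcon
        obtain ⟨z, hz1, hz2, hz3⟩ := planar_flip hy hy' h (by rw [hk0]; exact fun h => hcon h.symm)
        have := hz0 z (by linarith) hz2 hz3
        linarith
    rw [← Finset.mul_prod_erase _ _ hmem, ← Finset.mul_prod_erase _ (fun j : ℤ =>
      kap y1 (Y0 + t' * η - j * α)) hmem]
    have hprod : ∏ j ∈ (Finset.Ioc (min m1 m2) (max m1 m2)).erase 0,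
        kap y1 (Y0 + t * η - j * α) =
        ∏ j ∈ (Finset.Ioc (min m1 m2) (max m1 m2)).erase 0,
        kap y1 (Y0 + t' * η - j * α) := by
      refine Finset.prod_congr rfl fun j hj => ?_
      obtain ⟨hj1, hj2⟩ := Finset.mem_erase.1 hj
      by_contra hcon
      exact hj1 (hcol j hj2 hcon).1
    rw [hprod]
    simp only [Int.cast_zero, zero_mul, sub_zero]
    rw [hk1, hk2, if_pos hc1, if_neg (not_lt.2 hc2)]
    ring
  · have hprod : ∏ j ∈ Finset.Ioc (min m1 m2) (max m1 m2), kap y1 (Y0 + t * η - j * α) =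
        ∏ j ∈ Finset.Ioc (min m1 m2) (max m1 m2), kap y1 (Y0 + t' * η - j * α) := by
      refine Finset.prod_congr rfl fun j hj => ?_
      by_contra hcon
      exact hc (hcol j hj hcon).2
    rw [hprod]
    congr 1
    by_cases h1 : Y0 + t * η < 0
    · have h2 : Y0 + t' * η < 0 := by
        by_contra h2
        exact hc ⟨h1, not_lt.1 h2⟩
      rw [if_pos h1, if_pos h2]
    · rw [if_neg h1, if_neg (by linarith [not_lt.1 h1])]

/-- gluing of local constancy along a subdivision -/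
theorem planar_glue {h : ℝ → ℝ} {S : Set ℝ} (hS : S.OrdConnected) {N : ℕ} {τ : ℕ → ℝ}
    (hconst : ∀ k < N, ∀ s ∈ S ∩ Icc (τ k) (τ (k + 1)), ∀ s' ∈ S ∩ Icc (τ k) (τ (k + 1)),
      s < s' → h s = h s') :
    ∀ n ≤ N, ∀ s ∈ S, ∀ s' ∈ S, s < s' → τ 0 ≤ s → s' ≤ τ n → h s = h s' := by
  intro n
  induction n with
  | zero =>
    intro _ s _ s' _ hss h0 h1
    exact absurd (h0.trans_lt hss) (not_lt.2 h1)
  | succ n ih =>
    intro hn s hs s' hs' hss h0 h1
    rcases le_or_gt s' (τ n) with h2 | h2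
    · exact ih (by omega) s hs s' hs' hss h0 h2
    · rcases le_or_gt (τ n) s with h3 | h3
      · exact hconst n (by omega) s ⟨hs, h3, hss.le.trans h1⟩ s' ⟨hs', h2.le, h1⟩ hss
      · have hm : τ n ∈ S := hS.out hs hs' ⟨h3.le, h2.le⟩
        rw [ih (by omega) s hs (τ n) hm h3 h0 le_rfl]
        exact hconst n (by omega) (τ n) ⟨hm, le_rfl, h2.le.trans h1⟩ s' ⟨hs', h2.le, h1⟩ h2

theorem planar {α y1 Y0 η : ℝ} (hy : 0 < y1) (hy' : y1 < 1) (hη : 0 < η) (h0 : Y0 < 0)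
    (h1 : 0 < Y0 + η) {X1 X2 σ1 σ2 : ℝ → ℝ}
    (T1 : IsTrack α y1 (fun t => Y0 + t * η) X1 σ1) (T2 : IsTrack α y1 (fun t => Y0 + t * η) X2 σ2)
    (hlt : ∀ t ∈ Icc (0 : ℝ) 1, X1 t < X2 t)
    (hX1 : X1 (-Y0 / η) < 0) (hX2 : 0 < X2 (-Y0 / η))
    (hno : ∀ t ∈ Icc (0 : ℝ) 1, ∀ m : ℤ,
      (Int.fract (Y0 + t * η - m * α) = 0 ∨ Int.fract (Y0 + t * η - m * α) = y1) →
      X1 t ≤ m → m ≤ X2 t → m = 0 ∧ Y0 + t * η = 0) :
    σ1 1 * σ2 1 = - (σ1 0 * σ2 0) := by
  obtain ⟨N1, τ1, hmo1, h10, h11, H1⟩ := T1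
  obtain ⟨N2, τ2, hmo2, h20, h21, H2⟩ := T2
  let h : ℝ → ℝ := fun s => σ1 s * σ2 s * (if Y0 + s * η < 0 then -1 else 1)
  have hτ1 : ∀ k ≤ N1, τ1 k ∈ Icc (0 : ℝ) 1 := fun k hk =>
    ⟨h10 ▸ hmo1 (Nat.zero_le k), h11 ▸ hmo1 hk⟩
  have key : ∀ s ∈ Icc (0 : ℝ) 1, ∀ s' ∈ Icc (0 : ℝ) 1, s < s' → h s = h s' := by
    intro s hs s' hs' hss
    refine planar_glue (h := h) (S := Icc (0 : ℝ) 1) ordConnected_Icc (N := N1) (τ := τ1) ?_ N1
      le_rfl s hs s' hs' hss (by rw [h10]; exact hs.1) (by rw [h11]; exact hs'.2)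
    intro k hk s hs s' hs' hss
    refine planar_glue (h := h) (S := Icc (0 : ℝ) 1 ∩ Icc (τ1 k) (τ1 (k + 1)))
      (ordConnected_Icc.inter ordConnected_Icc) (N := N2) (τ := τ2) ?_ N2 le_rfl s hs s' hs' hss
      (by rw [h20]; exact hs.1.1) (by rw [h21]; exact hs'.1.2)
    intro l hl s hs s' hs' hss
    obtain ⟨e1, m1, -, G1⟩ := H1 k hk
    obtain ⟨e2, m2, -, G2⟩ := H2 l hl
    have i1 : ∀ r ∈ Icc s s', r ∈ Icc (τ1 k) (τ1 (k + 1)) := fun r hr =>
      ⟨hs.1.2.1.trans hr.1, hr.2.trans hs'.1.2.2⟩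
    have i2 : ∀ r ∈ Icc s s', r ∈ Icc (τ2 l) (τ2 (l + 1)) := fun r hr =>
      ⟨hs.2.1.trans hr.1, hr.2.trans hs'.2.2⟩
    have i3 : ∀ r ∈ Icc s s', r ∈ Icc (0 : ℝ) 1 := fun r hr =>
      ⟨hs.1.1.1.trans hr.1, hr.2.trans hs'.1.1.2⟩
    have loc := planar_local (m1 := m1) (m2 := m2) hy hy' hη hss (fun r hr => (G1 r (i1 r hr)).2)
      (fun r hr => (G2 r (i2 r hr)).2) (fun r hr => hlt r (i3 r hr)) hX1 hX2
      (fun r hr => hno r (i3 r hr))
    have es := left_mem_Icc.2 hss.le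
    have es' := right_mem_Icc.2 hss.le
    have val : ∀ r ∈ Icc s s', h r = e1 * e2 *
        ((∏ j ∈ Finset.Ioc (min m1 m2) (max m1 m2), kap y1 (Y0 + r * η - j * α)) *
        (if Y0 + r * η < 0 then -1 else 1)) := by
      intro r hr
      change σ1 r * σ2 r * _ = _
      rw [(G1 r (i1 r hr)).1, (G2 r (i2 r hr)).1, ← kk_mul_kk]
      ring
    rw [val s es, val s' es', loc]
  have h01 := key 0 ⟨le_rfl, zero_le_one⟩ 1 ⟨zero_le_one, le_rfl⟩ zero_lt_one
  change σ1 0 * σ2 0 * (if Y0 + 0 * η < 0 then -1 else 1) =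
    σ1 1 * σ2 1 * (if Y0 + 1 * η < 0 then -1 else 1) at h01
  rw [if_pos (by linarith), if_neg (by linarith)] at h01
  linarith

end Pool.Agent.H1.Horo
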