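import Pool.Agent.H1.Horo.Cfg
import Pool.Agent.H1.Horo.Planar
import Pool.Agent.H1.Horo.HexMem

/-!
# The polygons of the example in the structure coordinates

Notation: `λ = lam j ∈ (1, 11/10)`, `e = sg (lb p)`, `γ ∈ [1 - 2κ, 1]`, `|γ'| ≤ α < κ`, `y1 < κ < 1/1000`,
`cc = 1/100`; `C = (λ + cc e γ'/λ, α/λ)`, `z = (0, y1/λ)`, `A = (cc e γ/λ, 1/λ)`.

PROOFS.
* `D_pos`: `cr C z = (λ + cc e γ'/λ) y1/λ`, `cr C ρ = (λ + cc e γ'/λ)(1 - y1)/λ - (α/λ)(cc e γ/λ) ≥ 9/10`,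
  `cr ell C = l α / λ`, `cr ell ρ = l (1 - y1)/λ`.
* `edge_im`: the slit sides are the only horizontal ones (used nowhere else).
* `yh_bounds`: by `hex_cases`, `0 ≤ yh ≤ 1 + α`.
* `lens`: let `q` be the polygon position, `(x, y) = (xh, yh)`, so `Re q = λ x + cc e G(y)/λ`, `Im q = y/λ`.
  By `hex_cases` `q = u C + v z`, or `q = z + u C + v ρ`; so `y = u α + v y1`, resp.
  `y = y1 + u α + v (1 - y1)`; `Re q = u C.re` resp. `u C.re + v cc e γ/λ`.
  - `-1 < x < 2`: `|Re q| ≤ C.re + cc`, `|G(y)| ≤ |y| ≤ 2`.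
  - If `Int.fract y = 0` then `x ≥ 0`: `y = 0`: then `u = v = 0` in the first case, `q = 0`, `x = 0`
    (`G 0 = 0`); (in the second case `y ≥ y1 > 0`).  `y = 1`: in the first case `y ≤ α + y1 < 1`.
    In the second `y1 + u α + v (1 - y1) = 1`, so `1 - v = u α / (1 - y1)`,
    `λ x = u C.re - (1 - v) cc e γ/λ ≥ u (C.re - 2 α cc) ≥ 0` (`G 1 = γ`).
    (`y < 2` always.)
  - If `Int.fract y = y1` then `x ≥ 0`: `y = y1`: `G y = 0` (`G_y1`), and `Re q ≥ 0` in the first case;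
    in the second `u α + v (1 - y1) = 0` so `u = v = 0`, `q = z`, `x = 0`.
    `y = 1 + y1`: `y ≤ 1 + α`, so (second case) `y1 + u α + v (1 - y1) = 1 + y1`, so `u α = y1 + (1 - v)(1 - y1)`;
    `λ x = u C.re + v cc e γ/λ - cc e (γ + G y1)/λ ≥ u C.re - (1 - v) cc /λ`, where `(1 - v) ≤ u α / (1 - y1)`: `≥ 0`.
  - The conditions at `y - α`: `Int.fract (y - α) = 0`: `y = α` or `y = 1 + α` (`0 ≤ y ≤ 1 + α`; `-α ≤ y - α ≤ 1`).
    At `y = 1 + α`: second case with `u = v = 1`, `q = C + A`, `λ x = C.re + cc e γ/λ - cc e G(1+α)/λ = λ`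
    (`G (1 + α) = γ + γ'`), `x = 1`.
    At `y = α`: first case: `u α + v y1 = α`, so `v y1 = (1-u) α`, and
    `λ x = u C.re - cc e γ'/λ = λ - (1 - u) C.re ≤ λ`.
    Second case: `y1 + u α + v (1 - y1) = α`, `v ≤ (1 - u) α / (1 - y1)`,
    `λ x = u C.re + v cc e γ/λ - cc e γ'/λ = λ - (1 - u) C.re + v cc e γ/λ ≤ λ`.
    `Int.fract (y - α) = y1`: `y = α + y1` (or `y - α = y1 - 1 < - α`, impossible).
    `G (α + y1) = γ' + G y1 = γ'`.  First case: `u α + v y1 = α + y1` gives `u = v = 1`, `x = 1`.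
    Second case: `u α + v (1 - y1) = α`, so `v = (1 - u) α / (1 - y1)` and
    `λ x = u C.re + v cc e γ / λ - cc e γ'/λ = λ - (1 - u) C.re + v cc e γ/λ ≤ λ`.
-/

namespace Pool.Agent.H1.Horo

open Set MeasureTheory

theorem sg_cases (e : Bool) : sg e = 1 ∨ sg e = -1 := by
  cases e <;> simp

namespace Cfg
variable {n : ℕ} {κ : ℝ} (S : Cfg n κ)

theorem lam_inv (j : Fin n) :
    S.lam j * (S.lam j)⁻¹ = 1 ∧ 10 / 11 < (S.lam j)⁻¹ ∧ (S.lam j)⁻¹ < 1 := by
  have h1 := S.one_lt j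
  have h2 := S.lam_lt j
  have h0 := S.lam_pos j
  refine ⟨mul_inv_cancel₀ h0.ne', ?_, inv_lt_one_of_one_lt₀ h1⟩
  rw [lt_inv_comm₀ (by norm_num) h0]
  norm_num
  exact h2

theorem gam_bounds : 1 - 2 * κ ≤ S.V.γ ∧ S.V.γ ≤ 1 ∧ |S.V.γ'| ≤ S.V.α :=
  ⟨S.V.le_gam, S.V.gam_le, S.V.abs_gam'⟩

/-- real part of `C` -/
theorem C_re_bounds (j : Fin n) (e : Bool) :
    S.lam j - 1 / 100 * κ ≤ S.lam j + cc * sg e * S.V.γ' * (S.lam j)⁻¹ ∧
      S.lam j + cc * sg e * S.V.γ' * (S.lam j)⁻¹ ≤ S.lam j + 1 / 100 * κ := by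
  obtain ⟨h1, h2, h3⟩ := S.lam_inv j
  obtain ⟨-, -, h4⟩ := S.gam_bounds
  have h5 := S.V.α_lt
  have h6 := S.V.α_pos
  rw [abs_le] at h4
  have h7 : -κ ≤ S.V.γ' * (S.lam j)⁻¹ := by nlinarith
  have h8 : S.V.γ' * (S.lam j)⁻¹ ≤ κ := by nlinarith
  unfold cc
  rcases sg_cases e with h | h <;> rw [h] <;> constructor <;> linarith

theorem D_pos : S.D.Pos := by
  have hκ := S.κ_lt
  have hα := S.V.α_pos
  have hα' := S.V.α_lt
  have hy := S.V.y1_pos
  have hy' := S.V.y1_lt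
  have hl := S.l_pos
  obtain ⟨hg1, hg2, -⟩ := S.gam_bounds
  have hcρ : ∀ i e, 7 / 10 < cr (S.D.C i e) (S.D.rho i e) := by
    intro i e
    obtain ⟨h1, h2, h3⟩ := S.lam_inv i
    obtain ⟨h4, -⟩ := S.C_re_bounds i e
    have h5 := S.one_lt i
    have h6 : 9 / 10 < S.lam i + cc * sg e * S.V.γ' * (S.lam i)⁻¹ := by linarith
    simp only [cr, D, div_eq_mul_inv]
    generalize S.lam i + cc * sg e * S.V.γ' * (S.lam i)⁻¹ = c at *
    generalize (S.lam i)⁻¹ = t at *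
    have h7 : 9 / 10 ≤ (1 - S.V.y1) * t := by nlinarith
    have h8 : 81 / 100 ≤ c * ((1 - S.V.y1) * t) := by nlinarith
    have h9 : |S.V.α * t * (cc * sg e * S.V.γ * t)| ≤ 1 / 1000 := by
      rw [abs_mul]
      have a1 : |S.V.α * t| ≤ 1 / 1000 := by
        rw [abs_of_nonneg (by positivity)]
        nlinarith
      have a2 : |cc * sg e * S.V.γ * t| ≤ 1 := by
        have : |cc * sg e * S.V.γ * t| = cc * (S.V.γ * t) := by
          unfold cc
          have h10 : 0 ≤ S.V.γ * t := by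
            apply mul_nonneg <;> linarith
          rcases sg_cases e with h | h <;> rw [h]
          · rw [abs_of_nonneg (by nlinarith)]; ring
          · rw [abs_of_nonpos (by nlinarith)]; ring
        rw [this]
        unfold cc
        nlinarith
      calc |S.V.α * t| * |cc * sg e * S.V.γ * t| ≤ 1 / 1000 * 1 :=
            mul_le_mul a1 a2 (abs_nonneg _) (by norm_num)
        _ = 1 / 1000 := by norm_num
    rw [abs_le] at h9
    linarith [h9.2]
  have hec : ∀ i, cr S.D.ell (S.D.C i true) = S.l * (S.V.α * (S.lam i)⁻¹) := by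
    intro i
    simp only [cr, D, div_eq_mul_inv, Complex.ofReal_re, Complex.ofReal_im]
    ring
  have heρ : ∀ i, cr S.D.ell (S.D.rho i true) = S.l * ((1 - S.V.y1) * (S.lam i)⁻¹) := by
    intro i
    simp only [cr, D, div_eq_mul_inv, Complex.ofReal_re, Complex.ofReal_im]
    ring
  have hl' : ∀ _ : Fin n, S.l < 1 / 1000 := by
    intro i
    have h1 : (1 : ℝ) ≤ n := by
      have : 0 < n := i.pos
      exact_mod_cast this
    have := S.l_lt
    nlinarith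
  refine ⟨?_, ?_, ?_, ?_, ?_⟩
  · intro i e
    obtain ⟨h1, h2, h3⟩ := S.lam_inv i
    obtain ⟨h4, -⟩ := S.C_re_bounds i e
    have h5 := S.one_lt i
    have h6 : 9 / 10 < S.lam i + cc * sg e * S.V.γ' * (S.lam i)⁻¹ := by linarith
    simp only [cr, D, div_eq_mul_inv, mul_zero, sub_zero]
    generalize S.lam i + cc * sg e * S.V.γ' * (S.lam i)⁻¹ = c at *
    have : 0 < c := by linarith
    have : 0 < (S.lam i)⁻¹ := by linarith
    positivity
  · intro i e
    linarith [hcρ i e]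
  · intro i
    rw [hec]
    obtain ⟨h1, h2, h3⟩ := S.lam_inv i
    have : 0 < (S.lam i)⁻¹ := by linarith
    positivity
  · intro i
    rw [heρ]
    obtain ⟨h1, h2, h3⟩ := S.lam_inv i
    have : 0 < (S.lam i)⁻¹ := by linarith
    have : 0 < 1 - S.V.y1 := by linarith
    positivity
  · intro i
    rw [hec, heρ]
    obtain ⟨h1, h2, h3⟩ := S.lam_inv i
    have h4 := hcρ i true
    have h5 := hl' i
    have h6 : S.V.α * (S.lam i)⁻¹ ≤ 1 := by nlinarith
    have h7 : (1 - S.V.y1) * (S.lam i)⁻¹ ≤ 1 := by nlinarith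
    have h8 : S.l * (S.V.α * (S.lam i)⁻¹) ≤ 1 / 1000 := by nlinarith
    have h9 : S.l * ((1 - S.V.y1) * (S.lam i)⁻¹) ≤ 1 / 1000 := by nlinarith
    linarith

variable [NeZero n]

theorem valid : (pat n).Valid S.D.edge := edge_valid S.D S.D_pos

/-- the structure coordinates in the two parallelograms -/
theorem coords (p : (pat n).Chart) : ∃ u ∈ Icc (0 : ℝ) 1, ∃ v ∈ Icc (0 : ℝ) 1,
    (S.yh p = u * S.V.α + v * S.V.y1 ∧
      S.lam (pc p) * S.xh p = u * (S.lam (pc p) + cc * sg (lb p) * S.V.γ' * (S.lam (pc p))⁻¹) -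
        cc * sg (lb p) * S.V.G (S.yh p) * (S.lam (pc p))⁻¹) ∨
    (S.yh p = S.V.y1 + u * S.V.α + v * (1 - S.V.y1) ∧
      S.lam (pc p) * S.xh p = u * (S.lam (pc p) + cc * sg (lb p) * S.V.γ' * (S.lam (pc p))⁻¹) +
        v * (cc * sg (lb p) * S.V.γ * (S.lam (pc p))⁻¹) -
        cc * sg (lb p) * S.V.G (S.yh p) * (S.lam (pc p))⁻¹) := by
  have h0 := S.lam_pos (pc p)
  have hx : S.lam (pc p) * S.xh p =
      (S.D.ppos p).re - cc * sg (lb p) * S.V.G (S.yh p) * (S.lam (pc p))⁻¹ := by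
    unfold xh
    field_simp
  have hq : S.D.ppos p ∈ S.D.hex (pc p) (lb p) := ⟨p, rfl, rfl, rfl⟩
  rcases Par.hex_cases S.D_pos hq with ⟨u, hu, v, hv, h⟩ | ⟨u, hu, v, hv, h⟩
  · refine ⟨u, hu, v, hv, Or.inl ⟨?_, ?_⟩⟩
    · unfold yh
      rw [h]
      simp only [D, Complex.add_im, Complex.im_ofReal_mul]
      field_simp
    · rw [hx, h]
      simp only [D, Complex.add_re, Complex.re_ofReal_mul, div_eq_mul_inv]
      ring
  · refine ⟨u, hu, v, hv, Or.inr ⟨?_, ?_⟩⟩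
    · unfold yh
      rw [h]
      simp only [D, Complex.add_im, Complex.im_ofReal_mul]
      field_simp
    · rw [hx, h]
      simp only [D, Complex.add_re, Complex.re_ofReal_mul, div_eq_mul_inv]
      ring

theorem yh_bounds (p : (pat n).Chart) : 0 ≤ S.yh p ∧ S.yh p ≤ 1 + S.V.α := by
  have hκ := S.κ_lt
  have hα := S.V.α_pos
  have hα' := S.V.α_lt
  have hy := S.V.y1_pos
  have hy' := S.V.y1_lt
  obtain ⟨u, ⟨hu0, hu1⟩, v, ⟨hv0, hv1⟩, ⟨h, -⟩ | ⟨h, -⟩⟩ := S.coords p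
  · rw [h]
    constructor
    · positivity
    · nlinarith
  · rw [h]
    have : 0 < 1 - S.V.y1 := by linarith
    constructor
    · positivity
    · nlinarith

/-- `cc e g t` is small -/
theorem cc_small {e g t b : ℝ} (he : e = 1 ∨ e = -1) (hg : |g| ≤ b) (ht : 0 < t) (ht' : t < 1) :
    -(1 / 100 * b) ≤ cc * e * g * t ∧ cc * e * g * t ≤ 1 / 100 * b := by
  have hb : 0 ≤ b := (abs_nonneg g).trans hg
  rw [abs_le] at hg
  have h1 : -b ≤ g * t := by nlinarith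
  have h2 : g * t ≤ b := by nlinarith
  unfold cc
  rcases he with h | h <;> rw [h] <;> constructor <;> linarith

/-- the inequalities -/
theorem lens_end {L P P' Q α y1 u v y x : ℝ} (hL1 : 1 < L) (hL2 : L < 11 / 10)
    (hP : -(1 / 100) ≤ P ∧ P ≤ 1 / 100)
    (hP' : -(1 / 100 * α) ≤ P' ∧ P' ≤ 1 / 100 * α) (hQ : -(1 / 50) ≤ Q ∧ Q ≤ 1 / 50)
    (hα : 0 < α) (hα' : α < 1 / 1000) (hy : 0 < y1) (hy' : y1 < 1 / 1000)
    (hu0 : 0 ≤ u) (hu1 : u ≤ 1) (hv0 : 0 ≤ v) (hv1 : v ≤ 1)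
    (hc : (y = u * α + v * y1 ∧ L * x = u * (L + P') - Q) ∨
      (y = y1 + u * α + v * (1 - y1) ∧ L * x = u * (L + P') + v * P - Q)) :
    -1 < x ∧ x < 2 ∧ (((Q = 0 ∧ (y = 0 ∨ y = y1)) ∨ (Q = P ∧ 1 ≤ y)) → 0 ≤ x) ∧
      (((Q = P' ∧ (y = α ∨ y = α + y1)) ∨ (Q = P + P' ∧ y = 1 + α)) → x ≤ 1) := by
  have hL0 : 0 < L := by linarith
  have hC1 : 99 / 100 ≤ L + P' := by linarith
  have b1 : 0 ≤ u * (L + P') := by positivity
  have b2 : u * (L + P') ≤ L + P' := by nlinarith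
  have b3 : -(1 / 100) ≤ v * P := by nlinarith
  have b4 : v * P ≤ 1 / 100 := by nlinarith
  have pos : 0 ≤ L * x → 0 ≤ x := fun h => by
    by_contra hx
    push Not at hx
    nlinarith
  have le1 : L * x ≤ L → x ≤ 1 := fun h => by
    by_contra hx
    push Not at hx
    nlinarith
  refine ⟨?_, ?_, ?_, ?_⟩
  · rcases hc with ⟨-, h⟩ | ⟨-, h⟩ <;> nlinarith
  · rcases hc with ⟨-, h⟩ | ⟨-, h⟩ <;> nlinarith
  · rintro (⟨rfl, h1⟩ | ⟨rfl, h1⟩)
    · apply pos
      rcases hc with ⟨h2, h3⟩ | ⟨h2, h3⟩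
      · rw [h3]; linarith
      · have h4 : y ≤ y1 := by rcases h1 with h1 | h1 <;> linarith
        have h5 : 0 ≤ v * (1 - y1) := mul_nonneg hv0 (by linarith)
        have h6 : 0 ≤ u * α := mul_nonneg hu0 hα.le
        have h7 : v * (1 - y1) = 0 := by linarith
        have h8 : v = 0 := by
          rcases mul_eq_zero.1 h7 with h | h
          · exact h
          · linarith
        rw [h3, h8]; linarith
    · apply pos
      rcases hc with ⟨h2, h3⟩ | ⟨h2, h3⟩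
      · exfalso
        nlinarith
      · have h4 : (1 - v) * (1 - y1) ≤ u * α := by linarith
        have h4' : (1 - v) * y1 ≤ (1 - v) * (1 / 2) :=
          mul_le_mul_of_nonneg_left (by linarith) (by linarith)
        have h5 : 1 - v ≤ 2 * (u * α) := by linarith
        have h6 : (1 - v) * Q ≤ (1 - v) * (1 / 100) :=
          mul_le_mul_of_nonneg_left hP.2 (by linarith)
        have h8 : u * (99 / 100) ≤ u * (L + P') := mul_le_mul_of_nonneg_left hC1 hu0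
        have h9 : u * α ≤ u * (1 / 1000) := mul_le_mul_of_nonneg_left hα'.le hu0
        rw [h3]
        linarith
  · have key : (1 - u) * (99 / 100) ≤ (1 - u) * (L + P') :=
      mul_le_mul_of_nonneg_left hC1 (by linarith)
    rintro (⟨rfl, h1⟩ | ⟨h0, h1⟩)
    · apply le1
      rcases hc with ⟨h2, h3⟩ | ⟨h2, h3⟩
      · rw [h3]
        linarith
      · have h4 : y ≤ α + y1 := by rcases h1 with h1 | h1 <;> linarith
        have h5 : v * (1 - y1) ≤ (1 - u) * α := by linarith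
        have h5' : v * y1 ≤ v * (1 / 2) := mul_le_mul_of_nonneg_left (by linarith) hv0
        have h6 : v ≤ 2 * ((1 - u) * α) := by linarith
        have h7 : v * P ≤ v * (1 / 100) := mul_le_mul_of_nonneg_left hP.2 hv0
        have h8 : (1 - u) * α ≤ (1 - u) * (1 / 1000) :=
          mul_le_mul_of_nonneg_left hα'.le (by linarith)
        rw [h3]
        linarith
    · apply le1
      rcases hc with ⟨h2, h3⟩ | ⟨h2, h3⟩
      · exfalso
        nlinarith
      · have h4 : 0 ≤ (1 - u) * α := mul_nonneg (by linarith) hα.le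
        have h5 : 0 ≤ (1 - v) * (1 - y1) := mul_nonneg (by linarith) (by linarith)
        have h6 : (1 - u) * α + (1 - v) * (1 - y1) = 0 := by linarith
        have h7 : (1 - u) * α = 0 := by linarith
        have h8 : (1 - v) * (1 - y1) = 0 := by linarith
        have h9 : u = 1 := by
          rcases mul_eq_zero.1 h7 with h | h <;> linarith
        have h10 : v = 1 := by
          rcases mul_eq_zero.1 h8 with h | h <;> linarith
        rw [h3, h9, h10, h0]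
        linarith

/-- the lens conditions -/
theorem lens (p : (pat n).Chart) : Ln S.V.α S.V.y1 (S.xh p) (S.yh p) := by
  have hκ := S.κ_lt
  have hα := S.V.α_pos
  have hα' := S.V.α_lt
  have hy := S.V.y1_pos
  have hy' := S.V.y1_lt
  obtain ⟨hg1, hg2, hg3⟩ := S.gam_bounds
  obtain ⟨hyb0, hyb1⟩ := S.yh_bounds p
  obtain ⟨hl1, hl2, hl3⟩ := S.lam_inv (pc p)
  obtain ⟨hC1, hC2⟩ := S.C_re_bounds (pc p) (lb p)
  have hL1 := S.one_lt (pc p)
  have hL2 := S.lam_lt (pc p)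
  have hκ2 : κ ≤ 1 / 2 := by linarith
  have he := sg_cases (lb p)
  have hG : |S.V.G (S.yh p)| ≤ 2 := by
    have := S.V.abs_G_sub_le 0 (S.yh p)
    rw [S.V.G_zero, sub_zero, sub_zero, abs_of_nonneg hyb0] at this
    linarith
  have hg : |S.V.γ| ≤ 1 := by
    rw [abs_le]; constructor <;> linarith
  have hs1 := cc_small he hG (by linarith : (0 : ℝ) < (S.lam (pc p))⁻¹) hl3
  have hs2 := cc_small he hg (by linarith : (0 : ℝ) < (S.lam (pc p))⁻¹) hl3
  have hs3 := cc_small he hg3 (by linarith : (0 : ℝ) < (S.lam (pc p))⁻¹) hl3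
  -- the heights
  have hfl := Int.floor_add_fract (S.yh p)
  have hfl' := Int.floor_add_fract (S.yh p - S.V.α)
  have H1 : (Int.fract (S.yh p) = 0 ∨ Int.fract (S.yh p) = S.V.y1) →
      (S.V.G (S.yh p) = 0 ∧ (S.yh p = 0 ∨ S.yh p = S.V.y1)) ∨
      (S.V.G (S.yh p) = S.V.γ ∧ 1 ≤ S.yh p) := by
    rintro (h | h)
    · rw [h, add_zero] at hfl
      have h1 : (0 : ℤ) ≤ ⌊S.yh p⌋ := by
        rw [Int.le_floor]; push_cast; exact hyb0
      have h2 : ⌊S.yh p⌋ < 2 := by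
        rw [Int.floor_lt]; push_cast; linarith
      have h3 : ⌊S.yh p⌋ = 0 ∨ ⌊S.yh p⌋ = 1 := by omega
      rcases h3 with h3 | h3 <;> rw [h3] at hfl <;> push_cast at hfl
      · left; rw [← hfl]; exact ⟨S.V.G_zero, Or.inl rfl⟩
      · right; rw [← hfl]; exact ⟨rfl, le_rfl⟩
    · rw [h] at hfl
      have h1 : (0 : ℤ) ≤ ⌊S.yh p⌋ := by
        rw [Int.le_floor]; push_cast; exact hyb0
      have h2 : ⌊S.yh p⌋ < 2 := by
        rw [Int.floor_lt]; push_cast; linarith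
      have h3 : ⌊S.yh p⌋ = 0 ∨ ⌊S.yh p⌋ = 1 := by omega
      rcases h3 with h3 | h3 <;> rw [h3] at hfl <;> push_cast at hfl
      · left; rw [← hfl, zero_add]; exact ⟨S.V.G_y1 hκ2, Or.inr rfl⟩
      · right
        rw [← hfl, add_comm, S.V.G_add_one, S.V.G_y1 hκ2, zero_add]
        exact ⟨rfl, by linarith⟩
  have H2 : (Int.fract (S.yh p - S.V.α) = 0 ∨ Int.fract (S.yh p - S.V.α) = S.V.y1) →
      (S.V.G (S.yh p) = S.V.γ' ∧ (S.yh p = S.V.α ∨ S.yh p = S.V.α + S.V.y1)) ∨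
      (S.V.G (S.yh p) = S.V.γ + S.V.γ' ∧ S.yh p = 1 + S.V.α) := by
    rintro (h | h)
    · rw [h, add_zero] at hfl'
      have h1 : (-1 : ℤ) < ⌊S.yh p - S.V.α⌋ := by
        have : (-1 : ℝ) < ⌊S.yh p - S.V.α⌋ := by rw [hfl']; linarith
        exact_mod_cast this
      have h2 : ⌊S.yh p - S.V.α⌋ < 2 := by
        rw [Int.floor_lt]; push_cast; linarith
      have h3 : ⌊S.yh p - S.V.α⌋ = 0 ∨ ⌊S.yh p - S.V.α⌋ = 1 := by omega
      rcases h3 with h3 | h3 <;> rw [h3] at hfl' <;> push_cast at hfl'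
      · left
        have : S.yh p = S.V.α := by linarith
        rw [this]; exact ⟨rfl, Or.inl rfl⟩
      · right
        have h4 : S.yh p = S.V.α + 1 := by linarith
        rw [h4, S.V.G_add_one]
        exact ⟨add_comm _ _, by ring⟩
    · rw [h] at hfl'
      have h1 : (-1 : ℤ) < ⌊S.yh p - S.V.α⌋ := by
        have : (-1 : ℝ) < ⌊S.yh p - S.V.α⌋ := by linarith
        exact_mod_cast this
      have h2 : ⌊S.yh p - S.V.α⌋ < 1 := by
        have : (⌊S.yh p - S.V.α⌋ : ℝ) < 1 := by linarith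
        exact_mod_cast this
      have h3 : ⌊S.yh p - S.V.α⌋ = 0 := by omega
      rw [h3] at hfl'
      push_cast at hfl'
      left
      have h4 : S.yh p = S.V.y1 + S.V.α := by linarith
      rw [h4, S.V.G_add_alpha hκ2 le_rfl (by linarith), S.V.G_y1 hκ2, zero_add]
      exact ⟨rfl, Or.inr (add_comm _ _)⟩
  obtain ⟨u, ⟨hu0, hu1⟩, v, ⟨hv0, hv1⟩, hc⟩ := S.coords p
  have hc' : (S.yh p = u * S.V.α + v * S.V.y1 ∧
      S.lam (pc p) * S.xh p = u * (S.lam (pc p) + cc * sg (lb p) * S.V.γ' * (S.lam (pc p))⁻¹) -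
        cc * sg (lb p) * S.V.G (S.yh p) * (S.lam (pc p))⁻¹) ∨
    (S.yh p = S.V.y1 + u * S.V.α + v * (1 - S.V.y1) ∧
      S.lam (pc p) * S.xh p = u * (S.lam (pc p) + cc * sg (lb p) * S.V.γ' * (S.lam (pc p))⁻¹) +
        v * (cc * sg (lb p) * S.V.γ * (S.lam (pc p))⁻¹) -
        cc * sg (lb p) * S.V.G (S.yh p) * (S.lam (pc p))⁻¹) := hc
  obtain ⟨e1, e2, e3, e4⟩ := lens_end hL1 hL2 (P := cc * sg (lb p) * S.V.γ * (S.lam (pc p))⁻¹)
    ⟨by linarith [hs2.1], by linarith [hs2.2]⟩ hs3 ⟨by linarith [hs1.1], by linarith [hs1.2]⟩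
    hα (by linarith) hy (by linarith) hu0 hu1 hv0 hv1 hc'
  refine ⟨e1, e2, fun h => e3 ?_, fun h => e4 ?_⟩
  · rcases H1 h with ⟨h1, h2⟩ | ⟨h1, h2⟩
    · left; exact ⟨by rw [h1]; ring, h2⟩
    · right; exact ⟨by rw [h1], h2⟩
  · rcases H2 h with ⟨h1, h2⟩ | ⟨h1, h2⟩
    · left; exact ⟨by rw [h1], h2⟩
    · right; exact ⟨by rw [h1]; ring, h2⟩

/-- the lens conditions in a lift -/
theorem lens_lift {j : Fin n} {p : (pat n).Chart} {X Y : ℝ} {m k : ℤ} (hx : S.xh p = X - m)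
    (hy : S.yh p = Y - m * S.V.α - k) : Ln S.V.α S.V.y1 (X - m) (Y - m * S.V.α) := by
  have h := S.lens p
  rw [hx, hy] at h
  have h1 : Int.fract (Y - m * S.V.α - k) = Int.fract (Y - m * S.V.α) := Int.fract_sub_intCast _ _
  have h2 : Int.fract (Y - m * S.V.α - k - S.V.α) = Int.fract (Y - m * S.V.α - S.V.α) := by
    have h3 : Y - m * S.V.α - k - S.V.α = Y - m * S.V.α - S.V.α - k := by ring
    rw [h3]; exact Int.fract_sub_intCast _ _
  unfold Ln at h ⊢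
  rw [h1, h2] at h
  exact h

end Cfg

end Pool.Agent.H1.Horo
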