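import Pool.Agent.H1.Horo.Lens
import Pool.Agent.H1.Horo.Cyl

/-!
# Surfaces close to the example

PROOFS.  `λ = lam i ∈ (1, 11/10)`, `1/λ > 91/100` as `λ² < 6/5`; `κ < 1/1000`, `α, y1 < κ`, `l < κ/100`,
`1000 ε ≤ κ`, `2 ε ≤ α`.  The unperturbed values are `C = (λ + cc e γ'/λ, α/λ)`, `A = (cc e γ/λ, 1/λ)`,
`z = (0, y1/λ)`, `ρ = A - z`, `ell = (l, 0)`; the perturbed ones differ by less than `ε` in each coordinate
(`2 ε` for `A'`).
* `near_of_close`: `ell = edge ((0, n2), 1)`, `zz i = edge ((i, b1), 1)`, `rho i true = edge ((i, a3), 1)`,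
  `rho i false = edge ((i, b3), 1)`, `C i true = edge ((i, a1), 0)`, `C i false = edge ((i, b1), 0)`.
* `nice`: `|cr z' ρ'| ≤ |z'.re| |ρ'.im| + |z'.im| |ρ'.re| ≤ ε (11/10) + (κ + ε)(cc + ε) ≤ κ/10`, and
  `cr C' A' ≥ 98/100`; `|cr ell' A'| ≤ (l + ε)(1 + 2 ε) + ε (cc + 2 ε) ≤ κ/10`;
  `cr ell' C' ≤ (l + ε)(κ + ε) + ε (12/10) ≤ 1/100`, `cr C' ρ' ≥ 9/10`.
* `exists_eps`: minimum of finitely many positive numbers.
-/

namespace Pool.Agent.H1.Horo

open Set MeasureTheory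

namespace Cfg
variable {n : ℕ} {κ : ℝ}

structure Near (S : Cfg n κ) (D' : Par n) (ε : ℝ) : Prop where
  pos : D'.Pos
  ell : ‖D'.ell - S.D.ell‖ < ε
  zz : ∀ i, ‖D'.zz i - S.D.zz i‖ < ε
  rho : ∀ i e, ‖D'.rho i e - S.D.rho i e‖ < ε
  C : ∀ i e, ‖D'.C i e - S.D.C i e‖ < ε

structure Eps (S : Cfg n κ) (ε : ℝ) : Prop where
  pos : 0 < ε
  le_κ : 1000 * ε ≤ κ
  le_α : 2 * ε ≤ S.V.α
  gap : ∀ i j, i ≠ j → 5 * ε < |1 / S.lam i - 1 / S.lam j|

variable {S : Cfg n κ}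

theorem exists_eps (S : Cfg n κ) : ∃ ε, S.Eps ε := by
  have hgap : ∀ i j, i ≠ j → 0 < |1 / S.lam i - 1 / S.lam j| := by
    intro i j hij
    rw [abs_pos]
    intro h0
    apply hij
    apply S.inj
    have h1 : 1 / S.lam i = 1 / S.lam j := by linarith
    have h2 := S.lam_pos i
    have h3 := S.lam_pos j
    field_simp at h1
    linarith
  have hlin : ∀ c d : ℝ, 0 < c → 0 < d → ∀ᶠ ε in nhdsWithin (0 : ℝ) (Ioi 0), c * ε < d := by
    intro c d hc hd
    have h1 : ∀ᶠ ε in nhdsWithin (0 : ℝ) (Ioi 0), ε < d / c :=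
      (eventually_lt_nhds (div_pos hd hc)).filter_mono nhdsWithin_le_nhds
    filter_upwards [h1] with ε h
    rw [lt_div_iff₀ hc] at h
    linarith
  have h3 : ∀ᶠ ε in nhdsWithin (0 : ℝ) (Ioi 0), ∀ i j, i ≠ j →
      5 * ε < |1 / S.lam i - 1 / S.lam j| := by
    rw [Filter.eventually_all]
    intro i
    rw [Filter.eventually_all]
    intro j
    rw [Filter.eventually_imp_distrib_left]
    intro hij
    exact hlin 5 _ (by norm_num) (hgap i j hij)
  have h4 : ∀ᶠ ε in nhdsWithin (0 : ℝ) (Ioi 0), 0 < ε := self_mem_nhdsWithin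
  obtain ⟨ε, h5, h6, h7, h8⟩ := (h4.and ((hlin 1000 κ (by norm_num) S.κ_pos).and
    ((hlin 2 S.V.α (by norm_num) S.V.α_pos).and h3))).exists
  exact ⟨ε, h5, h6.le, h7.le, h8⟩

theorem near_of_close [NeZero n] {D' : Par n} (hD : D'.Pos) {ε : ℝ}
    (h : ∀ x, ‖D'.edge x - S.D.edge x‖ < ε) : S.Near D' ε := by
  refine ⟨hD, ?_, ?_, ?_, ?_⟩
  · exact h (((0 : Fin n), TT.n2), 1)
  · intro i
    exact h ((i, TT.b1), 1)
  · intro i e
    cases e
    · exact h ((i, TT.b3), 1)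
    · exact h ((i, TT.a3), 1)
  · intro i e
    cases e
    · exact h ((i, TT.b1), 0)
    · exact h ((i, TT.a1), 0)

variable {D' : Par n} {ε : ℝ}

theorem inv_lam (S : Cfg n κ) (i : Fin n) :
    91 / 100 < 1 / S.lam i ∧ 1 / S.lam i < 1 ∧ S.lam i * (1 / S.lam i) = 1 := by
  have h1 := S.lam_pos i
  have h2 := S.one_lt i
  have h3 := S.sq_lt i
  refine ⟨?_, ?_, ?_⟩
  · rw [lt_div_iff₀ h1]
    by_contra hc
    push Not at hc
    have h4 : 100 / 91 ≤ S.lam i := by linarith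
    nlinarith
  · rw [div_lt_one h1]; exact h2
  · field_simp

theorem re_lt_of_norm {a b : ℂ} (h : ‖a - b‖ < ε) : |a.re - b.re| < ε := by
  have h1 := Complex.abs_re_le_norm (a - b)
  rw [Complex.sub_re] at h1
  exact lt_of_le_of_lt h1 h

theorem im_lt_of_norm {a b : ℂ} (h : ‖a - b‖ < ε) : |a.im - b.im| < ε := by
  have h1 := Complex.abs_im_le_norm (a - b)
  rw [Complex.sub_im] at h1
  exact lt_of_le_of_lt h1 h

theorem zz_re' (hN : S.Near D' ε) (i : Fin n) : |(D'.zz i).re| < ε := by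
  have h := re_lt_of_norm (hN.zz i)
  simpa [D] using h

theorem zz_im' (hN : S.Near D' ε) (i : Fin n) :
    |(D'.zz i).im - S.V.y1 * (1 / S.lam i)| < ε := by
  have h := im_lt_of_norm (hN.zz i)
  simpa [D, div_eq_mul_inv] using h

theorem rho_re' (hN : S.Near D' ε) (i : Fin n) (e : Bool) :
    |(D'.rho i e).re - cc * sg e * S.V.γ * (1 / S.lam i)| < ε := by
  have h := re_lt_of_norm (hN.rho i e)
  simpa [D, div_eq_mul_inv] using h

theorem rho_im' (hN : S.Near D' ε) (i : Fin n) (e : Bool) :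
    |(D'.rho i e).im - (1 - S.V.y1) * (1 / S.lam i)| < ε := by
  have h := im_lt_of_norm (hN.rho i e)
  simpa [D, div_eq_mul_inv] using h

theorem C_re' (hN : S.Near D' ε) (i : Fin n) (e : Bool) :
    |(D'.C i e).re - (S.lam i + cc * sg e * S.V.γ' * (1 / S.lam i))| < ε := by
  have h := re_lt_of_norm (hN.C i e)
  simpa [D, div_eq_mul_inv] using h

theorem C_im' (hN : S.Near D' ε) (i : Fin n) (e : Bool) :
    |(D'.C i e).im - S.V.α * (1 / S.lam i)| < ε := by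
  have h := im_lt_of_norm (hN.C i e)
  simpa [D, div_eq_mul_inv] using h

theorem ell_re' (hN : S.Near D' ε) : |D'.ell.re - S.l| < ε := by
  have h := re_lt_of_norm hN.ell
  simpa [D] using h

theorem ell_im' (hN : S.Near D' ε) : |D'.ell.im| < ε := by
  have h := im_lt_of_norm hN.ell
  simpa [D] using h

theorem l_small (S : Cfg n κ) (i : Fin n) : 100 * S.l < κ := by
  have h1 := S.l_lt
  have h2 := S.l_pos
  have h3 : (1 : ℝ) ≤ n := by
    have : 0 < n := Fin.pos i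
    exact_mod_cast this
  nlinarith

/-- small quantities: products of the perturbation sizes -/
theorem small_mul {c x a : ℝ} (ha0 : 0 < a) (ha : a < 1) (hx : |x| ≤ c) : |x * a| ≤ c := by
  rw [abs_mul, abs_of_pos ha0]
  have := abs_nonneg x
  nlinarith

theorem abs_sg (e : Bool) : |sg e| = 1 := by
  cases e <;> simp

/-- all bounds -/
theorem all_bounds (hN : S.Near D' ε) (hE : S.Eps ε) (i : Fin n) (e : Bool) :
    (|(D'.zz i).re| ≤ κ / 1000 ∧ |(D'.zz i).im| ≤ 1001 / 1000 * κ) ∧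
    (|(D'.rho i e).re| ≤ 1001 / 100000 ∧ |(D'.rho i e).im| ≤ 1001 / 1000 ∧
      998 / 1000 * (1 / S.lam i) ≤ (D'.rho i e).im) ∧
    (|(D'.C i e).re - S.lam i| ≤ 11 / 1000 * κ ∧ |(D'.C i e).im| ≤ 1001 / 1000 * κ) ∧
    (|D'.ell.re| ≤ 11 / 1000 * κ ∧ |D'.ell.im| ≤ κ / 1000) ∧
    (|(D'.A i e).re| ≤ 1002 / 100000 ∧ |(D'.A i e).im - 1 / S.lam i| < 2 * ε) := by
  obtain ⟨ha1, ha2, ha3⟩ := inv_lam S i
  have ha0 : 0 < 1 / S.lam i := by linarith
  set a := 1 / S.lam i with ha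
  have hκ := S.κ_pos
  have hκ2 := S.κ_lt
  have he := hE.le_κ
  have he0 := hE.pos
  have hα := S.V.α_pos
  have hα2 := S.V.α_lt
  have hy := S.V.y1_pos
  have hy2 := S.V.y1_lt
  have hl := l_small S i
  have hl0 := S.l_pos
  have hg1 := S.V.gam_le
  have hg2 := S.V.le_gam
  have hg' := S.V.abs_gam'
  have b1 := zz_re' hN i
  have b2 := zz_im' hN i
  have b3 := rho_re' hN i e
  have b4 := rho_im' hN i e
  have b5 := C_re' hN i e
  have b6 := C_im' hN i e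
  have b7 := ell_re' hN
  have b8 := ell_im' hN
  rw [← ha] at b2 b3 b4 b5 b6
  have hγ : |cc * sg e * S.V.γ * a| ≤ 1 / 100 := by
    apply small_mul ha0 ha2
    rw [abs_mul, abs_mul, abs_sg]
    have : |S.V.γ| ≤ 1 := by rw [abs_le]; constructor <;> linarith
    have h2 : |cc| = 1 / 100 := by rw [cc]; norm_num
    rw [h2]; linarith
  have hγ' : |cc * sg e * S.V.γ' * a| ≤ κ / 100 := by
    apply small_mul ha0 ha2
    rw [abs_mul, abs_mul, abs_sg]
    have h2 : |cc| = 1 / 100 := by rw [cc]; norm_num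
    rw [h2]; linarith
  have hya : |S.V.y1 * a| ≤ κ := small_mul ha0 ha2 (by rw [abs_of_pos hy]; exact hy2.le)
  have hαa : |S.V.α * a| ≤ κ := small_mul ha0 ha2 (by rw [abs_of_pos hα]; exact hα2.le)
  have hya2 : S.V.y1 * a ≤ 1 / 1000 * a := by
    apply mul_le_mul_of_nonneg_right _ ha0.le
    linarith
  have hya3 : 0 < S.V.y1 * a := by positivity
  rw [abs_lt] at b1 b2 b3 b4 b5 b6 b7 b8
  rw [abs_le] at hγ hγ' hya hαa
  refine ⟨⟨?_, ?_⟩, ⟨?_, ?_, ?_⟩, ⟨?_, ?_⟩, ⟨?_, ?_⟩, ⟨?_, ?_⟩⟩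
  · rw [abs_le]; constructor <;> linarith
  · rw [abs_le]; constructor <;> linarith
  · rw [abs_le]; constructor <;> linarith
  · rw [abs_le]; constructor <;> linarith
  · linarith
  · rw [abs_le]; constructor <;> linarith
  · rw [abs_le]; constructor <;> linarith
  · rw [abs_le]; constructor <;> linarith
  · rw [abs_le]; constructor <;> linarith
  · rw [abs_le, Par.A, Complex.add_re]; constructor <;> linarith
  · rw [abs_lt, Par.A, Complex.add_im]; constructor <;> linarith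

theorem abs_cr_le {u v : ℂ} {a b c d : ℝ} (h1 : |u.re| ≤ a) (h2 : |v.im| ≤ b)
    (h3 : |u.im| ≤ c) (h4 : |v.re| ≤ d) : |cr u v| ≤ a * b + c * d := by
  have h5 : |u.re * v.im| ≤ a * b := by
    rw [abs_mul]
    exact mul_le_mul h1 h2 (abs_nonneg _) ((abs_nonneg _).trans h1)
  have h6 : |u.im * v.re| ≤ c * d := by
    rw [abs_mul]
    exact mul_le_mul h3 h4 (abs_nonneg _) ((abs_nonneg _).trans h3)
  calc |cr u v| = |u.re * v.im - u.im * v.re| := rfl
    _ ≤ |u.re * v.im| + |u.im * v.re| := abs_sub _ _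
    _ ≤ _ := add_le_add h5 h6

theorem cr_CA_aux (hN : S.Near D' ε) (hE : S.Eps ε) (i : Fin n) (e : Bool) :
    98 / 100 < cr (D'.C i e) (D'.A i e) ∧ cr (D'.C i e) (D'.A i e) < 102 / 100 := by
  obtain ⟨⟨h1, h2⟩, ⟨h3, h4, h5⟩, ⟨h6, h7⟩, ⟨h8, h9⟩, ⟨h10, h11⟩⟩ := all_bounds hN hE i e
  obtain ⟨ha1, ha2, ha3⟩ := inv_lam S i
  have hκ := S.κ_pos
  have hκ2 := S.κ_lt
  have he := hE.le_κ
  have he0 := hE.pos
  have hlam := S.lam_lt i
  have hlam1 := S.one_lt i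
  set a := 1 / S.lam i with ha
  obtain ⟨s, hs⟩ : ∃ s, s = (D'.C i e).re - S.lam i := ⟨_, rfl⟩
  obtain ⟨t, ht⟩ : ∃ t, t = (D'.A i e).im - a := ⟨_, rfl⟩
  rw [← hs] at h6
  rw [← ht] at h11
  have hs' : |s| ≤ 1 / 10000 := by linarith
  have ht' : |t| ≤ 1 / 10000 := by linarith
  have e1 : cr (D'.C i e) (D'.A i e) = 1 + (s * a + t * S.lam i + s * t
      - (D'.C i e).im * (D'.A i e).re) := by
    have e2 : (D'.C i e).re = S.lam i + s := by rw [hs]; ring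
    have e3 : (D'.A i e).im = a + t := by rw [ht]; ring
    rw [cr, e2, e3]
    linear_combination ha3
  have q1 : |s * a| ≤ 1 / 10000 * 1 := by
    rw [abs_mul, abs_of_pos (by linarith : 0 < a)]
    exact mul_le_mul hs' ha2.le (by linarith) (by norm_num)
  have q2 : |t * S.lam i| ≤ 1 / 10000 * 2 := by
    rw [abs_mul, abs_of_pos (S.lam_pos i)]
    exact mul_le_mul ht' (by linarith) (by linarith) (by norm_num)
  have q3 : |s * t| ≤ 1 / 10000 * 1 := by
    rw [abs_mul]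
    exact mul_le_mul hs' (by linarith) (abs_nonneg _) (by norm_num)
  have q4 : |(D'.C i e).im * (D'.A i e).re| ≤ 1 / 100 * (1 / 10) := by
    rw [abs_mul]
    exact mul_le_mul (by linarith) (by linarith) (abs_nonneg _) (by norm_num)
  rw [abs_le] at q1 q2 q3 q4
  rw [e1]
  constructor <;> linarith

theorem cr_Cρ_aux (hN : S.Near D' ε) (hE : S.Eps ε) (i : Fin n) (e : Bool) :
    9 / 10 < cr (D'.C i e) (D'.rho i e) := by
  obtain ⟨⟨h1, h2⟩, ⟨h3, h4, h5⟩, ⟨h6, h7⟩, ⟨h8, h9⟩, ⟨h10, h11⟩⟩ := all_bounds hN hE i e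
  obtain ⟨ha1, ha2, ha3⟩ := inv_lam S i
  have hκ := S.κ_pos
  have hκ2 := S.κ_lt
  have hlam := S.lam_lt i
  have hlam1 := S.one_lt i
  set a := 1 / S.lam i with ha
  have q4 : |(D'.C i e).im * (D'.rho i e).re| ≤ 1 / 100 * (1 / 10) := by
    rw [abs_mul]
    exact mul_le_mul (by linarith) (by linarith) (abs_nonneg _) (by norm_num)
  rw [abs_le] at q4 h6
  have q5 : S.lam i - 1 / 10000 ≤ (D'.C i e).re := by linarith
  have q6 : (S.lam i - 1 / 10000) * (998 / 1000 * a) ≤ (D'.C i e).re * (D'.rho i e).im :=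
    mul_le_mul q5 h5 (by linarith) (by linarith)
  have q7 : (S.lam i - 1 / 10000) * (998 / 1000 * a) = 998 / 1000 - 1 / 10000 * (998 / 1000) * a := by
    linear_combination (998 / 1000) * ha3
  rw [cr]
  linarith

theorem nice (hN : S.Near D' ε) (hE : S.Eps ε) : D'.Nice κ := by
  have hκ := S.κ_pos
  have hκ2 := S.κ_lt
  refine ⟨hN.pos, ?_, ?_, ?_⟩
  · intro i e
    obtain ⟨⟨h1, h2⟩, ⟨h3, h4, h5⟩, ⟨h6, h7⟩, ⟨h8, h9⟩, ⟨h10, h11⟩⟩ := all_bounds hN hE i e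
    have h := abs_cr_le h1 h4 h2 h3
    have h' := (cr_CA_aux hN hE i e).1
    nlinarith
  · intro i
    obtain ⟨⟨h1, h2⟩, ⟨h3, h4, h5⟩, ⟨h6, h7⟩, ⟨h8, h9⟩, ⟨h10, h11⟩⟩ := all_bounds hN hE i true
    obtain ⟨ha1, ha2, ha3⟩ := inv_lam S i
    have he := hE.le_κ
    have h12 : |(D'.A i true).im| ≤ 101 / 100 := by
      rw [abs_lt] at h11
      rw [abs_le]
      constructor <;> linarith
    have h := abs_cr_le h8 h12 h9 h10
    have h' := (cr_CA_aux hN hE i true).1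
    nlinarith
  · intro i
    obtain ⟨⟨h1, h2⟩, ⟨h3, h4, h5⟩, ⟨h6, h7⟩, ⟨h8, h9⟩, ⟨h10, h11⟩⟩ := all_bounds hN hE i true
    have hlam := S.lam_lt i
    have hlam1 := S.one_lt i
    have h12 : |(D'.C i true).re| ≤ 12 / 10 := by
      rw [abs_le] at h6
      rw [abs_le]
      constructor <;> linarith
    have h := abs_cr_le h8 h7 h9 h12
    have h' := cr_Cρ_aux hN hE i true
    have h13 := le_abs_self (cr D'.ell (D'.C i true))
    nlinarith

theorem C_re (hN : S.Near D' ε) (hE : S.Eps ε) (i : Fin n) (e : Bool) :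
    9 / 10 < (D'.C i e).re ∧ (D'.C i e).re < 12 / 10 := by
  obtain ⟨-, -, ⟨h6, h7⟩, -, -⟩ := all_bounds hN hE i e
  have hκ := S.κ_pos
  have hκ2 := S.κ_lt
  have hlam := S.lam_lt i
  have hlam1 := S.one_lt i
  rw [abs_le] at h6
  constructor <;> linarith

theorem C_im (hN : S.Near D' ε) (hE : S.Eps ε) (i : Fin n) (e : Bool) :
    0 < (D'.C i e).im ∧ (D'.C i e).im < 1 / 100 := by
  obtain ⟨-, -, ⟨h6, h7⟩, -, -⟩ := all_bounds hN hE i e
  have hκ := S.κ_pos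
  have hκ2 := S.κ_lt
  have hb := C_im' hN i e
  obtain ⟨ha1, ha2, ha3⟩ := inv_lam S i
  have hα := hE.le_α
  have he := hE.pos
  rw [abs_le] at h7
  rw [abs_lt] at hb
  constructor
  · have h1 : 2 * ε * (91 / 100) ≤ S.V.α * (1 / S.lam i) :=
      mul_le_mul hα ha1.le (by norm_num) S.V.α_pos.le
    linarith
  · linarith

theorem A_im (hN : S.Near D' ε) (hE : S.Eps ε) (i : Fin n) (e : Bool) :
    9 / 10 < (D'.A i e).im ∧ (D'.A i e).im < 101 / 100 := by
  obtain ⟨-, -, -, -, ⟨h10, h11⟩⟩ := all_bounds hN hE i e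
  have hκ2 := S.κ_lt
  obtain ⟨ha1, ha2, ha3⟩ := inv_lam S i
  have he := hE.le_κ
  rw [abs_lt] at h11
  constructor <;> linarith

theorem A_re (hN : S.Near D' ε) (hE : S.Eps ε) (i : Fin n) (e : Bool) :
    |(D'.A i e).re| < 2 / 100 := by
  obtain ⟨-, -, -, -, ⟨h10, h11⟩⟩ := all_bounds hN hE i e
  linarith

theorem A_im_diff (hN : S.Near D' ε) (hE : S.Eps ε) (i i' : Fin n) (e e' : Bool) :
    |(D'.A i e).im - (D'.A i' e').im| ≤ 1 / 10 := by
  obtain ⟨-, -, -, -, ⟨h10, h11⟩⟩ := all_bounds hN hE i e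
  obtain ⟨-, -, -, -, ⟨h10', h11'⟩⟩ := all_bounds hN hE i' e'
  have hκ2 := S.κ_lt
  obtain ⟨ha1, ha2, ha3⟩ := inv_lam S i
  obtain ⟨ha1', ha2', ha3'⟩ := inv_lam S i'
  have he := hE.le_κ
  rw [abs_lt] at h11 h11'
  rw [abs_le]
  constructor <;> linarith

theorem A_im_eq (hN : S.Near D' ε) (hE : S.Eps ε) {i i' : Fin n} {e e' : Bool}
    (h : (D'.A i e).im = (D'.A i' e').im) : i = i' := by
  by_contra hne
  obtain ⟨-, -, -, -, ⟨h10, h11⟩⟩ := all_bounds hN hE i e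
  obtain ⟨-, -, -, -, ⟨h10', h11'⟩⟩ := all_bounds hN hE i' e'
  have hg := hE.gap i i' hne
  have he := hE.pos
  rw [abs_lt] at h11 h11'
  have h3 : |1 / S.lam i - 1 / S.lam i'| ≤ 4 * ε := by
    rw [abs_le]
    constructor <;> linarith
  linarith

/-- the difference of the horizontal holonomies of the two tori of a piece -/
theorem A_re_diff (hN : S.Near D' ε) (hE : S.Eps ε) (i : Fin n) :
    2 * cc * (1 - 5 / 2 * κ) * (D'.A i true).im ≤ (D'.A i true).re - (D'.A i false).re := by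
  obtain ⟨-, -, -, -, ⟨h10, h11⟩⟩ := all_bounds hN hE i true
  have hκ := S.κ_pos
  have hκ2 := S.κ_lt
  obtain ⟨ha1, ha2, ha3⟩ := inv_lam S i
  have he := hE.le_κ
  have he0 := hE.pos
  have hg2 := S.V.le_gam
  have b1 := rho_re' hN i true
  have b2 := rho_re' hN i false
  have e1 : (D'.A i true).re - (D'.A i false).re = (D'.rho i true).re - (D'.rho i false).re := by
    simp [Par.A]
  rw [e1]
  set a := 1 / S.lam i with ha
  simp only [sg_true, sg_false, cc] at b1 b2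
  rw [abs_lt] at b1 b2 h11
  have h1 : (1 - 2 * κ) * a ≤ S.V.γ * a := mul_le_mul_of_nonneg_right hg2 (by linarith)
  have h2 : (1 - 5 / 2 * κ) * (D'.A i true).im ≤ (1 - 5 / 2 * κ) * (a + 2 * ε) :=
    mul_le_mul_of_nonneg_left (by linarith) (by linarith)
  have h3 : κ * (91 / 100) ≤ κ * a := mul_le_mul_of_nonneg_left ha1.le hκ.le
  have h4 : 0 ≤ κ * ε := by positivity
  have h5 : (1 - 5 / 2 * κ) * (a + 2 * ε) ≤ (1 - 2 * κ) * a - 1 / 2 * (κ * a) + 2 * ε := by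
    nlinarith
  rw [cc]
  linarith

theorem cr_CA (hN : S.Near D' ε) (hE : S.Eps ε) (i : Fin n) (e : Bool) :
    98 / 100 < cr (D'.C i e) (D'.A i e) ∧ cr (D'.C i e) (D'.A i e) < 102 / 100 :=
  cr_CA_aux hN hE i e

theorem cr_Cρ (hN : S.Near D' ε) (hE : S.Eps ε) (i : Fin n) (e : Bool) :
    9 / 10 < cr (D'.C i e) (D'.rho i e) :=
  cr_Cρ_aux hN hE i e

theorem tri_sides (hN : S.Near D' ε) (hE : S.Eps ε) (f : Fin n × TT) :
    |(D'.edge (f, 0)).re| ≤ 3 / 2 ∧ |(D'.edge (f, 0)).re + (D'.edge (f, 1)).re| ≤ 3 / 2 := by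
  obtain ⟨i, t⟩ := f
  obtain ⟨⟨h1, h2⟩, ⟨h3, h4, h5⟩, -, ⟨h8, h9⟩, ⟨h10, h11⟩⟩ := all_bounds hN hE i true
  obtain ⟨-, ⟨h3', h4', h5'⟩, -, -, -⟩ := all_bounds hN hE i false
  have c1 := C_re hN hE i true
  have c2 := C_re hN hE i false
  have hκ := S.κ_pos
  have hκ2 := S.κ_lt
  rw [abs_le] at h1 h3 h3' h8
  cases t <;> simp only [Par.edge, Complex.add_re, Complex.neg_re, Complex.sub_re] <;>
    refine ⟨?_, ?_⟩ <;> rw [abs_le] <;> constructor <;> linarith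

/-- the triangles are not too wide -/
theorem tri_width [NeZero n] (hN : S.Near D' ε) (hE : S.Eps ε) {p p' : (pat n).Chart}
    (h : p.1.1 = p'.1.1) :
    (((pat n).pos D'.edge p).re - ((pat n).pos D'.edge p').re) ≤ 3 := by
  have key : ∀ q : (pat n).Chart, |((pat n).pos D'.edge q).re| ≤ 3 / 2 := by
    intro q
    obtain ⟨w1, w2⟩ := tri_sides hN hE q.1.1
    have hq := q.2
    have hn0 := hq.1 0
    have hn1 := hq.1 1
    have hn2 := hq.1 2
    have hs := hq.2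
    rw [Fin.sum_univ_three] at hs
    have e1 : ((pat n).pos D'.edge q).re = q.1.2 1 * (D'.edge (q.1.1, 0)).re +
        q.1.2 2 * ((D'.edge (q.1.1, 0)).re + (D'.edge (q.1.1, 1)).re) := by
      simp [Pattern.pos]
      rfl
    rw [e1]
    have h1 : |q.1.2 1 * (D'.edge (q.1.1, 0)).re| ≤ q.1.2 1 * (3 / 2) := by
      rw [abs_mul, abs_of_nonneg hn1]
      exact mul_le_mul_of_nonneg_left w1 hn1
    have h2 : |q.1.2 2 * ((D'.edge (q.1.1, 0)).re + (D'.edge (q.1.1, 1)).re)| ≤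
        q.1.2 2 * (3 / 2) := by
      rw [abs_mul, abs_of_nonneg hn2]
      exact mul_le_mul_of_nonneg_left w2 hn2
    refine (abs_add_le _ _).trans ?_
    linarith
  have h1 := abs_le.1 (key p)
  have h2 := abs_le.1 (key p')
  linarith

end Cfg

end Pool.Agent.H1.Horo
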