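import Pool.Agent.H1.Horo.Box

/-!
# The parity contradiction

PROOF of `no_parity`.  `λ = lam j`, `a = r p`, `b = r / p`, `x = (X, Y) ∈ Box`.  Suppose that no
`w ∈ Svec` satisfies `|w.1 + s/λ² w.2| ≤ r0 p`, `|w.2| ≤ r0 / p`.
Let `p1, p2` be the chart points given by `h1`, `h2`, `γ1, γ2` the straight paths of
holonomy `w = (- s b, b)` starting at `mk p1`, `mk p2` (goodness).  Apply `lift` with
`(X0, Y0) = (X, Y)` resp. `(X + a/λ, Y)` and `σ0 = sg (lb) * kk m Y` (with the integers of `GoodPos`); one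
gets tracks `(Y + t λ b, X1 t, σ1 t)`,
`(Y + t λ b, X2 t, σ2 t)` with `λ X1 t = λ X - s b t - cc b I1 t`, `λ X2 t = λ X + a - s b t - cc b I2 t`,
`|I1 t|, |I2 t| ≤ t ≤ 1` (integrals over `[0,t]` of `f` with values `1, -1`;
`intervalIntegral.norm_integral_le_of_norm_le_const`).
Apply `planar` with `Y0 = Y`, `η = λ b`: `X1 < X2` as `a > 2 cc b` (`p ≥ 1`, `cc = 1/100`); at
`t0 = - Y/(λ b) ∈ (0,1)`:
`λ X1 t0 = λ X + s Y/λ - cc b I1 < - cc b + cc b = 0`; `λ X2 t0 > (-a + cc b) + a - cc b = 0`.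
`hno`: if `fract (Y t - m α) ∈ {0, y1}` and `X1 t ≤ m ≤ X2 t` let `w' = (m, Y t)`, i.e. `Y t = m α + k` or
`m α + k + y1` with `k = ⌊Y t - m α⌋`;
`λ m + s (Y t)/λ ∈ [λ X + s Y/λ - cc b, λ X + s Y/λ + a + cc b] ⊆ (-a, a)` and
`|Y t| < λ b`, so `|m + s/λ² Y t| < a/λ ≤ r0 p`, `|Y t| ≤ (11/10) r / p ≤ r0 / p`, and `w'` is not in
`Svec` by assumption; but it is of the form of the vectors of `Svec`, unless `m = 0 = k` and `Y t = 0`.
The conclusion of `planar` is `σ1 1 σ2 1 = - σ1 0 σ2 0`.  By `f_eq` at `t = 0` and `t = 1`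
(`Y, Y + λ b ∉ N0`; the chart points `p1` at `t = 0`, `Quot.out (γ 1)` at `t = 1`):
`f (γi 0) = σi 0 φ (Y)`, `f (γi 1) = σi 1 φ (Y + λ b)`; goodness says
`f (γi 1) = f (γi 0)`, so (the values of `φ` being `1, -1`)
`σ1 1 σ2 1 = f (γ1 1) f (γ2 1) = f (γ1 0) f (γ2 0) = σ1 0 σ2 0`, a contradiction
(`σi 0 = σ0` is `1` or `-1` by `kk_val`).
-/

namespace Pool.Agent.H1.Horo

open Set MeasureTheory

namespace Cfg
variable {n : ℕ} {κ : ℝ} [NeZero n] (S : Cfg n κ)

theorem nopar_int (γ : ℝ → (pat n).Pt) {t : ℝ} (ht : t ∈ Icc (0 : ℝ) 1) :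
    |∫ r in (0 : ℝ)..t, S.f (γ r)| ≤ 1 := by
  have h := intervalIntegral.norm_integral_le_of_norm_le_const (a := (0 : ℝ)) (b := t) (C := 1)
    (f := fun r => S.f (γ r)) (fun r _ => by
      rcases S.f_val (γ r) with h | h <;> rw [h] <;> simp)
  rw [Real.norm_eq_abs, sub_zero, one_mul, abs_of_nonneg ht.1] at h
  exact h.trans ht.2

/-- a good lift of a point -/
theorem nopar_track {j : Fin n} {s b : ℝ} (hb : 0 < b) {x : ℝ × ℝ} (h : x ∈ S.GoodPos j s b)
    (hY : x.2 ∉ S.V.N0) (hY' : x.2 + S.lam j * b ∉ S.V.N0) :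
    ∃ (X σ I : ℝ → ℝ), (σ 0 = 1 ∨ σ 0 = -1) ∧
      IsTrack S.V.α S.V.y1 (fun t => x.2 + t * (S.lam j * b)) X σ ∧
      (∀ t ∈ Icc (0 : ℝ) 1, |I t| ≤ 1 ∧ S.lam j * X t = S.lam j * x.1 - t * (s * b) -
        cc * b * I t) ∧ σ 1 * S.V.φ (x.2 + S.lam j * b) = σ 0 * S.V.φ x.2 := by
  obtain ⟨p, hp, ⟨γ, hγ, hγ0, hreg, hf⟩, m, k, hx, hy⟩ := h
  have hw : (⟨-(s * b), b⟩ : ℂ).im ≠ 0 := hb.ne'
  have hL : S.Lft j p x.1 x.2 (sg (lb p) * kk S.V.α S.V.y1 m x.2) := ⟨hp, m, k, hx, hy, rfl⟩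
  obtain ⟨-, σ, hσ0, hT, hA⟩ := S.lift hγ hw hreg hγ0.symm hL
  refine ⟨S.Xt j x.1 ⟨-(s * b), b⟩ γ, σ, fun t => ∫ r in (0 : ℝ)..t, S.f (γ r), ?_, hT, ?_, ?_⟩
  · rw [hσ0]
    rcases kk_val S.V.α S.V.y1 m x.2 with h | h <;> rw [h] <;> cases lb p <;> simp
  · intro t ht
    refine ⟨S.nopar_int γ ht, ?_⟩
    have hl := S.lam_pos j
    unfold Xt
    simp only
    field_simp
    ring
  · have h0 : (0 : ℝ) ∈ Icc (0 : ℝ) 1 := ⟨le_rfl, zero_le_one⟩
    have h1 : (1 : ℝ) ∈ Icc (0 : ℝ) 1 := ⟨zero_le_one, le_rfl⟩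
    have e0 : S.Yt j x.2 ⟨-(s * b), b⟩ 0 = x.2 := by simp [Yt]
    have e1 : S.Yt j x.2 ⟨-(s * b), b⟩ 1 = x.2 + S.lam j * b := by simp [Yt]
    have f0 : S.f (γ 0) = σ 0 * S.V.φ x.2 := by
      have hA0 := hA 0 h0 p hγ0.symm
      rw [e0] at hA0
      have hr0 := hreg 0 h0
      rw [hγ0] at hr0 ⊢
      exact S.f_eq hA0 hr0 hY
    have f1 : S.f (γ 1) = σ 1 * S.V.φ (x.2 + S.lam j * b) := by
      have hq : Quot.mk (pat n).Glued (Quot.out (γ 1)) = γ 1 := Quot.out_eq _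
      have hA1 := hA 1 h1 (Quot.out (γ 1)) hq
      rw [e1] at hA1
      have hr1 := hreg 1 h1
      rw [← hq] at hr1
      have h3 := S.f_eq hA1 hr1 hY'
      rw [hq] at h3
      exact h3
    rw [← f1, ← f0, hf]

/-- the parity contradiction -/
theorem no_parity {j : Fin n} {s p r r0 : ℝ} (hr : 0 < r) (hr0 : 11 / 10 * r ≤ r0) (hp : 1 ≤ p)
    {x : ℝ × ℝ} (hx : x ∈ Box (S.lam j) s (r * p) (r / p) 0)
    (h1 : x ∈ S.GoodPos j s (r / p)) (h2 : (x.1 + r * p / S.lam j, x.2) ∈ S.GoodPos j s (r / p))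
    (hY : x.2 ∉ S.V.N0) (hY' : x.2 + S.lam j * (r / p) ∉ S.V.N0) :
    ∃ w ∈ Svec S.V.α S.V.y1, |w.1 + s / S.lam j ^ 2 * w.2| ≤ r0 * p ∧ |w.2| ≤ r0 / p := by
  by_contra hcon
  have hl := S.lam_pos j
  have hl1 := S.one_lt j
  have hl2 := S.lam_lt j
  have hp0 : (0 : ℝ) < p := zero_lt_one.trans_le hp
  have hb : 0 < r / p := div_pos hr hp0
  have hbr : r / p ≤ r := div_le_self hr.le hp
  have har : r ≤ r * p := le_mul_of_one_le_right hr.le hp
  obtain ⟨hx1, hx2, hx3, hx4⟩ := hx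
  rw [sub_zero] at hx3 hx4
  obtain ⟨X1, σ1, I1, hv1, T1, hI1, hf1⟩ := S.nopar_track hb h1 hY hY'
  obtain ⟨X2, σ2, I2, hv2, T2, hI2, hf2⟩ := S.nopar_track hb h2 hY hY'
  simp only at T2 hI2 hf2
  have hcc : cc = 1 / 100 := rfl
  have hccb : 0 < cc * (r / p) := by rw [hcc]; positivity
  have e2 : S.lam j * (x.1 + r * p / S.lam j) = S.lam j * x.1 + r * p := by
    field_simp
  have hη : 0 < S.lam j * (r / p) := mul_pos hl hb
  -- the perturbation terms
  have hI1' : ∀ t ∈ Icc (0 : ℝ) 1, -(cc * (r / p)) ≤ cc * (r / p) * I1 t ∧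
      cc * (r / p) * I1 t ≤ cc * (r / p) := by
    intro t ht
    obtain ⟨h3, h4⟩ := abs_le.1 (hI1 t ht).1
    constructor <;> nlinarith
  have hI2' : ∀ t ∈ Icc (0 : ℝ) 1, -(cc * (r / p)) ≤ cc * (r / p) * I2 t ∧
      cc * (r / p) * I2 t ≤ cc * (r / p) := by
    intro t ht
    obtain ⟨h3, h4⟩ := abs_le.1 (hI2 t ht).1
    constructor <;> nlinarith
  have h2cc : 2 * (cc * (r / p)) < r * p := by
    rw [hcc]
    linarith
  -- heights relative to the shear
  have hs1 : ∀ t ∈ Icc (0 : ℝ) 1, S.lam j * X1 t + s * (x.2 + t * (S.lam j * (r / p))) / S.lam j =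
      S.lam j * x.1 + s * x.2 / S.lam j - cc * (r / p) * I1 t := by
    intro t ht
    rw [(hI1 t ht).2]
    field_simp
    ring
  have hs2 : ∀ t ∈ Icc (0 : ℝ) 1, S.lam j * X2 t + s * (x.2 + t * (S.lam j * (r / p))) / S.lam j =
      S.lam j * x.1 + r * p + s * x.2 / S.lam j - cc * (r / p) * I2 t := by
    intro t ht
    rw [(hI2 t ht).2, e2]
    field_simp
    ring
  have ht0 : -x.2 / (S.lam j * (r / p)) ∈ Icc (0 : ℝ) 1 := by
    constructor
    · exact div_nonneg (by linarith) hη.le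
    · rw [div_le_one hη]
      linarith
  have hYt0 : x.2 + -x.2 / (S.lam j * (r / p)) * (S.lam j * (r / p)) = 0 := by
    rw [div_mul_cancel₀ _ hη.ne']
    ring
  have hlt : ∀ t ∈ Icc (0 : ℝ) 1, X1 t < X2 t := by
    intro t ht
    have h3 := (hI1 t ht).2
    have h4 := (hI2 t ht).2
    have h5 := hI1' t ht
    have h6 := hI2' t ht
    rw [e2] at h4
    have h7 : S.lam j * X1 t < S.lam j * X2 t := by linarith
    exact lt_of_mul_lt_mul_left h7 hl.le
  have key := planar (α := S.V.α) (y1 := S.V.y1) S.V.y1_pos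
    (by have := S.V.y1_lt; have := S.κ_lt; linarith) hη hx2 (by linarith) T1 T2 hlt
    (by
      have h3 := hs1 _ ht0
      rw [hYt0, mul_zero, zero_div, add_zero] at h3
      have h4 := hI1' _ ht0
      by_contra hneg
      have h5 := mul_nonneg hl.le (not_lt.1 hneg)
      linarith)
    (by
      have h3 := hs2 _ ht0
      rw [hYt0, mul_zero, zero_div, add_zero] at h3
      have h4 := hI2' _ ht0
      by_contra hneg
      have h5 := mul_nonneg hl.le (neg_nonneg.2 (not_lt.1 hneg))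
      linarith)
    (by
      intro t ht m hf hm1 hm2
      by_contra hne
      apply hcon
      have h5 := hI1' t ht
      have h6 := hI2' t ht
      have htη : t * (S.lam j * (r / p)) ≤ S.lam j * (r / p) := by nlinarith [ht.2]
      have htη0 : 0 ≤ t * (S.lam j * (r / p)) := mul_nonneg ht.1 hη.le
      refine ⟨((m : ℝ), x.2 + t * (S.lam j * (r / p))), ?_, ?_, ?_⟩
      · have e := Int.floor_add_fract (x.2 + t * (S.lam j * (r / p)) - m * S.V.α)
        refine ⟨m, ⌊x.2 + t * (S.lam j * (r / p)) - m * S.V.α⌋, ?_⟩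
        rcases hf with hf | hf
        · left
          rw [hf] at e
          refine ⟨Prod.ext rfl (by change x.2 + t * (S.lam j * (r / p)) = _; linarith), ?_⟩
          by_contra hboth
          push Not at hboth
          rw [hboth.2, hboth.1] at e
          apply hne
          refine ⟨hboth.1, ?_⟩
          simp only [Int.cast_zero, zero_mul, sub_zero, add_zero] at e
          exact e.symm
        · right
          rw [hf] at e
          exact Prod.ext rfl (by change x.2 + t * (S.lam j * (r / p)) = _; linarith)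
      · have h7 := hs1 t ht
        have h8 := hs2 t ht
        have h9 := mul_le_mul_of_nonneg_left hm1 hl.le
        have h10 := mul_le_mul_of_nonneg_left hm2 hl.le
        have h11 : |S.lam j * m + s * (x.2 + t * (S.lam j * (r / p))) / S.lam j| < r * p := by
          rw [abs_lt]
          constructor <;> linarith
        have h12 : S.lam j * m + s * (x.2 + t * (S.lam j * (r / p))) / S.lam j =
            S.lam j * (m + s / S.lam j ^ 2 * (x.2 + t * (S.lam j * (r / p)))) := by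
          field_simp
        rw [h12, abs_mul, abs_of_pos hl] at h11
        change |(m : ℝ) + s / S.lam j ^ 2 * (x.2 + t * (S.lam j * (r / p)))| ≤ r0 * p
        have h13 := abs_nonneg ((m : ℝ) + s / S.lam j ^ 2 * (x.2 + t * (S.lam j * (r / p))))
        have h14 : |(m : ℝ) + s / S.lam j ^ 2 * (x.2 + t * (S.lam j * (r / p)))| ≤
            S.lam j * |(m : ℝ) + s / S.lam j ^ 2 * (x.2 + t * (S.lam j * (r / p)))| :=
          le_mul_of_one_le_left h13 hl1.le
        have h15 : r * p ≤ r0 * p := mul_le_mul_of_nonneg_right (by linarith) hp0.le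
        linarith
      · change |x.2 + t * (S.lam j * (r / p))| ≤ r0 / p
        have h7 : S.lam j * (r / p) ≤ r0 / p := by
          have h8 : S.lam j * (r / p) ≤ 11 / 10 * (r / p) :=
            mul_le_mul_of_nonneg_right hl2.le hb.le
          have h9 : 11 / 10 * (r / p) = (11 / 10 * r) / p := by ring
          have h10 : (11 / 10 * r) / p ≤ r0 / p := div_le_div_of_nonneg_right hr0 hp0.le
          linarith
        rw [abs_le]
        constructor <;> linarith)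
  -- the contradiction
  have hφ1 : S.V.φ (x.2 + S.lam j * (r / p)) * S.V.φ (x.2 + S.lam j * (r / p)) = 1 := by
    rcases S.V.val (x.2 + S.lam j * (r / p)) with h | h <;> rw [h] <;> norm_num
  have hφ0 : S.V.φ x.2 * S.V.φ x.2 = 1 := by
    rcases S.V.val x.2 with h | h <;> rw [h] <;> norm_num
  have h3 : σ1 1 * σ2 1 = σ1 0 * σ2 0 := by
    calc σ1 1 * σ2 1 = (σ1 1 * S.V.φ (x.2 + S.lam j * (r / p))) *
          (σ2 1 * S.V.φ (x.2 + S.lam j * (r / p))) := by
            linear_combination (-(σ1 1 * σ2 1)) * hφ1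
      _ = (σ1 0 * S.V.φ x.2) * (σ2 0 * S.V.φ x.2) := by rw [hf1, hf2]
      _ = σ1 0 * σ2 0 := by linear_combination (σ1 0 * σ2 0) * hφ0
  rw [h3] at key
  rcases hv1 with h | h <;> rcases hv2 with h' | h' <;> rw [h, h'] at key <;> norm_num at key

end Cfg

end Pool.Agent.H1.Horo
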