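import Pool.Agent.H1.Horo.SitDef

/-!
# The points with nonregular image

PROOF of `nonreg_cover`: the points `x` with `Θ x` not regular.
(i) `Θ x` on the slit `i`: the side `((i, n2), 1)` is a straight path of the sheared example with
holonomy `ell = l` (`straight_side`, `edge ((i,n2),1) = ell`, real, so it is fixed by the shear);
composed with `Θ.symm` it is a straight path of `(pat n, D'.edge)` with holonomy `l`
(`T.iso` for `Θ.symm ∘ side`); `straight_trace` covers its chart points by segments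
`{a + x l : 0 ≤ x ≤ r}`, `∑ r ≤ 4`.  Sum over `i : Fin n`: `4 n l`.
(ii) `Θ x` a vertex: the vertex classes are finitely many points of the glued surface; each point of the
glued surface has finitely many chart points (`mk_cases`: itself, a glued one, or vertices):
degenerate segments.
(An equivalence of a finite sum type with `Fin M` is needed at the end; it may be convenient to first prove the
statement with a `Fintype` index.)
-/

namespace Pool.Agent.H1.Horo

open Set MeasureTheory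

namespace Cfg
variable {n : ℕ} {κ : ℝ} [NeZero n]

omit [NeZero n] in
/-- a pattern with finitely many triangles: a point of the glued surface has finitely many chart
points -/
theorem finite_charts {P : Pattern} (x : P.Pt) : {p : P.Chart | Quot.mk P.Glued p = x}.Finite := by
  classical
  have := P.finite
  have : Finite (P.Tri × Fin 3) := inferInstance
  set p0 : P.Chart := Quot.out x with hp0
  have h0 : Quot.mk P.Glued p0 = x := Quot.out_eq x
  have hsub : {p : P.Chart | Quot.mk P.Glued p = x} ⊆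
      ({p0} ∪ ⋃ h : P.Tri × Fin 3, {p : P.Chart | p.1 = P.sidePt (P.glue h) (1 - p0.1.2 (h.2 + 1))}) ∪
        ⋃ h : P.Tri × Fin 3, {p : P.Chart | p.1 = P.sidePt h 0} := by
    intro p hp
    have h1 : Quot.mk P.Glued p0 = Quot.mk P.Glued p := h0.trans hp.symm
    rcases Pattern.mk_cases h1 with h2 | h2 | h2
    · exact Or.inl (Or.inl h2.symm)
    · obtain ⟨h, t, ht, e1, e2⟩ := h2
      refine Or.inl (Or.inr (mem_iUnion.2 ⟨h, ?_⟩))
      have h3 : p0.1.2 (h.2 + 1) = t := by
        have h4 : p0.1.2 = (P.sidePt h t).2 := by rw [e1]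
        rw [h4]
        have h5 : h.2 + 1 ≠ h.2 := by
          rcases h with ⟨f, k⟩
          fin_cases k <;> simp
        simp [Pattern.sidePt, h5]
      change p.1 = _
      rw [h3]; exact e2
    · obtain ⟨-, h, e⟩ := h2
      exact Or.inr (mem_iUnion.2 ⟨h, e⟩)
  refine Finite.subset ?_ hsub
  have hsing : ∀ y : P.Tri × (Fin 3 → ℝ), {p : P.Chart | p.1 = y}.Finite := by
    intro y
    apply Set.Subsingleton.finite
    intro a ha b hb
    exact Subtype.ext (ha.trans hb.symm)
  exact (((finite_singleton _).union (finite_iUnion fun _ => hsing _))).union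
    (finite_iUnion fun _ => hsing _)

/-- the vertices of the glued surface are finitely many points -/
theorem finite_vert : {x : (pat n).Pt | IsVert x}.Finite := by
  classical
  have hsub : {x : (pat n).Pt | IsVert x} ⊆
      range fun h : (pat n).Tri × Fin 3 =>
        (Quot.mk (pat n).Glued ((pat n).sideC h 0 (by simp)) : (pat n).Pt) := by
    rintro x ⟨p, ⟨h, hp⟩, rfl⟩
    exact ⟨h, congrArg _ (Subtype.ext hp.symm)⟩
  exact (finite_range _).subset hsub

namespace Sit
variable {S : Cfg n κ} (T : S.Sit)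

/-- the chart points over the preimage of a slit -/
theorem slit_cover (i : Fin n) :
    ∃ (M : ℕ) (f : Fin M → (pat n).Tri) (a : Fin M → ℂ) (r : Fin M → ℝ),
    (∀ k, 0 ≤ r k) ∧ ∑ k, r k ≤ 4 * S.l ∧
    ∀ p : (pat n).Chart, (∃ (t : ℝ) (ht : t ∈ Icc (0 : ℝ) 1),
        Quot.mk _ ((pat n).sideC ((i, TT.n2), 1) t ht) = T.Θ (Quot.mk (pat n).Glued p)) →
      ∃ k, p.1.1 = f k ∧ ∃ x ∈ Icc 0 (r k), (pat n).pos T.D'.edge p = a k + x := by
  classical
  let δ : ℝ → (pat n).Pt := fun t =>
    if ht : t ∈ Icc (0 : ℝ) 1 then Quot.mk _ ((pat n).sideC ((i, TT.n2), 1) t ht)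
    else Quot.mk _ default
  have hδ : ∀ (t : ℝ) (ht : t ∈ Icc (0 : ℝ) 1),
      δ t = Quot.mk (pat n).Glued ((pat n).sideC ((i, TT.n2), 1) t ht) := by
    intro t ht
    exact dif_pos ht
  have h1 : (pat n).IsStraight S.D.edge δ (S.D.edge ((i, TT.n2), 1)) :=
    Pattern.straight_side S.valid ((i, TT.n2), 1) hδ
  have hw : S.D.edge ((i, TT.n2), 1) = (S.l : ℂ) := rfl
  rw [hw] at h1
  have h2 : (pat n).IsStraight (shear T.s S.D.edge) δ (S.l : ℂ) := by
    have : (⟨(S.l : ℂ).re - T.s * (S.l : ℂ).im, (S.l : ℂ).im⟩ : ℂ) = (S.l : ℂ) := by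
      apply Complex.ext <;> simp
    refine Pattern.straight_shear.2 ?_
    rw [this]
    exact h1
  have h3 : (pat n).IsStraight T.D'.edge (T.Θ.symm ∘ δ) (S.l : ℂ) := by
    have := (T.iso (T.Θ.symm ∘ δ) (S.l : ℂ)).2
    apply this
    have h4 : T.Θ ∘ (T.Θ.symm ∘ δ) = δ := by
      funext t; simp
    rw [h4]
    exact h2
  obtain ⟨M, f, a, r, hr, hsum, hcov⟩ :=
    Pattern.straight_trace (edge_valid T.D' T.near.pos) h3
  refine ⟨M, f, a, fun k => r k * S.l, fun k => mul_nonneg (hr k) S.l_pos.le, ?_, ?_⟩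
  · rw [← Finset.sum_mul]
    exact mul_le_mul_of_nonneg_right hsum S.l_pos.le
  · rintro p ⟨t, ht, e⟩
    have h5 : Quot.mk (pat n).Glued p = (T.Θ.symm ∘ δ) t := by
      simp only [Function.comp]
      rw [hδ t ht, e]
      exact (Equiv.symm_apply_apply T.Θ _).symm
    obtain ⟨k, hk, x, hx, hpos⟩ := hcov p t ht h5
    refine ⟨k, hk, x * S.l, ⟨mul_nonneg hx.1 S.l_pos.le,
      mul_le_mul_of_nonneg_right hx.2 S.l_pos.le⟩, ?_⟩
    rw [hpos]
    push_cast
    ring

/-- the chart points over the preimages of the vertices are finitely many -/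
theorem vert_finite : {p : (pat n).Chart | IsVert (T.Θ (Quot.mk (pat n).Glued p))}.Finite := by
  have h : {p : (pat n).Chart | IsVert (T.Θ (Quot.mk (pat n).Glued p))} ⊆
      ⋃ x ∈ {x : (pat n).Pt | IsVert x}, {p : (pat n).Chart | Quot.mk (pat n).Glued p = T.Θ.symm x} := by
    intro p hp
    rw [mem_iUnion₂]
    exact ⟨T.Θ (Quot.mk (pat n).Glued p), hp, (Equiv.symm_apply_apply T.Θ _).symm⟩
  exact (finite_vert.biUnion fun x _ => finite_charts _).subset h

theorem nonreg_cover : ∃ (M : ℕ) (f : Fin M → (pat n).Tri) (a : Fin M → ℂ) (r : Fin M → ℝ),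
    (∀ k, 0 ≤ r k) ∧ ∑ k, r k ≤ 4 * n * S.l ∧
    ∀ p : (pat n).Chart, ¬ Reg (T.Θ (Quot.mk (pat n).Glued p)) →
      ∃ k, p.1.1 = f k ∧ ∃ x ∈ Icc 0 (r k), (pat n).pos T.D'.edge p = a k + x := by
  classical
  choose M f a r hr hsum hcov using T.slit_cover
  have : Fintype {p : (pat n).Chart | IsVert (T.Θ (Quot.mk (pat n).Glued p))} :=
    T.vert_finite.fintype
  let W := {p : (pat n).Chart | IsVert (T.Θ (Quot.mk (pat n).Glued p))}
  let ι := (Σ i : Fin n, Fin (M i)) ⊕ W
  let F : ι → (pat n).Tri := fun x => Sum.elim (fun y => f y.1 y.2) (fun p => p.1.1.1) x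
  let A : ι → ℂ := fun x => Sum.elim (fun y => a y.1 y.2) (fun p => (pat n).pos T.D'.edge p.1) x
  let R : ι → ℝ := fun x => Sum.elim (fun y => r y.1 y.2) (fun _ => 0) x
  have hR : ∀ x, 0 ≤ R x := by
    rintro (y | p)
    · exact hr y.1 y.2
    · exact le_refl _
  have hRs : ∑ x, R x ≤ 4 * n * S.l := by
    have h1 : ∑ x, R x = ∑ i : Fin n, ∑ k, r i k := by
      rw [Fintype.sum_sum_type]
      simp only [R, Sum.elim_inl, Sum.elim_inr, Finset.sum_const_zero, add_zero]
      rw [Fintype.sum_sigma]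
    rw [h1]
    calc ∑ i : Fin n, ∑ k, r i k ≤ ∑ i : Fin n, 4 * S.l := Finset.sum_le_sum fun i _ => hsum i
      _ = 4 * n * S.l := by simp; ring
  have hC : ∀ p : (pat n).Chart, ¬ Reg (T.Θ (Quot.mk (pat n).Glued p)) →
      ∃ k, p.1.1 = F k ∧ ∃ x ∈ Icc 0 (R k), (pat n).pos T.D'.edge p = A k + x := by
    intro p hp
    by_cases hv : IsVert (T.Θ (Quot.mk (pat n).Glued p))
    · refine ⟨Sum.inr ⟨p, hv⟩, rfl, 0, by simp [R], ?_⟩
      simp [A]
    · have he : OnEll (T.Θ (Quot.mk (pat n).Glued p)) := by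
        by_contra h
        exact hp ⟨h, hv⟩
      obtain ⟨i, t, ht, e⟩ := he
      obtain ⟨k, h1, x, hx, h2⟩ := hcov i p ⟨t, ht, e⟩
      exact ⟨Sum.inl ⟨i, k⟩, h1, x, hx, h2⟩
  let E : Fin (Fintype.card ι) ≃ ι := (Fintype.equivFin ι).symm
  refine ⟨Fintype.card ι, F ∘ E, A ∘ E, R ∘ E, fun k => hR _, ?_, ?_⟩
  · have : ∑ k, (R ∘ E) k = ∑ x, R x := E.sum_comp R
    rw [this]
    exact hRs
  · intro p hp
    obtain ⟨k, h1, x, hx, h2⟩ := hC p hp
    refine ⟨E.symm k, ?_, x, ?_, ?_⟩
    · simpa using h1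
    · simpa using hx
    · simpa using h2

end Sit

end Cfg

end Pool.Agent.H1.Horo
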