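import Pool.Agent.H1.Horo.Surf2
import Pool.Agent.H1.Horo.AreaIso

/-!
# Points of the surfaces with gluing pattern `pat n`

`hex i e` is the polygon (hexagon `0, C, C+z, C+A, A, z`) of the torus `(i, e)`, `slit i e` the slit
`[A, A + ell]` in it (only for the label `true`), `pt i e q` the point of the glued surface with
polygon position `q` (well defined off the slit, see `HexWD.lean`).
-/

namespace Pool.Agent.H1.Horo

open Set MeasureTheory

/-- the piece of a chart point -/
def pc {n : ℕ} [NeZero n] (p : (pat n).Chart) : Fin n := Prod.fst (α := Fin n) (β := TT) p.1.1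

/-- the label of a chart point -/
def lb {n : ℕ} [NeZero n] (p : (pat n).Chart) : Bool :=
  (Prod.snd (α := Fin n) (β := TT) p.1.1).lab

instance {n : ℕ} [NeZero n] : Fintype (pat n).Tri := inferInstanceAs (Fintype (Fin n × TT))
instance {n : ℕ} [NeZero n] : Inhabited (pat n).Chart :=
  ⟨(pat n).sideC ((0, TT.a1), 0) 0 (by simp)⟩

/-- the points of the slits of the glued surface -/
def OnEll {n : ℕ} [NeZero n] (x : (pat n).Pt) : Prop :=
  ∃ (i : Fin n) (t : ℝ) (ht : t ∈ Icc (0 : ℝ) 1),
    Quot.mk _ ((pat n).sideC ((i, TT.n2), 1) t ht) = x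

/-- the vertices of the glued surface -/
def IsVert {n : ℕ} [NeZero n] (x : (pat n).Pt) : Prop :=
  ∃ p : (pat n).Chart, (pat n).VertexC p ∧ Quot.mk _ p = x

/-- regular points -/
def Reg {n : ℕ} [NeZero n] (x : (pat n).Pt) : Prop := ¬ OnEll x ∧ ¬ IsVert x

namespace Par
variable {n : ℕ} [NeZero n] (D : Par n)

def hex (i : Fin n) (e : Bool) : Set ℂ :=
  {q | ∃ p : (pat n).Chart, pc p = i ∧ lb p = e ∧ D.ppos p = q}

omit [NeZero n] in
/-- the slit -/
def slit (i : Fin n) (e : Bool) : Set ℂ :=
  {q | e = true ∧ ∃ r ∈ Icc (0 : ℝ) 1, q = D.A i true + r * D.ell}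

open Classical in
noncomputable def pt (i : Fin n) (e : Bool) (q : ℂ) : (pat n).Pt :=
  if h : q ∈ D.hex i e then Quot.mk _ h.choose else Quot.mk _ default

end Par

end Pool.Agent.H1.Horo
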