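import Pool.Agent.H1.Horo.NonReg

/-!
# Good parameters

PROOFS.
* `exists_U`: let `u ∈ [κ, 1-κ]`, `t ∈ [0,1]` and `Θ (apath u t)` not regular.  `apath u t = mk p` with `p` in the
  torus `(i, e)`, `ppos p = u C + t A` (definition of `pt`, `apath_mem`; or `mk_eq_pt` with `apath_slit`).  So by
  `nonreg_cover`
  `u C + t A = off (f k) + a k + x`, `0 ≤ x ≤ r k`; applying `cr (·) A`:
  `u = cr (off (f k) + a k) A / cr C A + x A.im / cr C A`, i.e. `u` is in a closed interval of length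
  `r k A.im / cr C A ≤ (11/10) r k`.  Remove from `[κ, 1-κ]` these finitely many intervals, of total
  length at most `(11/10) 4 n l ≤ κ`.
* `exists_v`: the same with `z + v ρ + t C`, applying `cr C (·)`: `v` is in an interval of length
  `r k |C.im| / cr C ρ ≤ r k`, and `4 n l < 1/2`.
(`T.near`, `T.eps`, `Near.lean` for the bounds; `nice T.near T.eps : T.D'.Nice κ`.)
-/

namespace Pool.Agent.H1.Horo

open Set MeasureTheory

namespace Cfg
variable {n : ℕ} {κ : ℝ} [NeZero n]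

namespace Sit
variable {S : Cfg n κ} (T : S.Sit)

theorem sit_bad_eq {i : Fin n} {e : Bool} {q : ℂ} (hq : q ∈ T.D'.hex i e) (hs : q ∉ T.D'.slit i e)
    {M : ℕ} {f : Fin M → (pat n).Tri} {a : Fin M → ℂ} {r : Fin M → ℝ}
    (hc : ∀ p : (pat n).Chart, ¬ Reg (T.Θ (Quot.mk (pat n).Glued p)) →
      ∃ k, p.1.1 = f k ∧ ∃ x ∈ Icc 0 (r k), (pat n).pos T.D'.edge p = a k + x)
    (hr : ¬ Reg (T.Θ (T.D'.pt i e q))) :
    ∃ k, ∃ x ∈ Icc 0 (r k), q = T.D'.off (f k) + a k + x := by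
  obtain ⟨p, hp1, hp2, hp3⟩ := hq
  subst hp1 hp2 hp3
  rw [← Par.mk_eq_pt (nice T.near T.eps).pos hs] at hr
  obtain ⟨k, hk, x, hx, hpos⟩ := hc p hr
  refine ⟨k, x, hx, ?_⟩
  rw [Par.ppos, hpos, hk, add_assoc]

theorem exists_U (i : Fin n) (e : Bool) : ∃ U : Set ℝ, MeasurableSet U ∧ U ⊆ Icc κ (1 - κ) ∧
    ENNReal.ofReal (1 - 3 * κ) ≤ volume U ∧
    ∀ u ∈ U, ∀ t ∈ Icc (0 : ℝ) 1, Reg (T.Θ (T.D'.apath i e u t)) := by
  obtain ⟨M, f, a, r, hr0, hrs, hc⟩ := T.nonreg_cover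
  have hN := nice T.near T.eps
  obtain ⟨hA1, hA2⟩ := A_im T.near T.eps i e
  obtain ⟨hC1, hC2⟩ := cr_CA T.near T.eps i e
  set C := T.D'.C i e with hCdef
  set A := T.D'.A i e with hAdef
  have hcr : 0 < cr C A := by linarith
  have hquot : A.im / cr C A ≤ 11 / 10 := by
    rw [div_le_iff₀ hcr]; linarith
  have hquot0 : 0 ≤ A.im / cr C A := by
    apply div_nonneg <;> linarith
  set b : Fin M → ℝ := fun k => cr (T.D'.off (f k) + a k) A / cr C A with hb
  set J : Fin M → Set ℝ := fun k => Icc (b k) (b k + r k * (A.im / cr C A)) with hJ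
  refine ⟨Icc κ (1 - κ) \ ⋃ k, J k, measurableSet_Icc.diff (MeasurableSet.iUnion fun k =>
    measurableSet_Icc), sdiff_subset, ?_, ?_⟩
  · have h1 : volume (⋃ k, J k) ≤ ENNReal.ofReal (∑ k, r k * (A.im / cr C A)) := by
      refine (measure_iUnion_fintype_le _ _).trans ?_
      rw [ENNReal.ofReal_sum_of_nonneg fun k _ => mul_nonneg (hr0 k) hquot0]
      apply Finset.sum_le_sum
      intro k _
      rw [hJ, Real.volume_Icc]
      apply ENNReal.ofReal_le_ofReal
      linarith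
    have h2 : ∑ k, r k * (A.im / cr C A) ≤ κ := by
      rw [← Finset.sum_mul]
      have h3 := S.l_lt
      have h4 := S.l_pos
      have h5 : 0 ≤ ∑ k, r k := Finset.sum_nonneg fun k _ => hr0 k
      have h6 : (0 : ℝ) ≤ n * S.l := by positivity
      nlinarith
    calc ENNReal.ofReal (1 - 3 * κ) ≤ ENNReal.ofReal ((1 - κ - κ) - ∑ k, r k * (A.im / cr C A)) := by
          apply ENNReal.ofReal_le_ofReal; linarith
      _ = ENNReal.ofReal (1 - κ - κ) - ENNReal.ofReal (∑ k, r k * (A.im / cr C A)) := by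
          rw [ENNReal.ofReal_sub _ (Finset.sum_nonneg fun k _ => mul_nonneg (hr0 k) hquot0)]
      _ ≤ volume (Icc κ (1 - κ)) - volume (⋃ k, J k) := by
          rw [Real.volume_Icc]
          exact tsub_le_tsub_left h1 _
      _ ≤ volume (Icc κ (1 - κ) \ ⋃ k, J k) := le_measure_sdiff
  · rintro u ⟨hu, hnu⟩ t ht
    by_contra hreg
    obtain ⟨k, x, hx, hq⟩ := T.sit_bad_eq (Par.apath_mem hN i e hu ht) (Par.apath_slit hN i e hu ht)
      hc hreg
    apply hnu
    rw [mem_iUnion]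
    refine ⟨k, ?_⟩
    have h1 : u * cr C A = cr (T.D'.off (f k) + a k) A + x * A.im := by
      have h2 := congrArg (fun w => cr w A) hq
      simp only [cr, Complex.add_re, Complex.add_im, Complex.mul_re, Complex.mul_im,
        Complex.ofReal_re, Complex.ofReal_im, ← hCdef, ← hAdef] at h2 ⊢
      linear_combination h2
    have h3 : u = b k + x * (A.im / cr C A) := by
      rw [hb]
      field_simp
      linarith
    rw [hJ, h3]
    constructor
    · have := mul_nonneg hx.1 hquot0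
      linarith
    · have := mul_le_mul_of_nonneg_right hx.2 hquot0
      linarith

theorem exists_v (i : Fin n) (e : Bool) : ∃ v ∈ Icc (1 / 4 : ℝ) (3 / 4),
    ∀ t ∈ Icc (0 : ℝ) 1, Reg (T.Θ (T.D'.cpath i e v t)) := by
  obtain ⟨M, f, a, r, hr0, hrs, hc⟩ := T.nonreg_cover
  have hN := nice T.near T.eps
  obtain ⟨hC1, hC2⟩ := C_im T.near T.eps i e
  have hρ := cr_Cρ T.near T.eps i e
  set C := T.D'.C i e with hCdef
  set ρ := T.D'.rho i e with hρdef
  have hcr : 0 < cr C ρ := by linarith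
  have hquot : C.im / cr C ρ ≤ 1 := by
    rw [div_le_iff₀ hcr]; linarith
  have hquot0 : 0 ≤ C.im / cr C ρ := by
    apply div_nonneg <;> linarith
  set b : Fin M → ℝ := fun k => cr C (T.D'.off (f k) + a k - T.D'.zz i) / cr C ρ with hb
  set J : Fin M → Set ℝ := fun k => Icc (b k - r k * (C.im / cr C ρ)) (b k) with hJ
  have h1 : volume (⋃ k, J k) ≤ ENNReal.ofReal (∑ k, r k * (C.im / cr C ρ)) := by
    refine (measure_iUnion_fintype_le _ _).trans ?_
    rw [ENNReal.ofReal_sum_of_nonneg fun k _ => mul_nonneg (hr0 k) hquot0]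
    apply Finset.sum_le_sum
    intro k _
    rw [hJ, Real.volume_Icc]
    apply ENNReal.ofReal_le_ofReal
    linarith
  have h2 : ∑ k, r k * (C.im / cr C ρ) < 1 / 2 := by
    rw [← Finset.sum_mul]
    have h3 := S.l_lt
    have h4 := S.l_pos
    have h5 : 0 ≤ ∑ k, r k := Finset.sum_nonneg fun k _ => hr0 k
    have h6 : (0 : ℝ) ≤ n * S.l := by positivity
    have h7 := S.κ_lt
    nlinarith
  have h8 : 0 < volume (Icc (1 / 4 : ℝ) (3 / 4) \ ⋃ k, J k) := by
    calc (0 : ENNReal) < ENNReal.ofReal ((3 / 4 - 1 / 4) - ∑ k, r k * (C.im / cr C ρ)) := by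
          rw [ENNReal.ofReal_pos]; linarith
      _ = ENNReal.ofReal (3 / 4 - 1 / 4) - ENNReal.ofReal (∑ k, r k * (C.im / cr C ρ)) := by
          rw [ENNReal.ofReal_sub _ (Finset.sum_nonneg fun k _ => mul_nonneg (hr0 k) hquot0)]
      _ ≤ volume (Icc (1 / 4 : ℝ) (3 / 4)) - volume (⋃ k, J k) := by
          rw [Real.volume_Icc]
          exact tsub_le_tsub_left h1 _
      _ ≤ _ := le_measure_sdiff
  obtain ⟨v, hv, hnv⟩ := nonempty_of_measure_ne_zero h8.ne'
  refine ⟨v, hv, fun t ht => ?_⟩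
  by_contra hreg
  obtain ⟨k, x, hx, hq⟩ := T.sit_bad_eq (Par.cpath_mem hN i e hv ht) (Par.cpath_slit hN i e hv ht)
    hc hreg
  apply hnv
  rw [mem_iUnion]
  refine ⟨k, ?_⟩
  have h9 : v * cr C ρ = cr C (T.D'.off (f k) + a k - T.D'.zz i) - x * C.im := by
    have h2 := congrArg (fun w => cr C w) hq
    simp only [cr, Complex.add_re, Complex.add_im, Complex.mul_re, Complex.mul_im,
      Complex.sub_re, Complex.sub_im,
      Complex.ofReal_re, Complex.ofReal_im, ← hCdef, ← hρdef] at h2 ⊢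
    linear_combination h2
  have h10 : v = b k - x * (C.im / cr C ρ) := by
    rw [hb]
    field_simp
    linarith
  rw [hJ, h10]
  constructor
  · have := mul_le_mul_of_nonneg_right hx.2 hquot0
    linarith
  · have := mul_nonneg hx.1 hquot0
    linarith

noncomputable def U (i : Fin n) (e : Bool) : Set ℝ := (T.exists_U i e).choose
noncomputable def v (i : Fin n) (e : Bool) : ℝ := (T.exists_v i e).choose

theorem U_meas (i : Fin n) (e : Bool) : MeasurableSet (T.U i e) :=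
  (T.exists_U i e).choose_spec.1
theorem U_sub (i : Fin n) (e : Bool) : T.U i e ⊆ Icc κ (1 - κ) :=
  (T.exists_U i e).choose_spec.2.1
theorem U_vol (i : Fin n) (e : Bool) : ENNReal.ofReal (1 - 3 * κ) ≤ volume (T.U i e) :=
  (T.exists_U i e).choose_spec.2.2.1
theorem U_reg (i : Fin n) (e : Bool) {u : ℝ} (hu : u ∈ T.U i e) {t : ℝ} (ht : t ∈ Icc (0 : ℝ) 1) :
    Reg (T.Θ (T.D'.apath i e u t)) :=
  (T.exists_U i e).choose_spec.2.2.2 u hu t ht
theorem v_mem (i : Fin n) (e : Bool) : T.v i e ∈ Icc (1 / 4 : ℝ) (3 / 4) :=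
  (T.exists_v i e).choose_spec.1
theorem v_reg (i : Fin n) (e : Bool) {t : ℝ} (ht : t ∈ Icc (0 : ℝ) 1) :
    Reg (T.Θ (T.D'.cpath i e (T.v i e) t)) :=
  (T.exists_v i e).choose_spec.2 t ht

theorem U_nonempty (i : Fin n) (e : Bool) : (T.U i e).Nonempty := by
  by_contra h
  rw [not_nonempty_iff_eq_empty] at h
  have h2 := T.U_vol i e
  rw [h, measure_empty] at h2
  have h3 := S.κ_lt
  have h4 : (0 : ℝ) < 1 - 3 * κ := by linarith
  exact absurd h2 (not_le.2 (ENNReal.ofReal_pos.2 h4))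

end Sit

end Cfg

end Pool.Agent.H1.Horo
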