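import Pool.Agent.H1.Horo.Near
import Pool.Agent.H1.Horo.Lift
import Pool.Agent.H1.Horo.Lat

/-!
# The situation: a surface close to the example is isomorphic to the sheared example

`T : S.Sit` consists of the parameters `D'` of a surface close to the example `S.D`, and an isomorphism
`Θ` of it with the image of the example under the shear `s`.
-/

namespace Pool.Agent.H1.Horo

open Set MeasureTheory

namespace Cfg
variable {n : ℕ} {κ : ℝ} [NeZero n]

structure Sit (S : Cfg n κ) where
  D' : Par n
  ε : ℝ
  s : ℝ
  Θ : (pat n).Pt ≃ (pat n).Pt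
  near : S.Near D' ε
  eps : S.Eps ε
  iso : IsIso (P := pat n) (Q := pat n) D'.edge (shear s S.D.edge) Θ

namespace Sit
variable {S : Cfg n κ} (T : S.Sit)

theorem image_straight {γ : ℝ → (pat n).Pt} {w : ℂ} (h : (pat n).IsStraight T.D'.edge γ w) :
    (pat n).IsStraight S.D.edge (fun t => T.Θ (γ t)) ⟨w.re - T.s * w.im, w.im⟩ :=
  Pattern.straight_shear.1 ((T.iso γ w).1 h)

end Sit

end Cfg

end Pool.Agent.H1.Horo
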