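import Pool.Agent.H1.Horo.Defs
import Pool.Agent.H1.Horo.Basic

/-!
The gluing pattern of the example, its side vectors, polygon coordinates.

For each piece `i : Fin n` there are two slit tori `T_(i,+)` (label `true`, triangles
`a1 a2 a3 n1 n2 n3`) and `T_(i,-)` (label `false`, triangles `b1 b2 b3 b4`).  In polygon
coordinates each of them is the hexagon with vertices `0, C, C+z, C+A, A, z`, `A = z + ρ`:
the parallelogram `(C, z)` below, the parallelogram `z + (C, ρ)` above.
`b1=(0,C,C+z) b2=(0,C+z,z) b3=(z,C+z,C+A) b4=(z,C+A,A)`, and the same with `a1 a2 a3` for the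
label `true`, where the last triangle `(z,C+A,A)` is divided at the interior point `Q = A + ell`
into `n1=(z,C+A,Q) n2=(C+A,A,Q) n3=(A,z,Q)`.  The segment `[A,Q]` is the slit: `n2` is above it and
`n3` below it; the slit sides of consecutive pieces are glued cyclically.
-/

namespace Pool.Agent.H1.Horo

open Set MeasureTheory

inductive TT | a1 | a2 | a3 | n1 | n2 | n3 | b1 | b2 | b3 | b4
  deriving DecidableEq, Fintype

/-- label of the torus containing a triangle -/
def TT.lab : TT → Bool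
  | .a1 => true | .a2 => true | .a3 => true | .n1 => true | .n2 => true | .n3 => true
  | .b1 => false | .b2 => false | .b3 => false | .b4 => false

/-- the sides glued inside one piece -/
def TT.gl : TT → Fin 3 → TT × Fin 3
  | .a1, 0 => (.n2, 0) | .n2, 0 => (.a1, 0)
  | .a1, 1 => (.b2, 2) | .b2, 2 => (.a1, 1)
  | .a1, 2 => (.a2, 0) | .a2, 0 => (.a1, 2)
  | .a2, 1 => (.a3, 0) | .a3, 0 => (.a2, 1)
  | .a2, 2 => (.b1, 1) | .b1, 1 => (.a2, 2)
  | .a3, 1 => (.n3, 0) | .n3, 0 => (.a3, 1)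
  | .a3, 2 => (.n1, 0) | .n1, 0 => (.a3, 2)
  | .n1, 1 => (.n2, 2) | .n2, 2 => (.n1, 1)
  | .n1, 2 => (.n3, 1) | .n3, 1 => (.n1, 2)
  | .n2, 1 => (.n3, 2) | .n3, 2 => (.n2, 1)
  | .b1, 0 => (.b4, 1) | .b4, 1 => (.b1, 0)
  | .b1, 2 => (.b2, 0) | .b2, 0 => (.b1, 2)
  | .b2, 1 => (.b3, 0) | .b3, 0 => (.b2, 1)
  | .b3, 1 => (.b4, 2) | .b4, 2 => (.b3, 1)
  | .b3, 2 => (.b4, 0) | .b4, 0 => (.b3, 2)

/-- the shift of the piece when a side is crossed: the slit sides lead to the next or to the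
previous piece -/
def TT.sh (n : ℕ) [NeZero n] : TT → Fin 3 → Fin n → Fin n
  | .n2, 1, i => i + 1
  | .n3, 2, i => i - 1
  | _, _, i => i

def glueN (n : ℕ) [NeZero n] (h : (Fin n × TT) × Fin 3) : (Fin n × TT) × Fin 3 :=
  ((TT.sh n h.1.2 h.2 h.1.1, (TT.gl h.1.2 h.2).1), (TT.gl h.1.2 h.2).2)

theorem gl_gl (t : TT) (k : Fin 3) : TT.gl (TT.gl t k).1 (TT.gl t k).2 = (t, k) := by
  cases t <;> fin_cases k <;> rfl

theorem gl_ne (t : TT) (k : Fin 3) : TT.gl t k ≠ (t, k) := by
  cases t <;> fin_cases k <;> decide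

theorem glueN_glueN (n : ℕ) [NeZero n] (h : (Fin n × TT) × Fin 3) : glueN n (glueN n h) = h := by
  obtain ⟨⟨i, t⟩, k⟩ := h
  cases t <;> fin_cases k <;> simp [glueN, TT.gl, TT.sh]

theorem glueN_ne (n : ℕ) [NeZero n] (h : (Fin n × TT) × Fin 3) : glueN n h ≠ h := by
  obtain ⟨⟨i, t⟩, k⟩ := h
  intro hh
  apply gl_ne t k
  simp only [glueN, Prod.mk.injEq] at hh
  ext1
  · exact hh.1.2
  · exact hh.2

/-- The gluing pattern with `n` pieces. -/
def pat (n : ℕ) [NeZero n] : Pattern where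
  Tri := Fin n × TT
  finite := inferInstance
  glue := glueN n
  glue_glue := glueN_glueN n
  glue_ne := glueN_ne n

/-- cross product -/
def cr (a b : ℂ) : ℝ := a.re * b.im - a.im * b.re

/-- The free parameters of the surfaces with gluing pattern `pat n`. -/
structure Par (n : ℕ) where
  ell : ℂ
  zz : Fin n → ℂ
  rho : Fin n → Bool → ℂ
  C : Fin n → Bool → ℂ

namespace Par
variable {n : ℕ} (D : Par n)

def A (i : Fin n) (e : Bool) : ℂ := D.zz i + D.rho i e

/-- side vectors -/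
def edge (h : (Fin n × TT) × Fin 3) : ℂ :=
  match h with
  | ((i, .a1), 0) => D.C i true
  | ((i, .a1), 1) => D.zz i
  | ((i, .a1), 2) => -(D.C i true + D.zz i)
  | ((i, .a2), 0) => D.C i true + D.zz i
  | ((i, .a2), 1) => - D.C i true
  | ((i, .a2), 2) => - D.zz i
  | ((i, .a3), 0) => D.C i true
  | ((i, .a3), 1) => D.rho i true
  | ((i, .a3), 2) => -(D.C i true + D.rho i true)
  | ((i, .n1), 0) => D.C i true + D.rho i true
  | ((i, .n1), 1) => D.ell - D.C i true
  | ((i, .n1), 2) => -(D.rho i true + D.ell)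
  | ((i, .n2), 0) => - D.C i true
  | ((_, .n2), 1) => D.ell
  | ((i, .n2), 2) => D.C i true - D.ell
  | ((i, .n3), 0) => - D.rho i true
  | ((i, .n3), 1) => D.rho i true + D.ell
  | ((_, .n3), 2) => - D.ell
  | ((i, .b1), 0) => D.C i false
  | ((i, .b1), 1) => D.zz i
  | ((i, .b1), 2) => -(D.C i false + D.zz i)
  | ((i, .b2), 0) => D.C i false + D.zz i
  | ((i, .b2), 1) => - D.C i false
  | ((i, .b2), 2) => - D.zz i
  | ((i, .b3), 0) => D.C i false
  | ((i, .b3), 1) => D.rho i false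
  | ((i, .b3), 2) => -(D.C i false + D.rho i false)
  | ((i, .b4), 0) => D.C i false + D.rho i false
  | ((i, .b4), 1) => - D.C i false
  | ((i, .b4), 2) => - D.rho i false

/-- polygon position of vertex `0` of each triangle -/
def off (f : Fin n × TT) : ℂ :=
  match f with
  | (_, .a1) => 0
  | (_, .a2) => 0
  | (i, .a3) => D.zz i
  | (i, .n1) => D.zz i
  | (i, .n2) => D.C i true + D.A i true
  | (i, .n3) => D.A i true
  | (_, .b1) => 0
  | (_, .b2) => 0
  | (i, .b3) => D.zz i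
  | (i, .b4) => D.zz i

/-- The positivity conditions: all triangles are positively oriented. -/
structure Pos : Prop where
  cz : ∀ i e, 0 < cr (D.C i e) (D.zz i)
  cρ : ∀ i e, 0 < cr (D.C i e) (D.rho i e)
  ec : ∀ i, 0 < cr D.ell (D.C i true)
  eρ : ∀ i, 0 < cr D.ell (D.rho i true)
  n1 : ∀ i, 0 < cr (D.C i true) (D.rho i true) - cr D.ell (D.C i true) - cr D.ell (D.rho i true)

end Par

variable {n : ℕ} [NeZero n]

/-- polygon position of a point of a triangle -/
noncomputable def Par.ppos (D : Par n) (p : (pat n).Chart) : ℂ :=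
  D.off p.1.1 + (pat n).pos D.edge p

end Pool.Agent.H1.Horo
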