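import Pool.Agent.H1.Horo.Surf

/-!
Validity of the side vectors `D.edge`, and conversely every valid choice of side vectors on the
pattern `pat n` is of this form.
-/

namespace Pool.Agent.H1.Horo

open Set MeasureTheory

variable {n : ℕ} [NeZero n]

theorem edge_valid (D : Par n) (h : D.Pos) : (pat n).Valid D.edge where
  closed := by
    rintro ⟨i, t⟩
    cases t <;> simp only [Par.edge] <;> ring
  oriented := by
    rintro ⟨i, t⟩
    have h1 := h.cz i true
    have h2 := h.cz i false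
    have h3 := h.cρ i true
    have h4 := h.cρ i false
    have h5 := h.ec i
    have h6 := h.eρ i
    have h7 := h.n1 i
    simp only [cr] at h1 h2 h3 h4 h5 h6 h7
    cases t <;> simp only [Par.edge, Complex.add_re, Complex.add_im, Complex.neg_re,
      Complex.neg_im, Complex.sub_re, Complex.sub_im] <;> nlinarith
  glued := by
    rintro ⟨⟨i, t⟩, k⟩
    cases t <;> fin_cases k <;>
      simp [pat, glueN, TT.gl, TT.sh, Par.edge]

/-- the parameters read off from the side vectors -/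
def parOf (z : (Fin n × TT) × Fin 3 → ℂ) : Par n :=
  ⟨z (((0 : Fin n), TT.n2), 1), fun i => z ((i, TT.b1), 1),
    fun i e => if e then z ((i, TT.a3), 1) else z ((i, TT.b3), 1),
    fun i e => if e then z ((i, TT.a1), 0) else z ((i, TT.b1), 0)⟩

theorem parOf_edge {z : (Fin n × TT) × Fin 3 → ℂ}
    (hc : ∀ f : Fin n × TT, z (f, 0) + z (f, 1) + z (f, 2) = 0)
    (hg : ∀ h : (Fin n × TT) × Fin 3, z (glueN n h) = - z h) : (parOf z).edge = z := by
  have c1 : ∀ i, z ((i, TT.a1), 0) + z ((i, TT.a1), 1) + z ((i, TT.a1), 2) = 0 := fun i => hc _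
  have c2 : ∀ i, z ((i, TT.a2), 0) + z ((i, TT.a2), 1) + z ((i, TT.a2), 2) = 0 := fun i => hc _
  have c3 : ∀ i, z ((i, TT.a3), 0) + z ((i, TT.a3), 1) + z ((i, TT.a3), 2) = 0 := fun i => hc _
  have c4 : ∀ i, z ((i, TT.n1), 0) + z ((i, TT.n1), 1) + z ((i, TT.n1), 2) = 0 := fun i => hc _
  have c5 : ∀ i, z ((i, TT.n2), 0) + z ((i, TT.n2), 1) + z ((i, TT.n2), 2) = 0 := fun i => hc _
  have c6 : ∀ i, z ((i, TT.n3), 0) + z ((i, TT.n3), 1) + z ((i, TT.n3), 2) = 0 := fun i => hc _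
  have c7 : ∀ i, z ((i, TT.b1), 0) + z ((i, TT.b1), 1) + z ((i, TT.b1), 2) = 0 := fun i => hc _
  have c8 : ∀ i, z ((i, TT.b2), 0) + z ((i, TT.b2), 1) + z ((i, TT.b2), 2) = 0 := fun i => hc _
  have c9 : ∀ i, z ((i, TT.b3), 0) + z ((i, TT.b3), 1) + z ((i, TT.b3), 2) = 0 := fun i => hc _
  have c10 : ∀ i, z ((i, TT.b4), 0) + z ((i, TT.b4), 1) + z ((i, TT.b4), 2) = 0 := fun i => hc _
  have g1 : ∀ i, z ((i, TT.n2), 0) = - z ((i, TT.a1), 0) := fun i => hg ((i, TT.a1), 0)
  have g2 : ∀ i, z ((i, TT.b2), 2) = - z ((i, TT.a1), 1) := fun i => hg ((i, TT.a1), 1)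
  have g3 : ∀ i, z ((i, TT.a2), 0) = - z ((i, TT.a1), 2) := fun i => hg ((i, TT.a1), 2)
  have g4 : ∀ i, z ((i, TT.a3), 0) = - z ((i, TT.a2), 1) := fun i => hg ((i, TT.a2), 1)
  have g5 : ∀ i, z ((i, TT.b1), 1) = - z ((i, TT.a2), 2) := fun i => hg ((i, TT.a2), 2)
  have g6 : ∀ i, z ((i, TT.n3), 0) = - z ((i, TT.a3), 1) := fun i => hg ((i, TT.a3), 1)
  have g7 : ∀ i, z ((i, TT.n1), 0) = - z ((i, TT.a3), 2) := fun i => hg ((i, TT.a3), 2)
  have g8 : ∀ i, z ((i, TT.n2), 2) = - z ((i, TT.n1), 1) := fun i => hg ((i, TT.n1), 1)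
  have g9 : ∀ i, z ((i, TT.n3), 1) = - z ((i, TT.n1), 2) := fun i => hg ((i, TT.n1), 2)
  have g10 : ∀ i, z ((i + 1, TT.n3), 2) = - z ((i, TT.n2), 1) := fun i => hg ((i, TT.n2), 1)
  have g11 : ∀ i, z ((i, TT.b4), 1) = - z ((i, TT.b1), 0) := fun i => hg ((i, TT.b1), 0)
  have g12 : ∀ i, z ((i, TT.b2), 0) = - z ((i, TT.b1), 2) := fun i => hg ((i, TT.b1), 2)
  have g13 : ∀ i, z ((i, TT.b3), 0) = - z ((i, TT.b2), 1) := fun i => hg ((i, TT.b2), 1)
  have g14 : ∀ i, z ((i, TT.b4), 2) = - z ((i, TT.b3), 1) := fun i => hg ((i, TT.b3), 1)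
  have g15 : ∀ i, z ((i, TT.b4), 0) = - z ((i, TT.b3), 2) := fun i => hg ((i, TT.b3), 2)
  -- all slit vectors are equal
  have hn2 : ∀ i, z ((i, TT.n2), 1) = - z ((i, TT.n3), 2) := by
    intro i
    have e2 := c2 i
    have e3 := c3 i
    have e4 := c4 i
    have e5 := c5 i
    have e6 := c6 i
    have e1 := c1 i
    have e7 := c7 i
    have e8 := c8 i
    have e9 := c9 i
    have e10 := c10 i
    rw [g1 i, g8 i] at e5
    rw [g6 i, g9 i] at e6
    rw [g7 i] at e4
    rw [g4 i] at e3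
    rw [g3 i] at e2
    rw [g5 i] at e7
    rw [g12 i, g2 i] at e8
    rw [g13 i] at e9
    rw [g15 i, g11 i, g14 i] at e10
    linear_combination e5 + e4 + e6 + e3 + e2 + e1 + e7 + e8 + e9 + e10
  have hell : ∀ i, z ((i, TT.n2), 1) = z (((0 : Fin n), TT.n2), 1) := by
    have hstep : ∀ i, z ((i + 1, TT.n2), 1) = z ((i, TT.n2), 1) := by
      intro i
      rw [hn2 (i + 1), g10 i, neg_neg]
    have hnat : ∀ m : ℕ, z (((Fin.ofNat n m), TT.n2), 1) = z (((0 : Fin n), TT.n2), 1) := by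
      intro m
      induction m with
      | zero => simp
      | succ m ih =>
        have : Fin.ofNat n (m + 1) = Fin.ofNat n m + 1 := by
          simp [Fin.ext_iff, Fin.val_add]
        rw [this, hstep, ih]
    intro i
    have h1 : Fin.ofNat n i.1 = i := by
      simp
    rw [← h1]; exact hnat i.1
  funext h
  obtain ⟨⟨i, t⟩, k⟩ := h
  have hc1 := c1 i; have hc2 := c2 i; have hc3 := c3 i; have hc4 := c4 i; have hc5 := c5 i; have hc6 := c6 i; have hc7 := c7 i; have hc8 := c8 i; have hc9 := c9 i; have hc10 := c10 i; have hg1 := g1 i; have hg2 := g2 i; have hg3 := g3 i; have hg4 := g4 i; have hg5 := g5 i; have hg6 := g6 i; have hg7 := g7 i; have hg8 := g8 i; have hg9 := g9 i; have hg11 := g11 i; have hg12 := g12 i; have hg13 := g13 i; have hg14 := g14 i; have hg15 := g15 i; have hhn2 := hn2 i; have hhell := hell i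
  clear c1 c2 c3 c4 c5 c6 c7 c8 c9 c10 g1 g2 g3 g4 g5 g6 g7 g8 g9 g10 g11 g12 g13 g14 g15 hn2
  clear hell hc hg
  generalize hw : z (((0 : Fin n), TT.n2), 1) = w at *
  have hy : ∃ y : TT → Fin 3 → ℂ, ∀ t k, z ((i, t), k) = y t k := ⟨fun t k => z ((i, t), k), fun _ _ => rfl⟩
  obtain ⟨y, hy⟩ := hy
  have hk : k = 0 ∨ k = 1 ∨ k = 2 := by fin_cases k <;> simp
  simp only [hy] at hc1 hc2 hc3 hc4 hc5 hc6 hc7 hc8 hc9 hc10 hg1 hg2 hg3 hg4 hg5 hg6 hg7 hg8
  simp only [hy] at hg9 hg11 hg12 hg13 hg14 hg15 hhn2 hhell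
  cases t <;> rcases hk with rfl | rfl | rfl <;>
    simp only [Par.edge, parOf, ite_true, Bool.false_eq_true, ite_false, hy] <;> grind

theorem exists_par {z : (pat n).Tri × Fin 3 → ℂ} (hz : (pat n).Valid z) :
    ∃ D : Par n, D.Pos ∧ D.edge = z := by
  have hD : (parOf (n := n) z).edge = z := parOf_edge (n := n) (z := z) hz.closed hz.glued
  refine ⟨_, ?_, hD⟩
  have ho := hz.oriented
  rw [← hD] at ho
  generalize parOf (n := n) z = D at ho
  constructor
  · intro i e
    cases e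
    · have := ho (i, TT.b1)
      simpa [Par.edge, cr] using this
    · have := ho (i, TT.a1)
      simpa [Par.edge, cr] using this
  · intro i e
    cases e
    · have := ho (i, TT.b3)
      simpa [Par.edge, cr] using this
    · have := ho (i, TT.a3)
      simpa [Par.edge, cr] using this
  · intro i
    have := ho (i, TT.n2)
    simp only [Par.edge, Complex.neg_re, Complex.neg_im] at this
    simp only [cr]
    linarith
  · intro i
    have := ho (i, TT.n3)
    simp only [Par.edge, Complex.neg_re, Complex.neg_im, Complex.add_re, Complex.add_im] at this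
    simp only [cr]
    linarith
  · intro i
    have := ho (i, TT.n1)
    simp only [Par.edge, Complex.sub_re, Complex.sub_im, Complex.add_re, Complex.add_im] at this
    simp only [cr]
    linarith

end Pool.Agent.H1.Horo
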